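import Pool.Agent.Adq.Tr1

/-! Growing subtrees one leaf at a time. -/

namespace Pool.Agent.Adm.Shape

open Sum

variable {n : ℕ} (σ : Shape n)

theorem growth_Tr2 (P : Set (Fin σ.r) → Prop) (ρ : Fin σ.r) (B : Set (Fin σ.r))
    (hB : ∀ δ : σ.T.Dart, δ.fst ∈ B → ρ ∈ σ.Br δ → δ.snd ∈ B)
    (hs : ∀ (U : Set (Fin σ.r)) (δ : σ.T.Dart), δ.fst ∈ U → δ.snd ∉ U →
      (∀ δ' : σ.T.Dart, δ'.fst = δ.snd → δ'.snd ∈ U → δ' = δ.symm) → P U →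
      P (insert δ.snd U)) (m : ℕ) :
    ∀ U : Set (Fin σ.r), (B \ U).ncard = m → U ⊆ B → ρ ∈ U →
      (∀ δ : σ.T.Dart, δ.fst ∈ U → ρ ∈ σ.Br δ → δ.snd ∈ U) → P U → P B := by
  induction m using Nat.strong_induction_on with
  | _ m ih =>
    intro U hm hU hρ hc hP
    rcases (B \ U).eq_empty_or_nonempty with he | hne
    · rwa [← hU.antisymm (Set.sdiff_eq_empty.1 he)]
    obtain ⟨v, hv, hmin⟩ := Set.exists_min_image (B \ U) (fun u => σ.T.dist u ρ)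
      (Set.toFinite _) hne
    obtain ⟨δ, rfl, hδ⟩ := σ.exists_dart (v := v) (u := ρ) fun e => hv.2 (e ▸ hρ)
    have hw : δ.snd ∈ U := by
      by_contra hw
      exact (hmin _ ⟨hB δ hv.1 hδ, hw⟩).not_gt hδ
    have h1 : P (insert δ.fst U) := hs U δ.symm hw hv.2 (fun δ' e h' => by
      by_cases h : ρ ∈ σ.Br δ'
      · exact σ.dart_unique e h hδ
      · have h2 : δ'.fst ∈ U := hc δ'.symm h' ((σ.mem_Br_symm δ' ρ).2 h)
        rw [e] at h2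
        exact absurd h2 hv.2) hP
    refine ih _ ?_ (insert δ.fst U) rfl (Set.insert_subset hv.1 hU) (Or.inr hρ) ?_ h1
    · rw [← hm]
      exact Set.ncard_lt_ncard ⟨Set.sdiff_subset_sdiff_right (Set.subset_insert _ _),
        fun h => (h hv).2 (Or.inl rfl)⟩ (Set.toFinite _)
    · rintro δ' (e | h) h'
      · rw [σ.dart_unique e h' hδ]
        exact Or.inr hw
      · exact Or.inr (hc δ' h h')

theorem root_Tr2 (ρ : Fin σ.r) (δ : σ.T.Dart) (h : δ.fst ∈ ({ρ} : Set (Fin σ.r)))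
    (h' : ρ ∈ σ.Br δ) : δ.snd ∈ ({ρ} : Set (Fin σ.r)) := by
  rw [← Set.mem_singleton_iff.1 h] at h'
  exact absurd h' (σ.fst_notMem_Br δ)

theorem growth_univ (P : Set (Fin σ.r) → Prop) (ρ : Fin σ.r) (h0 : P {ρ})
    (hs : ∀ (U : Set (Fin σ.r)) (δ : σ.T.Dart), δ.fst ∈ U → δ.snd ∉ U →
      (∀ δ' : σ.T.Dart, δ'.fst = δ.snd → δ'.snd ∈ U → δ' = δ.symm) → P U →
      P (insert δ.snd U)) : P Set.univ := by
  exact σ.growth_Tr2 P ρ _ (fun _ _ _ => trivial) hs _ {ρ} rfl (Set.subset_univ _) rfl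
    (σ.root_Tr2 ρ) h0

theorem growth_Br (P : Set (Fin σ.r) → Prop) (δ0 : σ.T.Dart) (h0 : P {δ0.snd})
    (hs : ∀ (U : Set (Fin σ.r)) (δ : σ.T.Dart), δ.fst ∈ U → δ.snd ∉ U →
      (∀ δ' : σ.T.Dart, δ'.fst = δ.snd → δ'.snd ∈ U → δ' = δ.symm) → P U →
      P (insert δ.snd U)) : P (σ.Br δ0) := by
  refine σ.growth_Tr2 P δ0.snd _ (fun δ h1 h2 => ?_) hs _ {δ0.snd} rfl
    (Set.singleton_subset_iff.2 (σ.snd_mem_Br δ0)) rfl (σ.root_Tr2 _) h0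
  by_contra h3
  rw [σ.eq_symm_of_leaves h1 h3] at h2
  exact σ.fst_notMem_Br δ0.symm h2

theorem bd_insert (U : Set (Fin σ.r)) (δ : σ.T.Dart) (h1 : δ.fst ∈ U) (h2 : δ.snd ∉ U)
    (h3 : ∀ δ' : σ.T.Dart, δ'.fst = δ.snd → δ'.snd ∈ U → δ' = δ.symm) :
    σ.bd (insert δ.snd U) = (σ.bd U \ {inl δ}) ∪ (σ.bd {δ.snd} \ {inl δ.symm}) := by
  ext s
  rcases s with ε | l
  · have e : ∀ W : Set (Fin σ.r), inl ε ∈ σ.bd W ↔ ε.fst ∈ W ∧ ε.snd ∉ W := fun W =>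
      ⟨fun h => ⟨h.1, h.2 ε rfl⟩, fun h => ⟨h.1, fun _ e => inl_injective e ▸ h.2⟩⟩
    simp only [Set.mem_union, Set.mem_sdiff, e, Set.mem_insert_iff, Set.mem_singleton_iff,
      inl.injEq, not_or]
    constructor
    · rintro ⟨a | a, b, c⟩
      · exact Or.inr ⟨⟨a, b⟩, fun e => c (e ▸ h1)⟩
      · exact Or.inl ⟨⟨a, c⟩, fun e => b (e ▸ rfl)⟩
    · rintro (⟨⟨a, b⟩, c⟩ | ⟨⟨a, b⟩, c⟩)
      · exact ⟨Or.inr a, fun e => c (SimpleGraph.Dart.symm_involutive.injective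
          (h3 ε.symm e a)), b⟩
      · exact ⟨Or.inl a, b, fun e => c (h3 ε a e)⟩
  · simp [bd, or_comm]

theorem nonempty_vertex : Nonempty (Fin σ.r) := by
  exact σ.tree.connected.nonempty

end Pool.Agent.Adm.Shape
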