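import Pool.Agent.Adq.ML
import Pool.Agent.Adm.BC
import Pool.Agent.Adm.TW

/-! Functoriality of vertex coverings, base change, amalgamation. -/

namespace Pool.Agent.Adm

open scoped OnePoint

variable {k G σ : Type} [Field k] [Group G] {θ : K0 →+* k}

theorem VP.map {H : Type} [Group H] {p : σ → OnePoint k} {d : σ → G} {R : Subgroup G}
    (h : VP θ p d R) (f : G →* H) : VP θ p (fun s => f (d s)) (R.map f) := by
  obtain ⟨c, h1, h2, h3⟩ := h
  refine ⟨c.map f, by rw [c.map_range, h1], fun a ha => ?_, fun s => (h3 s).map f⟩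
  have h4 := (h2 a ha).map f
  rwa [map_one] at h4

theorem VP.mem {p : σ → OnePoint k} {d : σ → G} {R : Subgroup G} (h : VP θ p d R) (s : σ) :
    d s ∈ R := by
  obtain ⟨c, h1, -, h3⟩ := h
  exact h1 ▸ (h3 s).mem_range

theorem VP.odd {p : σ → OnePoint k} {d : σ → G} {R : Subgroup G} (h : VP θ p d R) (s : σ) :
    ∃ e, Odd e ∧ d s ^ e = 1 := by
  obtain ⟨c, -, -, h3⟩ := h
  exact (h3 s).pow_eq_one

theorem VP.restr {p : σ → OnePoint k} {R : Subgroup G} (H : Subgroup G) (hH : R ≤ H)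
    (d : σ → H) (h : VP θ p (fun s => (d s : G)) R) : VP θ p d (R.subgroupOf H) := by
  obtain ⟨c, rfl, h2, h3⟩ := h
  exact ⟨c.restr H hH, c.restr_range H hH, fun a ha => Cover.M.restr H hH (g := 1) (h2 a ha),
    fun s => Cover.M.restr H hH (h3 s)⟩

theorem VP.reindex {σ' : Type} {p : σ → OnePoint k} {d : σ → G} {R : Subgroup G}
    (h : VP θ p d R) (f : σ' → σ) (hf : Function.Surjective f) :
    VP θ (fun s => p (f s)) (fun s => d (f s)) R := by
  obtain ⟨c, h1, h2, h3⟩ := h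
  refine ⟨c, h1, fun a ha => h2 a ?_, fun s => h3 (f s)⟩
  rintro ⟨s, rfl⟩
  obtain ⟨t, rfl⟩ := hf s
  exact ha ⟨t, rfl⟩

theorem VP.mob {p : σ → OnePoint k} {d : σ → G} {R : Subgroup G} (h : VP θ p d R)
    (μ : OnePoint k ≃ OnePoint k) (hμ : Mob1 μ) : VP θ (fun s => μ (p s)) d R := by
  obtain ⟨c, h1, h2, h3⟩ := h
  obtain ⟨c', h4, h5⟩ := hμ G c
  have h6 : ∀ a g, c.M θ a g → c'.M θ (μ a) g := fun a g ⟨e, he, hm⟩ => ⟨e, he, h5 _ _ _ _ hm⟩
  refine ⟨c', h4.trans h1, fun a ha => ?_, fun s => h6 _ _ (h3 s)⟩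
  obtain ⟨b, rfl⟩ := μ.surjective a
  refine h6 _ _ (h2 b ?_)
  rintro ⟨s, rfl⟩
  exact ha ⟨s, rfl⟩

theorem VP.bc [IsAlgClosed k] {k' : Type} [Field k'] [IsAlgClosed k'] {p : σ → OnePoint k}
    {d : σ → G} {R : Subgroup G} (h : VP θ p d R) (ψ : k →+* k') :
    VP (ψ.comp θ) (fun s => (p s).map ψ) d R := by
  obtain ⟨c, h1, h2, h3⟩ := h
  have h0 : ∃ a e ζ g, c.Mono a e ζ g := by
    by_cases hi : ∞ ∈ Set.range p
    · obtain ⟨s, -⟩ := hi
      obtain ⟨e, -, hm⟩ := h3 s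
      exact ⟨_, _, _, _, hm⟩
    · obtain ⟨e, -, hm⟩ := h2 _ hi
      exact ⟨_, _, _, _, hm⟩
  obtain ⟨c', h4, h5, h6⟩ := c.exists_baseChange ψ h0
  have h7 : ∀ a g, c.M θ a g → c'.M (ψ.comp θ) (a.map ψ) g :=
    fun a g ⟨e, he, hm⟩ => ⟨e, he, h5 _ _ _ _ hm⟩
  have h8 : ∀ b : OnePoint k, b.map ψ ∉ Set.range (fun s => (p s).map ψ) →
      c'.M (ψ.comp θ) (b.map ψ) 1 := fun b hb => h7 b 1 (h2 b (by
    rintro ⟨s, rfl⟩
    exact hb ⟨s, rfl⟩))
  refine ⟨c', h4.trans h1, fun a ha => ?_, fun s => h7 _ _ (h3 s)⟩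
  induction a using OnePoint.rec with
  | infty => exact h8 ∞ ha
  | coe x =>
    by_cases hx : x ∈ Set.range ψ
    · obtain ⟨y, rfl⟩ := hx
      exact h8 (y : OnePoint k) ha
    · exact (h6 x hx).m_one _

theorem exists_amalgam0 {k1 k2 : Type} [Field k1] [Field k2] (θ1 : K0 →+* k1) (θ2 : K0 →+* k2) :
    ∃ (k : Type) (_ : Field k) (_ : IsAlgClosed k) (ψ1 : k1 →+* k) (ψ2 : k2 →+* k),
      ψ1.comp θ1 = ψ2.comp θ2 := by
  obtain ⟨k, i1, i2, ψ1, ψ2, h⟩ := amalg_TW θ1 θ2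
  exact ⟨k, i1, i2, ψ1, ψ2, RingHom.ext h⟩

variable {ι : Type} {S : Set ι}

theorem Geo.map {H : Type} [Group H] {d : ι → G} {R : Subgroup G} (h : Geo S d R) (f : G →* H) :
    Geo S (fun i => f (d i)) (R.map f) := by
  obtain ⟨k, i1, i2, θ, p, hp, h⟩ := h
  exact ⟨k, i1, i2, θ, p, hp, h.map f⟩

theorem Geo.mem {d : ι → G} {R : Subgroup G} (h : Geo S d R) {i : ι} (hi : i ∈ S) : d i ∈ R := by
  obtain ⟨k, i1, i2, θ, p, -, h⟩ := h
  exact h.mem ⟨i, hi⟩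

theorem Geo.restr {R : Subgroup G} (H : Subgroup G) (hH : R ≤ H) (d : ι → H)
    (h : Geo S (fun i => (d i : G)) R) : Geo S d (R.subgroupOf H) := by
  obtain ⟨k, i1, i2, θ, p, hp, h⟩ := h
  exact ⟨k, i1, i2, θ, p, hp, VP.restr H hH (fun s : S => d s) h⟩

theorem Geo.equiv {ι' : Type} {S' : Set ι'} {d : ι → G} {d' : ι' → G} {R : Subgroup G}
    (h : Geo S d R) (f : S' ≃ S) (hf : ∀ s : S', d' s = d (f s)) : Geo S' d' R := by
  obtain ⟨k, i1, i2, θ, p, hp, h⟩ := h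
  refine ⟨k, i1, i2, θ, fun s => p (f s), hp.comp f.injective, ?_⟩
  rw [funext hf]
  exact h.reindex f f.surjective

theorem Geo.univ {d : ι → G} {R : Subgroup G} (h : Geo S d R) :
    Geo Set.univ (fun s : S => d s) R := by
  exact h.equiv (Equiv.Set.univ S) fun _ => rfl

theorem VP.geo [IsAlgClosed k] {p : σ → OnePoint k} {d : σ → G} {R : Subgroup G}
    (h : VP θ p d R) (hp : Function.Injective p) : Geo Set.univ d R := by
  exact ⟨k, inferInstance, inferInstance, θ, fun s => p s, hp.comp Subtype.val_injective,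
    h.reindex Subtype.val fun s => ⟨⟨s, trivial⟩, rfl⟩⟩

theorem range_le_VPL (θ θ' : K0 →+* k) : Set.range θ ⊆ Set.range θ' := by
  rintro _ ⟨x, rfl⟩
  obtain ⟨P, hP, hx⟩ := Algebra.IsAlgebraic.isAlgebraic (R := ZMod 2) x
  refine mem_range_TW θ' (θ x) (P.map (algebraMap (ZMod 2) K0))
    ((Polynomial.map_ne_zero_iff (algebraMap (ZMod 2) K0).injective).2 hP) ?_
  rw [Polynomial.eval₂_map, Subsingleton.elim (θ'.comp _) (θ.comp (algebraMap (ZMod 2) K0)),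
    ← Polynomial.hom_eval₂, ← Polynomial.aeval_def, hx, map_zero]

/-- Two embeddings of the constants have the same image. -/
theorem range_theta_eq (θ θ' : K0 →+* k) : Set.range θ = Set.range θ' := by
  exact Set.Subset.antisymm (range_le_VPL θ θ') (range_le_VPL θ' θ)

end Pool.Agent.Adm
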