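import Pool.Agent.Adq.FP
import Pool.Agent.Adq.VPL
import Pool.Agent.Adq.Tr2

/-! Assembling vertex coverings along the tree. -/

namespace Pool.Agent.Adm

open Sum

variable {n : ℕ} {σ : Shape n} {z : Pt σ}

theorem isConj_inv_ASM {G : Type} [Group G] {a b : G} (h : IsConj a b) : IsConj a⁻¹ b⁻¹ := by
  obtain ⟨c, rfl⟩ := isConj_iff.1 h
  exact isConj_iff.2 ⟨c, by group⟩

theorem isConj_pi_ASM {J : Type} {B : J → Type} [∀ j, Group (B j)] {a b : ∀ j, B j}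
    (h : ∀ j, IsConj (a j) (b j)) : IsConj a b := by
  choose c hc using fun j => isConj_iff.1 (h j)
  exact isConj_iff.2 ⟨c, funext hc⟩

theorem Pt.VS.exists_conj {W : Type} [Group W] {g : σ.Slot → W} {R : Fin σ.r → Subgroup W}
    (h : z.VS W g R) : ∃ γ : Fin σ.r → W, ∀ δ : σ.T.Dart,
      (γ δ.snd)⁻¹ * g (inl δ.symm) * γ δ.snd = ((γ δ.fst)⁻¹ * g (inl δ) * γ δ.fst)⁻¹ := by
  classical
  obtain ⟨ρ⟩ := σ.nonempty_vertex
  have key := σ.growth_univ (fun U => ∃ γ : Fin σ.r → W, ∀ δ : σ.T.Dart, δ.fst ∈ U → δ.snd ∈ U →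
    (γ δ.snd)⁻¹ * g (inl δ.symm) * γ δ.snd = ((γ δ.fst)⁻¹ * g (inl δ) * γ δ.fst)⁻¹) ρ
    ⟨1, fun δ h1 h2 => absurd (h1.trans h2.symm) δ.fst_ne_snd⟩ ?_
  · obtain ⟨γ, hγ⟩ := key
    exact ⟨γ, fun δ => hγ δ trivial trivial⟩
  rintro U δ h1 h2 h3 ⟨γ, hγ⟩
  obtain ⟨c, hc⟩ := isConj_iff.1 (h.2 δ)
  have hU : ∀ u ∈ U, Function.update γ δ.snd (c * γ δ.fst) u = γ u := fun u hu =>
    Function.update_of_ne (fun e : u = δ.snd => h2 (e ▸ hu)) _ _
  have h0 : (c * γ δ.fst)⁻¹ * g (inl δ.symm) * (c * γ δ.fst) =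
      ((γ δ.fst)⁻¹ * g (inl δ) * γ δ.fst)⁻¹ := by
    rw [← hc]
    group
  refine ⟨Function.update γ δ.snd (c * γ δ.fst), fun δ' k1 k2 => ?_⟩
  rcases k1 with k1 | k1
  · rcases k2 with k2 | k2
    · exact absurd (k1.trans k2.symm) δ'.fst_ne_snd
    · obtain rfl := h3 δ' k1 k2
      rw [hU _ k2, k1, Function.update_self, h0, inv_inv, SimpleGraph.Dart.symm_symm]
      rfl
  · rcases k2 with k2 | k2
    · obtain rfl : δ' = δ := SimpleGraph.Dart.symm_involutive.injective (h3 δ'.symm k2 k1)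
      rw [hU _ k1, Function.update_self, h0]
    · rw [hU _ k1, hU _ k2]
      exact hγ δ' k1 k2

theorem Pt.Real.adm {P : GP n} (h : z.Real P) :
    ∃ (G : Type) (_ : Group G) (_ : Finite G) (d : σ.Slot → G), z.Adm G d ∧
      P G fun l => d (inr l) := by
  obtain ⟨W, _, _, g, R, hVS, hP⟩ := h
  obtain ⟨γ, hγ⟩ := hVS.exists_conj
  let c : Fin σ.r → W →* W := fun v => (MulAut.conj (γ v)⁻¹).toMonoidHom
  have hc : ∀ v x, c v x = (γ v)⁻¹ * x * γ v := fun v x => by simp [c]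
  let G : Subgroup W := ⨆ v, (R v).map (c v)
  have hle : ∀ v, (R v).map (c v) ≤ G := fun v => le_iSup (fun v => (R v).map (c v)) v
  let d : σ.Slot → G := fun s => ⟨c (σ.base s) (g s),
    hle _ (Subgroup.mem_map_of_mem _ (VP.mem (hVS.1 (σ.base s)) ⟨s, rfl⟩))⟩
  refine ⟨G, inferInstance, inferInstance, d,
    ⟨fun v => ((R v).map (c v)).subgroupOf G, ⟨fun v => ?_, fun δ => ?_⟩, ?_⟩,
    hP G _ G.subtype ⟨fun l => ?_, fun v => ⟨γ v, fun x hx => ?_⟩⟩⟩
  · refine VP.restr G (hle v) _ ?_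
    have e : (fun s : σ.Sl v => (d s : W)) = fun s : σ.Sl v => c v (g s) := by
      funext s
      obtain ⟨s, rfl⟩ := s
      rfl
    rw [e]
    exact VP.map (hVS.1 v) (c v)
  · apply Subtype.ext
    change c δ.snd (g (inl δ.symm)) = (c δ.fst (g (inl δ)))⁻¹
    rw [hc, hc, hγ]
  · apply Subgroup.map_injective G.subtype_injective
    rw [Subgroup.map_iSup, ← MonoidHom.range_eq_map, Subgroup.range_subtype]
    refine iSup_congr fun v => ?_
    rw [Subgroup.subgroupOf_map_subtype, inf_eq_left.2 (hle v)]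
  · change IsConj (c (σ.comp l) (g (inr l))) (g (inr l))
    rw [hc]
    exact isConj_iff.2 ⟨γ (σ.comp l), by group⟩
  · rw [Subgroup.range_subtype, ← hc]
    exact hle v (Subgroup.mem_map_of_mem _ hx)

theorem Pt.Real.mono {P P' : GP n} (h : z.Real P)
    (hP : ∀ (G : Type) [Group G] [Finite G] (d : Fin n → G), P G d → P' G d) : z.Real P' := by
  obtain ⟨W, _, _, g, R, hVS, h⟩ := h
  exact ⟨W, inferInstance, inferInstance, g, R, hVS, fun G _ _ d π hd => hP G d (h G d π hd)⟩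

theorem Pt.Real.all {J : Type} [Finite J] {P : J → GP n} (h : ∀ j, z.Real (P j)) :
    z.Real fun G _ d => ∀ j, P j G d := by
  choose W iG iF g R hVS hP using h
  choose d' R' h1 h2 h3 using fun v => VP.pi fun j => (hVS j).1 v
  let g' : σ.Slot → ∀ j, W j := fun s => d' (σ.base s) ⟨s, rfl⟩
  have h4 : ∀ s j, IsConj (g' s j) (g j s) := fun s j => h3 (σ.base s) ⟨s, rfl⟩ j
  refine ⟨∀ j, W j, inferInstance, inferInstance, g', R', ⟨fun v => ?_, fun δ => ?_⟩,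
    fun G _ _ d π hd j => hP j G d ((Pi.evalMonoidHom W j).comp π) ⟨fun l => ?_, fun v => ?_⟩⟩
  · have e : (fun s : σ.Sl v => g' s) = d' v := by
      funext s
      obtain ⟨s, rfl⟩ := s
      rfl
    unfold Pt.VCat
    rw [e]
    exact h1 v
  · exact isConj_pi_ASM fun j =>
      ((isConj_inv_ASM (h4 (inl δ) j)).trans ((hVS j).2 δ)).trans (h4 (inl δ.symm) j).symm
  · exact ((Pi.evalMonoidHom W j).map_isConj (hd.1 l)).trans (h4 (inr l) j)
  · obtain ⟨γ, hγ⟩ := hd.2 v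
    refine ⟨γ j, fun x hx => ?_⟩
    rw [← h2 v j] at hx
    obtain ⟨y, hy, rfl⟩ := hx
    obtain ⟨w, hw⟩ := hγ y hy
    exact ⟨w, congrFun hw j⟩

theorem Pt.Real.and {P P' : GP n} (h : z.Real P) (h' : z.Real P') :
    z.Real fun G _ d => P G d ∧ P' G d := by
  have h1 := Pt.Real.all (J := Bool) (P := fun j => cond j P P') fun j => by
    cases j
    · exact h'
    · exact h
  exact h1.mono fun G _ _ d hd => ⟨hd true, hd false⟩

end Pool.Agent.Adm
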