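import Pool.Agent.Adq.Xi

/-! A compactness argument for endomorphisms of the algebraic closure of a finite field. -/

namespace Pool.Agent.Adm

theorem const_CMP {I A : Type} (𝒰 : Ultrafilter I) (f : I → A) {s : Set A} (hs : s.Finite)
    (hf : ∀ i, f i ∈ s) : ∃ a, ∀ᶠ i in 𝒰, f i = a := by
  have h : ∀ᶠ i in 𝒰, ∃ a ∈ s, f i = a := Filter.Eventually.of_forall fun i => ⟨_, hf i, rfl⟩
  obtain ⟨a, -, ha⟩ := (Ultrafilter.eventually_exists_mem_iff hs).1 h
  exact ⟨a, ha⟩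

theorem finite_CMP (x : K0) : ∃ s : Set K0, s.Finite ∧ ∀ σ : K0 →+* K0, σ x ∈ s := by
  refine ⟨(minpoly (ZMod 2) x).rootSet K0, Polynomial.rootSet_finite _ _, fun σ => ?_⟩
  have hx : IsIntegral (ZMod 2) x := Algebra.IsIntegral.isIntegral x
  let τ : K0 →ₐ[ZMod 2] K0 :=
    { σ with
      commutes' := fun c => congrArg (fun f : ZMod 2 →+* K0 => f c)
        (RingHom.ext_zmod (σ.comp (algebraMap (ZMod 2) K0)) (algebraMap (ZMod 2) K0)) }
  rw [Polynomial.mem_rootSet_of_ne (minpoly.ne_zero hx)]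
  change Polynomial.aeval (τ x) _ = 0
  rw [Polynomial.aeval_algHom_apply, minpoly.aeval, map_zero]

theorem exists_forall_of_finite {T U : Type} [Finite U] (P : U → (K0 →+* K0) → T → Prop)
    (hloc : ∀ t, ∃ S : Finset K0, ∀ u σ σ', (∀ x ∈ S, σ x = σ' x) → P u σ t → P u σ' t)
    (hfin : ∀ S : Finset T, ∃ u σ, ∀ t ∈ S, P u σ t) : ∃ u σ, ∀ t, P u σ t := by
  classical
  choose u σ h using hfin
  let 𝒰 : Ultrafilter (Finset T) := Ultrafilter.of Filter.atTop
  have hU : (𝒰 : Filter (Finset T)) ≤ Filter.atTop := Ultrafilter.of_le _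
  obtain ⟨u0, hu⟩ := const_CMP 𝒰 u Set.finite_univ fun _ => trivial
  have h1 : ∀ x, ∃ a, ∀ᶠ S in 𝒰, σ S x = a := fun x => by
    obtain ⟨s, hs, h2⟩ := finite_CMP x
    exact const_CMP 𝒰 (fun S => σ S x) hs fun S => h2 _
  choose s hs using h1
  let τ : K0 →+* K0 :=
    { toFun := s
      map_one' := by
        obtain ⟨S, h2⟩ := (hs 1).exists
        rw [← h2, map_one]
      map_zero' := by
        obtain ⟨S, h2⟩ := (hs 0).exists
        rw [← h2, map_zero]
      map_mul' := fun x y => by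
        obtain ⟨S, h2, h3, h4⟩ := ((hs x).and ((hs y).and (hs (x * y)))).exists
        rw [← h2, ← h3, ← h4, map_mul]
      map_add' := fun x y => by
        obtain ⟨S, h2, h3, h4⟩ := ((hs x).and ((hs y).and (hs (x + y)))).exists
        rw [← h2, ← h3, ← h4, map_add] }
  refine ⟨u0, τ, fun t => ?_⟩
  obtain ⟨A, hA⟩ := hloc t
  have h2 : ∀ᶠ S in 𝒰, ∀ x ∈ A, σ S x = s x := (Filter.eventually_all_finset A).2 fun x _ => hs x
  have h3 : ∀ᶠ S : Finset T in 𝒰, ({t} : Finset T) ≤ S :=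
    (Filter.eventually_ge_atTop ({t} : Finset T)).filter_mono hU
  obtain ⟨S, h4, h5, h6⟩ := (hu.and (h2.and h3)).exists
  exact hA u0 (σ S) τ h5 (h4 ▸ h S t (h6 (Finset.mem_singleton_self t)))

end Pool.Agent.Adm
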