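import Pool.Agent.Adq.HF
import Pool.Agent.Adq.CMP

/-! A specialisation of fundamental groups gives a specialisation of cross ratios. -/

namespace Pool.Agent.Adm

theorem Pt.Pass.dir_HM {n : ℕ} {σ σ' : Shape n} {z : Pt σ} {z' : Pt σ'} {τ : Fin n ≃ Fin n}
    {s : K0 →+* K0} {v : Fin σ.r} {v' : Fin σ'.r} {j0 j1 j2 l : Fin n}
    (h : z.Pass z' τ s v j0 j1 j2 {l} (MvPolynomial.X l)) (hm : σ.IsMed v j0 j1 j2)
    (hm' : σ'.IsMed v' (τ j0) (τ j1) (τ j2)) (h0 : σ.dir v l ≠ σ.dir v j0)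
    (h2 : σ.dir v l ≠ σ.dir v j2) : σ'.dir v' (τ l) ≠ σ'.dir v' (τ j0) := by
  intro e
  refine h hm (fun l' hl' => by rwa [Finset.mem_singleton.1 hl']) ?_ v' hm'
    (fun l' hl' => by rw [Finset.mem_singleton.1 hl', e]; exact hm'.2.1) ?_
  · rw [MvPolynomial.eval₂_X, if_pos (Finset.mem_singleton_self l), Ne, z.crs_eq_zero_iff hm]
    exact not_or.2 ⟨h0, h2⟩
  · rw [MvPolynomial.eval₂_X, if_pos (Finset.mem_singleton_self l), z'.crs_eq_zero_iff hm']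
    exact Or.inl e

theorem Pt.Le.exists_rel {n : ℕ} {σ σ' : Shape n} {z : Pt σ} {z' : Pt σ'} (h : z.Le z') :
    ∃ (τ : Fin n ≃ Fin n) (θ'' : K0 →+* z'.k), z.Rel (z'.tw θ'') τ := by
  classical
  obtain ⟨τ, s, hP⟩ := exists_forall_of_finite
    (T := Fin σ.r × Fin n × Fin n × Fin n × Finset (Fin n) × MvPolynomial (Fin n) K0)
    (fun (τ : Fin n ≃ Fin n) s t =>
      z.Pass z' τ s t.1 t.2.1 t.2.2.1 t.2.2.2.1 t.2.2.2.2.1 t.2.2.2.2.2)
    (fun t => ⟨t.2.2.2.2.2.support.image fun d => t.2.2.2.2.2.coeff d,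
      fun τ s s' hs hp a1 a2 a3 v' a4 a5 e => hp a1 a2 a3 v' a4 a5 (by
        refine Eq.trans ?_ e
        rw [MvPolynomial.eval₂_eq, MvPolynomial.eval₂_eq]
        refine Finset.sum_congr rfl fun d hd => ?_
        rw [RingHom.comp_apply, RingHom.comp_apply, hs _ (Finset.mem_image_of_mem _ hd)])⟩)
    (fun S => by
      obtain ⟨τ, s, hp⟩ := h.exists_pass (J := S) (fun t => t.1.1) (fun t => t.1.2.1)
        (fun t => t.1.2.2.1) (fun t => t.1.2.2.2.1) (fun t => t.1.2.2.2.2.1)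
        fun t => t.1.2.2.2.2.2
      exact ⟨τ, s, fun t ht => hp ⟨t, ht⟩⟩)
  refine ⟨τ, z'.θ.comp s, fun v v' i0 i1 i2 hm hm' => ?_⟩
  have h1 : ∀ l, σ.dir v l ≠ σ.dir v i2 → σ'.dir v' (τ l) ≠ σ'.dir v' (τ i2) := fun l hl => by
    by_cases h0 : σ.dir v l = σ.dir v i0
    · exact Pt.Pass.dir_HM (hP (v, i2, i0, i1, {l}, MvPolynomial.X l))
        ⟨hm.2.1.symm, hm.2.2.symm, hm.1⟩ ⟨hm'.2.1.symm, hm'.2.2.symm, hm'.1⟩ hl (h0 ▸ hm.1)
    · exact Pt.Pass.dir_HM (hP (v, i2, i1, i0, {l}, MvPolynomial.X l))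
        ⟨hm.2.2.symm, hm.2.1.symm, hm.1.symm⟩ ⟨hm'.2.2.symm, hm'.2.1.symm, hm'.1.symm⟩ hl h0
  refine ⟨h1, fun f hf => ?_⟩
  by_contra hn
  refine hP (v, i0, i1, i2, Finset.univ.filter fun l => σ.dir v l ≠ σ.dir v i2, f) hm
    (fun l hl => (Finset.mem_filter.1 hl).2) (fun e => hn (Eq.trans ?_ e)) v' hm'
    (fun l hl => h1 l (Finset.mem_filter.1 hl).2) (Eq.trans ?_ hf)
  · congr 1
    funext l
    by_cases hl : σ.dir v l = σ.dir v i2
    · rw [if_neg (by simpa using hl), z.crs_eq_zero_iff hm]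
      exact Or.inr hl
    · rw [if_pos (by simpa using hl)]
  · congr 1
    funext l
    by_cases hl : σ.dir v l = σ.dir v i2
    · rw [if_neg (by simpa using hl), if_pos hl]
      rfl
    · rw [if_pos (by simpa using hl), if_neg hl]
      rfl

end Pool.Agent.Adm
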