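import Pool.Agent.Adq.D1
import Pool.Agent.Adm.GA

/-! Lemmas on monodromy. -/

namespace Pool.Agent.Adm

open scoped OnePoint

variable {k G : Type} [Field k] [Group G]

theorem Cover.Mono.inv {c : Cover k G} {a : OnePoint k} {e : ℕ} {ζ : k} {g : G}
    (h : c.Mono a e ζ g) : c.Mono a e ζ⁻¹ g⁻¹ := by
  obtain ⟨he, hζ, j, hC, hX, σ, hσ, hs⟩ := h
  refine ⟨he, hζ.inv, j, hC, hX, σ⁻¹, by rw [map_inv, hσ], fun x n => ?_⟩
  have h1 := hs (σ⁻¹ x) n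
  have h2 : σ (σ⁻¹ x) = x := σ.apply_symm_apply x
  have h0 : ζ ≠ 0 := hζ.ne_zero he.ne'
  rw [h2] at h1
  rw [h1, inv_zpow, ← mul_assoc, inv_mul_cancel₀ (zpow_ne_zero n h0), one_mul]

theorem Cover.Mono.pow {c : Cover k G} {a : OnePoint k} {e : ℕ} {ζ : k} {g : G}
    (h : c.Mono a e ζ g) (j : ℕ) (hj : j.Coprime e) : c.Mono a e (ζ ^ j) (g ^ j) := by
  obtain ⟨he, hζ, J, hC, hX, σ, hσ, hs⟩ := h
  refine ⟨he, hζ.pow_of_coprime j hj, J, hC, hX, σ ^ j, by rw [map_pow, hσ], ?_⟩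
  clear hj
  induction j with
  | zero => intro x n; simp
  | succ j ih =>
    intro x n
    rw [pow_succ' σ j, AlgEquiv.mul_apply, hs, ih, pow_succ' ζ j, mul_zpow, mul_assoc]

theorem Cover.Mono.lift {c : Cover k G} {a : OnePoint k} {e e' : ℕ} {ξ : k} {g : G}
    (he' : 0 < e') (hξ : IsPrimitiveRoot ξ (e * e')) (h : c.Mono a e (ξ ^ e') g) :
    c.Mono a (e * e') ξ g := by
  have hE : 0 < e * e' := Nat.mul_pos h.1 he'
  refine Cover.RMono.mono hE hξ ?_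
  have h1 := h.rmono.comp (powL e' he') (scL ξ (hξ.ne_zero hE.ne'))
    (fun x => (scL_powL e' he' ξ _ x).symm)
  have h2 : (powL e' he').comp (HahnSeries.C : k →+* LaurentSeries k) = HahnSeries.C :=
    RingHom.ext fun x => powL_C e' he' x
  rwa [h2, powL_expand, mul_comm e' e] at h1

theorem Cover.RMono.conj {c : Cover k G} {W : Type} [CommRing W] {φ : k →+* W} {u : W}
    {s : W →+* W} {g : G} (h : c.RMono φ u s g) {γ : G} (hγ : γ ∈ c.ι.range) :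
    c.RMono φ u s (γ⁻¹ * g * γ) := by
  obtain ⟨j, hC, hX, σ, hσ, hs⟩ := h
  obtain ⟨τ, rfl⟩ := hγ
  refine ⟨j.comp (τ : c.L →+* c.L), fun x => ?_, ?_, τ⁻¹ * σ * τ, ?_, fun x => ?_⟩
  · rw [← hC x]
    exact congrArg j (τ.commutes _)
  · rw [← hX]
    exact congrArg j (τ.commutes _)
  · rw [map_mul, map_mul, map_inv, hσ]
  · change j (τ (τ.symm (σ (τ x)))) = s (j (τ x))
    rw [τ.apply_symm_apply, hs]

theorem Cover.RMono.conj_unique {c : Cover k G} {W : Type} [Field W] {φ : k →+* W} {u : W}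
    {s : W →+* W} {g g' : G} (h : c.RMono φ u s g) (h' : c.RMono φ u s g') :
    ∃ γ ∈ c.ι.range, g' = γ⁻¹ * g * γ := by
  obtain ⟨j, hC, hX, σ, hσ, hs⟩ := h
  obtain ⟨j', hC', hX', σ', hσ', hs'⟩ := h'
  have h1 : j'.comp (algebraMap (RatFunc k) c.L) = j.comp (algebraMap (RatFunc k) c.L) :=
    ratFunc_hom_ext _ _ (fun x => (hC' x).trans (hC x).symm) (hX'.trans hX.symm)
  obtain ⟨τ, hτ⟩ := exists_aut_of_normal (F := RatFunc k) j j' fun x => RingHom.congr_fun h1 x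
  have h2 : τ * σ' = σ * τ := by
    ext x
    apply j.injective
    rw [AlgEquiv.mul_apply, AlgEquiv.mul_apply, hτ, hs', hs, hτ]
  refine ⟨c.ι τ, ⟨τ, rfl⟩, ?_⟩
  rw [← hσ, ← hσ', mul_assoc, ← map_mul, ← h2, map_mul, inv_mul_cancel_left]

theorem xi_one : xi 1 = 1 := by
  exact IsPrimitiveRoot.one_right_iff.1 (xi_prim odd_one)

theorem exists_pow_xi (θ : K0 →+* k) {e : ℕ} {ζ : k} (he : 0 < e) (hζ : IsPrimitiveRoot ζ e) :
    Odd e ∧ ∃ j : ℕ, j.Coprime e ∧ ζ ^ j = θ (xi e) := by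
  have : CharP k 2 := charP_of_injective_ringHom θ.injective 2
  have : NeZero e := ⟨he.ne'⟩
  have h1 : ((e : ℕ) : k) ≠ 0 := hζ.neZero'.out
  have ho : Odd e := by
    rw [← Nat.not_even_iff_odd, even_iff_two_dvd]
    exact fun h2 => h1 ((CharP.cast_eq_zero_iff k 2 e).2 h2)
  refine ⟨ho, ?_⟩
  obtain ⟨i, -, hi, hi'⟩ := (hζ.isPrimitiveRoot_iff).1 ((xi_prim ho).map_of_injective θ.injective)
  exact ⟨i, hi, hi'⟩

theorem Cover.Mono.m_of_pow {c : Cover k G} {θ : K0 →+* k} {a : OnePoint k} {e : ℕ} {ζ : k}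
    {g : G} (h : c.Mono a e ζ g) {j : ℕ} (hj : j.Coprime e) (hζ : ζ ^ j = θ (xi e)) :
    c.M θ a (g ^ j) := by
  exact ⟨e, (exists_pow_xi θ h.1 h.2.1).1, hζ ▸ h.pow j hj⟩

theorem Cover.Mono.m_one {c : Cover k G} (θ : K0 →+* k) {a : OnePoint k} {e : ℕ} {ζ : k}
    (h : c.Mono a e ζ 1) : c.M θ a 1 := by
  obtain ⟨-, j, hj, hζ⟩ := exists_pow_xi θ h.1 h.2.1
  have := h.m_of_pow hj hζ
  rwa [one_pow] at this

theorem Cover.M.exists_mono {c : Cover k G} {θ : K0 →+* k} {a : OnePoint k} {g : G}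
    (h : c.M θ a g) : ∃ e, Odd e ∧ ∀ E, Odd E → e ∣ E → c.Mono a E (θ (xi E)) g := by
  obtain ⟨e, he, h⟩ := h
  refine ⟨e, he, ?_⟩
  rintro E hE ⟨e', rfl⟩
  have he' : Odd e' := (Nat.odd_mul.1 hE).2
  refine Cover.Mono.lift he'.pos ((xi_prim hE).map_of_injective θ.injective) ?_
  rwa [← map_pow, xi_pow he he']

theorem Cover.M.pow_eq_one {c : Cover k G} {θ : K0 →+* k} {a : OnePoint k} {g : G}
    (h : c.M θ a g) : ∃ e, Odd e ∧ g ^ e = 1 := by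
  obtain ⟨e, he, h⟩ := h
  exact ⟨e, he, h.pow_eq_one⟩

theorem Cover.M.mem_range {c : Cover k G} {θ : K0 →+* k} {a : OnePoint k} {g : G}
    (h : c.M θ a g) : g ∈ c.ι.range := by
  obtain ⟨e, -, h⟩ := h
  exact h.mem_range

theorem Cover.M.conj {c : Cover k G} {θ : K0 →+* k} {a : OnePoint k} {g : G}
    (h : c.M θ a g) {γ : G} (hγ : γ ∈ c.ι.range) : c.M θ a (γ⁻¹ * g * γ) := by
  obtain ⟨e, he, h⟩ := h
  exact ⟨e, he, Cover.RMono.mono h.1 h.2.1 (h.rmono.conj hγ)⟩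

theorem Cover.M.unique {c : Cover k G} {θ : K0 →+* k} {a : OnePoint k} {g g' : G}
    (h : c.M θ a g) (h' : c.M θ a g') : ∃ γ ∈ c.ι.range, g' = γ⁻¹ * g * γ := by
  obtain ⟨e, he, h⟩ := h.exists_mono
  obtain ⟨e', he', h'⟩ := h'.exists_mono
  exact (h _ (he.mul he') (dvd_mul_right _ _)).rmono.conj_unique
    (h' _ (he.mul he') (dvd_mul_left _ _)).rmono

theorem Cover.M.map {H : Type} [Group H] {c : Cover k G} {θ : K0 →+* k} {a : OnePoint k} {g : G}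
    (h : c.M θ a g) (f : G →* H) : (c.map f).M θ a (f g) := by
  obtain ⟨e, he, h⟩ := h
  exact ⟨e, he, h.map f⟩

theorem Cover.M.restr {c : Cover k G} {θ : K0 →+* k} {a : OnePoint k} (H : Subgroup G)
    (hH : c.ι.range ≤ H) {g : H} (h : c.M θ a g) : (c.restr H hH).M θ a g := by
  obtain ⟨e, he, h⟩ := h
  exact ⟨e, he, h.restr H hH⟩

/-- Matching normalised generators give matching data on the two branches of a node. -/
theorem Cover.M.glue {c c' : Cover k G} {θ : K0 →+* k} {a a' : OnePoint k} {g : G}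
    (h : c.M θ a g) (h' : c'.M θ a' g⁻¹) : ∃ e ζ, c.Mono a e ζ g ∧ c'.Mono a' e ζ⁻¹ g := by
  obtain ⟨e, he, h⟩ := h.exists_mono
  obtain ⟨e', he', h'⟩ := h'.exists_mono
  refine ⟨e * e', _, h _ (he.mul he') (dvd_mul_right _ _), ?_⟩
  have := (h' _ (he.mul he') (dvd_mul_left _ _)).inv
  rwa [inv_inv] at this

theorem Cover.Mono.m_glue {c c' : Cover k G} (θ : K0 →+* k) {a a' : OnePoint k} {e : ℕ} {ζ : k}
    {g : G} (h : c.Mono a e ζ g) (h' : c'.Mono a' e ζ⁻¹ g) :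
    ∃ g', c.M θ a g' ∧ c'.M θ a' g'⁻¹ := by
  obtain ⟨-, j, hj, hζ⟩ := exists_pow_xi θ h.1 h.2.1
  have h2 := h'.inv
  rw [inv_inv] at h2
  refine ⟨g ^ j, h.m_of_pow hj hζ, ?_⟩
  rw [← inv_pow]
  exact h2.m_of_pow hj hζ

end Pool.Agent.Adm
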