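import Pool.Agent.Adq.D4
import Pool.Agent.Adq.ML

/-! Admissible coverings of the curve with given coordinates. -/

namespace Pool.Agent.Adm

variable {n : ℕ} {σ : Shape n}

theorem Pt.special_iff_Br1 (z : Pt σ) (v : Fin σ.r) (a : OnePoint z.k) :
    z.curve.Special v a ↔ a ∈ Set.range fun s : σ.Sl v => (z.x s : OnePoint z.k) :=
  Set.ext_iff.1 (z.special_eq v) a

theorem Pt.Q_of_hasCover_Br1 (z : Pt σ) (G : Type) [Group G] (h : z.curve.HasCover G) :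
    z.Q G := by
  classical
  obtain ⟨c, htame, hnode, htop⟩ := h
  have h1 : ∀ δ : σ.T.Dart, ∃ g : G,
      (c δ.fst).M z.θ (z.x (Sum.inl δ) : OnePoint z.k) g ∧
        (c δ.snd).M z.θ (z.x (Sum.inl δ.symm) : OnePoint z.k) g⁻¹ := fun δ => by
    obtain ⟨e, ζ, g, h2, h3⟩ := hnode δ.fst δ.snd δ.adj
    obtain ⟨g', h4, h5⟩ := h2.m_glue z.θ h3
    have e1 : z.curve.node δ.fst δ.snd = (z.x (Sum.inl δ) : OnePoint z.k) := z.node_adj δ.adj
    have e2 : z.curve.node δ.snd δ.fst = (z.x (Sum.inl δ.symm) : OnePoint z.k) :=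
      z.node_adj δ.adj.symm
    rw [e1] at h4
    rw [e2] at h5
    exact ⟨g', h4, h5⟩
  have h2 : ∀ l : Fin n, ∃ g : G,
      (c (σ.comp l)).M z.θ (z.x (Sum.inr l) : OnePoint z.k) g := fun l => by
    obtain ⟨e, ζ, g, h3, -⟩ := htame (σ.comp l) (z.x (Sum.inr l) : OnePoint z.k)
    obtain ⟨-, j, hj, hζ⟩ := exists_pow_xi z.θ h3.1 h3.2.1
    exact ⟨_, h3.m_of_pow hj hζ⟩
  choose g0 hg0 hg0' using h1
  choose gm hgm using h2
  refine ⟨Sum.elim (fun δ => if δ.fst < δ.snd then g0 δ else (g0 δ.symm)⁻¹) gm,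
    fun v => (c v).ι.range, ⟨fun v => ⟨c v, rfl, fun a ha => ?_, ?_⟩, fun δ => ?_⟩, htop⟩
  · obtain ⟨e, ζ, g, h3, h4⟩ := htame v a
    rw [h4 fun h5 => ha ((z.special_iff_Br1 v a).1 h5)] at h3
    exact h3.m_one z.θ
  · rintro ⟨δ | l, rfl⟩
    · by_cases h3 : δ.fst < δ.snd
      · simp only [Sum.elim_inl, if_pos h3]
        exact hg0 δ
      · simp only [Sum.elim_inl, if_neg h3]
        exact hg0' δ.symm
    · exact hgm l
  · simp only [Sum.elim_inl]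
    by_cases h3 : δ.fst < δ.snd
    · have h4 : ¬ δ.symm.fst < δ.symm.snd := not_lt.2 h3.le
      rw [if_pos h3, if_neg h4, SimpleGraph.Dart.symm_symm]
    · have h4 : δ.symm.fst < δ.symm.snd := lt_of_le_of_ne (not_lt.1 h3) δ.adj.ne'
      rw [if_neg h3, if_pos h4, inv_inv]

theorem Pt.hasCover_of_Q_Br1 (z : Pt σ) (G : Type) [Group G] (h : z.Q G) :
    z.curve.HasCover G := by
  obtain ⟨d, R, ⟨hV, hsymm⟩, htop⟩ := h
  choose c hc1 hc2 hc3 using hV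
  refine ⟨c, fun v a => ?_, fun v w hvw => ?_, ?_⟩
  · by_cases ha : a ∈ Set.range fun s : σ.Sl v => (z.x s : OnePoint z.k)
    · obtain ⟨s, rfl⟩ := ha
      obtain ⟨e, -, h1⟩ := hc3 v s
      exact ⟨e, _, _, h1, fun h2 => absurd ((z.special_iff_Br1 v _).2 ⟨s, rfl⟩) h2⟩
    · obtain ⟨e, -, h1⟩ := hc2 v a ha
      exact ⟨e, _, _, h1, fun _ => rfl⟩
  · have h1 := hc3 v ⟨Sum.inl ⟨(v, w), hvw⟩, rfl⟩
    have h2 := hc3 w ⟨Sum.inl (SimpleGraph.Dart.symm ⟨(v, w), hvw⟩), rfl⟩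
    have e1 : z.curve.node v w = (z.x (Sum.inl ⟨(v, w), hvw⟩) : OnePoint z.k) := z.node_adj hvw
    have e2 : z.curve.node w v =
        (z.x (Sum.inl (SimpleGraph.Dart.symm ⟨(v, w), hvw⟩)) : OnePoint z.k) :=
      z.node_adj hvw.symm
    simp only [hsymm] at h2
    rw [e1, e2]
    obtain ⟨e, ζ, h3, h4⟩ := h1.glue h2
    exact ⟨e, ζ, _, h3, h4⟩
  · exact (iSup_congr hc1).trans htop

theorem Pt.hasCover_iff (z : Pt σ) (G : Type) [Group G] : z.curve.HasCover G ↔ z.Q G := by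
  exact ⟨z.Q_of_hasCover_Br1 G, z.hasCover_of_Q_Br1 G⟩

theorem Pt.Q_tw (z : Pt σ) (θ' : K0 →+* z.k) (G : Type) [Group G] : (z.tw θ').Q G ↔ z.Q G := by
  rw [← Pt.hasCover_iff, ← Pt.hasCover_iff, Pt.tw_curve]

end Pool.Agent.Adm
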