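import Pool.Agent.Adq.D1
import Pool.Agent.Adm.TR

/-! Transport of coverings along projective transformations. -/

namespace Pool.Agent.Adm

open scoped OnePoint

variable {k : Type} [Field k]

theorem Mob1.comp {μ ν : OnePoint k → OnePoint k} (hμ : Mob1 μ) (hν : Mob1 ν) :
    Mob1 (ν ∘ μ) := by
  intro G _ c
  obtain ⟨c1, h1, h2⟩ := hμ G c
  obtain ⟨c2, h3, h4⟩ := hν G c1
  exact ⟨c2, h3.trans h1, fun a e ζ g h => h4 _ _ _ _ (h2 _ _ _ _ h)⟩

theorem IsMob.trans {μ ν : OnePoint k ≃ OnePoint k} (hμ : IsMob μ) (hν : IsMob ν) :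
    IsMob (μ.trans ν) := by
  exact ⟨hμ.1.comp hν.1, hν.2.comp hμ.2⟩

theorem IsMob.symm {μ : OnePoint k ≃ OnePoint k} (hμ : IsMob μ) : IsMob μ.symm := by
  exact ⟨hμ.2, hμ.1⟩

theorem exists_twist_MB {G : Type} [Group G] (c : Cover k G) (τ : RatFunc k ≃+* RatFunc k)
    (t1 : ∀ x, τ (RatFunc.C x) = RatFunc.C x) :
    ∃ c' : Cover k G, c'.ι.range = c.ι.range ∧
      ∀ (W : Type) [CommRing W] (ψ : k →+* W) (u : W) (s : W →+* W) (g : G),
        c.RMono ψ u s g → ∃ f : RatFunc k →+* W, (∀ x, f (RatFunc.C x) = ψ x) ∧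
          f RatFunc.X = u ∧ c'.RMono ψ (f (τ RatFunc.X)) s g := by
  obtain ⟨c', e, h1, h2, h3⟩ := exists_twist_TR c τ
  refine ⟨c', le_antisymm h2 ?_, ?_⟩
  · rintro _ ⟨σ, rfl⟩
    obtain ⟨σ', h4, -⟩ := h3 σ
    exact ⟨σ', h4⟩
  · rintro W _ ψ u s g ⟨j, j1, j2, σ, j3, j4⟩
    obtain ⟨σ', h4, h5⟩ := h3 σ
    refine ⟨j.comp (algebraMap (RatFunc k) c.L), j1, j2,
      j.comp e.toRingHom, fun x => ?_, ?_, σ', h4.trans j3, fun x => ?_⟩
    · show j (e _) = _
      rw [h1, t1, j1]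
    · show j (e _) = _
      rw [h1]
      rfl
    · show j (e _) = s (j (e x))
      rw [h5, j4]

theorem exists_hom_MB (u : RatFunc k) (hu : Transcendental k u) :
    ∃ f : RatFunc k →+* RatFunc k, (∀ c, f (RatFunc.C c) = RatFunc.C c) ∧ f RatFunc.X = u := by
  refine exists_ratFunc_hom RatFunc.C _ fun P hP h => hu ⟨P, hP, ?_⟩
  rw [Polynomial.aeval_def, RatFunc.algebraMap_eq_C]
  exact h

theorem exists_scale_hom_MB (lam : k) (h : lam ≠ 0) :
    ∃ f : RatFunc k →+* RatFunc k, (∀ c, f (RatFunc.C c) = RatFunc.C c) ∧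
      f RatFunc.X = RatFunc.C lam * RatFunc.X := by
  refine exists_hom_MB _ fun ha => RatFunc.transcendental_X (K := k) ?_
  have h1 := (isAlgebraic_algebraMap (A := RatFunc k) lam⁻¹).mul ha
  rwa [RatFunc.algebraMap_eq_C, ← mul_assoc, ← map_mul, inv_mul_cancel₀ h, map_one, one_mul] at h1

theorem exists_scale_MB (lam : k) (h : lam ≠ 0) :
    ∃ τ : RatFunc k ≃+* RatFunc k, (∀ c, τ (RatFunc.C c) = RatFunc.C c) ∧
      τ RatFunc.X = RatFunc.C lam * RatFunc.X := by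
  obtain ⟨f, f1, f2⟩ := exists_scale_hom_MB lam h
  obtain ⟨g, g1, g2⟩ := exists_scale_hom_MB lam⁻¹ (inv_ne_zero h)
  refine ⟨RingEquiv.ofRingHom f g ?_ ?_, f1, f2⟩
  · refine ratFunc_hom_ext _ _ (fun c => by simp [f1, g1]) ?_
    rw [RingHom.comp_apply, g2, map_mul, f2, f1, ← mul_assoc, ← map_mul, inv_mul_cancel₀ h,
      map_one, one_mul, RingHom.id_apply]
  · refine ratFunc_hom_ext _ _ (fun c => by simp [f1, g1]) ?_
    rw [RingHom.comp_apply, f2, map_mul, g2, g1, ← mul_assoc, ← map_mul, mul_inv_cancel₀ h,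
      map_one, one_mul, RingHom.id_apply]

theorem exists_inv_MB :
    ∃ τ : RatFunc k ≃+* RatFunc k, (∀ c, τ (RatFunc.C c) = RatFunc.C c) ∧
      τ RatFunc.X = RatFunc.X⁻¹ := by
  obtain ⟨f, f1, f2⟩ := exists_hom_MB (k := k) RatFunc.X⁻¹
    fun ha => RatFunc.transcendental_X (K := k) (IsAlgebraic.inv_iff.1 ha)
  have h : f.comp f = RingHom.id _ := by
    refine ratFunc_hom_ext _ _ (fun c => by simp [f1]) ?_
    rw [RingHom.comp_apply, f2, map_inv₀, f2, inv_inv, RingHom.id_apply]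
  exact ⟨RingEquiv.ofRingHom f f h h, f1, f2⟩

theorem C_mul_single_MB (c : k) (n : ℤ) :
    (HahnSeries.C c : LaurentSeries k) * HahnSeries.single n 1 = HahnSeries.single n c := by
  rw [HahnSeries.C_apply, HahnSeries.single_mul_single, zero_add, mul_one]

theorem single_mul_MB (n : ℤ) :
    (HahnSeries.single n 1 : LaurentSeries k) * HahnSeries.single (-n) 1 = 1 := by
  rw [HahnSeries.single_mul_single, add_neg_cancel, mul_one]
  rfl

open Classical in
/-- The inversion. -/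
noncomputable def inv_MB (a : OnePoint k) : OnePoint k :=
  a.elim ((0 : k) : OnePoint k) fun x => if x = 0 then ∞ else ((x⁻¹ : k) : OnePoint k)

theorem inv_infty_MB : inv_MB (∞ : OnePoint k) = ((0 : k) : OnePoint k) := rfl

theorem inv_zero_MB : inv_MB ((0 : k) : OnePoint k) = ∞ := by
  simp [inv_MB]

theorem inv_coe_MB {a : k} (ha : a ≠ 0) : inv_MB (a : OnePoint k) = ((a⁻¹ : k) : OnePoint k) := by
  simp [inv_MB, ha]

theorem inv_inv_MB (a : OnePoint k) : inv_MB (inv_MB a) = a := by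
  induction a using OnePoint.rec with
  | infty => rw [inv_infty_MB, inv_zero_MB]
  | coe a =>
    by_cases ha : a = 0
    · rw [ha, inv_zero_MB, inv_infty_MB]
    · rw [inv_coe_MB ha, inv_coe_MB (inv_ne_zero ha), inv_inv]

variable [IsAlgClosed k]

theorem mob_scale_MB (lam : k) (h : lam ≠ 0) : Mob1 (OnePoint.map fun a : k => lam * a) := by
  intro G _ c
  obtain ⟨τ, t1, t2⟩ := exists_scale_MB lam h
  obtain ⟨c', h1, h2⟩ := exists_twist_MB c τ t1
  refine ⟨c', h1, fun a e ζ g hm => ?_⟩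
  obtain ⟨f, f1, f2, f3⟩ := h2 _ _ _ _ _ hm.rmono
  rw [t2, map_mul, f1, f2] at f3
  induction a using OnePoint.rec with
  | infty =>
    refine Cover.RMono.mono_infty_of_scaled hm.1 hm.2.1 lam h ?_
    rwa [← C_mul_single_MB]
  | coe a =>
    refine Cover.RMono.mono_of_scaled hm.1 hm.2.1 (lam * a) lam h ?_
    rwa [← C_mul_single_MB, map_mul, ← mul_add]

theorem mob_shift_MB (b : k) : Mob1 (OnePoint.map fun a : k => a + b) := by
  intro G _ c
  obtain ⟨c', h1, h2, h3⟩ := c.exists_translate b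
  refine ⟨c', h1, fun a e ζ g hm => ?_⟩
  induction a using OnePoint.rec with
  | infty => exact h3 _ _ _ hm
  | coe a => exact h2 _ _ _ _ hm

theorem mob_aff_MB (lam b : k) (h : lam ≠ 0) : Mob1 (OnePoint.map fun a : k => lam * a + b) := by
  have h1 := (mob_scale_MB lam h).comp (mob_shift_MB b)
  have h2 : (OnePoint.map fun a : k => a + b) ∘ (OnePoint.map fun a : k => lam * a) =
      OnePoint.map fun a : k => lam * a + b := by
    funext a
    induction a using OnePoint.rec <;> rfl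
  rwa [h2] at h1

theorem mob_inv_MB : Mob1 (inv_MB : OnePoint k → OnePoint k) := by
  intro G _ c
  obtain ⟨τ, t1, t2⟩ := exists_inv_MB (k := k)
  obtain ⟨c', h1, h2⟩ := exists_twist_MB c τ t1
  refine ⟨c', h1, fun a e ζ g hm => ?_⟩
  induction a using OnePoint.rec with
  | infty =>
    obtain ⟨f, f1, f2, f3⟩ := h2 _ _ _ _ _ hm.rmono
    have h3 : (expand (∞ : OnePoint k) e)⁻¹ = expand ((0 : k) : OnePoint k) e := by
      simp only [expand, OnePoint.elim_infty, OnePoint.elim_some, map_zero, zero_add]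
      exact inv_eq_of_mul_eq_one_left (single_mul_MB _)
    rw [t2, map_inv₀, f2, h3] at f3
    exact f3.mono hm.1 hm.2.1
  | coe a =>
    by_cases ha : a = 0
    · subst ha
      obtain ⟨f, f1, f2, f3⟩ := h2 _ _ _ _ _ hm.rmono
      have h3 : (expand ((0 : k) : OnePoint k) e)⁻¹ = expand (∞ : OnePoint k) e := by
        simp only [expand, OnePoint.elim_infty, OnePoint.elim_some, map_zero, zero_add]
        exact inv_eq_of_mul_eq_one_right (single_mul_MB _)
      rw [t2, map_inv₀, f2, h3] at f3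
      rw [inv_zero_MB]
      exact f3.mono hm.1 hm.2.1
    · have he : (e : k) ≠ 0 := by
        have : NeZero e := ⟨hm.1.ne'⟩
        exact (hm.2.1.neZero' (n := e)).out
      obtain ⟨Φ, p1, p2, p3⟩ := exists_reparam e he (-a⁻¹)
      obtain ⟨f, f1, f2, f3⟩ := h2 _ _ _ _ _ (hm.rmono.comp Φ (scL ζ (hm.2.1.ne_zero hm.1.ne'))
        (p3 ζ _ hm.2.1.pow_eq_one))
      have h4 : Φ.comp HahnSeries.C = HahnSeries.C := RingHom.ext p1
      have h5 : (Φ (expand (a : OnePoint k) e))⁻¹ =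
          HahnSeries.C a⁻¹ + HahnSeries.single (e : ℤ) (-(a⁻¹ * a⁻¹)) := by
        refine inv_eq_of_mul_eq_one_right ?_
        have q1 := single_mul_MB (k := k) (e : ℤ)
        have q2 := congrArg Φ q1
        rw [map_mul, p2, Φ.map_one, map_neg] at q2
        have q3 : (HahnSeries.C a : LaurentSeries k) * HahnSeries.C a⁻¹ = 1 := by
          rw [← map_mul, mul_inv_cancel₀ ha, map_one]
        simp only [expand, OnePoint.elim_some]
        rw [map_add, p1, ← C_mul_single_MB (-(a⁻¹ * a⁻¹)), map_neg, map_mul]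
        generalize (HahnSeries.single (e : ℤ) 1 : LaurentSeries k) = T at *
        generalize (HahnSeries.single (-(e : ℤ)) 1 : LaurentSeries k) = T' at *
        generalize (HahnSeries.C a : LaurentSeries k) = A at *
        generalize (HahnSeries.C a⁻¹ : LaurentSeries k) = B at *
        linear_combination (1 - B * T) * q3 + B * T * q2 - B * Φ T * q1
      rw [t2, map_inv₀, f2, h4, h5] at f3
      rw [inv_coe_MB ha]
      exact Cover.RMono.mono_of_scaled hm.1 hm.2.1 _ _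
        (neg_ne_zero.2 (mul_ne_zero (inv_ne_zero ha) (inv_ne_zero ha))) f3

theorem exists_mob_affine (lam b : k) (h : lam ≠ 0) :
    ∃ μ : OnePoint k ≃ OnePoint k, IsMob μ ∧ μ ∞ = ∞ ∧
      ∀ a : k, μ a = ((lam * a + b : k) : OnePoint k) := by
  refine ⟨⟨OnePoint.map fun a : k => lam * a + b,
    OnePoint.map fun a : k => lam⁻¹ * a + -(lam⁻¹ * b), fun a => ?_, fun a => ?_⟩,
    ⟨mob_aff_MB lam b h, mob_aff_MB _ _ (inv_ne_zero h)⟩, rfl, fun _ => rfl⟩
  · induction a using OnePoint.rec with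
    | infty => rfl
    | coe a =>
      refine congrArg (fun x : k => (x : OnePoint k)) ?_
      field_simp
      ring
  · induction a using OnePoint.rec with
    | infty => rfl
    | coe a =>
      refine congrArg (fun x : k => (x : OnePoint k)) ?_
      field_simp
      ring

theorem exists_mob_inv :
    ∃ μ : OnePoint k ≃ OnePoint k, IsMob μ ∧ μ ∞ = ((0 : k) : OnePoint k) ∧
      μ ((0 : k) : OnePoint k) = ∞ ∧ ∀ a : k, a ≠ 0 → μ a = ((a⁻¹ : k) : OnePoint k) := by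
  exact ⟨⟨inv_MB, inv_MB, inv_inv_MB, inv_inv_MB⟩, ⟨mob_inv_MB, mob_inv_MB⟩, rfl, inv_zero_MB,
    fun _ ha => inv_coe_MB ha⟩

theorem exists_mob_sub_inv (x : k) :
    ∃ μ : OnePoint k ≃ OnePoint k, IsMob μ ∧ μ ∞ = ((0 : k) : OnePoint k) ∧ μ x = ∞ ∧
      ∀ a : k, a ≠ x → μ a = (((a - x)⁻¹ : k) : OnePoint k) := by
  obtain ⟨μ, m1, m2, m3⟩ := exists_mob_affine (1 : k) (-x) one_ne_zero
  obtain ⟨ν, n1, n2, n3, n4⟩ := exists_mob_inv (k := k)
  refine ⟨μ.trans ν, m1.trans n1, ?_, ?_, fun a ha => ?_⟩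
  · rw [Equiv.trans_apply, m2, n2]
  · rw [Equiv.trans_apply, m3, one_mul, add_neg_cancel, n3]
  · rw [Equiv.trans_apply, m3, one_mul, ← sub_eq_add_neg, n4 _ (sub_ne_zero.2 ha)]

theorem exists_mob_ratio (x0 x2 lam : k) (h : x0 ≠ x2) (hl : lam ≠ 0) :
    ∃ μ : OnePoint k ≃ OnePoint k, IsMob μ ∧ μ x2 = ∞ ∧ μ ∞ = (lam : OnePoint k) ∧
      ∀ a : k, a ≠ x2 → μ a = ((lam * (a - x0) / (a - x2) : k) : OnePoint k) := by
  obtain ⟨μ, m1, m2, m3, m4⟩ := exists_mob_sub_inv x2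
  obtain ⟨ν, n1, n2, n3⟩ := exists_mob_affine (lam * (x2 - x0)) lam
    (mul_ne_zero hl (sub_ne_zero.2 h.symm))
  refine ⟨μ.trans ν, m1.trans n1, ?_, ?_, fun a ha => ?_⟩
  · rw [Equiv.trans_apply, m3, n2]
  · rw [Equiv.trans_apply, m2, n3, mul_zero, zero_add]
  · rw [Equiv.trans_apply, m4 a ha, n3]
    refine congrArg (fun x : k => (x : OnePoint k)) ?_
    have := sub_ne_zero.2 ha
    field_simp
    ring

theorem exists_mob_finite {σ : Type} [Finite σ] (p : σ → OnePoint k) :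
    ∃ μ : OnePoint k ≃ OnePoint k, IsMob μ ∧ ∀ s, μ (p s) ≠ ∞ := by
  have h : ((fun x : k => (x : OnePoint k)) ⁻¹' Set.range p).Finite :=
    (Set.finite_range p).preimage OnePoint.coe_injective.injOn
  obtain ⟨x, hx⟩ := h.exists_notMem
  obtain ⟨μ, m1, -, m3, -⟩ := exists_mob_sub_inv x
  exact ⟨μ, m1, fun s hs => hx ⟨s, μ.injective (hs.trans m3.symm)⟩⟩

theorem exists_mob_zero_infty (a0 a2 : OnePoint k) (h : a0 ≠ a2) :
    ∃ μ : OnePoint k ≃ OnePoint k, IsMob μ ∧ μ a0 = ((0 : k) : OnePoint k) ∧ μ a2 = ∞ := by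
  obtain ⟨μ, m1, m2⟩ := exists_mob_finite fun b : Bool => if b then a0 else a2
  obtain ⟨x0, h0⟩ := OnePoint.ne_infty_iff_exists.1 (m2 true)
  obtain ⟨x2, h2⟩ := OnePoint.ne_infty_iff_exists.1 (m2 false)
  have h0' : μ a0 = x0 := h0.symm
  have h2' : μ a2 = x2 := h2.symm
  have hx : x0 ≠ x2 := fun e => h (μ.injective (by rw [h0', h2', e]))
  obtain ⟨ν, n1, n2, -, n4⟩ := exists_mob_ratio x0 x2 1 hx one_ne_zero
  refine ⟨μ.trans ν, m1.trans n1, ?_, ?_⟩
  · rw [Equiv.trans_apply, h0', n4 _ hx, sub_self, mul_zero, zero_div]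
  · rw [Equiv.trans_apply, h2', n2]

end Pool.Agent.Adm
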