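import Pool.Agent.Adq.D4
import Pool.Agent.Adq.MB

/-! Every stable curve has a model with finite coordinates. -/

namespace Pool.Agent.Adm

open scoped OnePoint

/-- Admissible coverings in unbundled form. -/
def HC_Br2 {k V : Type} [Field k] {n : ℕ} (T : SimpleGraph V) (node : V → V → OnePoint k)
    (comp : Fin n → V) (mark : Fin n → OnePoint k) (G : Type) [Group G] : Prop :=
  ∃ c : V → Cover k G,
    (∀ v a, ∃ e ζ g, (c v).Mono a e ζ g ∧
      (¬ ((∃ w, T.Adj v w ∧ node v w = a) ∨ ∃ i, comp i = v ∧ mark i = a) → g = 1)) ∧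
    (∀ v w, T.Adj v w → ∃ e ζ g, (c v).Mono (node v w) e ζ g ∧ (c w).Mono (node w v) e ζ⁻¹ g) ∧
    ⨆ v, (c v).ι.range = ⊤

section

variable {k V V' : Type} [Field k] {n : ℕ} {T : SimpleGraph V} {node : V → V → OnePoint k}
  {comp : Fin n → V} {mark : Fin n → OnePoint k} {T' : SimpleGraph V'}
  {node' : V' → V' → OnePoint k} {comp' : Fin n → V'} {mark' : Fin n → OnePoint k}

theorem transport_Br2 (e : V' ≃ V) (μ : V' → OnePoint k ≃ OnePoint k) (hμ : ∀ v, Mob1 (μ v))
    (hT : ∀ v w, T'.Adj v w ↔ T.Adj (e v) (e w))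
    (hn : ∀ v w, T'.Adj v w → node' v w = μ v (node (e v) (e w)))
    (hc : ∀ i, e (comp' i) = comp i) (hm : ∀ i, mark' i = μ (comp' i) (mark i))
    (G : Type) [Group G] (h : HC_Br2 T node comp mark G) : HC_Br2 T' node' comp' mark' G := by
  obtain ⟨c, h1, h2, h3⟩ := h
  choose c' r1 r2 using fun v => hμ v G (c (e v))
  refine ⟨c', fun v a => ?_, fun v w hvw => ?_, ?_⟩
  · obtain ⟨a, rfl⟩ := (μ v).surjective a
    obtain ⟨m, ζ, g, a1, a2⟩ := h1 (e v) a
    refine ⟨m, ζ, g, r2 v _ _ _ _ a1, fun hs => a2 fun hs' => hs ?_⟩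
    rcases hs' with ⟨w, hw, rfl⟩ | ⟨i, hi, rfl⟩
    · obtain ⟨w, rfl⟩ := e.surjective w
      exact Or.inl ⟨w, (hT v w).2 hw, hn v w ((hT v w).2 hw)⟩
    · obtain rfl : comp' i = v := e.injective ((hc i).trans hi)
      exact Or.inr ⟨i, rfl, hm i⟩
  · obtain ⟨m, ζ, g, a1, a2⟩ := h2 _ _ ((hT v w).1 hvw)
    rw [hn v w hvw, hn w v hvw.symm]
    exact ⟨m, ζ, g, r2 v _ _ _ _ a1, r2 w _ _ _ _ a2⟩
  · rw [← h3, ← e.iSup_comp (g := fun v => (c v).ι.range)]
    exact iSup_congr r1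

theorem iff_Br2 (e : V' ≃ V) (μ : V' → OnePoint k ≃ OnePoint k) (hμ : ∀ v, IsMob (μ v))
    (hT : ∀ v w, T'.Adj v w ↔ T.Adj (e v) (e w))
    (hn : ∀ v w, T'.Adj v w → node' v w = μ v (node (e v) (e w)))
    (hc : ∀ i, e (comp' i) = comp i) (hm : ∀ i, mark' i = μ (comp' i) (mark i))
    (G : Type) [Group G] : HC_Br2 T node comp mark G ↔ HC_Br2 T' node' comp' mark' G := by
  refine ⟨transport_Br2 e μ (fun v => (hμ v).1) hT hn hc hm G,
    transport_Br2 e.symm (fun v => (μ (e.symm v)).symm) (fun v => (hμ _).2) (fun v w => ?_)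
      (fun v w h => ?_) (fun i => ?_) (fun i => ?_) G⟩
  · rw [hT, e.apply_symm_apply, e.apply_symm_apply]
  · obtain ⟨v, rfl⟩ := e.surjective v
    obtain ⟨w, rfl⟩ := e.surjective w
    rw [e.symm_apply_apply, e.symm_apply_apply, hn v w ((hT v w).2 h), Equiv.symm_apply_apply]
  · rw [← hc, e.symm_apply_apply]
  · rw [← hc, e.symm_apply_apply, hm, Equiv.symm_apply_apply]

end

theorem StableCurve.exists_pt {n : ℕ} (X : StableCurve 2 n) :
    ∃ (σ : Shape n) (z : Pt σ), ∀ (G : Type) [Group G], X.HasCover G ↔ z.curve.HasCover G := by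
  obtain ⟨r, ⟨e⟩⟩ : ∃ r, Nonempty (Fin r ≃ X.V) := ⟨_, ⟨(Finite.equivFin X.V).symm⟩⟩
  let pt : (X.T.comap e).Dart ⊕ Fin n → OnePoint X.k :=
    Sum.elim (fun δ => X.node (e δ.fst) (e δ.snd)) X.mark
  have hi : ∀ s s', slotBase (X.T.comap e) (fun i => e.symm (X.comp i)) s =
      slotBase (X.T.comap e) (fun i => e.symm (X.comp i)) s' → pt s = pt s' → s = s' := by
    rintro (⟨⟨v, w⟩, h⟩ | i) (⟨⟨v', w'⟩, h'⟩ | i') h1 h2
    · obtain rfl : v = v' := h1
      obtain rfl : w = w' := e.injective (X.node_inj _ _ _ h h' h2)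
      rfl
    · have h3 : X.comp i' = e v := e.symm_apply_eq.1 (Eq.symm h1)
      refine absurd (Eq.symm h2) ?_
      have := X.mark_ne_node i' (e w)
      rw [h3] at this
      exact this h
    · have h3 : X.comp i = e v' := e.symm_apply_eq.1 h1
      refine absurd h2 ?_
      have := X.mark_ne_node i (e w')
      rw [h3] at this
      exact this h'
    · rw [X.mark_inj i i' (e.symm.injective h1) h2]
  let σ : Shape n :=
    { r := r
      T := X.T.comap e
      tree := (SimpleGraph.Iso.comap e X.T).isTree_iff.2 X.tree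
      comp := fun i => e.symm (X.comp i)
      stable := fun v => by
        rw [← Set.ncard_range_of_injective (f := fun s : {s // slotBase (X.T.comap e)
          (fun i => e.symm (X.comp i)) s = v} => pt s)
          fun s s' h => Subtype.ext (hi _ _ (s.2.trans s'.2.symm) h)]
        refine (X.stable (e v)).trans_eq (congrArg Set.ncard ?_)
        ext a
        constructor
        · rintro (⟨w, h, rfl⟩ | ⟨i, h, rfl⟩)
          · obtain ⟨w, rfl⟩ := e.surjective w
            exact ⟨⟨.inl ⟨(v, w), h⟩, rfl⟩, rfl⟩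
          · exact ⟨⟨.inr i, e.symm_apply_eq.2 h⟩, rfl⟩
        · rintro ⟨⟨⟨⟨v', w⟩, h⟩ | i, hs⟩, rfl⟩
          · obtain rfl : v' = v := hs
            exact Or.inl ⟨e w, h, rfl⟩
          · exact Or.inr ⟨i, e.symm_apply_eq.1 hs, rfl⟩ }
  have : Finite σ.T.Dart := Finite.of_injective _ SimpleGraph.Dart.toProd_injective
  choose μ hμ hf using fun v => exists_mob_finite fun s : σ.Sl v => pt s
  choose x hx using fun s : σ.Slot => OnePoint.ne_infty_iff_exists.1 (hf (σ.base s) ⟨s, rfl⟩)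
  let _ := ZMod.algebra X.k 2
  let z : Pt σ :=
    { k := X.k
      θ := (IsAlgClosed.lift : K0 →ₐ[ZMod 2] X.k).toRingHom
      x := x
      inj := fun s s' h1 h2 => hi s s' h1 ((μ (σ.base s)).injective (by
        have : (x s' : OnePoint X.k) = μ (σ.base s') (pt s') := hx s'
        rw [← h1, ← h2, hx s] at this
        exact this)) }
  refine ⟨σ, z, fun G _ => ?_⟩
  exact iff_Br2 (T' := σ.T) (node' := z.node) (comp' := σ.comp)
    (mark' := fun i => (x (.inr i) : OnePoint X.k)) e μ hμ (fun _ _ => Iff.rfl)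
    (fun v w h => (z.node_adj h).trans (hx _)) (fun i => e.apply_symm_apply _)
    (fun i => hx _) G

end Pool.Agent.Adm
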