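import Pool.Agent.Adq.EL

/-! Extension of specialisations of a point. -/

namespace Pool.Agent.Adm

variable {K : Type} [Field K]

theorem exists_ext (s : Finset K) (A : Subring K) :
    ∃ a : A, a ≠ 0 ∧ ∀ (k : Type) [Field k] [IsAlgClosed k] (ρ : A →+* k), ρ a ≠ 0 →
      ∃ S : Spn K k, (∀ x ∈ s, x ∈ Set.range S.i) ∧ ∀ y : A, S.R y (ρ y) := by
  classical
  induction s using Finset.induction_on generalizing A with
  | empty =>
    refine ⟨1, one_ne_zero, fun k _ _ ρ _ => ⟨⟨A, A.subtype, Subtype.val_injective, ρ⟩, ?_, ?_⟩⟩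
    · intro x hx
      exact absurd hx (Finset.notMem_empty x)
    · intro y
      exact ⟨y, rfl, rfl⟩
  | insert x s _ ih =>
    obtain ⟨a', ha', h'⟩ := ih (Subring.closure (insert x (A : Set K)))
    obtain ⟨a, ha, h⟩ := exists_ext_one A x a' a'.2 fun e => ha' (Subtype.ext e)
    refine ⟨a, ha, fun k _ _ ρ hρ => ?_⟩
    obtain ⟨ρ', h1, h2⟩ := h k ρ hρ
    obtain ⟨S, h3, h4⟩ := h' k ρ' h2
    refine ⟨S, fun z hz => ?_, fun y => ?_⟩
    · rcases Finset.mem_insert.1 hz with rfl | hz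
      · obtain ⟨b, hb, -⟩ := h4 ⟨z, Subring.subset_closure (Set.mem_insert _ _)⟩
        exact ⟨b, hb⟩
      · exact h3 z hz
    · have hy : (y : K) ∈ Subring.closure (insert x (A : Set K)) :=
        Subring.subset_closure (Set.mem_insert_of_mem _ y.2)
      rw [← h1 y hy]
      exact h4 ⟨y, hy⟩

theorem exists_spn {σ : Type} (θ : K0 →+* K) (p : σ → K) (s : Finset K) :
    ∃ D : MvPolynomial σ K0, MvPolynomial.eval₂ θ p D ≠ 0 ∧
      ∀ (k : Type) [Field k] [IsAlgClosed k] (θ' : K0 →+* k) (p' : σ → k),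
        KerLe θ p θ' p' → MvPolynomial.eval₂ θ' p' D ≠ 0 →
        ∃ S : Spn K k, (∀ x ∈ s, x ∈ Set.range S.i) ∧ (∀ x, S.R (θ x) (θ' x)) ∧
          ∀ j, S.R (p j) (p' j) := by
  obtain ⟨⟨_, D, rfl⟩, ha, h⟩ := exists_ext s (MvPolynomial.eval₂Hom θ p).range
  refine ⟨D, fun e => ha (Subtype.ext e), fun k _ _ θ' p' hk hD => ?_⟩
  have hker : RingHom.ker (MvPolynomial.eval₂Hom θ p).rangeRestrict ≤
      RingHom.ker (MvPolynomial.eval₂Hom θ' p') := fun f hf =>
    hk f (congrArg Subtype.val (RingHom.mem_ker.1 hf))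
  let ρ := (MvPolynomial.eval₂Hom θ p).rangeRestrict.liftOfSurjective
    (MvPolynomial.eval₂Hom θ p).rangeRestrict_surjective ⟨MvPolynomial.eval₂Hom θ' p', hker⟩
  have hρ : ∀ f, ρ ((MvPolynomial.eval₂Hom θ p).rangeRestrict f) = MvPolynomial.eval₂ θ' p' f :=
    fun f => RingHom.liftOfRightInverse_comp_apply _ _ _ _ f
  obtain ⟨S, h1, h2⟩ := h k ρ (fun e => hD ((hρ D).symm.trans e))
  refine ⟨S, h1, fun x => ?_, fun j => ?_⟩
  · have := h2 ((MvPolynomial.eval₂Hom θ p).rangeRestrict (MvPolynomial.C x))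
    rw [hρ] at this
    simpa using this
  · have := h2 ((MvPolynomial.eval₂Hom θ p).rangeRestrict (MvPolynomial.X j))
    rw [hρ] at this
    simpa using this

end Pool.Agent.Adm
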