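import Pool.Agent.Adq.SP6
import Pool.Agent.Adq.EL2

/-! Spreading out of coverings. -/

namespace Pool.Agent.Adm

open scoped OnePoint

theorem VC.spread {k G σ : Type} [Field k] [IsAlgClosed k] [Group G] [Finite G] [Fintype σ]
    {θ : K0 →+* k} {p : σ → k} {d : σ → G} {R : Subgroup G} (h : VC θ p d R) :
    ∃ D : MvPolynomial σ K0, MvPolynomial.eval₂ θ p D ≠ 0 ∧
      ∀ (k' : Type) [Field k'] [IsAlgClosed k'] (θ' : K0 →+* k') (p' : σ → k'),
        KerLe θ p θ' p' → MvPolynomial.eval₂ θ' p' D ≠ 0 → VC θ' p' d R := by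
  obtain ⟨c, hR, h1, h2⟩ := h
  obtain ⟨Z, hZ⟩ := c.spread
  let A : Set (OnePoint k) :=
    insert ∞ ((fun x : k => (x : OnePoint k)) '' ((Z : Set k) ∪ Set.range p))
  have hA : A.Finite :=
    ((Z.finite_toSet.union (Set.finite_range p)).image _).insert _
  let J : Type := {q : OnePoint k × G // q.1 ∈ A ∧ c.M θ q.1 q.2}
  have hJ : Finite J := by
    have : ({q : OnePoint k × G | q.1 ∈ A ∧ c.M θ q.1 q.2}).Finite :=
      (hA.prod (Set.finite_univ (α := G))).subset fun q hq => ⟨hq.1, trivial⟩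
    exact this.to_subtype
  have hj : ∀ j : J, ∃ e, Odd e ∧ c.Mono j.1.1 e (θ (xi e)) j.1.2 := fun j => j.2.2
  choose e he hm using hj
  obtain ⟨s, hs⟩ := hZ J (fun j => j.1.1) e (fun j => θ (xi (e j))) (fun j => j.1.2) hm
  obtain ⟨D, hD, H⟩ := exists_spn θ p s
  refine ⟨D, hD, fun k' _ _ θ' p' hk hD' => ?_⟩
  obtain ⟨S, hS, hθ, hp⟩ := H k' θ' p' hk hD'
  obtain ⟨c', hc', b1, b2⟩ := hs k' S hS
  have key : ∀ (a : OnePoint k) (g : G) (a' : OnePoint k'), a ∈ A → c.M θ a g → S.RP a a' →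
      c'.M θ' a' g := fun a g a' ha hg hr =>
    ⟨e ⟨(a, g), ha, hg⟩, he _, b2 ⟨(a, g), ha, hg⟩ a' _ hr (hθ _)⟩
  refine ⟨c', hc'.trans hR, fun a ha => ?_, fun j => ?_⟩
  · induction a using OnePoint.rec with
    | infty =>
      refine key ∞ 1 ∞ (Set.mem_insert _ _) (h1 ∞ ?_) (Or.inl ⟨rfl, rfl⟩)
      rintro ⟨j, hj⟩
      exact OnePoint.coe_ne_infty _ hj
    | coe y =>
      by_cases hy : ∀ x ∈ Z, ¬ S.R x y
      · refine ⟨1, odd_one, ?_⟩
        rw [IsPrimitiveRoot.one_right_iff.1 (xi_prim odd_one), map_one]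
        exact b1 y hy
      · push Not at hy
        obtain ⟨x, hx, hxy⟩ := hy
        refine key x 1 y (Set.mem_insert_of_mem _ ⟨x, Or.inl hx, rfl⟩) (h1 x ?_)
          (Or.inr ⟨x, y, rfl, rfl, hxy⟩)
        rintro ⟨j, hj⟩
        obtain rfl : p j = x := OnePoint.coe_eq_coe.1 hj
        exact ha ⟨j, congrArg _ ((hp j).unique hxy)⟩
  · exact key (p j) (d j) (p' j) (Set.mem_insert_of_mem _ ⟨p j, Or.inr ⟨j, rfl⟩, rfl⟩) (h2 j)
      (Or.inr ⟨_, _, rfl, rfl, hp j⟩)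

theorem VC.eqv {k k' G σ : Type} [Field k] [IsAlgClosed k] [Field k'] [IsAlgClosed k'] [Group G]
    [Finite G] [Fintype σ] {θ : K0 →+* k} {θ' : K0 →+* k'} {p : σ → k} {p' : σ → k'}
    {d : σ → G} {R : Subgroup G} (h1 : KerLe θ p θ' p') (h2 : KerLe θ' p' θ p)
    (h : VC θ p d R) : VC θ' p' d R := by
  obtain ⟨D, hD, H⟩ := h.spread
  exact H k' θ' p' h1 fun h0 => hD (h2 D h0)

end Pool.Agent.Adm
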