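import Pool.Agent.Adq.VPL

/-! Specialisation of tuples and transcendence degree. -/

namespace Pool.Agent.Adm

variable {k k' k'' σ : Type} [Field k] [Field k'] [Field k''] {θ : K0 →+* k} {θ' : K0 →+* k'}
  {θ'' : K0 →+* k''} {a : σ → k} {a' : σ → k'} {a'' : σ → k''}

theorem bind_TD {σ' : Type} (θ : K0 →+* k) (a : σ → k) (g : σ' → MvPolynomial σ K0)
    (f : MvPolynomial σ' K0) :
    MvPolynomial.eval₂ θ a (MvPolynomial.bind₁ g f) =
      MvPolynomial.eval₂ θ (fun s => MvPolynomial.eval₂ θ a (g s)) f :=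
  MvPolynomial.eval₂Hom_bind₁ θ a g f

theorem kerLe_bind_TD {σ' : Type} (h : KerLe θ' a' θ a) (g : σ' → MvPolynomial σ K0) :
    KerLe θ' (fun s => MvPolynomial.eval₂ θ' a' (g s)) θ
      (fun s => MvPolynomial.eval₂ θ a (g s)) := fun f hf => by
  rw [← bind_TD] at hf ⊢
  exact h _ hf

theorem inv_TD (p : σ → Prop) [DecidablePred p] (f : MvPolynomial σ K0) :
    ∃ g D : MvPolynomial σ K0, ∀ (F : Type) [Field F] (η : K0 →+* F) (b : σ → F),
      (∀ s, p s → b s ≠ 0) → MvPolynomial.eval₂ η b D ≠ 0 ∧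
        MvPolynomial.eval₂ η (fun s => if p s then (b s)⁻¹ else b s) f *
          MvPolynomial.eval₂ η b D = MvPolynomial.eval₂ η b g := by
  induction f using MvPolynomial.induction_on with
  | C c => exact ⟨MvPolynomial.C c, 1, fun F _ η b _ => by simp⟩
  | add f₁ f₂ h₁ h₂ =>
    obtain ⟨g₁, D₁, h₁⟩ := h₁
    obtain ⟨g₂, D₂, h₂⟩ := h₂
    refine ⟨g₁ * D₂ + g₂ * D₁, D₁ * D₂, fun F _ η b hb => ?_⟩
    obtain ⟨n₁, e₁⟩ := h₁ F η b hb
    obtain ⟨n₂, e₂⟩ := h₂ F η b hb
    simp only [MvPolynomial.eval₂_add, MvPolynomial.eval₂_mul]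
    refine ⟨mul_ne_zero n₁ n₂, ?_⟩
    rw [← e₁, ← e₂]; ring
  | mul_X f s h =>
    obtain ⟨g, D, h⟩ := h
    by_cases hs : p s
    · refine ⟨g, D * MvPolynomial.X s, fun F _ η b hb => ?_⟩
      obtain ⟨n, e⟩ := h F η b hb
      have := hb s hs
      simp only [MvPolynomial.eval₂_mul, MvPolynomial.eval₂_X, if_pos hs]
      refine ⟨mul_ne_zero n this, ?_⟩
      rw [← e]; field_simp
    · refine ⟨g * MvPolynomial.X s, D, fun F _ η b hb => ?_⟩
      obtain ⟨n, e⟩ := h F η b hb
      simp only [MvPolynomial.eval₂_mul, MvPolynomial.eval₂_X, if_neg hs]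
      refine ⟨n, ?_⟩
      rw [← e]; ring

theorem KerLe.refl (θ : K0 →+* k) (a : σ → k) : KerLe θ a θ a := fun _ h => h

theorem KerLe.trans (h : KerLe θ'' a'' θ' a') (h' : KerLe θ' a' θ a) : KerLe θ'' a'' θ a :=
  fun f hf => h' f (h f hf)

theorem KerLe.comp {σ' : Type} (h : KerLe θ' a' θ a) (g : σ' → σ) :
    KerLe θ' (fun s => a' (g s)) θ (fun s => a (g s)) := by
  simpa using kerLe_bind_TD h fun s => MvPolynomial.X (g s)

theorem KerLe.trunc (h : KerLe θ' a' θ a) (p : σ → Prop) [DecidablePred p] :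
    KerLe θ' (fun s => if p s then 0 else a' s) θ (fun s => if p s then 0 else a s) := by
  have := kerLe_bind_TD h fun s => if p s then 0 else MvPolynomial.X s
  simpa only [apply_ite (MvPolynomial.eval₂ _ _), MvPolynomial.eval₂_zero,
    MvPolynomial.eval₂_X] using this

theorem KerLe.eq_of_eq (h : KerLe θ' a' θ a) {s s' : σ} (hs : a' s = a' s') : a s = a s' := by
  have := h (MvPolynomial.X s - MvPolynomial.X s') (by
    rw [MvPolynomial.eval₂_sub, MvPolynomial.eval₂_X, MvPolynomial.eval₂_X, hs, sub_self])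
  rwa [MvPolynomial.eval₂_sub, MvPolynomial.eval₂_X, MvPolynomial.eval₂_X, sub_eq_zero] at this

theorem KerLe.eq_const (h : KerLe θ' a' θ a) {s : σ} {x : K0} (hs : a' s = θ' x) : a s = θ x := by
  have := h (MvPolynomial.X s - MvPolynomial.C x) (by
    rw [MvPolynomial.eval₂_sub, MvPolynomial.eval₂_X, MvPolynomial.eval₂_C, hs, sub_self])
  rwa [MvPolynomial.eval₂_sub, MvPolynomial.eval₂_X, MvPolynomial.eval₂_C, sub_eq_zero] at this

theorem KerLe.injective (h : KerLe θ' a' θ a) (ha : Function.Injective a) :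
    Function.Injective a' := fun _ _ hs => ha (h.eq_of_eq hs)

theorem Indep.kerLe (h : Indep θ' a') (θ : K0 →+* k) (a : σ → k) : KerLe θ' a' θ a := by
  intro f hf
  rw [h f hf, MvPolynomial.eval₂_zero]

/-- Tuples obtained by substituting polynomials. -/
theorem KerLe.bind {σ' : Type} (h : KerLe θ' a' θ a) (g : σ' → MvPolynomial σ K0) :
    KerLe θ' (fun s => MvPolynomial.eval₂ θ' a' (g s)) θ
      (fun s => MvPolynomial.eval₂ θ a (g s)) := kerLe_bind_TD h g

/-- Adjoining inverses of elements that do not specialise to zero. -/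
theorem KerLe.inv (h : KerLe θ' a' θ a) (p : σ → Prop) [DecidablePred p]
    (hp : ∀ s, p s → a s ≠ 0) :
    KerLe θ' (fun s => if p s then (a' s)⁻¹ else a' s) θ
      (fun s => if p s then (a s)⁻¹ else a s) := by
  have hp' : ∀ s, p s → a' s ≠ 0 := fun s hs h0 =>
    hp s hs ((h.eq_const (x := 0) (by rw [h0, map_zero])).trans (map_zero θ))
  intro f hf
  obtain ⟨g, D, hg⟩ := inv_TD p f
  obtain ⟨-, e'⟩ := hg k' θ' a' hp'
  obtain ⟨n, e⟩ := hg k θ a hp
  rw [hf, zero_mul] at e'
  rw [h g e'.symm] at e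
  exact (mul_eq_zero.1 e).resolve_right n

theorem Indep.notMem_range (h : Indep θ a) (s : σ) : a s ∉ Set.range θ := by
  rintro ⟨x, hx⟩
  have := h (MvPolynomial.X s - MvPolynomial.C x) (by
    rw [MvPolynomial.eval₂_sub, MvPolynomial.eval₂_X, MvPolynomial.eval₂_C, hx, sub_self])
  have h1 := congrArg (MvPolynomial.eval fun _ => x + 1) this
  simp at h1

theorem Indep.comp {σ' : Type} (h : Indep θ a) (g : σ' → σ) (hg : Function.Injective g) :
    Indep θ fun s => a (g s) := by
  intro f hf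
  apply MvPolynomial.rename_injective g hg
  rw [map_zero]
  apply h
  rw [MvPolynomial.eval₂_rename]
  exact hf

theorem indep_of_kerLe_TD (h : KerLe θ' a' θ a) (hi : Indep θ a) : Indep θ' a' :=
  fun f hf => hi f (h f hf)

variable [Fintype σ]

theorem le_td (S : Finset σ) (h : Indep θ fun i : S => a i) : S.card ≤ td θ a := by
  classical
  unfold td
  exact Finset.le_sup (f := Finset.card) (Finset.mem_filter.2 ⟨Finset.mem_univ _, h⟩)

theorem td_le (e : ℕ) (h : ∀ S : Finset σ, (Indep θ fun i : S => a i) → S.card ≤ e) :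
    td θ a ≤ e := by
  classical
  unfold td
  exact Finset.sup_le fun S hS => h S (Finset.mem_filter.1 hS).2

theorem td_le_card (θ : K0 →+* k) (a : σ → k) : td θ a ≤ Fintype.card σ :=
  td_le _ fun S _ => S.card_le_univ

theorem KerLe.td_le (h : KerLe θ' a' θ a) : td θ a ≤ td θ' a' :=
  Adm.td_le _ fun S hS => le_td S (indep_of_kerLe_TD (h.comp fun i : S => i.1) hS)

theorem exists_td_TD (θ : K0 →+* k) (a : σ → k) :
    ∃ S : Finset σ, (Indep θ fun i : S => a i) ∧ td θ a = S.card := by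
  classical
  have h0 : Indep θ fun i : (∅ : Finset σ) => a i := by
    intro f hf
    obtain ⟨c, rfl⟩ := MvPolynomial.C_surjective _ f
    rw [MvPolynomial.eval₂_C, map_eq_zero] at hf
    rw [hf, map_zero]
  obtain ⟨S, hS, e⟩ := Finset.exists_mem_eq_sup
    (Finset.univ.filter fun S : Finset σ => Indep θ fun i : S => a i)
    ⟨∅, Finset.mem_filter.2 ⟨Finset.mem_univ _, h0⟩⟩ Finset.card
  refine ⟨S, (Finset.mem_filter.1 hS).2, ?_⟩
  unfold td
  convert e

theorem KerLe.symm_of_td_le (h : KerLe θ' a' θ a) (ht : td θ' a' ≤ td θ a) :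
    KerLe θ a θ' a' := by
  classical
  obtain ⟨S, hS, e⟩ := exists_td_TD θ a
  have hS' : Indep θ' fun i : S => a' i := indep_of_kerLe_TD (h.comp fun i : S => i.1) hS
  let _ : Algebra K0 k' := θ'.toAlgebra
  have hiff : ∀ T : Finset σ, AlgebraicIndepOn K0 a' (T : Set σ) ↔ Indep θ' fun i : T => a' i :=
    fun T => algebraicIndependent_iff
  set A := Algebra.adjoin K0 (a' '' (S : Set σ)) with hA
  have halg : ∀ s, IsAlgebraic A (a' s) := fun s => by
    by_cases hs : s ∈ S
    · exact isAlgebraic_algebraMap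
        (⟨a' s, Algebra.subset_adjoin ⟨s, Finset.mem_coe.2 hs, rfl⟩⟩ : A)
    · by_contra hn
      have h1 : AlgebraicIndepOn K0 a' (insert s (S : Set σ)) :=
        (AlgebraicIndepOn.insert_iff (by simpa using hs)).2 ⟨(hiff S).2 hS', hn⟩
      rw [← Finset.coe_insert, hiff] at h1
      have h2 := le_td _ h1
      rw [Finset.card_insert_of_notMem hs] at h2
      omega
  have halg' : ∀ f : MvPolynomial σ K0, IsAlgebraic A (MvPolynomial.eval₂ θ' a' f) := fun f => by
    induction f using MvPolynomial.induction_on with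
    | C c =>
      rw [MvPolynomial.eval₂_C]
      exact isAlgebraic_algebraMap (⟨θ' c, A.algebraMap_mem c⟩ : A)
    | add f₁ f₂ h₁ h₂ => rw [MvPolynomial.eval₂_add]; exact h₁.add h₂
    | mul_X f s h₁ => rw [MvPolynomial.eval₂_mul, MvPolynomial.eval₂_X]; exact h₁.mul (halg s)
  have hlift : ∀ x : A, ∃ c : MvPolynomial S K0,
      MvPolynomial.eval₂ θ' (fun i : S => a' i) c = x := fun x => by
    have hx : (x : k') ∈ Algebra.adjoin K0 (Set.range fun i : S => a' i) := by
      have : (Set.range fun i : S => a' i) = a' '' (S : Set σ) := by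
        ext y; simp
      rw [this]; exact x.2
    rw [Algebra.adjoin_range_eq_range_aeval] at hx
    exact hx
  choose c hc using hlift
  intro f hf
  by_contra hne
  obtain ⟨q, hq0, hq⟩ := (halg' f).exists_nonzero_coeff_and_aeval_eq_zero
    (mem_nonZeroDivisors_of_ne_zero hne)
  have key := h (∑ i ∈ Finset.range (q.natDegree + 1),
      MvPolynomial.rename Subtype.val (c (q.coeff i)) * f ^ i) (by
    rw [Polynomial.aeval_eq_sum_range] at hq
    rw [MvPolynomial.eval₂_sum, ← hq]
    refine Finset.sum_congr rfl fun i _ => ?_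
    rw [MvPolynomial.eval₂_mul, MvPolynomial.eval₂_pow, MvPolynomial.eval₂_rename,
      Algebra.smul_def]
    congr 1
    exact hc _)
  rw [MvPolynomial.eval₂_sum, Finset.sum_range_succ', Finset.sum_eq_zero fun i _ => by
    rw [MvPolynomial.eval₂_mul, MvPolynomial.eval₂_pow, hf, zero_pow (Nat.succ_ne_zero i),
      mul_zero], zero_add, pow_zero, mul_one, MvPolynomial.eval₂_rename] at key
  have h0 := hS _ key
  apply hq0
  apply Subtype.ext
  rw [← hc, h0, MvPolynomial.eval₂_zero]
  rfl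

end Pool.Agent.Adm
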