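import Pool.Agent.Adq.GEN
import Pool.Agent.Adq.SPR
import Pool.Agent.Adq.TD
import Pool.Agent.Adq.Br1
import Pool.Agent.Adq.Br2
import Pool.Agent.Adm.Strict

/-! Generisation and spreading out for curves of a fixed type. -/

namespace Pool.Agent.Adm

variable {n : ℕ} {σ σ' σ'' : Shape n}

theorem QLe.refl {p : ℕ} (X : StableCurve p n) : QLe X X := fun _ _ _ h => h

theorem QLe.trans {p : ℕ} {X Y Z : StableCurve p n} (h : QLe X Y) (h' : QLe Y Z) : QLe X Z :=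
  fun G _ _ hG => h' G (h G hG)

theorem Pt.Le.refl (z : Pt σ) : z.Le z := fun _ _ _ h => h

theorem Pt.Le.trans {z : Pt σ} {z' : Pt σ'} {z'' : Pt σ''} (h : z.Le z') (h' : z'.Le z'') :
    z.Le z'' := fun G _ _ hG => h' G (h G hG)

theorem Pt.le_tw (z : Pt σ) (θ' : K0 →+* z.k) : z.Le (z.tw θ') :=
  fun G _ _ hG => (z.Q_tw θ' G).2 hG

theorem Pt.tw_le (z : Pt σ) (θ' : K0 →+* z.k) : (z.tw θ').Le z :=
  fun G _ _ hG => (z.Q_tw θ' G).1 hG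

theorem Pt.qle_iff (z : Pt σ) (z' : Pt σ') : QLe z.curve z'.curve ↔ z.Le z' :=
  ⟨fun h G _ _ hG => (z'.hasCover_iff G).1 (h G ((z.hasCover_iff G).2 hG)),
    fun h G _ _ hG => (z'.hasCover_iff G).2 (h G ((z.hasCover_iff G).1 hG))⟩

theorem StableCurve.exists_pt' (X : StableCurve 2 n) :
    ∃ (σ : Shape n) (z : Pt σ), clsStrict X = clsStrict z.curve ∧ QLe X z.curve ∧
      QLe z.curve X := by
  obtain ⟨σ, z, h⟩ := X.exists_pt
  exact ⟨σ, z, Quot.sound fun G _ _ => h G, fun G _ _ hG => (h G).1 hG,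
    fun G _ _ hG => (h G).2 hG⟩

theorem Pt.le_of_kerLe {z z' : Pt σ} (h : KerLe z'.θ z'.x z.θ z.x) : z.Le z' := by
  rintro G _ _ ⟨d, R, ⟨h1, h2⟩, h3⟩
  exact ⟨d, R, ⟨fun v => VC.gen
    (fun s s' e => Subtype.ext (z.inj _ _ (s.2.trans s'.2.symm) e))
    (h.comp fun s : σ.Sl v => s.1) (h1 v), h2⟩, h3⟩

theorem Pt.Q.spread {z : Pt σ} {G : Type} [Group G] [Finite G] (h : z.Q G) :
    ∃ D : MvPolynomial σ.Slot K0, MvPolynomial.eval₂ z.θ z.x D ≠ 0 ∧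
      ∀ z' : Pt σ, KerLe z.θ z.x z'.θ z'.x → MvPolynomial.eval₂ z'.θ z'.x D ≠ 0 → z'.Q G := by
  obtain ⟨d, R, ⟨h1, h2⟩, h3⟩ := h
  choose D hD H using fun v => VC.spread (h1 v)
  have e : ∀ z' : Pt σ, MvPolynomial.eval₂ z'.θ z'.x
      (∏ v, MvPolynomial.rename (fun s : σ.Sl v => s.1) (D v)) ≠ 0 ↔
      ∀ v, MvPolynomial.eval₂ z'.θ (fun s : σ.Sl v => z'.x s) (D v) ≠ 0 := by
    intro z'
    rw [MvPolynomial.eval₂_prod, Finset.prod_ne_zero_iff]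
    simp only [MvPolynomial.eval₂_rename, Finset.mem_univ, true_imp_iff]
    rfl
  exact ⟨_, (e z).2 hD, fun z' hk h0 => ⟨d, R,
    ⟨fun v => H v z'.k z'.θ _ (hk.comp fun s : σ.Sl v => s.1) ((e z').1 h0 v), h2⟩, h3⟩⟩

theorem Pt.open_spread (z : Pt σ) (s : Set (PiBar 2 n)) (hs : IsOpen s)
    (hz : clsStrict z.curve ∈ s) :
    ∃ D : MvPolynomial σ.Slot K0, MvPolynomial.eval₂ z.θ z.x D ≠ 0 ∧
      ∀ z' : Pt σ, KerLe z.θ z.x z'.θ z'.x → MvPolynomial.eval₂ z'.θ z'.x D ≠ 0 →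
        clsStrict z'.curve ∈ s := by
  induction hs with
  | basic s hs =>
    obtain ⟨G, _, _, rfl⟩ := hs
    obtain ⟨D, hD, H⟩ := ((z.hasCover_iff G).1 ((mem_U_Strict _ G).1 hz)).spread
    exact ⟨D, hD, fun z' hk h0 => (mem_U_Strict _ G).2 ((z'.hasCover_iff G).2 (H z' hk h0))⟩
  | univ => exact ⟨1, by rw [MvPolynomial.eval₂_one]; exact one_ne_zero,
      fun _ _ _ => Set.mem_univ _⟩
  | inter s t _ _ h1 h2 =>
    obtain ⟨D, hD, H⟩ := h1 hz.1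
    obtain ⟨D', hD', H'⟩ := h2 hz.2
    refine ⟨D * D', by rw [MvPolynomial.eval₂_mul]; exact mul_ne_zero hD hD', fun z' hk h0 => ?_⟩
    rw [MvPolynomial.eval₂_mul] at h0
    exact ⟨H z' hk (left_ne_zero_of_mul h0), H' z' hk (right_ne_zero_of_mul h0)⟩
  | sUnion S _ ih =>
    obtain ⟨t, ht, hm⟩ := hz
    obtain ⟨D, hD, H⟩ := ih t ht hm
    exact ⟨D, hD, fun z' hk h0 => ⟨t, ht, H z' hk h0⟩⟩

end Pool.Agent.Adm
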