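import Pool.Agent.Adq.Tr1

/-! Marked points beyond special points, medians, counting. -/

namespace Pool.Agent.Adm.Shape

open Sum

variable {n : ℕ} (σ : Shape n)

theorem three_le_card (v : Fin σ.r) : 3 ≤ Fintype.card (σ.Sl v) := by
  have := σ.stable v
  rwa [← Nat.card_eq_fintype_card]

theorem exists_two_slots_Tr3 (v : Fin σ.r) (t : σ.Slot) :
    ∃ s s', σ.base s = v ∧ σ.base s' = v ∧ s ≠ s' ∧ s ≠ t ∧ s' ≠ t := by
  obtain ⟨a, b, c, hab, hac, hbc⟩ := Fintype.two_lt_card_iff.1 (σ.three_le_card v)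
  have hab' : a.1 ≠ b.1 := fun h => hab (Subtype.ext h)
  have hac' : a.1 ≠ c.1 := fun h => hac (Subtype.ext h)
  have hbc' : b.1 ≠ c.1 := fun h => hbc (Subtype.ext h)
  by_cases ha : a.1 = t
  · exact ⟨b.1, c.1, b.2, c.2, hbc', ha ▸ hab'.symm, ha ▸ hac'.symm⟩
  · by_cases hb : b.1 = t
    · exact ⟨a.1, c.1, a.2, c.2, hac', ha, hb ▸ hbc'.symm⟩
    · exact ⟨a.1, b.1, a.2, b.2, hab', ha, hb⟩

theorem dir_of_ne_Tr3 (δ : σ.T.Dart) {l : Fin n} (h : σ.dir δ.snd l ≠ inl δ.symm) :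
    σ.dir δ.fst l = inl δ := by
  by_contra hc
  exact h ((σ.dir_symm_iff δ l).2 hc)

theorem exists_dir_inl_Tr3 (m : ℕ) : ∀ δ : σ.T.Dart, (σ.Br δ).ncard = m →
    ∃ l, σ.dir δ.fst l = inl δ := by
  induction m using Nat.strong_induction_on with
  | _ m ih =>
    intro δ hm
    obtain ⟨s, -, hs, -, -, h1, -⟩ := σ.exists_two_slots_Tr3 δ.snd (inl δ.symm)
    rcases s with δ' | l
    · have h2 : δ'.fst = δ.snd := hs
      have h3 := σ.Br_ssubset h2 fun h => h1 (by rw [h])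
      obtain ⟨l, hl⟩ := ih _ (hm ▸ Set.ncard_lt_ncard h3 (Set.toFinite _)) δ' rfl
      refine ⟨l, σ.dir_of_ne_Tr3 δ ?_⟩
      rw [← h2, hl]
      exact h1
    · have h2 : σ.comp l = δ.snd := hs
      refine ⟨l, σ.dir_of_ne_Tr3 δ ?_⟩
      rw [← h2, σ.dir_comp]
      exact h1

theorem exists_closer_Tr3 {v : Fin σ.r} {i j : Fin n} (hij : i ≠ j)
    (h : σ.dir v i = σ.dir v j) (k : Fin n) : ∃ u,
      σ.T.dist u (σ.comp i) + σ.T.dist u (σ.comp j) + σ.T.dist u (σ.comp k) <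
        σ.T.dist v (σ.comp i) + σ.T.dist v (σ.comp j) + σ.T.dist v (σ.comp k) := by
  rcases h' : σ.dir v j with δ | l
  · rw [h'] at h
    obtain ⟨rfl, h1⟩ := (σ.dir_eq_inl_iff v i δ).1 h
    obtain ⟨-, h2⟩ := (σ.dir_eq_inl_iff _ j δ).1 h'
    have h3 : σ.T.dist δ.snd (σ.comp i) < σ.T.dist δ.fst (σ.comp i) := h1
    have h4 : σ.T.dist δ.snd (σ.comp j) < σ.T.dist δ.fst (σ.comp j) := h2
    have h5 := σ.tree.connected.dist_triangle (u := δ.snd) (v := δ.fst) (w := σ.comp k)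
    have h6 : σ.T.dist δ.snd δ.fst = 1 := SimpleGraph.dist_eq_one_iff_adj.2 δ.adj.symm
    exact ⟨δ.snd, by omega⟩
  · rw [h'] at h
    exact absurd (((σ.dir_eq_inr_iff v i l).1 h).2.trans ((σ.dir_eq_inr_iff v j l).1 h').2.symm)
      hij

theorem exists_dir (s : σ.Slot) : ∃ l, σ.dir (σ.base s) l = s := by
  rcases s with δ | l
  · exact σ.exists_dir_inl_Tr3 _ δ rfl
  · exact ⟨l, σ.dir_comp l⟩

theorem exists_two (δ : σ.T.Dart) :
    ∃ l l', l ≠ l' ∧ σ.dir δ.fst l = inl δ ∧ σ.dir δ.fst l' = inl δ := by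
  obtain ⟨s, s', hs, hs', hne, h1, h2⟩ := σ.exists_two_slots_Tr3 δ.snd (inl δ.symm)
  obtain ⟨l, hl⟩ := σ.exists_dir s
  obtain ⟨l', hl'⟩ := σ.exists_dir s'
  rw [hs] at hl
  rw [hs'] at hl'
  refine ⟨l, l', ?_, σ.dir_of_ne_Tr3 δ (hl ▸ h1), σ.dir_of_ne_Tr3 δ (hl' ▸ h2)⟩
  rintro rfl
  exact hne (hl.symm.trans hl')

theorem exists_med {i0 i1 i2 : Fin n} (h01 : i0 ≠ i1) (h02 : i0 ≠ i2) (h12 : i1 ≠ i2) :
    ∃ v, σ.IsMed v i0 i1 i2 := by
  have : Nonempty (Fin σ.r) := σ.tree.connected.nonempty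
  obtain ⟨v, hv⟩ := Finite.exists_min fun v : Fin σ.r =>
    σ.T.dist v (σ.comp i0) + σ.T.dist v (σ.comp i1) + σ.T.dist v (σ.comp i2)
  refine ⟨v, fun h => ?_, fun h => ?_, fun h => ?_⟩
  · obtain ⟨u, hu⟩ := σ.exists_closer_Tr3 h01 h i2
    have := hv u
    omega
  · obtain ⟨u, hu⟩ := σ.exists_closer_Tr3 h02 h i1
    have := hv u
    omega
  · obtain ⟨u, hu⟩ := σ.exists_closer_Tr3 h12 h i0
    have := hv u
    omega

theorem exists_triple (v : Fin σ.r) : ∃ i0 i1 i2, σ.IsMed v i0 i1 i2 := by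
  obtain ⟨a, b, c, hab, hac, hbc⟩ := Fintype.two_lt_card_iff.1 (σ.three_le_card v)
  obtain ⟨i0, h0⟩ := σ.exists_dir a.1
  obtain ⟨i1, h1⟩ := σ.exists_dir b.1
  obtain ⟨i2, h2⟩ := σ.exists_dir c.1
  rw [a.2] at h0
  rw [b.2] at h1
  rw [c.2] at h2
  refine ⟨i0, i1, i2, ?_, ?_, ?_⟩
  · rw [h0, h1]
    exact fun h => hab (Subtype.ext h)
  · rw [h0, h2]
    exact fun h => hac (Subtype.ext h)
  · rw [h1, h2]
    exact fun h => hbc (Subtype.ext h)

theorem IsMed.ne {σ : Shape n} {v : Fin σ.r} {i0 i1 i2 : Fin n} (h : σ.IsMed v i0 i1 i2) :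
    i0 ≠ i1 ∧ i0 ≠ i2 ∧ i1 ≠ i2 := by
  refine ⟨?_, ?_, ?_⟩
  · rintro rfl
    exact h.1 rfl
  · rintro rfl
    exact h.2.1 rfl
  · rintro rfl
    exact h.2.2 rfl

theorem sum_card : ∑ v, Fintype.card (σ.Sl v) + 2 = n + 2 * σ.r := by
  classical
  have h1 : ∑ v, Fintype.card (σ.Sl v) = Fintype.card σ.Slot := by
    rw [← Fintype.card_congr (Equiv.sigmaFiberEquiv σ.base), Fintype.card_sigma]
  have h2 : Fintype.card σ.T.Dart = 2 * σ.T.edgeFinset.card := by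
    convert σ.T.dart_card_eq_twice_card_edges
  have h3 := σ.tree.card_edgeFinset
  rw [h1, Fintype.card_sum, h2]
  simp only [Fintype.card_fin] at h3 ⊢
  omega

theorem sum_card_sub_two : ∑ v, (Fintype.card (σ.Sl v) - 2) + 2 = n := by
  have h1 := σ.sum_card
  have h2 : ∑ v, Fintype.card (σ.Sl v) = ∑ v, (Fintype.card (σ.Sl v) - 2 + 2) :=
    Finset.sum_congr rfl fun v _ => by
      have := σ.three_le_card v
      omega
  rw [h2, Finset.sum_add_distrib] at h1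
  simp only [Finset.sum_const, Finset.card_univ, Fintype.card_fin, smul_eq_mul] at h1
  omega

theorem r_add_two_le : σ.r + 2 ≤ n := by
  have h1 := σ.sum_card_sub_two
  have h2 : ∑ _v : Fin σ.r, 1 ≤ ∑ v, (Fintype.card (σ.Sl v) - 2) :=
    Finset.sum_le_sum fun v _ => by
      have := σ.three_le_card v
      omega
  simp only [Finset.sum_const, Finset.card_univ, Fintype.card_fin, smul_eq_mul] at h2
  omega

include σ in
theorem three_le : 3 ≤ n := by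
  obtain ⟨v⟩ : Nonempty (Fin σ.r) := σ.tree.connected.nonempty
  have h1 := σ.r_add_two_le
  have h2 := v.2
  omega

theorem finite_shape (n : ℕ) : Finite (Shape n) := by
  refine Finite.of_injective
    (β := Σ r : Fin (n + 1), SimpleGraph (Fin r) × (Fin n → Fin r))
    (fun σ => ⟨⟨σ.r, by have := σ.r_add_two_le; omega⟩, σ.T, σ.comp⟩) ?_
  rintro ⟨r, T, ht, c, hs⟩ ⟨r', T', ht', c', hs'⟩ h
  have hr : r = r' := congrArg (fun x => x.1.1) h
  subst hr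
  have h2 := eq_of_heq (Sigma.mk.inj h).2
  obtain ⟨rfl, rfl⟩ := Prod.mk.inj h2
  rfl

theorem dir_of_isEmpty (h : IsEmpty σ.T.Dart) (v : Fin σ.r) (l : Fin n) : σ.dir v l = inr l := by
  rcases h' : σ.dir v l with δ | l'
  · exact isEmptyElim δ
  · rw [((σ.dir_eq_inr_iff v l l').1 h').2]

theorem subsingleton_of_isEmpty (h : IsEmpty σ.T.Dart) : Subsingleton (Fin σ.r) := by
  refine ⟨fun u v => ?_⟩
  by_contra huv
  obtain ⟨δ, -⟩ := σ.exists_dart huv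
  exact isEmptyElim δ

theorem isEmpty_of_injective (v : Fin σ.r) (h : Function.Injective (σ.dir v)) :
    IsEmpty σ.T.Dart := by
  refine ⟨fun δ => ?_⟩
  have h1 : ∃ u, u ≠ v := by
    by_contra hc
    push Not at hc
    exact δ.fst_ne_snd ((hc _).trans (hc _).symm)
  obtain ⟨u, hu⟩ := h1
  obtain ⟨δ', h2, -⟩ := σ.exists_dart hu
  obtain ⟨l, l', hne, hl, hl'⟩ := σ.exists_two δ'
  rw [h2] at hl hl'
  exact hne (h (hl.trans hl'.symm))

theorem exists_smooth (hn : 3 ≤ n) : ∃ σ : Shape n, IsEmpty σ.T.Dart := by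
  refine ⟨⟨1, ⊥, SimpleGraph.IsTree.of_subsingleton, fun _ => 0, fun v => ?_⟩,
    ⟨fun δ => δ.adj⟩⟩
  have : Finite (⊥ : SimpleGraph (Fin 1)).Dart :=
    Finite.of_injective (fun δ => δ.toProd) SimpleGraph.Dart.toProd_injective
  have h := Nat.card_le_card_of_injective
    (fun l : Fin n => (⟨inr l, Subsingleton.elim _ _⟩ :
      {s // slotBase (⊥ : SimpleGraph (Fin 1)) (fun _ : Fin n => 0) s = v}))
    fun l l' h => inr_injective (congrArg Subtype.val h)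
  rw [Nat.card_eq_fintype_card, Fintype.card_fin] at h
  exact hn.trans h

end Pool.Agent.Adm.Shape
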