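import Pool.Agent.Adq.RG
import Pool.Agent.Adq.HM
import Pool.Agent.Adq.PS
import Pool.Agent.Adq.Tr3

/-! Chains of specialisations have bounded length. -/

namespace Pool.Agent.Adm

theorem back_BD {n : ℕ} (w w' : Σ σ : Shape n, Pt σ) (e : w.1 = w'.1) (hψ : w.2.psi = w'.2.psi)
    (h : w.2.Rel w'.2 (Equiv.refl _)) : QLe w'.2.curve w.2.curve := by
  obtain ⟨σ, z⟩ := w
  obtain ⟨σ', z'⟩ := w'
  obtain rfl : σ = σ' := e
  exact (Pt.qle_iff _ _).2 (h.le_of_psi hψ.ge)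

theorem seq_BD {n : ℕ} (y : ℕ → StableCurve 2 n) (hy : ∀ i, QLe (y i) (y (i + 1))) :
    ∃ (w : ℕ → Σ σ : Shape n, Pt σ) (T : ℕ → Fin n ≃ Fin n),
      (∀ i, QLe (y i) (w i).2.curve ∧ QLe (w i).2.curve (y i)) ∧
      ∀ i j, i < j → (w i).2.Rel (w j).2 ((T i).symm.trans (T j)) := by
  have step : ∀ (i : ℕ)
      (w : {w : Σ σ : Shape n, Pt σ // QLe (y i) w.2.curve ∧ QLe w.2.curve (y i)}),
      ∃ (w' : {w : Σ σ : Shape n, Pt σ // QLe (y (i + 1)) w.2.curve ∧ QLe w.2.curve (y (i + 1))})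
        (τ : Fin n ≃ Fin n), w.1.2.Rel w'.1.2 τ := by
    intro i w
    obtain ⟨σ', z', -, a, b⟩ := (y (i + 1)).exists_pt'
    obtain ⟨τ, θ'', hr⟩ := ((Pt.qle_iff _ _).1 (w.2.2.trans ((hy i).trans a))).exists_rel
    exact ⟨⟨⟨σ', z'.tw θ''⟩, a, b⟩, τ, hr⟩
  choose f τ hf using step
  obtain ⟨σ0, z0, -, a, b⟩ := (y 0).exists_pt'
  let w : ∀ i, {w : Σ σ : Shape n, Pt σ // QLe (y i) w.2.curve ∧ QLe w.2.curve (y i)} :=
    fun i => Nat.rec ⟨⟨σ0, z0⟩, a, b⟩ f i
  let T : ℕ → Fin n ≃ Fin n := fun i => Nat.rec (Equiv.refl _) (fun i t => t.trans (τ i (w i))) i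
  have hT : ∀ i, T (i + 1) = (T i).trans (τ i (w i)) := fun _ => rfl
  have hw : ∀ i, (w i).1.2.Rel (w (i + 1)).1.2 (τ i (w i)) := fun i => hf i (w i)
  refine ⟨fun i => (w i).1, T, fun i => (w i).2, fun i j hij => ?_⟩
  induction j, hij using Nat.le_induction with
  | base =>
    rw [hT, ← Equiv.trans_assoc, Equiv.symm_trans_self, Equiv.refl_trans]
    exact hw i
  | succ j _ ih =>
    rw [hT, ← Equiv.trans_assoc]
    exact ih.trans (hw j)

theorem exists_chain_bound (n : ℕ) :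
    ∃ B : ℕ, ∀ (r : ℕ) (x : Fin (r + 1) → StableCurve 2 n),
      (∀ i : Fin r, QLe (x i.castSucc) (x i.succ)) →
      (∀ i : Fin r, ¬ QLe (x i.succ) (x i.castSucc)) → r ≤ B := by
  classical
  have := Shape.finite_shape n
  have := Fintype.ofFinite (Shape n)
  refine ⟨Fintype.card (Shape n × (Fin n ≃ Fin n) × Fin (n ^ 5 + 1)), fun r x h h' => ?_⟩
  by_contra hr
  let y : ℕ → StableCurve 2 n := fun i => x ⟨min i r, Nat.lt_succ_of_le (min_le_right _ _)⟩
  have e1 : ∀ i (hi : i < r), y i = x (Fin.castSucc ⟨i, hi⟩) := fun i hi =>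
    congrArg x (Fin.ext (min_eq_left hi.le))
  have e2 : ∀ i (hi : i < r), y (i + 1) = x (Fin.succ ⟨i, hi⟩) := fun i hi =>
    congrArg x (Fin.ext (min_eq_left hi))
  have hy : ∀ i, QLe (y i) (y (i + 1)) := fun i => by
    rcases lt_or_ge i r with hi | hi
    · rw [e1 i hi, e2 i hi]
      exact h _
    · have : y (i + 1) = y i := congrArg x (Fin.ext
        ((min_eq_right (hi.trans (Nat.le_succ i))).trans (min_eq_right hi).symm))
      rw [this]
      exact QLe.refl _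
  have hy' : ∀ i j, i ≤ j → QLe (y i) (y j) := fun i j hij => by
    induction j, hij using Nat.le_induction with
    | base => exact QLe.refl _
    | succ j _ ih => exact ih.trans (hy j)
  obtain ⟨w, T, hw, hrel⟩ := seq_BD y hy
  have key : ∀ i j : Fin r, i < j → (w i).1 = (w j).1 → T i = T j → (w i).2.psi = (w j).2.psi →
      False := fun i j hij a b c => by
    have := hrel i j hij
    rw [b, Equiv.symm_trans_self] at this
    have h1 := (hy' (i + 1) j hij).trans ((hw j).1.trans ((back_BD _ _ a c this).trans (hw i).2))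
    rw [e1 i i.2, e2 i i.2] at h1
    exact h' i h1
  obtain ⟨i, j, hij, e⟩ := Fintype.exists_ne_map_eq_of_card_lt
    (fun i : Fin r => (((w i).1, T i, ⟨(w i).2.psi, Nat.lt_succ_of_le (Pt.psi_le _)⟩) :
      Shape n × (Fin n ≃ Fin n) × Fin (n ^ 5 + 1)))
    (by rw [Fintype.card_fin]; exact not_le.1 hr)
  simp only [Prod.mk.injEq, Fin.mk.injEq] at e
  rcases lt_or_gt_of_ne hij with hlt | hlt
  · exact key i j hlt e.1 e.2.1 e.2.2
  · exact key j i hlt e.1.symm e.2.1.symm e.2.2.symm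

end Pool.Agent.Adm
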