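import Pool.Agent.Adq.GM
import Pool.Agent.Adq.Tr2

/-! Smoothing of branches and of the whole curve. -/

namespace Pool.Agent.Adm

open Sum

variable {n : ℕ} {σ : Shape n} {z : Pt σ} {G : Type} [Group G] [Finite G] {d : σ.Slot → G}

omit [Finite G] in
theorem Pt.AdmR.geo_vertex {R : Fin σ.r → Subgroup G} (h : z.AdmR d R) (v : Fin σ.r) :
    Geo (σ.bd {v}) d (R v) := by
  rw [σ.bd_singleton]
  refine ⟨z.k, inferInstance, inferInstance, z.θ, fun s => (z.x s : OnePoint z.k), ?_, h.1 v⟩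
  intro s s' e
  exact Subtype.ext (z.inj _ _ (s.2.trans s'.2.symm) (OnePoint.coe_eq_coe.1 e))

omit [Finite G] in
theorem Pt.AdmR.geo_single {R : Fin σ.r → Subgroup G} (h : z.AdmR d R) (v : Fin σ.r) :
    Geo (σ.bd {v}) d (⨆ u ∈ ({v} : Set (Fin σ.r)), R u) := by
  rw [iSup_singleton]
  exact h.geo_vertex v

theorem Pt.AdmR.geo_step {R : Fin σ.r → Subgroup G} (h : z.AdmR d R) (U : Set (Fin σ.r))
    (δ : σ.T.Dart) (h1 : δ.fst ∈ U) (h2 : δ.snd ∉ U)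
    (h3 : ∀ δ' : σ.T.Dart, δ'.fst = δ.snd → δ'.snd ∈ U → δ' = δ.symm)
    (hU : Geo (σ.bd U) d (⨆ u ∈ U, R u)) :
    Geo (σ.bd (insert δ.snd U)) d (⨆ u ∈ insert δ.snd U, R u) := by
  rw [σ.bd_insert U δ h1 h2 h3, iSup_insert, sup_comm]
  refine Geo.merge hU (h.geo_vertex δ.snd) ?_ ?_ (h.2 δ) ?_
  · refine ⟨h1, fun δ' e => ?_⟩
    obtain rfl : δ = δ' := inl_injective e
    exact h2
  · rw [σ.bd_singleton]
    rfl
  · rw [Set.disjoint_left]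
    intro s hs hs'
    have e : σ.base s = δ.snd := hs'.1.1
    exact h2 (e ▸ hs.1.1)

theorem Pt.AdmR.geo_Br {R : Fin σ.r → Subgroup G} (h : z.AdmR d R) (δ : σ.T.Dart) :
    Geo (σ.bd (σ.Br δ)) d (⨆ u ∈ σ.Br δ, R u) :=
  σ.growth_Br (fun U => Geo (σ.bd U) d (⨆ u ∈ U, R u)) δ (h.geo_single _) h.geo_step

theorem Pt.AdmR.geo_univ {R : Fin σ.r → Subgroup G} (h : z.AdmR d R) :
    Geo Set.univ (fun l => d (inr l)) (⨆ u, R u) := by
  obtain ⟨ρ⟩ := σ.nonempty_vertex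
  have H := σ.growth_univ (fun U => Geo (σ.bd U) d (⨆ u ∈ U, R u)) ρ (h.geo_single _) h.geo_step
  simp only [Set.mem_univ, iSup_pos] at H
  refine H.equiv (Equiv.ofBijective
    (fun l => ⟨inr l.1, (σ.mem_bd_univ _).2 ⟨l.1, rfl⟩⟩) ⟨?_, ?_⟩) fun _ => rfl
  · intro l l' e
    exact Subtype.ext (inr_injective (congrArg Subtype.val e))
  · rintro ⟨s, hs⟩
    obtain ⟨l, rfl⟩ := (σ.mem_bd_univ _).1 hs
    exact ⟨⟨l, trivial⟩, rfl⟩

theorem Pt.Adm.geo (h : z.Adm G d) : Geo Set.univ (fun l => d (inr l)) ⊤ := by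
  obtain ⟨R, h, hR⟩ := h
  exact hR ▸ h.geo_univ

end Pool.Agent.Adm
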