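import Pool.Agent.Adq.SM
import Pool.Agent.Adq.HM
import Pool.Agent.Adq.PS

/-! Steps between smooth curves. -/

namespace Pool.Agent.Adm

variable {n : ℕ} {σ σ0 σ1 : Shape n} {i0 i1 i2 : Fin n}

theorem Pt.not_le_of_td {z : Pt σ} {y : Pt σ0} {e : ℕ} {v : Fin σ.r} (hm : σ.IsMed v i0 i1 i2)
    (h : e < td z.θ (z.crs v i0 i1 i2))
    (h' : ∀ (θ' : K0 →+* y.k) (a : Fin n → y.k), td θ' a ≤ e) : ¬ z.Le y := by
  intro hl
  obtain ⟨τ, θ', hr⟩ := hl.exists_rel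
  obtain ⟨h01, h02, h12⟩ := hm.ne
  obtain ⟨v', hv'⟩ := σ0.exists_med (τ.injective.ne h01) (τ.injective.ne h02) (τ.injective.ne h12)
  exact absurd ((hr v v' i0 i1 i2 hm hv').2.td_le.trans (h' _ _)) (not_le.2 h)

theorem inj_SM2 {z : Pt σ} {y : Pt σ0} {τ : Fin n ≃ Fin n} (hr : z.Rel y τ)
    (hs : IsEmpty σ0.T.Dart) (h0 : ∀ a : Fin n → y.k, td y.θ a ≤ 0) {v : Fin σ.r}
    (hm : σ.IsMed v i0 i1 i2) {l l' : Fin n} (hl : σ.dir v l ≠ σ.dir v i2)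
    (e : σ.dir v l = σ.dir v l') : l = l' := by
  obtain ⟨h01, h02, h12⟩ := hm.ne
  obtain ⟨v', hv'⟩ := σ0.exists_med (τ.injective.ne h01) (τ.injective.ne h02) (τ.injective.ne h12)
  obtain ⟨r1, r2⟩ := hr v v' i0 i1 i2 hm hv'
  have hl' : σ.dir v l' ≠ σ.dir v i2 := e ▸ hl
  have h1 := (r2.symm_of_td_le ((h0 _).trans (Nat.zero_le _))).eq_of_eq
    ((z.crs_eq_iff hm hl hl').2 e)
  simp only [if_neg hl, if_neg hl'] at h1
  have h2 := (y.crs_eq_iff hv' (r1 l hl) (r1 l' hl')).1 h1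
  rw [σ0.dir_of_isEmpty hs, σ0.dir_of_isEmpty hs] at h2
  exact τ.injective (Sum.inr_injective h2)

theorem Pt.le_of_bottom {z : Pt σ} {y : Pt σ0} (hs : IsEmpty σ0.T.Dart)
    (h0 : ∀ (θ' : K0 →+* y.k) (a : Fin n → y.k), td θ' a ≤ 0) (h : z.Le y) : y.Le z := by
  obtain ⟨τ, θ', hr⟩ := h.exists_rel
  obtain ⟨v⟩ := σ.nonempty_vertex
  obtain ⟨j0, j1, j2, hm⟩ := σ.exists_triple v
  have hm' : σ.IsMed v j2 j1 j0 := ⟨hm.2.2.symm, hm.2.1.symm, hm.1.symm⟩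
  have hσ : IsEmpty σ.T.Dart := σ.isEmpty_of_injective v fun l l' e => by
    by_cases hl : σ.dir v l = σ.dir v j2
    · exact inj_SM2 hr hs (h0 θ') hm' (hl ▸ hm.2.1.symm) e
    · exact inj_SM2 hr hs (h0 θ') hm hl e
  obtain ⟨h01, h02, h12⟩ := hm.ne
  obtain ⟨v'⟩ := σ0.nonempty_vertex
  have hk := hr.kerLe_smooth hσ hs v v' h01 h02 h12
  exact (y.le_tw θ').trans (Pt.le_of_smooth hσ hs τ v v' h01 h02 h12
    (hk.symm_of_td_le ((h0 _ _).trans (Nat.zero_le _))))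

theorem Pt.between {y1 : Pt σ1} {z : Pt σ} {y0 : Pt σ0} (hs : IsEmpty σ1.T.Dart) {e : ℕ}
    {v : Fin σ1.r} (hm : σ1.IsMed v i0 i1 i2) (h1 : e ≤ td y1.θ (y1.crs v i0 i1 i2))
    (h0 : ∀ (θ' : K0 →+* y0.k) (a : Fin n → y0.k), td θ' a ≤ e + 1) (ha : y1.Le z)
    (hb : z.Le y0) : z.Le y1 ∨ y0.Le z := by
  obtain ⟨τ, θ', hr⟩ := ha.exists_rel
  obtain ⟨τ', θ'', hr'⟩ := ((z.tw_le θ').trans hb).exists_rel
  have hσ := hr.isEmpty hs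
  have hσ0 := hr'.isEmpty hσ
  obtain ⟨h01, h02, h12⟩ := hm.ne
  obtain ⟨v'⟩ := σ.nonempty_vertex
  obtain ⟨v''⟩ := σ0.nonempty_vertex
  have hk := hr.kerLe_smooth hs hσ v v' h01 h02 h12
  have t01 := τ.injective.ne h01
  have t02 := τ.injective.ne h02
  have t12 := τ.injective.ne h12
  have hk' := hr'.kerLe_smooth hσ hσ0 v' v'' t01 t02 t12
  by_cases hc : td (z.tw θ').θ (fun l => (z.tw θ').crs v' (τ i0) (τ i1) (τ i2) (τ l)) ≤ e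
  · exact Or.inl ((z.le_tw θ').trans
      (Pt.le_of_smooth hs hσ τ v v' h01 h02 h12 (hk.symm_of_td_le (hc.trans h1))))
  · have h2 := ((hk'.comp τ).symm_of_td_le ((h0 _ _).trans (not_le.1 hc))).comp τ.symm
    simp only [Equiv.apply_symm_apply] at h2
    exact Or.inr ((y0.le_tw θ'').trans
      ((Pt.le_of_smooth hσ hσ0 τ' v' v'' t01 t02 t12 h2).trans (z.tw_le θ')))

end Pool.Agent.Adm
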