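import Pool.Agent.Adq.CH0
import Pool.Agent.Adq.SM2

/-! A saturated chain of smooth curves. -/

namespace Pool.Agent.Adm

theorem exists_consts_CH (e : ℕ) :
    ∃ c : Fin e → K0, Function.Injective c ∧ (∀ i, c i ≠ 0) ∧ ∀ i, c i ≠ 1 := by
  have h : ({0, 1}ᶜ : Set K0).Infinite := (Set.toFinite _).infinite_compl
  refine ⟨fun i => h.natEmbedding _ i, fun i j e =>
    Fin.ext ((h.natEmbedding _).injective (Subtype.ext e)), fun i e => ?_, fun i e => ?_⟩
  · exact (h.natEmbedding _ i).2 (Or.inl e)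
  · exact (h.natEmbedding _ i).2 (Or.inr e)

theorem exists_index_CH {e : ℕ} (l : Fin (e + 3)) (h0 : l ≠ 0) (h1 : l ≠ 1) (h2 : l ≠ 2) :
    ∃ i : Fin e, i.succ.succ.succ = l := by
  obtain ⟨l, rfl⟩ := Fin.exists_succ_eq.2 h0
  obtain ⟨l, rfl⟩ := Fin.exists_succ_eq.2 fun h : l = 0 => h1 (by rw [h]; rfl)
  obtain ⟨l, rfl⟩ := Fin.exists_succ_eq.2 fun h : l = 0 => h2 (by rw [h]; rfl)
  exact ⟨l, rfl⟩

theorem exists_smooth_chain (e : ℕ) :
    ∃ y : Fin (e + 1) → StableCurve 2 (e + 3), (∀ X, QLe X (y 0)) ∧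
      (∀ i : Fin e, QLe (y i.succ) (y i.castSucc) ∧ ¬ QLe (y i.castSucc) (y i.succ) ∧
        ∀ X, QLe X (y i.castSucc) → QLe (y i.succ) X →
          QLe (y i.castSucc) X ∨ QLe X (y i.succ)) ∧
      ∀ X, QLe X (y (Fin.last e)) → QLe (y (Fin.last e)) X := by
  obtain ⟨σ, hs⟩ := Shape.exists_smooth (n := e + 3) (by omega)
  obtain ⟨v⟩ := σ.nonempty_vertex
  obtain ⟨c, c0, c1, c2⟩ := exists_consts_CH e
  choose y y1 y2 y3 using fun j : Fin (e + 1) =>
    exists_pt_td hs v c c0 c1 c2 (e - j) (Nat.sub_le _ _)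
  have h01 : (0 : Fin (e + 3)) ≠ 1 := by simp
  have h02 : (0 : Fin (e + 3)) ≠ 2 := fun h =>
    absurd (show (0 : ℕ) = 2 from congrArg Fin.val h) (by decide)
  have h12 : (1 : Fin (e + 3)) ≠ 2 := fun h =>
    absurd (show (1 : ℕ) = 2 from congrArg Fin.val h) (by decide)
  have hm := Shape.isMed_smooth hs v h01 h02 h12
  have ht : ∀ j : Fin (e + 1), e - j ≤ td (y j).θ ((y j).crs v 0 1 2) := fun j =>
    le_td_of_indep _ _ (Nat.sub_le _ _) (y2 j)
  refine ⟨fun j => (y j).curve, fun X => ?_, fun i => ⟨?_, ?_, fun X ha hb => ?_⟩,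
    fun X h => ?_⟩
  · obtain ⟨σ', z, -, a, -⟩ := X.exists_pt'
    refine a.trans ((Pt.qle_iff _ _).2 ((y 0).le_top hs v h01 h02 h12 ?_ z))
    choose f hf using fun l : {l : Fin (e + 3) // l ≠ 0 ∧ l ≠ 1 ∧ l ≠ 2} =>
      exists_index_CH l.1 l.2.1 l.2.2.1 l.2.2.2
    have h := (y2 0).comp (fun l => ⟨f l, (f l).2⟩) fun l l' h =>
      Subtype.ext (by rw [← hf, ← hf, show f l = f l' from congrArg Subtype.val h])
    simpa only [Function.comp_def, hf] using h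
  · exact (Pt.qle_iff _ _).2 (le_of_indep hs v c (by simp; omega) (y2 _) (y3 _) (y3 _))
  · refine fun h => Pt.not_le_of_td hm (lt_of_lt_of_le ?_ (ht _)) (y1 _) ((Pt.qle_iff _ _).1 h)
    have := i.2
    simp only [Fin.val_succ, Fin.val_castSucc]
    omega
  · obtain ⟨σ', z, -, a, b⟩ := X.exists_pt'
    have h := Pt.between hs hm (ht i.succ) (fun θ' a => (y1 i.castSucc θ' a).trans (by
      simp only [Fin.val_succ, Fin.val_castSucc]
      omega)) ((Pt.qle_iff _ _).1 (hb.trans a)) ((Pt.qle_iff _ _).1 (b.trans ha))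
    exact h.symm.imp (fun h => ((Pt.qle_iff _ _).2 h).trans b)
      fun h => a.trans ((Pt.qle_iff _ _).2 h)
  · obtain ⟨σ', z, -, -, b⟩ := X.exists_pt'
    refine ((Pt.qle_iff _ _).2 (Pt.le_of_bottom hs (fun θ' a => ?_)
      ((Pt.qle_iff _ _).1 (b.trans h)))).trans b
    simpa using y1 (Fin.last e) θ' a

end Pool.Agent.Adm
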