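import Mathlib

/-! Valuations of rank one centred at a prime of height one. -/

namespace Pool.Agent.Adm

open Filter Topology in
theorem homog_VL1 {Γ : Type} [CommGroup Γ] (c : Γ → ℤ) (h1 : ∀ a b, c (a * b) ≤ c a + c b)
    (h2 : ∀ a b, c a + c b ≤ c (a * b) + 1) (h3 : ∀ a, ∃ N : ℕ, ∀ n : ℕ, -(N * n : ℤ) ≤ c (a ^ n)) :
    ∃ l : Γ → ℝ, (∀ a b, l (a * b) = l a + l b) ∧
      ∀ a, Tendsto (fun n : ℕ => (c (a ^ n) : ℝ) / n) atTop (𝓝 (l a)) := by
  have hs : ∀ a, Subadditive fun n : ℕ => (c (a ^ n) : ℝ) := fun a m n => by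
    simp only [pow_add]
    exact_mod_cast h1 _ _
  have hb : ∀ a, BddBelow (Set.range fun n : ℕ => (c (a ^ n) : ℝ) / n) := fun a => by
    obtain ⟨N, hN⟩ := h3 a
    refine ⟨-N, ?_⟩
    rintro _ ⟨n, rfl⟩
    rcases n.eq_zero_or_pos with rfl | hn
    · simp
    · rw [le_div_iff₀ (by exact_mod_cast hn), neg_mul]
      exact_mod_cast hN n
  have T := fun a => (hs a).tendsto_lim (hb a)
  refine ⟨fun a => (hs a).lim, fun a b => le_antisymm ?_ ?_, T⟩
  · refine le_of_tendsto_of_tendsto' (T (a * b)) ((T a).add (T b)) fun n => ?_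
    rw [← add_div, mul_pow]
    exact div_le_div_of_nonneg_right (by exact_mod_cast h1 _ _) (Nat.cast_nonneg n)
  · have h := (T (a * b)).add (tendsto_one_div_atTop_nhds_zero_nat (𝕜 := ℝ))
    rw [add_zero] at h
    refine le_of_tendsto_of_tendsto' ((T a).add (T b)) h fun n => ?_
    rw [← add_div, ← add_div, mul_pow]
    exact div_le_div_of_nonneg_right (by exact_mod_cast h2 _ _) (Nat.cast_nonneg n)

theorem exists_log {Γ : Type} [CommGroup Γ] [LinearOrder Γ] [IsOrderedMonoid Γ] (τ : Γ)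
    (hτ : τ < 1) (hc : ∀ γ, ∃ n : ℕ, τ ^ n ≤ γ) :
    ∃ l : Γ → ℝ, (∀ a b, l (a * b) = l a + l b) ∧ (∀ a b, a ≤ b → l b ≤ l a) ∧ l τ = 1 := by
  have anti : ∀ m n : ℤ, τ ^ m ≤ τ ^ n ↔ n ≤ m := fun m n => by
    rw [← inv_le_inv_iff, ← inv_zpow, ← inv_zpow, zpow_le_zpow_iff_right (one_lt_inv'.2 hτ)]
  have low : ∀ (γ : Γ) (N n : ℕ) (m : ℤ), τ ^ N ≤ γ⁻¹ → τ ^ m ≤ γ ^ n → -(N * n : ℤ) ≤ m := by
    intro γ N n m h1 h2
    rw [← anti, zpow_neg, zpow_mul, zpow_natCast, zpow_natCast, ← inv_pow]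
    exact h2.trans (pow_le_pow_left' (le_inv'.1 h1) n)
  have ex : ∀ γ : Γ, ∃ c : ℤ, τ ^ c ≤ γ ∧ ∀ m : ℤ, τ ^ m ≤ γ → c ≤ m := fun γ => by
    obtain ⟨N, hN⟩ := hc γ⁻¹
    obtain ⟨n, hn⟩ := hc γ
    exact Int.exists_least_of_bdd ⟨_, fun m hm => low γ N 1 m hN (by rwa [pow_one])⟩
      ⟨n, by rwa [zpow_natCast]⟩
  choose c c1 c2 using ex
  have c3 : ∀ γ, γ < τ ^ (c γ - 1) := fun γ => lt_of_not_ge fun h => by
    have := c2 γ _ h
    omega
  obtain ⟨l, hl, T⟩ := homog_VL1 c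
    (fun a b => c2 _ _ (by rw [zpow_add]; exact mul_le_mul' (c1 a) (c1 b)))
    (fun a b => by
      have h := (c1 (a * b)).trans_lt (mul_lt_mul_of_lt_of_lt (c3 a) (c3 b))
      rw [← zpow_add, lt_iff_not_ge, anti] at h
      omega)
    (fun a => (hc a⁻¹).imp fun N hN n => low a N n _ hN (c1 _))
  refine ⟨l, hl, fun a b hab => le_of_tendsto_of_tendsto' (T b) (T a) fun n => ?_, ?_⟩
  · refine div_le_div_of_nonneg_right ?_ (Nat.cast_nonneg n)
    exact_mod_cast c2 _ _ ((c1 _).trans (pow_le_pow_left' hab n))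
  · refine tendsto_nhds_unique (T τ) (tendsto_const_nhds.congr' ?_)
    filter_upwards [Filter.eventually_gt_atTop 0] with n hn
    have h : c (τ ^ n) = n := le_antisymm (c2 _ _ (zpow_natCast τ n).le)
      ((anti _ _).1 ((c1 _).trans (zpow_natCast τ n).ge))
    rw [h, Int.cast_natCast, div_self (by exact_mod_cast hn.ne')]

theorem exists_mul_pow_dvd {A : Type} [CommRing A] [IsDomain A] (P : Ideal A) [P.IsPrime]
    (hht : ∀ Q : Ideal A, Q.IsPrime → Q ≤ P → Q = ⊥ ∨ Q = P) {a b : A} (ha : a ≠ 0)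
    (hb : b ∈ P) : ∃ (n : ℕ) (s : A), s ∉ P ∧ a ∣ s * b ^ n := by
  by_contra hn
  let S : Submonoid A := P.primeCompl ⊔ Submonoid.powers b
  have hd : Disjoint (Ideal.span {a} : Set A) S := by
    refine Set.disjoint_left.2 fun x hx hS => ?_
    obtain ⟨s, hs, _, ⟨n, rfl⟩, rfl⟩ := Submonoid.mem_sup.1 hS
    exact hn ⟨n, s, hs, Ideal.mem_span_singleton.1 hx⟩
  obtain ⟨Q, hQ, h1, h2⟩ := Ideal.exists_le_prime_disjoint _ S hd
  have h3 : Q ≤ P := fun x hx => by_contra fun hxP =>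
    Set.disjoint_left.1 h2 hx (Submonoid.mem_sup_left hxP)
  rcases hht Q hQ h3 with rfl | rfl
  · exact ha (h1 (Ideal.mem_span_singleton_self a))
  · exact Set.disjoint_left.1 h2 hb (Submonoid.mem_sup_right (Submonoid.mem_powers b))

theorem exp_VL1 {Γ : Type} [LinearOrderedCommGroupWithZero Γ] (τ : Γ) (h0 : τ ≠ 0) (hτ : τ < 1)
    (hc : ∀ γ, γ ≠ 0 → ∃ n : ℕ, τ ^ n ≤ γ) :
    ∃ g : Γ →*₀ ℝ, Monotone g ∧ g τ < 1 := by
  classical
  obtain ⟨l, l1, l2, l3⟩ := exists_log (Units.mk0 τ h0) hτ fun γ => hc γ γ.ne_zero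
  have l0 : l 1 = 0 := by
    have := l1 1 1
    rw [one_mul] at this
    linarith
  let g : Γ → ℝ := fun y => if h : y = 0 then 0 else Real.exp (-l (Units.mk0 y h))
  have g0 : g 0 = 0 := dif_pos rfl
  have g1 : ∀ y : Γˣ, g y = Real.exp (-l y) := fun y => by
    simp only [g, dif_neg y.ne_zero, Units.mk0_val]
  refine ⟨⟨⟨g, g0⟩, ?_, fun x y => ?_⟩, fun x y hxy => ?_, ?_⟩
  · change g (1 : Γˣ) = 1
    rw [g1, l0, neg_zero, Real.exp_zero]
  · change g (x * y) = g x * g y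
    rcases GroupWithZero.eq_zero_or_unit x with rfl | ⟨x, rfl⟩
    · rw [zero_mul, g0, zero_mul]
    rcases GroupWithZero.eq_zero_or_unit y with rfl | ⟨y, rfl⟩
    · rw [mul_zero, g0, mul_zero]
    rw [← Units.val_mul, g1, g1, g1, l1, neg_add, Real.exp_add]
  · change g x ≤ g y
    rcases GroupWithZero.eq_zero_or_unit y with rfl | ⟨y, rfl⟩
    · rw [le_zero_iff.1 hxy]
    rcases GroupWithZero.eq_zero_or_unit x with rfl | ⟨x, rfl⟩
    · rw [g0, g1]
      exact (Real.exp_pos _).le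
    rw [g1, g1]
    exact Real.exp_le_exp.2 (neg_le_neg (l2 x y hxy))
  · change g (Units.mk0 τ h0) < 1
    rw [g1, l3]
    exact Real.exp_lt_one_iff.2 (by norm_num)

theorem val_VL1 {A K : Type} [CommRing A] [Field K] (P : Ideal A) [P.IsPrime] (φ : A →+* K)
    (hφ : Function.Injective φ) : ∃ O : ValuationSubring K, (∀ a, O.valuation (φ a) ≤ 1) ∧
      ∀ a, O.valuation (φ a) = 1 ↔ a ∉ P := by
  have hu : ∀ s : P.primeCompl, IsUnit (φ s) := fun s => IsUnit.mk0 _ fun h =>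
    s.2 (by rw [(map_eq_zero_iff φ hφ).1 h]; exact P.zero_mem)
  let f : Localization.AtPrime P →+* K := IsLocalization.lift hu
  have hf : ∀ a, f (algebraMap A _ a) = φ a := IsLocalization.lift_eq hu
  obtain ⟨O, h, hl⟩ := IsLocalRing.exists_factor_valuationRing f
  refine ⟨O, fun a => (O.valuation_le_one_iff _).2 (hf a ▸ h _), fun a => ?_⟩
  rw [← hf, ← O.valuation_eq_one_iff ⟨_, h (algebraMap A _ a)⟩]
  exact (isUnit_map_iff (f.codRestrict O.toSubring h) _).trans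
    (IsLocalization.AtPrime.isUnit_to_map_iff _ P a)

theorem exists_normed {A : Type} [CommRing A] [IsDomain A] (P : Ideal A) [P.IsPrime]
    (hP : P ≠ ⊥) (hht : ∀ Q : Ideal A, Q.IsPrime → Q ≤ P → Q = ⊥ ∨ Q = P) :
    ∃ (K : Type) (_ : NormedField K) (_ : IsUltrametricDist K) (ψ : A →+* K),
      Function.Injective ψ ∧ (∀ a, ‖ψ a‖ ≤ 1) ∧ ∀ a, ‖ψ a‖ < 1 ↔ a ∈ P := by
  have hφ := IsFractionRing.injective A (FractionRing A)
  obtain ⟨O, o1, o2⟩ := val_VL1 P _ hφ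
  obtain ⟨t, ht, ht0⟩ := Submodule.exists_mem_ne_zero_of_ne_bot hP
  let w := O.valuation.comap (algebraMap A (FractionRing A))
  have w1 : ∀ a, w a ≤ 1 := o1
  have w2 : ∀ a, w a = 1 ↔ a ∉ P := o2
  have w0 : ∀ a, a ≠ 0 → w a ≠ 0 := fun a ha =>
    O.valuation.ne_zero_iff.2 ((map_ne_zero_iff _ hφ).2 ha)
  have key : ∀ a, a ≠ 0 → ∀ b ∈ P, ∃ n : ℕ, w b ^ n ≤ w a := fun a ha b hb => by
    obtain ⟨n, s, hs, c, hc⟩ := exists_mul_pow_dvd P hht ha hb
    have h := congrArg w hc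
    rw [map_mul, map_mul, map_pow, (w2 s).2 hs, one_mul] at h
    exact ⟨n, h ▸ mul_le_of_le_one_right' (w1 c)⟩
  obtain ⟨g, hg, hgt⟩ := exp_VL1 (w t) (w0 t ht0) ((w1 t).lt_of_ne fun h => (w2 t).1 h ht)
    fun γ hγ => by
      obtain ⟨x, rfl⟩ := O.valuation_surjective γ
      obtain ⟨a, b, hb, rfl⟩ := IsFractionRing.div_surjective (A := A) x
      have hb0 := w0 b (nonZeroDivisors.ne_zero hb)
      have ha : a ≠ 0 := fun h => hγ (by simp [h])
      obtain ⟨n, hn⟩ := key a ha t ht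
      refine ⟨n, hn.trans ?_⟩
      rw [map_div₀]
      exact (le_div_iff₀ (zero_lt_iff.2 hb0)).2 (mul_le_of_le_one_right' (w1 b))
  have gn : ∀ y, 0 ≤ g y := fun y => by simpa using hg (zero_le (a := y))
  let v := O.valuation
  have hmax : ∀ x y : FractionRing A, g (v (x + y)) ≤ max (g (v x)) (g (v y)) := fun x y =>
    (hg (v.map_add x y)).trans_eq hg.map_max
  let f : AbsoluteValue (FractionRing A) ℝ :=
    { toFun := fun x => g (v x)
      map_mul' := fun x y => by simp only [map_mul]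
      nonneg' := fun x => gn _
      eq_zero' := fun x => by simp only [map_eq_zero]
      add_le' := fun x y => (hmax x y).trans
        (max_le (le_add_of_nonneg_right (gn _)) (le_add_of_nonneg_left (gn _))) }
  let _ : NormedField (FractionRing A) := f.toNormedField
  have hn : ∀ a : A, ‖algebraMap A (FractionRing A) a‖ = g (w a) := fun _ => rfl
  refine ⟨FractionRing A, inferInstance,
    IsUltrametricDist.isUltrametricDist_of_isNonarchimedean_norm hmax, algebraMap A _, hφ,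
    fun a => ?_, fun a => ⟨fun h => by_contra fun ha => ?_, fun ha => ?_⟩⟩
  · rw [hn, ← map_one g]
    exact hg (w1 a)
  · rw [hn, (w2 a).2 ha, map_one] at h
    exact h.false
  · obtain ⟨n, h⟩ := key t ht0 a ha
    have h1 := (hg h).trans_lt hgt
    rw [map_pow] at h1
    rw [hn]
    exact lt_of_not_ge fun h2 => (one_le_pow₀ h2).not_gt h1

end Pool.Agent.Adm
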