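import Pool.Agent.Adm.FC

/-! Complete algebraically closed extensions and coefficient fields. -/

namespace Pool.Agent.Adm

open UniformSpace Polynomial

theorem closure_VL2 (L : Type) [i : NormedField L] [IsUltrametricDist L]
    [CompleteSpace L] (t : L) (ht0 : t ≠ 0) (ht1 : ‖t‖ < 1) :
    ∃ (Ω : Type) (_ : NormedField Ω) (_ : IsUltrametricDist Ω) (_ : IsAlgClosed Ω)
      (ψ : L →+* Ω), ∀ x, ‖ψ x‖ = ‖x‖ := by
  let _ : NontriviallyNormedField L :=
    { i with
      non_trivial := by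
        refine ⟨t⁻¹, ?_⟩
        rw [norm_inv]
        exact (one_lt_inv₀ (norm_pos_iff.2 ht0)).2 ht1 }
  let _ : NormedField (AlgebraicClosure L) := spectralNorm.normedField L (AlgebraicClosure L)
  have hna : ∀ x y : AlgebraicClosure L, ‖x + y‖ ≤ max ‖x‖ ‖y‖ := isNonarchimedean_spectralNorm
  have hφ : ∀ x, ‖algebraMap L (AlgebraicClosure L) x‖ = ‖x‖ := spectralNorm_extends
  exact ⟨AlgebraicClosure L, inferInstance,
    IsUltrametricDist.isUltrametricDist_of_isNonarchimedean_norm hna, inferInstance,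
    algebraMap L _, hφ⟩

theorem exists_big_ext (K : Type) [NormedField K] [IsUltrametricDist K] (t : K) (h0 : t ≠ 0)
    (h1 : ‖t‖ < 1) :
    ∃ (C : Type) (_ : NormedField C) (_ : CompleteSpace C) (_ : IsUltrametricDist C)
      (_ : IsAlgClosed C) (ψ : K →+* C), ∀ x, ‖ψ x‖ = ‖x‖ := by
  have := ultra_completion_FC K
  have hn : ∀ x : K, ‖(Completion.coeRingHom x : Completion K)‖ = ‖x‖ :=
    fun x => Completion.norm_coe x
  obtain ⟨Ω, _, _, _, ψ, hψ⟩ := closure_VL2 (Completion K) (Completion.coeRingHom t)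
    ((_root_.map_ne_zero _).2 h0) (by rw [hn]; exact h1)
  have := ultra_completion_FC Ω
  have hn' : ∀ x : Ω, ‖(Completion.coeRingHom x : Completion Ω)‖ = ‖x‖ :=
    fun x => Completion.norm_coe x
  refine ⟨Completion Ω, inferInstance, inferInstance, inferInstance,
    isAlgClosed_of_dense (K := Ω) Completion.coeRingHom Completion.denseRange_coe,
    Completion.coeRingHom.comp (ψ.comp Completion.coeRingHom), fun x => ?_⟩
  rw [RingHom.comp_apply, RingHom.comp_apply, hn', hψ, hn]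

theorem integral_le_VL2 {C : Type} [NormedField C] [IsUltrametricDist C] (F : Subfield C)
    (hF : ∀ x ∈ F, ‖x‖ ≤ 1) {y : C} (hy : IsIntegral F y) : ‖y‖ ≤ 1 := by
  let v := NormedField.valuation (K := C)
  let f : F →+* v.integer := F.subtype.codRestrict v.integer fun x => by
    rw [Valuation.mem_integer_iff]
    exact_mod_cast hF x x.2
  obtain ⟨p, hp, h⟩ := hy
  have h1 : IsIntegral v.integer y := by
    refine ⟨p.map f, hp.map f, ?_⟩
    rw [Polynomial.eval₂_map]
    exact h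
  have h2 := (Valuation.integer.integers v).mem_of_integral h1
  rw [Valuation.mem_integer_iff] at h2
  exact_mod_cast h2

theorem norm_one_VL2 {C : Type} [NormedField C] (F : Subfield C)
    (hF : ∀ x ∈ F, ‖x‖ ≤ 1) {x : C} (hx : x ∈ F) (h0 : x ≠ 0) : ‖x‖ = 1 := by
  refine le_antisymm (hF x hx) ?_
  have h := hF _ (F.inv_mem hx)
  rw [norm_inv] at h
  exact (inv_le_one₀ (norm_pos_iff.2 h0)).1 h

theorem aeval_one_VL2 {C : Type} [NormedField C] (F : Subfield C) [IsAlgClosed F]
    (hF : ∀ x ∈ F, ‖x‖ ≤ 1) {y : C} (hy : ∀ x ∈ F, ‖y - x‖ = 1) (P : F[X]) (hP : P ≠ 0) :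
    ‖aeval y P‖ = 1 := by
  have hm : ∀ s : Multiset F, ‖aeval y (s.map fun a => X - Polynomial.C a).prod‖ = 1 := by
    intro s
    induction s using Multiset.induction_on with
    | empty => simp
    | cons a s ih =>
      rw [Multiset.map_cons, Multiset.prod_cons, map_mul, norm_mul, ih, mul_one, map_sub,
        aeval_X, aeval_C]
      exact hy a a.2
  rw [(IsAlgClosed.splits P).eq_prod_roots, map_mul, norm_mul, hm, mul_one, aeval_C]
  exact norm_one_VL2 F hF P.leadingCoeff.2
    ((_root_.map_ne_zero (algebraMap F C)).2 (leadingCoeff_ne_zero.2 hP))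

theorem exists_coef_field {C k0 : Type} [NormedField C] [IsUltrametricDist C] [IsAlgClosed C]
    [Field k0] (θ : k0 →+* C) (hθ : ∀ x, ‖θ x‖ ≤ 1) :
    ∃ (k : Type) (_ : Field k) (_ : IsAlgClosed k) (φ : k →+* C) (θ0 : k0 →+* k),
      φ.comp θ0 = θ ∧ (∀ x, ‖φ x‖ ≤ 1) ∧ ∀ y : C, ‖y‖ ≤ 1 → ∃ x, ‖y - φ x‖ < 1 := by
  obtain ⟨F, hle, hmax⟩ := zorn_le_nonempty₀ {F : Subfield C | ∀ x ∈ F, ‖x‖ ≤ 1}
    (fun c hc hch y hy => ⟨sSup c, fun x hx => by
      obtain ⟨G, hG, hxG⟩ := (Subfield.mem_sSup_of_directedOn ⟨y, hy⟩ hch.directedOn).1 hx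
      exact hc hG x hxG, fun z hz => le_sSup hz⟩) θ.fieldRange
    (by rintro _ ⟨x, rfl⟩; exact hθ x)
  have hF : ∀ x ∈ F, ‖x‖ ≤ 1 := hmax.1
  have key : ∀ y : C, (∀ z ∈ IntermediateField.adjoin F {y}, ‖z‖ ≤ 1) → y ∈ F := by
    intro y hy
    have h1 : F ≤ (IntermediateField.adjoin F {y}).toSubfield := fun x hx =>
      (IntermediateField.adjoin F {y}).algebraMap_mem ⟨x, hx⟩
    exact hmax.2 (y := (IntermediateField.adjoin F {y}).toSubfield) hy h1
      (IntermediateField.mem_adjoin_simple_self F y)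
  have hac : IsAlgClosed F := by
    refine IsAlgClosed.of_exists_root F fun p hp hirr => ?_
    obtain ⟨y, hy⟩ := IsAlgClosed.exists_aeval_eq_zero C p (degree_pos_of_irreducible hirr).ne'
    have hint : IsIntegral F y := ⟨p, hp, by rwa [← aeval_def]⟩
    have hfd := IntermediateField.adjoin.finiteDimensional hint
    have hyF : y ∈ F := key y fun z hz => by
      refine integral_le_VL2 F hF ?_
      exact (IsIntegral.of_finite F (⟨z, hz⟩ : IntermediateField.adjoin F {y})).map
        (IntermediateField.adjoin F {y}).val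
    refine ⟨⟨y, hyF⟩, (algebraMap F C).injective ?_⟩
    rw [map_zero, ← hy, ← aeval_algebraMap_apply_eq_algebraMap_eval]
    rfl
  refine ⟨F, inferInstance, hac, F.subtype, θ.codRestrict F fun x => hle ⟨x, rfl⟩, rfl,
    fun x => hF x x.2, fun y hy => ?_⟩
  by_contra hne
  have h1 : ∀ x ∈ F, ‖y - x‖ = 1 := by
    intro x hx
    refine le_antisymm ?_ (not_lt.1 fun h => hne ⟨⟨x, hx⟩, h⟩)
    rw [sub_eq_add_neg]
    refine (IsUltrametricDist.norm_add_le_max _ _).trans (max_le hy ?_)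
    rw [norm_neg]
    exact hF x hx
  have hyF : y ∈ F := key y fun z hz => by
    obtain ⟨r, s, rfl⟩ := (IntermediateField.mem_adjoin_simple_iff F z).1 hz
    by_cases hr : r = 0
    · simp [hr]
    by_cases hs : s = 0
    · simp [hs]
    rw [norm_div, aeval_one_VL2 F hF h1 r hr, aeval_one_VL2 F hF h1 s hs, div_one]
  have := h1 y hyF
  simp at this

end Pool.Agent.Adm
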