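import Pool.Agent.Adq.D1
import Pool.Agent.Adq.VL1
import Pool.Agent.Adq.VL2

/-! Adjacent primes are joined by a rank one specialisation. -/

namespace Pool.Agent.Adm

theorem exists_adjacent {A : Type} [CommRing A] [IsNoetherianRing A] (P' P : Ideal A)
    [P'.IsPrime] [P.IsPrime] (h : P' < P) :
    ∃ Q : Ideal A, Q.IsPrime ∧ P' < Q ∧ Q ≤ P ∧
      ∀ Q' : Ideal A, Q'.IsPrime → P' ≤ Q' → Q' ≤ Q → Q' = P' ∨ Q' = Q := by
  obtain ⟨Q, ⟨h1, h2, h3⟩, h4⟩ := (InvImage.wf (fun Q : Ideal A => Q.height)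
    (wellFounded_lt (α := ℕ∞))).has_min {Q | Q.IsPrime ∧ P' < Q ∧ Q ≤ P} ⟨P, ‹_›, h, le_rfl⟩
  refine ⟨Q, h1, h2, h3, fun Q' h5 h6 h7 => ?_⟩
  by_contra hn
  rw [not_or] at hn
  exact h4 Q' ⟨h5, lt_of_le_of_ne h6 (Ne.symm hn.1), h7.trans h3⟩
    (Ideal.height_strict_mono_of_isPrime_of_isPrime (lt_of_le_of_ne h7 hn.2))

theorem eval₂_comp_VL3 {σ k : Type} [CommRing k] (Ψ : MvPolynomial σ K0 →+* k)
    (f : MvPolynomial σ K0) :
    MvPolynomial.eval₂ (Ψ.comp MvPolynomial.C) (fun s => Ψ (MvPolynomial.X s)) f = Ψ f := by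
  have : MvPolynomial.eval₂Hom (Ψ.comp MvPolynomial.C) (fun s => Ψ (MvPolynomial.X s)) = Ψ :=
    MvPolynomial.ringHom_ext (fun r => by simp) fun s => by simp
  exact RingHom.congr_fun this f

theorem exists_point_of_prime {σ : Type} (P : Ideal (MvPolynomial σ K0)) [P.IsPrime] :
    ∃ (k : Type) (_ : Field k) (_ : IsAlgClosed k) (θ : K0 →+* k) (p : σ → k),
      ∀ f, MvPolynomial.eval₂ θ p f = 0 ↔ f ∈ P := by
  let B := MvPolynomial σ K0 ⧸ P
  let K := FractionRing B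
  let k := AlgebraicClosure K
  let Ψ : MvPolynomial σ K0 →+* k :=
    (algebraMap K k).comp ((algebraMap B K).comp (Ideal.Quotient.mk P))
  refine ⟨k, inferInstance, inferInstance, Ψ.comp MvPolynomial.C, fun s => Ψ (MvPolynomial.X s),
    fun f => ?_⟩
  rw [eval₂_comp_VL3]
  change algebraMap K k (algebraMap B K (Ideal.Quotient.mk P f)) = 0 ↔ _
  rw [map_eq_zero_iff _ (algebraMap K k).injective,
    map_eq_zero_iff _ (IsFractionRing.injective B K), Ideal.Quotient.eq_zero_iff_mem]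

theorem exists_hom_VL3 {R : Type} [CommRing R] (P' P : Ideal R) [P'.IsPrime]
    [P.IsPrime] (h : P' < P)
    (hadj : ∀ Q : Ideal R, Q.IsPrime → P' ≤ Q → Q ≤ P → Q = P' ∨ Q = P) :
    ∃ (C : Type) (_ : NormedField C) (_ : CompleteSpace C) (_ : IsUltrametricDist C)
      (_ : IsAlgClosed C) (Ψ : R →+* C), (∀ f, ‖Ψ f‖ ≤ 1) ∧ (∀ f, ‖Ψ f‖ < 1 ↔ f ∈ P) ∧
      ∀ f, Ψ f = 0 ↔ f ∈ P' := by
  have hs : Function.Surjective (Ideal.Quotient.mk P') := Ideal.Quotient.mk_surjective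
  have hp : (P.map (Ideal.Quotient.mk P')).IsPrime :=
    Ideal.map_isPrime_of_surjective hs (by rw [Ideal.mk_ker]; exact h.le)
  have hm : ∀ f, Ideal.Quotient.mk P' f ∈ P.map (Ideal.Quotient.mk P') ↔ f ∈ P :=
    fun f => Ideal.mem_quotient_iff_mem h.le
  obtain ⟨f0, h1, h2⟩ := SetLike.exists_of_lt h
  have h3 : Ideal.Quotient.mk P' f0 ≠ 0 := fun e => h2 (Ideal.Quotient.eq_zero_iff_mem.1 e)
  obtain ⟨K, _, _, ψ, k1, k2, k3⟩ := exists_normed (P.map (Ideal.Quotient.mk P'))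
    (fun e => h3 (by have := (hm f0).2 h1; rwa [e] at this)) (by
      intro Q hQ hle
      have e := Ideal.map_comap_of_surjective _ hs Q
      rcases hadj (Q.comap (Ideal.Quotient.mk P')) inferInstance
        (fun x hx => by
          rw [Ideal.mem_comap, Ideal.Quotient.eq_zero_iff_mem.2 hx]
          exact Q.zero_mem) (fun x hx => (hm x).1 (hle hx)) with e' | e'
      · left
        rw [← e, e', Ideal.map_quotient_self]
      · right
        rw [← e, e'])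
  obtain ⟨C, _, _, _, _, ψ', k4⟩ := exists_big_ext K (ψ (Ideal.Quotient.mk P' f0))
    (fun e => h3 (k1 (e.trans (map_zero ψ).symm))) ((k3 _).2 ((hm f0).2 h1))
  refine ⟨C, inferInstance, inferInstance, inferInstance, inferInstance,
    ψ'.comp (ψ.comp (Ideal.Quotient.mk P')), fun f => ?_, fun f => ?_, fun f => ?_⟩
  · change ‖ψ' (ψ _)‖ ≤ 1
    rw [k4]
    exact k2 _
  · change ‖ψ' (ψ _)‖ < 1 ↔ _
    rw [k4, k3]
    exact hm f
  · change ψ' (ψ (Ideal.Quotient.mk P' f)) = 0 ↔ _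
    rw [map_eq_zero_iff _ ψ'.injective, map_eq_zero_iff _ k1, Ideal.Quotient.eq_zero_iff_mem]

theorem norm_add_VL3 {C : Type} [NormedField C] [IsUltrametricDist C] {x y : C} (hx : ‖x‖ < 1)
    (hy : ‖y‖ < 1) : ‖x + y‖ < 1 :=
  (IsUltrametricDist.norm_add_le_max x y).trans_lt (max_lt hx hy)

theorem exists_step {σ : Type} [Finite σ] (P' P : Ideal (MvPolynomial σ K0)) [P'.IsPrime]
    [P.IsPrime] (h : P' < P)
    (hadj : ∀ Q : Ideal (MvPolynomial σ K0), Q.IsPrime → P' ≤ Q → Q ≤ P → Q = P' ∨ Q = P) :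
    ∃ (C : Type) (_ : NormedField C) (_ : CompleteSpace C) (_ : IsUltrametricDist C)
      (_ : IsAlgClosed C) (k : Type) (_ : Field k) (_ : IsAlgClosed k) (φ : k →+* C)
      (θ : K0 →+* k) (p : σ → k) (A : σ → C), (∀ x, ‖φ x‖ ≤ 1) ∧ (∀ s, ‖A s - φ (p s)‖ < 1) ∧
      (∀ f, MvPolynomial.eval₂ θ p f = 0 ↔ f ∈ P) ∧
      ∀ f, MvPolynomial.eval₂ (φ.comp θ) A f = 0 ↔ f ∈ P' := by
  obtain ⟨C, _, _, _, _, Ψ, h1, h2, h3⟩ := exists_hom_VL3 P' P h hadj
  obtain ⟨k, _, _, φ, θ, k1, k2, k3⟩ := exists_coef_field (Ψ.comp MvPolynomial.C) fun x => h1 _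
  choose p hp using fun s : σ => k3 (Ψ (MvPolynomial.X s)) (h1 _)
  have key : ∀ f, ‖Ψ f - φ (MvPolynomial.eval₂ θ p f)‖ < 1 := by
    intro f
    induction f using MvPolynomial.induction_on with
    | C a =>
      have := RingHom.congr_fun k1 a
      simp only [RingHom.comp_apply] at this
      rw [MvPolynomial.eval₂_C, this, sub_self, norm_zero]
      exact one_pos
    | add f g hf hg =>
      rw [MvPolynomial.eval₂_add, map_add, map_add, add_sub_add_comm]
      exact norm_add_VL3 hf hg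
    | mul_X f s hf =>
      rw [MvPolynomial.eval₂_mul, MvPolynomial.eval₂_X, map_mul, map_mul]
      have e : Ψ f * Ψ (MvPolynomial.X s) - φ (MvPolynomial.eval₂ θ p f) * φ (p s) =
          (Ψ f - φ (MvPolynomial.eval₂ θ p f)) * Ψ (MvPolynomial.X s) +
            φ (MvPolynomial.eval₂ θ p f) * (Ψ (MvPolynomial.X s) - φ (p s)) := by ring
      rw [e]
      refine norm_add_VL3 ?_ ?_ <;> rw [norm_mul]
      · exact mul_lt_one_of_nonneg_of_lt_one_left (norm_nonneg _) hf (h1 _)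
      · exact mul_lt_one_of_nonneg_of_lt_one_right (k2 _) (norm_nonneg _) (hp s)
  refine ⟨C, inferInstance, inferInstance, inferInstance, inferInstance, k, inferInstance,
    inferInstance, φ, θ, p, fun s => Ψ (MvPolynomial.X s), k2, hp, fun f => ⟨fun e => ?_,
    fun hf => ?_⟩, fun f => ?_⟩
  · have := key f
    rw [e, map_zero, sub_zero] at this
    exact (h2 f).1 this
  · by_contra hn
    have h4 : ‖φ (MvPolynomial.eval₂ θ p f)‖ < 1 := by
      have := norm_add_VL3 ((h2 f).2 hf) ((norm_neg _).trans_lt (key f))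
      simpa using this
    have h5 := mul_lt_one_of_nonneg_of_lt_one_left (norm_nonneg _) h4
      (k2 (MvPolynomial.eval₂ θ p f)⁻¹)
    rw [← norm_mul, ← map_mul, mul_inv_cancel₀ hn, map_one, norm_one] at h5
    exact lt_irrefl _ h5
  · rw [k1, eval₂_comp_VL3]
    exact h3 f

end Pool.Agent.Adm
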