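import Pool.Agent.Adq.TD
import Pool.Agent.Adq.VL3

/-! Algebraically closed fields of given transcendence degree. -/

namespace Pool.Agent.Adm

theorem indep_change_FLD {k σ : Type} [Field k] (θ θ' : K0 →+* k) {a : σ → k} (h : Indep θ' a) :
    Indep θ a := by
  have hx : ∀ x, ∃ y, θ' y = θ x := fun x => range_le_VPL θ θ' ⟨x, rfl⟩
  choose s hs using hx
  let S : K0 →+* K0 :=
    { toFun := s
      map_one' := θ'.injective (by rw [hs, map_one, map_one])
      map_mul' := fun x y => θ'.injective (by rw [map_mul, hs, hs, hs, map_mul])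
      map_zero' := θ'.injective (by rw [hs, map_zero, map_zero])
      map_add' := fun x y => θ'.injective (by rw [map_add, hs, hs, hs, map_add]) }
  have e : θ'.comp S = θ := RingHom.ext hs
  intro f hf
  refine MvPolynomial.map_injective S S.injective ?_
  rw [map_zero]
  exact h _ (by rw [MvPolynomial.eval₂_map, e, hf])

theorem indep_iff_FLD {k σ : Type} [Field k] [Algebra K0 k] (a : σ → k) :
    Indep (algebraMap K0 k) a ↔ AlgebraicIndependent K0 a :=
  algebraicIndependent_iff.symm

theorem exists_field_td (e : ℕ) :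
    ∃ (k : Type) (_ : Field k) (_ : IsAlgClosed k) (θ : K0 →+* k) (t : Fin e → k), Indep θ t ∧
      ∀ (θ' : K0 →+* k) (σ : Type) [Fintype σ] (a : σ → k), Indep θ' a → Fintype.card σ ≤ e := by
  let B := MvPolynomial (Fin e) K0
  let K := FractionRing B
  let k := AlgebraicClosure K
  have hK : Algebra.IsAlgebraic B K := IsLocalization.isAlgebraic K (nonZeroDivisors B)
  have h1 := (IsTranscendenceBasis.mvPolynomial (Fin e) K0).algebraMap_comp (A := K)
  have h2 := h1.algebraMap_comp (A := k)
  refine ⟨k, inferInstance, inferInstance, algebraMap K0 k, _, (indep_iff_FLD _).2 h2.1,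
    fun θ' σ _ a ha => ?_⟩
  have h3 := ((indep_iff_FLD a).1 (indep_change_FLD _ θ' ha)).cardinalMk_le_trdeg
  rw [← h2.cardinalMk_eq_trdeg, Cardinal.mk_fintype, Cardinal.mk_fintype, Fintype.card_fin] at h3
  exact_mod_cast h3

theorem exists_pt_of_prime {σ : Type} (P : Ideal (MvPolynomial σ K0)) [P.IsPrime] :
    ∃ (k : Type) (_ : Field k) (_ : IsAlgClosed k) (θ : K0 →+* k) (a : σ → k),
      ∀ f, MvPolynomial.eval₂ θ a f = 0 ↔ f ∈ P :=
  exists_point_of_prime P

end Pool.Agent.Adm
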