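import Pool.Agent.Adq.SM
import Pool.Agent.Adq.FLD

/-! Smooth curves with a prescribed number of moduli. -/

namespace Pool.Agent.Adm

variable {e : ℕ} {σ : Shape (e + 3)}

/-- Three values followed by a family. -/
def ext_CH0 {α : Type} (x0 x1 x2 : α) (f : Fin e → α) : Fin (e + 3) → α :=
  Fin.cons x0 (Fin.cons x1 (Fin.cons x2 f))

theorem ext0_CH0 {α : Type} (x0 x1 x2 : α) (f : Fin e → α) : ext_CH0 x0 x1 x2 f 0 = x0 := rfl

theorem ext1_CH0 {α : Type} (x0 x1 x2 : α) (f : Fin e → α) : ext_CH0 x0 x1 x2 f 1 = x1 := rfl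

theorem ext2_CH0 {α : Type} (x0 x1 x2 : α) (f : Fin e → α) : ext_CH0 x0 x1 x2 f 2 = x2 := rfl

theorem ext3_CH0 {α : Type} (x0 x1 x2 : α) (f : Fin e → α) (i : Fin e) :
    ext_CH0 x0 x1 x2 f i.succ.succ.succ = f i := rfl

theorem cases_CH0 {P : Fin (e + 3) → Prop} (h0 : P 0) (h1 : P 1) (h2 : P 2)
    (h : ∀ i : Fin e, P i.succ.succ.succ) : ∀ l, P l :=
  Fin.cases h0 (Fin.cases h1 (Fin.cases h2 h))

theorem ne01_CH0 : (0 : Fin (e + 3)) ≠ 1 := Fin.zero_ne_one

theorem ne02_CH0 : (0 : Fin (e + 3)) ≠ 2 := (Fin.succ_ne_zero (1 : Fin (e + 2))).symm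

theorem ne12_CH0 : (1 : Fin (e + 3)) ≠ 2 := fun h =>
  Fin.zero_ne_one (Fin.succ_injective _ (show (0 : Fin (e + 2)).succ = (1 : Fin (e + 2)).succ from h))

theorem inj_CH0 {k τ : Type} [Field k] {θ : K0 →+* k} {t : τ → k} (h : Indep θ t) :
    Function.Injective t := by
  intro s s' hs
  have := h (MvPolynomial.X s - MvPolynomial.X s') (by
    rw [MvPolynomial.eval₂_sub, MvPolynomial.eval₂_X, MvPolynomial.eval₂_X, hs, sub_self])
  exact MvPolynomial.X_injective (sub_eq_zero.1 this)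

theorem crs_CH0 (hs : IsEmpty σ.T.Dart) (v : Fin σ.r) (y : Pt σ) :
    y.crs v 0 1 2 0 = 0 ∧ y.crs v 0 1 2 1 = 1 ∧ y.crs v 0 1 2 2 = 0 := by
  have hi := y.injective_smooth hs
  have a := sub_ne_zero.2 (hi.ne ne01_CH0.symm)
  have b := sub_ne_zero.2 (hi.ne ne12_CH0)
  simp only [y.crs_smooth hs, cr, sub_self, zero_mul, zero_div, div_zero, true_and, and_true]
  rw [mul_comm]
  exact div_self (mul_ne_zero b a)

theorem exists_pt_td (hs : IsEmpty σ.T.Dart) (v : Fin σ.r) (c : Fin e → K0)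
    (hc : Function.Injective c) (h0 : ∀ i, c i ≠ 0) (h1 : ∀ i, c i ≠ 1) (j : ℕ) (hj : j ≤ e) :
    ∃ y : Pt σ, (∀ (θ' : K0 →+* y.k) (a : Fin (e + 3) → y.k), td θ' a ≤ j) ∧
      (Indep y.θ fun i : {i : Fin e // i.1 < j} => y.crs v 0 1 2 i.1.succ.succ.succ) ∧
      ∀ i : Fin e, j ≤ i.1 → y.crs v 0 1 2 i.succ.succ.succ = y.θ (c i) := by
  obtain ⟨k, _, _, θ, t, ht, H⟩ := exists_field_td j
  let b : Fin e → k := fun i => if h : i.1 < j then t ⟨i.1, h⟩ else θ (c i)
  have hb : ∀ i (x : K0), b i = θ x → c i = x := by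
    intro i x hx
    by_cases h : i.1 < j
    · exact absurd ⟨x, hx.symm.trans (dif_pos h)⟩ (ht.notMem_range ⟨i.1, h⟩)
    · exact θ.injective ((dif_neg h).symm.trans hx)
  have hb0 : ∀ i, b i ≠ 0 := fun i h => h0 i (hb i 0 (by rw [h, map_zero]))
  have hb1 : ∀ i, b i ≠ 1 := fun i h => h1 i (hb i 1 (by rw [h, map_one]))
  have hbi : Function.Injective b := by
    intro i i' hx
    by_cases h : i.1 < j
    · by_cases h' : i'.1 < j
      · have : t ⟨i.1, h⟩ = t ⟨i'.1, h'⟩ := (dif_pos h).symm.trans (hx.trans (dif_pos h'))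
        exact Fin.ext (congrArg Fin.val (inj_CH0 ht this) :)
      · exact hc (hb i _ (hx.trans (dif_neg h')))
    · exact (hc (hb i' _ (hx.symm.trans (dif_neg h)))).symm
  obtain ⟨p, hp, hcr⟩ := exists_cr_eq (ext_CH0 0 1 0 b) (s0 := 0) (s1 := 1) (s2 := 2) rfl rfl rfl
    ne02_CH0 (by
      refine cases_CH0 ?_ ?_ (fun _ h => absurd rfl h) fun i => ?_
      · refine cases_CH0 (fun _ _ _ => rfl) (fun _ _ h => ?_) (fun _ h => absurd rfl h)
          fun i' _ _ h => ?_
        · exact absurd h zero_ne_one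
        · exact absurd h.symm (hb0 i')
      · refine cases_CH0 (fun _ _ h => ?_) (fun _ _ _ => rfl) (fun _ h => absurd rfl h)
          fun i' _ _ h => ?_
        · exact absurd h one_ne_zero
        · exact absurd h.symm (hb1 i')
      · refine cases_CH0 (fun _ _ h => ?_) (fun _ _ h => ?_) (fun _ h => absurd rfl h)
          fun i' _ _ h => ?_
        · exact absurd h (hb0 i)
        · exact absurd h (hb1 i)
        · rw [show i = i' from hbi h])
  have hy : ∀ i : Fin e, (Pt.ofSmooth hs k θ p hp).crs v 0 1 2 i.succ.succ.succ = b i :=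
    fun i => ((Pt.ofSmooth hs k θ p hp).crs_smooth hs v 0 1 2 _).trans (hcr _)
  refine ⟨Pt.ofSmooth hs k θ p hp, fun θ' a => td_le j fun S hS => ?_, ?_, fun i hi => ?_⟩
  · have := H θ' S _ hS
    rwa [Fintype.card_coe] at this
  · have := ht.comp (fun i : {i : Fin e // i.1 < j} => (⟨i.1.1, i.2⟩ : Fin j))
      fun i i' h => Subtype.ext (Fin.ext (congrArg Fin.val h :))
    have e1 : (fun i : {i : Fin e // i.1 < j} =>
        (Pt.ofSmooth hs k θ p hp).crs v 0 1 2 i.1.succ.succ.succ) = fun i => t ⟨i.1.1, i.2⟩ :=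
      funext fun i => (hy i.1).trans (dif_pos i.2)
    rw [e1]
    exact this
  · exact (hy i).trans (dif_neg (not_lt.2 hi))

theorem le_td_of_indep {k : Type} [Field k] (θ : K0 →+* k) (a : Fin (e + 3) → k) {j : ℕ}
    (hj : j ≤ e) (h : Indep θ fun i : {i : Fin e // i.1 < j} => a i.1.succ.succ.succ) :
    j ≤ td θ a := by
  classical
  let φ : {i : Fin e // i.1 < j} → Fin (e + 3) := fun i => i.1.succ.succ.succ
  have hφ : Function.Injective φ := fun i i' hi =>
    Subtype.ext (Fin.succ_injective _ (Fin.succ_injective _ (Fin.succ_injective _ hi)))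
  let ψ : Fin j → {i : Fin e // i.1 < j} := fun i => ⟨⟨i.1, i.2.trans_le hj⟩, i.2⟩
  have hψ : Function.Injective ψ := fun i i' hi =>
    Fin.ext (congrArg (fun x : {i : Fin e // i.1 < j} => x.1.1) hi :)
  have hg : ∀ s : Finset.univ.image φ, ∃ i, φ i = s := fun s => by
    obtain ⟨i, -, hi⟩ := Finset.mem_image.1 s.2
    exact ⟨i, hi⟩
  choose g hg using hg
  have h1 := h.comp g fun s s' hs => Subtype.ext (by rw [← hg, ← hg, hs])
  have h2 : Indep θ fun s : Finset.univ.image φ => a s := by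
    have e1 : (fun s : Finset.univ.image φ => a s) = fun s => a (φ (g s)) :=
      funext fun s => by rw [hg]
    rw [e1]
    exact h1
  have h3 := le_td _ h2
  rw [Finset.card_image_of_injective _ hφ, Finset.card_univ] at h3
  have h4 := Fintype.card_le_of_injective ψ hψ
  rw [Fintype.card_fin] at h4
  exact h4.trans h3

theorem le_of_indep (hs : IsEmpty σ.T.Dart) (v : Fin σ.r) (c : Fin e → K0) {j j' : ℕ}
    (hj : j' ≤ j) {y y' : Pt σ}
    (hi : Indep y.θ fun i : {i : Fin e // i.1 < j} => y.crs v 0 1 2 i.1.succ.succ.succ)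
    (hc : ∀ i : Fin e, j ≤ i.1 → y.crs v 0 1 2 i.succ.succ.succ = y.θ (c i))
    (hc' : ∀ i : Fin e, j' ≤ i.1 → y'.crs v 0 1 2 i.succ.succ.succ = y'.θ (c i)) : y'.Le y := by
  let g : Fin (e + 3) → MvPolynomial {i : Fin e // i.1 < j} K0 :=
    ext_CH0 0 1 0 fun i => if h : i.1 < j then MvPolynomial.X ⟨i, h⟩ else MvPolynomial.C (c i)
  have key : ∀ z : Pt σ, (∀ i : Fin e, j ≤ i.1 → z.crs v 0 1 2 i.succ.succ.succ = z.θ (c i)) →
      (fun l => MvPolynomial.eval₂ z.θ
        (fun i : {i : Fin e // i.1 < j} => z.crs v 0 1 2 i.1.succ.succ.succ) (g l)) =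
        z.crs v 0 1 2 := by
    intro z hz
    obtain ⟨a0, a1, a2⟩ := crs_CH0 hs v z
    funext l
    induction l using cases_CH0 with
    | h0 => rw [a0]; exact MvPolynomial.eval₂_zero _ _
    | h1 => rw [a1]; exact MvPolynomial.eval₂_one _ _
    | h2 => rw [a2]; exact MvPolynomial.eval₂_zero _ _
    | h i =>
      simp only [g, ext3_CH0]
      by_cases h : i.1 < j
      · rw [dif_pos h, MvPolynomial.eval₂_X]
      · rw [dif_neg h, MvPolynomial.eval₂_C, hz i (not_lt.1 h)]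
  have hk := (hi.kerLe y'.θ
    fun i : {i : Fin e // i.1 < j} => y'.crs v 0 1 2 i.1.succ.succ.succ).bind g
  rw [key y hc, key y' fun i h => hc' i (hj.trans h)] at hk
  exact Pt.le_of_smooth hs hs (Equiv.refl _) v v ne01_CH0 ne02_CH0 ne12_CH0 hk

end Pool.Agent.Adm
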