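import Mathlib

/-! Conjugacy in regular wreath products. -/

namespace Pool.Agent.Adm

variable {B A : Type} [Group B] [Group A]

theorem pow_right_CJ (g : RegularWreathProduct B A) (e : ℕ) : (g ^ e).right = g.right ^ e :=
  map_pow RegularWreathProduct.rightHom g e

theorem pow_succ_left_CJ (g : RegularWreathProduct B A) (i : ℕ) :
    (g ^ (i + 1)).left (g.right ^ (i + 1)) =
      g.left (g.right ^ (i + 1)) * (g ^ i).left (g.right ^ i) := by
  rw [pow_succ' g, RegularWreathProduct.mul_left, Pi.mul_apply]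
  congr 2
  rw [pow_succ', inv_mul_cancel_left]

theorem wr_isConj_of_right_one {g g' : RegularWreathProduct B A} (h : g.right = 1)
    (h' : g'.right = 1) (hl : ∀ t, IsConj (g.left t) (g'.left t)) : IsConj g g' := by
  choose c hc using fun t => isConj_iff.1 (hl t)
  refine isConj_iff.2 ⟨⟨c, 1⟩, ?_⟩
  ext t
  · simp [h, ← hc]
  · simp [h, h']

theorem wr_isConj_of_gen [Fintype A] {g g' : RegularWreathProduct B A} (hr : g.right = g'.right)
    (hg : ∀ t, t ∈ Subgroup.zpowers g.right)
    (hl : IsConj ((g ^ Fintype.card A).left 1) ((g' ^ Fintype.card A).left 1)) : IsConj g g' := by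
  obtain ⟨u, hu⟩ := isConj_iff.1 hl
  have ho : orderOf g.right = Fintype.card A := by
    rw [orderOf_eq_card_of_forall_mem_zpowers hg, Nat.card_eq_fintype_card]
  have hN : g.right ^ Fintype.card A = 1 := pow_card_eq_one
  let f : ℕ → B := fun i => (g' ^ i).left (g.right ^ i) * u * ((g ^ i).left (g.right ^ i))⁻¹
  have hf : ∀ i, f (i + 1) =
      g'.left (g.right ^ (i + 1)) * f i * (g.left (g.right ^ (i + 1)))⁻¹ := by
    intro i
    have h1 := pow_succ_left_CJ g i
    have h2 := pow_succ_left_CJ g' i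
    rw [← hr] at h2
    simp only [f, h1, h2, mul_inv_rev, mul_assoc]
  have hper : Function.Periodic f (Fintype.card A) := by
    intro i
    induction i with
    | zero =>
      simp only [f, zero_add, hN, pow_zero, RegularWreathProduct.one_left, Pi.one_apply, ← hu]
      group
    | succ i ih =>
      rw [add_right_comm, hf, hf, ih, add_right_comm, pow_add _ (i + 1), hN, mul_one]
  have hwd : ∀ i j, g.right ^ i = g.right ^ j → f i = f j := by
    intro i j hij
    rw [pow_eq_pow_iff_modEq, ho] at hij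
    rw [← hper.map_mod_nat i, ← hper.map_mod_nat j, hij]
  have hex : ∀ t : A, ∃ i : ℕ, g.right ^ i = t := fun t =>
    (Submonoid.mem_powers_iff _ _).1 (mem_powers_iff_mem_zpowers.2 (hg t))
  choose e he using hex
  have hc : ∀ i, f (e (g.right ^ i)) = f i := fun i => hwd _ _ (he _)
  refine isConj_iff.2 ⟨⟨fun t => f (e t), 1⟩, ?_⟩
  rw [mul_inv_eq_iff_eq_mul]
  ext t
  · have ht : t = g.right ^ (e (g.right⁻¹ * t) + 1) := by
      rw [pow_succ', he, mul_inv_cancel_left]
    generalize e (g.right⁻¹ * t) = i at ht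
    subst ht
    have h3 : g.right⁻¹ * g.right ^ (i + 1) = g.right ^ i := by
      rw [pow_succ', inv_mul_cancel_left]
    simp only [RegularWreathProduct.mul_left, Pi.mul_apply, inv_one, one_mul, ← hr, h3, hc, hf,
      inv_mul_cancel_right]
  · simp [hr]

theorem wr_conj_left (g w : RegularWreathProduct B A) (h : g.right = 1) (t : A) :
    (w⁻¹ * g * w).left t =
      (w.left (w.right * t))⁻¹ * g.left (w.right * t) * w.left (w.right * t) := by
  simp [h]

theorem wr_pow_right (g : RegularWreathProduct B A) (e : ℕ) : (g ^ e).right = g.right ^ e := by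
  exact pow_right_CJ g e

theorem wr_pow_left (g : RegularWreathProduct B A) (h : g.right = 1) (e : ℕ) (t : A) :
    (g ^ e).left t = g.left t ^ e := by
  induction e with
  | zero => simp
  | succ e ih => rw [pow_succ', pow_succ', RegularWreathProduct.mul_left, Pi.mul_apply, h, inv_one,
      one_mul, ih]

theorem wr_inv_left (g : RegularWreathProduct B A) (h : g.right = 1) (t : A) :
    g⁻¹.left t = (g.left t)⁻¹ := by
  simp [h]

theorem exists_wr_hom {Γ : Type} [Group Γ] (κ : Γ →* A) (s : A → Γ) (hs : ∀ t, κ (s t) = t)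
    (β : κ.ker →* B) : ∃ ι : Γ →* RegularWreathProduct B A, (∀ x, (ι x).right = κ x) ∧
      ∀ x t (h : κ.ker), (h : Γ) = (s t)⁻¹ * x * s ((κ x)⁻¹ * t) → (ι x).left t = β h := by
  have hm : ∀ x t, (s t)⁻¹ * x * s ((κ x)⁻¹ * t) ∈ κ.ker := by
    intro x t
    simp [MonoidHom.mem_ker, hs]
  refine ⟨MonoidHom.mk' (fun x => ⟨fun t => β ⟨_, hm x t⟩, κ x⟩) ?_, fun x => rfl, ?_⟩
  · intro x y
    ext t
    · simp only [RegularWreathProduct.mul_left, Pi.mul_apply, ← map_mul]
      congr 1
      apply Subtype.ext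
      simp only [Subgroup.coe_mul, map_mul, mul_inv_rev, mul_assoc, mul_inv_cancel_left]
    · simp
  · intro x t h hh
    change β _ = β h
    congr 1
    exact Subtype.ext hh.symm

theorem exists_wr_base : ∃ i : (A → B) →* RegularWreathProduct B A,
    ∀ b, (i b).left = b ∧ (i b).right = 1 := by
  refine ⟨MonoidHom.mk' (fun b => ⟨b, 1⟩) ?_, fun b => ⟨rfl, rfl⟩⟩
  intro x y
  ext t
  · simp
  · simp

theorem exists_wr_eval {Γ : Type} [Group Γ] (π : Γ →* RegularWreathProduct B A) :
    ∃ β : (RegularWreathProduct.rightHom.comp π).ker →* B, ∀ h, β h = (π h).left 1 := by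
  refine ⟨MonoidHom.mk' (fun h => (π h).left 1) ?_, fun h => rfl⟩
  intro x y
  have hx : (π x).right = 1 := x.2
  simp [hx]

theorem isConj_pi {J : Type} {C : J → Type} [∀ j, Group (C j)] {g g' : ∀ j, C j}
    (h : ∀ j, IsConj (g j) (g' j)) : IsConj g g' := by
  choose c hc using fun j => isConj_iff.1 (h j)
  exact isConj_iff.2 ⟨c, funext hc⟩

end Pool.Agent.Adm
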