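import Pool.Agent.Adq.Xi

/-! Normalised monodromy, vertex coverings, finite field data, cocycles. -/

namespace Pool.Agent.Adm

open scoped OnePoint
open Polynomial

noncomputable section

/-- The chosen compatible system of primitive roots of unity. -/
def xi : ℕ → K0 := exists_xi.choose

theorem xi_prim {e : ℕ} (he : Odd e) : IsPrimitiveRoot (xi e) e := exists_xi.choose_spec.1 e he

theorem xi_pow {e e' : ℕ} (he : Odd e) (he' : Odd e') : xi (e * e') ^ e' = xi e :=
  exists_xi.choose_spec.2 e e' he he'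

variable {k G : Type} [Field k] [Group G]

/-- g is the inertia generator at a normalised by the chosen roots of unity. -/
def Cover.M (c : Cover k G) (θ : K0 →+* k) (a : OnePoint k) (g : G) : Prop :=
  ∃ e, Odd e ∧ c.Mono a e (θ (xi e)) g

/-- There is a tame covering of the line with decomposition group R, unramified outside the
points p s, with inertia generators d s. -/
def VP (θ : K0 →+* k) {σ : Type} (p : σ → OnePoint k) (d : σ → G) (R : Subgroup G) : Prop :=
  ∃ c : Cover k G, c.ι.range = R ∧ (∀ a, a ∉ Set.range p → c.M θ a 1) ∧ ∀ s, c.M θ (p s) (d s)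

/-- The same with finite points. -/
abbrev VC (θ : K0 →+* k) {σ : Type} (p : σ → k) (d : σ → G) (R : Subgroup G) : Prop :=
  VP θ (fun s => (p s : OnePoint k)) d R

/-- The data d on S are the inertia generators of a tame covering of some pointed line. -/
def Geo {ι : Type} (S : Set ι) (d : ι → G) (R : Subgroup G) : Prop :=
  ∃ (k : Type) (_ : Field k) (_ : IsAlgClosed k) (θ : K0 →+* k) (p : S → OnePoint k),
    Function.Injective p ∧ VP θ p (fun s => d s) R

/-- Coverings can be transported along μ. -/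
def Mob1 (μ : OnePoint k → OnePoint k) : Prop :=
  ∀ (G : Type) [Group G] (c : Cover k G), ∃ c' : Cover k G, c'.ι.range = c.ι.range ∧
    ∀ a e ζ g, c.Mono a e ζ g → c'.Mono (μ a) e ζ g

/-- Coverings can be transported along μ in both directions. -/
def IsMob (μ : OnePoint k ≃ OnePoint k) : Prop := Mob1 μ ∧ Mob1 μ.symm

/-- A finite field of characteristic two with its normalised generator. -/
structure FF : Type 1 where
  F : Type
  [field : Field F]
  [fin : Fintype F]
  [dec : DecidableEq F]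
  r : ℕ
  r_pos : 0 < r
  card : Fintype.card F = 2 ^ r
  θ : F →+* K0
  u : Fˣ
  hu : θ u = xi (2 ^ r - 1)

attribute [instance] FF.field FF.fin FF.dec

/-- The order of the multiplicative group. -/
def FF.m (𝔽 : FF) : ℕ := 2 ^ 𝔽.r - 1

theorem FF.m_pos (𝔽 : FF) : 0 < 𝔽.m := by
  have := Nat.one_lt_two_pow 𝔽.r_pos.ne'
  unfold FF.m
  omega

instance (𝔽 : FF) : NeZero 𝔽.m := ⟨𝔽.m_pos.ne'⟩

/-- Cocycles with values in the character χ. -/
def Z1 {F : Type} [Field F] (χ : G →* Fˣ) : Submodule F (G → F) where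
  carrier := {b | ∀ g h, b (g * h) = χ h * b g + b h}
  zero_mem' := by intro g h; simp
  add_mem' := by
    intro a b ha hb g h
    simp only [Pi.add_apply, ha g h, hb g h]
    ring
  smul_mem' := by
    intro c b hb g h
    simp only [Pi.smul_apply, smul_eq_mul, hb g h]
    ring

theorem mem_Z1 {F : Type} [Field F] (χ : G →* Fˣ) (b : G → F) :
    b ∈ Z1 χ ↔ ∀ g h, b (g * h) = χ h * b g + b h := Iff.rfl

/-- Dimension of the space of cocycles. -/
def h1 {F : Type} [Field F] (χ : G →* Fˣ) : ℕ := Module.finrank F (Z1 χ)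

/-- Affine maps x ↦ u x + b of the vector space I → F, composed from left to right. -/
@[ext] structure AffV (F : Type) [Field F] (I : Type) where
  u : Fˣ
  b : I → F

namespace AffV

variable {F I : Type} [Field F]

instance : Mul (AffV F I) := ⟨fun g h => ⟨g.u * h.u, fun i => h.u * g.b i + h.b i⟩⟩
instance : One (AffV F I) := ⟨⟨1, fun _ => 0⟩⟩
instance : Inv (AffV F I) := ⟨fun g => ⟨g.u⁻¹, fun i => -((g.u⁻¹ : Fˣ) * g.b i)⟩⟩

@[simp] theorem mul_u (g h : AffV F I) : (g * h).u = g.u * h.u := rfl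
@[simp] theorem mul_b (g h : AffV F I) (i : I) : (g * h).b i = h.u * g.b i + h.b i := rfl
@[simp] theorem one_u : (1 : AffV F I).u = 1 := rfl
@[simp] theorem one_b (i : I) : (1 : AffV F I).b i = 0 := rfl
@[simp] theorem inv_u (g : AffV F I) : g⁻¹.u = g.u⁻¹ := rfl
@[simp] theorem inv_b (g : AffV F I) (i : I) : g⁻¹.b i = -((g.u⁻¹ : Fˣ) * g.b i) := rfl

instance : Group (AffV F I) :=
  Group.ofLeftAxioms
    (fun a b c => AffV.ext (mul_assoc _ _ _) (by funext i; simp; ring))
    (fun a => AffV.ext (one_mul _) (by funext i; simp))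
    (fun a => AffV.ext (inv_mul_cancel _) (by funext i; simp))

instance [Finite F] [Finite I] : Finite (AffV F I) :=
  Finite.of_injective (fun g : AffV F I => (g.u, g.b)) fun g h e => by
    simp only [Prod.mk.injEq] at e
    exact AffV.ext e.1 e.2

/-- The linear part. -/
def lin : AffV F I →* Fˣ where
  toFun g := g.u
  map_one' := rfl
  map_mul' _ _ := rfl

@[simp] theorem lin_apply (g : AffV F I) : lin g = g.u := rfl

end AffV

/-- The coordinates in I0 of the translation parts are independent modulo coboundaries on the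
set R. -/
def IndOn {F I : Type} [Field F] [Fintype I] (R : Set (AffV F I)) (I0 : Finset I) : Prop :=
  ∀ (lam : I → F) (β : F), (∀ g ∈ R, ∑ i, lam i * g.b i = β * (1 - g.u)) → ∀ i ∈ I0, lam i = 0

/-- The Hasse-Witt matrix. -/
def HW (q : ℕ) (f : k[X]) (w : ℕ) : Matrix (Fin w) (Fin w) k :=
  Matrix.of fun i j => if j.1 + 1 ≤ q * (i.1 + 1) then f.coeff (q * (i.1 + 1) - (j.1 + 1)) else 0

/-- Fixed vectors of the semilinear map attached to a matrix. -/
def Sol (q : ℕ) {w : ℕ} (A : Matrix (Fin w) (Fin w) k) : Set (Fin w → k) :=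
  {c | ∀ j, c j = ∑ i, A i j * c i ^ q}

/-- Condition for the existence of w independent affine coverings with labels f. -/
def HWok (𝔽 : FF) (f : k[X]) (w : ℕ) : Prop :=
  w = 0 ∨ (w * 𝔽.m < f.natDegree ∧ f.natDegree ≤ (w + 1) * 𝔽.m ∧ (HW (2 ^ 𝔽.r) f w).det ≠ 0)

/-- The number whose binary digits are the bits owned by l. -/
def bitv {r : ℕ} {ι : Type} [DecidableEq ι] (o : Fin r → ι) (l : ι) : ℕ :=
  ∑ b ∈ Finset.univ.filter (fun b => o b = l), 2 ^ b.1

/-- All labels are realised by characters, and pure labels have many cocycles. -/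
def RichG (𝔽 : FF) {ι H : Type} [Fintype ι] [DecidableEq ι] [Group H] (e : ι → H) : Prop :=
  (∀ x : ι → ℕ, 𝔽.m ∣ ∑ y, x y → ∃ χ : H →* 𝔽.Fˣ, ∀ y, χ (e y) = 𝔽.u ^ x y) ∧
    ∀ o : Fin 𝔽.r → ι, Function.Surjective o → ∃ χ : H →* 𝔽.Fˣ,
      (∀ y, χ (e y) * 𝔽.u ^ bitv o y = 1) ∧ Fintype.card ι ≤ h1 χ + 1

/-- The cross ratio sending x0, x1, x2 to zero, one, infinity. -/
def cr (x0 x1 x2 x : k) : k := (x - x0) * (x1 - x2) / ((x - x2) * (x1 - x0))

/-- Every polynomial relation of a' is a relation of a. -/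
def KerLe {k' σ : Type} [Field k'] (θ' : K0 →+* k') (a' : σ → k') (θ : K0 →+* k) (a : σ → k) :
    Prop :=
  ∀ f : MvPolynomial σ K0, MvPolynomial.eval₂ θ' a' f = 0 → MvPolynomial.eval₂ θ a f = 0

/-- Algebraic independence. -/
def Indep {σ : Type} (θ : K0 →+* k) (a : σ → k) : Prop :=
  ∀ f : MvPolynomial σ K0, MvPolynomial.eval₂ θ a f = 0 → f = 0

open Classical in
/-- The transcendence degree of a finite family. -/
def td {σ : Type} [Fintype σ] (θ : K0 →+* k) (a : σ → k) : ℕ :=
  (Finset.univ.filter fun S : Finset σ => Indep θ fun i : S => a i).sup Finset.card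

end

end Pool.Agent.Adm
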