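import Pool.Agent.Adq.D1

/-! Combinatorial types of stable curves of genus zero and curves with finite coordinates. -/

namespace Pool.Agent.Adm

open scoped OnePoint
open Sum

noncomputable section

/-- The component carrying a node branch or a marked point. -/
def slotBase {r n : ℕ} (T : SimpleGraph (Fin r)) (comp : Fin n → Fin r) :
    T.Dart ⊕ Fin n → Fin r :=
  Sum.elim (fun δ => δ.fst) comp

/-- A combinatorial type of n-pointed stable curve of genus zero. -/
structure Shape (n : ℕ) : Type where
  r : ℕ
  T : SimpleGraph (Fin r)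
  tree : T.IsTree
  comp : Fin n → Fin r
  stable : ∀ v, 3 ≤ Nat.card {s // slotBase T comp s = v}

namespace Shape

variable {n : ℕ} (σ : Shape n)

/-- Special points: node branches and marked points. -/
abbrev Slot : Type := σ.T.Dart ⊕ Fin n

instance : Fintype σ.T.Dart :=
  haveI := Classical.decRel σ.T.Adj
  SimpleGraph.Dart.fintype

/-- The component of a special point. -/
def base : σ.Slot → Fin σ.r := slotBase σ.T σ.comp

@[simp] theorem base_inl (δ : σ.T.Dart) : σ.base (inl δ) = δ.fst := rfl
@[simp] theorem base_inr (l : Fin n) : σ.base (inr l) = σ.comp l := rfl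

/-- The special points of the component v. -/
abbrev Sl (v : Fin σ.r) : Type := {s : σ.Slot // σ.base s = v}

/-- The components beyond the dart δ. -/
def Br (δ : σ.T.Dart) : Set (Fin σ.r) := {u | σ.T.dist δ.snd u < σ.T.dist δ.fst u}

open Classical in
/-- The special point of v in the direction of the marked point l. -/
def dir (v : Fin σ.r) (l : Fin n) : σ.Slot :=
  if h : ∃ δ : σ.T.Dart, δ.fst = v ∧ σ.comp l ∈ σ.Br δ then inl h.choose else inr l

/-- The three marked points lie in different directions from v. -/
def IsMed (v : Fin σ.r) (i0 i1 i2 : Fin n) : Prop :=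
  σ.dir v i0 ≠ σ.dir v i1 ∧ σ.dir v i0 ≠ σ.dir v i2 ∧ σ.dir v i1 ≠ σ.dir v i2

/-- The special points on the boundary of a set of components. -/
def bd (U : Set (Fin σ.r)) : Set σ.Slot :=
  {s | σ.base s ∈ U ∧ ∀ δ : σ.T.Dart, s = inl δ → δ.snd ∉ U}

end Shape

/-- A stable curve of type σ with finite coordinates. -/
structure Pt {n : ℕ} (σ : Shape n) : Type 1 where
  k : Type
  [field : Field k]
  [closed : IsAlgClosed k]
  θ : K0 →+* k
  x : σ.Slot → k
  inj : ∀ s s', σ.base s = σ.base s' → x s = x s' → s = s'

attribute [instance] Pt.field Pt.closed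

/-- A property of groups with n elements. -/
abbrev GP (n : ℕ) : Type 1 := ∀ (G : Type) [Group G], (Fin n → G) → Prop

/-- The homomorphism π dominates the data g and the subgroups R up to conjugation. -/
def Dom {n : ℕ} {V W G : Type} [Group W] [Group G] (g : Fin n → W) (R : V → Subgroup W)
    (d : Fin n → G) (π : G →* W) : Prop :=
  (∀ l, IsConj (π (d l)) (g l)) ∧ ∀ v, ∃ γ : W, ∀ h ∈ R v, γ⁻¹ * h * γ ∈ π.range

namespace Pt

variable {n : ℕ} {σ : Shape n} (z : Pt σ)

instance : CharP z.k 2 := charP_of_injective_ringHom z.θ.injective 2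

/-- The same curve with another embedding of the constants. -/
def tw (θ' : K0 →+* z.k) : Pt σ := { z with θ := θ' }

/-- Coverings of the component v. -/
def VCat (v : Fin σ.r) {G : Type} [Group G] (d : σ.Slot → G) (R : Subgroup G) : Prop :=
  VC z.θ (fun s : σ.Sl v => z.x s) (fun s => d s) R

/-- Admissible coverings with inertia generators d and decomposition groups R. -/
def AdmR {G : Type} [Group G] (d : σ.Slot → G) (R : Fin σ.r → Subgroup G) : Prop :=
  (∀ v, z.VCat v d (R v)) ∧ ∀ δ : σ.T.Dart, d (inl δ.symm) = (d (inl δ))⁻¹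

/-- Connected admissible coverings with inertia generators d. -/
def Adm (G : Type) [Group G] (d : σ.Slot → G) : Prop := ∃ R, z.AdmR d R ∧ ⨆ v, R v = ⊤

/-- G is the group of a connected admissible covering. -/
def Q (G : Type) [Group G] : Prop := ∃ d, z.Adm G d

/-- Coverings of the components whose inertia generators match up to conjugation. -/
def VS (W : Type) [Group W] (g : σ.Slot → W) (R : Fin σ.r → Subgroup W) : Prop :=
  (∀ v, z.VCat v g (R v)) ∧ ∀ δ : σ.T.Dart, IsConj (g (inl δ))⁻¹ (g (inl δ.symm))

/-- The property P holds for all coverings dominating some system of vertex coverings. -/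
def Real (P : GP n) : Prop :=
  ∃ (W : Type) (_ : Group W) (_ : Finite W) (g : σ.Slot → W) (R : Fin σ.r → Subgroup W),
    z.VS W g R ∧ ∀ (G : Type) [Group G] [Finite G] (d : Fin n → G) (π : G →* W),
      Dom (fun l => g (inr l)) R d π → P G d

/-- Cross ratios of the marked points seen from the component v. -/
def crs (v : Fin σ.r) (i0 i1 i2 : Fin n) (l : Fin n) : z.k :=
  cr (z.x (σ.dir v i0)) (z.x (σ.dir v i1)) (z.x (σ.dir v i2)) (z.x (σ.dir v l))

/-- The cross ratios of z are specialisations of those of z' along τ. -/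
def Rel {σ' : Shape n} (z' : Pt σ') (τ : Fin n ≃ Fin n) : Prop :=
  ∀ v v' i0 i1 i2, σ.IsMed v i0 i1 i2 → σ'.IsMed v' (τ i0) (τ i1) (τ i2) →
    (∀ l, σ.dir v l ≠ σ.dir v i2 → σ'.dir v' (τ l) ≠ σ'.dir v' (τ i2)) ∧
      KerLe z'.θ (fun l => if σ.dir v l = σ.dir v i2 then 0 else
        z'.crs v' (τ i0) (τ i1) (τ i2) (τ l)) z.θ (z.crs v i0 i1 i2)

/-- Every finite quotient for z is a finite quotient for z'. -/
def Le {σ' : Shape n} (z' : Pt σ') : Prop :=
  ∀ (G : Type) [Group G] [Finite G], z.Q G → z'.Q G

end Pt

/-- G is the group of a connected tame covering of the line unramified outside the points p. -/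
def QS {k σ : Type} [Field k] (θ : K0 →+* k) (p : σ → k) (G : Type) [Group G] : Prop :=
  ∃ d : σ → G, VC θ p d ⊤

end

end Pool.Agent.Adm
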