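import Pool.Agent.Adq.D2

/-! Kummer coverings totally ramified at two marked points: marked points, labels, wreath
products. -/

namespace Pool.Agent.Adm

open scoped OnePoint
open Sum Polynomial

noncomputable section

/-- The marked points of the Kummer covering with group A ramified at i0 and i2. -/
abbrev YI (ι A : Type) [One A] (i0 i2 : ι) : Type :=
  {y : ι × A // (y.1 = i0 ∨ y.1 = i2) → y.2 = 1}

section

variable {ι A G : Type} [DecidableEq ι] [CommGroup A] [Group G]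

/-- The character χ0 describes the Kummer covering ramified at i0 and i2. -/
def KumLab (χ0 : G →* A) (d : ι → G) (i0 i2 : ι) (u : A) : Prop :=
  χ0 (d i0) = u ∧ χ0 (d i2) = u⁻¹ ∧ ∀ l, l ≠ i0 → l ≠ i2 → χ0 (d l) = 1

/-- Inertia generators of the Kummer covering. -/
def yd (N : ℕ) (d : ι → G) (i0 i2 : ι) (γ : A → G) (y : YI ι A i0 i2) : G :=
  if y.1.1 = i0 ∨ y.1.1 = i2 then d y.1.1 ^ N else (γ y.1.2)⁻¹ * d y.1.1 * γ y.1.2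

/-- e is a system of inertia generators of the Kummer covering. -/
def IsYD (N : ℕ) (χ0 : G →* A) (d : ι → G) (i0 i2 : ι) (e : YI ι A i0 i2 → χ0.ker) : Prop :=
  ∃ γ : A → G, (∀ t, χ0 (γ t) = t) ∧ ∀ y, (e y : G) = yd N d i0 i2 γ y

/-- Translation in the fibres. -/
def ysh {i0 i2 : ι} (sh : ι → A) (y : YI ι A i0 i2) : YI ι A i0 i2 :=
  ⟨(y.1.1, if y.1.1 = i0 ∨ y.1.1 = i2 then 1 else sh y.1.1 * y.1.2), fun h => if_pos h⟩

end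

variable {n : ℕ}

/-- The Kummer covering is rich in characters. -/
def Rich (𝔽0 𝔽 : FF) (i0 i2 : Fin n) : GP n := fun G _ d =>
  ∃ χ0 : G →* 𝔽0.Fˣ, KumLab χ0 d i0 i2 𝔽0.u ∧ ∀ e, IsYD 𝔽0.m χ0 d i0 i2 e → RichG 𝔽 e

/-- Labels of a test character on the Kummer covering. -/
def TLab (𝔽0 𝔽1 : FF) {G : Type} [Group G] (χ0 : G →* 𝔽0.Fˣ) (χ : χ0.ker →* 𝔽1.Fˣ)
    (d : Fin n → G) (i0 i1 i2 : Fin n) (n0 : ℕ) (n1 : 𝔽0.Fˣ → ℕ) (nn : Fin n → ℕ) : Prop :=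
  (∀ h : χ0.ker, (h : G) = d i0 ^ 𝔽0.m → χ h = 𝔽1.u ^ n0) ∧
    (∀ (g : G) (h : χ0.ker), (h : G) = g⁻¹ * d i1 * g → χ h = 𝔽1.u ^ n1 (χ0 g)) ∧
    ∀ l, l ≠ i0 → l ≠ i1 → l ≠ i2 →
      ∀ (g : G) (h : χ0.ker), (h : G) = g⁻¹ * d l * g → χ h = 𝔽1.u ^ nn l

/-- There is a test character with many cocycles. -/
def Test (𝔽0 𝔽1 : FF) (i0 i1 i2 : Fin n) (n0 : ℕ) (n1 : 𝔽0.Fˣ → ℕ) (nn : Fin n → ℕ) (w : ℕ) :
    GP n := fun G _ d =>
  ∃ χ0 : G →* 𝔽0.Fˣ, KumLab χ0 d i0 i2 𝔽0.u ∧ ∃ (sh : 𝔽0.Fˣ) (χ : χ0.ker →* 𝔽1.Fˣ),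
    TLab 𝔽0 𝔽1 χ0 χ d i0 i1 i2 n0 (fun t => n1 (sh * t)) nn ∧ w + 1 ≤ h1 χ

/-- The polynomial of labels of a test character. -/
def tpoly {k : Type} [Field k] (θ : K0 →+* k) (𝔽0 : FF) (η : k) (n0 : ℕ) (n1 : 𝔽0.Fˣ → ℕ)
    (nn : Fin n → ℕ) (a : Fin n → k) : k[X] :=
  X ^ n0 * (∏ t : 𝔽0.Fˣ, (X - C (θ (𝔽0.θ t) * η)) ^ n1 t) * ∏ l, (X ^ 𝔽0.m - C (a l)) ^ nn l

/-- Characters with prescribed labels up to translation and many cocycles. -/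
def YP (𝔽0 𝔽 : FF) (i0 i2 : Fin n) {J : Type} (x : J → YI (Fin n) 𝔽0.Fˣ i0 i2 → ZMod 𝔽.m)
    (wt : J → ℕ) : GP n := fun G _ d =>
  ∃ χ0 : G →* 𝔽0.Fˣ, KumLab χ0 d i0 i2 𝔽0.u ∧ ∃ sh : Fin n → 𝔽0.Fˣ,
    ∀ e, IsYD 𝔽0.m χ0 d i0 i2 e → ∀ j, ∃ χ : χ0.ker →* 𝔽.Fˣ,
      (∀ y, χ (e y) = 𝔽.u ^ (x j (ysh sh y)).val) ∧ (χ ≠ 1 → wt j + 1 ≤ h1 χ)

/-- The wreath product receiving the monodromy of induced coverings. -/
abbrev WG (𝔽0 𝔽 : FF) (J I : Type) : Type := RegularWreathProduct (J → AffV 𝔽.F I) 𝔽0.Fˣ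

/-- Independence of cocycles on the component t of the base group. -/
def RI {𝔽0 𝔽 : FF} {J I : Type} [Fintype I] (R : Subgroup (WG 𝔽0 𝔽 J I)) (j : J) (t : 𝔽0.Fˣ)
    (I0 : Finset I) : Prop :=
  IndOn {b | ∃ g ∈ R, g.right = 1 ∧ g.left t j = b} I0

namespace Shape

variable (σ : Shape n) (i0 i2 : Fin n)

/-- The component v lies on the path from i0 to i2. -/
def OnPath (v : Fin σ.r) : Prop := σ.dir v i0 ≠ σ.dir v i2

/-- The Kummer covering is ramified at s. -/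
def Ram (s : σ.Slot) : Prop :=
  σ.OnPath i0 i2 (σ.base s) ∧ (σ.dir (σ.base s) i0 = s ∨ σ.dir (σ.base s) i2 = s)

/-- Monodromy of the Kummer covering at s. -/
def kum {A : Type} [CommGroup A] (u : A) (s : σ.Slot) : A :=
  (if σ.dir (σ.base s) i0 = s then u else 1) * if σ.dir (σ.base s) i2 = s then u⁻¹ else 1

/-- Label at the point t above s. -/
def lab {A Z : Type} [CommGroup A] [Fintype A] [DecidableEq A] [AddCommGroup Z]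
    (x : YI (Fin n) A i0 i2 → Z) (s : σ.Slot) (t : A) : Z :=
  if σ.dir (σ.base s) i0 = s ∧ σ.dir (σ.base s) i2 = s then
    -∑ y ∈ Finset.univ.filter
      (fun y : YI (Fin n) A i0 i2 => σ.dir (σ.base s) y.1.1 ≠ s ∧ y.1.2 = t), x y
  else if σ.dir (σ.base s) i0 = s ∨ σ.dir (σ.base s) i2 = s then
    ∑ y ∈ Finset.univ.filter (fun y : YI (Fin n) A i0 i2 => σ.dir (σ.base s) y.1.1 = s), x y
  else
    ∑ y ∈ Finset.univ.filter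
      (fun y : YI (Fin n) A i0 i2 => σ.dir (σ.base s) y.1.1 = s ∧ y.1.2 = t), x y

open Classical in
/-- The element g of the wreath product has the labels prescribed by x at s. -/
def WL (𝔽0 𝔽 : FF) {J I : Type} (x : J → YI (Fin n) 𝔽0.Fˣ i0 i2 → ZMod 𝔽.m) (s : σ.Slot)
    (g : WG 𝔽0 𝔽 J I) : Prop :=
  (∃ e, Odd e ∧ g ^ e = 1) ∧ g.right = σ.kum i0 i2 𝔽0.u s ∧
    ∀ j t, ((g ^ if σ.Ram i0 i2 s then 𝔽0.m else 1).left t j).u =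
      𝔽.u ^ (σ.lab i0 i2 (x j) s t).val

end Shape

namespace Pt

variable {σ : Shape n} (z : Pt σ) (𝔽0 : FF) (i0 i2 : Fin n)

/-- Coordinates on the Kummer coverings of the components on the path. -/
def KumCoord (lam : Fin σ.r → z.k) (α : σ.Slot → z.k) : Prop :=
  (∀ v, lam v ≠ 0) ∧ ∀ s, σ.OnPath i0 i2 (σ.base s) → s ≠ σ.dir (σ.base s) i0 →
    s ≠ σ.dir (σ.base s) i2 → α s ^ 𝔽0.m = lam (σ.base s) *
      (z.x s - z.x (σ.dir (σ.base s) i0)) / (z.x s - z.x (σ.dir (σ.base s) i2))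

/-- Polynomial of labels on the Kummer covering of a component on the path. -/
def fP (α : σ.Slot → z.k) (y : σ.Slot → 𝔽0.Fˣ → ℕ) (v : Fin σ.r) : z.k[X] :=
  X ^ y (σ.dir v i0) 1 * ∏ s ∈ Finset.univ.filter
      (fun s => σ.base s = v ∧ s ≠ σ.dir v i0 ∧ s ≠ σ.dir v i2),
    ∏ t : 𝔽0.Fˣ, (X - C (z.θ (𝔽0.θ t) * α s)) ^ y s t

/-- Polynomial of labels on a copy of a component off the path. -/
def fO (y : σ.Slot → 𝔽0.Fˣ → ℕ) (v : Fin σ.r) (t : 𝔽0.Fˣ) : z.k[X] :=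
  ∏ s ∈ Finset.univ.filter (fun s => σ.base s = v), (X - C (z.x s)) ^ y s t

end Pt

end

end Pool.Agent.Adm
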