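import Pool.Agent.Adq.D2

/-! The stable curve defined by a type and coordinates. -/

namespace Pool.Agent.Adm

open scoped OnePoint
open Sum

noncomputable section

variable {n : ℕ} {σ : Shape n}

open Classical in
/-- The node of v in the direction of w. -/
def Pt.node (z : Pt σ) (v w : Fin σ.r) : OnePoint z.k :=
  if h : σ.T.Adj v w then (z.x (inl ⟨(v, w), h⟩) : OnePoint z.k) else ∞

theorem Pt.node_adj (z : Pt σ) {v w : Fin σ.r} (h : σ.T.Adj v w) :
    z.node v w = (z.x (inl ⟨(v, w), h⟩) : OnePoint z.k) := dif_pos h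

theorem Pt.special_eq (z : Pt σ) (v : Fin σ.r) :
    {a | (∃ w, σ.T.Adj v w ∧ z.node v w = a) ∨
      ∃ i, σ.comp i = v ∧ (z.x (inr i) : OnePoint z.k) = a} =
      Set.range fun s : σ.Sl v => (z.x s : OnePoint z.k) := by
  ext a
  constructor
  · rintro (⟨w, h, rfl⟩ | ⟨i, h, rfl⟩)
    · exact ⟨⟨inl ⟨(v, w), h⟩, rfl⟩, (z.node_adj h).symm⟩
    · exact ⟨⟨inr i, h⟩, rfl⟩
  · rintro ⟨⟨s, hs⟩, rfl⟩
    rcases s with ⟨⟨v', w⟩, h⟩ | i
    · obtain rfl : v' = v := hs
      exact Or.inl ⟨w, h, z.node_adj h⟩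
    · exact Or.inr ⟨i, hs, rfl⟩

/-- The stable curve. -/
def Pt.curve (z : Pt σ) : StableCurve 2 n where
  k := z.k
  V := Fin σ.r
  T := σ.T
  tree := σ.tree
  node := z.node
  comp := σ.comp
  mark i := (z.x (inr i) : OnePoint z.k)
  node_inj v w w' h h' e := by
    rw [z.node_adj h, z.node_adj h', OnePoint.coe_eq_coe] at e
    have := z.inj (inl ⟨(v, w), h⟩) (inl ⟨(v, w'), h'⟩) rfl e
    simpa using this
  mark_inj i j h e := by
    rw [OnePoint.coe_eq_coe] at e
    simpa using z.inj (inr i) (inr j) h e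
  mark_ne_node i w h e := by
    rw [z.node_adj h, OnePoint.coe_eq_coe] at e
    simpa using z.inj (inr i) (inl ⟨(σ.comp i, w), h⟩) rfl e
  stable v := by
    rw [z.special_eq v, Set.ncard_range_of_injective]
    · exact σ.stable v
    · intro s s' e
      exact Subtype.ext (z.inj _ _ (s.2.trans s'.2.symm) (OnePoint.coe_eq_coe.1 e))

theorem Pt.tw_curve (z : Pt σ) (θ' : K0 →+* z.k) : (z.tw θ').curve = z.curve := rfl

end

end Pool.Agent.Adm
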