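import Pool.Agent.Adq.D3

/-! Test characters seen from a median component. -/

namespace Pool.Agent.Adm

open scoped OnePoint
open Sum Polynomial

noncomputable section

variable {n : ℕ} {σ : Shape n}

/-- Coordinates on the Kummer covering of the component v. -/
def Pt.KumAt (z : Pt σ) (𝔽0 : FF) (i0 i2 : Fin n) (v : Fin σ.r) (lam : z.k)
    (α : σ.Slot → z.k) : Prop :=
  lam ≠ 0 ∧ ∀ s, σ.base s = v → s ≠ σ.dir v i0 → s ≠ σ.dir v i2 →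
    α s ^ 𝔽0.m = lam * (z.x s - z.x (σ.dir v i0)) / (z.x s - z.x (σ.dir v i2))

theorem Pt.KumCoord.kumAt {z : Pt σ} {𝔽0 : FF} {i0 i2 : Fin n} {lam : Fin σ.r → z.k}
    {α : σ.Slot → z.k} (h : z.KumCoord 𝔽0 i0 i2 lam α) {v : Fin σ.r} (hv : σ.OnPath i0 i2 v) :
    z.KumAt 𝔽0 i0 i2 v (lam v) α :=
  ⟨h.1 v, fun s hs h0 h2 => by subst hs; exact h.2 s hv h0 h2⟩

/-- The labels of a test character at the points above the special points of v. -/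
def Shape.tlab (σ : Shape n) (𝔽0 : FF) (v : Fin σ.r) (i0 i1 : Fin n) (n0 : ℕ)
    (n1 : 𝔽0.Fˣ → ℕ) (nn : Fin n → ℕ) (s : σ.Slot) (t : 𝔽0.Fˣ) : ℕ :=
  if s = σ.dir v i0 then
    n0 + 𝔽0.m * ∑ l ∈ Finset.univ.filter (fun l => σ.dir v l = s), nn l
  else (if s = σ.dir v i1 then n1 t else 0) +
    ∑ l ∈ Finset.univ.filter (fun l => σ.dir v l = s), nn l

/-- A test character on an admissible covering. -/
structure TUH (z : Pt σ) {G : Type} [Group G] (d : σ.Slot → G) (R : Fin σ.r → Subgroup G)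
    (v : Fin σ.r) (i0 i1 i2 : Fin n) (𝔽0 𝔽 : FF) (c : ℕ) (χ0 : G →* 𝔽0.Fˣ)
    (χ : χ0.ker →* 𝔽.Fˣ) (n0 : ℕ) (n1 : 𝔽0.Fˣ → ℕ) (nn : Fin n → ℕ) : Prop where
  adm : z.AdmR d R
  med : σ.IsMed v i0 i1 i2
  kum : KumLab χ0 (fun l => d (inr l)) i0 i2 (𝔽0.u ^ 2 ^ c)
  lab : TLab 𝔽0 𝔽 χ0 χ (fun l => d (inr l)) i0 i1 i2 n0 n1 nn
  nn0 : ∀ l, l = i0 ∨ l = i1 ∨ σ.dir v l = σ.dir v i2 → nn l = 0
  b0 : n0 + 𝔽0.m * ∑ l, nn l < 𝔽.m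
  b1 : ∀ t, n1 t + ∑ l, nn l < 𝔽.m

/-- The nonvanishing of f on the cross ratios indexed by I passes from z to z'. -/
def Pt.Pass (z : Pt σ) {σ' : Shape n} (z' : Pt σ') (τ : Fin n ≃ Fin n) (σ0 : K0 →+* K0)
    (v : Fin σ.r) (i0 i1 i2 : Fin n) (I : Finset (Fin n)) (f : MvPolynomial (Fin n) K0) : Prop :=
  σ.IsMed v i0 i1 i2 → (∀ l ∈ I, σ.dir v l ≠ σ.dir v i2) →
    MvPolynomial.eval₂ z.θ (fun l => if l ∈ I then z.crs v i0 i1 i2 l else 0) f ≠ 0 →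
    ∀ v', σ'.IsMed v' (τ i0) (τ i1) (τ i2) → (∀ l ∈ I, σ'.dir v' (τ l) ≠ σ'.dir v' (τ i2)) →
      MvPolynomial.eval₂ (z'.θ.comp σ0)
        (fun l => if l ∈ I then z'.crs v' (τ i0) (τ i1) (τ i2) (τ l) else 0) f ≠ 0

end

end Pool.Agent.Adm
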