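import Pool.Agent.Adq.D5

/-! Smooth curves from distinct points; the sum of the transcendence degrees. -/

namespace Pool.Agent.Adm

open Sum

noncomputable section

variable {n : ℕ} {σ : Shape n}

/-- The smooth curve with marked points p. -/
def Pt.ofSmooth (h : IsEmpty σ.T.Dart) (k : Type) [Field k] [IsAlgClosed k] (θ : K0 →+* k)
    (p : Fin n → k) (hp : Function.Injective p) : Pt σ where
  k := k
  θ := θ
  x := Sum.elim (fun δ => h.elim δ) p
  inj s s' _ e := by
    rcases s with δ | l
    · exact h.elim δ
    rcases s' with δ | l'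
    · exact h.elim δ
    exact congrArg inr (hp e)

open Classical in
/-- The sum of the transcendence degrees of the cross ratios over all median components. -/
def Pt.psi (z : Pt σ) : ℕ :=
  ∑ T ∈ Finset.univ.filter
      (fun T : Fin σ.r × Fin n × Fin n × Fin n => σ.IsMed T.1 T.2.1 T.2.2.1 T.2.2.2),
    td z.θ (z.crs T.1 T.2.1 T.2.2.1 T.2.2.2)

end

end Pool.Agent.Adm
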