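import Mathlib

/-! Maximal chains of irreducible closed subsets. -/

namespace Pool.Agent.Adm

/-- V is a chain of irreducible closed subsets descending strictly from the whole space, and it is
maximal: an irreducible closed subset comparable with every member of the chain is a member. -/
def IsMaxChain {X : Type*} [TopologicalSpace X] {m : ℕ} (V : Fin (m + 1) → Set X) : Prop :=
  (∀ i, IsIrreducible (V i) ∧ IsClosed (V i)) ∧ V 0 = Set.univ ∧ StrictAnti V ∧
    ∀ W, IsIrreducible W → IsClosed W → (∀ i, W ⊆ V i ∨ V i ⊆ W) → W ∈ Set.range V

end Pool.Agent.Adm
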