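import Mathlib

/-! Every polynomial is the determinant of a matrix with affine entries. -/

namespace Pool.Agent.Adm

open MvPolynomial

section

open Matrix

variable {σ R : Type} [Fintype σ] [CommRing R]

/-- Polynomials of degree at most one. -/
def Aff_DU (p : MvPolynomial σ R) : Prop := ∃ (a : R) (b : σ → R), p = C a + ∑ l, C (b l) * X l

theorem aff_C_DU (a : R) : Aff_DU (C a : MvPolynomial σ R) := ⟨a, 0, by simp⟩

theorem aff_zero_DU : Aff_DU (0 : MvPolynomial σ R) := ⟨0, 0, by simp⟩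

theorem aff_one_DU : Aff_DU (1 : MvPolynomial σ R) := ⟨1, 0, by simp⟩

theorem aff_X_DU (l : σ) (a : R) : Aff_DU (-(X l * C a) : MvPolynomial σ R) := by
  classical
  refine ⟨0, Pi.single l (-a), ?_⟩
  rw [Finset.sum_eq_single l (fun j _ hj => by simp [hj]) (by simp)]
  simp [mul_comm]

theorem inv_DU (g : MvPolynomial σ R) :
    ∃ (ι : Type) (_ : Fintype ι) (_ : DecidableEq ι) (A B : Matrix ι ι (MvPolynomial σ R))
      (u : Matrix Unit ι (MvPolynomial σ R)) (v : Matrix ι Unit (MvPolynomial σ R)),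
      (∀ i j, Aff_DU (A i j)) ∧ (∀ i j, ∃ a, u i j = C a) ∧ (∀ i j, ∃ a, v i j = C a) ∧
      A * B = 1 ∧ A.det = 1 ∧ (u * B * v) () () = g := by
  induction g using MvPolynomial.induction_on with
  | C a =>
    exact ⟨Unit, inferInstance, inferInstance, 1, 1, Matrix.of fun _ _ => C a, 1,
      fun _ _ => by rw [one_apply_eq]; exact aff_one_DU, fun _ _ => ⟨a, rfl⟩,
      fun _ _ => ⟨1, by simp⟩, by simp, by simp, by simp⟩
  | add p q hp hq =>
    obtain ⟨ι, _, _, A, B, u, v, h1, h2, h3, h4, h5, h6⟩ := hp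
    obtain ⟨κ, _, _, A', B', u', v', k1, k2, k3, k4, k5, k6⟩ := hq
    refine ⟨ι ⊕ κ, inferInstance, inferInstance, fromBlocks A 0 0 A', fromBlocks B 0 0 B',
      fromCols u u', fromRows v v', ?_, ?_, ?_, ?_, ?_, ?_⟩
    · rintro (i | i) (j | j)
      · exact h1 i j
      · exact aff_zero_DU
      · exact aff_zero_DU
      · exact k1 i j
    · rintro i (j | j)
      · exact h2 i j
      · exact k2 i j
    · rintro (i | i) j
      · exact h3 i j
      · exact k3 i j
    · simp [fromBlocks_multiply, h4, k4]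
    · rw [det_fromBlocks_zero₂₁, h5, k5, mul_one]
    · simp [fromCols_mul_fromBlocks, fromCols_mul_fromRows, h6, k6]
  | mul_X p l hp =>
    obtain ⟨ι, _, _, A, B, u, v, h1, h2, h3, h4, h5, h6⟩ := hp
    refine ⟨ι ⊕ Unit, inferInstance, inferInstance,
      fromBlocks A (-((X l : MvPolynomial σ R) • v)) 0 1,
      fromBlocks B ((X l : MvPolynomial σ R) • (B * v)) 0 1,
      fromCols u 0, fromRows 0 1, ?_, ?_, ?_, ?_, ?_, ?_⟩
    · rintro (i | i) (j | j)
      · exact h1 i j
      · obtain ⟨a, ha⟩ := h3 i j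
        simpa [ha] using aff_X_DU l a
      · exact aff_zero_DU
      · exact aff_one_DU
    · rintro i (j | j)
      · exact h2 i j
      · exact ⟨0, by simp⟩
    · rintro (i | i) j
      · exact ⟨0, by simp⟩
      · exact ⟨1, by simp⟩
    · simp [fromBlocks_multiply, h4, ← Matrix.mul_assoc]
    · rw [det_fromBlocks_zero₂₁, h5, det_one, mul_one]
    · simp [fromCols_mul_fromBlocks, fromCols_mul_fromRows, ← Matrix.mul_assoc, h6, mul_comm]

theorem mat_DU (g : MvPolynomial σ R) :
    ∃ (ι : Type) (_ : Fintype ι) (_ : DecidableEq ι) (M : Matrix ι ι (MvPolynomial σ R)),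
      (∀ i j, Aff_DU (M i j)) ∧ M.det = g := by
  obtain ⟨ι, _, _, A, B, u, v, h1, h2, h3, h4, h5, h6⟩ := inv_DU g
  refine ⟨ι ⊕ Unit, inferInstance, inferInstance, fromBlocks A v (-u) 0, ?_, ?_⟩
  · rintro (i | i) (j | j)
    · exact h1 i j
    · obtain ⟨a, ha⟩ := h3 i j
      simpa [ha] using aff_C_DU a
    · obtain ⟨a, ha⟩ := h2 i j
      simpa [ha] using aff_C_DU (σ := σ) (-a)
    · exact aff_zero_DU
  · have hB : B.det = 1 := by
      have := congrArg det h4
      rwa [det_mul, h5, one_mul, det_one] at this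
    have e : fromBlocks A v (-u) 0 * fromBlocks B (-(B * v)) 0 1 =
        fromBlocks 1 0 (-(u * B)) (u * B * v) := by
      simp [fromBlocks_multiply, h4, ← Matrix.mul_assoc]
    have := congrArg det e
    rwa [det_mul, det_fromBlocks_zero₂₁, det_fromBlocks_zero₁₂, hB, det_one, det_one, mul_one,
      mul_one, one_mul, det_unique (u * B * v), h6] at this

theorem odd_DU (g : MvPolynomial σ R) :
    ∃ (ι : Type) (_ : Fintype ι) (_ : DecidableEq ι) (M : Matrix ι ι (MvPolynomial σ R)),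
      Odd (Fintype.card ι) ∧ (∀ i j, Aff_DU (M i j)) ∧ M.det = g := by
  obtain ⟨ι, _, _, M, h1, h2⟩ := mat_DU g
  rcases Nat.even_or_odd (Fintype.card ι) with h | h
  · refine ⟨ι ⊕ Unit, inferInstance, inferInstance, fromBlocks M 0 0 1, ?_, ?_, ?_⟩
    · simpa using h.add_one
    · rintro (i | i) (j | j)
      · exact h1 i j
      · exact aff_zero_DU
      · exact aff_zero_DU
      · exact aff_one_DU
    · rw [det_fromBlocks_zero₂₁, h2, det_one, mul_one]
  · exact ⟨ι, _, _, M, h, h1, h2⟩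

end

theorem exists_det_eq {σ R : Type} [Fintype σ] [CommRing R] (g : MvPolynomial σ R) :
    ∃ s : ℕ, Odd s ∧ ∃ (M0 : Matrix (Fin s) (Fin s) R) (M1 : σ → Matrix (Fin s) (Fin s) R),
      (Matrix.of fun i j => C (M0 i j) + ∑ l, C (M1 l i j) * X l : Matrix (Fin s) (Fin s)
        (MvPolynomial σ R)).det = g := by
  obtain ⟨ι, _, _, M, h0, h1, h2⟩ := odd_DU g
  choose a b hab using h1
  let e := (Fintype.equivFin ι).symm
  refine ⟨_, h0, Matrix.of fun i j => a (e i) (e j), fun l => Matrix.of fun i j => b (e i) (e j) l,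
    ?_⟩
  rw [← h2, ← Matrix.det_submatrix_equiv_self e]
  congr 1
  ext1 i j
  exact (hab _ _).symm

end Pool.Agent.Adm
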