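import Pool.Agent.Adq.SPD

/-! Extension of homomorphisms to finitely generated overrings. -/

namespace Pool.Agent.Adm

variable {K : Type} [Field K]

section
open Polynomial

/-- a root of the image of a smallest relation is a root of the images of all relations -/
theorem rel_EL {A k : Type} [CommRing A] [Algebra A K] [Field k] (x : K) (f : A[X])
    (hf : aeval x f = 0) (hd : 0 < f.natDegree)
    (hm : ∀ g : A[X], aeval x g = 0 → g.natDegree < f.natDegree → g = 0) (ρ : A →+* k)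
    (hρ : ρ f.leadingCoeff ≠ 0) (t : k) (ht : f.eval₂ ρ t = 0) (n : ℕ) :
    ∀ g : A[X], g.natDegree = n → aeval x g = 0 → g.eval₂ ρ t = 0 := by
  induction n using Nat.strong_induction_on with
  | _ n ih =>
    intro g hn hg
    by_cases h : g.natDegree < f.natDegree
    · rw [hm g hg h, eval₂_zero]
    · have h1 := not_lt.1 h
      have h2 := ih _ (hn ▸ natDegree_cancelLeads_lt_of_natDegree_le_natDegree h1 (by omega)) _ rfl
        (by simp [cancelLeads, hf, hg])
      simp only [cancelLeads, eval₂_sub, eval₂_mul, ht, mul_zero, sub_zero, eval₂_C,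
        Nat.sub_eq_zero_of_le h1, pow_zero, mul_one] at h2
      exact (mul_eq_zero.1 h2).resolve_left hρ

theorem point_EL (A : Subring K) (x : K) (P : A[X]) (hP : aeval x P ≠ 0) :
    ∃ a : A, a ≠ 0 ∧ ∀ (k : Type) [Field k] [IsAlgClosed k] (ρ : A →+* k), ρ a ≠ 0 →
      ∃ t : k, (∀ g : A[X], aeval x g = 0 → g.eval₂ ρ t = 0) ∧ P.eval₂ ρ t ≠ 0 := by
  classical
  by_cases hx : IsAlgebraic A x
  · have hex : ∃ n, ∃ f : A[X], f ≠ 0 ∧ aeval x f = 0 ∧ f.natDegree = n :=
      let ⟨f, h1, h2⟩ := hx; ⟨_, f, h1, h2, rfl⟩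
    obtain ⟨f, f0, f1, f2⟩ := Nat.find_spec hex
    have hm : ∀ g : A[X], aeval x g = 0 → g.natDegree < f.natDegree → g = 0 := fun g h1 h2 => by
      by_contra h0
      exact Nat.find_min hex (f2 ▸ h2) ⟨g, h0, h1, rfl⟩
    have hd : 0 < f.natDegree := by
      refine Nat.pos_of_ne_zero fun h0 => f0 ?_
      rw [eq_C_of_natDegree_eq_zero h0] at f1 ⊢
      rw [aeval_C] at f1
      rw [show f.coeff 0 = 0 from Subtype.ext f1, C_0]
    have hb : IsAlgebraic A (aeval x P) :=
      (Algebra.adjoin_le (S := Subalgebra.algebraicClosure A K)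
        (Set.singleton_subset_iff.2 hx)) (aeval_mem_adjoin_singleton A x)
    obtain ⟨q, q0, q1⟩ := hb.exists_nonzero_coeff_and_aeval_eq_zero
      (mem_nonZeroDivisors_of_ne_zero hP)
    refine ⟨f.leadingCoeff * q.coeff 0, mul_ne_zero (leadingCoeff_ne_zero.2 f0) q0,
      fun k _ _ ρ hρ => ?_⟩
    rw [map_mul] at hρ
    have hl := left_ne_zero_of_mul hρ
    obtain ⟨t, ht⟩ := IsAlgClosed.exists_root (f.map ρ) (by
      rw [degree_map_eq_of_leadingCoeff_ne_zero ρ hl]
      exact (natDegree_pos_iff_degree_pos.1 hd).ne')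
    have h1 : ∀ g : A[X], aeval x g = 0 → g.eval₂ ρ t = 0 := fun g =>
      rel_EL x f f1 hd hm ρ hl t (by rwa [eval₂_eq_eval_map]) _ g rfl
    refine ⟨t, h1, fun h0 => right_ne_zero_of_mul hρ ?_⟩
    have h2 := h1 (q.comp P) (by rwa [aeval_comp])
    rwa [eval₂_comp, h0, eval₂_at_zero] at h2
  · have P0 : P ≠ 0 := fun h => hP (by rw [h, map_zero])
    refine ⟨P.leadingCoeff, leadingCoeff_ne_zero.2 P0, fun k _ _ ρ hρ => ?_⟩
    have h1 : P.map ρ ≠ 0 := fun h => hρ (by
      rw [leadingCoeff, ← coeff_map, h, coeff_zero])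
    obtain ⟨t, ht⟩ : ∃ t, (P.map ρ).eval t ≠ 0 := by
      by_contra hc
      exact h1 (Polynomial.funext fun t => by
        rw [eval_zero]
        exact not_not.1 fun h => hc ⟨t, h⟩)
    refine ⟨t, fun g hg => ?_, by rwa [eval₂_eq_eval_map]⟩
    by_cases h0 : g = 0
    · rw [h0, eval₂_zero]
    · exact absurd ⟨g, h0, hg⟩ hx

theorem range_EL (A : Subring K) (x y : K) :
    y ∈ Subring.closure (insert x (A : Set K)) ↔ ∃ P : A[X], aeval x P = y := by
  constructor
  · intro h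
    refine (Subring.closure_le (t := (aeval (R := A) x).toRingHom.range)).2 ?_ h
    rintro z (rfl | hz)
    · exact ⟨X, aeval_X _⟩
    · exact ⟨C ⟨z, hz⟩, aeval_C _ _⟩
  · rintro ⟨P, rfl⟩
    rw [aeval_eq_sum_range]
    refine Subring.sum_mem _ fun i _ => ?_
    rw [Algebra.smul_def]
    exact Subring.mul_mem _ (Subring.subset_closure (Or.inr (P.coeff i).2))
      (Subring.pow_mem _ (Subring.subset_closure (Set.mem_insert x _)) i)

end

theorem exists_ext_one (A : Subring K) (x b : K) (hb : b ∈ Subring.closure (insert x (A : Set K)))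
    (hb0 : b ≠ 0) :
    ∃ a : A, a ≠ 0 ∧ ∀ (k : Type) [Field k] [IsAlgClosed k] (ρ : A →+* k), ρ a ≠ 0 →
      ∃ ρ' : Subring.closure (insert x (A : Set K)) →+* k,
        (∀ (y : A) (h : (y : K) ∈ Subring.closure (insert x (A : Set K))), ρ' ⟨y, h⟩ = ρ y) ∧
        ρ' ⟨b, hb⟩ ≠ 0 := by
  obtain ⟨P, rfl⟩ := (range_EL A x b).1 hb
  obtain ⟨a, ha, H⟩ := point_EL A x P hb0
  refine ⟨a, ha, fun k _ _ ρ hρ => ?_⟩
  obtain ⟨t, h1, h2⟩ := H k ρ hρ
  let ev : Polynomial A →+* Subring.closure (insert x (A : Set K)) :=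
    (Polynomial.aeval (R := A) x).toRingHom.codRestrict _ fun g => (range_EL A x _).2 ⟨g, rfl⟩
  have hs : Function.Surjective ev := fun y =>
    let ⟨g, hg⟩ := (range_EL A x y).1 y.2; ⟨g, Subtype.ext hg⟩
  have key := ev.liftOfSurjective_comp_apply hs ⟨Polynomial.eval₂RingHom ρ t, fun g hg =>
    h1 g (congrArg Subtype.val hg)⟩
  refine ⟨_, fun y h => ?_, fun h0 => h2 ((key P).symm.trans h0)⟩
  have e : (⟨y, h⟩ : Subring.closure (insert x (A : Set K))) = ev (Polynomial.C y) :=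
    Subtype.ext (Polynomial.aeval_C x y).symm
  rw [e, key]
  exact Polynomial.eval₂_C _ _

end Pool.Agent.Adm
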