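import Pool.Agent.Adq.ML
import Pool.Agent.Adm.VF1

/-! Finite field data and labels. -/

namespace Pool.Agent.Adm

open scoped OnePoint
open Polynomial

theorem exists_FF (r : ℕ) (hr : 0 < r) : ∃ 𝔽 : FF, 𝔽.r = r := by
  classical
  have : Fact (Nat.Prime 2) := ⟨Nat.prime_two⟩
  let _ : Fintype (GaloisField 2 r) := Fintype.ofFinite _
  have hc : Fintype.card (GaloisField 2 r) = 2 ^ r := by
    rw [← Nat.card_eq_fintype_card, GaloisField.card 2 r hr.ne']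
  let θ : GaloisField 2 r →+* K0 :=
    (IsAlgClosed.lift : GaloisField 2 r →ₐ[ZMod 2] K0).toRingHom
  have ho : Odd (2 ^ r - 1) :=
    Nat.Even.sub_odd Nat.one_le_two_pow (Nat.even_pow.2 ⟨even_two, hr.ne'⟩) odd_one
  obtain ⟨u, hu⟩ := exists_unit_of_pow_card_sub_one θ (xi (2 ^ r - 1))
    (by rw [hc]; exact (xi_prim ho).pow_eq_one)
  exact ⟨⟨GaloisField 2 r, r, hr, hc, θ, u, hu⟩, rfl⟩

namespace FF

variable (𝔽 : FF)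

theorem m_odd : Odd 𝔽.m := by
  exact Nat.Even.sub_odd Nat.one_le_two_pow (Nat.even_pow.2 ⟨even_two, 𝔽.r_pos.ne'⟩) odd_one

theorem card_sub_one : Fintype.card 𝔽.F - 1 = 𝔽.m := by
  rw [𝔽.card]
  rfl

theorem card_eq : Fintype.card 𝔽.F = 𝔽.m + 1 := by
  have h1 := 𝔽.card_sub_one
  have h2 := 𝔽.m_pos
  omega

theorem card_units : Fintype.card 𝔽.Fˣ = 𝔽.m := by
  rw [Fintype.card_units, 𝔽.card_sub_one]

theorem theta_u : 𝔽.θ 𝔽.u = xi 𝔽.m := 𝔽.hu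

theorem u_prim : IsPrimitiveRoot 𝔽.u 𝔽.m := by
  have h : IsPrimitiveRoot (𝔽.θ 𝔽.u) 𝔽.m := 𝔽.theta_u ▸ xi_prim 𝔽.m_odd
  exact IsPrimitiveRoot.coe_units_iff.1 (h.of_map_of_injective 𝔽.θ.injective)

theorem pow_m (t : 𝔽.Fˣ) : t ^ 𝔽.m = 1 := by
  rw [← 𝔽.card_units, pow_card_eq_one]

theorem exists_log (t : 𝔽.Fˣ) : ∃ n < 𝔽.m, t = 𝔽.u ^ n := by
  have h : IsPrimitiveRoot (𝔽.u : 𝔽.F) 𝔽.m := IsPrimitiveRoot.coe_units_iff.2 𝔽.u_prim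
  obtain ⟨i, hi, e⟩ := h.eq_pow_of_pow_eq_one (ξ := (t : 𝔽.F))
    (by rw [← Units.val_pow_eq_pow_val, 𝔽.pow_m, Units.val_one])
  exact ⟨i, hi, Units.ext (by rw [Units.val_pow_eq_pow_val, e])⟩

theorem mem_zpowers (t : 𝔽.Fˣ) : t ∈ Subgroup.zpowers 𝔽.u := by
  obtain ⟨n, -, rfl⟩ := 𝔽.exists_log t
  exact Subgroup.npow_mem_zpowers _ _

theorem pow_eq_pow_iff (a b : ℕ) : 𝔽.u ^ a = 𝔽.u ^ b ↔ (a : ZMod 𝔽.m) = b := by
  rw [pow_eq_pow_iff_modEq, ← 𝔽.u_prim.eq_orderOf, ZMod.natCast_eq_natCast_iff]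

theorem pow_val_natCast (a : ℕ) : 𝔽.u ^ (a : ZMod 𝔽.m).val = 𝔽.u ^ a := by
  rw [𝔽.pow_eq_pow_iff, ZMod.natCast_zmod_val]

theorem pow_val_add (a b : ZMod 𝔽.m) : 𝔽.u ^ (a + b).val = 𝔽.u ^ a.val * 𝔽.u ^ b.val := by
  rw [← pow_add, 𝔽.pow_eq_pow_iff, Nat.cast_add, ZMod.natCast_zmod_val, ZMod.natCast_zmod_val,
    ZMod.natCast_zmod_val]

theorem pow_val_neg (a : ZMod 𝔽.m) : 𝔽.u ^ (-a).val = (𝔽.u ^ a.val)⁻¹ := by
  apply eq_inv_of_mul_eq_one_left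
  rw [← 𝔽.pow_val_add, neg_add_cancel, ZMod.val_zero, pow_zero]

theorem pow_two_pow_r (t : 𝔽.Fˣ) (a : ℕ) : t ^ 2 ^ (𝔽.r * a) = t := by
  have h : ∀ s : 𝔽.Fˣ, s ^ 2 ^ 𝔽.r = s := fun s => by
    rw [← 𝔽.card, 𝔽.card_eq, pow_succ, 𝔽.pow_m, one_mul]
  induction a with
  | zero => simp
  | succ a ih => rw [Nat.mul_succ, pow_add, pow_mul, ih, h]

theorem charP : CharP 𝔽.F 2 := by
  exact 𝔽.θ.charP 𝔽.θ.injective 2

theorem m_cast_ne_zero {k : Type} [Field k] (θ : K0 →+* k) : (𝔽.m : k) ≠ 0 := by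
  rw [← 𝔽.card_sub_one]
  exact card_sub_one_cast_ne_zero (θ.comp 𝔽.θ)

theorem exists_unit {k : Type} [Field k] (θ : K0 →+* k) (x : k) (hx : x ^ 𝔽.m = 1) :
    ∃ t : 𝔽.Fˣ, θ (𝔽.θ t) = x := by
  exact exists_unit_of_pow_card_sub_one (θ.comp 𝔽.θ) x (by rw [𝔽.card_sub_one, hx])

theorem theta_pow_m {k : Type} [Field k] (θ : K0 →+* k) (t : 𝔽.Fˣ) : θ (𝔽.θ t) ^ 𝔽.m = 1 := by
  rw [← map_pow, ← map_pow, ← Units.val_pow_eq_pow_val, 𝔽.pow_m, Units.val_one, map_one, map_one]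

theorem theta_injective {k : Type} [Field k] (θ : K0 →+* k) :
    Function.Injective fun t : 𝔽.Fˣ => θ (𝔽.θ t) := by
  exact fun a b h => Units.ext (𝔽.θ.injective (θ.injective h))

theorem prod_X_sub {k : Type} [Field k] (θ : K0 →+* k) (α : k) :
    ∏ t : 𝔽.Fˣ, (X - C (θ (𝔽.θ t) * α)) = X ^ 𝔽.m - C (α ^ 𝔽.m) := by
  have h : IsPrimitiveRoot (θ (𝔽.θ 𝔽.u)) 𝔽.m :=
    (𝔽.theta_u ▸ xi_prim 𝔽.m_odd).map_of_injective θ.injective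
  rw [X_pow_sub_C_eq_prod h 𝔽.m_pos rfl]
  symm
  refine Finset.prod_nbij (fun i => 𝔽.u ^ i) (fun _ _ => Finset.mem_univ _) ?_ ?_ ?_
  · intro i hi j hj e
    exact 𝔽.u_prim.pow_inj (Finset.mem_range.1 hi) (Finset.mem_range.1 hj) e
  · intro t _
    obtain ⟨n, hn, rfl⟩ := 𝔽.exists_log t
    exact ⟨n, Finset.mem_range.2 hn, rfl⟩
  · intro i _
    rw [Units.val_pow_eq_pow_val, map_pow, map_pow]

theorem exists_hom (𝔽1 : FF) (h : 𝔽1.r ∣ 𝔽.r) :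
    ∃ f : 𝔽1.Fˣ →* 𝔽.Fˣ, Function.Injective f ∧ ∀ t : 𝔽1.Fˣ, 𝔽.θ (f t) = 𝔽1.θ t := by
  have hd : 𝔽1.m ∣ 𝔽.m := Nat.pow_sub_one_dvd_pow_sub_one 2 h
  have h1 : ∀ t : 𝔽1.Fˣ, ∃ s : 𝔽.Fˣ, 𝔽.θ s = 𝔽1.θ t := fun t => by
    obtain ⟨c, hc⟩ := hd
    refine 𝔽.exists_unit (RingHom.id K0) _ ?_
    have h2 : 𝔽1.θ t ^ 𝔽1.m = 1 := 𝔽1.theta_pow_m (RingHom.id K0) t
    rw [hc, pow_mul, h2, one_pow]
  choose f hf using h1
  refine ⟨MonoidHom.mk' f fun a b => Units.ext (𝔽.θ.injective ?_), fun a b e => ?_, hf⟩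
  · rw [hf, Units.val_mul, Units.val_mul, map_mul, map_mul, hf, hf]
  · have e' : f a = f b := e
    exact Units.ext (𝔽1.θ.injective (by rw [← hf, ← hf, e']))

theorem lab_iff {k : Type} [Field k] (θ : K0 →+* k) {e : ℕ} (he : Odd e) (c : 𝔽.Fˣ)
    (hc : c ^ e = 1) (n : ℤ) : Lab 𝔽.m e (θ (xi e)) (θ (𝔽.θ c)) n ↔ c = 𝔽.u ^ n := by
  have hξ : IsPrimitiveRoot (θ (xi (e * 𝔽.m))) (e * 𝔽.m) :=
    (xi_prim (he.mul 𝔽.m_odd)).map_of_injective θ.injective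
  have h1 : θ (xi e) = θ (xi (e * 𝔽.m)) ^ 𝔽.m := by rw [← map_pow, xi_pow he 𝔽.m_odd]
  have h2 : θ (xi (e * 𝔽.m)) ^ e = θ (𝔽.θ 𝔽.u) := by
    rw [← map_pow, mul_comm, xi_pow 𝔽.m_odd he, 𝔽.theta_u]
  have h3 : ∀ n : ℤ, θ (𝔽.θ (𝔽.u ^ n : 𝔽.Fˣ)) = θ (𝔽.θ 𝔽.u) ^ n := fun n => by
    rw [Units.val_zpow_eq_zpow_val, map_zpow₀, map_zpow₀]
  rw [h1]
  constructor
  · rintro ⟨r, t, h4, h5⟩
    apply 𝔽.theta_injective θ
    have h6 : 𝔽.u ^ (n + 𝔽.m * t) = 𝔽.u ^ n := by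
      rw [zpow_add, zpow_mul, zpow_natCast, 𝔽.pow_m, one_zpow, mul_one]
    change θ (𝔽.θ c) = θ (𝔽.θ (𝔽.u ^ n : 𝔽.Fˣ))
    rw [← h6, h3, ← h2, h5, ← zpow_natCast, ← zpow_natCast, ← zpow_mul, ← zpow_mul, h4]
  · intro h
    refine lab_of_root 𝔽.m_pos he.pos hξ ?_ (by rw [h2, h, h3])
    rw [← map_pow, ← map_pow, ← Units.val_pow_eq_pow_val, hc, Units.val_one, map_one, map_one]

end FF

variable {k G : Type} [Field k] [Group G]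

theorem Cover.M.lab {c : Cover k G} {θ : K0 →+* k} {a : OnePoint k} {g : G} (h : c.M θ a g)
    (𝔽 : FF) (χ : G →* 𝔽.Fˣ) (n : ℤ) (hχ : χ g = 𝔽.u ^ n) :
    ∃ e ζ, c.Mono a e ζ g ∧
      Lab (Fintype.card 𝔽.F - 1) e ζ ((θ.comp 𝔽.θ) (χ g)) n := by
  obtain ⟨e, he, hm⟩ := h
  refine ⟨e, _, hm, ?_⟩
  rw [𝔽.card_sub_one]
  exact (𝔽.lab_iff θ he (χ g) (by rw [← map_pow, hm.pow_eq_one, map_one]) n).2 hχ

/-- Labels read off from a Kummer generator. -/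
theorem Cover.M_lab_of_gen (c : Cover k G) (θ : K0 →+* k) (𝔽 : FF) (χ : G →* 𝔽.Fˣ) (y : c.L)
    (f : k[X]) (hf : f ≠ 0)
    (hy : ∀ σ : c.L ≃ₐ[RatFunc k] c.L,
      σ y = algebraMap (RatFunc k) c.L (RatFunc.C (θ (𝔽.θ (χ (c.ι σ))))) * y)
    (hm : y ^ 𝔽.m = algebraMap (RatFunc k) c.L (algebraMap k[X] (RatFunc k) f)) :
    (∀ (a : k) g, c.M θ a g → χ g = 𝔽.u ^ f.rootMultiplicity a) ∧
      ∀ g, c.M θ ∞ g → χ g * 𝔽.u ^ f.natDegree = 1 := by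
  obtain ⟨h1, h2⟩ := c.lab_of_gen (θ.comp 𝔽.θ) χ y f 1 hf one_ne_zero hy
    (by rw [𝔽.card_sub_one, hm, map_one, map_one, mul_one])
  rw [𝔽.card_sub_one] at h1 h2
  refine ⟨fun a g ⟨e, he, h⟩ => ?_, fun g ⟨e, he, h⟩ => ?_⟩
  · have h3 := (𝔽.lab_iff θ he (χ g) (by rw [← map_pow, h.pow_eq_one, map_one]) _).1
      (h1 a e _ g h)
    have h4 : (1 : k[X]).rootMultiplicity a = 0 := rootMultiplicity_eq_zero (by simp)
    rwa [h4, Nat.cast_zero, sub_zero, zpow_natCast] at h3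
  · have h3 := (𝔽.lab_iff θ he (χ g) (by rw [← map_pow, h.pow_eq_one, map_one]) _).1
      (h2 e _ g h)
    rw [h3, natDegree_one, Nat.cast_zero, add_zero, zpow_neg, zpow_natCast, inv_mul_cancel]

theorem AffV.eq_one_FFL {F I : Type} [Field F] [CharP F 2] {g : AffV F I} (hu : g.u = 1)
    (h : ∃ e, Odd e ∧ g ^ e = 1) : g = 1 := by
  obtain ⟨e, ⟨l, rfl⟩, h⟩ := h
  have h2 : g ^ 2 = 1 := by
    refine AffV.ext (by rw [pow_two, AffV.mul_u, hu, mul_one, AffV.one_u]) ?_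
    funext i
    rw [pow_two, AffV.mul_b, hu, Units.val_one, one_mul, AffV.one_b, CharTwo.add_self_eq_zero]
  rwa [pow_succ, pow_mul, h2, one_pow, one_mul] at h

/-- Elements of odd order with the same linear part are conjugate. -/
theorem AffV.isConj {F I : Type} [Field F] [CharP F 2] {g g' : AffV F I} (hu : g.u = g'.u)
    (h : ∃ e, Odd e ∧ g ^ e = 1) (h' : ∃ e, Odd e ∧ g' ^ e = 1) : IsConj g g' := by
  by_cases h1 : g.u = 1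
  · rw [AffV.eq_one_FFL h1 h, AffV.eq_one_FFL (hu ▸ h1) h']
  · have h2 : (g.u : F) - 1 ≠ 0 := fun e => h1 (Units.ext (sub_eq_zero.1 e))
    refine isConj_iff.2 ⟨⟨1, fun i => (g'.b i - g.b i) / (g.u - 1)⟩, AffV.ext ?_ ?_⟩
    · simp [hu]
    · funext i
      simp only [AffV.mul_b, AffV.inv_u, AffV.inv_b, inv_one, Units.val_one, one_mul]
      field_simp
      ring

theorem AffV.eq_one {F I : Type} [Field F] [CharP F 2] {g : AffV F I} (hu : g.u = 1)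
    (h : ∃ e, Odd e ∧ g ^ e = 1) : g = 1 := by
  exact AffV.eq_one_FFL hu h

end Pool.Agent.Adm
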