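import Pool.Agent.Adq.D2

/-! Branches and directions in a tree. -/

namespace Pool.Agent.Adm.Shape

open Sum

variable {n : ℕ} (σ : Shape n)

theorem step_Tr1 {a b : Fin σ.r} (h : σ.T.Adj a b) (u : Fin σ.r) :
    σ.T.dist a u = σ.T.dist b u + 1 ∨ σ.T.dist b u = σ.T.dist a u + 1 := by
  simpa only [SimpleGraph.dist_comm (u := u)] using σ.tree.dist_eq_dist_add_one_of_adj u h

theorem key_Tr1 {v a b u : Fin σ.r} (ha : σ.T.Adj v a) (hb : σ.T.Adj v b)
    (h1 : σ.T.dist a u < σ.T.dist v u) (h2 : σ.T.dist b u < σ.T.dist v u) : a = b := by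
  obtain ⟨p, hp⟩ := σ.tree.connected.exists_walk_length_eq_dist a u
  obtain ⟨q, hq⟩ := σ.tree.connected.exists_walk_length_eq_dist b u
  have a1 := step_Tr1 σ ha u
  have a2 := step_Tr1 σ hb u
  have b1 := (p.cons ha).isPath_of_length_eq_dist (by rw [SimpleGraph.Walk.length_cons]; omega)
  have b2 := (q.cons hb).isPath_of_length_eq_dist (by rw [SimpleGraph.Walk.length_cons]; omega)
  have := congrArg SimpleGraph.Walk.snd ((σ.tree.existsUnique_path v u).unique b1 b2)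
  simpa using this

theorem mem_Br_symm (δ : σ.T.Dart) (u : Fin σ.r) : u ∈ σ.Br δ.symm ↔ u ∉ σ.Br δ := by
  have := step_Tr1 σ δ.adj u
  simp only [Br, Set.mem_ofPred_eq, SimpleGraph.Dart.symm_toProd, Prod.fst_swap, Prod.snd_swap]
  omega

theorem fst_notMem_Br (δ : σ.T.Dart) : δ.fst ∉ σ.Br δ := by
  simp [Br]

theorem snd_mem_Br (δ : σ.T.Dart) : δ.snd ∈ σ.Br δ := by
  have := step_Tr1 σ δ.adj δ.snd
  simp only [Br, Set.mem_ofPred_eq, SimpleGraph.dist_self] at this ⊢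
  omega

theorem exists_dart {v u : Fin σ.r} (h : u ≠ v) : ∃ δ : σ.T.Dart, δ.fst = v ∧ u ∈ σ.Br δ := by
  obtain ⟨p, hp⟩ := σ.tree.connected.exists_walk_length_eq_dist v u
  cases p with
  | nil => exact absurd rfl h
  | cons ha q =>
    refine ⟨⟨(_, _), ha⟩, rfl, ?_⟩
    have := SimpleGraph.dist_le q
    rw [SimpleGraph.Walk.length_cons] at hp
    simp only [Br, Set.mem_ofPred_eq]
    omega

theorem dart_unique {δ δ' : σ.T.Dart} {u : Fin σ.r} (h : δ.fst = δ'.fst) (h1 : u ∈ σ.Br δ)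
    (h2 : u ∈ σ.Br δ') : δ = δ' := by
  refine SimpleGraph.Dart.ext _ _ (Prod.ext h (key_Tr1 σ δ.adj (h ▸ δ'.adj) h1 ?_))
  rw [h]
  exact h2

theorem Br_ssubset {δ δ' : σ.T.Dart} (h : δ'.fst = δ.snd) (h' : δ' ≠ δ.symm) :
    σ.Br δ' ⊂ σ.Br δ := by
  refine ⟨fun u hu => ?_, fun hs => σ.fst_notMem_Br δ' (hs (h ▸ σ.snd_mem_Br δ))⟩
  by_contra e
  exact h' (σ.dart_unique h hu ((σ.mem_Br_symm δ u).2 e))

theorem eq_symm_of_leaves {δ δ' : σ.T.Dart} (h1 : δ'.fst ∈ σ.Br δ) (h2 : δ'.snd ∉ σ.Br δ) :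
    δ' = δ.symm := by
  have a1 := step_Tr1 σ δ.adj δ'.fst
  have a2 := step_Tr1 σ δ.adj δ'.snd
  have a3 := σ.tree.dist_eq_dist_add_one_of_adj δ.fst δ'.adj
  have a4 := σ.tree.dist_eq_dist_add_one_of_adj δ.snd δ'.adj
  simp only [Br, Set.mem_ofPred_eq] at h1 h2
  have e : δ.snd = δ'.fst := by
    by_contra e
    obtain ⟨ε, e1, e2⟩ := σ.exists_dart e
    have b1 := step_Tr1 σ ε.adj δ.snd
    have b2 := step_Tr1 σ δ.adj ε.snd
    simp only [Br, Set.mem_ofPred_eq] at e2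
    have e3 : ε = δ' := σ.dart_unique (u := δ.fst) e1 (by
      simp only [Br, Set.mem_ofPred_eq, e1] at b1 e2 ⊢
      simp only [SimpleGraph.dist_comm (v := δ.snd), SimpleGraph.dist_comm (v := δ.fst)] at *
      omega) (by
      simp only [Br, Set.mem_ofPred_eq, SimpleGraph.dist_comm (v := δ.fst)]
      omega)
    subst e3
    simp only [SimpleGraph.dist_comm (v := δ.snd)] at e2
    omega
  have e' : δ.fst = δ'.snd := by
    rw [← e, SimpleGraph.dist_self] at a1 a4 h1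
    rw [← e] at a3
    exact σ.tree.connected.dist_eq_zero_iff.1 (by omega)
  exact SimpleGraph.Dart.ext _ _ (Prod.ext e.symm e'.symm)

theorem dir_eq_inl_iff (v : Fin σ.r) (l : Fin n) (δ : σ.T.Dart) :
    σ.dir v l = inl δ ↔ δ.fst = v ∧ σ.comp l ∈ σ.Br δ := by
  unfold dir
  split_ifs with h
  · have := h.choose_spec
    refine ⟨fun e => inl_injective e ▸ this, fun e => congrArg inl ?_⟩
    exact σ.dart_unique (this.1.trans e.1.symm) this.2 e.2
  · exact ⟨nofun, fun e => absurd ⟨δ, e⟩ h⟩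

theorem dir_eq_inr_iff (v : Fin σ.r) (l l' : Fin n) :
    σ.dir v l = inr l' ↔ σ.comp l = v ∧ l = l' := by
  unfold dir
  split_ifs with h
  · refine ⟨nofun, fun e => ?_⟩
    obtain ⟨δ, h1, h2⟩ := h
    exact absurd h2 (e.1.symm ▸ h1 ▸ σ.fst_notMem_Br δ)
  · refine ⟨fun e => ⟨?_, inr_injective e⟩, fun e => congrArg inr e.2⟩
    by_contra e'
    exact h (σ.exists_dart e')

theorem base_dir (v : Fin σ.r) (l : Fin n) : σ.base (σ.dir v l) = v := by
  rcases h : σ.dir v l with δ | l'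
  · exact ((σ.dir_eq_inl_iff v l δ).1 h).1
  · obtain ⟨h1, rfl⟩ := (σ.dir_eq_inr_iff v l l').1 h
    exact h1

theorem dir_comp (l : Fin n) : σ.dir (σ.comp l) l = inr l := by
  exact (σ.dir_eq_inr_iff _ l l).2 ⟨rfl, rfl⟩

theorem dir_symm_iff (δ : σ.T.Dart) (l : Fin n) :
    σ.dir δ.snd l = inl δ.symm ↔ σ.dir δ.fst l ≠ inl δ := by
  rw [Ne, dir_eq_inl_iff, dir_eq_inl_iff, mem_Br_symm]
  simp

theorem mem_bd_Br (δ : σ.T.Dart) (s : σ.Slot) :
    s ∈ σ.bd (σ.Br δ) ↔ s = inl δ.symm ∨ ∃ l, s = inr l ∧ σ.dir δ.fst l = inl δ := by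
  rcases s with ε | l
  · refine ⟨fun h => Or.inl (congrArg inl (σ.eq_symm_of_leaves h.1 (h.2 ε rfl))), ?_⟩
    rintro (h | ⟨l, h, -⟩)
    · obtain rfl := inl_injective h
      refine ⟨σ.snd_mem_Br δ, fun ε' e => ?_⟩
      obtain rfl := inl_injective e
      exact σ.fst_notMem_Br δ
    · cases h
  · simp [bd, dir_eq_inl_iff]

theorem mem_bd_univ (s : σ.Slot) : s ∈ σ.bd Set.univ ↔ ∃ l, s = inr l := by
  rcases s with ε | l <;> simp [bd]

theorem bd_singleton (v : Fin σ.r) : σ.bd {v} = {s | σ.base s = v} := by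
  ext s
  refine ⟨fun h => h.1, fun h => ⟨h, ?_⟩⟩
  rintro δ rfl e
  exact δ.adj.ne (h.trans e.symm)

theorem iSup_eq_branches {L : Type} [CompleteLattice L] (R : Fin σ.r → L) (v : Fin σ.r) :
    ⨆ u, R u = R v ⊔ ⨆ δ : {δ : σ.T.Dart // δ.fst = v}, ⨆ u ∈ σ.Br δ.1, R u := by
  refine le_antisymm (iSup_le fun u => ?_)
    (sup_le (le_iSup R v) (iSup_le fun δ => iSup₂_le fun u _ => le_iSup R u))
  by_cases h : u = v
  · exact h ▸ le_sup_left
  · obtain ⟨δ, h1, h2⟩ := σ.exists_dart h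
    exact le_sup_of_le_right (le_iSup_of_le ⟨δ, h1⟩ (le_iSup₂_of_le u h2 le_rfl))

end Pool.Agent.Adm.Shape
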