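import Pool.Agent.Adq.D3
import Pool.Agent.Adq.Tr1
import Pool.Agent.Adq.CJ
import Pool.Agent.Adq.FFL

/-! Combinatorics of the labels on a Kummer covering of a tree of lines. -/

namespace Pool.Agent.Adm.Shape

open Sum

variable {n : ℕ} (σ : Shape n) {i0 i2 : Fin n} {A Z : Type} [CommGroup A] [Fintype A]
  [DecidableEq A] [AddCommGroup Z]

theorem ram_xor_LS (s : σ.Slot) :
    σ.Ram i0 i2 s ↔ (σ.dir (σ.base s) i0 = s ↔ ¬ σ.dir (σ.base s) i2 = s) := by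
  constructor
  · rintro ⟨h, h1⟩
    exact ⟨fun a b => h (a.trans b.symm), fun b => h1.resolve_right b⟩
  · intro h
    refine ⟨fun e => ?_, by tauto⟩
    rw [e] at h
    tauto

theorem dir_inr_LS (l l' : Fin n) : σ.dir (σ.comp l) l' = inr l ↔ l' = l := by
  rw [dir_eq_inr_iff]
  exact ⟨fun h => h.2, fun h => ⟨h ▸ rfl, h⟩⟩

omit [Fintype A] [DecidableEq A] in
theorem kum_symm (u : A) (δ : σ.T.Dart) :
    σ.kum i0 i2 u (inl δ.symm) = (σ.kum i0 i2 u (inl δ))⁻¹ := by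
  have e : σ.base (inl δ.symm) = δ.snd := rfl
  simp only [kum, e, base_inl, dir_symm_iff]
  by_cases h0 : σ.dir δ.fst i0 = inl δ <;> by_cases h2 : σ.dir δ.fst i2 = inl δ <;> simp [h0, h2]

theorem ram_symm (δ : σ.T.Dart) : σ.Ram i0 i2 (inl δ.symm) ↔ σ.Ram i0 i2 (inl δ) := by
  have e : σ.base (inl δ.symm) = δ.snd := rfl
  rw [ram_xor_LS, ram_xor_LS, e, base_inl, dir_symm_iff, dir_symm_iff]
  tauto

theorem lab_symm (x : YI (Fin n) A i0 i2 → Z) (hx : ∑ y, x y = 0) (δ : σ.T.Dart) (t : A) :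
    σ.lab i0 i2 x (inl δ.symm) t = -σ.lab i0 i2 x (inl δ) t := by
  have e : σ.base (inl δ.symm) = δ.snd := rfl
  have h := Finset.sum_filter_add_sum_filter_not Finset.univ
    (fun y : YI (Fin n) A i0 i2 => σ.dir δ.fst y.1.1 = inl δ) x
  rw [hx] at h
  simp only [lab, e, base_inl, dir_symm_iff, ne_eq, not_not]
  by_cases h0 : σ.dir δ.fst i0 = inl δ <;> by_cases h2 : σ.dir δ.fst i2 = inl δ
  · simp only [h0, h2, not_true, and_self, or_self, if_true, if_false, neg_neg]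
  · simp only [h0, h2, not_true, not_false_iff, and_false, false_and, or_true, true_or, if_true,
      if_false]
    exact eq_neg_of_add_eq_zero_right h
  · simp only [h0, h2, not_true, not_false_iff, and_false, false_and, or_true, true_or, if_true,
      if_false]
    exact eq_neg_of_add_eq_zero_right h
  · simp only [h0, h2, not_false_iff, and_self, or_self, if_true, if_false]

omit [Fintype A] [DecidableEq A] in
theorem kum_of_ram (u : A) {s : σ.Slot} (h : σ.Ram i0 i2 s) :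
    σ.kum i0 i2 u s = u ∨ σ.kum i0 i2 u s = u⁻¹ := by
  rw [ram_xor_LS] at h
  by_cases h0 : σ.dir (σ.base s) i0 = s
  · simp [kum, h0, h.1 h0]
  · have h2 : σ.dir (σ.base s) i2 = s := by tauto
    simp [kum, h0, h2]

omit [Fintype A] [DecidableEq A] in
theorem kum_of_not_ram (u : A) {s : σ.Slot} (h : ¬ σ.Ram i0 i2 s) : σ.kum i0 i2 u s = 1 := by
  rw [ram_xor_LS] at h
  by_cases h0 : σ.dir (σ.base s) i0 = s
  · have h2 : σ.dir (σ.base s) i2 = s := by tauto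
    simp [kum, h0, h2]
  · have h2 : ¬ σ.dir (σ.base s) i2 = s := by tauto
    simp [kum, h0, h2]

omit [Fintype A] [DecidableEq A] in
theorem kum_dir_left (u : A) {v : Fin σ.r} (h : σ.OnPath i0 i2 v) :
    σ.kum i0 i2 u (σ.dir v i0) = u ∧ σ.kum i0 i2 u (σ.dir v i2) = u⁻¹ := by
  have h1 : σ.dir v i0 ≠ σ.dir v i2 := h
  simp [kum, base_dir, h1, h1.symm]

theorem ram_iff {v : Fin σ.r} {s : σ.Slot} (hs : σ.base s = v) :
    σ.Ram i0 i2 s ↔ σ.OnPath i0 i2 v ∧ (s = σ.dir v i0 ∨ s = σ.dir v i2) := by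
  rw [Ram, hs, eq_comm (a := s), eq_comm (a := s)]

omit [Fintype A] [DecidableEq A] in
theorem kumLab_kum (h : i0 ≠ i2) (u : A) :
    KumLab (MonoidHom.id A) (fun l => σ.kum i0 i2 u (inr l)) i0 i2 u := by
  refine ⟨?_, ?_, fun l h0 h2 => ?_⟩
  · simp [kum, dir_inr_LS, h.symm]
  · simp [kum, dir_inr_LS, h]
  · simp [kum, dir_inr_LS, h0.symm, h2.symm]

theorem ram_inr (h : i0 ≠ i2) (l : Fin n) : σ.Ram i0 i2 (inr l) ↔ l = i0 ∨ l = i2 := by
  rw [ram_xor_LS, base_inr, dir_inr_LS, dir_inr_LS]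
  constructor
  · intro h1
    by_cases h0 : i0 = l
    · exact Or.inl h0.symm
    · exact Or.inr (not_not.1 fun h2 => h0 (h1.2 fun h3 => h2 h3.symm))
  · rintro (rfl | rfl)
    · simp [h.symm]
    · simp [h]

theorem lab_inr (h : i0 ≠ i2) (x : YI (Fin n) A i0 i2 → Z) (y : YI (Fin n) A i0 i2) :
    σ.lab i0 i2 x (inr y.1.1) y.1.2 = x y := by
  simp only [lab, base_inr, dir_inr_LS]
  rw [if_neg fun h1 => h (h1.1.trans h1.2.symm)]
  split_ifs with h1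
  · refine Finset.sum_eq_single_of_mem y (by simp) fun y' h2 h3 => absurd ?_ h3
    have h4 := (Finset.mem_filter.1 h2).2
    have h5 : y.1.1 = i0 ∨ y.1.1 = i2 := h1.imp Eq.symm Eq.symm
    exact Subtype.ext (Prod.ext h4 ((y'.2 (h4 ▸ h5)).trans (y.2 h5).symm))
  · refine Finset.sum_eq_single_of_mem y (by simp) fun y' h2 h3 => absurd ?_ h3
    have h4 := (Finset.mem_filter.1 h2).2
    exact Subtype.ext (Prod.ext h4.1 h4.2)

theorem lab_of_ram (x : YI (Fin n) A i0 i2 → Z) {s : σ.Slot} (h : σ.Ram i0 i2 s) (t : A) :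
    σ.lab i0 i2 x s t =
      ∑ y ∈ Finset.univ.filter (fun y : YI (Fin n) A i0 i2 => σ.dir (σ.base s) y.1.1 = s), x y := by
  rw [lab, if_neg fun h1 => h.1 (h1.1.trans h1.2.symm), if_pos h.2]

theorem lab_of_ne (x : YI (Fin n) A i0 i2 → Z) {v : Fin σ.r} {s : σ.Slot} (hs : σ.base s = v)
    (h0 : s ≠ σ.dir v i0) (h2 : s ≠ σ.dir v i2) (t : A) :
    σ.lab i0 i2 x s t = ∑ y ∈ Finset.univ.filter
      (fun y : YI (Fin n) A i0 i2 => σ.dir v y.1.1 = s ∧ y.1.2 = t), x y := by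
  subst hs
  rw [lab, if_neg fun h1 => h0 h1.1.symm, if_neg fun h1 => h1.elim h0.symm h2.symm]

theorem sum_lab_path (x : YI (Fin n) A i0 i2 → Z) (hx : ∑ y, x y = 0) {v : Fin σ.r}
    (hv : σ.OnPath i0 i2 v) :
    σ.lab i0 i2 x (σ.dir v i0) 1 + ∑ s ∈ Finset.univ.filter
      (fun s => σ.base s = v ∧ s ≠ σ.dir v i0 ∧ s ≠ σ.dir v i2), ∑ t, σ.lab i0 i2 x s t =
      -σ.lab i0 i2 x (σ.dir v i2) 1 := by
  have hv' : σ.dir v i0 ≠ σ.dir v i2 := hv
  rw [σ.lab_of_ram x ((σ.ram_iff (σ.base_dir v i0)).2 ⟨hv, Or.inl rfl⟩),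
    σ.lab_of_ram x ((σ.ram_iff (σ.base_dir v i2)).2 ⟨hv, Or.inr rfl⟩), base_dir, base_dir]
  have h1 : ∀ s ∈ Finset.univ.filter
      (fun s => σ.base s = v ∧ s ≠ σ.dir v i0 ∧ s ≠ σ.dir v i2), ∑ t, σ.lab i0 i2 x s t =
      ∑ y, if σ.dir v y.1.1 = s then x y else 0 := by
    intro s hs
    obtain ⟨a, b, c⟩ := (Finset.mem_filter.1 hs).2
    simp only [σ.lab_of_ne x a b c, Finset.sum_filter]
    rw [Finset.sum_comm]
    refine Finset.sum_congr rfl fun y _ => ?_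
    by_cases h : σ.dir v y.1.1 = s <;> simp [h]
  rw [Finset.sum_congr rfl h1, Finset.sum_comm, eq_neg_iff_add_eq_zero, Finset.sum_filter,
    Finset.sum_filter, ← Finset.sum_add_distrib, ← Finset.sum_add_distrib]
  refine Eq.trans (Finset.sum_congr rfl fun y _ => ?_) hx
  rw [Finset.sum_ite_eq]
  by_cases h0 : σ.dir v y.1.1 = σ.dir v i0
  · simp [h0, hv']
  · by_cases h2 : σ.dir v y.1.1 = σ.dir v i2
    · simp [h2, hv'.symm]
    · simp [h0, h2, base_dir]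

theorem sum_lab_off (x : YI (Fin n) A i0 i2 → Z) {v : Fin σ.r} (hv : ¬ σ.OnPath i0 i2 v) (t : A) :
    ∑ s ∈ Finset.univ.filter (fun s => σ.base s = v), σ.lab i0 i2 x s t = 0 := by
  have hv' : σ.dir v i0 = σ.dir v i2 := not_not.1 hv
  have h0 : σ.dir v i0 ∈ Finset.univ.filter (fun s => σ.base s = v) := by simp [base_dir]
  rw [← Finset.add_sum_erase _ _ h0]
  have h1 : ∀ s ∈ (Finset.univ.filter (fun s => σ.base s = v)).erase (σ.dir v i0),
      σ.lab i0 i2 x s t = ∑ y, if σ.dir v y.1.1 = s then (if y.1.2 = t then x y else 0) else 0 := by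
    intro s hs
    obtain ⟨a, b⟩ := Finset.mem_erase.1 hs
    rw [σ.lab_of_ne x (Finset.mem_filter.1 b).2 a (hv' ▸ a), Finset.sum_filter]
    simp only [ite_and]
  rw [Finset.sum_congr rfl h1, Finset.sum_comm, lab, base_dir, if_pos ⟨rfl, hv'.symm⟩,
    neg_add_eq_zero, Finset.sum_filter]
  refine Finset.sum_congr rfl fun y _ => ?_
  rw [Finset.sum_ite_eq]
  by_cases h2 : σ.dir v y.1.1 = σ.dir v i0 <;> simp [h2, base_dir]

theorem WL.isConj {𝔽0 𝔽 : FF} {J I : Type} {x : J → YI (Fin n) 𝔽0.Fˣ i0 i2 → ZMod 𝔽.m}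
    (hx : ∀ j, ∑ y, x j y = 0) {δ : σ.T.Dart} {g g' : WG 𝔽0 𝔽 J I}
    (h : σ.WL i0 i2 𝔽0 𝔽 x (inl δ) g) (h' : σ.WL i0 i2 𝔽0 𝔽 x (inl δ.symm) g') :
    IsConj g⁻¹ g' := by
  have := 𝔽.charP
  obtain ⟨⟨e, he, hge⟩, hr, hl⟩ := h
  obtain ⟨⟨e', he', hge'⟩, hr', hl'⟩ := h'
  have key : ∀ N : ℕ, (g ^ N).right = 1 → (g' ^ N).right = 1 →
      (∀ j t, ((g ^ N).left t j).u = 𝔽.u ^ (σ.lab i0 i2 (x j) (inl δ) t).val) →
      (∀ j t, ((g' ^ N).left t j).u = 𝔽.u ^ (σ.lab i0 i2 (x j) (inl δ.symm) t).val) →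
      ∀ t, IsConj ((g⁻¹ ^ N).left t) ((g' ^ N).left t) := by
    intro N a a' b b' t
    rw [inv_pow, wr_inv_left _ a]
    refine isConj_pi fun j => AffV.isConj ?_ ⟨e, he, ?_⟩ ⟨e', he', ?_⟩
    · rw [Pi.inv_apply, AffV.inv_u, b, b', σ.lab_symm _ (hx j), FF.pow_val_neg]
    · rw [Pi.inv_apply, inv_pow, ← Pi.pow_apply, ← wr_pow_left _ a, pow_right_comm, hge, one_pow]
      exact inv_one
    · rw [← Pi.pow_apply, ← wr_pow_left _ a', pow_right_comm, hge', one_pow]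
      rfl
  by_cases hR : σ.Ram i0 i2 (inl δ)
  · rw [if_pos hR] at hl
    rw [if_pos ((σ.ram_symm δ).2 hR)] at hl'
    refine wr_isConj_of_gen (by rw [RegularWreathProduct.inv_right, hr, hr', kum_symm]) ?_ ?_
    · intro t
      rw [RegularWreathProduct.inv_right, Subgroup.zpowers_inv, hr]
      rcases σ.kum_of_ram 𝔽0.u hR with h1 | h1
      · rw [h1]
        exact 𝔽0.mem_zpowers t
      · rw [h1, Subgroup.zpowers_inv]
        exact 𝔽0.mem_zpowers t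
    · rw [𝔽0.card_units]
      exact key _ (by rw [wr_pow_right, 𝔽0.pow_m]) (by rw [wr_pow_right, 𝔽0.pow_m]) hl hl' 1
  · have hR' : ¬ σ.Ram i0 i2 (inl δ.symm) := fun h1 => hR ((σ.ram_symm δ).1 h1)
    rw [if_neg hR] at hl
    rw [if_neg hR'] at hl'
    rw [σ.kum_of_not_ram _ hR] at hr
    rw [σ.kum_of_not_ram _ hR'] at hr'
    refine wr_isConj_of_right_one (by rw [RegularWreathProduct.inv_right, hr, inv_one]) hr' ?_
    simpa only [pow_one] using key 1 (by rw [pow_one, hr]) (by rw [pow_one, hr']) hl hl'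

end Pool.Agent.Adm.Shape
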