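import Pool.Agent.Adq.ML
import Pool.Agent.Adm.PR

/-! Compositum of a finite family of coverings. -/

namespace Pool.Agent.Adm

open scoped OnePoint

/-- The compositum of a finite family of finite Galois extensions. -/
theorem exists_compositum_FP (F J : Type) [Field F] [Finite J] (L : J → Type) [∀ j, Field (L j)]
    [∀ j, Algebra F (L j)] [∀ j, FiniteDimensional F (L j)] [∀ j, IsGalois F (L j)] :
    ∃ (M : Type) (_ : Field M) (_ : Algebra F M) (_ : FiniteDimensional F M) (_ : IsGalois F M)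
      (f : ∀ j, L j →ₐ[F] M), IntermediateField.adjoin F (⋃ j, Set.range (f j)) = ⊤ := by
  let Ω := AlgebraicClosure F
  let g : ∀ j, L j →ₐ[F] Ω := fun j => IsAlgClosed.lift
  let e : ∀ j, L j ≃ₐ[F] (g j).fieldRange := fun j => AlgEquiv.ofInjectiveField (g j)
  have : ∀ j, FiniteDimensional F (g j).fieldRange := fun j =>
    (e j).toLinearEquiv.finiteDimensional
  have : ∀ j, IsGalois F (g j).fieldRange := fun j => IsGalois.of_algEquiv (e j)
  let M : IntermediateField F Ω := ⨆ j, (g j).fieldRange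
  have hG : IsGalois F M := ⟨⟩
  let f : ∀ j, L j →ₐ[F] M := fun j =>
    (IntermediateField.inclusion (le_iSup (fun j => (g j).fieldRange) j)).comp (e j).toAlgHom
  refine ⟨M, inferInstance, inferInstance, inferInstance, hG, f, ?_⟩
  have h3 : M ≤ (IntermediateField.adjoin F (⋃ j, Set.range (f j))).map M.val := by
    refine iSup_le fun j => ?_
    rintro _ ⟨x, rfl⟩
    exact ⟨f j x, IntermediateField.subset_adjoin F _ (Set.mem_iUnion.2 ⟨j, x, rfl⟩), rfl⟩
  refine top_le_iff.1 fun x _ => ?_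
  obtain ⟨y, hy, e⟩ := h3 x.2
  rwa [← show y = x from Subtype.ext e]

/-- If every member of the family embeds over a given embedding of the base, so does the
compositum. -/
theorem exists_chart_FP {F J M W : Type} [Field F] [Field M] [Field W] [Algebra F M]
    [FiniteDimensional F M] {L : J → Type} [∀ j, Field (L j)] [∀ j, Algebra F (L j)]
    [∀ j, Normal F (L j)] (f : ∀ j, L j →ₐ[F] M)
    (hS : IntermediateField.adjoin F (⋃ j, Set.range (f j)) = ⊤) (j0 : F →+* W)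
    (h : ∀ j, ∃ φ : L j →+* W, ∀ x, φ (algebraMap F (L j) x) = j0 x) :
    ∃ φ : M →+* W, ∀ x, φ (algebraMap F M x) = j0 x := by
  refine exists_extension j0 _ hS fun Ψ hΨ s hs => ?_
  obtain ⟨j, x, rfl⟩ := Set.mem_iUnion.1 hs
  obtain ⟨φ, hφ⟩ := h j
  obtain ⟨σ, hσ⟩ := exists_aut_of_normal (F := F)
    ((algebraMap W (AlgebraicClosure W)).comp φ) (Ψ.comp (f j).toRingHom) (fun y => by
      change Ψ (f j (algebraMap F (L j) y)) = algebraMap W _ (φ (algebraMap F (L j) y))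
      rw [(f j).commutes, hΨ, hφ])
  exact ⟨φ (σ x), hσ x⟩

theorem exists_piCover {k J : Type} [Field k] [Finite J] {B : J → Type} [∀ j, Group (B j)]
    (c : ∀ j, Cover k (B j)) :
    ∃ c' : Cover k (∀ j, B j),
      (∀ j, c'.ι.range.map (Pi.evalMonoidHom B j) = (c j).ι.range) ∧
      (∀ a e ζ g, c'.Mono a e ζ g → ∀ j, (c j).Mono a e ζ (g j)) ∧
      ∀ a e ζ, 0 < e → IsPrimitiveRoot ζ e → (∀ j, ∃ g, (c j).Mono a e ζ g) →
        ∃ g, c'.Mono a e ζ g := by
  obtain ⟨M, _, _, _, _, f, hS⟩ := exists_compositum_FP (RatFunc k) J fun j => (c j).L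
  choose r hr hf using fun j => exists_restrict_PR (f j)
  let c' : Cover k (∀ j, B j) := { L := M, ι := MonoidHom.pi fun j => (c j).ι.comp (r j) }
  refine ⟨c', fun j => ?_, ?_, ?_⟩
  · ext g
    constructor
    · rintro ⟨_, ⟨σ, rfl⟩, rfl⟩
      exact ⟨r j σ, rfl⟩
    · rintro ⟨σ, rfl⟩
      obtain ⟨σ, rfl⟩ := hr j σ
      exact ⟨_, ⟨σ, rfl⟩, rfl⟩
  · rintro a e ζ g ⟨he, hζ, φ, h1, h2, σ, rfl, h4⟩ j
    refine ⟨he, hζ, φ.comp (f j).toRingHom, fun x => ?_, ?_, r j σ, rfl, fun x n => ?_⟩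
    · change φ (f j (algebraMap (RatFunc k) (c j).L _)) = _
      rw [(f j).commutes]
      exact h1 x
    · change φ (f j (algebraMap (RatFunc k) (c j).L _)) = _
      rw [(f j).commutes]
      exact h2
    · change (φ (f j (r j σ x))).coeff n = ζ ^ n * (φ (f j x)).coeff n
      rw [hf]
      exact h4 _ n
  · intro a e ζ he hζ h
    obtain ⟨j0, a0, b0⟩ := exists_chart a e he
    obtain ⟨φ, hφ⟩ := exists_chart_FP f hS j0 fun j => by
      obtain ⟨g, -, -, φ, h1, h2, -⟩ := h j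
      refine ⟨φ, fun x => ?_⟩
      exact DFunLike.congr_fun (ratFunc_hom_ext (φ.comp (algebraMap (RatFunc k) (c j).L)) j0
        (fun y => (h1 y).trans (a0 y).symm) (h2.trans b0.symm)) x
    obtain ⟨σ, m, -⟩ := c'.exists_mono_of_chart a e he ζ hζ φ
      (fun x => (hφ _).trans (a0 x)) ((hφ _).trans b0)
    exact ⟨_, m⟩

theorem exists_piCover_M {k J : Type} [Field k] [Finite J] (θ : K0 →+* k) {B : J → Type}
    [∀ j, Group (B j)] (c : ∀ j, Cover k (B j)) :
    ∃ c' : Cover k (∀ j, B j),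
      (∀ j, c'.ι.range.map (Pi.evalMonoidHom B j) = (c j).ι.range) ∧
      (∀ a g, c'.M θ a g → ∀ j, (c j).M θ a (g j)) ∧
      ∀ a, (∀ j, ∃ g, (c j).M θ a g) → ∃ g, c'.M θ a g := by
  obtain ⟨c', h1, h2, h3⟩ := exists_piCover c
  have := Fintype.ofFinite J
  refine ⟨c', h1, fun a g ⟨e, he, hm⟩ j => ⟨e, he, h2 _ _ _ _ hm j⟩, fun a h => ?_⟩
  choose g hg using h
  choose e he hE using fun j => (hg j).exists_mono
  have ho : Odd (∏ j, e j) := Finset.prod_induction e Odd (fun _ _ => Odd.mul) odd_one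
    fun j _ => he j
  obtain ⟨g', hg'⟩ := h3 a (∏ j, e j) (θ (xi (∏ j, e j))) ho.pos
    ((xi_prim ho).map_of_injective θ.injective)
    fun j => ⟨g j, hE j _ ho (Finset.dvd_prod_of_mem e (Finset.mem_univ j))⟩
  exact ⟨g', _, ho, hg'⟩

theorem VP.pi {k J σ : Type} [Field k] [Finite J] {θ : K0 →+* k} {B : J → Type}
    [∀ j, Group (B j)] {p : σ → OnePoint k} {d : ∀ j, σ → B j} {R : ∀ j, Subgroup (B j)}
    (h : ∀ j, VP θ p (d j) (R j)) :
    ∃ (d' : σ → ∀ j, B j) (R' : Subgroup (∀ j, B j)), VP θ p d' R' ∧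
      (∀ j, R'.map (Pi.evalMonoidHom B j) = R j) ∧ ∀ s j, IsConj (d' s j) (d j s) := by
  choose c hR h0 hp using h
  obtain ⟨c', h1, h2, h3⟩ := exists_piCover_M θ c
  choose d' hd' using fun s => h3 (p s) fun j => ⟨_, hp j s⟩
  refine ⟨d', c'.ι.range, ⟨c', rfl, fun a ha => ?_, hd'⟩, fun j => (h1 j).trans (hR j),
    fun s j => ?_⟩
  · obtain ⟨g, hg⟩ := h3 a fun j => ⟨_, h0 j a ha⟩
    have e : g = 1 := funext fun j => by
      obtain ⟨γ, -, hγ⟩ := (h0 j a ha).unique (h2 a g hg j)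
      rw [hγ, mul_one, inv_mul_cancel]
      rfl
    rwa [e] at hg
  · obtain ⟨γ, -, hγ⟩ := (h2 _ _ (hd' s) j).unique (hp j s)
    exact isConj_iff.2 ⟨γ⁻¹, by rw [hγ, inv_inv]⟩

end Pool.Agent.Adm
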