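import Pool.Agent.Adq.D1

/-! The theorem of Lang for the general linear group. -/

namespace Pool.Agent.Adm

open Polynomial

section Aux

variable {k V : Type} [Field k] [AddCommGroup V] [Module k V]

theorem exists_rel_LG2 [Module.Finite k V] (s : ℕ → V) :
    ∃ n, ∃ a : ℕ → k, s n = ∑ i ∈ Finset.range n, a i • s i := by
  by_contra hne
  push Not at hne
  have key : ∀ n, ∀ g : ℕ → k, ∑ i ∈ Finset.range n, g i • s i = 0 → ∀ i < n, g i = 0 := by
    intro n
    induction n with
    | zero => intro g _ i hi; omega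
    | succ n ih =>
      intro g hg i hi
      rw [Finset.sum_range_succ] at hg
      have h0 : g n = 0 := by
        by_contra h
        refine hne n (fun j => -(g n)⁻¹ * g j) ?_
        have h1 : s n = (g n)⁻¹ • (g n • s n) := by rw [smul_smul, inv_mul_cancel₀ h, one_smul]
        rw [h1, eq_neg_of_add_eq_zero_right hg, smul_neg, Finset.smul_sum, ← Finset.sum_neg_distrib]
        refine Finset.sum_congr rfl fun j _ => ?_
        rw [smul_smul, neg_mul, neg_smul]
      rw [h0, zero_smul, add_zero] at hg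
      rcases Nat.lt_succ_iff_lt_or_eq.1 hi with h | rfl
      · exact ih g hg i h
      · exact h0
  refine Module.Finite.not_linearIndependent_of_infinite (R := k) s ?_
  rw [linearIndependent_iff'']
  intro t g hg h i
  obtain ⟨N, hN⟩ := Finset.exists_nat_subset_range t
  by_cases hi : i ∈ t
  · refine key N g ?_ i (Finset.mem_range.1 (hN hi))
    rw [← h]
    exact (Finset.sum_subset hN fun j _ hj => by rw [hg j hj, zero_smul]).symm
  · exact hg i hi

/-- The polynomials that describe the coordinates of a fixed vector. -/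
noncomputable def polLG2 (q : ℕ) (a : ℕ → k) : ℕ → k[X]
  | 0 => C (a 0) * X ^ q
  | i + 1 => polLG2 q a i ^ q + C (a (i + 1)) * X ^ q

theorem pol_deg_LG2 {q : ℕ} (hq : 1 < q) {a : ℕ → k} (h0 : a 0 ≠ 0) (i : ℕ) :
    q ≤ (polLG2 q a i).natDegree ∧ X ^ q ∣ polLG2 q a i := by
  induction i with
  | zero => exact ⟨by rw [polLG2, natDegree_C_mul_X_pow _ _ h0], Dvd.intro_left _ rfl⟩
  | succ i ih =>
    refine ⟨?_, dvd_add (dvd_pow ih.2 (by omega)) (Dvd.intro_left _ rfl)⟩
    have h1 : q < (polLG2 q a i ^ q).natDegree := by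
      rw [natDegree_pow]
      nlinarith [ih.1]
    rw [polLG2, natDegree_add_eq_left_of_natDegree_lt
      ((natDegree_C_mul_X_pow_le _ _).trans_lt h1)]
    exact h1.le

variable [IsAlgClosed k]

theorem pol_root_LG2 {q : ℕ} (hq : 1 < q) {a : ℕ → k} (h0 : a 0 ≠ 0) (i : ℕ) :
    ∃ x : k, x ≠ 0 ∧ (polLG2 q a i).eval x = x := by
  obtain ⟨h1, R, hR⟩ := pol_deg_LG2 hq h0 i
  have hR0 : R ≠ 0 := by
    rintro rfl
    rw [hR, mul_zero, natDegree_zero] at h1
    omega
  obtain ⟨m, rfl⟩ : ∃ m, q = m + 2 := ⟨q - 2, by omega⟩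
  have hd : (X ^ (m + 1) * R - C 1).degree ≠ 0 := by
    intro h
    have h2 := natDegree_eq_of_degree_eq_some (n := 0) h
    rw [natDegree_sub_C, natDegree_X_pow_mul _ hR0] at h2
    omega
  obtain ⟨x, hx⟩ := IsAlgClosed.exists_root _ hd
  have hx' : x ^ (m + 1) * R.eval x = 1 := by
    simpa [sub_eq_zero] using hx
  refine ⟨x, ?_, ?_⟩
  · rintro rfl
    simp at hx'
  · rw [hR, eval_mul, eval_pow, eval_X]
    linear_combination x * hx'

theorem exists_fixed_LG2 [Module.Finite k V] {q : ℕ} (hq : 1 < q) {σ : k →+* k}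
    (hσ : ∀ x, σ x = x ^ q) (φ : V →ₛₗ[σ] V) (hφ : Function.Injective φ) {v : V} (hv : v ≠ 0) :
    ∃ u, u ≠ 0 ∧ φ u = u := by
  classical
  let s : ℕ → V := fun i => φ^[i] v
  have hs : ∀ i, s (i + 1) = φ (s i) := fun i => Function.iterate_succ_apply' _ _ _
  have hex := exists_rel_LG2 (k := k) s
  obtain ⟨a, ha⟩ := Nat.find_spec hex
  have hmin := fun m (hm : m < Nat.find hex) => Nat.find_min hex hm
  generalize Nat.find hex = n at ha hmin
  obtain _ | m := n
  · exact absurd (by simpa [s] using ha) hv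
  have hm := hmin m (Nat.lt_succ_self m)
  rw [Finset.sum_range_succ'] at ha
  have h0 : a 0 ≠ 0 := by
    intro h
    choose b hb using fun x : k => IsAlgClosed.exists_pow_nat_eq x (n := q) (by omega)
    refine hm ⟨fun i => b (a (i + 1)), hφ ?_⟩
    rw [← hs, ha, h, zero_smul, add_zero, map_sum]
    refine Finset.sum_congr rfl fun i _ => ?_
    rw [map_smulₛₗ, hσ, hb, hs]
  obtain ⟨x, hx0, hx⟩ := pol_root_LG2 hq h0 m
  refine ⟨∑ i ∈ Finset.range (m + 1), (polLG2 q a i).eval x • s i, ?_, ?_⟩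
  · intro h
    rw [Finset.sum_range_succ, hx] at h
    refine hm ⟨fun j => -x⁻¹ * (polLG2 q a j).eval x, ?_⟩
    have h1 : s m = x⁻¹ • (x • s m) := by rw [smul_smul, inv_mul_cancel₀ hx0, one_smul]
    rw [h1, eq_neg_of_add_eq_zero_right h, smul_neg, Finset.smul_sum, ← Finset.sum_neg_distrib]
    refine Finset.sum_congr rfl fun j _ => ?_
    beta_reduce
    rw [smul_smul, neg_mul, neg_smul]
  · rw [map_sum]
    simp only [map_smulₛₗ, hσ, ← hs]
    rw [Finset.sum_range_succ, hx, ha, Finset.sum_range_succ', smul_add, Finset.smul_sum,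
      ← add_assoc, ← Finset.sum_add_distrib]
    congr 1
    · refine Finset.sum_congr rfl fun i _ => ?_
      rw [smul_smul, ← add_smul, polLG2, eval_add, eval_pow, eval_mul, eval_C, eval_pow, eval_X,
        mul_comm (x ^ q)]
    · rw [smul_smul, polLG2, eval_mul, eval_C, eval_pow, eval_X, mul_comm (x ^ q)]

theorem span_fixed_LG2 [Module.Finite k V] {q : ℕ} (hq : 1 < q) {σ : k →+* k}
    (hσ : ∀ x, σ x = x ^ q) (φ : V →ₛₗ[σ] V) (hφ : Function.Injective φ) :
    ⊤ ≤ Submodule.span k {u | φ u = u} := by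
  set U := Submodule.span k {u | φ u = u} with hU
  have key : ∀ u ∈ U, ∀ a : k, φ (a • u) ∈ U ∧ (∃ z ∈ U, a • u = φ z) ∧
      ∃ z ∈ U, a • u = z - φ z := by
    intro u hu
    induction hu using Submodule.span_induction with
    | mem f hf =>
      intro a
      have hf' : φ f = f := hf
      have hfU : f ∈ U := Submodule.subset_span hf
      refine ⟨by rw [map_smulₛₗ, hf']; exact U.smul_mem _ hfU, ?_, ?_⟩
      · obtain ⟨b, hb⟩ := IsAlgClosed.exists_pow_nat_eq a (n := q) (by omega)
        exact ⟨b • f, U.smul_mem _ hfU, by rw [map_smulₛₗ, hf', hσ, hb]⟩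
      · have hd : (X ^ q - X + C a : k[X]).degree ≠ 0 := by
          intro h
          have h2 := natDegree_eq_of_degree_eq_some (n := 0) h
          rw [natDegree_add_C, natDegree_sub_eq_left_of_natDegree_lt (by simpa using hq),
            natDegree_X_pow] at h2
          omega
        obtain ⟨y, hy⟩ := IsAlgClosed.exists_root _ hd
        have hy' : y ^ q - y + a = 0 := by simpa using hy
        refine ⟨y • f, U.smul_mem _ hfU, ?_⟩
        rw [map_smulₛₗ, hf', hσ, ← sub_smul]
        congr 1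
        linear_combination hy'
    | zero => exact fun a => ⟨by simp, ⟨0, U.zero_mem, by simp⟩, ⟨0, U.zero_mem, by simp⟩⟩
    | add x y _ _ hx hy =>
      intro a
      obtain ⟨h1, ⟨z, hz, h2⟩, ⟨z', hz', h3⟩⟩ := hx a
      obtain ⟨g1, ⟨t, ht, g2⟩, ⟨t', ht', g3⟩⟩ := hy a
      refine ⟨by rw [smul_add, map_add]; exact U.add_mem h1 g1,
        ⟨z + t, U.add_mem hz ht, by rw [smul_add, map_add, h2, g2]⟩,
        ⟨z' + t', U.add_mem hz' ht', by rw [smul_add, map_add, h3, g3]; abel⟩⟩
    | smul b x _ hx =>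
      intro a
      rw [smul_smul]
      exact hx (a * b)
  intro v _
  by_contra hv
  have hle : U ≤ U.comap φ := fun u hu => by simpa using (key u hu 1).1
  have hinj : Function.Injective (U.mapQ U φ hle) := by
    rw [injective_iff_map_eq_zero]
    intro x hx
    obtain ⟨x, rfl⟩ := U.mkQ_surjective x
    rw [Submodule.mkQ_apply, Submodule.mapQ_apply, Submodule.Quotient.mk_eq_zero] at hx
    obtain ⟨z, hz, h⟩ := (key _ hx 1).2.1
    rw [one_smul] at h
    rw [Submodule.mkQ_apply, Submodule.Quotient.mk_eq_zero, hφ h]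
    exact hz
  obtain ⟨u, hu0, hu⟩ := exists_fixed_LG2 hq hσ (U.mapQ U φ hle) hinj
    (v := Submodule.Quotient.mk v) (by rwa [Ne, Submodule.Quotient.mk_eq_zero])
  obtain ⟨u, rfl⟩ := U.mkQ_surjective u
  rw [Submodule.mkQ_apply, Submodule.mapQ_apply, Submodule.Quotient.eq] at hu
  obtain ⟨z, hz, h⟩ := (key _ hu 1).2.2
  rw [one_smul] at h
  have h1 : u + z ∈ U := Submodule.subset_span (by
    change φ (u + z) = u + z
    rw [map_add, sub_eq_sub_iff_add_eq_add.1 h, add_comm])
  exact hu0 (by
    rw [Submodule.mkQ_apply, Submodule.Quotient.mk_eq_zero]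
    exact (U.add_mem_iff_left hz).1 h1)

end Aux

theorem exists_sol_basis {k F : Type} [Field k] [IsAlgClosed k] [Field F] [Fintype F] {w : ℕ}
    (θ : F →+* k) (A : Matrix (Fin w) (Fin w) k) (hA : A.det ≠ 0) :
    ∃ c : Fin w → Fin w → k, (∀ i, c i ∈ Sol (Fintype.card F) A) ∧ LinearIndependent k c := by
  let _ := θ.toAlgebra
  let σ : k →+* k := (FiniteField.frobeniusAlgHom F k : k →ₐ[F] k)
  have hσ : ∀ x, σ x = x ^ Fintype.card F := fun _ => rfl
  let φ : (Fin w → k) →ₛₗ[σ] (Fin w → k) :=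
    { toFun := fun c j => ∑ i, A i j * σ (c i)
      map_add' := fun c d => by
        funext j
        simp only [Pi.add_apply, map_add, mul_add, Finset.sum_add_distrib]
      map_smul' := fun a c => by
        funext j
        simp only [Pi.smul_apply, smul_eq_mul, map_mul, Finset.mul_sum]
        exact Finset.sum_congr rfl fun i _ => by ring }
  have hφ : ∀ c j, φ c j = ∑ i, A i j * σ (c i) := fun _ _ => rfl
  have hinj : Function.Injective φ := by
    rw [injective_iff_map_eq_zero]
    intro c hc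
    have h1 : Matrix.vecMul (fun i => σ (c i)) A = 0 := by
      funext j
      rw [← congrFun hc j, hφ, Matrix.vecMul, dotProduct]
      exact Finset.sum_congr rfl fun i _ => mul_comm (σ (c i)) (A i j)
    have h2 := Matrix.eq_zero_of_vecMul_eq_zero hA h1
    funext i
    exact (map_eq_zero σ).1 (congrFun h2 i)
  have hsp := span_fixed_LG2 (Fintype.one_lt_card (α := F)) hσ φ hinj
  let b := Module.Basis.ofSpan hsp
  let e := (Pi.basisFun k (Fin w)).indexEquiv b
  refine ⟨fun i => b (e i), fun i j => ?_, b.linearIndependent.comp e e.injective⟩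
  have h : φ (b (e i)) = b (e i) := Module.Basis.ofSpan_subset hsp ⟨e i, rfl⟩
  exact (congrFun h j).symm

end Pool.Agent.Adm
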