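import Pool.Agent.Adq.D1
import Pool.Agent.Adm.VF5
import Pool.Agent.Adm.EX1

/-! Solutions at infinity of the twisted Artin-Schreier equation. -/

namespace Pool.Agent.Adm

open scoped OnePoint
open Polynomial

variable {k F : Type} [Field k] [Field F] [Fintype F]
  {J : OnePoint k → RatFunc k →+* LaurentSeries k}

/-- The initial part of a series. -/
noncomputable def ini_VU0 {w : ℕ} (c : Fin w → k) : LaurentSeries k :=
  ∑ i : Fin w, HahnSeries.single ((i.1 + 1 : ℕ) : ℤ) (c i)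

theorem ini_coeff_VU0 {w : ℕ} (c : Fin w → k) (j : Fin w) :
    (ini_VU0 c).coeff ((j.1 + 1 : ℕ) : ℤ) = c j := by
  rw [ini_VU0, HahnSeries.coeff_sum, Finset.sum_eq_single_of_mem j (Finset.mem_univ j)
    fun i _ hi => HahnSeries.coeff_single_of_ne fun e => hi (Fin.ext (by omega)),
    HahnSeries.coeff_single_same]

theorem ini_nonpos_VU0 {w : ℕ} (c : Fin w → k) : ∀ n ≤ 0, (ini_VU0 c).coeff n = 0 := by
  intro n hn
  rw [ini_VU0, HahnSeries.coeff_sum]
  exact Finset.sum_eq_zero fun i _ => HahnSeries.coeff_single_of_ne (by omega)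

theorem ini_pow_VU0 (θ : F →+* k) {w : ℕ} (c : Fin w → k) :
    ini_VU0 c ^ Fintype.card F = ∑ i : Fin w,
      HahnSeries.single ((Fintype.card F * (i.1 + 1) : ℕ) : ℤ) (c i ^ Fintype.card F) := by
  have key : ∀ (s : Finset (Fin w)) (g : Fin w → LaurentSeries k),
      (∑ i ∈ s, g i) ^ Fintype.card F = ∑ i ∈ s, g i ^ Fintype.card F := by
    intro s g
    induction s using Finset.induction_on with
    | empty => simp
    | insert a s ha ih =>
      rw [Finset.sum_insert ha, Finset.sum_insert ha,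
        add_pow_card_of_hom (HahnSeries.C.comp θ), ih]
  rw [ini_VU0, key]
  refine Finset.sum_congr rfl fun i _ => ?_
  rw [HahnSeries.single_pow, nsmul_eq_mul, Nat.cast_mul]

theorem IsCharts.coeff_VU0 (hJ : IsCharts J) (θ : F →+* k) (f : k[X]) (w : ℕ)
    (hD : f.natDegree ≤ (w + 1) * (Fintype.card F - 1)) (V : LaurentSeries k)
    (hV : ∀ n ≤ 0, V.coeff n = 0) (n : ℤ) (hn : n ≤ w) :
    (V ^ Fintype.card F * J ∞ (algebraMap k[X] (RatFunc k) f)).coeff n =
      ∑ i : Fin w, V.coeff ((i.1 + 1 : ℕ) : ℤ) ^ Fintype.card F *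
        (J ∞ (algebraMap k[X] (RatFunc k) f)).coeff
          (n - ((Fintype.card F * (i.1 + 1) : ℕ) : ℤ)) := by
  have hq : 1 < Fintype.card F := Fintype.one_lt_card
  obtain ⟨c, hc⟩ : ∃ c : Fin w → k, ∀ i, c i = V.coeff ((i.1 + 1 : ℕ) : ℤ) := ⟨_, fun _ => rfl⟩
  obtain ⟨R, hR⟩ : ∃ R, R = V - ini_VU0 c := ⟨_, rfl⟩
  have hR2 : ∀ m < ((w + 1 : ℕ) : ℤ), R.coeff m = 0 := by
    intro m hm
    rw [hR, HahnSeries.coeff_sub]
    by_cases h0 : m ≤ 0
    · rw [hV m h0, ini_nonpos_VU0 c m h0, sub_zero]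
    · have e : m = (((⟨m.toNat - 1, by omega⟩ : Fin w).1 + 1 : ℕ) : ℤ) := by
        simp only
        omega
      rw [e, ini_coeff_VU0, hc, sub_self]
  have hR3 : (R ^ Fintype.card F * J ∞ (algebraMap k[X] (RatFunc k) f)).coeff n = 0 := by
    refine van_mul_VF5 (van_pow_VF5 hR2 _) (hJ.van_infty_VF5 f hD) n ?_
    obtain ⟨m, hm⟩ : ∃ m, Fintype.card F = m + 1 := ⟨_, (Nat.sub_add_cancel hq.le).symm⟩
    rw [hm, Nat.add_sub_cancel]
    push_cast
    linarith
  have hVR : V = ini_VU0 c + R := by rw [hR, add_sub_cancel]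
  conv_lhs => rw [hVR, add_pow_card_of_hom (HahnSeries.C.comp θ), add_mul, HahnSeries.coeff_add,
    hR3, add_zero, ini_pow_VU0 θ, Finset.sum_mul, HahnSeries.coeff_sum]
  refine Finset.sum_congr rfl fun i _ => ?_
  rw [HahnSeries.coeff_single_mul, hc]

theorem IsCharts.coeff_HW_VU0 (hJ : IsCharts J) (q : ℕ) (f : k[X]) (w : ℕ) (i j : Fin w) :
    (J ∞ (algebraMap k[X] (RatFunc k) f)).coeff
      (((j.1 + 1 : ℕ) : ℤ) - ((q * (i.1 + 1) : ℕ) : ℤ)) = HW q f w i j := by
  rw [hJ.coeff_infty, HW, Matrix.of_apply]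
  generalize q * (i.1 + 1) = N
  by_cases h : j.1 + 1 ≤ N
  · rw [if_pos h, if_pos (by omega)]
    congr 1
    omega
  · rw [if_neg h, if_neg (by omega)]

theorem IsCharts.sol_of_eq (hJ : IsCharts J) (θ : F →+* k) (f P : k[X]) (w : ℕ)
    (hD : f.natDegree ≤ (w + 1) * (Fintype.card F - 1)) (V : LaurentSeries k)
    (hV : ∀ n ≤ 0, V.coeff n = 0)
    (h : V ^ Fintype.card F * J ∞ (algebraMap k[X] (RatFunc k) f) - V =
      J ∞ (algebraMap k[X] (RatFunc k) P)) :
    (fun j : Fin w => V.coeff ((j.1 + 1 : ℕ) : ℤ)) ∈ Sol (Fintype.card F) (HW (Fintype.card F) f w) ∧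
      ((∀ j : Fin w, V.coeff ((j.1 + 1 : ℕ) : ℤ) = 0) → P = 0) := by
  refine ⟨fun j => ?_, fun h0 => ?_⟩
  · have h1 := congrArg (fun x : LaurentSeries k => x.coeff ((j.1 + 1 : ℕ) : ℤ)) h
    simp only [HahnSeries.coeff_sub] at h1
    rw [hJ.coeff_VU0 θ f w hD V hV _ (by have := j.2; omega), hJ.coeff_infty P,
      if_neg (by omega), sub_eq_zero] at h1
    refine h1.symm.trans (Finset.sum_congr rfl fun i _ => ?_)
    rw [hJ.coeff_HW_VU0, mul_comm]
  · ext m
    have h1 := congrArg (fun x : LaurentSeries k => x.coeff (-(m : ℤ))) h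
    simp only [HahnSeries.coeff_sub] at h1
    rw [hJ.coeff_VU0 θ f w hD V hV _ (by omega), hV _ (by omega), hJ.coeff_infty P,
      if_pos (by omega), sub_zero,
      Finset.sum_eq_zero fun i _ => by rw [h0, zero_pow Fintype.card_ne_zero, zero_mul]] at h1
    simpa using h1.symm

theorem IsCharts.exists_of_sol [IsAlgClosed k] (hJ : IsCharts J) (θ : F →+* k) (f : k[X])
    (w : ℕ) (hD : f.natDegree ≤ (w + 1) * (Fintype.card F - 1)) (c : Fin w → k)
    (hc : c ∈ Sol (Fintype.card F) (HW (Fintype.card F) f w)) :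
    ∃ (h : k[X]) (V : LaurentSeries k), (h = 0 ∨ h.natDegree < f.natDegree) ∧
      (∀ n ≤ 0, V.coeff n = 0) ∧ (∀ j : Fin w, V.coeff ((j.1 + 1 : ℕ) : ℤ) = c j) ∧
      V ^ Fintype.card F * J ∞ (algebraMap k[X] (RatFunc k) f) - V =
        J ∞ (algebraMap k[X] (RatFunc k) h) := by
  have hq : 1 < Fintype.card F := Fintype.one_lt_card
  obtain ⟨x, hx⟩ : ∃ x, x = J ∞ (algebraMap k[X] (RatFunc k) f) := ⟨_, rfl⟩
  obtain ⟨h, hh⟩ := hJ.exists_polar_infty (ini_VU0 c ^ Fintype.card F * x - ini_VU0 c)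
  obtain ⟨y, hy⟩ : ∃ y, y = J ∞ (algebraMap k[X] (RatFunc k) h) := ⟨_, rfl⟩
  rw [← hy] at hh
  have hY : ∀ n < ((w + 1 : ℕ) : ℤ),
      (ini_VU0 c ^ Fintype.card F * x - ini_VU0 c - y).coeff n = 0 := by
    intro n hn
    by_cases h0 : n ≤ 0
    · exact hh n h0
    · obtain ⟨j, rfl⟩ : ∃ j : Fin w, n = ((j.1 + 1 : ℕ) : ℤ) :=
        ⟨⟨n.toNat - 1, by omega⟩, by simp only; omega⟩
      rw [HahnSeries.coeff_sub, HahnSeries.coeff_sub, hx, hy,
        hJ.coeff_VU0 θ f w hD _ (ini_nonpos_VU0 c) _ (by omega), hJ.coeff_infty h, if_neg h0,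
        sub_zero, sub_eq_zero, ini_coeff_VU0, hc j]
      refine Finset.sum_congr rfl fun i _ => ?_
      rw [hJ.coeff_HW_VU0, mul_comm, ini_coeff_VU0]
  obtain ⟨a, ha⟩ := Reg.ps_EX1
    (x := HahnSeries.single (((w + 1) * (Fintype.card F - 1) : ℕ) : ℤ) 1 * x) (fun n hn => by
      rw [HahnSeries.coeff_single_mul, hx, hJ.van_infty_VF5 f hD _ (by omega), mul_zero])
  obtain ⟨b, hb⟩ := Reg.ps_EX1 (x := HahnSeries.single (-((w + 1 : ℕ) : ℤ)) 1 *
      (ini_VU0 c ^ Fintype.card F * x - ini_VU0 c - y)) (fun n hn => by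
    rw [HahnSeries.coeff_single_mul, hY _ (by omega), mul_zero])
  obtain ⟨ρ, hρ⟩ := exists_ps_sol θ a b
  have hρ' := congrArg (HahnSeries.ofPowerSeries ℤ k) hρ
  rw [map_sub, map_mul, map_pow, ha, hb] at hρ'
  have hT : ∀ n < ((w + 1 : ℕ) : ℤ), (HahnSeries.single ((w + 1 : ℕ) : ℤ) (1 : k) *
      HahnSeries.ofPowerSeries ℤ k ρ).coeff n = 0 := by
    intro n hn
    rw [HahnSeries.coeff_single_mul, PowerSeries.coeff_coe, if_pos (by omega), mul_zero]
  refine ⟨h, ini_VU0 c + HahnSeries.single ((w + 1 : ℕ) : ℤ) 1 * HahnSeries.ofPowerSeries ℤ k ρ,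
    ?_, fun n hn => ?_, fun j => ?_, ?_⟩
  · by_contra h0
    rw [not_or, not_lt] at h0
    have h1 := hh (-(h.natDegree : ℤ)) (by omega)
    rw [HahnSeries.coeff_sub, HahnSeries.coeff_sub, ini_nonpos_VU0 c _ (by omega), hx, hy,
      van_mul_VF5 (van_pow_VF5 (a := 1) (fun n hn => ini_nonpos_VU0 c n (by omega)) _)
        (hJ.van_infty_VF5 f le_rfl) _ (by omega), hJ.coeff_infty, if_pos (by omega)] at h1
    exact h0.1 (leadingCoeff_eq_zero.1 (by simpa using h1))
  · rw [HahnSeries.coeff_add, ini_nonpos_VU0 c n hn, hT n (by omega), add_zero]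
  · rw [HahnSeries.coeff_add, ini_coeff_VU0, hT _ (by have := j.2; omega), add_zero]
  · have e1 : (HahnSeries.single ((w + 1 : ℕ) : ℤ) (1 : k)) *
        HahnSeries.single (-((w + 1 : ℕ) : ℤ)) 1 = 1 := by
      rw [HahnSeries.single_mul_single, add_neg_cancel, one_mul, HahnSeries.single_zero_one]
    have e2 : (HahnSeries.single ((w + 1 : ℕ) : ℤ) (1 : k)) ^ Fintype.card F =
        HahnSeries.single ((w + 1 : ℕ) : ℤ) 1 *
          HahnSeries.single (((w + 1) * (Fintype.card F - 1) : ℕ) : ℤ) 1 := by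
      obtain ⟨m, hm⟩ : ∃ m, Fintype.card F = m + 1 := ⟨_, (Nat.sub_add_cancel hq.le).symm⟩
      rw [HahnSeries.single_mul_single, HahnSeries.single_pow, one_pow, one_mul, hm,
        Nat.add_sub_cancel, nsmul_eq_mul]
      congr 2
      push_cast
      ring
    rw [add_pow_card_of_hom (HahnSeries.C.comp θ), mul_pow, e2, ← hx, ← hy]
    linear_combination (-HahnSeries.single ((w + 1 : ℕ) : ℤ) (1 : k)) * hρ' -
      (ini_VU0 c ^ Fintype.card F * x - ini_VU0 c - y) * e1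

theorem IsCharts.coeff_eq_zero (hJ : IsCharts J) (θ : F →+* k) (f : k[X]) (hf : f ≠ 0) (w : ℕ)
    (hD : w * (Fintype.card F - 1) < f.natDegree) (V : LaurentSeries k)
    (hV : ∀ n ≤ 0, V.coeff n = 0)
    (h : V ^ Fintype.card F * J ∞ (algebraMap k[X] (RatFunc k) f) - V = 0) (j : Fin w) :
    V.coeff ((j.1 + 1 : ℕ) : ℤ) = 0 := by
  have hq : 1 < Fintype.card F := Fintype.one_lt_card
  by_cases h0 : V = 0
  · rw [h0, HahnSeries.coeff_zero]
  have h1 : J ∞ (algebraMap k[X] (RatFunc k) f) ≠ 0 :=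
    (_root_.map_ne_zero _).2 (RatFunc.algebraMap_ne_zero hf)
  have h2 := congrArg HahnSeries.order (sub_eq_zero.1 h)
  rw [HahnSeries.order_mul (pow_ne_zero _ h0) h1, HahnSeries.order_pow, hJ.eval_VF4,
    order_eval₂_expand_infty 1 one_pos f hf, nsmul_eq_mul] at h2
  refine HahnSeries.coeff_eq_zero_of_lt_order ?_
  obtain ⟨m, hm⟩ : ∃ m, Fintype.card F = m + 1 := ⟨_, (Nat.sub_add_cancel hq.le).symm⟩
  rw [hm, Nat.add_sub_cancel] at hD
  rw [hm] at h2
  have h3 : ((w * m : ℕ) : ℤ) < f.natDegree := by exact_mod_cast hD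
  have h4 : ((j.1 + 1 : ℕ) : ℤ) ≤ w := by have := j.2; omega
  push_cast at h2 h3
  refine h4.trans_lt (lt_of_mul_lt_mul_right (a := (m : ℤ)) ?_ (Int.natCast_nonneg m))
  linarith

/-- Removing the polar parts at finite distance. -/
theorem IsCharts.exists_normal [IsAlgClosed k] (hJ : IsCharts J) (θ : F →+* k) (f : k[X])
    (h : RatFunc k)
    (hloc : ∀ a, ∃ V, V ^ Fintype.card F * J a (algebraMap k[X] (RatFunc k) f) - V = J a h) :
    ∃ (r : RatFunc k) (P : k[X]) (V : LaurentSeries k), (∀ n ≤ 0, V.coeff n = 0) ∧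
      h = r ^ Fintype.card F * algebraMap k[X] (RatFunc k) f - r +
        algebraMap k[X] (RatFunc k) P ∧
      V ^ Fintype.card F * J ∞ (algebraMap k[X] (RatFunc k) f) - V =
        J ∞ (algebraMap k[X] (RatFunc k) P) := by
  classical
  have shift : ∀ (a : OnePoint k) (h r : RatFunc k) (V : LaurentSeries k),
      V ^ Fintype.card F * J a (algebraMap k[X] (RatFunc k) f) - V = J a h →
      (V - J a r) ^ Fintype.card F * J a (algebraMap k[X] (RatFunc k) f) - (V - J a r) =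
        J a (h - (r ^ Fintype.card F * algebraMap k[X] (RatFunc k) f - r)) := by
    intro a h r V hV
    rw [sub_pow_card_of_hom (HahnSeries.C.comp θ), map_sub, map_sub, map_mul, map_pow, ← hV]
    ring
  obtain ⟨S, hS⟩ := hJ.exists_finset h
  induction S using Finset.induction_on generalizing h with
  | empty =>
    obtain ⟨P, rfl⟩ := hJ.exists_poly h fun a => hS a (Finset.notMem_empty a)
    obtain ⟨V, hV⟩ := hloc ∞
    obtain ⟨Q, hQ⟩ := hJ.exists_polar_infty V
    have h1 := shift ∞ _ (algebraMap k[X] (RatFunc k) Q) V hV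
    rw [← map_pow (algebraMap k[X] (RatFunc k)), ← map_mul (algebraMap k[X] (RatFunc k)),
      ← map_sub (algebraMap k[X] (RatFunc k)), ← map_sub (algebraMap k[X] (RatFunc k))] at h1
    refine ⟨algebraMap k[X] (RatFunc k) Q, _, _, hQ, ?_, h1⟩
    rw [map_sub, map_sub, map_mul, map_pow, add_sub_cancel]
  | insert a S ha ih =>
    obtain ⟨V, hV⟩ := hloc a
    obtain ⟨r, hr, hr'⟩ := hJ.exists_polar a V
    obtain ⟨r', P, W, h1, h2, h3⟩ :=
      ih (h - (r ^ Fintype.card F * algebraMap k[X] (RatFunc k) f - r))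
      (fun b => by
        obtain ⟨W, hW⟩ := hloc b
        exact ⟨_, shift b h r W hW⟩)
      (fun b hb => by
        by_cases e : b = a
        · subst e
          rw [← shift b h r V hV]
          exact ((hr.pow _).mul (hJ.reg_poly b f)).sub hr
        · rw [map_sub, map_sub, map_mul, map_pow]
          exact (hS b (by simp [e, hb])).sub
            ((((hr' b e).pow _).mul (hJ.reg_poly b f)).sub (hr' b e)))
    refine ⟨r + r', P, W, h1, ?_, h3⟩
    rw [add_pow_card_of_hom (RatFunc.C.comp θ)]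
    linear_combination h2

end Pool.Agent.Adm
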