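import Pool.Agent.Adq.VE2
import Pool.Agent.Adq.VU0
import Pool.Agent.Adq.LG2
import Pool.Agent.Adq.FP

/-! Existence of tame affine coverings with independent cocycles. -/

namespace Pool.Agent.Adm

open scoped OnePoint
open Polynomial

variable {k I : Type} [Field k] [IsAlgClosed k] [Fintype I]

theorem exists_data_VE {J : OnePoint k → RatFunc k →+* LaurentSeries k} (hJ : IsCharts J)
    (θ : K0 →+* k) (𝔽 : FF) (f : k[X]) (I0 : Finset I) (hw : HWok 𝔽 f I0.card) :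
    ∃ (h : I → k[X]) (V : I → LaurentSeries k),
      (∀ i, h i = 0 ∨ (h i).natDegree < f.natDegree) ∧ (∀ i, ∀ n ≤ 0, (V i).coeff n = 0) ∧
      (∀ i, V i ^ Fintype.card 𝔽.F * J ∞ (algebraMap k[X] (RatFunc k) f) - V i =
        J ∞ (algebraMap k[X] (RatFunc k) (h i))) ∧
      ∀ lam : I → k, (∀ j : Fin I0.card, ∑ i, lam i * (V i).coeff ((j.1 + 1 : ℕ) : ℤ) = 0) →
        ∀ i ∈ I0, lam i = 0 := by
  classical
  have hq : Fintype.card 𝔽.F ≠ 0 := Fintype.card_ne_zero
  rcases hw with hw | ⟨-, h2, h3⟩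
  · refine ⟨fun _ => 0, fun _ => 0, fun _ => Or.inl rfl, fun _ _ _ => by simp, fun _ => ?_, ?_⟩
    · simp [zero_pow hq]
    · intro lam _ i hi
      rw [Finset.card_eq_zero.1 hw] at hi
      exact absurd hi (Finset.notMem_empty i)
  · rw [← 𝔽.card] at h3
    have hD : f.natDegree ≤ (I0.card + 1) * (Fintype.card 𝔽.F - 1) := by
      rw [𝔽.card]; exact h2
    obtain ⟨c, hc, hli⟩ := exists_sol_basis (θ.comp 𝔽.θ) _ h3
    choose h V hh hV hcV hE using
      fun l : Fin I0.card => hJ.exists_of_sol (θ.comp 𝔽.θ) f I0.card hD (c l) (hc l)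
    let e : I0 ≃ Fin I0.card := I0.equivFin
    refine ⟨fun i => if hi : i ∈ I0 then h (e ⟨i, hi⟩) else 0,
      fun i => if hi : i ∈ I0 then V (e ⟨i, hi⟩) else 0, fun i => ?_, fun i => ?_, fun i => ?_, ?_⟩
    · by_cases hi : i ∈ I0
      · simp only [dif_pos hi]; exact hh _
      · exact Or.inl (dif_neg hi)
    · by_cases hi : i ∈ I0
      · simp only [dif_pos hi]; exact hV _
      · simp only [dif_neg hi]; intro n _; simp
    · by_cases hi : i ∈ I0
      · simp only [dif_pos hi]; exact hE _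
      · simp only [dif_neg hi]; simp [zero_pow hq]
    · intro lam hl i hi
      have key : ∑ l : Fin I0.card, lam (e.symm l) • c l = 0 := by
        funext j
        have h1 := hl j
        rw [← Finset.sum_subset (Finset.subset_univ I0) (fun i _ hi => by
          simp only [dif_neg hi]; simp), ← Finset.sum_coe_sort I0, ← e.symm.sum_comp] at h1
        rw [Finset.sum_apply, Pi.zero_apply, ← h1]
        refine Finset.sum_congr rfl fun l _ => ?_
        simp only [dif_pos (e.symm l).2, Pi.smul_apply, smul_eq_mul, Subtype.coe_eta, Equiv.apply_symm_apply, hcV]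
      have := Fintype.linearIndependent_iff.1 hli (fun l => lam (e.symm l)) key (e ⟨i, hi⟩)
      simpa using this

theorem exists_affV (θ : K0 →+* k) (𝔽 : FF) (f : k[X]) (hf : f ≠ 0) (I0 : Finset I)
    (hw : HWok 𝔽 f I0.card) (hm : ∀ a, f.rootMultiplicity a < 𝔽.m) :
    ∃ c : Cover k (AffV 𝔽.F I), (∀ a, ∃ g, c.M θ a g) ∧
      (∀ (a : k) g, c.M θ a g → g.u = 𝔽.u ^ f.rootMultiplicity a) ∧
      (∀ g, c.M θ ∞ g → g.u * 𝔽.u ^ f.natDegree = 1) ∧ IndOn (c.ι.range : Set (AffV 𝔽.F I)) I0 := by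
  obtain ⟨J, hJ⟩ := exists_isCharts k
  obtain ⟨h, V, hh, hV, hE, hind⟩ := exists_data_VE hJ θ 𝔽 f I0 hw
  obtain ⟨c, h1, h2, h3, h4⟩ := exists_affV_of_sol hJ θ 𝔽 f hf h V hE
  refine ⟨c, h1, h2, h3, fun lam β hb i hi => ?_⟩
  obtain ⟨r, hr⟩ := h4 lam β hb
  have hq : 1 < Fintype.card 𝔽.F := Fintype.one_lt_card
  have hD : I0.card * (Fintype.card 𝔽.F - 1) < f.natDegree := by
    rcases hw with hw | ⟨h5, -, -⟩
    · rw [Finset.card_eq_zero.1 hw] at hi
      exact absurd hi (Finset.notMem_empty i)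
    · rw [𝔽.card]; exact h5
  have hz : ∑ i, C (θ (𝔽.θ (lam i))) * h i = 0 := by
    by_contra hne
    refine no_rational_sol (Fintype.card 𝔽.F) hq f _ hf hne ?_ ?_ r hr
    · refine natDegree_lt_natDegree hne ((degree_sum_le _ _).trans_lt ?_)
      refine (Finset.sup_lt_iff (bot_lt_iff_ne_bot.2 (degree_ne_bot.2 hf))).2 fun i _ => ?_
      rw [← smul_eq_C_mul]
      refine (degree_smul_le _ _).trans_lt ?_
      rcases hh i with h0 | h0
      · rw [h0, degree_zero]; exact bot_lt_iff_ne_bot.2 (degree_ne_bot.2 hf)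
      · exact degree_lt_degree h0
    · intro a
      rw [𝔽.card]; exact hm a
  have : CharP k 2 := charP_of_injective_ringHom θ.injective 2
  have : CharP (LaurentSeries k) 2 :=
    charP_of_injective_ringHom (HahnSeries.C (Γ := ℤ) (R := k)).injective 2
  have hpow : ∀ x : 𝔽.F, (HahnSeries.C (θ (𝔽.θ x)) : LaurentSeries k) ^ Fintype.card 𝔽.F =
      HahnSeries.C (θ (𝔽.θ x)) := by
    intro x
    rw [← map_pow, ← map_pow, ← map_pow, FiniteField.pow_card]
  have hsum : (∑ i, (HahnSeries.C (θ (𝔽.θ (lam i))) : LaurentSeries k) * V i) ^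
      Fintype.card 𝔽.F = ∑ i, HahnSeries.C (θ (𝔽.θ (lam i))) * V i ^ Fintype.card 𝔽.F := by
    conv_lhs => rw [𝔽.card, sum_pow_char_pow, ← 𝔽.card]
    exact Finset.sum_congr rfl fun i _ => by rw [mul_pow, hpow]
  have hhom : (∑ i, (HahnSeries.C (θ (𝔽.θ (lam i))) : LaurentSeries k) * V i) ^
      Fintype.card 𝔽.F * J ∞ (algebraMap k[X] (RatFunc k) f) -
      ∑ i, (HahnSeries.C (θ (𝔽.θ (lam i))) : LaurentSeries k) * V i = 0 := by
    have h0 := congrArg (fun P : k[X] => J ∞ (algebraMap k[X] (RatFunc k) P)) hz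
    simp only [map_sum, map_mul, map_zero, RatFunc.algebraMap_C, (hJ ∞).1] at h0
    rw [hsum, Finset.sum_mul, ← Finset.sum_sub_distrib, ← h0]
    exact Finset.sum_congr rfl fun i _ => by rw [← hE i]; ring
  have hco : ∀ n : ℤ, (∑ i, (HahnSeries.C (θ (𝔽.θ (lam i))) : LaurentSeries k) * V i).coeff n =
      ∑ i, θ (𝔽.θ (lam i)) * (V i).coeff n := by
    intro n
    rw [HahnSeries.coeff_sum]
    exact Finset.sum_congr rfl fun i _ => by
      rw [HahnSeries.C_mul_eq_smul, HahnSeries.coeff_smul, smul_eq_mul]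
  have h5 := hind (fun i => θ (𝔽.θ (lam i))) (fun j => by
    rw [← hco]
    refine hJ.coeff_eq_zero (θ.comp 𝔽.θ) f hf I0.card hD _ (fun n hn => ?_) hhom j
    rw [hco]
    exact Finset.sum_eq_zero fun i _ => by rw [hV i n hn, mul_zero]) i hi
  simpa using h5

theorem exists_affV_family {J : Type} [Finite J] (θ : K0 →+* k) (𝔽 : FF) (f : J → k[X])
    (hf : ∀ j, f j ≠ 0) (I0 : J → Finset I) (hw : ∀ j, HWok 𝔽 (f j) (I0 j).card)
    (hm : ∀ j a, (f j).rootMultiplicity a < 𝔽.m) :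
    ∃ c : Cover k (J → AffV 𝔽.F I), (∀ a, ∃ g, c.M θ a g) ∧
      (∀ (a : k) g, c.M θ a g → ∀ j, (g j).u = 𝔽.u ^ (f j).rootMultiplicity a) ∧
      (∀ g, c.M θ ∞ g → ∀ j, (g j).u * 𝔽.u ^ (f j).natDegree = 1) ∧
      ∀ j, IndOn {b | ∃ g ∈ c.ι.range, g j = b} (I0 j) := by
  choose c h1 h2 h3 h4 using fun j => exists_affV θ 𝔽 (f j) (hf j) (I0 j) (hw j) (hm j)
  obtain ⟨c', g1, g2, g3⟩ := exists_piCover_M θ (B := fun _ : J => AffV 𝔽.F I) c
  refine ⟨c', fun a => g3 a fun j => h1 j a, fun a g hg j => h2 j a _ (g2 _ g hg j),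
    fun g hg j => h3 j _ (g2 _ g hg j), fun j => ?_⟩
  have e : {b | ∃ g ∈ c'.ι.range, g j = b} = ((c j).ι.range : Set (AffV 𝔽.F I)) := by
    rw [← g1 j]
    ext b
    simp only [Set.mem_ofPred_eq, SetLike.mem_coe, Subgroup.mem_map, Pi.evalMonoidHom_apply]
  rw [e]
  exact h4 j

end Pool.Agent.Adm
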