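import Pool.Agent.Adq.D1

/-! Cocycles: functoriality, Frobenius, lower bounds, generation. -/

namespace Pool.Agent.Adm

variable {G H F : Type} [Group G] [Group H] [Field F]

theorem Z1.map_one {χ : G →* Fˣ} {b : G → F} (hb : b ∈ Z1 χ) : b 1 = 0 := by
  have h := hb 1 1
  rw [one_mul, _root_.map_one, Units.val_one, one_mul] at h
  linear_combination -h

theorem Z1.map_inv {χ : G →* Fˣ} {b : G → F} (hb : b ∈ Z1 χ) (g : G) :
    b g⁻¹ = -((χ g)⁻¹ : Fˣ) * b g := by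
  have h := hb g g⁻¹
  rw [mul_inv_cancel, Z1.map_one hb, _root_.map_inv] at h
  linear_combination -h

theorem Z1.comp {χ : H →* Fˣ} {b : H → F} (hb : b ∈ Z1 χ) (π : G →* H) :
    (fun g => b (π g)) ∈ Z1 (χ.comp π) := by
  intro g h
  simp only [map_mul, MonoidHom.comp_apply]
  exact hb _ _

theorem Z1.cobdry (χ : G →* Fˣ) (β : F) : (fun g => β * (1 - χ g)) ∈ Z1 χ := by
  intro g h
  simp only [map_mul, Units.val_mul]
  ring

/-- The affine action defined by a cocycle. -/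
theorem Z1.exists_aff {χ : G →* Fˣ} {b : G → F} (hb : b ∈ Z1 χ) :
    ∃ ψ : G →* Aff F, ∀ g, (ψ g).u = χ g ∧ (ψ g).b = b g := by
  refine ⟨MonoidHom.mk' (fun g => ⟨χ g, b g⟩) fun g h => Aff.ext (map_mul χ g h) (hb g h),
    fun g => ⟨rfl, rfl⟩⟩

/-- The zero set of a cocycle is a subgroup. -/
theorem Z1.exists_ker {χ : G →* Fˣ} {b : G → F} (hb : b ∈ Z1 χ) :
    ∃ K : Subgroup G, ∀ g, g ∈ K ↔ b g = 0 := by
  refine ⟨{ carrier := {g | b g = 0}, mul_mem' := ?_, one_mem' := Z1.map_one hb, inv_mem' := ?_ },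
    fun g => Iff.rfl⟩
  · intro g h hg hh
    change b (g * h) = 0
    rw [hb g h, show b g = 0 from hg, show b h = 0 from hh, mul_zero, add_zero]
  · intro g hg
    change b g⁻¹ = 0
    rw [Z1.map_inv hb, show b g = 0 from hg, mul_zero]

/-- Pulling back cocycles. -/
def pull_ZL (χ : H →* Fˣ) (π : G →* H) : Z1 χ →ₗ[F] Z1 (χ.comp π) where
  toFun b := ⟨fun g => b.1 (π g), Z1.comp b.2 π⟩
  map_add' _ _ := rfl
  map_smul' _ _ := rfl

theorem h1_le_of_restr [Finite H] (χ : G →* Fˣ) (f : H →* G)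
    (h : ∀ b ∈ Z1 χ, (∀ x, b (f x) = 0) → b = 0) : h1 χ ≤ h1 (χ.comp f) := by
  refine LinearMap.finrank_le_finrank_of_injective (f := pull_ZL χ f) ?_
  rw [injective_iff_map_eq_zero]
  intro b hb
  refine Subtype.ext (h b.1 b.2 fun x => ?_)
  exact congrFun (congrArg Subtype.val hb) x

theorem h1_le_comp [Finite G] (χ : H →* Fˣ) (π : G →* H) (hπ : Function.Surjective π) :
    h1 χ ≤ h1 (χ.comp π) := by
  refine h1_le_of_restr χ π fun b _ hb => ?_
  funext y
  obtain ⟨x, rfl⟩ := hπ y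
  exact hb x

theorem card_Z1 [Finite G] [Fintype F] (χ : G →* Fˣ) :
    Nat.card (Z1 χ) = Fintype.card F ^ h1 χ := by
  rw [Module.natCard_eq_pow_finrank (K := F), Nat.card_eq_fintype_card]
  rfl

theorem h1_pow_two_pow [Finite G] [Finite F] [CharP F 2] (χ : G →* Fˣ) (a : ℕ) :
    h1 (χ ^ 2 ^ a) = h1 χ := by
  have := Fintype.ofFinite F
  have : Fact (Nat.Prime 2) := ⟨Nat.prime_two⟩
  let φ : F →+* F := iterateFrobenius F 2 a
  have hφ : ∀ x, φ x = x ^ 2 ^ a := fun x => iterateFrobenius_def 2 a x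
  have hinj : Function.Injective φ := φ.injective
  have hsurj : Function.Surjective φ := Finite.surjective_of_injective hinj
  have hχ : ∀ g, (((χ ^ 2 ^ a) g : Fˣ) : F) = φ (χ g) := by
    intro g
    rw [hφ, MonoidHom.pow_apply, Units.val_pow_eq_pow_val]
  let T : Z1 χ → Z1 (χ ^ 2 ^ a) := fun b => ⟨fun g => φ (b.1 g), fun g h => by
    beta_reduce
    rw [b.2 g h, map_add, map_mul, hχ]⟩
  have hT : Function.Bijective T := by
    constructor
    · intro b b' h
      refine Subtype.ext (funext fun g => hinj ?_)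
      exact congrFun (congrArg Subtype.val h) g
    · intro c
      choose b hb using fun g => hsurj (c.1 g)
      refine ⟨⟨b, fun g h => hinj ?_⟩, Subtype.ext (funext hb)⟩
      rw [map_add, map_mul, hb, hb, hb, c.2 g h, hχ]
  have hc := Nat.card_eq_of_bijective T hT
  rw [card_Z1, card_Z1] at hc
  exact (Nat.pow_right_injective (Fintype.one_lt_card (α := F)) hc).symm

theorem le_h1_of_indOn [Finite G] {I : Type} [Fintype I] (ψ : G →* AffV F I) (I0 : Finset I)
    (h : IndOn (Set.range ψ) I0) (hne : AffV.lin.comp ψ ≠ 1) :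
    I0.card + 1 ≤ h1 (AffV.lin.comp ψ) := by
  classical
  have hco : ∀ i : I, (fun g => (ψ g).b i) ∈ Z1 (AffV.lin.comp ψ) := by
    intro i g g'
    simp only [map_mul, AffV.mul_b, MonoidHom.comp_apply, AffV.lin_apply]
  let v : Option I0 → Z1 (AffV.lin.comp ψ) := fun o =>
    match o with
    | none => ⟨_, Z1.cobdry (AffV.lin.comp ψ) 1⟩
    | some i => ⟨_, hco i⟩
  have hv : LinearIndependent F v := by
    rw [Fintype.linearIndependent_iff]
    intro c hc
    have hg : ∀ g, c none * (1 - (ψ g).u) + ∑ i : I0, c (some i) * (ψ g).b i = 0 := by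
      intro g
      have h1 := congrFun (congrArg Subtype.val hc) g
      rw [Fintype.sum_option] at h1
      simpa [v] using h1
    let lam : I → F := fun i => if hi : i ∈ I0 then c (some ⟨i, hi⟩) else 0
    have hsum : ∀ g, ∑ i, lam i * (ψ g).b i = ∑ i : I0, c (some i) * (ψ g).b i := by
      intro g
      rw [← Finset.sum_subset (Finset.subset_univ I0), ← Finset.sum_coe_sort]
      · refine Finset.sum_congr rfl fun i _ => ?_
        simp only [lam, dif_pos i.2]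
      · intro i _ hi
        simp only [lam, dif_neg hi, zero_mul]
    have hlam := h lam (-c none) (by
      rintro _ ⟨g, rfl⟩
      rw [hsum]
      linear_combination hg g)
    have hs : ∀ i : I0, c (some i) = 0 := by
      intro i
      have := hlam i i.2
      simpa only [lam, dif_pos i.2] using this
    intro o
    cases o with
    | some i => exact hs i
    | none =>
      by_contra h0
      apply hne
      ext g
      have h1 := hg g
      simp only [hs, zero_mul, Finset.sum_const_zero, add_zero] at h1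
      have h2 := (mul_eq_zero.1 h1).resolve_left h0
      change ((ψ g).u : F) = ((1 : Fˣ) : F)
      rw [Units.val_one]
      linear_combination -h2
  have := hv.fintype_card_le_finrank
  rwa [Fintype.card_option, Fintype.card_coe] at this

theorem eq_zero_of_h1_le_one [Finite G] (χ : G →* Fˣ) (h : h1 χ ≤ 1) (g0 : G) (hg : χ g0 ≠ 1)
    {b : G → F} (hb : b ∈ Z1 χ) (h0 : b g0 = 0) : b = 0 := by
  have hne : (1 : F) - χ g0 ≠ 0 := by
    intro h1
    apply hg
    apply Units.ext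
    rw [Units.val_one]
    linear_combination -h1
  obtain ⟨v, hv⟩ := finrank_le_one_iff.1 h
  obtain ⟨c, hc⟩ := hv ⟨b, hb⟩
  obtain ⟨d, hd⟩ := hv ⟨_, Z1.cobdry χ 1⟩
  have hc0 : c * v.1 g0 = b g0 := congrFun (congrArg Subtype.val hc) g0
  have hd0 : d * v.1 g0 = 1 * (1 - χ g0) := congrFun (congrArg Subtype.val hd) g0
  have hv0 : v.1 g0 ≠ 0 := by
    intro h1
    rw [h1, mul_zero, one_mul] at hd0
    exact hne hd0.symm
  rw [h0] at hc0
  have hc1 := (mul_eq_zero.1 hc0).resolve_right hv0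
  rw [hc1, zero_smul] at hc
  exact (congrArg Subtype.val hc).symm

theorem eq_zero_of_h1_eq_zero [Finite G] (χ : G →* Fˣ) (h : h1 χ = 0) {b : G → F}
    (hb : b ∈ Z1 χ) : b = 0 := by
  have h1 := finrank_zero_iff_forall_zero.1 h ⟨b, hb⟩
  exact congrArg Subtype.val h1

theorem IndOn.mono {I : Type} [Fintype I] {R R' : Set (AffV F I)} {I0 : Finset I}
    (h : IndOn R I0) (hR : R ⊆ R') : IndOn R' I0 :=
  fun lam β hl => h lam β fun g hg => hl g (hR hg)

theorem IndOn.conj {I : Type} [Fintype I] {R R' : Set (AffV F I)} {I0 : Finset I}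
    (h : IndOn R I0) (γ : AffV F I) (hR : ∀ g ∈ R, γ⁻¹ * g * γ ∈ R') : IndOn R' I0 := by
  intro lam β hl i hi
  have h0 : (γ.u : F) ≠ 0 := γ.u.ne_zero
  have h1 := h (fun j => lam j * γ.u) (β - ∑ j, lam j * γ.b j) (fun g hg => by
    have h2 := hl _ (hR g hg)
    have hu : ((γ⁻¹ * g * γ).u : F) = g.u := by
      simp only [AffV.mul_u, AffV.inv_u]
      rw [mul_comm γ.u⁻¹, inv_mul_cancel_right]
    have hb : ∀ j, lam j * (γ⁻¹ * g * γ).b j =
        lam j * γ.u * g.b j + lam j * γ.b j * (1 - g.u) := by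
      intro j
      simp only [AffV.mul_b, AffV.inv_b, Units.val_inv_eq_inv_val]
      field_simp
      ring
    rw [hu] at h2
    simp only [hb] at h2
    rw [Finset.sum_add_distrib, ← Finset.sum_mul] at h2
    linear_combination h2) i hi
  exact (mul_eq_zero.1 h1).resolve_right h0

theorem IndOn.of_forall {I : Type} [Fintype I] {R : Set (AffV F I)} {I0 : Finset I}
    (h : ∀ i ∈ I0, ∃ I1, i ∈ I1 ∧ IndOn R I1) : IndOn R I0 := by
  intro lam β hl i hi
  obtain ⟨I1, h1, h2⟩ := h i hi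
  exact h2 lam β hl i h1

/-- Generators of the kernel of a character on a group generated by a centre and branches. -/
theorem ker_le_of_pieces {A D : Type} [CommGroup A] (χ0 : G →* A) (H0 : Subgroup G)
    (Hd : D → Subgroup G) (g : D → G) (hg0 : ∀ δ, g δ ∈ H0) (hgd : ∀ δ, g δ ∈ Hd δ)
    (hgen : H0 ⊔ ⨆ δ, Hd δ = ⊤) (hz : ∀ δ, ∀ x ∈ Hd δ, χ0 x ∈ Subgroup.zpowers (χ0 (g δ)))
    (K : Subgroup G) (h0 : H0 ⊓ χ0.ker ≤ K)
    (hd : ∀ δ, ∀ γ ∈ H0, ∀ x ∈ Hd δ, χ0 x = 1 → γ⁻¹ * x * γ ∈ K) : χ0.ker ≤ K := by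
  let K' : Subgroup G :=
    { carrier := {x | χ0 x = 1 ∧ ∀ γ ∈ H0, γ⁻¹ * x * γ ∈ K}
      mul_mem' := by
        rintro x y ⟨hx, hx'⟩ ⟨hy, hy'⟩
        refine ⟨by rw [map_mul, hx, hy, one_mul], fun γ hγ => ?_⟩
        have := K.mul_mem (hx' γ hγ) (hy' γ hγ)
        rwa [show γ⁻¹ * x * γ * (γ⁻¹ * y * γ) = γ⁻¹ * (x * y) * γ by group] at this
      one_mem' := ⟨map_one _, fun γ _ => by simp⟩
      inv_mem' := by
        rintro x ⟨hx, hx'⟩
        refine ⟨by rw [map_inv, hx, inv_one], fun γ hγ => ?_⟩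
        have := K.inv_mem (hx' γ hγ)
        rwa [show (γ⁻¹ * x * γ)⁻¹ = γ⁻¹ * x⁻¹ * γ by group] at this }
  have hK' : ∀ x, x ∈ K' ↔ χ0 x = 1 ∧ ∀ γ ∈ H0, γ⁻¹ * x * γ ∈ K := fun x => Iff.rfl
  have hconj : ∀ x ∈ K', ∀ γ ∈ H0, γ⁻¹ * x * γ ∈ K' := by
    intro x hx γ hγ
    obtain ⟨h1, h2⟩ := (hK' x).1 hx
    refine (hK' _).2 ⟨by simp [h1], fun γ' hγ' => ?_⟩
    have := h2 _ (H0.mul_mem hγ hγ')
    rwa [show (γ * γ')⁻¹ * x * (γ * γ') = γ'⁻¹ * (γ⁻¹ * x * γ) * γ' by group] at this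
  let S : Subgroup G :=
    { carrier := {x | ∃ h ∈ H0, x * h⁻¹ ∈ K'}
      mul_mem' := by
        rintro x y ⟨h, hh, hx⟩ ⟨h', hh', hy⟩
        refine ⟨h * h', H0.mul_mem hh hh', ?_⟩
        have := K'.mul_mem hx (hconj _ hy _ (H0.inv_mem hh))
        rwa [show x * h⁻¹ * (h⁻¹⁻¹ * (y * h'⁻¹) * h⁻¹) = x * y * (h * h')⁻¹ by group] at this
      one_mem' := ⟨1, H0.one_mem, by simp⟩
      inv_mem' := by
        rintro x ⟨h, hh, hx⟩
        refine ⟨h⁻¹, H0.inv_mem hh, ?_⟩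
        have := hconj _ (K'.inv_mem hx) _ hh
        rwa [show h⁻¹ * (x * h⁻¹)⁻¹ * h = x⁻¹ * h⁻¹⁻¹ by group] at this }
  have hS : ⊤ ≤ S := by
    rw [← hgen]
    refine sup_le (fun x hx => ⟨x, hx, by simp⟩) (iSup_le fun δ x hx => ?_)
    obtain ⟨n, hn⟩ := Subgroup.mem_zpowers_iff.1 (hz δ x hx)
    refine ⟨g δ ^ n, H0.zpow_mem (hg0 δ) n, ?_⟩
    have h1 : χ0 (x * (g δ ^ n)⁻¹) = 1 := by
      rw [map_mul, map_inv, map_zpow, hn, mul_inv_cancel]
    exact (hK' _).2 ⟨h1, fun γ hγ => hd δ γ hγ _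
      ((Hd δ).mul_mem hx ((Hd δ).inv_mem ((Hd δ).zpow_mem (hgd δ) n))) h1⟩
  intro x hx
  obtain ⟨h, hh, hk⟩ := hS (Subgroup.mem_top x)
  obtain ⟨h1, h2⟩ := (hK' _).1 hk
  have h3 : χ0 h = 1 := by
    rw [map_mul, map_inv, MonoidHom.mem_ker.1 hx, one_mul, inv_eq_one] at h1
    exact h1
  have h4 := h2 1 H0.one_mem
  rw [inv_one, one_mul, mul_one] at h4
  have h5 := K.mul_mem h4 (h0 ⟨hh, MonoidHom.mem_ker.2 h3⟩)
  rwa [inv_mul_cancel_right] at h5

end Pool.Agent.Adm
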