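import Pool.Agent.Adq.RM
import Pool.Agent.Adq.LS
import Pool.Agent.Adq.VE
import Pool.Agent.Adq.VPL
import Pool.Agent.Adq.ZL

/-! Coverings of a component off the path. -/

namespace Pool.Agent.Adm

open scoped OnePoint

theorem Pt.exists_vertex_off {n : ℕ} {σ : Shape n} (z : Pt σ) (𝔽0 𝔽 : FF) {i0 i2 : Fin n}
    {J I : Type} [Finite J] [Fintype I] (x : J → YI (Fin n) 𝔽0.Fˣ i0 i2 → ZMod 𝔽.m)
    {v : Fin σ.r} (hv : ¬ σ.OnPath i0 i2 v) (I0 : J → 𝔽0.Fˣ → Finset I)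
    (hw : ∀ j t, HWok 𝔽 (z.fO 𝔽0 (fun s t => (σ.lab i0 i2 (x j) s t).val) v t) (I0 j t).card) :
    ∃ (g : σ.Slot → WG 𝔽0 𝔽 J I) (R : Subgroup (WG 𝔽0 𝔽 J I)), z.VCat v g R ∧
      (∀ s, σ.base s = v → σ.WL i0 i2 𝔽0 𝔽 x s (g s)) ∧ ∀ j t, RI R j t (I0 j t) := by
  have := 𝔽.charP
  let y : J → σ.Slot → 𝔽0.Fˣ → ℕ := fun j s t => (σ.lab i0 i2 (x j) s t).val
  have hm : ∀ t j a, (z.fO 𝔽0 (y j) v t).rootMultiplicity a < 𝔽.m := by
    intro t j a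
    by_cases h : ∃ s, σ.base s = v ∧ a = z.x s
    · obtain ⟨s, hs, rfl⟩ := h
      rw [(z.fO_mult 𝔽0 (y j) v t).1 s hs]
      exact ZMod.val_lt _
    · rw [(z.fO_mult 𝔽0 (y j) v t).2 a fun s hs e => h ⟨s, hs, e⟩]
      exact 𝔽.m_pos
  choose c' h1 h2 h3 h4 using fun t => exists_affV_family (I := I) z.θ 𝔽
    (fun j => z.fO 𝔽0 (y j) v t) (fun j => (z.fO_monic 𝔽0 (y j) v t).ne_zero)
    (fun j => I0 j t) (fun j => hw j t) (hm t)
  obtain ⟨c, g1, g2, g3⟩ := exists_piCover_M z.θ (B := fun _ : 𝔽0.Fˣ => J → AffV 𝔽.F I) c'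
  obtain ⟨i, hi⟩ := exists_wr_base (A := 𝔽0.Fˣ) (B := J → AffV 𝔽.F I)
  choose b hb using fun a => g3 a fun t => h1 t a
  refine ⟨fun s => i (b (z.x s)), (c.map i).ι.range,
    ⟨c.map i, rfl, fun a ha => ?_, fun s => (hb _).map i⟩, fun s hs => ?_, fun j t => ?_⟩
  · have e : b a = 1 := by
      obtain ⟨e, he, hE⟩ := (hb a).pow_eq_one
      funext t j
      refine AffV.eq_one ?_ ⟨e, he, congrFun (congrFun hE t) j⟩
      induction a using OnePoint.rec with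
      | infty =>
        have h5 := h3 t _ (g2 _ _ (hb ∞) t) j
        have h6 : 𝔽.u ^ (z.fO 𝔽0 (y j) v t).natDegree = 𝔽.u ^ 0 := by
          rw [𝔽.pow_eq_pow_iff, z.fO_natDegree, Nat.cast_sum, Nat.cast_zero,
            ← σ.sum_lab_off (x j) hv t]
          exact Finset.sum_congr rfl fun s _ => ZMod.natCast_zmod_val _
        rwa [h6, pow_zero, mul_one] at h5
      | coe a =>
        have h5 := h2 t a _ (g2 _ _ (hb a) t) j
        rwa [(z.fO_mult 𝔽0 (y j) v t).2 a fun s hs e => ha ⟨⟨s, hs⟩, by rw [e]⟩, pow_zero] at h5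
    have h5 := (hb a).map i
    rwa [e, map_one] at h5
  · have hr : ¬ σ.Ram i0 i2 s := fun h => hv ((σ.ram_iff hs).1 h).1
    refine ⟨((hb _).map i).pow_eq_one, ?_, fun j t => ?_⟩
    · rw [(hi _).2, σ.kum_of_not_ram _ hr]
    · rw [if_neg hr, pow_one, (hi _).1, h2 t (z.x s) _ (g2 _ _ (hb _) t) j,
        (z.fO_mult 𝔽0 (y j) v t).1 s hs]
  · refine (h4 t j).mono ?_
    rintro _ ⟨g, hg, rfl⟩
    rw [← g1 t] at hg
    obtain ⟨g', hg', rfl⟩ := hg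
    refine ⟨i g', ?_, (hi _).2, by rw [(hi _).1]; rfl⟩
    rw [c.map_range]
    exact ⟨g', hg', rfl⟩

end Pool.Agent.Adm
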