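import Pool.Agent.Adm.TR0
import Pool.Agent.Adm.GA

/-! Change of the local parameter. -/

namespace Pool.Agent.Adm

open scoped OnePoint

variable {k : Type} [Field k] [IsAlgClosed k]

omit [IsAlgClosed k] in
theorem powL_coe_SUB (e : ℕ) (he : 0 < e) (u : PowerSeries k) :
    powL e he (u : LaurentSeries k) =
      ((PowerSeries.expand e he.ne' u : PowerSeries k) : LaurentSeries k) := by
  have h0 : (0 : ℤ) < e := by exact_mod_cast he
  ext n
  by_cases hn : (e : ℤ) ∣ n
  · obtain ⟨l, rfl⟩ := hn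
    rw [powL_coeff_mul, PowerSeries.coeff_coe, PowerSeries.coeff_coe, Int.natAbs_mul,
      Int.natAbs_natCast, PowerSeries.coeff_expand_mul]
    by_cases hl : l < 0
    · rw [if_pos hl, if_pos (mul_neg_of_pos_of_neg h0 hl)]
    · rw [if_neg hl, if_neg (not_lt.2 (mul_nonneg h0.le (not_lt.1 hl)))]
  · rw [powL_coeff_of_not_dvd _ _ _ _ hn, PowerSeries.coeff_coe,
      PowerSeries.coeff_expand_of_not_dvd _ _ _ fun h => hn (Int.natCast_dvd.2 h), ite_self]

omit [IsAlgClosed k] in
theorem exists_subst_SUB (φ : PowerSeries k) (hs : PowerSeries.HasSubst φ) (hne : φ ≠ 0) :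
    ∃ Φ : LaurentSeries k →+* LaurentSeries k, ∀ f : PowerSeries k,
      Φ (f : LaurentSeries k) = ((PowerSeries.subst φ f : PowerSeries k) : LaurentSeries k) := by
  let S : PowerSeries k →+* PowerSeries k :=
    (PowerSeries.substAlgHom (R := k) hs : PowerSeries k →ₐ[k] PowerSeries k)
  have hS : ∀ f, S f = PowerSeries.subst φ f := fun f =>
    congrFun (PowerSeries.coe_substAlgHom (R := k) hs) f
  have hSX : S PowerSeries.X = φ := by rw [hS, PowerSeries.subst_X hs]
  let ι : PowerSeries k →+* LaurentSeries k := HahnSeries.ofPowerSeries ℤ k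
  have hι : Function.Injective ι := HahnSeries.ofPowerSeries_injective
  have hιφ : ι φ ≠ 0 := fun h0 => hne (hι (by rw [h0, map_zero]))
  have hunit : ∀ y : Submonoid.powers (PowerSeries.X : PowerSeries k),
      IsUnit ((ι.comp S) y) := by
    rintro ⟨y, n, rfl⟩
    simp only [RingHom.comp_apply, map_pow, hSX]
    exact (pow_ne_zero n hιφ).isUnit
  refine ⟨IsLocalization.lift hunit, fun f => ?_⟩
  rw [← hS]
  exact IsLocalization.lift_eq hunit f

omit [IsAlgClosed k] in
theorem hom_ext_SUB {W : Type} [CommRing W] (f g : LaurentSeries k →+* W)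
    (h : ∀ u : PowerSeries k, f (u : LaurentSeries k) = g (u : LaurentSeries k)) : f = g := by
  apply IsLocalization.ringHom_ext (Submonoid.powers (PowerSeries.X : PowerSeries k))
  exact RingHom.ext h

theorem exists_phi_SUB (e : ℕ) (he : 0 < e) (hek : (e : k) ≠ 0) (w : PowerSeries k)
    (hw : PowerSeries.coeff 1 w ≠ 0) :
    ∃ φ : PowerSeries k, PowerSeries.constantCoeff φ = 0 ∧ PowerSeries.coeff 1 φ ≠ 0 ∧
      PowerSeries.C (PowerSeries.constantCoeff w) + φ ^ e = PowerSeries.expand e he.ne' w ∧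
      ∀ ζ : k, ζ ^ e = 1 → PowerSeries.rescale ζ φ = ζ • φ := by
  have h1 : PowerSeries.constantCoeff (PowerSeries.mk fun p => PowerSeries.coeff (p + 1) w) ≠ 0 := by
    simpa using hw
  obtain ⟨v, hv⟩ := exists_pow_eq_ps e hek _ h1
  have hv0 : PowerSeries.constantCoeff v ≠ 0 := by
    intro h0
    apply h1
    rw [← hv, map_pow, h0, zero_pow he.ne']
  refine ⟨PowerSeries.X * PowerSeries.expand e he.ne' v, by simp, ?_, ?_, fun ζ hζ => ?_⟩
  · rw [PowerSeries.coeff_succ_X_mul, PowerSeries.coeff_zero_eq_constantCoeff_apply,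
      PowerSeries.constantCoeff_expand]
    exact hv0
  · conv_rhs => rw [PowerSeries.eq_X_mul_shift_add_const w]
    rw [map_add, map_mul, PowerSeries.expand_C, PowerSeries.expand_X, ← hv, map_pow, mul_pow,
      add_comm]
  · rw [map_mul, rescale_expand_TR0 e he.ne' ζ hζ, PowerSeries.rescale_X,
      PowerSeries.smul_eq_C_mul, mul_assoc]

/-- An automorphism of k((z)) sending a + z^e to w(z^e). -/
theorem exists_reparam_equiv (e : ℕ) (he : 0 < e) (hek : (e : k) ≠ 0) (w : PowerSeries k)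
    (hw : PowerSeries.coeff 1 w ≠ 0) :
    ∃ Φ : LaurentSeries k ≃+* LaurentSeries k, (∀ c, Φ (HahnSeries.C c) = HahnSeries.C c) ∧
      Φ (HahnSeries.C (PowerSeries.constantCoeff w) + HahnSeries.single (e : ℤ) 1) =
        powL e he (w : LaurentSeries k) ∧
      ∀ (ζ : k) (h : ζ ≠ 0), ζ ^ e = 1 → ∀ x, Φ (scL ζ h x) = scL ζ h (Φ x) := by
  obtain ⟨φ, hφ0, hφ1, hφe, hφζ⟩ := exists_phi_SUB e he hek w hw
  have hs : PowerSeries.HasSubst φ := PowerSeries.HasSubst.of_constantCoeff_zero' hφ0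
  have hu : IsUnit (PowerSeries.coeff 1 φ) := hφ1.isUnit
  have hs' := PowerSeries.HasSubst.substInvOfIsUnit φ hu
  have hl := PowerSeries.subst_substInvOfIsUnit_left φ hφ0 hu
  have hr := PowerSeries.subst_substInvOfIsUnit_right φ hφ0 hu
  have hne : φ ≠ 0 := fun h0 => hφ1 (by rw [h0, map_zero])
  have hne' : φ.substInvOfIsUnit hu ≠ 0 := fun h0 => by
    have h1 := PowerSeries.coeff_one_substInvOfIsUnit φ hu
    rw [h0, map_zero] at h1
    exact Units.ne_zero _ h1.symm
  obtain ⟨Φ, hΦ⟩ := exists_subst_SUB φ hs hne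
  obtain ⟨Ψ, hΨ⟩ := exists_subst_SUB _ hs' hne'
  have e1 : Φ.comp Ψ = RingHom.id _ := hom_ext_SUB _ _ fun u => by
    rw [RingHom.comp_apply, hΨ, hΦ, PowerSeries.subst_comp_subst_apply hs' hs, hl,
      PowerSeries.X_subst, RingHom.id_apply]
  have e2 : Ψ.comp Φ = RingHom.id _ := hom_ext_SUB _ _ fun u => by
    rw [RingHom.comp_apply, hΦ, hΨ, PowerSeries.subst_comp_subst_apply hs hs', hr,
      PowerSeries.X_subst, RingHom.id_apply]
  have hC : ∀ c : k, Φ (HahnSeries.C c) = HahnSeries.C c := fun c => by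
    rw [← HahnSeries.ofPowerSeries_C, hΦ, PowerSeries.subst_C]
    rfl
  refine ⟨RingEquiv.ofRingHom Φ Ψ e1 e2, hC, ?_, fun ζ h hζ => ?_⟩
  · change Φ _ = _
    have hX : Φ (HahnSeries.single (e : ℤ) 1) = ((φ ^ e : PowerSeries k) : LaurentSeries k) := by
      rw [← HahnSeries.ofPowerSeries_X_pow, map_pow, map_pow, map_pow, hΦ, PowerSeries.subst_X hs]
    rw [map_add, hC, hX, powL_coe_SUB, ← hφe, map_add, HahnSeries.ofPowerSeries_C]
  · have hz : PowerSeries.HasSubst (ζ • PowerSeries.X : PowerSeries k) :=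
      PowerSeries.HasSubst.smul_X' ζ
    have : Φ.comp (scL ζ h) = (scL ζ h).comp Φ := hom_ext_SUB _ _ fun f => by
      rw [RingHom.comp_apply, RingHom.comp_apply, scL_coe, hΦ, hΦ, scL_coe,
        PowerSeries.rescale_eq_subst ζ f, PowerSeries.rescale_eq_subst,
        PowerSeries.subst_comp_subst_apply hz hs, PowerSeries.subst_comp_subst_apply hs hz,
        ← PowerSeries.rescale_eq_subst ζ φ, hφζ ζ hζ, PowerSeries.subst_smul hs,
        PowerSeries.subst_X hs]
    exact fun x => DFunLike.congr_fun this x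

theorem Cover.mono_iff_rmono {G : Type} [Group G] (c : Cover k G) {e : ℕ} (he : 0 < e) {ζ : k}
    (hζ : IsPrimitiveRoot ζ e) (w : PowerSeries k) (hw : PowerSeries.coeff 1 w ≠ 0) (g : G) :
    c.Mono (PowerSeries.constantCoeff w : k) e ζ g ↔
      c.RMono HahnSeries.C (powL e he (w : LaurentSeries k)) (scL ζ (hζ.ne_zero he.ne')) g := by
  have : NeZero e := ⟨he.ne'⟩
  have hek : (e : k) ≠ 0 := (hζ.neZero').out
  obtain ⟨Φ, hC, hX, hs⟩ := exists_reparam_equiv e he hek w hw
  have hs' := hs ζ (hζ.ne_zero he.ne') hζ.pow_eq_one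
  constructor
  · intro h
    have h1 := h.rmono.comp (Φ : LaurentSeries k →+* LaurentSeries k) _ hs'
    have e1 : (Φ : LaurentSeries k →+* LaurentSeries k).comp HahnSeries.C = HahnSeries.C :=
      RingHom.ext hC
    have e2 : (Φ : LaurentSeries k →+* LaurentSeries k)
        (expand ((PowerSeries.constantCoeff w : k) : OnePoint k) e) =
        powL e he (w : LaurentSeries k) := hX
    rwa [e1, e2] at h1
  · intro h
    have h1 := h.comp (Φ.symm : LaurentSeries k →+* LaurentSeries k)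
      (scL ζ (hζ.ne_zero he.ne')) fun x => by
        change Φ.symm _ = scL ζ _ (Φ.symm x)
        rw [RingEquiv.symm_apply_eq, hs', RingEquiv.apply_symm_apply]
    have e1 : (Φ.symm : LaurentSeries k →+* LaurentSeries k).comp HahnSeries.C = HahnSeries.C :=
      RingHom.ext fun x => by
        change Φ.symm (HahnSeries.C x) = HahnSeries.C x
        rw [RingEquiv.symm_apply_eq, hC]
    have e2 : (Φ.symm : LaurentSeries k →+* LaurentSeries k) (powL e he (w : LaurentSeries k)) =
        expand ((PowerSeries.constantCoeff w : k) : OnePoint k) e := by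
      change Φ.symm _ = _
      rw [RingEquiv.symm_apply_eq]
      exact hX.symm
    rw [e1, e2] at h1
    exact h1.mono he hζ

omit [IsAlgClosed k] in
theorem scL_powL_self (e : ℕ) (he : 0 < e) (ζ : k) (h : ζ ≠ 0) (hζ : ζ ^ e = 1)
    (x : LaurentSeries k) : scL ζ h (powL e he x) = powL e he x := by
  rw [scL_powL]
  congr 1
  ext n
  rw [scL_coeff, hζ, one_zpow, one_mul]

theorem exists_root_series (N : ℕ) (hN : (N : k) ≠ 0) (α : k) (hα : α ≠ 0) :
    ∃ w : PowerSeries k, PowerSeries.constantCoeff w = α ∧ PowerSeries.coeff 1 w ≠ 0 ∧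
      w ^ N = PowerSeries.C (α ^ N) + PowerSeries.X := by
  obtain ⟨v, hv⟩ := exists_pow_eq_ps N hN (PowerSeries.C (α ^ N) + PowerSeries.X)
    (by simpa using fun h => absurd h hα)
  have h1 : PowerSeries.constantCoeff v ^ N = α ^ N := by
    rw [← map_pow, hv]
    simp
  have hN0 : N ≠ 0 := by
    rintro rfl
    simp at hN
  have h2 : PowerSeries.constantCoeff v ≠ 0 := fun h0 => by
    rw [h0, zero_pow hN0] at h1
    exact pow_ne_zero N hα h1.symm
  have h3 : (PowerSeries.C (α / PowerSeries.constantCoeff v) * v) ^ N =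
      PowerSeries.C (α ^ N) + PowerSeries.X := by
    rw [mul_pow, ← map_pow, div_pow, h1, div_self (pow_ne_zero N hα), map_one, one_mul, hv]
  refine ⟨PowerSeries.C (α / PowerSeries.constantCoeff v) * v, ?_, fun h0 => ?_, h3⟩
  · rw [map_mul, PowerSeries.constantCoeff_C, div_mul_cancel₀ _ h2]
  · have h4 := congrArg (PowerSeries.coeff 1) h3
    rw [PowerSeries.coeff_one_pow, h0, map_add, PowerSeries.coeff_C, if_neg one_ne_zero,
      PowerSeries.coeff_one_X, mul_zero, zero_mul, zero_add] at h4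
    exact zero_ne_one h4

theorem root_const_SUB {W : Type} [Field W] (φ : k →+* W) (N : ℕ) (hN : N ≠ 0) (y : W)
    (h : y ^ N = 1) : ∃ ω : k, ω ^ N = 1 ∧ y = φ ω := by
  let := φ.toAlgebra
  have hi : IsIntegral k y :=
    ⟨Polynomial.X ^ N - Polynomial.C 1, Polynomial.monic_X_pow_sub_C 1 hN, by simp [h]⟩
  obtain ⟨ω, hω⟩ := minpoly.mem_range_of_degree_eq_one k y
    (IsAlgClosed.degree_eq_one_of_irreducible k (minpoly.irreducible hi))
  have hω' : φ ω = y := hω
  exact ⟨ω, φ.injective (by rw [map_pow, map_one, hω', h]), hω'.symm⟩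

theorem root_eq_series (N : ℕ) (hN : (N : k) ≠ 0) (e : ℕ) (he : 0 < e) (a : k) (ha : a ≠ 0)
    (η : LaurentSeries k) (h : η ^ N = HahnSeries.C a + HahnSeries.single (e : ℤ) 1) :
    ∃ w : PowerSeries k, η = powL e he (w : LaurentSeries k) ∧ PowerSeries.coeff 1 w ≠ 0 ∧
      PowerSeries.constantCoeff w ^ N = a := by
  have hN0 : N ≠ 0 := by
    rintro rfl
    simp at hN
  obtain ⟨α, hα⟩ := IsAlgClosed.exists_pow_nat_eq a (Nat.pos_of_ne_zero hN0)
  have hα0 : α ≠ 0 := by
    rintro rfl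
    rw [zero_pow hN0] at hα
    exact ha hα.symm
  obtain ⟨w, hw0, hw1, hw⟩ := exists_root_series N hN α hα0
  have hwne : (w : LaurentSeries k) ≠ 0 := fun h0 => hw1 (by
    rw [HahnSeries.ofPowerSeries_injective (h0.trans (map_zero _).symm), map_zero])
  have hp : powL e he (w : LaurentSeries k) ≠ 0 := (map_ne_zero _).2 hwne
  have h1 : powL e he (w : LaurentSeries k) ^ N = η ^ N := by
    rw [← map_pow, ← map_pow (HahnSeries.ofPowerSeries ℤ k), hw, map_add, map_add, hα,
      HahnSeries.ofPowerSeries_C, HahnSeries.ofPowerSeries_X, powL_C, powL_single, mul_one, h]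
  obtain ⟨ω, hω, hy⟩ := root_const_SUB (HahnSeries.C : k →+* LaurentSeries k) N hN0
    (η / powL e he (w : LaurentSeries k)) (by rw [div_pow, ← h1, div_self (pow_ne_zero N hp)])
  have hω0 : ω ≠ 0 := by
    rintro rfl
    rw [zero_pow hN0] at hω
    exact zero_ne_one hω
  refine ⟨PowerSeries.C ω * w, ?_, ?_, ?_⟩
  · rw [map_mul, map_mul, HahnSeries.ofPowerSeries_C, powL_C, ← hy, div_mul_cancel₀ _ hp]
  · rw [PowerSeries.coeff_C_mul]
    exact mul_ne_zero hω0 hw1
  · rw [map_mul, PowerSeries.constantCoeff_C, mul_pow, hω, one_mul, hw0, hα]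

theorem root_eq_single (N : ℕ) (hN : (N : k) ≠ 0) (n : ℤ) (η : LaurentSeries k)
    (h : η ^ N = HahnSeries.single n 1) :
    ∃ (n' : ℤ) (ω : k), n = N * n' ∧ ω ^ N = 1 ∧ η = HahnSeries.single n' ω := by
  have hN0 : N ≠ 0 := by
    rintro rfl
    simp at hN
  have h1 : n = N * η.order := by
    have := congrArg HahnSeries.order h
    rw [HahnSeries.order_pow, HahnSeries.order_single one_ne_zero, nsmul_eq_mul] at this
    exact this.symm
  obtain ⟨ω, hω, hy⟩ := root_const_SUB (HahnSeries.C : k →+* LaurentSeries k) N hN0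
    (η * HahnSeries.single (-η.order) 1) (by
      rw [mul_pow, h, HahnSeries.single_pow, HahnSeries.single_mul_single, one_pow, one_mul,
        nsmul_eq_mul, h1, mul_neg, add_neg_cancel]
      rfl)
  refine ⟨η.order, ω, h1, hω, ?_⟩
  have h2 := congrArg (· * HahnSeries.single η.order (1 : k)) hy
  simp only [mul_assoc, HahnSeries.single_mul_single, neg_add_cancel, mul_one,
    HahnSeries.C_apply, zero_add] at h2
  rw [← h2]
  exact (mul_one η).symm

end Pool.Agent.Adm
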