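import Pool.Agent.Adq.IN0
import Pool.Agent.Adq.SUB

/-! Monodromy of the induced covering. -/

namespace Pool.Agent.Adm

open scoped OnePoint

theorem Cover.RMono.chart_IN {k G W : Type} [Field k] [Group G] [CommRing W] {c : Cover k G}
    {φ : k →+* W} {u : W} {s : W →+* W} {g : G} (h : c.RMono φ u s g) :
    c.RMono φ u (RingHom.id W) 1 := by
  obtain ⟨j, h1, h2, -⟩ := h
  exact ⟨j, h1, h2, 1, map_one _, fun _ => rfl⟩

theorem C_mul_single_IN {k : Type} [Field k] (c : k) (n : ℤ) :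
    (HahnSeries.C c : LaurentSeries k) * HahnSeries.single n 1 = HahnSeries.single n c := by
  rw [HahnSeries.C_apply, HahnSeries.single_mul_single, zero_add, mul_one]

theorem prim_IN {k : Type} [Field k] (θ : K0 →+* k) {e : ℕ} (he : Odd e) :
    IsPrimitiveRoot (θ (xi e)) e := (xi_prim he).map_of_injective θ.injective

/-- The local behaviour of the induced covering. -/
def Loc_IN {k B : Type} [Field k] [Group B] (c' : Cover k B) (θ : K0 →+* k) (𝔽0 : FF)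
    (c : Cover k (RegularWreathProduct B 𝔽0.Fˣ)) : Prop :=
  ∀ (a : OnePoint k) (e : ℕ) (he : Odd e) (η : LaurentSeries k) (r : 𝔽0.Fˣ) (n : ℕ) (ξ : k)
    (hξ : ξ ≠ 0), η ≠ 0 → η ^ 𝔽0.m = expand a e →
    (∀ t : 𝔽0.Fˣ, c'.RMono HahnSeries.C (HahnSeries.C (θ (𝔽0.θ t)) * η) (RingHom.id _) 1) →
    scL (θ (xi e)) ((prim_IN θ he).ne_zero he.pos.ne') η = HahnSeries.C (θ (𝔽0.θ r)) * η →
    r ^ n = 1 → θ (xi e) ^ n = ξ →
    ∃ g, c.M θ a g ∧ g.right = r ∧ ∀ t : 𝔽0.Fˣ,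
      c'.RMono HahnSeries.C (HahnSeries.C (θ (𝔽0.θ t)) * η) (scL ξ hξ) ((g ^ n).left t)

theorem exists_loc_IN {k B : Type} [Field k] [Group B] (c' : Cover k B) (θ : K0 →+* k)
    (𝔽0 : FF) : ∃ c : Cover k (RegularWreathProduct B 𝔽0.Fˣ),
      (∀ b ∈ c'.ι.range, ∃ g ∈ c.ι.range, g.right = 1 ∧ g.left 1 = b) ∧ Loc_IN c' θ 𝔽0 c := by
  obtain ⟨c, y, h1, h2, h3, h4, h5⟩ := c'.exists_induced θ 𝔽0
  refine ⟨c, h3, fun a e he η r n ξ hξ h0 hη hch hr hn hζ => ?_⟩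
  obtain ⟨j, hC, hy⟩ := h4 _ HahnSeries.C η hch
  obtain ⟨σ, hm, hs⟩ := c.exists_mono_of_chart a e he.pos _ (prim_IN θ he) j hC
    (by rw [← h1, map_pow, hy, hη])
  have h6 : (c.ι σ).right = r := by
    have h7 := hs y
    rw [h2, map_mul, hC, hy, hr] at h7
    exact 𝔽0.theta_injective θ (HahnSeries.C_injective (mul_right_cancel₀ h0 h7))
  have h7 : ∀ (i : ℕ) (x : c.L), j ((σ ^ i) x) =
      scL (θ (xi e) ^ i) (pow_ne_zero _ ((prim_IN θ he).ne_zero he.pos.ne')) (j x) := by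
    intro i
    induction i with
    | zero => intro x; simp
    | succ i ih =>
      intro x
      rw [pow_succ', AlgEquiv.mul_apply, hs, ih, scL_scL]
      simp only [pow_succ']
  subst hζ
  refine ⟨c.ι σ, ⟨e, he, hm⟩, h6, fun t => ?_⟩
  rw [← map_pow c.ι, ← hy]
  refine h5 _ _ j _ (σ ^ n) hC (h7 n) ?_ t
  rw [h2, map_pow, wr_pow_right, h6, hn]
  simp

theorem Loc_IN.ram {k B : Type} [Field k] [IsAlgClosed k] [Group B] {c' : Cover k B}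
    {θ : K0 →+* k} {𝔽0 : FF} {c : Cover k (RegularWreathProduct B 𝔽0.Fˣ)}
    (h : Loc_IN c' θ 𝔽0 c) {a : OnePoint k} {b : B} (hb : c'.M θ a b) (ε : ℤ) (hε : ε * ε = 1)
    (ha : ∀ e : ℕ, expand a e = HahnSeries.single (ε * e) 1)
    (hsc : ∀ (e : ℕ) (he : 0 < e) (ζ : k) (hζ : IsPrimitiveRoot ζ e) (s : k) (g : B), s ≠ 0 →
      c'.RMono HahnSeries.C (HahnSeries.single (ε * e) s) (scL ζ (hζ.ne_zero he.ne')) g →
        c'.Mono a e ζ g) :
    ∃ g, c.M θ a g ∧ g.right = 𝔽0.u ^ ε ∧ ∀ t, c'.M θ a ((g ^ 𝔽0.m).left t) := by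
  obtain ⟨E, hE, hb⟩ := hb
  have hm := 𝔽0.m_odd
  have ht : ∀ t : 𝔽0.Fˣ, θ (𝔽0.θ t) ≠ 0 := fun t => by simp
  obtain ⟨g, h1, h2, h3⟩ := h a (E * 𝔽0.m) (hE.mul hm) (HahnSeries.single (ε * E) 1) (𝔽0.u ^ ε)
    𝔽0.m _ ((prim_IN θ hE).ne_zero hE.pos.ne') (HahnSeries.single_ne_zero one_ne_zero)
    (by
      rw [ha, HahnSeries.single_pow, one_pow]
      congr 2
      push_cast
      ring)
    (fun t => by
      obtain ⟨l, hl⟩ := IsAlgClosed.exists_pow_nat_eq (θ (𝔽0.θ t)) hE.pos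
      have l0 : l ≠ 0 := by
        rintro rfl
        exact ht t (by rw [← hl, zero_pow hE.pos.ne'])
      have h4 := hb.rmono.chart_IN.comp (scL (l ^ ε) (zpow_ne_zero _ l0)) (RingHom.id _)
        fun _ => rfl
      have h5 : (scL (l ^ ε) (zpow_ne_zero _ l0)).comp HahnSeries.C = HahnSeries.C :=
        RingHom.ext fun x => scL_C _ (zpow_ne_zero _ l0) x
      rwa [h5, ha, scL_single, ← zpow_mul, ← mul_assoc, hε, one_mul, zpow_natCast, hl, mul_one,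
        ← C_mul_single_IN] at h4)
    (by
      rw [scL_single, C_mul_single_IN, mul_one, mul_comm ε, zpow_mul, zpow_natCast, ← map_pow,
        mul_comm E, xi_pow hm hE, ← 𝔽0.theta_u, Units.val_zpow_eq_zpow_val, map_zpow₀ 𝔽0.θ,
        map_zpow₀ θ])
    (𝔽0.pow_m _) (by rw [← map_pow, xi_pow hE hm])
  refine ⟨g, h1, h2, fun t => ⟨E, hE, hsc E hE.pos _ (prim_IN θ hE) _ _ (ht t) ?_⟩⟩
  rw [← C_mul_single_IN]
  exact h3 t

theorem Loc_IN.unr {k B : Type} [Field k] [IsAlgClosed k] [Group B] {c' : Cover k B}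
    {θ : K0 →+* k} {𝔽0 : FF} {c : Cover k (RegularWreathProduct B 𝔽0.Fˣ)}
    (h : Loc_IN c' θ 𝔽0 c) (hT : ∀ a, ∃ b, c'.M θ a b) (α : k) (hα : α ≠ 0) :
    ∃ g, c.M θ ((α ^ 𝔽0.m : k) : OnePoint k) g ∧ g.right = 1 ∧
      ∀ t : 𝔽0.Fˣ, c'.M θ ((θ (𝔽0.θ t) * α : k) : OnePoint k) (g.left t) := by
  choose b hb using hT
  choose e he hE using fun t : 𝔽0.Fˣ => (hb ((θ (𝔽0.θ t) * α : k) : OnePoint k)).exists_mono
  have hO : Odd (∏ t, e t) :=
    Finset.prod_induction _ _ (fun _ _ => Odd.mul) odd_one fun t _ => he t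
  obtain ⟨w, w0, w1, hw⟩ := exists_root_series 𝔽0.m (𝔽0.m_cast_ne_zero θ) α hα
  have hp := prim_IN θ hO
  have key : ∀ (t : 𝔽0.Fˣ) (g : B),
      c'.Mono ((θ (𝔽0.θ t) * α : k) : OnePoint k) (∏ t, e t) (θ (xi (∏ t, e t))) g ↔
        c'.RMono HahnSeries.C (HahnSeries.C (θ (𝔽0.θ t)) * powL _ hO.pos (w : LaurentSeries k))
          (scL _ (hp.ne_zero hO.pos.ne')) g := fun t g => by
    have h1 := c'.mono_iff_rmono hO.pos hp (PowerSeries.C (θ (𝔽0.θ t)) * w)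
      (by simpa using w1) g
    rwa [map_mul, PowerSeries.constantCoeff_C, w0, map_mul, map_mul, HahnSeries.ofPowerSeries_C,
      powL_C] at h1
  obtain ⟨g, h1, h2, h3⟩ := h ((α ^ 𝔽0.m : k) : OnePoint k) _ hO
    (powL _ hO.pos (w : LaurentSeries k)) 1 1 _ (hp.ne_zero hO.pos.ne')
    ((map_ne_zero _).2 fun h0 => w1 (by
      rw [(map_eq_zero_iff _ HahnSeries.ofPowerSeries_injective).1 h0, map_zero]))
    (by
      rw [← map_pow, ← map_pow, hw, map_add, map_add, HahnSeries.ofPowerSeries_C, powL_C,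
        HahnSeries.ofPowerSeries_X, powL_single, mul_one]
      rfl)
    (fun t => ((key t _).1 (hE t _ hO (Finset.dvd_prod_of_mem _ (Finset.mem_univ t)))).chart_IN)
    (by rw [scL_powL_self _ _ _ _ hp.pow_eq_one]; simp) (one_pow 1) (pow_one _)
  rw [pow_one] at h3
  exact ⟨g, h1, h2, fun t => ⟨_, hO, (key t _).2 (h3 t)⟩⟩

theorem Cover.exists_induced_M {k B : Type} [Field k] [IsAlgClosed k] [Group B] (c' : Cover k B)
    (θ : K0 →+* k) (𝔽0 : FF) (hT : ∀ a, ∃ b, c'.M θ a b) :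
    ∃ c : Cover k (RegularWreathProduct B 𝔽0.Fˣ),
      (∀ b ∈ c'.ι.range, ∃ g ∈ c.ι.range, g.right = 1 ∧ g.left 1 = b) ∧
      (∃ g, c.M θ ((0 : k) : OnePoint k) g ∧ g.right = 𝔽0.u ∧
        ∀ t, c'.M θ ((0 : k) : OnePoint k) ((g ^ 𝔽0.m).left t)) ∧
      (∃ g, c.M θ ∞ g ∧ g.right = 𝔽0.u⁻¹ ∧ ∀ t, c'.M θ ∞ ((g ^ 𝔽0.m).left t)) ∧
      ∀ α : k, α ≠ 0 → ∃ g, c.M θ ((α ^ 𝔽0.m : k) : OnePoint k) g ∧ g.right = 1 ∧
        ∀ t : 𝔽0.Fˣ, c'.M θ ((θ (𝔽0.θ t) * α : k) : OnePoint k) (g.left t) := by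
  obtain ⟨c, h1, h2⟩ := exists_loc_IN c' θ 𝔽0
  refine ⟨c, h1, ?_, ?_, h2.unr hT⟩
  · have h3 := h2.ram (hT ((0 : k) : OnePoint k)).choose_spec 1 rfl (fun e => by simp [expand])
      fun e he ζ hζ s g hs h => Cover.RMono.mono_of_scaled he hζ 0 s hs (by simpa using h)
    rwa [zpow_one] at h3
  · have h3 := h2.ram (hT ∞).choose_spec (-1) rfl (fun e => by simp [expand])
      fun e he ζ hζ s g hs h => Cover.RMono.mono_infty_of_scaled he hζ s hs (by simpa using h)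
    rwa [zpow_neg_one] at h3

end Pool.Agent.Adm
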