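import Pool.Agent.Adq.RM
import Pool.Agent.Adq.LS
import Pool.Agent.Adq.IN
import Pool.Agent.Adq.VE
import Pool.Agent.Adq.MB
import Pool.Agent.Adq.VPL
import Pool.Agent.Adq.ZL

/-! Coverings of a component on the path. -/

namespace Pool.Agent.Adm

open scoped OnePoint

theorem wr_eq_one_EP {B A : Type} [Group B] [Group A] {g : RegularWreathProduct B A}
    (h : g.right = 1) (hl : ∀ t, g.left t = 1) : g = 1 :=
  RegularWreathProduct.ext (funext hl) h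

theorem Pt.exists_vertex_path {n : ℕ} {σ : Shape n} (z : Pt σ) (𝔽0 𝔽 : FF) {i0 i2 : Fin n}
    {J I : Type} [Finite J] [Fintype I] (x : J → YI (Fin n) 𝔽0.Fˣ i0 i2 → ZMod 𝔽.m)
    (hx : ∀ j, ∑ y, x j y = 0) {v : Fin σ.r} (hv : σ.OnPath i0 i2 v) {lam : z.k}
    {α : σ.Slot → z.k} (hα : z.KumAt 𝔽0 i0 i2 v lam α) (I0 : J → Finset I)
    (hw : ∀ j, HWok 𝔽 (z.fP 𝔽0 i0 i2 α (fun s t => (σ.lab i0 i2 (x j) s t).val) v) (I0 j).card) :
    ∃ (g : σ.Slot → WG 𝔽0 𝔽 J I) (R : Subgroup (WG 𝔽0 𝔽 J I)), z.VCat v g R ∧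
      (∀ s, σ.base s = v → σ.WL i0 i2 𝔽0 𝔽 x s (g s)) ∧ ∀ j, RI R j 1 (I0 j) := by
  have := 𝔽.charP
  let y : J → σ.Slot → 𝔽0.Fˣ → ℕ := fun j s t => (σ.lab i0 i2 (x j) s t).val
  have hM := fun j => Pt.fP_mult z 𝔽0 (y j) hα hv
  have hm : ∀ j a, (z.fP 𝔽0 i0 i2 α (y j) v).rootMultiplicity a < 𝔽.m := by
    intro j a
    by_cases h0 : a = 0
    · rw [h0, (hM j).1]
      exact ZMod.val_lt _
    by_cases h : ∃ (s : σ.Slot) (t : 𝔽0.Fˣ), σ.base s = v ∧ s ≠ σ.dir v i0 ∧ s ≠ σ.dir v i2 ∧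
        a = z.θ (𝔽0.θ t) * α s
    · obtain ⟨s, t, hs, s0, s2, rfl⟩ := h
      rw [(hM j).2.1 s t hs s0 s2]
      exact ZMod.val_lt _
    · rw [(hM j).2.2 a h0 fun s t hs s0 s2 e => h ⟨s, t, hs, s0, s2, e⟩]
      exact 𝔽.m_pos
  obtain ⟨c', h1, h2, h3, h4⟩ := exists_affV_family (I := I) z.θ 𝔽
    (fun j => z.fP 𝔽0 i0 i2 α (y j) v) (fun j => (z.fP_monic 𝔽0 (y j) i0 i2 α v).ne_zero)
    I0 hw hm
  obtain ⟨c, g1, ⟨g0, g00, g01, g02⟩, ⟨g2, g20, g21, g22⟩, g3⟩ := c'.exists_induced_M z.θ 𝔽0 h1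
  have b0 := σ.base_dir v i0
  have b2 := σ.base_dir v i2
  have hne : z.x (σ.dir v i0) ≠ z.x (σ.dir v i2) := fun e => hv (z.inj _ _ (b0.trans b2.symm) e)
  obtain ⟨μ, hμ, m2, mi, ma⟩ := exists_mob_ratio _ _ lam hne hα.1
  obtain ⟨c'', k1, k2⟩ := hμ.2 _ c
  have k3 : ∀ a g, c.M z.θ (μ a) g → c''.M z.θ a g := fun a g ⟨e, he, hm⟩ =>
    ⟨e, he, by simpa using k2 _ _ _ _ hm⟩
  have m0 : μ (z.x (σ.dir v i0)) = ((0 : z.k) : OnePoint z.k) := by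
    rw [ma _ hne, sub_self, mul_zero, zero_div]
  have ms : ∀ s, σ.base s = v → s ≠ σ.dir v i0 → s ≠ σ.dir v i2 →
      μ (z.x s) = ((α s ^ 𝔽0.m : z.k) : OnePoint z.k) := fun s hs s0 s2 => by
    rw [ma _ fun e => s2 (z.inj _ _ (hs.trans b2.symm) e), hα.2 s hs s0 s2]
  have key : ∀ s : σ.Slot, ∃ g : WG 𝔽0 𝔽 J I, σ.base s = v →
      c''.M z.θ (z.x s) g ∧ σ.WL i0 i2 𝔽0 𝔽 x s g := by
    intro s
    by_cases hs : σ.base s = v
    swap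
    · exact ⟨1, fun h => absurd h hs⟩
    by_cases s0 : s = σ.dir v i0
    · have hr : σ.Ram i0 i2 s := (σ.ram_iff hs).2 ⟨hv, Or.inl s0⟩
      refine ⟨g0, fun _ => ⟨k3 _ _ (by rw [s0, m0]; exact g00), g00.pow_eq_one, ?_,
        fun j t => ?_⟩⟩
      · rw [g01, s0, (σ.kum_dir_left _ hv).1]
      · rw [if_pos hr, h2 0 _ (g02 t) j, (hM j).1, σ.lab_of_ram _ hr t, ← σ.lab_of_ram _ hr 1,
          ← s0]
    by_cases s2 : s = σ.dir v i2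
    · have hr : σ.Ram i0 i2 s := (σ.ram_iff hs).2 ⟨hv, Or.inr s2⟩
      refine ⟨g2, fun _ => ⟨k3 _ _ (by rw [s2, m2]; exact g20), g20.pow_eq_one, ?_,
        fun j t => ?_⟩⟩
      · rw [g21, s2, (σ.kum_dir_left _ hv).2]
      · have h5 := h3 _ (g22 t) j
        have h6 : 𝔽.u ^ (z.fP 𝔽0 i0 i2 α (y j) v).natDegree =
            𝔽.u ^ (-σ.lab i0 i2 (x j) (σ.dir v i2) 1).val := by
          rw [𝔽.pow_eq_pow_iff, z.fP_natDegree, ZMod.natCast_zmod_val,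
            ← σ.sum_lab_path (x j) (hx j) hv, Nat.cast_add, Nat.cast_sum]
          congr 1
          · exact ZMod.natCast_zmod_val _
          · refine Finset.sum_congr rfl fun s _ => ?_
            rw [Nat.cast_sum]
            exact Finset.sum_congr rfl fun t _ => ZMod.natCast_zmod_val _
        rw [h6, 𝔽.pow_val_neg, mul_inv_eq_one, ← s2] at h5
        rw [if_pos hr, h5, σ.lab_of_ram _ hr t, ← σ.lab_of_ram _ hr 1]
    · have hr : ¬ σ.Ram i0 i2 s := fun h => ((σ.ram_iff hs).1 h).2.elim s0 s2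
      obtain ⟨g, e0, e1, e2⟩ := g3 (α s) (Pt.KumAt.ne_zero z 𝔽0 hα hs s0 s2)
      refine ⟨g, fun _ => ⟨k3 _ _ (by rw [ms s hs s0 s2]; exact e0), e0.pow_eq_one, ?_,
        fun j t => ?_⟩⟩
      · rw [e1, σ.kum_of_not_ram _ hr]
      · rw [if_neg hr, pow_one, h2 _ _ (e2 t) j, (hM j).2.1 s t hs s0 s2]
  choose g hg using key
  refine ⟨g, c''.ι.range, ⟨c'', rfl, fun a ha => k3 a 1 ?_, fun s => (hg s s.2).1⟩,
    fun s hs => (hg s hs).2, fun j => ?_⟩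
  · have ha' : ∀ s, σ.base s = v → μ a ≠ μ (z.x s) := fun s hs e =>
      ha ⟨⟨s, hs⟩, (μ.injective e).symm⟩
    have a0 := ha' _ b0
    have a2 := ha' _ b2
    rw [m0] at a0
    rw [m2] at a2
    obtain ⟨a', e'⟩ := OnePoint.ne_infty_iff_exists.1 a2
    obtain ⟨β, rfl⟩ := IsAlgClosed.exists_pow_nat_eq a' 𝔽0.m_pos
    have hβ : β ≠ 0 := by
      rintro rfl
      rw [zero_pow 𝔽0.m_pos.ne'] at e'
      exact a0 e'.symm
    obtain ⟨g', e0, e1, e2⟩ := g3 β hβ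
    have e : g' = 1 := wr_eq_one_EP e1 fun t => by
      obtain ⟨e, he, hE⟩ := (e2 t).pow_eq_one
      funext j
      refine AffV.eq_one ?_ ⟨e, he, congrFun hE j⟩
      have ht : ∀ t : 𝔽0.Fˣ, z.θ (𝔽0.θ t) ≠ 0 := fun t =>
        (map_ne_zero _).2 ((map_ne_zero _).2 t.ne_zero)
      rw [h2 _ _ (e2 t) j, (hM j).2.2 _ (mul_ne_zero (ht t) hβ), pow_zero]
      intro s t' hs s0 s2 e
      have e3 := congrArg (· ^ 𝔽0.m) e
      simp only [mul_pow, 𝔽0.theta_pow_m, one_mul] at e3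
      exact ha' s hs (by rw [← e', e3, ms s hs s0 s2])
    rw [← e', ← e]
    exact e0
  · refine (h4 j).mono ?_
    rintro _ ⟨b, hb, rfl⟩
    obtain ⟨g', e0, e1, e2⟩ := g1 b hb
    exact ⟨g', k1 ▸ e0, e1, by rw [e2]⟩

end Pool.Agent.Adm
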