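import Pool.Agent.Adq.LS
import Pool.Agent.Adq.ZL

/-! Characters and cocycles obtained from a homomorphism to the wreath product. -/

namespace Pool.Agent.Adm

open Sum

theorem right_conj_WGL {B A : Type} [Group B] [CommGroup A] (g w : RegularWreathProduct B A) :
    (w⁻¹ * g * w).right = g.right := by
  rw [RegularWreathProduct.mul_right, RegularWreathProduct.mul_right,
    RegularWreathProduct.inv_right, inv_mul_cancel_comm]

theorem u_conj_WGL {𝔽0 𝔽 : FF} {J I : Type} (g w : WG 𝔽0 𝔽 J I) (h : g.right = 1) (j : J) :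
    ((w⁻¹ * g * w).left 1 j).u = (g.left w.right j).u := by
  rw [wr_conj_left g w h, mul_one, Pi.mul_apply, Pi.mul_apply, Pi.inv_apply, AffV.mul_u,
    AffV.mul_u, AffV.inv_u, inv_mul_cancel_comm]

theorem yp_of_dom {n : ℕ} (σ : Shape n) (𝔽0 𝔽 : FF) {i0 i2 : Fin n} (h02 : i0 ≠ i2) {J I : Type}
    [Fintype I] (x : J → YI (Fin n) 𝔽0.Fˣ i0 i2 → ZMod 𝔽.m) (g : Fin n → WG 𝔽0 𝔽 J I)
    (R : Fin σ.r → Subgroup (WG 𝔽0 𝔽 J I)) (hg : ∀ l, σ.WL i0 i2 𝔽0 𝔽 x (inr l) (g l))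
    (I1 : J → Finset I) (hI : ∀ j, ∀ i ∈ I1 j, ∃ v t I0, i ∈ I0 ∧ RI (R v) j t I0)
    (G : Type) [Group G] [Finite G] (d : Fin n → G) (π : G →* WG 𝔽0 𝔽 J I) (hD : Dom g R d π) :
    YP 𝔽0 𝔽 i0 i2 x (fun j => (I1 j).card) G d := by
  obtain ⟨hc, hR⟩ := hD
  have hw : ∀ l, ∃ w : WG 𝔽0 𝔽 J I, π (d l) = w⁻¹ * g l * w := fun l => by
    obtain ⟨c, hc⟩ := isConj_iff.1 (hc l)
    exact ⟨c, by rw [← hc]; group⟩
  choose w hw using hw
  obtain ⟨β, hβ⟩ := exists_wr_eval π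
  have hχ : ∀ l, (RegularWreathProduct.rightHom.comp π) (d l) = σ.kum i0 i2 𝔽0.u (inr l) :=
    fun l => by
      change (π (d l)).right = _
      rw [hw, right_conj_WGL, (hg l).2.1]
  obtain ⟨k0, k2, kl⟩ := σ.kumLab_kum h02 𝔽0.u
  have hsurj : ∀ a : 𝔽0.Fˣ, ∃ k, (π k).right = a := fun a => by
    obtain ⟨z, rfl⟩ := Subgroup.mem_zpowers_iff.1 (𝔽0.mem_zpowers a)
    refine ⟨d i0 ^ z, ?_⟩
    change (RegularWreathProduct.rightHom.comp π) (d i0 ^ z) = _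
    rw [map_zpow, (hχ i0).trans k0]
  refine ⟨RegularWreathProduct.rightHom.comp π, ⟨(hχ i0).trans k0, (hχ i2).trans k2,
    fun l h0 h2 => (hχ l).trans (kl l h0 h2)⟩, fun l => (w l).right, ?_⟩
  rintro e ⟨γ, hγ, he⟩ j
  refine ⟨AffV.lin.comp ((Pi.evalMonoidHom (fun _ : J => AffV 𝔽.F I) j).comp β), fun y => ?_,
    fun hne => le_h1_of_indOn _ (I1 j) (IndOn.of_forall fun i hi => ?_) hne⟩
  · change (β (e y) j).u = _
    rw [hβ, he, yd, ← σ.lab_inr h02 (x j) (ysh (fun l => (w l).right) y)]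
    have h1 := (hg y.1.1).2.2 j
    by_cases hy : y.1.1 = i0 ∨ y.1.1 = i2
    · have hr := (σ.ram_inr h02 y.1.1).2 hy
      have h2 : ((w y.1.1)⁻¹ * g y.1.1 * w y.1.1) ^ 𝔽0.m =
          (w y.1.1)⁻¹ * g y.1.1 ^ 𝔽0.m * w y.1.1 := by
        have h3 := conj_pow (a := (w y.1.1)⁻¹) (b := g y.1.1) (i := 𝔽0.m)
        rwa [inv_inv] at h3
      rw [if_pos hr] at h1
      rw [if_pos hy, map_pow, hw, h2, u_conj_WGL _ _ (by rw [wr_pow_right, 𝔽0.pow_m]), h1,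
        σ.lab_of_ram _ hr]
      exact congrArg (fun z : ZMod 𝔽.m => 𝔽.u ^ z.val) (σ.lab_of_ram _ hr _).symm
    · have hr : ¬ σ.Ram i0 i2 (inr y.1.1) := fun h => hy ((σ.ram_inr h02 y.1.1).1 h)
      have h2 : π ((γ y.1.2)⁻¹ * d y.1.1 * γ y.1.2) =
          (w y.1.1 * π (γ y.1.2))⁻¹ * g y.1.1 * (w y.1.1 * π (γ y.1.2)) := by
        rw [map_mul, map_mul, map_inv, hw]
        group
      have h3 : (π (γ y.1.2)).right = y.1.2 := hγ y.1.2
      have h4 : (ysh (fun l => (w l).right) y).1.2 = (w y.1.1).right * y.1.2 := if_neg hy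
      rw [if_neg hr, pow_one] at h1
      rw [if_neg hy, h2, u_conj_WGL _ _ (by rw [(hg _).2.1, σ.kum_of_not_ram _ hr]), h1,
        RegularWreathProduct.mul_right, h3, h4]
      rfl
  · obtain ⟨v, t, I0, hi0, hRI⟩ := hI j i hi
    obtain ⟨γ', hγ'⟩ := hR v
    obtain ⟨k, hk⟩ := hsurj (γ'.right⁻¹ * t)
    have hW : (γ' * π k).right = t := by
      rw [RegularWreathProduct.mul_right, hk, mul_inv_cancel_left]
    refine ⟨I0, hi0, IndOn.conj hRI ((γ' * π k).left t j) ?_⟩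
    rintro _ ⟨g', hg', h1, rfl⟩
    obtain ⟨h0, hh0⟩ := hγ' g' hg'
    have h2 : π (k⁻¹ * h0 * k) = (γ' * π k)⁻¹ * g' * (γ' * π k) := by
      rw [map_mul, map_mul, map_inv, hh0]
      group
    have h3 : k⁻¹ * h0 * k ∈ (RegularWreathProduct.rightHom.comp π).ker := by
      change (π (k⁻¹ * h0 * k)).right = 1
      rw [h2, right_conj_WGL, h1]
    refine ⟨⟨_, h3⟩, ?_⟩
    change β ⟨_, h3⟩ j = _
    rw [hβ, h2, wr_conj_left _ _ h1, mul_one, hW]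
    rfl

end Pool.Agent.Adm
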