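import Pool.Agent.Adq.EP
import Pool.Agent.Adq.EO
import Pool.Agent.Adq.WGL

/-! Existence of coverings with prescribed labels on a Kummer covering. -/

namespace Pool.Agent.Adm

open Sum

/-- The block of indices attached to the component v and the sheet t. -/
def blk_EY {V A : Type} (W : ℕ) (w : ℕ) (v : V) (t : A) : Finset (V × A × Fin W) :=
  (Finset.univ.filter fun i : Fin W => i.1 < w).map
    ⟨fun i => (v, t, i), fun _ _ h => (Prod.mk.inj (Prod.mk.inj h).2).2⟩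

theorem card_lt_EY {W w : ℕ} (h : w ≤ W) :
    (Finset.univ.filter fun i : Fin W => i.1 < w).card = w := by
  rw [Fin.card_filter_val_lt, min_eq_right h]

theorem card_blk_EY {V A : Type} {W w : ℕ} (h : w ≤ W) (v : V) (t : A) :
    (blk_EY W w v t).card = w := by
  rw [blk_EY, Finset.card_map, card_lt_EY h]

theorem mem_blk_EY {V A : Type} {W w : ℕ} (i : V × A × Fin W) (h : i.2.2.1 < w) :
    i ∈ blk_EY W w i.1 i.2.1 :=
  Finset.mem_map.2 ⟨i.2.2, Finset.mem_filter.2 ⟨Finset.mem_univ _, h⟩, rfl⟩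

theorem card_all_EY {V A : Type} [Fintype V] [Fintype A] {W : ℕ} (w : V → A → ℕ)
    (h : ∀ v t, w v t ≤ W) :
    (Finset.univ.filter fun i : V × A × Fin W => i.2.2.1 < w i.1 i.2.1).card =
      ∑ v, ∑ t, w v t := by
  rw [Finset.card_filter, Fintype.sum_prod_type]
  refine Finset.sum_congr rfl fun v _ => ?_
  rw [Fintype.sum_prod_type]
  refine Finset.sum_congr rfl fun t _ => ?_
  rw [← card_lt_EY (h v t), Finset.card_filter]

theorem Pt.real_YP {n : ℕ} {σ : Shape n} (z : Pt σ) (𝔽0 𝔽 : FF) {i0 i2 : Fin n} (h02 : i0 ≠ i2)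
    {J : Type} [Finite J] (x : J → YI (Fin n) 𝔽0.Fˣ i0 i2 → ZMod 𝔽.m) (hx : ∀ j, ∑ y, x j y = 0)
    {lam : Fin σ.r → z.k} {α : σ.Slot → z.k} (hα : z.KumCoord 𝔽0 i0 i2 lam α)
    (wt : J → Fin σ.r → 𝔽0.Fˣ → ℕ)
    (hP : ∀ j v, σ.OnPath i0 i2 v →
      HWok 𝔽 (z.fP 𝔽0 i0 i2 α (fun s t => (σ.lab i0 i2 (x j) s t).val) v) (wt j v 1) ∧
        ∀ t, t ≠ 1 → wt j v t = 0)
    (hO : ∀ j v t, ¬ σ.OnPath i0 i2 v →
      HWok 𝔽 (z.fO 𝔽0 (fun s t => (σ.lab i0 i2 (x j) s t).val) v t) (wt j v t)) :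
    z.Real (YP 𝔽0 𝔽 i0 i2 x fun j => ∑ v, ∑ t, wt j v t) := by
  obtain ⟨W, hW⟩ : ∃ W : ℕ, ∀ j v t, wt j v t ≤ W := by
    obtain ⟨W, hW⟩ := (Set.finite_range
      fun y : J × Fin σ.r × 𝔽0.Fˣ => wt y.1 y.2.1 y.2.2).bddAbove
    exact ⟨W, fun j v t => hW ⟨(j, v, t), rfl⟩⟩
  have key : ∀ v : Fin σ.r, ∃ (g : σ.Slot → WG 𝔽0 𝔽 J (Fin σ.r × 𝔽0.Fˣ × Fin W))
      (R : Subgroup (WG 𝔽0 𝔽 J (Fin σ.r × 𝔽0.Fˣ × Fin W))), z.VCat v g R ∧
      (∀ s, σ.base s = v → σ.WL i0 i2 𝔽0 𝔽 x s (g s)) ∧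
        ∀ j t, wt j v t ≠ 0 → RI R j t (blk_EY W (wt j v t) v t) := by
    intro v
    by_cases hv : σ.OnPath i0 i2 v
    · obtain ⟨g, R, h1, h2, h3⟩ := z.exists_vertex_path 𝔽0 𝔽 x hx hv (hα.kumAt hv)
        (fun j => blk_EY W (wt j v 1) v (1 : 𝔽0.Fˣ))
        (fun j => by rw [card_blk_EY (hW j v 1)]; exact (hP j v hv).1)
      refine ⟨g, R, h1, h2, fun j t ht => ?_⟩
      obtain rfl : t = 1 := by
        by_contra h
        exact ht ((hP j v hv).2 t h)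
      exact h3 j
    · obtain ⟨g, R, h1, h2, h3⟩ := z.exists_vertex_off 𝔽0 𝔽 x hv
        (fun j t => blk_EY W (wt j v t) v t)
        (fun j t => by rw [card_blk_EY (hW j v t)]; exact hO j v t hv)
      exact ⟨g, R, h1, h2, fun j t _ => h3 j t⟩
  choose g R h1 h2 h3 using key
  refine ⟨WG 𝔽0 𝔽 J (Fin σ.r × 𝔽0.Fˣ × Fin W), inferInstance, inferInstance,
    fun s => g (σ.base s) s, R, ⟨fun v => ?_, fun δ => ?_⟩, fun G _ _ d π hD => ?_⟩
  · have e : (fun s : σ.Sl v => g (σ.base s.1) s.1) = fun s : σ.Sl v => g v s.1 :=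
      funext fun s => by rw [s.2]
    have := h1 v
    unfold Pt.VCat at this ⊢
    rw [← e] at this
    exact this
  · exact Shape.WL.isConj σ hx (h2 _ (inl δ) rfl) (h2 _ (inl δ.symm) rfl)
  · have := yp_of_dom σ 𝔽0 𝔽 h02 x (fun l => g (σ.base (inr l)) (inr l)) R
      (fun l => h2 _ (inr l) rfl)
      (fun j => Finset.univ.filter
        fun i : Fin σ.r × 𝔽0.Fˣ × Fin W => i.2.2.1 < wt j i.1 i.2.1)
      (fun j i hi => by
        have hi' := (Finset.mem_filter.1 hi).2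
        exact ⟨i.1, i.2.1, _, mem_blk_EY i hi', h3 i.1 j i.2.1 (by omega)⟩) G d π hD
    have e : (fun j => (Finset.univ.filter
        fun i : Fin σ.r × 𝔽0.Fˣ × Fin W => i.2.2.1 < wt j i.1 i.2.1).card) =
        fun j => ∑ v, ∑ t, wt j v t := funext fun j => card_all_EY (wt j) (hW j)
    rw [e] at this
    exact this

end Pool.Agent.Adm
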