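import Pool.Agent.Adq.D7

/-! Maximal chains in abstract spaces. -/

namespace Pool.Agent.Adm

theorem longer_MX {α : Type*} [PartialOrder α] (s : LTSeries α) (w : α)
    (hc : ∀ i, w < s i ∨ s i < w) : ∃ t : LTSeries α, t.length = s.length + 1 := by
  rcases hc 0 with h0 | h0
  · exact ⟨s.cons w h0, by simp⟩
  by_cases h : ∃ i : Fin s.length, s i.castSucc < w ∧ w < s i.succ
  · obtain ⟨i, h1, h2⟩ := h
    exact ⟨s.insertNth i w h1 h2, by simp⟩
  · have h1 : ∀ i, s i < w := fun i => by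
      induction i using Fin.induction with
      | zero => exact h0
      | succ i ih => exact (hc i.succ).resolve_left fun h2 => h ⟨i, ih, h2⟩
    exact ⟨s.snoc w (h1 _), by simp⟩

theorem exists_isMaxChain {X : Type*} [TopologicalSpace X]
    (hu : IsIrreducible (Set.univ : Set X)) (B : ℕ)
    (hB : ∀ s : LTSeries (TopologicalSpace.IrreducibleCloseds X), s.length ≤ B) (r : ℕ)
    (hr : (r : WithBot ℕ∞) ≤ topologicalKrullDim X) :
    ∃ m, r ≤ m ∧ ∃ V : Fin (m + 1) → Set X, IsMaxChain V := by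
  classical
  obtain ⟨s₀, h₀⟩ := Order.le_krullDim_iff.1 hr
  have hP := Nat.findGreatest_spec
    (P := fun n => ∃ s : LTSeries (TopologicalSpace.IrreducibleCloseds X), s.length = n)
    (hB s₀) ⟨s₀, rfl⟩
  obtain ⟨s, hs⟩ := hP
  have hmax : ∀ t : LTSeries (TopologicalSpace.IrreducibleCloseds X), t.length ≤ s.length :=
    fun t => hs ▸ Nat.le_findGreatest (hB t) ⟨t, rfl⟩
  have key : ∀ w : TopologicalSpace.IrreducibleCloseds X, (∀ i, w ≤ s i ∨ s i ≤ w) →
      ∃ i, s i = w := fun w hw => by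
    by_contra hn
    obtain ⟨t, ht⟩ := longer_MX s w fun i => (hw i).imp
      (fun h => lt_of_le_of_ne h fun e => hn ⟨i, e.symm⟩)
      fun h => lt_of_le_of_ne h fun e => hn ⟨i, e⟩
    have := hmax t
    omega
  refine ⟨s.length, h₀ ▸ hmax s₀, fun i => (s (Fin.rev i) : Set X),
    fun i => ⟨(s _).isIrreducible, (s _).isClosed⟩, ?_, fun i j hij => ?_, fun W h1 h2 h3 => ?_⟩
  · obtain ⟨i, hi⟩ := key ⟨Set.univ, hu, isClosed_univ⟩ fun i => Or.inr (Set.subset_univ _)
    have h : s i ≤ s (Fin.rev 0) := s.monotone (by rw [Fin.rev_zero]; exact Fin.le_last _)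
    rw [hi] at h
    exact Set.univ_subset_iff.1 h
  · exact SetLike.coe_ssubset_coe.2 (s.strictMono (Fin.rev_lt_rev.2 hij))
  · obtain ⟨i, hi⟩ := key ⟨W, h1, h2⟩ fun i => by
      have := h3 (Fin.rev i)
      simp only [Fin.rev_rev] at this
      exact this
    refine ⟨Fin.rev i, ?_⟩
    simp only [Fin.rev_rev, hi]
    rfl

theorem isMaxChain_of_points {X : Type*} [TopologicalSpace X] {m : ℕ}
    (hs : ∀ V : Set X, IsIrreducible V → IsClosed V → ∃ x, V = closure {x})
    (y : Fin (m + 1) → X) (htop : ∀ x, y 0 ⤳ x)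
    (hstep : ∀ i : Fin m, y i.castSucc ⤳ y i.succ ∧ ¬ y i.succ ⤳ y i.castSucc ∧
      ∀ x, y i.castSucc ⤳ x → x ⤳ y i.succ → x ⤳ y i.castSucc ∨ y i.succ ⤳ x)
    (hbot : ∀ x, y (Fin.last m) ⤳ x → x ⤳ y (Fin.last m)) :
    IsMaxChain fun i => closure {y i} := by
  refine ⟨fun i => ⟨isIrreducible_singleton.closure, isClosed_closure⟩,
    Set.eq_univ_of_forall fun x => specializes_iff_mem_closure.1 (htop x),
    Fin.strictAnti_iff_succ_lt.2 fun i => ⟨specializes_iff_closure_subset.1 (hstep i).1,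
      fun h => (hstep i).2.1 (specializes_iff_closure_subset.2 h)⟩, fun W h1 h2 h3 => ?_⟩
  obtain ⟨x, rfl⟩ := hs W h1 h2
  by_contra hn
  have hn' : ∀ i, y i ⤳ x → ¬ x ⤳ y i := fun i a b => hn ⟨i, Set.Subset.antisymm
    (specializes_iff_closure_subset.1 b) (specializes_iff_closure_subset.1 a)⟩
  have h : ∀ i, y i ⤳ x := fun i => by
    induction i using Fin.induction with
    | zero => exact htop x
    | succ i ih =>
      rcases h3 i.succ with h | h
      · exact specializes_iff_closure_subset.2 h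
      · exact ((hstep i).2.2 x ih (specializes_iff_closure_subset.2 h)).resolve_left (hn' _ ih)
  exact hn' _ (h _) (hbot x (h _))

end Pool.Agent.Adm
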