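import Mathlib

/-! Generic points of the closure of a set of primes. -/

namespace Pool.Agent.Adm

theorem exists_min_primes {A : Type} [CommRing A] [IsNoetherianRing A] (W : Set (Ideal A))
    (hW : ∀ Q ∈ W, Q.IsPrime) :
    ∃ M : Set (Ideal A), M.Finite ∧
      (∀ P ∈ M, P.IsPrime ∧ ∀ D, D ∉ P → ∃ Q ∈ W, P ≤ Q ∧ D ∉ Q) ∧
      ∀ Q ∈ W, ∃ P ∈ M, P ≤ Q := by
  classical
  have hf := Ideal.finite_minimalPrimes_of_isNoetherianRing A (sInf W)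
  have hle : ∀ Q ∈ W, ∃ P ∈ (sInf W).minimalPrimes, P ≤ Q := fun Q hQ =>
    haveI := hW Q hQ
    Ideal.exists_minimalPrimes_le (sInf_le hQ)
  refine ⟨_, hf, fun P hP => ⟨hP.1.1, fun D hD => ?_⟩, hle⟩
  haveI : P.IsPrime := hP.1.1
  have h1 : ∀ P' ∈ hf.toFinset.erase P, ∃ x ∈ P', x ∉ P := by
    intro P' h
    rw [Finset.mem_erase, Set.Finite.mem_toFinset] at h
    by_contra hc
    push Not at hc
    exact h.1 (le_antisymm hc (hP.2 h.2.1 hc))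
  choose! x hx hx' using h1
  have h2 : D * ∏ P' ∈ hf.toFinset.erase P, x P' ∉ P := by
    intro h
    rcases Ideal.IsPrime.mem_or_mem ‹_› h with h | h
    · exact hD h
    · obtain ⟨P', h3, h4⟩ := Ideal.IsPrime.prod_mem_iff.1 h
      exact hx' P' h3 h4
  have h3 : ∃ Q ∈ W, D * ∏ P' ∈ hf.toFinset.erase P, x P' ∉ Q := by
    by_contra hc
    push Not at hc
    exact h2 (hP.1.2 (Submodule.mem_sInf.2 hc))
  obtain ⟨Q, hQ, h4⟩ := h3
  obtain ⟨P', h5, h6⟩ := hle Q hQ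
  refine ⟨Q, hQ, ?_, fun h => h4 (Q.mul_mem_right _ h)⟩
  by_contra hc
  have h7 : P' ∈ hf.toFinset.erase P :=
    Finset.mem_erase.2 ⟨fun e => hc (e ▸ h6), hf.mem_toFinset.2 h5⟩
  exact h4 (Q.mul_mem_left _ (Ideal.prod_mem Q h7 (h6 (hx P' h7))))

end Pool.Agent.Adm
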