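import Pool.Agent.Adq.PS
import Pool.Agent.Adq.MP
import Pool.Agent.Adq.FLD
import Pool.Agent.Adq.Tr3

/-! Irreducible closed subsets have generic points. -/

namespace Pool.Agent.Adm

theorem mem_ker_SOB {k σ : Type} [Field k] (θ : K0 →+* k) (a : σ → k) (f : MvPolynomial σ K0) :
    f ∈ RingHom.ker (MvPolynomial.eval₂Hom θ a) ↔ MvPolynomial.eval₂ θ a f = 0 :=
  RingHom.mem_ker

theorem exists_generic_pts {n : ℕ} (σ : Shape n) (V : Set (PiBar 2 n)) (hc : IsClosed V) :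
    ∃ S : Set (PiBar 2 n), S.Finite ∧ S ⊆ V ∧
      ∀ z : Pt σ, clsStrict z.curve ∈ V → ∃ x ∈ S, x ⤳ clsStrict z.curve := by
  obtain ⟨M, hM, h1, h2⟩ := exists_min_primes
    {Q : Ideal (MvPolynomial σ.Slot K0) | ∃ z : Pt σ, clsStrict z.curve ∈ V ∧
      Q = RingHom.ker (MvPolynomial.eval₂Hom z.θ z.x)}
    (by
      rintro _ ⟨z, -, rfl⟩
      exact RingHom.ker_isPrime _)
  have key : ∀ P : M, ∃ y : Pt σ, clsStrict y.curve ∈ V ∧
      ∀ f, MvPolynomial.eval₂ y.θ y.x f = 0 ↔ f ∈ P.1 := by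
    rintro ⟨P, hP⟩
    obtain ⟨hp, hd⟩ := h1 P hP
    obtain ⟨k, _, _, θ, a, ha⟩ := exists_pt_of_prime P
    have hk : ∀ z : Pt σ, P ≤ RingHom.ker (MvPolynomial.eval₂Hom z.θ z.x) →
        KerLe θ a z.θ z.x := fun z hz f hf => (mem_ker_SOB _ _ f).1 (hz ((ha f).1 hf))
    obtain ⟨_, ⟨z, -, rfl⟩, hz, -⟩ := hd 1 ((Ideal.ne_top_iff_one P).1 hp.ne_top)
    let y : Pt σ :=
      { k := k, θ := θ, x := a
        inj := fun s s' h h' => z.inj s s' h ((hk z hz).eq_of_eq h') }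
    refine ⟨y, ?_, ha⟩
    rw [← hc.closure_eq, mem_closure_iff]
    intro s hs hy
    obtain ⟨D, hD, hD'⟩ := y.open_spread s hs hy
    obtain ⟨_, ⟨z', hz', rfl⟩, h3, h4⟩ := hd D fun h => hD ((ha D).2 h)
    exact ⟨_, hD' z' (hk z' h3) fun h => h4 ((mem_ker_SOB _ _ D).2 h), hz'⟩
  choose y hy hy' using key
  have : Finite M := hM
  refine ⟨Set.range fun P => clsStrict (y P).curve, Set.finite_range _, ?_, fun z hz => ?_⟩
  · rintro _ ⟨P, rfl⟩
    exact hy P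
  · obtain ⟨P, hP, h3⟩ := h2 _ ⟨z, hz, rfl⟩
    refine ⟨_, ⟨⟨P, hP⟩, rfl⟩, (specializes_iff_Strict _ _).2 ((Pt.qle_iff _ _).2 ?_)⟩
    exact Pt.le_of_kerLe fun f hf => (mem_ker_SOB _ _ f).1 (h3 ((hy' ⟨P, hP⟩ f).1 hf))

theorem exists_generic {n : ℕ} (V : Set (PiBar 2 n)) (hi : IsIrreducible V) (hc : IsClosed V) :
    ∃ x, V = closure {x} := by
  classical
  have := Shape.finite_shape n
  choose S hS hSV hS' using fun σ : Shape n => exists_generic_pts σ V hc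
  have hfin : (⋃ σ, S σ).Finite := Set.finite_iUnion hS
  obtain ⟨Z, hZ, hVZ⟩ := isIrreducible_iff_sUnion_isClosed.1 hi
    (hfin.toFinset.image fun x => closure {x})
    (by
      intro Z hZ
      obtain ⟨x, -, rfl⟩ := Finset.mem_image.1 hZ
      exact isClosed_closure)
    (by
      intro v hv
      obtain ⟨X, rfl⟩ : ∃ X, clsStrict X = v := Quot.exists_rep v
      obtain ⟨σ, z, hz, -⟩ := X.exists_pt'
      rw [hz] at hv ⊢
      obtain ⟨x, hx, hx'⟩ := hS' σ z hv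
      exact ⟨closure {x}, Finset.mem_coe.2 (Finset.mem_image.2
        ⟨x, hfin.mem_toFinset.2 (Set.mem_iUnion.2 ⟨σ, hx⟩), rfl⟩),
        specializes_iff_mem_closure.1 hx'⟩)
  obtain ⟨x, hx, rfl⟩ := Finset.mem_image.1 hZ
  obtain ⟨σ, hσ⟩ := Set.mem_iUnion.1 (hfin.mem_toFinset.1 hx)
  exact ⟨x, hVZ.antisymm (closure_minimal (Set.singleton_subset_iff.2 (hSV σ hσ)) hc)⟩

end Pool.Agent.Adm
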