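import Pool.Agent.Adq.CH
import Pool.Agent.Adq.BD
import Pool.Agent.Adq.SOB
import Pool.Agent.Adq.MX
import Pool.Agent.Adm.Fin3

/-! Two maximal chains of different lengths. -/

namespace Pool.Agent.Adm

theorem cls_surjective {p n : ℕ} (x : PiBar p n) : ∃ X, clsStrict X = x :=
  Quot.exists_rep x

theorem exists_series_bound (n : ℕ) : ∃ B : ℕ,
    ∀ s : LTSeries (TopologicalSpace.IrreducibleCloseds (PiBar 2 n)), s.length ≤ B := by
  obtain ⟨B, hB⟩ := exists_chain_bound n
  refine ⟨B, fun s => ?_⟩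
  have h : ∀ i, ∃ X : StableCurve 2 n, (s i : Set (PiBar 2 n)) = closure {clsStrict X} := by
    intro i
    obtain ⟨x, hx⟩ := exists_generic (s i : Set (PiBar 2 n)) (s i).isIrreducible (s i).isClosed
    obtain ⟨X, rfl⟩ := cls_surjective x
    exact ⟨X, hx⟩
  choose x hx using h
  have hle : ∀ i j, s i ≤ s j ↔ QLe (x i) (x j) := by
    intro i j
    rw [← specializes_iff_Strict, specializes_iff_closure_subset, ← hx, ← hx]
    rfl
  exact hB s.length x (fun i => (hle _ _).1 (s.step i).le)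
    fun i h => (s.step i).not_ge ((hle _ _).2 h)

theorem exists_smooth_maxChain (e : ℕ) :
    ∃ V : Fin (e + 1) → Set (PiBar 2 (e + 3)), IsMaxChain V := by
  obtain ⟨y, h0, h1, h2⟩ := exists_smooth_chain e
  refine ⟨_, isMaxChain_of_points exists_generic (fun i => clsStrict (y i)) ?_ ?_ ?_⟩
  · intro x
    obtain ⟨X, rfl⟩ := cls_surjective x
    exact (specializes_iff_Strict _ _).2 (h0 X)
  · intro i
    refine ⟨(specializes_iff_Strict _ _).2 (h1 i).1,
      fun h => (h1 i).2.1 ((specializes_iff_Strict _ _).1 h), fun x => ?_⟩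
    obtain ⟨X, rfl⟩ := cls_surjective x
    simp only [specializes_iff_Strict]
    exact (h1 i).2.2 X
  · intro x
    obtain ⟨X, rfl⟩ := cls_surjective x
    simp only [specializes_iff_Strict]
    exact h2 X

theorem exists_two_maxChains :
    ∃ m, 4 < m ∧ (∃ V : Fin (4 + 1) → Set (PiBar 2 7), IsMaxChain V) ∧
      ∃ V : Fin (m + 1) → Set (PiBar 2 7), IsMaxChain V := by
  obtain ⟨V, hV⟩ := exists_smooth_maxChain 4
  obtain ⟨B, hB⟩ := exists_series_bound 7
  have hu : IsIrreducible (Set.univ : Set (PiBar 2 7)) := hV.2.1 ▸ (hV.1 0).1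
  obtain ⟨m, hm, W, hW⟩ := exists_isMaxChain hu B hB 5 (five_le_krullDim 2 Nat.prime_two)
  exact ⟨m, hm, ⟨V, hV⟩, W, hW⟩

end Pool.Agent.Adm
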