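import Pool.Agent.Adq.ML

/-! Faithful coverings. -/

namespace Pool.Agent.Adm

open scoped OnePoint

variable {k G : Type} [Field k] [Group G]

theorem Cover.exists_faithful (c : Cover k G) :
    ∃ c' : Cover k G, Function.Injective c'.ι ∧ c'.ι.range = c.ι.range ∧
      ∀ (W : Type) [CommRing W] (φ : k →+* W) (u : W) (s : W →+* W) (g : G),
        c.RMono φ u s g → c'.RMono φ u s g := by
  let L' := IntermediateField.fixedField c.ι.ker
  have : IsGalois (RatFunc k) L' := IsGalois.of_fixedField_normal_subgroup c.ι.ker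
  let r : (c.L ≃ₐ[RatFunc k] c.L) →* (L' ≃ₐ[RatFunc k] L') := AlgEquiv.restrictNormalHom L'
  have hr : Function.Surjective r := AlgEquiv.restrictNormalHom_surjective c.L
  have hk : r.ker = c.ι.ker := by
    rw [IntermediateField.restrictNormalHom_ker, IntermediateField.fixingSubgroup_fixedField]
  let ι' : (L' ≃ₐ[RatFunc k] L') →* G :=
    r.liftOfRightInverse (Function.surjInv hr) (Function.rightInverse_surjInv hr) ⟨c.ι, hk.le⟩
  have hι : ∀ σ, ι' (r σ) = c.ι σ := fun σ => MonoidHom.liftOfRightInverse_comp_apply _ _ _ _ σ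
  refine ⟨{ L := L', ι := ι' }, (injective_iff_map_eq_one ι').2 fun τ hτ => ?_, ?_, ?_⟩
  · obtain ⟨σ, rfl⟩ := hr τ
    exact hk.ge ((hι σ).symm.trans hτ)
  · ext g
    constructor
    · rintro ⟨τ, rfl⟩
      obtain ⟨σ, rfl⟩ := hr τ
      exact ⟨σ, (hι σ).symm⟩
    · rintro ⟨σ, rfl⟩
      exact ⟨r σ, hι σ⟩
  · rintro W _ φ u s g ⟨j, h1, h2, σ, h3, h4⟩
    refine ⟨j.comp (algebraMap L' c.L), h1, h2, r σ, (hι σ).trans h3, fun x => ?_⟩
    exact (congrArg j (AlgEquiv.restrictNormal_commutes σ L' x)).trans (h4 _)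

theorem Cover.Mono.unram {c : Cover k G} (hc : Function.Injective c.ι) {a : OnePoint k} {e : ℕ}
    {ζ : k} (h : c.Mono a e ζ 1) : c.Mono a 1 1 1 := by
  have he := h.1
  obtain ⟨j, h1, h2, σ, h3, h4⟩ := h.rmono
  obtain rfl : σ = 1 := hc (h3.trans (map_one _).symm)
  choose y hy using fun x => exists_powL_of_scL e he ζ h.2.1 (j x) (h4 x).symm
  have hi : Function.Injective (powL e he : LaurentSeries k →+* LaurentSeries k) :=
    RingHom.injective _
  let j' : c.L →+* LaurentSeries k :=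
    { toFun := y
      map_one' := hi (by rw [hy, map_one, map_one])
      map_zero' := hi (by rw [hy, map_zero, map_zero])
      map_mul' := fun a b => hi (by rw [hy, map_mul, map_mul, hy, hy])
      map_add' := fun a b => hi (by rw [hy, map_add, map_add, hy, hy]) }
  refine ⟨one_pos, IsPrimitiveRoot.one, j', fun x => hi ?_, hi ?_, 1, map_one _, fun x n => ?_⟩
  · exact (hy _).trans ((h1 x).trans (powL_C e he x).symm)
  · exact (hy _).trans (h2.trans (by rw [powL_expand, mul_one]))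
  · rw [one_zpow, one_mul, AlgEquiv.one_apply]

theorem VP.faithful {σ : Type} {θ : K0 →+* k} {p : σ → OnePoint k} {d : σ → G} {R : Subgroup G}
    (h : VP θ p d R) :
    ∃ c : Cover k G, c.ι.range = R ∧ (∀ a, a ∉ Set.range p → c.Mono a 1 1 1) ∧
      ∀ s, c.M θ (p s) (d s) := by
  obtain ⟨c, h1, h2, h3⟩ := h
  obtain ⟨c', k1, k2, k3⟩ := c.exists_faithful
  have key : ∀ {a e ζ g}, c.Mono a e ζ g → c'.Mono a e ζ g := fun h =>
    (k3 _ _ _ _ _ h.rmono).mono h.1 h.2.1
  refine ⟨c', k2.trans h1, fun a ha => ?_, fun s => ?_⟩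
  · obtain ⟨e, -, he⟩ := h2 a ha
    exact (key he).unram k1
  · obtain ⟨e, ho, he⟩ := h3 s
    exact ⟨e, ho, key he⟩

end Pool.Agent.Adm
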