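import Pool.Agent.Adq.VU
import Pool.Agent.Adq.VPL
import Pool.Agent.Adq.MB
import Pool.Agent.Adm.VF

/-! Characters of a tame covering of a pointed line. -/

namespace Pool.Agent.Adm

open scoped OnePoint
open Polynomial

variable {G ι : Type} [Group G] [Finite G] [Fintype ι] {d : ι → G}

omit [Finite G] in
theorem Geo.fin_GB {R : Subgroup G} (h : Geo Set.univ d R) :
    ∃ (k : Type) (_ : Field k) (_ : IsAlgClosed k) (θ : K0 →+* k) (a : ι → k) (c : Cover k G),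
      Function.Injective a ∧ c.ι.range = R ∧ c.M θ ∞ 1 ∧
        (∀ x : k, x ∉ Set.range a → c.M θ x 1) ∧ ∀ i, c.M θ (a i) (d i) := by
  obtain ⟨k, _, _, θ, p, hp, hV⟩ := h
  obtain ⟨μ, hμ, hf⟩ := exists_mob_finite p
  obtain ⟨c, hc, h1, h2⟩ := hV.mob μ hμ.1
  choose a ha using fun s => OnePoint.ne_infty_iff_exists.1 (hf s)
  refine ⟨k, inferInstance, inferInstance, θ, fun i => a ⟨i, trivial⟩, c, fun i j hij => ?_, hc,
    h1 _ ?_, fun x hx => h1 _ ?_, fun i => ?_⟩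
  · have h3 : μ (p ⟨i, trivial⟩) = μ (p ⟨j, trivial⟩) := by
      rw [← ha, ← ha]
      exact congrArg _ hij
    exact congrArg Subtype.val (hp (μ.injective h3))
  · rintro ⟨s, hs⟩
    exact hf s hs
  · rintro ⟨s, hs⟩
    exact hx ⟨s.1, OnePoint.coe_injective ((ha s).trans hs)⟩
  · rw [ha]
    exact h2 ⟨i, trivial⟩

omit [Finite G] in
theorem Geo.core_GB {R : Subgroup G} (h : Geo Set.univ d R) (𝔽 : FF) (ψ : G →* Aff 𝔽.F)
    (x : ι → ℕ) (hx : ∀ i, (ψ (d i)).u = 𝔽.u ^ x i) :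
    𝔽.m ∣ ∑ i, x i ∧ (∑ i, x i = 0 → ∀ g ∈ R, ψ g = 1) := by
  obtain ⟨k, _, _, θ, a, c, ha, hc, h0, h1, h2⟩ := h.fin_GB
  have hT : c.Tame (Set.range fun i => (a i : OnePoint k)) := by
    intro y
    induction y using OnePoint.rec with
    | infty =>
      obtain ⟨e, -, he⟩ := h0
      exact ⟨e, _, 1, he, fun _ => rfl⟩
    | coe y =>
      by_cases hy : y ∈ Set.range a
      · obtain ⟨i, rfl⟩ := hy
        obtain ⟨e, -, he⟩ := h2 i
        exact ⟨e, _, _, he, fun h => absurd ⟨i, rfl⟩ h⟩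
      · obtain ⟨e, -, he⟩ := h1 y hy
        exact ⟨e, _, 1, he, fun _ => rfl⟩
  obtain ⟨v1, -, v3⟩ := c.vertex (θ.comp 𝔽.θ) ψ a ha x _ hT
    (fun y ⟨i, hi⟩ => ⟨i, OnePoint.coe_injective hi⟩) fun i => by
      obtain ⟨e, ζ, h3, h4⟩ := (h2 i).lab 𝔽 (Aff.lin.comp ψ) (x i) (by
        rw [zpow_natCast]
        exact hx i)
      exact ⟨e, ζ, _, h3, h4⟩
  constructor
  · obtain ⟨e, -, he⟩ := h0
    have h3 := v1 _ _ _ he
    rw [map_one, Aff.one_u, Units.val_one, map_one, 𝔽.card_sub_one] at h3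
    have h4 := Int.modEq_iff_dvd.1 (h3.unique he.1 he.2.1 (lab_one _ _ _))
    rw [zero_sub, neg_neg] at h4
    exact_mod_cast h4
  · intro hs g hg
    have h3 : ψ g ∈ c.ι.range.map ψ := Subgroup.mem_map_of_mem _ (hc ▸ hg)
    rwa [v3 hs, Subgroup.mem_bot] at h3

theorem Geo.bounds (h : Geo Set.univ d ⊤) (𝔽 : FF) (χ : G →* 𝔽.Fˣ) (x : ι → ℕ)
    (hx : ∀ i, χ (d i) = 𝔽.u ^ x i) :
    𝔽.m ∣ ∑ i, x i ∧ h1 χ * 𝔽.m ≤ ∑ i, x i ∧ (∑ i, x i = 0 → χ = 1) := by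
  obtain ⟨hd, hz⟩ := h.core_GB 𝔽 (Aff.inl.comp χ) x hx
  refine ⟨hd, ?_, fun hs => ?_⟩
  · obtain ⟨t, ht⟩ := hd
    rcases t with _ | w
    · have h0 : Z1 χ = ⊥ := by
        rw [eq_bot_iff]
        intro b hb
        obtain ⟨ψ, hψ⟩ := Z1.exists_aff hb
        have h2 := (h.core_GB 𝔽 ψ x fun i => (hψ _).1.trans (hx i)).2 ht
        rw [Submodule.mem_bot]
        funext g
        rw [← (hψ g).2, h2 g (Subgroup.mem_top g)]
        rfl
      rw [h1, h0, finrank_bot, zero_mul]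
      exact Nat.zero_le _
    · obtain ⟨k, _, _, θ, a, c, ha, hc, h0, h2, h3⟩ := h.fin_GB
      obtain ⟨r1, r2, r3, r4⟩ := rootMultiplicity_prod_X_sub_C a ha x
      have h4 := (c.h1_le hc θ 𝔽 χ _ r4.ne_zero (fun y => ?_) ⟨1, h0⟩ w
        (by rw [r3, ht, mul_comm])).1
      · rw [ht, mul_comm]
        exact Nat.mul_le_mul_left _ h4
      · by_cases hy : y ∈ Set.range a
        · obtain ⟨i, rfl⟩ := hy
          exact ⟨d i, h3 i, by rw [r1, hx]⟩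
        · exact ⟨1, h2 y hy, by rw [r2 y hy, map_one, pow_zero]⟩
  · ext g : 1
    exact congrArg Aff.u (hz hs g (Subgroup.mem_top g))

theorem Geo.prod_eq_one {R : Subgroup G} (h : Geo Set.univ d R) (𝔽 : FF) (χ : G →* 𝔽.Fˣ) :
    ∏ i, χ (d i) = 1 := by
  choose x _ hx using fun i => 𝔽.exists_log (χ (d i))
  obtain ⟨t, ht⟩ := (h.core_GB 𝔽 (Aff.inl.comp χ) x hx).1
  rw [Finset.prod_congr rfl fun i _ => hx i, Finset.prod_pow_eq_pow_sum, ht, pow_mul, 𝔽.pow_m,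
    one_pow]

theorem Geo.char_eq_one {R : Subgroup G} (h : Geo Set.univ d R) (𝔽 : FF) (χ : G →* 𝔽.Fˣ)
    (h1 : ∀ i, χ (d i) = 1) : ∀ g ∈ R, χ g = 1 := by
  intro g hg
  exact congrArg Aff.u ((h.core_GB 𝔽 (Aff.inl.comp χ) (fun _ => 0) fun i =>
    (h1 i).trans (pow_zero _).symm).2 Finset.sum_const_zero g hg)

theorem Geo.char_ext (h : Geo Set.univ d ⊤) (𝔽 : FF) (χ χ' : G →* 𝔽.Fˣ)
    (h1 : ∀ i, χ (d i) = χ' (d i)) : χ = χ' := by
  ext g : 1
  exact div_eq_one.1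
    (h.char_eq_one 𝔽 (χ / χ') (fun i => div_eq_one.2 (h1 i)) g (Subgroup.mem_top g))

/-- A branch whose labels have small sum carries no cohomology. -/
theorem Geo.branch [DecidableEq ι] {R : Subgroup G} (h : Geo Set.univ d R) (𝔽 : FF)
    (χ : G →* 𝔽.Fˣ) (s0 : ι) (x : ι → ℕ) (hx : ∀ i, i ≠ s0 → χ (d i) = 𝔽.u ^ x i)
    (hlt : ∑ i ∈ Finset.univ.erase s0, x i < 𝔽.m) :
    χ (d s0) * 𝔽.u ^ (∑ i ∈ Finset.univ.erase s0, x i) = 1 ∧
      ∀ b ∈ Z1 χ, b (d s0) = 0 → ∀ g ∈ R, b g = 0 := by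
  have hp : χ (d s0) * 𝔽.u ^ (∑ i ∈ Finset.univ.erase s0, x i) = 1 := by
    rw [← h.prod_eq_one 𝔽 χ, ← Finset.mul_prod_erase _ _ (Finset.mem_univ s0),
      ← Finset.prod_pow_eq_pow_sum]
    exact congrArg _ (Finset.prod_congr rfl fun i hi => (hx i (Finset.mem_erase.1 hi).1).symm)
  refine ⟨hp, fun b hb h0 g hg => ?_⟩
  let d' : ι → R := fun i => ⟨d i, h.mem (Set.mem_univ i)⟩
  have h' : Geo Set.univ d' ⊤ := by
    have h2 := Geo.restr R le_rfl d' h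
    rwa [Subgroup.subgroupOf_self] at h2
  have key : ∀ n : ℕ, χ (d s0) = 𝔽.u ^ n →
      h1 (χ.comp R.subtype) * 𝔽.m ≤ n + ∑ i ∈ Finset.univ.erase s0, x i := by
    intro n hn
    have h2 := (h'.bounds 𝔽 (χ.comp R.subtype) (Function.update x s0 n) fun i => ?_).2.1
    · rwa [Finset.sum_update_of_mem (Finset.mem_univ s0), Finset.sdiff_singleton_eq_erase] at h2
    · by_cases hi : i = s0
      · rw [hi, Function.update_self]
        exact hn
      · rw [Function.update_of_ne hi]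
        exact hx i hi
  have hb' := Z1.comp hb R.subtype
  generalize ∑ i ∈ Finset.univ.erase s0, x i = s at hlt hp key
  have hm := 𝔽.m_pos
  rcases Nat.eq_zero_or_pos s with rfl | hs
  · have h2 := key 0 (by simpa using hp)
    have h3 : h1 (χ.comp R.subtype) = 0 :=
      (Nat.mul_eq_zero.1 (Nat.le_zero.1 h2)).resolve_right hm.ne'
    exact congrFun (eq_zero_of_h1_eq_zero _ h3 hb') ⟨g, hg⟩
  · have h2 := key (𝔽.m - s) (by
      refine mul_right_cancel (b := 𝔽.u ^ s) ?_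
      rw [hp, ← pow_add, Nat.sub_add_cancel hlt.le, 𝔽.pow_m])
    rw [Nat.sub_add_cancel hlt.le] at h2
    have h3 : h1 (χ.comp R.subtype) ≤ 1 :=
      Nat.le_of_mul_le_mul_right (h2.trans_eq (one_mul _).symm) hm
    have h4 : (χ.comp R.subtype) (d' s0) ≠ 1 := by
      intro h5
      have h6 : χ (d s0) = 1 := h5
      rw [h6, one_mul] at hp
      exact 𝔽.u_prim.pow_ne_one_of_pos_of_lt hs.ne' hlt hp
    exact congrFun (eq_zero_of_h1_le_one _ h3 (d' s0) h4 hb' h0) ⟨g, hg⟩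

end Pool.Agent.Adm
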