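import Pool.Agent.Adq.GEN
import Pool.Agent.Adq.TD
import Pool.Agent.Adq.MB
import Pool.Agent.Adq.VPL

/-! Generisation in terms of cross ratios. -/

namespace Pool.Agent.Adm

open scoped OnePoint

theorem exists_mob_GC {k σ : Type} [Field k] [IsAlgClosed k] [DecidableEq σ] {p : σ → k}
    (hp : Function.Injective p) {s0 s1 s2 : σ} (h01 : s0 ≠ s1) (h02 : s0 ≠ s2) (h12 : s1 ≠ s2)
    (lam : k) (hl : ∀ s, cr (p s0) (p s1) (p s2) (p s) ≠ lam) :
    ∃ μ : OnePoint k ≃ OnePoint k, IsMob μ ∧ ∀ s, μ (p s) =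
      ((if s ≠ s2 then (cr (p s0) (p s1) (p s2) (p s) - lam)⁻¹ else 0 : k) : OnePoint k) := by
  have n12 : p s1 - p s2 ≠ 0 := sub_ne_zero.2 (hp.ne h12)
  have n10 : p s1 - p s0 ≠ 0 := sub_ne_zero.2 (hp.ne h01.symm)
  obtain ⟨μ, m1, m2, -, m4⟩ := exists_mob_ratio (p s0) (p s2) ((p s1 - p s2) / (p s1 - p s0))
    (hp.ne h02) (div_ne_zero n12 n10)
  obtain ⟨ν, n1, n2, -, n4⟩ := exists_mob_sub_inv lam
  refine ⟨μ.trans ν, m1.trans n1, fun s => ?_⟩
  by_cases hs : s = s2
  · rw [if_neg (not_not.2 hs), hs, Equiv.trans_apply, m2, n2]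
  · have e : (p s1 - p s2) / (p s1 - p s0) * (p s - p s0) / (p s - p s2) =
        cr (p s0) (p s1) (p s2) (p s) := by
      have := sub_ne_zero.2 (hp.ne hs)
      unfold cr
      field_simp
    rw [if_pos hs, Equiv.trans_apply, m4 _ (hp.ne hs), e, n4 _ (hl s)]

theorem VC.gen_cr {k k' G σ : Type} [Field k] [IsAlgClosed k] [Field k'] [IsAlgClosed k']
    [Group G] [Finite G] [Fintype σ] {θ : K0 →+* k} {θ' : K0 →+* k'} {p : σ → k} {p' : σ → k'}
    {d : σ → G} {R : Subgroup G} (hp : Function.Injective p) (hp' : Function.Injective p')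
    {s0 s1 s2 : σ} (h01 : s0 ≠ s1) (h02 : s0 ≠ s2) (h12 : s1 ≠ s2)
    (hk : KerLe θ' (fun s => cr (p' s0) (p' s1) (p' s2) (p' s)) θ
      fun s => cr (p s0) (p s1) (p s2) (p s)) (h : VC θ p d R) : VC θ' p' d R := by
  classical
  obtain ⟨lam, hlam⟩ := ((Set.finite_range fun s => cr (p s0) (p s1) (p s2) (p s)).preimage
    θ.injective.injOn).exists_notMem
  have hl : ∀ s, cr (p s0) (p s1) (p s2) (p s) ≠ θ lam := fun s e => hlam ⟨s, e⟩
  have hl' : ∀ s, cr (p' s0) (p' s1) (p' s2) (p' s) ≠ θ' lam := fun s e => hl s (hk.eq_const e)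
  obtain ⟨μ, m1, m2⟩ := exists_mob_GC hp h01 h02 h12 _ hl
  obtain ⟨μ', m1', m2'⟩ := exists_mob_GC hp' h01 h02 h12 _ hl'
  have k1 := hk.bind fun s => if s ≠ s2 then MvPolynomial.X s - MvPolynomial.C lam else 0
  simp only [apply_ite (MvPolynomial.eval₂ _ _), MvPolynomial.eval₂_zero, MvPolynomial.eval₂_sub,
    MvPolynomial.eval₂_X, MvPolynomial.eval₂_C] at k1
  have k2 := k1.inv (fun s => s ≠ s2) fun s hs => by
    rw [if_pos hs]
    exact sub_ne_zero.2 (hl s)
  have k3 : KerLe θ' (fun s => if s ≠ s2 then (cr (p' s0) (p' s1) (p' s2) (p' s) - θ' lam)⁻¹ else 0)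
      θ fun s => if s ≠ s2 then (cr (p s0) (p s1) (p s2) (p s) - θ lam)⁻¹ else 0 := by
    have e : ∀ (F : Type) [Field F] (b : σ → F),
        (fun s => if s ≠ s2 then (if s ≠ s2 then b s else 0)⁻¹ else if s ≠ s2 then b s else 0) =
          fun s => if s ≠ s2 then (b s)⁻¹ else 0 := fun F _ b => funext fun s => by
      split_ifs <;> rfl
    rw [e, e] at k2
    exact k2
  have h1 := VP.mob h μ m1.1
  rw [funext m2] at h1
  have hq : Function.Injective
      fun s => if s ≠ s2 then (cr (p s0) (p s1) (p s2) (p s) - θ lam)⁻¹ else 0 := by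
    intro s s' e
    have : μ (p s) = μ (p s') := by
      rw [m2, m2]
      exact congrArg _ e
    exact hp (OnePoint.coe_injective (μ.injective this))
  have h2 := VP.mob (VC.gen hq k3 h1) μ'.symm m1'.2
  have e : (fun s => μ'.symm ((if s ≠ s2 then (cr (p' s0) (p' s1) (p' s2) (p' s) - θ' lam)⁻¹
      else 0 : k') : OnePoint k')) = fun s => (p' s : OnePoint k') :=
    funext fun s => by rw [← m2', Equiv.symm_apply_apply]
  rw [e] at h2
  exact h2

theorem exists_cr_eq {k σ : Type} [Field k] [Infinite k] [Finite σ] (a : σ → k) {s0 s1 s2 : σ}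
    (h0 : a s0 = 0) (h1 : a s1 = 1) (h2 : a s2 = 0) (h02 : s0 ≠ s2)
    (ha : ∀ s s', s ≠ s2 → s' ≠ s2 → a s = a s' → s = s') :
    ∃ p : σ → k, Function.Injective p ∧ ∀ s, cr (p s0) (p s1) (p s2) (p s) = a s := by
  classical
  obtain ⟨lam, hlam⟩ := (Set.finite_range a).exists_notMem
  have hl : ∀ s, a s - lam ≠ 0 := fun s e => hlam ⟨s, sub_eq_zero.1 e⟩
  have h12 : s1 ≠ s2 := fun e => by
    rw [e, h2] at h1
    exact zero_ne_one h1
  refine ⟨fun s => if s = s2 then 0 else (a s - lam)⁻¹, fun s s' e => ?_, fun s => ?_⟩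
  · by_cases hs : s = s2 <;> by_cases hs' : s' = s2
    · rw [hs, hs']
    · simp only [if_pos hs, if_neg hs'] at e
      exact absurd e.symm (inv_ne_zero (hl s'))
    · simp only [if_neg hs, if_pos hs'] at e
      exact absurd e (inv_ne_zero (hl s))
    · simp only [if_neg hs, if_neg hs'] at e
      exact ha s s' hs hs' (sub_left_injective (inv_injective e))
  · simp only [if_neg h02, if_neg h12, if_true, cr]
    by_cases hs : s = s2
    · rw [if_pos hs, sub_self, zero_mul, div_zero, hs, h2]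
    · have l0 := hl s0
      have l1 := hl s1
      have l2 := hl s
      rw [if_neg hs]
      rw [h0] at l0 ⊢
      rw [h1] at l1 ⊢
      have l3 : (1 - lam)⁻¹ - (0 - lam)⁻¹ ≠ 0 := fun e =>
        one_ne_zero (sub_left_injective (inv_injective (sub_eq_zero.1 e)))
      rw [div_eq_iff (mul_ne_zero (by rw [sub_zero]; exact inv_ne_zero l2) l3)]
      field_simp
      ring

end Pool.Agent.Adm
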