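import Pool.Agent.Adq.MM4
import Pool.Agent.Adq.FR
import Pool.Agent.Adq.VPL

/-! Simultaneous deformation of the branch points. -/

namespace Pool.Agent.Adm

open scoped OnePoint
open Polynomial

theorem top_MM {k C G σ : Type} [Field k] [IsAlgClosed k] [NormedField C] [CompleteSpace C]
    [IsUltrametricDist C] [IsAlgClosed C] [Group G] [Finite G] [Fintype σ] (φ : k →+* C)
    (hφ : ∀ x, ‖φ x‖ ≤ 1) {θ : K0 →+* k} {p : σ → k} {d : σ → G}
    (hp : Function.Injective p) (A : σ → C) (hA : ∀ s, ‖A s - φ (p s)‖ < 1) (h : VC θ p d ⊤) :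
    VC (φ.comp θ) A d ⊤ := by
  by_cases h0 : ∀ s, A s = φ (p s)
  · rw [funext h0]
    exact VP.bc h φ
  obtain ⟨s1, hs1⟩ := not_forall.1 h0
  obtain ⟨s0, -, hs0⟩ := Finset.exists_max_image Finset.univ (fun s => ‖A s - φ (p s)‖)
    ⟨s1, Finset.mem_univ _⟩
  have ht : A s0 - φ (p s0) ≠ 0 :=
    norm_pos_iff.1 ((norm_pos_iff.2 (sub_ne_zero.2 hs1)).trans_le (hs0 s1 (Finset.mem_univ _)))
  have h1 : ∀ s, ‖A s‖ ≤ 1 := fun s => by
    rw [← sub_add_cancel (A s) (φ (p s))]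
    exact (IsUltrametricDist.norm_add_le_max _ _).trans (max_le (hA s).le (hφ _))
  have h2 : ∀ s t, s ≠ t → ‖A s - A t‖ = 1 := fun s t hst => by
    have a1 : ‖φ (p s - p t)‖ = 1 := T.norm_phi φ hφ _ (sub_ne_zero.2 (hp.ne hst))
    have a2 : ‖(A s - φ (p s)) + -(A t - φ (p t))‖ < 1 :=
      (IsUltrametricDist.norm_add_le_max _ _).trans_lt (max_lt (hA s) (by
        rw [norm_neg]
        exact hA t))
    have e : A s - A t = φ (p s - p t) + ((A s - φ (p s)) + -(A t - φ (p t))) := by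
      rw [map_sub]
      ring
    rw [e, IsUltrametricDist.norm_add_eq_max_of_norm_ne_norm (a1.trans_ne a2.ne'), a1,
      max_eq_left a2.le]
  obtain ⟨ε, e1, e2⟩ := exists_interp A (fun s => φ (p s) - A s) h1 h2 ‖A s0 - φ (p s0)‖
    (norm_nonneg _) fun s => (norm_sub_rev _ _).trans_le (hs0 s (Finset.mem_univ _))
  obtain ⟨c1, c2, c3⟩ := exists_smallOn ε _ ht (hA s0) e1
  have e3 : ∀ s, (X + ε).eval (A s) = φ (p s) := fun s => by
    rw [eval_add, eval_X, e2, add_sub_cancel]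
  obtain ⟨c, r1, r2, r3⟩ := VP.faithful h
  obtain ⟨c', q1, q2, q3, q4, q5⟩ := deform_top φ hφ c1 c2 ε c3 c r1
    (r2 ∞ fun ⟨s, e⟩ => OnePoint.coe_ne_infty _ e)
  refine ⟨c', q1, fun a ha => ?_, fun s => ?_⟩
  · induction a using OnePoint.rec with
    | infty => exact q5.m_one _
    | coe x =>
      rcases le_total ‖x‖ ‖c1‖ with hx | hx
      · by_cases hy : (X + ε).eval x ∈ Set.range φ
        · obtain ⟨y, hy⟩ := hy
          refine (q2 x y 1 1 1 hx hy.symm (r2 y ?_)).m_one _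
          rintro ⟨s, e⟩
          obtain rfl : p s = y := OnePoint.coe_injective e
          exact ha ⟨s, congrArg _ (c3.inj ((h1 s).trans c2.le) hx ((e3 s).trans hy))⟩
        · exact (q3 x hx hy).m_one _
      · exact (q4 x hx).m_one _
  · obtain ⟨e, he, hm⟩ := r3 s
    exact ⟨e, he, q2 (A s) (p s) e _ _ ((h1 s).trans c2.le) (e3 s) hm⟩

theorem VC.deform {k C G σ : Type} [Field k] [IsAlgClosed k] [NormedField C] [CompleteSpace C]
    [IsUltrametricDist C] [IsAlgClosed C] [Group G] [Finite G] [Fintype σ] (φ : k →+* C)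
    (hφ : ∀ x, ‖φ x‖ ≤ 1) {θ : K0 →+* k} {p : σ → k} {d : σ → G} {R : Subgroup G}
    (hp : Function.Injective p) (A : σ → C) (hA : ∀ s, ‖A s - φ (p s)‖ < 1) (h : VC θ p d R) :
    VC (φ.comp θ) A d R := by
  have h1 := VP.restr R le_rfl (fun s => ⟨d s, VP.mem h s⟩) h
  rw [Subgroup.subgroupOf_self] at h1
  have h2 := VP.map (top_MM φ hφ hp A hA h1) R.subtype
  rwa [← MonoidHom.range_eq_map, Subgroup.range_subtype] at h2

end Pool.Agent.Adm
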