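import Pool.Agent.Adq.SPR
import Pool.Agent.Adq.MM
import Pool.Agent.Adq.VL3

/-! Generisation of coverings. -/

namespace Pool.Agent.Adm

theorem VC.gen {k k' G σ : Type} [Field k] [IsAlgClosed k] [Field k'] [IsAlgClosed k'] [Group G]
    [Finite G] [Fintype σ] {θ : K0 →+* k} {θ' : K0 →+* k'} {p : σ → k} {p' : σ → k'}
    {d : σ → G} {R : Subgroup G} (hp : Function.Injective p) (hk : KerLe θ' p' θ p)
    (h : VC θ p d R) : VC θ' p' d R := by
  classical
  have : IsNoetherianRing (MvPolynomial σ K0) := inferInstance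
  have key : ∀ P' : Ideal (MvPolynomial σ K0), P'.IsPrime →
      (∀ f ∈ P', MvPolynomial.eval₂ θ p f = 0) →
      ∀ (k' : Type) [Field k'] [IsAlgClosed k'] (θ' : K0 →+* k') (p' : σ → k'),
        (∀ f, MvPolynomial.eval₂ θ' p' f = 0 ↔ f ∈ P') → VC θ' p' d R := by
    intro P'
    induction P' using WellFoundedGT.induction with
    | ind P' ih =>
      intro hP' hle k' _ _ θ' p' hker
      let P : Ideal (MvPolynomial σ K0) := RingHom.ker (MvPolynomial.eval₂Hom θ p)
      have hP : P.IsPrime := RingHom.ker_isPrime _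
      have hmem : ∀ f, f ∈ P ↔ MvPolynomial.eval₂ θ p f = 0 := fun f => Iff.rfl
      have hle' : P' ≤ P := fun f hf => (hmem f).2 (hle f hf)
      rcases hle'.eq_or_lt with he | hlt
      · refine VC.eqv (fun f hf => (hker f).2 (he ▸ (hmem f).2 hf))
          (fun f hf => hle f ((hker f).1 hf)) h
      · obtain ⟨Q, hQ, hPQ, hQP, hadj⟩ := exists_adjacent P' P hlt
        obtain ⟨C, _, _, _, _, k0, _, _, φ, θ0, p0, A, hφ, hA, h0, h1⟩ :=
          exists_step P' Q hPQ hadj
        have hv : VC θ0 p0 d R := ih Q hPQ hQ (fun f hf => (hmem f).1 (hQP hf)) k0 θ0 p0 h0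
        have hinj : Function.Injective p0 := by
          intro s t hst
          apply hp
          have h2 : MvPolynomial.X s - MvPolynomial.X t ∈ Q := (h0 _).1 (by simp [hst])
          have h3 := (hmem _).1 (hQP h2)
          simpa [sub_eq_zero] using h3
        have hd := VC.deform φ hφ hinj A hA hv
        exact VC.eqv (fun f hf => (hker f).2 ((h1 f).1 hf))
          (fun f hf => (h1 f).2 ((hker f).1 hf)) hd
  exact key (RingHom.ker (MvPolynomial.eval₂Hom θ' p')) (RingHom.ker_isPrime _)
    (fun f hf => hk f hf) k' θ' p' fun f => Iff.rfl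

end Pool.Agent.Adm
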