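import Pool.Agent.Adq.VPL
import Pool.Agent.Adq.MB
import Pool.Agent.Adm.S2
import Pool.Agent.Adm.FC

/-! Smoothing a node. -/

namespace Pool.Agent.Adm

open scoped OnePoint

theorem norm_eq_one_GM {k C : Type} [Field k] [NormedField C] (φ : k →+* C)
    (hφ : ∀ x, ‖φ x‖ ≤ 1) {y : k} (hy : y ≠ 0) : ‖φ y‖ = 1 := by
  have h1 : ‖φ y‖ * ‖φ y⁻¹‖ = 1 := by
    rw [← norm_mul, ← map_mul, mul_inv_cancel₀ hy, map_one, norm_one]
  have h2 := hφ y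
  have h3 := hφ y⁻¹
  have h4 := norm_nonneg (φ y)
  have h5 : ‖φ y‖ * ‖φ y⁻¹‖ ≤ ‖φ y‖ * 1 := by gcongr
  linarith

theorem ne_GM {k C : Type} [Field k] [NormedField C] (φ : k →+* C) (hφ : ∀ x, ‖φ x‖ ≤ 1) {t : C}
    (ht : ‖t‖ < 1) (y : k) {z : k} (hz : z ≠ 0) : t * φ y ≠ φ z := by
  intro h
  have h1 := norm_eq_one_GM φ hφ hz
  rw [← h, norm_mul] at h1
  have h2 := hφ y
  have h3 := norm_nonneg t
  have h4 : ‖t‖ * ‖φ y‖ ≤ ‖t‖ * 1 := by gcongr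
  linarith

theorem core_GM {k G ι : Type} [Field k] [IsAlgClosed k] [Group G] [Finite G] (θ : K0 →+* k)
    (d : ι → G) (c1 c2 : Cover k G) (A B : Set ι) (hdis : Disjoint A B) (Q1 Q2 : ι → k)
    (i1 : Set.InjOn Q1 A) (i2 : Set.InjOn Q2 B) (h0 : ∀ i ∈ B, Q2 i ≠ 0) (g : G)
    (g1 : c1.M θ ∞ g) (g2 : c2.M θ ((0 : k) : OnePoint k) g⁻¹) (g3 : c2.M θ ∞ 1)
    (a1 : ∀ i ∈ A, c1.M θ (Q1 i : OnePoint k) (d i))
    (a2 : ∀ y : k, y ∉ Q1 '' A → c1.M θ (y : OnePoint k) 1)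
    (b1 : ∀ i ∈ B, c2.M θ (Q2 i : OnePoint k) (d i))
    (b2 : ∀ y : k, y ≠ 0 → y ∉ Q2 '' B → c2.M θ (y : OnePoint k) 1) :
    Geo (A ∪ B) d (c1.ι.range ⊔ c2.ι.range) := by
  classical
  obtain ⟨C, _, _, _, _, φ, hφ, t, ht0, ht⟩ := exists_bigField k
  obtain ⟨cB, hB, tr⟩ := exists_trivial_cover k G
  have gl2 : Glue c2 cB := by
    obtain ⟨e, -, hm⟩ := g3
    exact ⟨e, _, 1, hm, tr _ e _ hm.1 hm.2.1.inv⟩
  have gl1 : Glue c1 c2 := by
    obtain ⟨e, ζ, hm, hm'⟩ := g1.glue g2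
    exact ⟨e, ζ, g, hm, hm'⟩
  obtain ⟨c, r, mA, mM, mB, mI, mT⟩ := smooth_two φ hφ t t ht0 ht ht0 ht c1 c2 cB gl1 gl2
  have MA : ∀ (y : k) (γ : G), c1.M θ (y : OnePoint k) γ →
      c.M (φ.comp θ) ((t * φ y : C) : OnePoint C) γ := by
    rintro y γ ⟨e, he, hm⟩
    exact ⟨e, he, mA y e _ γ hm⟩
  have MM : ∀ (y : k) (γ : G), y ≠ 0 → c2.M θ (y : OnePoint k) γ →
      c.M (φ.comp θ) ((φ y : C) : OnePoint C) γ := by
    rintro y γ hy ⟨e, he, hm⟩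
    exact ⟨e, he, mM y e _ γ hy hm⟩
  obtain ⟨P, PA, PB⟩ : ∃ P : ι → C, (∀ i ∈ A, P i = t * φ (Q1 i)) ∧ ∀ i ∈ B, P i = φ (Q2 i) :=
    ⟨fun i => if i ∈ A then t * φ (Q1 i) else φ (Q2 i), fun i hi => if_pos hi,
      fun i hi => if_neg fun hA => Set.disjoint_left.1 hdis hA hi⟩
  refine ⟨C, inferInstance, inferInstance, φ.comp θ, fun s => (P s : OnePoint C), ?_, c, ?_,
    ?_, ?_⟩
  · rintro ⟨i, hi⟩ ⟨j, hj⟩ h
    have h' : P i = P j := OnePoint.coe_injective h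
    refine Subtype.ext ?_
    rcases hi with hi | hi <;> rcases hj with hj | hj
    · rw [PA i hi, PA j hj] at h'
      exact i1 hi hj (φ.injective (mul_left_cancel₀ ht0 h'))
    · rw [PA i hi, PB j hj] at h'
      exact absurd h' (ne_GM φ hφ ht _ (h0 j hj))
    · rw [PB i hi, PA j hj] at h'
      exact absurd h'.symm (ne_GM φ hφ ht _ (h0 i hi))
    · rw [PB i hi, PB j hj] at h'
      exact i2 hi hj (φ.injective h')
  · rw [r, hB, sup_bot_eq]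
  · intro a ha
    induction a using OnePoint.rec with
    | infty => exact (mI 1 1 1 (tr _ 1 1 one_pos IsPrimitiveRoot.one)).m_one _
    | coe x =>
      by_cases h1 : ∃ y, x = t * φ y
      · obtain ⟨y, rfl⟩ := h1
        refine MA y 1 (a2 y ?_)
        rintro ⟨i, hi, rfl⟩
        exact ha ⟨⟨i, Or.inl hi⟩, congrArg _ (PA i hi)⟩
      by_cases h2 : ∃ y, x = φ y
      · obtain ⟨y, rfl⟩ := h2
        have hy : y ≠ 0 := by
          rintro rfl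
          exact h1 ⟨0, by simp⟩
        refine MM y 1 hy (b2 y hy ?_)
        rintro ⟨i, hi, rfl⟩
        exact ha ⟨⟨i, Or.inr hi⟩, congrArg _ (PB i hi)⟩
      by_cases h3 : ∃ y, x = φ y / t
      · obtain ⟨y, rfl⟩ := h3
        have hy : y ≠ 0 := by
          rintro rfl
          exact h1 ⟨0, by simp⟩
        exact (mB y 1 1 1 hy (tr _ 1 1 one_pos IsPrimitiveRoot.one)).m_one _
      push Not at h1 h2 h3
      exact (mT x h1 h2 h3).m_one _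
  · rintro ⟨i, hi | hi⟩
    · have := MA _ _ (a1 i hi)
      rwa [← PA i hi] at this
    · have := MM _ _ (h0 i hi) (b1 i hi)
      rwa [← PB i hi] at this

theorem map_inj_GM {k k' : Type} [Field k] [Field k'] (ψ : k →+* k') :
    Function.Injective (OnePoint.map ψ : OnePoint k → OnePoint k') :=
  Option.map_injective ψ.injective

theorem normInf_GM {k G σ : Type} [Field k] [IsAlgClosed k] [Group G] {θ : K0 →+* k}
    {p : σ → OnePoint k} {d : σ → G} {R : Subgroup G} (hp : Function.Injective p)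
    (h : VP θ p d R) (s : σ) :
    ∃ p' : σ → OnePoint k, Function.Injective p' ∧ p' s = ∞ ∧ VP θ p' d R := by
  induction hs : p s using OnePoint.rec with
  | infty => exact ⟨p, hp, hs, h⟩
  | coe x =>
    obtain ⟨μ, hμ, -, hx, -⟩ := exists_mob_sub_inv x
    exact ⟨fun s => μ (p s), μ.injective.comp hp, by rw [← hx, ← hs], h.mob μ hμ.1⟩

theorem normZero_GM {k G σ : Type} [Field k] [IsAlgClosed k] [Group G] [Finite σ] {θ : K0 →+* k}
    {p : σ → OnePoint k} {d : σ → G} {R : Subgroup G} (hp : Function.Injective p)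
    (h : VP θ p d R) (s : σ) :
    ∃ p' : σ → OnePoint k, Function.Injective p' ∧ p' s = ((0 : k) : OnePoint k) ∧
      (∀ s, p' s ≠ ∞) ∧ VP θ p' d R := by
  obtain ⟨μ, hμ, hf⟩ := exists_mob_finite p
  choose q hq using fun s => OnePoint.ne_infty_iff_exists.1 (hf s)
  obtain ⟨ν, hν, -, ha⟩ := exists_mob_affine (1 : k) (-q s) one_ne_zero
  refine ⟨fun s => ν (μ (p s)), ν.injective.comp (μ.injective.comp hp), ?_, fun s' => ?_,
    (h.mob μ hμ.1).mob ν hν.1⟩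
  · change ν (μ (p s)) = _
    rw [← hq, ha, one_mul, add_neg_cancel]
  · change ν (μ (p s')) ≠ _
    rw [← hq, ha]
    exact OnePoint.coe_ne_infty _

theorem coord_GM {k ι : Type} [Field k] {S : Set ι} (p : S → OnePoint k) :
    ∃ Q : ι → k, ∀ (i : ι) (hi : i ∈ S), p ⟨i, hi⟩ ≠ ∞ → p ⟨i, hi⟩ = (Q i : OnePoint k) := by
  classical
  refine ⟨fun i => if hi : i ∈ S then (p ⟨i, hi⟩).elim 0 id else 0, fun i hi h => ?_⟩
  obtain ⟨x, hx⟩ := OnePoint.ne_infty_iff_exists.1 h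
  simp only [dif_pos hi, ← hx, OnePoint.elim_some, id]

theorem Geo.merge {G ι : Type} [Group G] [Finite G] [Finite ι] {d : ι → G} {S1 S2 : Set ι}
    {R1 R2 : Subgroup G} (h1 : Geo S1 d R1) (h2 : Geo S2 d R2) {s1 s2 : ι} (m1 : s1 ∈ S1)
    (m2 : s2 ∈ S2) (hd : d s2 = (d s1)⁻¹) (hdis : Disjoint (S1 \ {s1}) (S2 \ {s2})) :
    Geo ((S1 \ {s1}) ∪ (S2 \ {s2})) d (R1 ⊔ R2) := by
  obtain ⟨k1, _, _, θ1, p1, j1, v1⟩ := h1
  obtain ⟨k2, _, _, θ2, p2, j2, v2⟩ := h2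
  obtain ⟨k, _, _, ψ1, ψ2, hψ⟩ := exists_amalgam0 θ1 θ2
  have w2 := v2.bc ψ2
  rw [← hψ] at w2
  obtain ⟨p, ip, ps, c1, r1, u1, n1⟩ :=
    normInf_GM ((map_inj_GM ψ1).comp j1) (v1.bc ψ1) ⟨s1, m1⟩
  obtain ⟨q, iq, qs, qf, c2, r2, u2, n2⟩ := normZero_GM ((map_inj_GM ψ2).comp j2) w2 ⟨s2, m2⟩
  obtain ⟨Q1, hQ1⟩ := coord_GM p
  obtain ⟨Q2, hQ2⟩ := coord_GM q
  have e1 : ∀ (i : ι) (hi : i ∈ S1 \ {s1}), p ⟨i, hi.1⟩ = (Q1 i : OnePoint k) := by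
    intro i hi
    refine hQ1 i hi.1 fun h => hi.2 ?_
    exact congrArg Subtype.val (ip (h.trans ps.symm))
  have e2 : ∀ (i : ι) (hi : i ∈ S2), q ⟨i, hi⟩ = (Q2 i : OnePoint k) :=
    fun i hi => hQ2 i hi (qf _)
  rw [← r1, ← r2]
  refine core_GM (ψ1.comp θ1) d c1 c2 _ _ hdis Q1 Q2 ?_ ?_ ?_ (d s1) ?_ ?_ ?_ ?_ ?_ ?_ ?_
  · intro i hi j hj h
    exact congrArg Subtype.val (ip ((e1 i hi).trans (h ▸ (e1 j hj).symm)))
  · intro i hi j hj h
    exact congrArg Subtype.val (iq ((e2 i hi.1).trans (h ▸ (e2 j hj.1).symm)))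
  · intro i hi h
    refine hi.2 ?_
    have h' := e2 i hi.1
    rw [h, ← qs] at h'
    exact congrArg Subtype.val (iq h')
  · have := n1 ⟨s1, m1⟩
    rwa [ps] at this
  · have := n2 ⟨s2, m2⟩
    rw [qs] at this
    rw [← hd]
    exact this
  · refine u2 _ ?_
    rintro ⟨s, hs⟩
    exact qf s hs
  · intro i hi
    have := n1 ⟨i, hi.1⟩
    rwa [e1 i hi] at this
  · intro y hy
    refine u1 _ ?_
    rintro ⟨⟨i, hi⟩, hs⟩
    have hi' : i ∈ S1 \ {s1} := by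
      refine ⟨hi, ?_⟩
      rintro rfl
      exact OnePoint.coe_ne_infty y (hs.symm.trans ps)
    exact hy ⟨i, hi', OnePoint.coe_injective ((e1 i hi').symm.trans hs)⟩
  · intro i hi
    have := n2 ⟨i, hi.1⟩
    rwa [e2 i hi.1] at this
  · intro y hy0 hy
    refine u2 _ ?_
    rintro ⟨⟨i, hi⟩, hs⟩
    have hi' : i ∈ S2 \ {s2} := by
      refine ⟨hi, ?_⟩
      rintro rfl
      exact hy0 (OnePoint.coe_injective (hs.symm.trans qs))
    exact hy ⟨i, hi', OnePoint.coe_injective ((e2 i hi).symm.trans hs)⟩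

end Pool.Agent.Adm
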