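import Pool.Agent.Adq.GP2
import Pool.Agent.Adq.D3
import Pool.Agent.Adq.FFL

/-! Test polynomials. -/

namespace Pool.Agent.Adm

open Polynomial

theorem exists_pow_two_pow_eq (S : Finset K0) :
    ∃ ρ, 0 < ρ ∧ ∀ x ∈ S, ∀ a, x ^ 2 ^ (ρ * a) = x := by
  have : Fact (Nat.Prime 2) := ⟨Nat.prime_two⟩
  let K := IntermediateField.adjoin (ZMod 2) (S : Set K0)
  have : FiniteDimensional (ZMod 2) K := IntermediateField.finiteDimensional_adjoin
    fun x _ => (Algebra.IsAlgebraic.isAlgebraic x).isIntegral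
  have : Finite K := Module.finite_of_finite (ZMod 2)
  let _ : Fintype K := Fintype.ofFinite K
  have : CharP K 2 := charP_of_injective_algebraMap (algebraMap (ZMod 2) K).injective 2
  obtain ⟨d, -, hd⟩ := FiniteField.card K 2
  refine ⟨d, d.2, fun x hx a => ?_⟩
  have h := FiniteField.pow_card_pow a
    (⟨x, IntermediateField.subset_adjoin _ _ (Finset.mem_coe.2 hx)⟩ : K)
  rw [hd, ← pow_mul] at h
  exact congrArg Subtype.val h

theorem scale_X_pow_sub_C_GP {k : Type} [Field k] {m : ℕ} (hm : 0 < m) (a η : k) :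
    (X ^ m - C a).scaleRoots η = X ^ m - C (a * η ^ m) := by
  ext i
  rw [coeff_scaleRoots, natDegree_X_pow_sub_C]
  simp only [coeff_sub, coeff_X_pow, coeff_C]
  by_cases h0 : i = 0
  · subst h0
    simp [hm.ne]
  by_cases h1 : i = m
  · subst h1
    simp [h0]
  · simp [h0, h1]

theorem tpoly_scale {k : Type} [Field k] {n : ℕ} (θ : K0 →+* k) (𝔽0 : FF) (η : k)
    (hη : η ^ 𝔽0.m = 1) (n0 : ℕ) (n1 : 𝔽0.Fˣ → ℕ) (nn : Fin n → ℕ) (a : Fin n → k) :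
    tpoly θ 𝔽0 η n0 n1 nn a = (tpoly θ 𝔽0 1 n0 n1 nn a).scaleRoots η := by
  let sc : k[X] →* k[X] :=
    { toFun := fun p => p.scaleRoots η
      map_one' := one_scaleRoots η
      map_mul' := fun p q => mul_scaleRoots_of_noZeroDivisors p q η }
  have h0 : sc X = X := by
    have := X_sub_C_scaleRoots (0 : k) η
    rwa [zero_mul, map_zero, sub_zero] at this
  have h1 : ∀ c, sc (X - C c) = X - C (c * η) := fun c => X_sub_C_scaleRoots c η
  have h2 : ∀ c, sc (X ^ 𝔽0.m - C c) = X ^ 𝔽0.m - C c := fun c => by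
    have := scale_X_pow_sub_C_GP 𝔽0.m_pos c η
    rwa [hη, mul_one] at this
  change _ = sc _
  unfold tpoly
  simp only [map_mul sc, map_prod sc, map_pow sc, h0, h1, h2, mul_one]

theorem factor_GP (𝔽0 : FF) (G : K0[X]) (hG : G ≠ 0)
    (hr : ∀ x, G.IsRoot x → x ≠ 0 → x ^ 𝔽0.m = 1) :
    G = C G.leadingCoeff * (X ^ G.rootMultiplicity 0 *
      ∏ t : 𝔽0.Fˣ, (X - C (𝔽0.θ t)) ^ G.rootMultiplicity (𝔽0.θ t)) := by
  classical
  have hinj : Function.Injective fun t : 𝔽0.Fˣ => 𝔽0.θ t := 𝔽0.theta_injective (RingHom.id K0)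
  have h0 : (0 : K0) ∉ Finset.univ.image fun t : 𝔽0.Fˣ => 𝔽0.θ t := by
    simp
  conv_lhs => rw [← C_leadingCoeff_mul_prod_multiset_X_sub_C
    (IsAlgClosed.card_roots_eq_natDegree (p := G)), prod_multiset_root_eq_finset_root]
  congr 1
  rw [Finset.prod_subset (s₂ := insert 0 (Finset.univ.image fun t : 𝔽0.Fˣ => 𝔽0.θ t)),
    Finset.prod_insert h0, Finset.prod_image fun _ _ _ _ h => hinj h, map_zero, sub_zero]
  · intro x hx
    have hx' : G.IsRoot x := (mem_roots hG).1 (Multiset.mem_toFinset.1 hx)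
    by_cases h : x = 0
    · exact Finset.mem_insert.2 (Or.inl h)
    · obtain ⟨t, ht⟩ := 𝔽0.exists_unit (RingHom.id K0) x (hr x hx' h)
      exact Finset.mem_insert_of_mem (Finset.mem_image.2 ⟨t, Finset.mem_univ _, ht⟩)
  · intro x _ hx
    rw [rootMultiplicity_eq_zero fun h => hx (Multiset.mem_toFinset.2 ((mem_roots hG).2 h)),
      pow_zero]

theorem factor_natDegree_GP {k A : Type} [Field k] [Fintype A] (c : k) (hc : c ≠ 0) (p : A → k)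
    (n0 : ℕ) (n1 : A → ℕ) :
    (C c * (X ^ n0 * ∏ t, (X - C (p t)) ^ n1 t)).natDegree = n0 + ∑ t, n1 t := by
  have h1 : ∀ t, ((X - C (p t)) ^ n1 t).Monic := fun t => (monic_X_sub_C _).pow _
  rw [natDegree_C_mul hc, (monic_X_pow n0).natDegree_mul
    (monic_prod_of_monic Finset.univ _ fun t _ => h1 t),
    natDegree_prod_of_monic _ _ fun t _ => h1 t, natDegree_X_pow]
  congr 1
  refine Finset.sum_congr rfl fun t _ => ?_
  rw [(monic_X_sub_C _).natDegree_pow, natDegree_X_sub_C, mul_one]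

theorem mult_GP {s : ℕ} (hs : Odd s) {E : K0[X]} (hE : ∀ x : K0, x ^ s = 1 → E.eval x ≠ 0)
    (c : ℕ) (x : K0) :
    (x ^ s = 1 → (E * (X ^ s - 1) ^ c).rootMultiplicity x ≤ c) ∧
      (x ^ s ≠ 1 → (E * (X ^ s - 1) ^ c).rootMultiplicity x ≤ E.natDegree) := by
  classical
  have hE0 : E ≠ 0 := fun h => hE 1 (one_pow s) (by rw [h, eval_zero])
  have hm : (X ^ s - 1 : K0[X]).Monic := monic_X_pow_sub_C 1 hs.pos.ne'
  have hsep : (X ^ s - 1 : K0[X]).Separable := by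
    obtain ⟨j, rfl⟩ := hs
    exact separable_X_pow_sub_C 1 (odd_ne_zero_Xi j) one_ne_zero
  have e : ((X ^ s - 1 : K0[X]) ^ c).rootMultiplicity x =
      c * (X ^ s - 1 : K0[X]).rootMultiplicity x := by
    rw [← count_roots, roots_pow, Multiset.count_nsmul, count_roots]
  rw [rootMultiplicity_mul (mul_ne_zero hE0 (hm.pow c).ne_zero), e]
  constructor
  · intro h
    rw [rootMultiplicity_eq_zero (hE x h), zero_add]
    exact (Nat.mul_le_mul_left c (rootMultiplicity_le_one_of_separable hsep x)).trans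
      (mul_one c).le
  · intro h
    have h1 : ¬ (X ^ s - 1 : K0[X]).IsRoot x := fun h' => h (by
      simpa [sub_eq_zero] using h')
    rw [rootMultiplicity_eq_zero h1, mul_zero, add_zero, ← count_roots]
    exact (Multiset.count_le_card _ _).trans (card_roots' E)

theorem sum_two_pow_GP (ω n : ℕ) : ∑ l : Fin n, 2 ^ (ω + l.1) + 2 ^ ω = 2 ^ (ω + n) := by
  induction n with
  | zero => simp
  | succ n ih =>
    rw [Fin.sum_univ_castSucc]
    simp only [Fin.val_castSucc, Fin.val_last]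
    rw [← add_assoc, pow_succ]
    omega

theorem exists_test_poly {n : ℕ} (hn : 0 < n) (f : MvPolynomial (Fin n) K0) :
    ∃ ρ B : ℕ, 0 < ρ ∧ ∀ 𝔽0 𝔽 : FF, 𝔽0.r = ρ → ρ ∣ 𝔽.r → B ≤ 𝔽.r →
      ∃ (n0 : ℕ) (n1 : 𝔽0.Fˣ → ℕ) (nn : Fin n → ℕ) (w : ℕ),
        n0 + 𝔽0.m * ∑ l, nn l < 𝔽.m ∧ (∀ t, n1 t + ∑ l, nn l < 𝔽.m) ∧
        w * 𝔽.m < n0 + ∑ t, n1 t + 𝔽0.m * ∑ l, nn l ∧
        n0 + ∑ t, n1 t + 𝔽0.m * ∑ l, nn l ≤ (w + 1) * 𝔽.m ∧
        ∀ (k : Type) [Field k] (θ : K0 →+* k) (η : k) (a : Fin n → k), η ^ 𝔽0.m = 1 →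
          ((HW (2 ^ 𝔽.r) (tpoly θ 𝔽0 η n0 n1 nn a) w).det ≠ 0 ↔
            MvPolynomial.eval₂ θ a f ≠ 0) := by
  classical
  obtain ⟨s, ω, e, E, hs, he, -, hdeg, hE, H⟩ := exists_hw_poly f
  obtain ⟨ρ0, hρ0, hS⟩ := exists_pow_two_pow_eq (insert (xi s) E.roots.toFinset)
  have hE0 : E ≠ 0 := fun h => hE 1 (one_pow s) (by rw [h, eval_zero])
  have hpow : ∀ (x : K0) (r : ℕ), x ≠ 0 → x ^ 2 ^ r = x → x ^ (2 ^ r - 1) = 1 := fun x r hx h => by
    apply mul_right_cancel₀ hx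
    rw [← pow_succ, Nat.sub_add_cancel Nat.one_le_two_pow, h, one_mul]
  have hdvd : ∀ a, s ∣ 2 ^ (ρ0 * a) - 1 := fun a =>
    (xi_prim hs).dvd_of_pow_eq_one _ (hpow _ _ ((xi_prim hs).ne_zero hs.pos.ne')
      (hS _ (Finset.mem_insert_self _ _) a))
  set a0 := s * 2 ^ e + e + 1 with ha0
  have hρ : a0 ≤ ρ0 * a0 := Nat.le_mul_of_pos_left _ hρ0
  refine ⟨ρ0 * a0, s * 2 ^ e + s + e + 2 ^ (ρ0 * a0) * 2 ^ (ω + n), by omega,
    fun 𝔽0 𝔽 h0 h1 hB => ?_⟩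
  obtain ⟨c, hc⟩ := h1
  have hN : 𝔽0.m + 1 = 2 ^ (ρ0 * a0) := by
    rw [FF.m, h0, Nat.sub_add_cancel Nat.one_le_two_pow]
  have hq : 𝔽.m + 1 = 2 ^ 𝔽.r := by rw [FF.m, Nat.sub_add_cancel Nat.one_le_two_pow]
  have hN1 : s * 2 ^ e ≤ 𝔽0.m := by
    have := Nat.lt_two_pow_self (n := ρ0 * a0)
    omega
  have hr : 𝔽.r < 2 ^ 𝔽.r := Nat.lt_two_pow_self
  have her : e ≤ 𝔽.r := by omega
  have he2 : 2 ^ e ≤ 2 ^ 𝔽.r := Nat.pow_le_pow_right two_pos her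
  have he3 : 2 ^ (ω + n) < 2 ^ e := Nat.pow_lt_pow_right one_lt_two he
  have hsN : s ∣ 𝔽0.m := by
    rw [FF.m, h0]
    exact hdvd a0
  have hmod : 2 ^ 𝔽.r % s = 1 % s := by
    have := hdvd (a0 * c)
    rw [← mul_assoc, ← hc] at this
    exact ((Nat.modEq_iff_dvd' Nat.one_le_two_pow).2 this).symm
  have hB' : 2 ^ (ρ0 * a0) * 2 ^ (ω + n) = 𝔽0.m * 2 ^ (ω + n) + 2 ^ (ω + n) := by
    rw [← hN, add_mul, one_mul]
  rw [hB'] at hB
  have hX : 0 < 2 ^ (ω + n) := by positivity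
  have H' := H 𝔽.r 𝔽0.m her hsN hmod (by rw [hN]; exact pow_dvd_pow 2 (by omega)) (by omega)
  have hm : (X ^ s - 1 : K0[X]).Monic := monic_X_pow_sub_C 1 hs.pos.ne'
  have hmul := mult_GP hs hE (2 ^ 𝔽.r - 2 ^ e)
  have hGd : (E * (X ^ s - 1) ^ (2 ^ 𝔽.r - 2 ^ e)).natDegree =
      E.natDegree + (2 ^ 𝔽.r - 2 ^ e) * s := by
    rw [natDegree_mul hE0 (hm.pow _).ne_zero, hm.natDegree_pow, ← C_1, natDegree_X_pow_sub_C]
  have hG0 : E * (X ^ s - 1) ^ (2 ^ 𝔽.r - 2 ^ e) ≠ 0 := mul_ne_zero hE0 (hm.pow _).ne_zero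
  have hGr : ∀ x, (E * (X ^ s - 1) ^ (2 ^ 𝔽.r - 2 ^ e)).IsRoot x → x ≠ 0 → x ^ 𝔽0.m = 1 := by
    intro x hx hx0
    rcases root_mul.1 hx with h | h
    · rw [FF.m, h0]
      exact hpow x _ hx0 (hS x (Finset.mem_insert_of_mem
        (Multiset.mem_toFinset.2 ((mem_roots hE0).2 h))) a0)
    · have h2 : x ^ s = 1 := by
        rw [IsRoot.def, eval_pow] at h
        simpa [sub_eq_zero] using eq_zero_of_pow_eq_zero h
      obtain ⟨d, hd⟩ := hsN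
      rw [hd, pow_mul, h2, one_pow]
  generalize E * (X ^ s - 1) ^ (2 ^ 𝔽.r - 2 ^ e) = G at H' hmul hGd hG0 hGr
  have hF := factor_GP 𝔽0 G hG0 hGr
  have hlc : G.leadingCoeff ≠ 0 := leadingCoeff_ne_zero.2 hG0
  have hD : G.rootMultiplicity 0 + ∑ t : 𝔽0.Fˣ, G.rootMultiplicity (𝔽0.θ t) =
      E.natDegree + (2 ^ 𝔽.r - 2 ^ e) * s := by
    rw [← hGd]
    conv_rhs => rw [hF, factor_natDegree_GP _ hlc]
  have hT := sum_two_pow_GP ω n
  have hT0 : 0 < ∑ l : Fin n, 2 ^ (ω + l.1) :=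
    Finset.sum_pos (fun _ _ => by positivity) ⟨⟨0, hn⟩, Finset.mem_univ _⟩
  have hω : 0 < 2 ^ ω := by positivity
  have hP1 : 𝔽0.m * ∑ l : Fin n, 2 ^ (ω + l.1) ≤ 𝔽0.m * 2 ^ (ω + n) :=
    Nat.mul_le_mul_left _ (by omega)
  have hP2 : 𝔽0.m ≤ 𝔽0.m * ∑ l : Fin n, 2 ^ (ω + l.1) := Nat.le_mul_of_pos_right _ hT0
  have hP3 : (2 ^ 𝔽.r - 2 ^ e) * s + s * 2 ^ e = s * 𝔽.m + s := by
    rw [mul_comm s (2 ^ e), ← add_mul, Nat.sub_add_cancel he2, ← hq]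
    ring
  have hs0 := hs.pos
  refine ⟨G.rootMultiplicity 0, fun t => G.rootMultiplicity (𝔽0.θ t), fun l => 2 ^ (ω + l.1), s,
    ?_, fun t => ?_, ?_, ?_, fun k _ θ η a hη => ?_⟩
  · have := (hmul 0).2 (by rw [zero_pow hs.pos.ne']; exact zero_ne_one)
    beta_reduce
    omega
  · beta_reduce
    by_cases h : 𝔽0.θ t ^ s = 1
    · have := (hmul _).1 h
      omega
    · have := (hmul _).2 h
      omega
  · beta_reduce
    rw [hD]
    omega
  · beta_reduce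
    rw [hD, add_mul, one_mul]
    omega
  · have hη0 : η ≠ 0 := fun h => by
      rw [h, zero_pow 𝔽0.m_pos.ne'] at hη
      exact zero_ne_one hη
    have e1 : G.map θ * ∏ l, (X ^ 𝔽0.m - C (a l)) ^ 2 ^ (ω + l.1) = C (θ G.leadingCoeff) *
        tpoly θ 𝔽0 1 (G.rootMultiplicity 0) (fun t => G.rootMultiplicity (𝔽0.θ t))
          (fun l => 2 ^ (ω + l.1)) a := by
      conv_lhs => rw [hF]
      unfold tpoly
      simp only [Polynomial.map_mul, Polynomial.map_pow, Polynomial.map_prod, Polynomial.map_sub,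
        map_X, map_C, mul_one, mul_assoc]
    rw [tpoly_scale θ 𝔽0 η hη, det_HW_scale _ _ _ _ hη0,
      ← det_HW_C_mul _ _ _ _ ((map_ne_zero θ).2 hlc), ← e1, H' k θ a,
      pow_ne_zero_iff (by positivity)]

end Pool.Agent.Adm
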