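import Pool.Agent.Adq.D1

/-! A periodic polynomial with prescribed coefficients in windows. -/

namespace Pool.Agent.Adm

open Polynomial

theorem sum_eq_GP1 {n : ℕ} (ω : ℕ) (S : Finset (Fin n)) :
    ∑ l ∈ S, 2 ^ (ω + l.1) = 2 ^ ω * ∑ l ∈ S.map Fin.valEmbedding, 2 ^ l := by
  rw [Finset.sum_map, Finset.mul_sum]
  exact Finset.sum_congr rfl fun l _ => pow_add _ _ _

theorem sum_lt_GP1 {n : ℕ} (S : Finset (Fin n)) :
    ∑ l ∈ S.map Fin.valEmbedding, 2 ^ l < 2 ^ n :=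
  Nat.geomSum_lt le_rfl fun k hk => by
    obtain ⟨l, -, rfl⟩ := Finset.mem_map.1 hk
    exact l.2

/-- The position p carries the datum x. -/
def Rel_GP1 {n s : ℕ} (ω e p : ℕ) (x : Fin s × Fin s × Finset (Fin n)) : Prop :=
  p + x.2.1.1 ≡ x.1.1 [MOD s] ∧ p + (x.2.1.1 + 1) ≡ ∑ l ∈ x.2.2, 2 ^ (ω + l.1) [MOD 2 ^ e]

theorem bound_GP1 {n ω e K j : ℕ} (he : ω + n < e) (hK : K < 2 ^ n) (hj : j < 2 ^ ω) :
    2 ^ ω * K + j < 2 ^ e := by
  have h1 : 2 ^ ω * (K + 1) ≤ 2 ^ ω * 2 ^ n := Nat.mul_le_mul_left _ hK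
  have h2 : 2 ^ (ω + n) ≤ 2 ^ e := Nat.pow_le_pow_right (by norm_num) he.le
  rw [pow_add] at h2
  rw [mul_add] at h1
  omega

theorem rel_unique_GP1 {n s ω e p : ℕ} (hω : s < 2 ^ ω) (he : ω + n < e)
    {x y : Fin s × Fin s × Finset (Fin n)} (hx : Rel_GP1 ω e p x) (hy : Rel_GP1 ω e p y) :
    x = y := by
  obtain ⟨i, j, S⟩ := x
  obtain ⟨i', j', S'⟩ := y
  obtain ⟨h1, h2⟩ := hx
  obtain ⟨h3, h4⟩ := hy
  simp only [sum_eq_GP1] at h1 h2 h3 h4
  have hj : j.1 + 1 < 2 ^ ω := by have := j.2; omega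
  have hj' : j'.1 + 1 < 2 ^ ω := by have := j'.2; omega
  have h4' := h4.add_right (j.1 + 1)
  rw [add_right_comm] at h4'
  have h5 := (h2.add_right (j'.1 + 1)).symm.trans h4'
  have h6 := Nat.ModEq.eq_of_lt_of_lt h5 (bound_GP1 he (sum_lt_GP1 S) hj')
    (bound_GP1 he (sum_lt_GP1 S') hj)
  have h7 := congrArg (· % 2 ^ ω) h6
  simp only [Nat.mul_add_mod, Nat.mod_eq_of_lt hj, Nat.mod_eq_of_lt hj'] at h7
  obtain rfl : j = j' := Fin.ext (by omega)
  have h8 := Nat.eq_of_mul_eq_mul_left (Nat.two_pow_pos ω) (Nat.add_right_cancel h6)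
  obtain rfl : S = S' := Finset.map_injective _ (Finset.geomSum_injective le_rfl h8)
  obtain rfl : i = i' := Fin.ext (Nat.ModEq.eq_of_lt_of_lt (h1.symm.trans h3) i.2 i'.2)
  rfl

theorem rel_zero_GP1 {n s ω e : ℕ} (hω : s < 2 ^ ω) (he : ω + n < e)
    {x : Fin s × Fin s × Finset (Fin n)} (hx : Rel_GP1 ω e 0 x) : False := by
  obtain ⟨i, j, S⟩ := x
  have h2 := hx.2
  simp only [sum_eq_GP1, zero_add] at h2
  have hj : j.1 + 1 < 2 ^ ω := by have := j.2; omega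
  have h3 := Nat.ModEq.eq_of_lt_of_lt h2
    (by simpa using bound_GP1 he (Nat.two_pow_pos n) hj)
    (by simpa using bound_GP1 he (sum_lt_GP1 S) (Nat.two_pow_pos ω))
  exact absurd (Nat.le_of_dvd (Nat.succ_pos _) ⟨_, h3⟩) (not_le.2 hj)

theorem exists_window (n s ω e : ℕ) (hs : Odd s) (hω : s < 2 ^ ω) (he : ω + n < e)
    (c : Fin s → Fin s → Finset (Fin n) → K0) :
    ∃ E : K0[X], E.natDegree < s * 2 ^ e ∧ (∀ x : K0, x ^ s = 1 → E.eval x ≠ 0) ∧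
      ∀ (q N p : ℕ) (i j : Fin s) (S : Finset (Fin n)), s ∣ N → q % s = 1 % s → 2 ^ e ∣ q →
        2 ^ e ∣ N + 1 → p + (j.1 + 1) + N * ∑ l ∈ S, 2 ^ (ω + l.1) = q * (i.1 + 1) →
        E.coeff (p % (s * 2 ^ e)) = c i j S := by
  classical
  have hM : 0 < s * 2 ^ e := Nat.mul_pos hs.pos (Nat.two_pow_pos e)
  let f : ℕ → K0 := fun p =>
    if h : ∃ x : Fin s × Fin s × Finset (Fin n), Rel_GP1 ω e p x then
      c h.choose.1 h.choose.2.1 h.choose.2.2 else 0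
  let E₀ : K0[X] := ∑ p ∈ Finset.range (s * 2 ^ e), monomial p (f p)
  have hE : ∀ p, E₀.coeff p = if p < s * 2 ^ e then f p else 0 := by
    intro p
    simp only [E₀, finsetSum_coeff, coeff_monomial, Finset.sum_ite_eq', Finset.mem_range]
  obtain ⟨a, ha⟩ := Infinite.exists_notMem_finset
    ((nthRootsFinset s (1 : K0)).image fun x => -E₀.eval x)
  refine ⟨E₀ + C a, ?_, fun x hx h => ha ?_, fun q N p i j S h1 h2 h3 h4 h5 => ?_⟩
  · rw [natDegree_add_C]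
    have : E₀.natDegree ≤ s * 2 ^ e - 1 := natDegree_le_iff_coeff_eq_zero.2 fun p hp => by
      rw [hE, if_neg (by omega)]
    omega
  · rw [eval_add, eval_C] at h
    exact Finset.mem_image.2 ⟨x, (mem_nthRootsFinset hs.pos _).2 hx, by linear_combination -h⟩
  · have hr : Rel_GP1 ω e (p % (s * 2 ^ e)) (i, j, S) := by
      constructor
      · refine (((Nat.mod_modEq p _).of_mul_right _).add_right _).trans ?_
        refine Nat.ModEq.add_right_cancel' 1 ?_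
        have h6 : q * (i.1 + 1) ≡ 1 * (i.1 + 1) [MOD s] := Nat.ModEq.mul_right _ h2
        rw [← h5, one_mul] at h6
        refine Nat.ModEq.trans ?_ h6
        exact ((Nat.modEq_zero_iff_dvd.2 (h1.mul_right _)).add_left _).symm
      · refine (((Nat.mod_modEq p _).of_mul_left _).add_right _).trans ?_
        refine Nat.ModEq.add_right_cancel' (N * ∑ l ∈ S, 2 ^ (ω + l.1)) ?_
        rw [h5]
        refine (Nat.modEq_zero_iff_dvd.2 (h3.mul_right _)).trans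
          (Nat.modEq_zero_iff_dvd.2 ?_).symm
        have h6 := h4.mul_right (∑ l ∈ S, 2 ^ (ω + l.1))
        rwa [add_mul, one_mul, add_comm] at h6
    have h0 : p % (s * 2 ^ e) ≠ 0 := fun h => rel_zero_GP1 hω he (h ▸ hr)
    have hx : ∃ x : Fin s × Fin s × Finset (Fin n), Rel_GP1 ω e (p % (s * 2 ^ e)) x := ⟨_, hr⟩
    rw [coeff_add, coeff_C_of_ne_zero h0, add_zero, hE, if_pos (Nat.mod_lt _ hM)]
    simp only [f, dif_pos hx, rel_unique_GP1 hω he hx.choose_spec hr]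

theorem geom_GP1 {k : Type} [Field k] [CharP k 2] (M a : ℕ) (hM : 0 < M) :
    ((X : k[X]) ^ M - 1) ^ (2 ^ a - 1) = ∑ j ∈ Finset.range (2 ^ a), X ^ (M * j) := by
  have h0 : ((X : k[X]) ^ M - 1) ≠ 0 := X_pow_sub_C_ne_zero hM 1
  refine mul_right_cancel₀ h0 ?_
  simp only [pow_mul]
  rw [geom_sum_mul, ← pow_succ, Nat.sub_add_cancel (Nat.two_pow_pos a), sub_pow_char_pow, one_pow]

theorem coeff_periodic {k : Type} [Field k] [CharP k 2] (s e r : ℕ) (hs : 0 < s) (he : e ≤ r)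
    (E : k[X]) (hE : E.natDegree < s * 2 ^ e) (p : ℕ) (hp : p < s * 2 ^ r) :
    (E * (X ^ s - 1) ^ (2 ^ r - 2 ^ e)).coeff p = E.coeff (p % (s * 2 ^ e)) := by
  obtain ⟨a, rfl⟩ := Nat.exists_eq_add_of_le he
  have hM : 0 < s * 2 ^ e := Nat.mul_pos hs (Nat.two_pow_pos e)
  have h1 : 2 ^ (e + a) - 2 ^ e = 2 ^ e * (2 ^ a - 1) := by
    rw [Nat.mul_sub, mul_one, pow_add]
  rw [h1, pow_mul, sub_pow_char_pow, one_pow, ← pow_mul, geom_GP1 _ _ hM, Finset.mul_sum,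
    finsetSum_coeff, Finset.sum_eq_single (p / (s * 2 ^ e))]
  · rw [coeff_mul_X_pow', if_pos (Nat.mul_div_le _ _), Nat.mod_def]
  · intro j _ hj
    rw [coeff_mul_X_pow']
    split_ifs with h
    · refine coeff_eq_zero_of_natDegree_lt (hE.trans_le ?_)
      have h2 : j ≤ p / (s * 2 ^ e) := (Nat.le_div_iff_mul_le hM).2 (by rwa [mul_comm])
      have h3 := Nat.mul_le_mul_left (s * 2 ^ e) (Nat.succ_le_of_lt (lt_of_le_of_ne h2 hj))
      have h4 := Nat.mul_div_le p (s * 2 ^ e)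
      rw [Nat.mul_succ] at h3
      omega
    · rfl
  · intro h
    refine absurd (Finset.mem_range.2 ((Nat.div_lt_iff_lt_mul hM).2 ?_)) h
    rwa [mul_comm, mul_assoc, ← pow_add]

theorem coeff_mul_prod {k : Type} [Field k] [CharP k 2] {n : ℕ} (G : k[X]) (N ω : ℕ)
    (a : Fin n → k) (p : ℕ) (hp : N * ∑ l : Fin n, 2 ^ (ω + l.1) ≤ p) :
    (G * ∏ l, (X ^ N - C (a l)) ^ 2 ^ (ω + l.1)).coeff p =
      ∑ S : Finset (Fin n), (∏ l ∈ Sᶜ, a l ^ 2 ^ (ω + l.1)) *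
        G.coeff (p - N * ∑ l ∈ S, 2 ^ (ω + l.1)) := by
  have h1 : ∀ l : Fin n, ((X : k[X]) ^ N - C (a l)) ^ 2 ^ (ω + l.1) =
      X ^ (N * 2 ^ (ω + l.1)) + C (a l ^ 2 ^ (ω + l.1)) := by
    intro l
    rw [sub_pow_char_pow, CharTwo.sub_eq_add, pow_mul, C_pow]
  simp only [h1]
  rw [Finset.prod_add, Finset.powerset_univ, Finset.mul_sum, finsetSum_coeff]
  refine Finset.sum_congr rfl fun S _ => ?_
  rw [Finset.prod_pow_eq_pow_sum, ← map_prod, ← mul_assoc, coeff_mul_C, coeff_mul_X_pow',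
    ← Finset.mul_sum, if_pos, mul_comm, Finset.compl_eq_univ_sdiff]
  exact (Nat.mul_le_mul_left _ (Finset.sum_le_sum_of_subset (Finset.subset_univ S))).trans hp

end Pool.Agent.Adm
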