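import Pool.Agent.Adq.D1

/-! Hasse-Witt determinants: pure labels and rescaling. -/

namespace Pool.Agent.Adm

open Polynomial

variable {k : Type} [Field k]

theorem HW_apply_PD (q : ℕ) (f : k[X]) (w : ℕ) (i j : Fin w) : HW q f w i j =
    if j.1 + 1 ≤ q * (i.1 + 1) then f.coeff (q * (i.1 + 1) - (j.1 + 1)) else 0 := rfl

theorem det_HW_two [CharP k 2] (g : k[X]) (hg : g.Separable) (w : ℕ) (h1 : w ≤ g.natDegree)
    (h2 : g.natDegree ≤ w + 1) : (HW 2 g w).det ≠ 0 := by
  intro h
  obtain ⟨c, hc, h0⟩ := Matrix.exists_mulVec_eq_zero_iff.2 h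
  set ct : k[X] := ∑ j : Fin w, C (c j) * X ^ j.1 with hct
  have a1 : ∀ m, (g * ct).coeff m =
      ∑ j : Fin w, (if j.1 ≤ m then g.coeff (m - j.1) else 0) * c j := fun m => by
    rw [hct, Finset.mul_sum, finsetSum_coeff]
    refine Finset.sum_congr rfl fun j _ => ?_
    rw [mul_left_comm, coeff_C_mul, coeff_mul_X_pow', mul_comm]
  have a2 : ∀ i, (g * ct).coeff (2 * i + 1) = 0 := fun i => by
    rw [a1]
    rcases lt_or_ge i w with hi | hi
    · have := congrFun h0 ⟨i, hi⟩
      rw [Pi.zero_apply, Matrix.mulVec, dotProduct] at this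
      refine Eq.trans (Finset.sum_congr rfl fun j _ => ?_) this
      rw [HW_apply_PD, show 2 * (i + 1) - (j.1 + 1) = 2 * i + 1 - j.1 by omega]
      exact congrArg (· * c j) (if_congr (show _ ↔ _ ≤ 2 * (i + 1) by omega) rfl rfl)
    · refine Finset.sum_eq_zero fun j _ => ?_
      have := j.2
      rw [coeff_eq_zero_of_natDegree_lt (by omega), ite_self, zero_mul]
  have a3 : derivative (g * ct) = 0 := by
    ext m
    rw [coeff_derivative, coeff_zero]
    rcases Nat.even_or_odd' m with ⟨i, rfl | rfl⟩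
    · rw [a2, zero_mul]
    · have : ((2 * i + 1 : ℕ) : k) + 1 = 0 := by
        have h2 : (2 : k) = 0 := CharTwo.two_eq_zero
        push_cast
        linear_combination (i + 1 : k) * h2
      rw [this, mul_zero]
  have a4 : g ∣ ct := by
    refine IsCoprime.dvd_of_dvd_mul_left hg ?_
    rw [derivative_mul, add_eq_zero_iff_eq_neg] at a3
    rw [a3, dvd_neg]
    exact dvd_mul_right _ _
  have a5 : ct = 0 := eq_zero_of_dvd_of_degree_lt a4 ((degree_sum_fin_lt c).trans_le (by
    rw [degree_eq_natDegree hg.ne_zero]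
    exact_mod_cast h1))
  refine hc (funext fun j => ?_)
  have a6 : ct.coeff j.1 = c j := by
    rw [hct, finsetSum_coeff, Finset.sum_eq_single j]
    · simp
    · intro l _ hl
      rw [coeff_C_mul, coeff_X_pow, if_neg (fun e => hl (Fin.ext e.symm)), mul_zero]
    · simp
  rw [← a6, a5, coeff_zero, Pi.zero_apply]

theorem HW_mul_sq [CharP k 2] (g h : k[X]) (w q : ℕ) (h2 : g.natDegree ≤ w + 1) :
    HW (2 * q) (g * h ^ 2) w =
      (Matrix.of fun i l : Fin w =>
        if l.1 + 1 ≤ q * (i.1 + 1) then h.coeff (q * (i.1 + 1) - (l.1 + 1)) ^ 2 else 0) *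
        HW 2 g w := by
  ext i j
  simp only [Matrix.mul_apply, Matrix.of_apply, HW_apply_PD, mul_assoc]
  generalize q * (i.1 + 1) = N
  have hj := j.2
  induction h using Polynomial.induction_on' with
  | add u v hu hv =>
    simp only [CharTwo.add_sq, mul_add g, coeff_add, ite_add_zero, add_mul,
      Finset.sum_add_distrib, hu, hv]
  | monomial m a =>
    rw [monomial_pow, ← C_mul_X_pow_eq_monomial, mul_left_comm, coeff_C_mul, coeff_mul_X_pow']
    by_cases hm : m < N ∧ N - m - 1 < w
    · rw [Finset.sum_eq_single ⟨N - m - 1, hm.2⟩ _ (by simp)]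
      · simp only [coeff_monomial]
        rw [if_pos (show N - m - 1 + 1 ≤ N by omega), if_pos (show m = N - (N - m - 1 + 1) by omega)]
        by_cases e : j.1 + 1 ≤ 2 * (N - m - 1 + 1)
        · rw [if_pos e, if_pos (by omega), if_pos (by omega)]
          congr 2
          omega
        · rw [if_neg e, mul_zero]
          split_ifs with e1 e2
          · omega
          · rw [mul_zero]
          · rfl
      · intro l _ hl
        have : l.1 ≠ N - m - 1 := fun e => hl (Fin.ext e)
        split_ifs with e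
        · rw [coeff_monomial, if_neg (by omega), zero_pow two_ne_zero, zero_mul]
        · rw [mul_zero]
        · rw [zero_mul]
        · rw [zero_mul]
    · rw [Finset.sum_eq_zero]
      · split_ifs with e e'
        · rw [coeff_eq_zero_of_natDegree_lt (by omega), mul_zero]
        · rw [mul_zero]
        · rfl
      · intro l _
        have := l.2
        split_ifs with e
        · rw [coeff_monomial, if_neg (by omega), zero_pow two_ne_zero, zero_mul]
        · rw [mul_zero]
        · rw [zero_mul]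
        · rw [zero_mul]

theorem det_HW_prod [CharP k 2] (r w : ℕ) (hr : 0 < r) (g : Fin r → k[X])
    (hg : ∀ b, (g b).Separable ∧ w ≤ (g b).natDegree ∧ (g b).natDegree ≤ w + 1) :
    (HW (2 ^ r) (∏ b, g b ^ 2 ^ b.1) w).det ≠ 0 := by
  induction r, hr using Nat.le_induction with
  | base => simpa using det_HW_two (g 0) (hg 0).1 w (hg 0).2.1 (hg 0).2.2
  | succ r hr ih =>
    have e : ∏ b, g b ^ 2 ^ b.1 = g 0 * (∏ b : Fin r, g b.succ ^ 2 ^ b.1) ^ 2 := by
      rw [Fin.prod_univ_succ, ← Finset.prod_pow]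
      simp only [Fin.val_zero, pow_zero, pow_one, Fin.val_succ, pow_succ, pow_mul]
    rw [e, pow_succ', HW_mul_sq _ _ _ _ (hg 0).2.2, Matrix.det_mul]
    refine mul_ne_zero ?_ (det_HW_two (g 0) (hg 0).1 w (hg 0).2.1 (hg 0).2.2)
    have h1 := (map_ne_zero (frobenius k 2)).2 (ih (fun b => g b.succ) fun b => hg b.succ)
    rw [RingHom.map_det] at h1
    convert h1 using 2
    ext i l
    rw [RingHom.mapMatrix_apply, Matrix.map_apply, Matrix.of_apply, HW_apply_PD]
    split_ifs
    · rfl
    · rw [map_zero]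

theorem det_HW_scale (q w : ℕ) (f : k[X]) (η : k) (hη : η ≠ 0) :
    (HW q (f.scaleRoots η) w).det ≠ 0 ↔ (HW q f w).det ≠ 0 := by
  have e : HW q (f.scaleRoots η) w =
      Matrix.diagonal (fun i : Fin w => η ^ f.natDegree / η ^ (q * (i.1 + 1))) * HW q f w *
        Matrix.diagonal fun j : Fin w => η ^ (j.1 + 1) := by
    ext i j
    rw [Matrix.mul_diagonal, Matrix.diagonal_mul, HW_apply_PD, HW_apply_PD]
    generalize q * (i.1 + 1) = N
    split_ifs with h
    · obtain ⟨m, rfl⟩ := Nat.exists_eq_add_of_le h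
      rw [Nat.add_sub_cancel_left, coeff_scaleRoots]
      rcases le_or_gt m f.natDegree with hm | hm
      · obtain ⟨r, hr⟩ := Nat.exists_eq_add_of_le hm
        rw [hr, Nat.add_sub_cancel_left]
        field_simp
        ring
      · simp [coeff_eq_zero_of_natDegree_lt hm]
    · simp
  rw [e, Matrix.det_mul, Matrix.det_mul, Matrix.det_diagonal, Matrix.det_diagonal,
    mul_ne_zero_iff, mul_ne_zero_iff]
  exact ⟨fun h => h.1.2, fun h => ⟨⟨Finset.prod_ne_zero_iff.2 fun i _ =>
    div_ne_zero (pow_ne_zero _ hη) (pow_ne_zero _ hη), h⟩,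
    Finset.prod_ne_zero_iff.2 fun i _ => pow_ne_zero _ hη⟩⟩

theorem det_HW_C_mul (q w : ℕ) (f : k[X]) (c : k) (hc : c ≠ 0) :
    (HW q (C c * f) w).det ≠ 0 ↔ (HW q f w).det ≠ 0 := by
  have e : HW q (C c * f) w = c • HW q f w := by
    ext i j
    rw [Matrix.smul_apply, HW_apply_PD, HW_apply_PD, coeff_C_mul, smul_eq_mul, mul_ite, mul_zero]
  rw [e, Matrix.det_smul, mul_ne_zero_iff_left (pow_ne_zero _ hc)]

theorem det_HW_map {k' : Type} [Field k'] (φ : k →+* k') (q w : ℕ) (f : k[X]) :
    (HW q (f.map φ) w).det = φ (HW q f w).det := by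
  rw [RingHom.map_det]
  congr 1
  ext i j
  rw [RingHom.mapMatrix_apply, Matrix.map_apply, HW_apply_PD, HW_apply_PD, coeff_map]
  split_ifs
  · rfl
  · rw [map_zero]

end Pool.Agent.Adm
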