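import Pool.Agent.Adq.GP1
import Pool.Agent.Adq.DU
import Pool.Agent.Adq.PD

/-! Every polynomial is a Hasse-Witt determinant up to a power. -/

namespace Pool.Agent.Adm

open Polynomial

theorem sum_pow_le_GP2 (n ω : ℕ) : ∑ l : Fin n, 2 ^ (ω + l.1) ≤ 2 ^ (ω + n) := by
  induction n with
  | zero => simp
  | succ n ih =>
    rw [Fin.sum_univ_castSucc]
    simp only [Fin.val_castSucc, Fin.val_last]
    rw [← add_assoc, pow_succ]
    omega

theorem exists_root_GP2 {n : ℕ} (f : MvPolynomial (Fin n) K0) :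
    ∃ g : MvPolynomial (Fin n) K0, ∀ (k : Type) [Field k] [CharP k 2] (θ : K0 →+* k)
      (a : Fin n → k), MvPolynomial.eval₂Hom θ (fun l => a l ^ 2 ^ l.1) g =
        MvPolynomial.eval₂ θ a f ^ 2 ^ n := by
  refine ⟨MvPolynomial.eval₂Hom (MvPolynomial.C.comp (iterateFrobenius K0 2 n))
    (fun l => MvPolynomial.X l ^ 2 ^ (n - l.1)) f, fun k _ _ θ a => ?_⟩
  have : (MvPolynomial.eval₂Hom θ (fun l => a l ^ 2 ^ l.1)).comp
      (MvPolynomial.eval₂Hom (MvPolynomial.C.comp (iterateFrobenius K0 2 n))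
        (fun l => MvPolynomial.X l ^ 2 ^ (n - l.1))) =
      (iterateFrobenius k 2 n).comp (MvPolynomial.eval₂Hom θ a) := by
    refine MvPolynomial.ringHom_ext (fun x => ?_) fun l => ?_
    · simp [iterateFrobenius_def]
    · simp only [RingHom.comp_apply, MvPolynomial.eval₂Hom_X', map_pow, iterateFrobenius_def]
      rw [← pow_mul, ← pow_add, Nat.add_sub_cancel' l.2.le]
  exact RingHom.congr_fun this f

theorem exists_hw_poly {n : ℕ} (f : MvPolynomial (Fin n) K0) :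
    ∃ (s ω e : ℕ) (E : K0[X]), Odd s ∧ ω + n < e ∧ 0 < ω ∧ E.natDegree < s * 2 ^ e ∧
      (∀ x : K0, x ^ s = 1 → E.eval x ≠ 0) ∧
      ∀ (r N : ℕ), e ≤ r → s ∣ N → 2 ^ r % s = 1 % s → 2 ^ e ∣ N + 1 →
        s + N * 2 ^ (ω + n) ≤ 2 ^ r →
        ∀ (k : Type) [Field k] (θ : K0 →+* k) (a : Fin n → k),
          (HW (2 ^ r) ((E * (X ^ s - 1) ^ (2 ^ r - 2 ^ e)).map θ *
            ∏ l, (X ^ N - C (a l)) ^ 2 ^ (ω + l.1)) s).det =
            MvPolynomial.eval₂ θ a f ^ 2 ^ (ω + n) := by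
  classical
  obtain ⟨g, hg⟩ := exists_root_GP2 f
  obtain ⟨s, hs, M0, M1, hM⟩ := exists_det_eq g
  obtain ⟨E, hE, hE0, hw⟩ := exists_window n s s (s + n + 1) hs Nat.lt_two_pow_self
    (Nat.lt_succ_self _) fun i j S => (if S = Finset.univ then M0 i j ^ 2 ^ s else 0) +
      ∑ l, if S = {l}ᶜ then M1 l i j ^ 2 ^ s else 0
  refine ⟨s, s, s + n + 1, E, hs, Nat.lt_succ_self _, hs.pos, hE, hE0,
    fun r N her hsN hq hN hle k _ θ a => ?_⟩
  have : CharP k 2 := charP_of_injective_ringHom θ.injective 2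
  have e1 : HW (2 ^ r) ((E * (X ^ s - 1) ^ (2 ^ r - 2 ^ (s + n + 1))).map θ *
      ∏ l, (X ^ N - C (a l)) ^ 2 ^ (s + l.1)) s =
      ((iterateFrobenius k 2 s).comp
        (MvPolynomial.eval₂Hom θ fun l => a l ^ 2 ^ l.1)).mapMatrix
        (Matrix.of fun i j => MvPolynomial.C (M0 i j) +
          ∑ l, MvPolynomial.C (M1 l i j) * MvPolynomial.X l) := by
    ext i j
    have hi := i.2
    have hj := j.2
    have h1 : 2 ^ r ≤ 2 ^ r * (i.1 + 1) := Nat.le_mul_of_pos_right _ (Nat.succ_pos _)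
    have h2 : 2 ^ r * (i.1 + 1) ≤ s * 2 ^ r := by
      rw [mul_comm]; exact Nat.mul_le_mul_right _ hi
    have h3 : ∀ S : Finset (Fin n), N * ∑ l ∈ S, 2 ^ (s + l.1) ≤ N * 2 ^ (s + n) := fun S =>
      Nat.mul_le_mul_left _ ((Finset.sum_le_sum_of_subset S.subset_univ).trans
        (sum_pow_le_GP2 n s))
    have h4 := h3 Finset.univ
    rw [HW_apply_PD, if_pos (by omega), coeff_mul_prod _ _ _ _ _ (by omega)]
    have h5 : ∀ S : Finset (Fin n),
        ((E * (X ^ s - 1) ^ (2 ^ r - 2 ^ (s + n + 1))).map θ).coeff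
          (2 ^ r * (i.1 + 1) - (j.1 + 1) - N * ∑ l ∈ S, 2 ^ (s + l.1)) =
        (if S = Finset.univ then θ (M0 i j) ^ 2 ^ s else 0) +
          ∑ l, if S = {l}ᶜ then θ (M1 l i j) ^ 2 ^ s else 0 := fun S => by
      have h6 := h3 S
      rw [coeff_map, coeff_periodic s _ r hs.pos her E hE _ (by omega),
        hw (2 ^ r) N _ i j S hsN hq (pow_dvd_pow 2 her) hN (by omega), map_add, map_sum]
      simp only [apply_ite θ, map_pow, map_zero]
    simp only [h5]
    simp only [mul_add, Finset.sum_add_distrib, Finset.mul_sum, mul_ite, mul_zero]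
    rw [Finset.sum_comm]
    simp only [Finset.sum_ite_eq', Finset.mem_univ, if_true, compl_compl, Finset.compl_univ,
      Finset.prod_empty, Finset.prod_singleton, one_mul, RingHom.mapMatrix_apply,
      Matrix.map_apply, Matrix.of_apply, map_add, map_sum, map_mul, RingHom.comp_apply,
      MvPolynomial.eval₂Hom_C, MvPolynomial.eval₂Hom_X', iterateFrobenius_def]
    refine congrArg _ (Finset.sum_congr rfl fun l _ => ?_)
    rw [← pow_mul, ← pow_add, add_comm l.1, mul_comm]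
  rw [e1, ← RingHom.map_det, hM, RingHom.comp_apply, hg, iterateFrobenius_def, ← pow_mul,
    ← pow_add, add_comm]

end Pool.Agent.Adm
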