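import Pool.Agent.Adq.GP

/-! Test polynomials adapted to a triple and a set of marked points. -/

namespace Pool.Agent.Adm

open Polynomial in
theorem tpoly_drop_GT {k : Type} [Field k] {n : ℕ} (θ : K0 →+* k) (𝔽0 : FF) (η : k) (n0 : ℕ)
    (n1 : 𝔽0.Fˣ → ℕ) (nn : Fin n → ℕ) (a : Fin n → k) (J : Finset (Fin n)) :
    tpoly θ 𝔽0 η (n0 + 𝔽0.m * ∑ l, if l ∈ J then 0 else nn l) n1
        (fun l => if l ∈ J then nn l else 0) a =
      tpoly θ 𝔽0 η n0 n1 nn fun l => if l ∈ J then a l else 0 := by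
  have e : ∏ l, (X ^ 𝔽0.m - C (if l ∈ J then a l else 0) : k[X]) ^ nn l =
      (∏ l, (X ^ 𝔽0.m) ^ (if l ∈ J then 0 else nn l)) *
        ∏ l, (X ^ 𝔽0.m - C (a l)) ^ (if l ∈ J then nn l else 0) := by
    rw [← Finset.prod_mul_distrib]
    refine Finset.prod_congr rfl fun l _ => ?_
    split_ifs <;> simp
  unfold tpoly
  rw [e, Finset.prod_pow_eq_pow_sum, pow_add, pow_mul]
  ring

theorem exists_test_poly' {n : ℕ} (f : MvPolynomial (Fin n) K0) {i0 i1 : Fin n} (h01 : i0 ≠ i1)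
    (I : Finset (Fin n)) :
    ∃ ρ B : ℕ, 0 < ρ ∧ ∀ 𝔽0 𝔽 : FF, 𝔽0.r = ρ → ρ ∣ 𝔽.r → B ≤ 𝔽.r →
      ∃ (n0 : ℕ) (n1 : 𝔽0.Fˣ → ℕ) (nn : Fin n → ℕ) (w : ℕ),
        (∀ l, l = i0 ∨ l = i1 ∨ l ∉ I → nn l = 0) ∧
        n0 + 𝔽0.m * ∑ l, nn l < 𝔽.m ∧ (∀ t, n1 t + ∑ l, nn l < 𝔽.m) ∧
        w * 𝔽.m < n0 + ∑ t, n1 t + 𝔽0.m * ∑ l, nn l ∧
        n0 + ∑ t, n1 t + 𝔽0.m * ∑ l, nn l ≤ (w + 1) * 𝔽.m ∧
        ∀ (k : Type) [Field k] (θ : K0 →+* k) (η : k) (a : Fin n → k), η ^ 𝔽0.m = 1 →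
          a i0 = 0 → a i1 = 1 →
          ((HW (2 ^ 𝔽.r) (tpoly θ 𝔽0 η n0 n1 nn a) w).det ≠ 0 ↔
            MvPolynomial.eval₂ θ (fun l => if l ∈ I then a l else 0) f ≠ 0) := by
  obtain ⟨J, hJ⟩ : ∃ J : Finset (Fin n), ∀ l, l ∈ J ↔ l ≠ i0 ∧ l ≠ i1 ∧ l ∈ I :=
    ⟨(I.erase i1).erase i0, fun l => by simp only [Finset.mem_erase]⟩
  obtain ⟨ρ, B, hρ, H⟩ := exists_test_poly i0.pos (MvPolynomial.bind₁ (fun l =>
    if l ∈ J then MvPolynomial.X l else if l = i1 ∧ l ∈ I then 1 else 0) f)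
  refine ⟨ρ, B, hρ, fun 𝔽0 𝔽 h1 h2 h3 => ?_⟩
  obtain ⟨n0, n1, nn, w, k1, k2, k3, k4, k5⟩ := H 𝔽0 𝔽 h1 h2 h3
  have hs : ∑ l, nn l = (∑ l, if l ∈ J then 0 else nn l) + ∑ l, if l ∈ J then nn l else 0 := by
    rw [← Finset.sum_add_distrib]
    refine Finset.sum_congr rfl fun l _ => ?_
    split_ifs <;> simp
  rw [hs, mul_add] at k1 k3 k4
  refine ⟨n0 + 𝔽0.m * ∑ l, if l ∈ J then 0 else nn l, n1, fun l => if l ∈ J then nn l else 0, w,
    fun l hl => if_neg fun h => ?_, by beta_reduce; omega, fun t => ?_, by beta_reduce; omega,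
    by beta_reduce; omega, fun k _ θ η a hη a0 a1 => ?_⟩
  · obtain ⟨b1, b2, b3⟩ := (hJ l).1 h
    tauto
  · have := k2 t
    beta_reduce
    omega
  · rw [tpoly_drop_GT, k5 k θ η _ hη, ← MvPolynomial.coe_eval₂Hom, MvPolynomial.eval₂Hom_bind₁,
      MvPolynomial.coe_eval₂Hom]
    have e : (fun l => MvPolynomial.eval₂Hom θ (fun l => if l ∈ J then a l else 0)
        (if l ∈ J then MvPolynomial.X l else if l = i1 ∧ l ∈ I then 1 else 0)) =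
        fun l => if l ∈ I then a l else 0 := by
      funext l
      by_cases b1 : l ∈ J
      · simp [b1, ((hJ l).1 b1).2.2]
      · by_cases b2 : l ∈ I
        · by_cases b3 : l = i1
          · subst b3
            simp [b1, b2, a1]
          · have b4 : l = i0 := by
              by_contra b4
              exact b1 ((hJ l).2 ⟨b4, b3, b2⟩)
            subst b4
            simp [b1, b3, a0]
        · simp [b1, b2]
    rw [e]

end Pool.Agent.Adm
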