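import Pool.Agent.Adq.KR
import Pool.Agent.Adq.D3
import Pool.Agent.Adq.VPL
import Pool.Agent.Adq.MB

/-! Kummer coverings of pointed lines. -/

namespace Pool.Agent.Adm

open scoped OnePoint

variable {G : Type} [Group G]

theorem pow_pow_KRV (𝔽0 : FF) (c : ℕ) (t : 𝔽0.Fˣ) :
    (t ^ 2 ^ c) ^ 2 ^ ((𝔽0.r - 1) * c) = t := by
  have h : c + (𝔽0.r - 1) * c = 𝔽0.r * c := by
    obtain ⟨n, hn⟩ := Nat.exists_eq_succ_of_ne_zero 𝔽0.r_pos.ne'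
    rw [hn, Nat.succ_sub_one, Nat.succ_mul, add_comm]
  rw [← pow_mul, ← pow_add, h, 𝔽0.pow_two_pow_r]

theorem pow_pow'_KRV (𝔽0 : FF) (c : ℕ) (t : 𝔽0.Fˣ) :
    (t ^ 2 ^ ((𝔽0.r - 1) * c)) ^ 2 ^ c = t := by
  rw [← pow_mul, mul_comm, pow_mul, pow_pow_KRV]

theorem sigma_KRV (𝔽0 : FF) (c : ℕ) (σ0 : K0 →+* K0) (hσ0 : ∀ x, σ0 x ^ 2 ^ c = x)
    (t : 𝔽0.Fˣ) : 𝔽0.θ ((t ^ 2 ^ ((𝔽0.r - 1) * c) : 𝔽0.Fˣ) : 𝔽0.F) = σ0 (𝔽0.θ t) := by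
  apply (iterateFrobenius K0 2 c).injective
  rw [iterateFrobenius_def, iterateFrobenius_def, hσ0, ← map_pow, ← Units.val_pow_eq_pow_val,
    pow_pow'_KRV]

theorem VP.kummer {k σ : Type} [Field k] [IsAlgClosed k] [DecidableEq σ] {θ : K0 →+* k}
    {P : σ → OnePoint k} {d : σ → G} {R : Subgroup G} (h : VP θ P d R)
    (hP : Function.Injective P) (𝔽0 : FF) (χ0 : G →* 𝔽0.Fˣ) {s0 s2 : σ}
    (h0 : P s0 = ((0 : k) : OnePoint k)) (h2 : P s2 = ∞) (c : ℕ) (σ0 : K0 →+* K0)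
    (hσ0 : ∀ x, σ0 x ^ 2 ^ c = x) (hK : KumLab χ0 d s0 s2 (𝔽0.u ^ 2 ^ c)) (γ : 𝔽0.Fˣ → G)
    (hγ : ∀ t, χ0 (γ t) = t ∧ γ t ∈ R) :
    ∃ (α : σ → k) (P' : YI σ 𝔽0.Fˣ s0 s2 → OnePoint k), (∀ s (a : k), P s = a → α s ^ 𝔽0.m = a) ∧
      Function.Injective P' ∧
      (∀ y, P' y = if y.1.1 = s2 then ∞ else
        ((θ (σ0 (𝔽0.θ y.1.2)) * α y.1.1 : k) : OnePoint k)) ∧
      VP θ P' (yd 𝔽0.m d s0 s2 γ) (R ⊓ χ0.ker) := by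
  obtain ⟨cv, rfl, hu, hd⟩ := h
  obtain ⟨χ1, hχ⟩ : ∃ χ1 : G →* 𝔽0.Fˣ, ∀ g, χ1 g = χ0 g ^ 2 ^ ((𝔽0.r - 1) * c) :=
    ⟨(powMonoidHom (2 ^ ((𝔽0.r - 1) * c))).comp χ0, fun _ => rfl⟩
  have hker : χ1.ker = χ0.ker := by
    ext g
    rw [MonoidHom.mem_ker, MonoidHom.mem_ker, hχ]
    refine ⟨fun e => ?_, fun e => by rw [e, one_pow]⟩
    rw [← pow_pow'_KRV 𝔽0 c (χ0 g), e, one_pow]
  have hγ1 : ∀ t, θ (𝔽0.θ (χ1 (γ t))) = θ (σ0 (𝔽0.θ t)) := fun t => by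
    rw [hχ, (hγ t).1, sigma_KRV 𝔽0 c σ0 hσ0]
  have h02 : s0 ≠ s2 := fun e => OnePoint.coe_ne_infty (0 : k) (by rw [← h0, e, h2])
  have n0 : ∀ s (a : k), P s = a → a ≠ 0 → s ≠ s0 := fun s a e ha e' =>
    ha (OnePoint.coe_eq_coe.1 (by rw [← e, e', h0]))
  have n2 : ∀ s (a : k), P s = a → s ≠ s2 := fun s a e e' =>
    OnePoint.coe_ne_infty a (by rw [← e, e', h2])
  have fin : ∀ s, s ≠ s2 → ∃ a : k, P s = a := fun s hs => by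
    obtain ⟨a, ha⟩ := OnePoint.ne_infty_iff_exists.1 fun e : P s = ∞ => hs (hP (e.trans h2.symm))
    exact ⟨a, ha.symm⟩
  have nz : ∀ s (a : k), P s = a → s ≠ s0 → a ≠ 0 := fun s a e hs ha =>
    hs (hP (by rw [e, h0, ha]))
  obtain ⟨c', hr, m0, m2, m1⟩ := cv.exists_kummer_M θ 𝔽0 χ1
    ⟨d s0, h0 ▸ hd s0, by rw [hχ, hK.1, pow_pow_KRV]⟩ fun a ha => by
      by_cases hm : (a : OnePoint k) ∈ Set.range P
      · obtain ⟨s, e⟩ := hm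
        exact ⟨d s, e ▸ hd s, by rw [hχ, hK.2.2 s (n0 s a e ha) (n2 s a e), one_pow]⟩
      · exact ⟨1, hu _ hm, map_one _⟩
  have hα : ∀ s, ∃ α : k, (∀ a : k, P s = a → α ^ 𝔽0.m = a) ∧ (s ≠ s0 → s ≠ s2 → ∀ t : 𝔽0.Fˣ,
      c'.M θ ((θ (σ0 (𝔽0.θ t)) * α : k) : OnePoint k) ((γ t)⁻¹ * d s * γ t)) := by
    intro s
    by_cases e0 : s = s0
    · refine ⟨0, fun a e => ?_, fun h => absurd e0 h⟩
      rw [zero_pow 𝔽0.m_pos.ne']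
      exact OnePoint.coe_eq_coe.1 (by rw [← e, e0, h0])
    by_cases e2 : s = s2
    · exact ⟨0, fun a e => absurd e2 (n2 s a e), fun _ h => absurd e2 h⟩
    obtain ⟨a, e⟩ := fin s e2
    obtain ⟨α, a1, a2⟩ := m1 a (d s) (nz s a e e0) (e ▸ hd s)
    refine ⟨α, fun b e' => a1.trans (OnePoint.coe_eq_coe.1 (e.symm.trans e')), fun _ _ t => ?_⟩
    rw [← hγ1]
    exact a2 _ (hγ t).2
  choose α a1 a2 using hα
  have z0 : α s0 = 0 := pow_eq_zero_iff 𝔽0.m_pos.ne' |>.1 (a1 s0 0 h0)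
  have hpow : ∀ t : 𝔽0.Fˣ, θ (σ0 (𝔽0.θ t)) ^ 𝔽0.m = 1 := 𝔽0.theta_pow_m (θ.comp σ0)
  have root : ∀ x y : k, y ≠ 0 → x ^ 𝔽0.m = y ^ 𝔽0.m →
      ∃ t : 𝔽0.Fˣ, θ (σ0 (𝔽0.θ t)) * x = y := by
    intro x y hy e
    have hx : x ≠ 0 := by
      rintro rfl
      rw [zero_pow 𝔽0.m_pos.ne'] at e
      exact pow_ne_zero _ hy e.symm
    obtain ⟨t, ht⟩ := 𝔽0.exists_unit (θ.comp σ0) (y / x)
      (by rw [div_pow, ← e, div_self (pow_ne_zero _ hx)])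
    exact ⟨t, by rw [show θ (σ0 (𝔽0.θ t)) = y / x from ht, div_mul_cancel₀ _ hx]⟩
  refine ⟨α, fun y => if y.1.1 = s2 then ∞ else
    ((θ (σ0 (𝔽0.θ y.1.2)) * α y.1.1 : k) : OnePoint k), a1, ?_, fun _ => rfl, c',
    by rw [hr, hker], fun b hb => ?_, ?_⟩
  · rintro ⟨⟨s, t⟩, hy⟩ ⟨⟨s', t'⟩, hy'⟩ e
    dsimp only at e hy hy'
    apply Subtype.ext
    by_cases e2 : s = s2 <;> by_cases e2' : s' = s2
    · exact Prod.ext (e2.trans e2'.symm) ((hy (.inr e2)).trans (hy' (.inr e2')).symm)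
    · rw [if_pos e2, if_neg e2'] at e
      exact absurd e (OnePoint.infty_ne_coe _)
    · rw [if_neg e2, if_pos e2'] at e
      exact absurd e (OnePoint.coe_ne_infty _)
    · rw [if_neg e2, if_neg e2', OnePoint.coe_eq_coe] at e
      obtain ⟨a, ha⟩ := fin s e2
      obtain ⟨a', ha'⟩ := fin s' e2'
      have e3 := congrArg (· ^ 𝔽0.m) e
      simp only [mul_pow, hpow, one_mul, a1 s a ha, a1 s' a' ha'] at e3
      obtain rfl : s = s' := hP (by rw [ha, ha', e3])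
      by_cases e0 : s = s0
      · exact Prod.ext rfl ((hy (.inl e0)).trans (hy' (.inl e0)).symm)
      · have hne : α s ≠ 0 := fun hz => nz s a ha e0 (by
          rw [← a1 s a ha, hz, zero_pow 𝔽0.m_pos.ne'])
        exact Prod.ext rfl (𝔽0.theta_injective (θ.comp σ0) (mul_right_cancel₀ hne e))
  · induction b using OnePoint.rec with
    | infty => exact absurd ⟨⟨(s2, 1), fun _ => rfl⟩, if_pos rfl⟩ hb
    | coe β =>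
      have hβ : β ≠ 0 := by
        rintro rfl
        refine hb ⟨⟨(s0, 1), fun _ => rfl⟩, (if_neg h02).trans ?_⟩
        rw [z0, mul_zero]
      have hβ' : β ^ 𝔽0.m ≠ 0 := pow_ne_zero _ hβ
      by_cases hm : ((β ^ 𝔽0.m : k) : OnePoint k) ∈ Set.range P
      · obtain ⟨s, e⟩ := hm
        obtain ⟨t, ht⟩ := root (α s) β hβ (a1 s _ e)
        refine absurd ⟨⟨(s, t), fun h => ?_⟩, (if_neg (n2 s _ e)).trans ?_⟩ hb
        · exact (h.elim (n0 s _ e hβ') (n2 s _ e)).elim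
        · rw [ht]
      · obtain ⟨x, x1, x2⟩ := m1 _ 1 hβ' (hu _ hm)
        obtain ⟨t, ht⟩ := root x β hβ x1
        have h5 := x2 _ (hγ t).2
        rwa [hγ1, ht, mul_one, inv_mul_cancel] at h5
  · rintro ⟨⟨s, t⟩, hy⟩
    dsimp only [yd]
    by_cases e2 : s = s2
    · rw [if_pos e2, if_pos (.inr e2), e2]
      exact m2 _ (h2 ▸ hd s2)
    by_cases e0 : s = s0
    · rw [if_neg e2, if_pos (.inl e0), e0, z0, mul_zero]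
      exact m0 _ (h0 ▸ hd s0)
    · rw [if_neg e2, if_neg (not_or.2 ⟨e0, e2⟩)]
      exact a2 s e0 e2 t

theorem exists_frob_inv (c : ℕ) : ∃ σ0 : K0 →+* K0, ∀ x, σ0 x ^ 2 ^ c = x := by
  refine ⟨(iterateFrobeniusEquiv K0 2 c).symm.toRingHom, fun x => ?_⟩
  exact (iterateFrobeniusEquiv K0 2 c).apply_symm_apply x

theorem Geo.kummer {ι : Type} [DecidableEq ι] {d : ι → G} {R : Subgroup G}
    (h : Geo Set.univ d R) (𝔽0 : FF) (χ0 : G →* 𝔽0.Fˣ) {i0 i2 : ι} (h02 : i0 ≠ i2) (c : ℕ)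
    (hK : KumLab χ0 d i0 i2 (𝔽0.u ^ 2 ^ c)) (γ : 𝔽0.Fˣ → G) (hγ : ∀ t, χ0 (γ t) = t ∧ γ t ∈ R) :
    Geo Set.univ (yd 𝔽0.m d i0 i2 γ) (R ⊓ χ0.ker) := by
  obtain ⟨k, i1, i3, θ, p, hp, h⟩ := h
  have h1 : VP θ (fun i : ι => p ⟨i, trivial⟩) d R :=
    h.reindex (fun i : ι => (⟨i, trivial⟩ : (Set.univ : Set ι))) fun s => ⟨s.1, rfl⟩
  have hp1 : Function.Injective fun i : ι => p ⟨i, trivial⟩ := fun a b e =>
    congrArg Subtype.val (hp e)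
  obtain ⟨μ, m1, m2, m3⟩ := exists_mob_zero_infty _ _ (hp1.ne h02)
  obtain ⟨σ0, hσ0⟩ := exists_frob_inv c
  obtain ⟨α, P', -, h3, -, h4⟩ := (h1.mob μ m1.1).kummer (μ.injective.comp hp1) 𝔽0 χ0 m2 m3 c σ0
    hσ0 hK γ hγ
  exact h4.geo h3

theorem exists_section (𝔽0 : FF) (χ0 : G →* 𝔽0.Fˣ) (c : ℕ) (g : G)
    (hg : χ0 g = 𝔽0.u ^ 2 ^ c ∨ χ0 g = (𝔽0.u ^ 2 ^ c)⁻¹) :
    ∃ γ : 𝔽0.Fˣ → G, ∀ t, χ0 (γ t) = t ∧ γ t ∈ Subgroup.zpowers g := by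
  have key : ∀ t, ∃ x, χ0 x = t ∧ x ∈ Subgroup.zpowers g := by
    intro t
    obtain ⟨n, -, rfl⟩ := 𝔽0.exists_log t
    rcases hg with hg | hg
    · refine ⟨(g ^ 2 ^ ((𝔽0.r - 1) * c)) ^ n, ?_,
        pow_mem (Subgroup.npow_mem_zpowers _ _) _⟩
      rw [map_pow, map_pow, hg, pow_pow_KRV]
    · refine ⟨(g⁻¹ ^ 2 ^ ((𝔽0.r - 1) * c)) ^ n, ?_,
        pow_mem (pow_mem (inv_mem (Subgroup.mem_zpowers g)) _) _⟩
      rw [map_pow, map_pow, map_inv, hg, inv_inv, pow_pow_KRV]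
  choose γ hγ using key
  exact ⟨γ, hγ⟩

theorem yd_mem_ker {ι : Type} [DecidableEq ι] (𝔽0 : FF) (χ0 : G →* 𝔽0.Fˣ) {d : ι → G}
    {i0 i2 : ι} {u : 𝔽0.Fˣ} (hK : KumLab χ0 d i0 i2 u) (γ : 𝔽0.Fˣ → G)
    (y : YI ι 𝔽0.Fˣ i0 i2) : yd 𝔽0.m d i0 i2 γ y ∈ χ0.ker := by
  rw [MonoidHom.mem_ker, yd]
  split_ifs with h
  · rw [map_pow, 𝔽0.pow_m]
  · rw [not_or] at h
    rw [map_mul, map_mul, hK.2.2 _ h.1 h.2, mul_one, map_inv, inv_mul_cancel]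

theorem Geo.exists_isYD {ι : Type} [DecidableEq ι] {d : ι → G} (h : Geo Set.univ d ⊤) (𝔽0 : FF)
    (χ0 : G →* 𝔽0.Fˣ) {i0 i2 : ι} (h02 : i0 ≠ i2) (c : ℕ)
    (hK : KumLab χ0 d i0 i2 (𝔽0.u ^ 2 ^ c)) :
    ∃ e, IsYD 𝔽0.m χ0 d i0 i2 e ∧ Geo Set.univ e ⊤ := by
  obtain ⟨γ, hγ⟩ := exists_section 𝔽0 χ0 c (d i0) (.inl hK.1)
  refine ⟨fun y => ⟨yd 𝔽0.m d i0 i2 γ y, yd_mem_ker 𝔽0 χ0 hK γ y⟩,
    ⟨γ, fun t => (hγ t).1, fun _ => rfl⟩, ?_⟩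
  have h1 := Geo.restr χ0.ker inf_le_right
    (fun y => ⟨yd 𝔽0.m d i0 i2 γ y, yd_mem_ker 𝔽0 χ0 hK γ y⟩)
    (h.kummer 𝔽0 χ0 h02 c hK γ fun t => ⟨(hγ t).1, Subgroup.mem_top _⟩)
  rwa [top_inf_eq, Subgroup.subgroupOf_self] at h1

theorem card_YI {ι A : Type} [Fintype ι] [DecidableEq ι] [CommGroup A] [Fintype A]
    [DecidableEq A] {i0 i2 : ι} (h02 : i0 ≠ i2) :
    Fintype.card (YI ι A i0 i2) = Fintype.card A * (Fintype.card ι - 2) + 2 := by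
  have e : (Finset.univ.filter fun y : ι × A => (y.1 = i0 ∨ y.1 = i2) → y.2 = 1) =
      (({i0, i2}ᶜ : Finset ι) ×ˢ (Finset.univ : Finset A)) ∪
        (({i0, i2} : Finset ι) ×ˢ ({1} : Finset A)) := by
    ext y
    simp only [Finset.mem_filter, Finset.mem_univ, true_and, Finset.mem_union, Finset.mem_product,
      Finset.mem_compl, Finset.mem_insert, Finset.mem_singleton, and_true]
    tauto
  rw [Fintype.card_subtype, e, Finset.card_union_of_disjoint, Finset.card_product,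
    Finset.card_product, Finset.card_compl, Finset.card_pair h02, Finset.card_univ,
    Finset.card_singleton, mul_comm]
  exact Finset.disjoint_left.2 fun y h1 h2 =>
    Finset.mem_compl.1 (Finset.mem_product.1 h1).1 (Finset.mem_product.1 h2).1

end Pool.Agent.Adm
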