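import Pool.Agent.Adq.RR1
import Pool.Agent.Adq.EY
import Pool.Agent.Adq.ASM
import Pool.Agent.Adq.KRV

/-! Existence of rich coverings. -/

namespace Pool.Agent.Adm

theorem bitv_equiv_RR {r : ℕ} {ι ι' : Type} [DecidableEq ι] [DecidableEq ι'] (E : ι ≃ ι')
    (o : Fin r → ι) (l : ι) : bitv (fun b => E (o b)) (E l) = bitv o l := by
  simp only [bitv, EmbeddingLike.apply_eq_iff_eq]

theorem bitv_pos_RR {r : ℕ} {ι : Type} [DecidableEq ι] {o : Fin r → ι}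
    (ho : Function.Surjective o) (l : ι) : 0 < bitv o l := by
  obtain ⟨b, hb⟩ := ho l
  exact Finset.sum_pos (fun _ _ => by positivity) ⟨b, by simpa using hb⟩

theorem pow_bitv_ne_RR (𝔽 : FF) {ι : Type} [Fintype ι] [DecidableEq ι] {o : Fin 𝔽.r → ι}
    (ho : Function.Surjective o) {l l' : ι} (h : l ≠ l') : 𝔽.u ^ bitv o l ≠ 1 := by
  have h1 : bitv o l + bitv o l' ≤ 𝔽.m := by
    rw [← Finset.sum_pair h, FF.m, ← sum_bitv o]
    exact Finset.sum_le_sum_of_subset (Finset.subset_univ _)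
  have h2 := bitv_pos_RR ho l
  have h3 := bitv_pos_RR ho l'
  exact 𝔽.u_prim.pow_ne_one_of_pos_of_lt h2.ne' (by omega)

theorem ysh_ysh_RR {ι A : Type} [DecidableEq ι] [CommGroup A] {i0 i2 : ι} (sh sh' : ι → A)
    (h : ∀ l, sh' l * sh l = 1) (y : YI ι A i0 i2) : ysh sh' (ysh sh y) = y := by
  refine Subtype.ext (Prod.ext rfl ?_)
  change (if y.1.1 = i0 ∨ y.1.1 = i2 then 1 else sh' y.1.1 *
    if y.1.1 = i0 ∨ y.1.1 = i2 then 1 else sh y.1.1 * y.1.2) = y.1.2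
  split_ifs with e
  · exact (y.2 e).symm
  · rw [← mul_assoc, h, one_mul]

/-- Translation in the fibres as a permutation. -/
def yshE_RR {ι A : Type} [DecidableEq ι] [CommGroup A] {i0 i2 : ι} (sh : ι → A) :
    YI ι A i0 i2 ≃ YI ι A i0 i2 where
  toFun := ysh sh
  invFun := ysh fun l => (sh l)⁻¹
  left_inv := ysh_ysh_RR _ _ fun _ => inv_mul_cancel _
  right_inv := ysh_ysh_RR _ _ fun _ => mul_inv_cancel _

theorem rich_of_YP_RR {n : ℕ} (𝔽0 𝔽 : FF) {i0 i2 : Fin n} (h02 : i0 ≠ i2)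
    {wt : {x : YI (Fin n) 𝔽0.Fˣ i0 i2 → ZMod 𝔽.m // ∑ y, x y = 0} → ℕ}
    (hw : ∀ j (o : Fin 𝔽.r → YI (Fin n) 𝔽0.Fˣ i0 i2), Function.Surjective o →
      (j.1 = fun y => -(bitv o y : ZMod 𝔽.m)) → wt j = 𝔽0.m * (n - 2))
    {G : Type} [Group G] {d : Fin n → G} (h : YP 𝔽0 𝔽 i0 i2 Subtype.val wt G d) :
    Rich 𝔽0 𝔽 i0 i2 G d := by
  obtain ⟨χ0, hK, sh, h⟩ := h
  refine ⟨χ0, hK, fun e he => ⟨fun x hx => ?_, fun o ho => ?_⟩⟩
  · obtain ⟨χ, h1, -⟩ := h e he ⟨fun y => (x ((yshE_RR sh).symm y) : ZMod 𝔽.m), by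
      rw [← Nat.cast_sum, Equiv.sum_comp (yshE_RR sh).symm x, ZMod.natCast_eq_zero_iff]
      exact hx⟩
    refine ⟨χ, fun y => ?_⟩
    rw [h1 y]
    change 𝔽.u ^ (x ((yshE_RR sh).symm (yshE_RR sh y)) : ZMod 𝔽.m).val = _
    rw [Equiv.symm_apply_apply, 𝔽.pow_val_natCast]
  · obtain ⟨χ, h1, h2⟩ := h e he ⟨fun y => -(bitv (fun b => yshE_RR sh (o b)) y : ZMod 𝔽.m), by
      rw [Finset.sum_neg_distrib, ← Nat.cast_sum, sum_bitv, neg_eq_zero]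
      exact ZMod.natCast_self 𝔽.m⟩
    have h3 : ∀ y, χ (e y) * 𝔽.u ^ bitv o y = 1 := fun y => by
      rw [h1 y]
      change 𝔽.u ^ (-(bitv (fun b => yshE_RR sh (o b)) (yshE_RR sh y) : ZMod 𝔽.m)).val * _ = _
      rw [bitv_equiv_RR, 𝔽.pow_val_neg, 𝔽.pow_val_natCast, inv_mul_cancel]
    refine ⟨χ, h3, ?_⟩
    have h4 := h2 fun e1 => pow_bitv_ne_RR 𝔽 ho (l := ⟨(i0, 1), fun _ => rfl⟩)
      (l' := ⟨(i2, 1), fun _ => rfl⟩) (fun e2 => h02 (congrArg (fun y => y.1.1) e2))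
      (by simpa [e1] using h3 ⟨(i0, 1), fun _ => rfl⟩)
    rw [hw _ _ ((yshE_RR sh).surjective.comp ho) rfl] at h4
    rw [card_YI h02, 𝔽0.card_units, Fintype.card_fin]
    omega

theorem Pt.real_rich {n : ℕ} {σ : Shape n} (z : Pt σ) (𝔽0 𝔽 : FF) {i0 i2 : Fin n}
    (h02 : i0 ≠ i2) : z.Real (Rich 𝔽0 𝔽 i0 i2) := by
  classical
  obtain ⟨α, hα⟩ := z.exists_kumCoord 𝔽0 i0 i2 (fun _ => 1) fun _ => one_ne_zero
  let wt : {x : YI (Fin n) 𝔽0.Fˣ i0 i2 → ZMod 𝔽.m // ∑ y, x y = 0} → Fin σ.r → 𝔽0.Fˣ → ℕ :=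
    fun j v t => if ∃ o : Fin 𝔽.r → YI (Fin n) 𝔽0.Fˣ i0 i2, Function.Surjective o ∧
        j.1 = fun y => -(bitv o y : ZMod 𝔽.m) then
      if σ.OnPath i0 i2 v then if t = 1 then 𝔽0.m * (Fintype.card (σ.Sl v) - 2) else 0
      else Fintype.card (σ.Sl v) - 2 else 0
  refine (z.real_YP 𝔽0 𝔽 h02 Subtype.val (fun j => j.2) hα wt (fun j v hv => ⟨?_, fun t ht => ?_⟩)
    fun j v t hv => ?_).mono fun G _ _ d hd => rich_of_YP_RR 𝔽0 𝔽 h02 (fun j o ho e => ?_) hd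
  · simp only [wt, if_pos hv, if_true]
    split_ifs with h
    · obtain ⟨o, ho, e⟩ := h
      rw [e]
      exact z.hwok_pure_path 𝔽0 𝔽 hv (hα.kumAt hv) o ho
    · exact Or.inl rfl
  · simp only [wt, if_pos hv, if_neg ht, ite_self]
  · simp only [wt, if_neg hv]
    split_ifs with h
    · obtain ⟨o, ho, e⟩ := h
      rw [e]
      exact z.hwok_pure_off 𝔽0 𝔽 hv o ho t
    · exact Or.inl rfl
  · have h1 : ∀ v, ∑ t, wt j v t = 𝔽0.m * (Fintype.card (σ.Sl v) - 2) := fun v => by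
      simp only [wt, if_pos (⟨o, ho, e⟩ : ∃ o : Fin 𝔽.r → YI (Fin n) 𝔽0.Fˣ i0 i2,
        Function.Surjective o ∧ j.1 = fun y => -(bitv o y : ZMod 𝔽.m))]
      split_ifs
      · rw [Finset.sum_ite_eq', if_pos (Finset.mem_univ _)]
      · rw [Finset.sum_const, Finset.card_univ, 𝔽0.card_units, smul_eq_mul]
    simp only [h1]
    rw [← Finset.mul_sum, Nat.eq_sub_of_add_eq σ.sum_card_sub_two]

theorem Rich.richG {n : ℕ} {𝔽0 𝔽 : FF} (h1 : 𝔽0.r = 1) {i0 i2 : Fin n} {G : Type} [Group G]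
    [Finite G] {d : Fin n → G} (h : Rich 𝔽0 𝔽 i0 i2 G d) : RichG 𝔽 d := by
  have hm : 𝔽0.m = 1 := by rw [FF.m, h1]; rfl
  have : Subsingleton 𝔽0.Fˣ := Fintype.card_le_one_iff_subsingleton.1 (𝔽0.card_units.trans hm).le
  obtain ⟨χ0, -, h⟩ := h
  let π : G →* χ0.ker := (MonoidHom.id G).codRestrict _ fun _ => Subsingleton.elim _ _
  have hπ : Function.Surjective π := fun g => ⟨g, rfl⟩
  let E : Fin n ≃ YI (Fin n) 𝔽0.Fˣ i0 i2 :=
    ⟨fun l => ⟨(l, 1), fun _ => rfl⟩, fun y => y.1.1, fun _ => rfl,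
      fun y => Subtype.ext (Prod.ext rfl (Subsingleton.elim _ _))⟩
  obtain ⟨r1, r2⟩ := h (fun y => π (d y.1.1)) ⟨fun _ => 1, fun _ => Subsingleton.elim _ _,
    fun y => by simp [yd, hm, π]⟩
  refine ⟨fun x hx => ?_, fun o ho => ?_⟩
  · obtain ⟨χ, hχ⟩ := r1 (fun y => x (E.symm y)) (by rwa [Equiv.sum_comp E.symm x])
    exact ⟨χ.comp π, fun l => hχ (E l)⟩
  · obtain ⟨χ, hχ, hc⟩ := r2 (fun b => E (o b)) (E.surjective.comp ho)
    refine ⟨χ.comp π, fun l => ?_, ?_⟩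
    · rw [← bitv_equiv_RR E o l]
      exact hχ (E l)
    · rw [Fintype.card_congr E]
      exact hc.trans (Nat.add_le_add_right (h1_le_comp χ π hπ) 1)

end Pool.Agent.Adm
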