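import Pool.Agent.Adq.EY
import Pool.Agent.Adq.ASM
import Pool.Agent.Adq.KRV

/-! Existence of test characters. -/

namespace Pool.Agent.Adm

open Polynomial

theorem tpoly_natDegree {k : Type} [Field k] {n : ℕ} (θ : K0 →+* k) (𝔽0 : FF) (η : k) (n0 : ℕ)
    (n1 : 𝔽0.Fˣ → ℕ) (nn : Fin n → ℕ) (a : Fin n → k) :
    (tpoly θ 𝔽0 η n0 n1 nn a).natDegree = n0 + ∑ t, n1 t + 𝔽0.m * ∑ l, nn l := by
  have h1 : ∀ t : 𝔽0.Fˣ, ((X - C (θ (𝔽0.θ t) * η)) ^ n1 t).Monic :=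
    fun t => (monic_X_sub_C _).pow _
  have h2 : ∀ l, ((X ^ 𝔽0.m - C (a l)) ^ nn l).Monic :=
    fun l => (monic_X_pow_sub_C _ 𝔽0.m_pos.ne').pow _
  have h3 := monic_prod_of_monic Finset.univ _ fun t _ => h1 t
  have h4 := monic_prod_of_monic Finset.univ _ fun l _ => h2 l
  unfold tpoly
  rw [((monic_X_pow n0).mul h3).natDegree_mul h4, (monic_X_pow n0).natDegree_mul h3,
    natDegree_prod_of_monic _ _ fun t _ => h1 t, natDegree_prod_of_monic _ _ fun l _ => h2 l,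
    natDegree_X_pow, Finset.mul_sum]
  congr 1
  · congr 1
    refine Finset.sum_congr rfl fun t _ => ?_
    rw [(monic_X_sub_C _).natDegree_pow, natDegree_X_sub_C, mul_one]
  · refine Finset.sum_congr rfl fun l _ => ?_
    rw [(monic_X_pow_sub_C _ 𝔽0.m_pos.ne').natDegree_pow, natDegree_X_pow_sub_C, mul_comm]

theorem sum_YI_TE {ι A Z : Type} [Fintype ι] [DecidableEq ι] [CommGroup A] [Fintype A]
    [DecidableEq A] [AddCommMonoid Z] (i0 i2 : ι) (F : ι → A → Z) :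
    ∑ y : YI ι A i0 i2, F y.1.1 y.1.2 = ∑ l, if l = i0 ∨ l = i2 then F l 1 else ∑ t, F l t := by
  rw [← Finset.sum_subtype (Finset.univ.filter fun y : ι × A => (y.1 = i0 ∨ y.1 = i2) → y.2 = 1)
    (by simp) (fun y : ι × A => F y.1 y.2), Finset.sum_filter, Fintype.sum_prod_type]
  refine Finset.sum_congr rfl fun l _ => ?_
  by_cases h : l = i0 ∨ l = i2
  · simp [h]
  · simp [h]

/-- The labels of the test character. -/
def xT_TE {n : ℕ} {A Z : Type} [AddCommGroup Z] (i0 i1 i2 : Fin n) (n0 D : Z) (n1 : A → Z)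
    (nn : Fin n → Z) (l : Fin n) (t : A) : Z :=
  if l = i0 then n0 else if l = i2 then -D else if l = i1 then n1 t else nn l

section

variable {n : ℕ} {A Z : Type} [CommGroup A] [Fintype A] [DecidableEq A] [AddCommGroup Z]
  {i0 i1 i2 : Fin n} (n0 D : Z) (n1 : A → Z) {nn : Fin n → Z}

omit [DecidableEq A] in
theorem xT_fibre_TE (h01 : i0 ≠ i1) (h02 : i0 ≠ i2) (h12 : i1 ≠ i2) (e0 : nn i0 = 0)
    (e1 : nn i1 = 0) (e2 : nn i2 = 0) (l : Fin n) :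
    (if l = i0 ∨ l = i2 then xT_TE i0 i1 i2 n0 D n1 nn l 1
      else ∑ t, xT_TE i0 i1 i2 n0 D n1 nn l t) =
    (if l = i0 then n0 else 0) + (if l = i2 then -D else 0) + (if l = i1 then ∑ t, n1 t else 0) +
      Fintype.card A • nn l := by
  by_cases a0 : l = i0
  · subst a0
    simp [xT_TE, h01, h02, e0]
  by_cases a2 : l = i2
  · subst a2
    simp [xT_TE, h12.symm, h02.symm, e2]
  by_cases a1 : l = i1
  · subst a1
    simp [xT_TE, h12, h01.symm, e1]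
  · simp [xT_TE, a0, a1, a2]

theorem xT_sum_TE (h01 : i0 ≠ i1) (h02 : i0 ≠ i2) (h12 : i1 ≠ i2) (e0 : nn i0 = 0)
    (e1 : nn i1 = 0) (e2 : nn i2 = 0) :
    ∑ y : YI (Fin n) A i0 i2, xT_TE i0 i1 i2 n0 D n1 nn y.1.1 y.1.2 =
      n0 + ∑ t, n1 t + Fintype.card A • ∑ l, nn l - D := by
  rw [sum_YI_TE i0 i2 (xT_TE i0 i1 i2 n0 D n1 nn)]
  simp only [xT_fibre_TE n0 D n1 h01 h02 h12 e0 e1 e2, Finset.sum_add_distrib,
    Finset.sum_ite_eq', Finset.mem_univ, if_true, Finset.smul_sum]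
  abel

theorem xT_lab0_TE {σ : Shape n} {v : Fin σ.r} (hm : σ.IsMed v i0 i1 i2) (e0 : nn i0 = 0)
    (e1 : nn i1 = 0) (e2 : nn i2 = 0) (t : A) :
    σ.lab i0 i2 (fun y => xT_TE i0 i1 i2 n0 D n1 nn y.1.1 y.1.2) (σ.dir v i0) t =
      n0 + Fintype.card A • ∑ l ∈ Finset.univ.filter (fun l => σ.dir v l = σ.dir v i0), nn l := by
  have h01 : i0 ≠ i1 := fun e => hm.1 (by rw [e])
  have h02 : i0 ≠ i2 := fun e => hm.2.1 (by rw [e])
  have h12 : i1 ≠ i2 := fun e => hm.2.2 (by rw [e])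
  rw [σ.lab_of_ram _ ((σ.ram_iff (σ.base_dir v i0)).2 ⟨hm.2.1, Or.inl rfl⟩), σ.base_dir,
    Finset.sum_filter, sum_YI_TE i0 i2
      (fun l t => if σ.dir v l = σ.dir v i0 then xT_TE i0 i1 i2 n0 D n1 nn l t else 0),
    Finset.sum_filter, Finset.smul_sum]
  have e : n0 = ∑ l, if l = i0 then n0 else 0 := by simp
  conv_rhs => rw [e]
  rw [← Finset.sum_add_distrib]
  refine Finset.sum_congr rfl fun l _ => ?_
  by_cases h : σ.dir v l = σ.dir v i0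
  · have a1 : l ≠ i1 := fun e => hm.1 (by rw [← h, e])
    have a2 : l ≠ i2 := fun e => hm.2.1 (by rw [← h, e])
    simp only [if_pos h]
    rw [xT_fibre_TE n0 D n1 h01 h02 h12 e0 e1 e2, if_neg a1, if_neg a2, add_zero, add_zero]
  · have a0 : l ≠ i0 := fun e => h (by rw [e])
    simp [h, a0]

theorem xT_lab1_TE {σ : Shape n} {v : Fin σ.r} (e1 : nn i1 = 0) {s : σ.Slot}
    (hs : σ.base s = v) (h0 : s ≠ σ.dir v i0) (h2 : s ≠ σ.dir v i2) (t : A) :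
    σ.lab i0 i2 (fun y => xT_TE i0 i1 i2 n0 D n1 nn y.1.1 y.1.2) s t =
      (if s = σ.dir v i1 then n1 t else 0) +
        ∑ l ∈ Finset.univ.filter (fun l => σ.dir v l = s), nn l := by
  rw [σ.lab_of_ne _ hs h0 h2, Finset.sum_filter, sum_YI_TE i0 i2
      (fun l t' => if σ.dir v l = s ∧ t' = t then xT_TE i0 i1 i2 n0 D n1 nn l t' else 0),
    Finset.sum_filter]
  have e : (if s = σ.dir v i1 then n1 t else 0) =
      ∑ l, if l = i1 then (if s = σ.dir v i1 then n1 t else 0) else 0 := by simp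
  rw [e, ← Finset.sum_add_distrib]
  refine Finset.sum_congr rfl fun l _ => ?_
  by_cases h : σ.dir v l = s
  · have a0 : l ≠ i0 := fun e => h0 (by rw [← h, e])
    have a2 : l ≠ i2 := fun e => h2 (by rw [← h, e])
    by_cases a1 : l = i1
    · subst a1
      simp [xT_TE, h, a0, a2, e1]
    · simp [xT_TE, h, a0, a1, a2]
  · by_cases a1 : l = i1
    · subst a1
      simp [h, Ne.symm h]
    · simp [h, a1]

end

theorem Pt.fP_congr_TE {n : ℕ} {σ : Shape n} (z : Pt σ) (𝔽0 : FF) (i0 i2 : Fin n)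
    (α : σ.Slot → z.k) {y y' : σ.Slot → 𝔽0.Fˣ → ℕ} (v : Fin σ.r)
    (h0 : y (σ.dir v i0) 1 = y' (σ.dir v i0) 1)
    (h : ∀ s, σ.base s = v → s ≠ σ.dir v i0 → s ≠ σ.dir v i2 → ∀ t, y s t = y' s t) :
    z.fP 𝔽0 i0 i2 α y v = z.fP 𝔽0 i0 i2 α y' v := by
  unfold Pt.fP
  rw [h0]
  congr 1
  refine Finset.prod_congr rfl fun s hs => Finset.prod_congr rfl fun t _ => ?_
  obtain ⟨a, b, c⟩ := (Finset.mem_filter.1 hs).2
  rw [h s a b c t]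

theorem Pt.exists_coord_TE {n : ℕ} {σ : Shape n} (z : Pt σ) (𝔽0 : FF) {v : Fin σ.r}
    {i0 i1 i2 : Fin n} (hm : σ.IsMed v i0 i1 i2) :
    ∃ lam α, z.KumCoord 𝔽0 i0 i2 lam α ∧ α (σ.dir v i1) = 1 ∧
      lam v = (z.x (σ.dir v i1) - z.x (σ.dir v i2)) / (z.x (σ.dir v i1) - z.x (σ.dir v i0)) := by
  have hb : ∀ i j, σ.base (σ.dir v i) = σ.base (σ.dir v j) := fun i j => by
    rw [σ.base_dir, σ.base_dir]
  have a0 : z.x (σ.dir v i1) - z.x (σ.dir v i0) ≠ 0 :=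
    sub_ne_zero.2 fun e => hm.1 (z.inj _ _ (hb _ _) e).symm
  have a2 : z.x (σ.dir v i1) - z.x (σ.dir v i2) ≠ 0 :=
    sub_ne_zero.2 fun e => hm.2.2 (z.inj _ _ (hb _ _) e)
  let lam : Fin σ.r → z.k := fun u => if u = v then
    (z.x (σ.dir v i1) - z.x (σ.dir v i2)) / (z.x (σ.dir v i1) - z.x (σ.dir v i0)) else 1
  have hv : lam v = (z.x (σ.dir v i1) - z.x (σ.dir v i2)) /
    (z.x (σ.dir v i1) - z.x (σ.dir v i0)) := if_pos rfl
  have hl : ∀ u, lam u ≠ 0 := fun u => by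
    by_cases h : u = v
    · rw [h, hv]
      exact div_ne_zero a2 a0
    · simp [lam, h]
  obtain ⟨α, hα⟩ := z.exists_kumCoord 𝔽0 i0 i2 lam hl
  refine ⟨lam, Function.update α (σ.dir v i1) 1, ⟨hl, fun s h1 h2 h3 => ?_⟩,
    Function.update_self _ _ _, hv⟩
  by_cases h : s = σ.dir v i1
  · subst h
    rw [Function.update_self, one_pow, σ.base_dir, hv]
    field_simp
  · rw [Function.update_of_ne h]
    exact hα.2 s h1 h2 h3

theorem test_of_YP_TE {n : ℕ} (𝔽0 𝔽 : FF) {i0 i1 i2 : Fin n} (h01 : i0 ≠ i1) (h12 : i1 ≠ i2)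
    (n0 : ℕ) (n1 : 𝔽0.Fˣ → ℕ) (nn : Fin n → ℕ) (D : ZMod 𝔽.m) (w : ℕ)
    (e0 : nn i0 = 0) (e1 : nn i1 = 0) (e2 : nn i2 = 0) (b0 : n0 < 𝔽.m) (b1 : ∀ t, n1 t < 𝔽.m)
    (b2 : ∀ l, nn l < 𝔽.m) (hD : 0 < n0 + ∑ t, n1 t + 𝔽0.m * ∑ l, nn l)
    (G : Type) [Group G] (d : Fin n → G)
    (h : YP 𝔽0 𝔽 i0 i2 (fun (_ : Unit) y => xT_TE i0 i1 i2 (n0 : ZMod 𝔽.m) D
      (fun t => (n1 t : ZMod 𝔽.m)) (fun l => (nn l : ZMod 𝔽.m)) y.1.1 y.1.2) (fun _ => w) G d) :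
    Test 𝔽0 𝔽 i0 i1 i2 n0 n1 nn w G d := by
  obtain ⟨χ0, hK, sh, H⟩ := h
  obtain ⟨γ, hγ⟩ := exists_section 𝔽0 χ0 0 (d i0) (Or.inl (by rw [hK.1, pow_zero, pow_one]))
  let e : YI (Fin n) 𝔽0.Fˣ i0 i2 → χ0.ker := fun y =>
    ⟨yd 𝔽0.m d i0 i2 γ y, yd_mem_ker 𝔽0 χ0 hK γ y⟩
  obtain ⟨χ, hχ, hw⟩ := H e ⟨γ, fun t => (hγ t).1, fun y => rfl⟩ ()
  have k0 : χ (e ⟨(i0, 1), fun _ => rfl⟩) = 𝔽.u ^ n0 := by
    rw [hχ, ← 𝔽.pow_val_natCast n0]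
    simp [ysh, xT_TE]
  have k1 : ∀ t, χ (e ⟨(i1, t), fun h => (h.elim h01.symm h12).elim⟩) =
      𝔽.u ^ n1 (sh i1 * t) := fun t => by
    rw [hχ, ← 𝔽.pow_val_natCast (n1 _)]
    simp [ysh, xT_TE, h01.symm, h12]
  have k2 : ∀ l (a0 : l ≠ i0) (_ : l ≠ i1) (a2 : l ≠ i2) t,
      χ (e ⟨(l, t), fun h => (h.elim a0 a2).elim⟩) = 𝔽.u ^ nn l := fun l a0 a1 a2 t => by
    rw [hχ, ← 𝔽.pow_val_natCast (nn _)]
    simp [ysh, xT_TE, a0, a1, a2]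
  have k3 : ∀ l (a0 : l ≠ i0) (a2 : l ≠ i2) (g : G) (h : χ0.ker), (h : G) = g⁻¹ * d l * g →
      χ h = χ (e ⟨(l, χ0 g), fun h => (h.elim a0 a2).elim⟩) := fun l a0 a2 g h hg => by
    let c : χ0.ker := ⟨(γ (χ0 g))⁻¹ * g, by
      rw [MonoidHom.mem_ker, map_mul, map_inv, (hγ _).1, inv_mul_cancel]⟩
    have hc : h = c⁻¹ * e ⟨(l, χ0 g), fun h => (h.elim a0 a2).elim⟩ * c := by
      apply Subtype.ext
      rw [hg]
      simp only [c, e, yd, Subgroup.coe_mul, Subgroup.coe_inv, if_neg (not_or.2 ⟨a0, a2⟩)]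
      group
    rw [hc, map_mul, map_mul, map_inv, inv_mul_cancel_comm]
  refine ⟨χ0, hK, sh i1, χ, ⟨fun h hh => ?_, fun g h hh => ?_, fun l a0 a1 a2 g h hh => ?_⟩,
    hw fun hχ1 => ?_⟩
  · rw [← k0]
    congr 1
    apply Subtype.ext
    rw [hh]
    simp [e, yd]
  · rw [k3 i1 h01.symm h12 g h hh, k1]
  · rw [k3 l a0 a2 g h hh, k2 l a0 a1 a2]
  · have z0 : ∀ a, a < 𝔽.m → 𝔽.u ^ a = 1 → a = 0 := fun a ha h =>
      Nat.eq_zero_of_dvd_of_lt ((𝔽.u_prim.pow_eq_one_iff_dvd a).1 h) ha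
    have z1 : n0 = 0 := z0 _ b0 (by rw [← k0, hχ1, MonoidHom.one_apply])
    have z2 : ∀ t, n1 t = 0 := fun t => z0 _ (b1 t) (by
      have := k1 ((sh i1)⁻¹ * t)
      rw [mul_inv_cancel_left] at this
      rw [← this, hχ1, MonoidHom.one_apply])
    have z3 : ∀ l, nn l = 0 := fun l => by
      by_cases a0 : l = i0
      · rw [a0, e0]
      by_cases a1 : l = i1
      · rw [a1, e1]
      by_cases a2 : l = i2
      · rw [a2, e2]
      exact z0 _ (b2 l) (by rw [← k2 l a0 a1 a2 1, hχ1, MonoidHom.one_apply])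
    simp [z1, z2, z3] at hD

theorem Pt.real_test {n : ℕ} {σ : Shape n} (z : Pt σ) (𝔽0 𝔽 : FF) {v : Fin σ.r}
    {i0 i1 i2 : Fin n} (hm : σ.IsMed v i0 i1 i2) (n0 : ℕ) (n1 : 𝔽0.Fˣ → ℕ) (nn : Fin n → ℕ)
    (w : ℕ) (hnn : ∀ l, l = i0 ∨ l = i1 ∨ σ.dir v l = σ.dir v i2 → nn l = 0)
    (hb0 : n0 + 𝔽0.m * ∑ l, nn l < 𝔽.m) (hb1 : ∀ t, n1 t + ∑ l, nn l < 𝔽.m)
    (hw1 : w * 𝔽.m < n0 + ∑ t, n1 t + 𝔽0.m * ∑ l, nn l)
    (hw2 : n0 + ∑ t, n1 t + 𝔽0.m * ∑ l, nn l ≤ (w + 1) * 𝔽.m)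
    (hdet : (HW (2 ^ 𝔽.r) (tpoly z.θ 𝔽0 1 n0 n1 nn (z.crs v i0 i1 i2)) w).det ≠ 0) :
    z.Real (Test 𝔽0 𝔽 i0 i1 i2 n0 n1 nn w) := by
  have h01 : i0 ≠ i1 := fun e => hm.1 (by rw [e])
  have h02 : i0 ≠ i2 := fun e => hm.2.1 (by rw [e])
  have h12 : i1 ≠ i2 := fun e => hm.2.2 (by rw [e])
  have e0 : nn i0 = 0 := hnn _ (Or.inl rfl)
  have e1 : nn i1 = 0 := hnn _ (Or.inr (Or.inl rfl))
  have e2 : nn i2 = 0 := hnn _ (Or.inr (Or.inr rfl))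
  have c0 : ((nn i0 : ℕ) : ZMod 𝔽.m) = 0 := by rw [e0, Nat.cast_zero]
  have c1 : ((nn i1 : ℕ) : ZMod 𝔽.m) = 0 := by rw [e1, Nat.cast_zero]
  have c2 : ((nn i2 : ℕ) : ZMod 𝔽.m) = 0 := by rw [e2, Nat.cast_zero]
  have hle : ∀ p : Fin n → Prop, ∀ [DecidablePred p],
      ∑ l ∈ Finset.univ.filter p, nn l ≤ ∑ l, nn l := fun p _ =>
    Finset.sum_le_sum_of_subset (Finset.filter_subset _ _)
  obtain ⟨lam, α, hα, hα1, hlam⟩ := z.exists_coord_TE 𝔽0 hm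
  set D : ZMod 𝔽.m := ((n0 + ∑ t, n1 t + 𝔽0.m * ∑ l, nn l : ℕ) : ZMod 𝔽.m) with hD
  let x : YI (Fin n) 𝔽0.Fˣ i0 i2 → ZMod 𝔽.m := fun y => xT_TE i0 i1 i2 (n0 : ZMod 𝔽.m) D
    (fun t => (n1 t : ZMod 𝔽.m)) (fun l => (nn l : ZMod 𝔽.m)) y.1.1 y.1.2
  have hx : ∑ y, x y = 0 := by
    simp only [x]
    rw [xT_sum_TE (nn := fun l => (nn l : ZMod 𝔽.m)) _ _ _ h01 h02 h12 c0 c1 c2,
      𝔽0.card_units, hD]
    push_cast
    rw [nsmul_eq_mul, sub_self]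
  have hf : z.fP 𝔽0 i0 i2 α (fun s t => (σ.lab i0 i2 x s t).val) v =
      tpoly z.θ 𝔽0 1 n0 n1 nn (z.crs v i0 i1 i2) := by
    have h1 := (z.tpoly_eq_fP 𝔽0 hm (hlam ▸ hα.kumAt hm.2.1) n0 n1 nn
      fun l h => hnn l (Or.inr (Or.inr h))).2
    rw [hα1] at h1
    rw [h1]
    refine z.fP_congr_TE 𝔽0 i0 i2 α v ?_ fun s hs a0 a2 t => ?_
    · have h2 : σ.tlab 𝔽0 v i0 i1 n0 n1 nn (σ.dir v i0) 1 < 𝔽.m := by
        unfold Shape.tlab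
        rw [if_pos rfl]
        exact lt_of_le_of_lt (Nat.add_le_add_left (Nat.mul_le_mul_left _ (hle _)) _) hb0
      rw [← ZMod.val_cast_of_lt h2]
      simp only [x]
      rw [xT_lab0_TE (nn := fun l => (nn l : ZMod 𝔽.m)) _ _ _ hm c0 c1 c2, 𝔽0.card_units]
      unfold Shape.tlab
      rw [if_pos rfl]
      push_cast
      rw [nsmul_eq_mul]
    · have h2 : σ.tlab 𝔽0 v i0 i1 n0 n1 nn s t < 𝔽.m := by
        unfold Shape.tlab
        rw [if_neg a0]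
        refine lt_of_le_of_lt (Nat.add_le_add ?_ (hle _)) (hb1 t)
        split_ifs
        · exact le_rfl
        · exact Nat.zero_le _
      rw [← ZMod.val_cast_of_lt h2]
      simp only [x]
      rw [xT_lab1_TE (nn := fun l => (nn l : ZMod 𝔽.m)) _ _ _ c1 hs a0 a2]
      unfold Shape.tlab
      rw [if_neg a0]
      push_cast
      rfl
  have hR := z.real_YP 𝔽0 𝔽 h02 (fun _ : Unit => x) (fun _ => hx) hα
    (fun _ u t => if u = v ∧ t = 1 then w else 0) (fun _ u _ => ⟨?_, fun t ht => ?_⟩)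
    (fun _ u t hu => Or.inl (if_neg fun h : u = v ∧ t = 1 => hu (h.1 ▸ hm.2.1)))
  · have hs : ∑ u : Fin σ.r, ∑ t : 𝔽0.Fˣ, (if u = v ∧ t = 1 then w else 0) = w := by
      simp [ite_and]
    simp only [hs] at hR
    refine hR.mono fun G _ _ d h => test_of_YP_TE 𝔽0 𝔽 h01 h12 n0 n1 nn D w e0 e1 e2
      (by omega) (fun t => by have := hb1 t; omega) (fun l => ?_) (by omega) G d h
    have a := hb1 1
    have b : nn l ≤ ∑ l, nn l :=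
      Finset.single_le_sum (fun _ _ => Nat.zero_le _) (Finset.mem_univ l)
    omega
  · by_cases h : u = v
    · subst h
      rw [if_pos ⟨rfl, rfl⟩, hf]
      refine Or.inr ⟨?_, ?_, hdet⟩
      · rw [tpoly_natDegree]
        exact hw1
      · rw [tpoly_natDegree]
        exact hw2
    · exact Or.inl (if_neg fun a => h a.1)
  · exact if_neg fun a => ht a.2

end Pool.Agent.Adm
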