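import Pool.Agent.Adq.HF1
import Pool.Agent.Adq.GT
import Pool.Agent.Adq.RR
import Pool.Agent.Adq.TE

/-! Transport of finitely many polynomial inequations. -/

namespace Pool.Agent.Adm

theorem exists_FF_HF (M : ℕ) : ∃ 𝔽 : FF, M ≤ 𝔽.r ∧ ∀ k, 0 < k → k ≤ M → k ∣ 𝔽.r := by
  obtain ⟨𝔽, h⟩ := exists_FF M.factorial (Nat.factorial_pos _)
  refine ⟨𝔽, ?_, fun k h0 h1 => ?_⟩
  · rw [h]; exact Nat.self_le_factorial _
  · rw [h]; exact Nat.dvd_factorial h0 h1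

theorem Pt.Le.exists_pass {n : ℕ} {σ σ' : Shape n} {z : Pt σ} {z' : Pt σ'} (h : z.Le z')
    {J : Type} [Finite J] (v : J → Fin σ.r) (i0 i1 i2 : J → Fin n) (I : J → Finset (Fin n))
    (f : J → MvPolynomial (Fin n) K0) :
    ∃ (τ : Fin n ≃ Fin n) (σ0 : K0 →+* K0),
      ∀ j, z.Pass z' τ σ0 (v j) (i0 j) (i1 j) (i2 j) (I j) (f j) := by
  let J' := {j : J // σ.IsMed (v j) (i0 j) (i1 j) (i2 j) ∧
    (∀ l ∈ I j, σ.dir (v j) l ≠ σ.dir (v j) (i2 j)) ∧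
    MvPolynomial.eval₂ z.θ
      (fun l => if l ∈ I j then z.crs (v j) (i0 j) (i1 j) (i2 j) l else 0) (f j) ≠ 0}
  have h01 : ∀ j : J', i0 j ≠ i1 j := fun j e => j.2.1.1 (by rw [e])
  have h02 : ∀ j : J', i0 j ≠ i2 j := fun j e => j.2.1.2.1 (by rw [e])
  choose ρ B hρ hP using fun j : J' => exists_test_poly' (f j) (h01 j) (I j)
  choose 𝔽0 h0 using fun j : J' => exists_FF (ρ j) (hρ j)
  obtain ⟨M, hM⟩ := (Set.finite_range fun j : J' =>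
    B j + ρ j + 3 * ((𝔽0 j).m * (n - 2) + 2 + 8)).bddAbove
  have hM' : ∀ j : J', B j + ρ j + 3 * ((𝔽0 j).m * (n - 2) + 2 + 8) ≤ M := fun j => hM ⟨j, rfl⟩
  obtain ⟨𝔽, hle, hdv⟩ := exists_FF_HF (M + 3 * (n + 8) + 1)
  have hdiv : ∀ j, ρ j ∣ 𝔽.r := fun j => hdv _ (hρ j) (by have := hM' j; omega)
  have hN : ∀ j, (𝔽0 j).m < 𝔽.m := fun j => by
    have h1 : 2 ^ (𝔽0 j).r < 2 ^ 𝔽.r :=
      Nat.pow_lt_pow_right one_lt_two (by have := hM' j; have := h0 j; omega)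
    have h2 : 0 < 2 ^ (𝔽0 j).r := by positivity
    unfold FF.m
    omega
  choose n0 n1 nn w q1 q2 q3 q4 q5 q6 using fun j : J' =>
    hP j (𝔽0 j) 𝔽 (h0 j) (hdiv j) (by have := hM' j; omega)
  obtain ⟨𝔽1, h1⟩ := exists_FF 1 one_pos
  have hn := σ.three_le
  have hab : (⟨0, by omega⟩ : Fin n) ≠ ⟨1, by omega⟩ := by simp
  obtain ⟨G, _, _, d, hd, hJ, hR⟩ := ((Pt.Real.all fun j : J' =>
    (z.real_rich (𝔽0 j) 𝔽 (h02 j)).and (z.real_test (𝔽0 j) 𝔽 j.2.1 (n0 j) (n1 j) (nn j) (w j)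
      (fun l hl => q1 j l (hl.imp_right (Or.imp_right fun e hI => j.2.2.1 l hI e)))
      (q2 j) (q3 j) (q4 j) (q5 j)
      ((q6 j z.k z.θ 1 _ (one_pow _) (z.crs_left _ _ _ _) (z.crs_mid j.2.1)).2 j.2.2.2))).and
    (z.real_rich 𝔽1 𝔽 hab)).adm
  obtain ⟨d', hd'⟩ := h G ⟨d, hd⟩
  have hrb := hR.richG h1
  obtain ⟨τ, c, hτ⟩ := exists_transport 𝔽 (fun l => d (.inr l)) (fun l => d' (.inr l)) rfl
    (by rwa [Fintype.card_fin]) (by rw [Fintype.card_fin]; omega) hd.geo hd'.geo hrb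
  obtain ⟨σ0, hσ0⟩ := exists_frob_inv c
  refine ⟨τ, σ0, fun j a1 a2 a3 v' b1 b2 => ?_⟩
  let j' : J' := ⟨j, a1, a2, a3⟩
  obtain ⟨η, hη, hdet⟩ := test_transport z' (fun l => d (.inr l)) hd.geo d' hd' (𝔽0 j') 𝔽
    (by rw [h0]; exact hdiv j') (hN j') (by have := hM' j'; omega) τ c hτ hrb (hJ j').1 (n0 j') (n1 j')
    (nn j') (w j') (hJ j').2 b1
    (fun l hl => q1 j' l (hl.imp_right (Or.imp_right fun e hI => b2 l hI e)))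
    (q2 j') (q3 j') (q5 j') σ0 hσ0
  exact (q6 j' z'.k (z'.θ.comp σ0) η
    (fun l => z'.crs v' (τ (i0 j)) (τ (i1 j)) (τ (i2 j)) (τ l)) hη (z'.crs_left _ _ _ _)
    (z'.crs_mid b1)).1 hdet

end Pool.Agent.Adm
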