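import Pool.Agent.Adq.D1

/-! Construction of pure vectors; powers of two. -/

namespace Pool.Agent.Adm

variable {ι : Type} [Fintype ι] [DecidableEq ι]

theorem sum_bits_LC3 (N k : ℕ) :
    ∑ b ∈ Finset.range k, (if N.testBit b then 2 ^ b else 0) = N % 2 ^ k := by
  induction k with
  | zero => simp [Nat.mod_one]
  | succ k ih =>
    rw [Finset.sum_range_succ, ih, Nat.mod_pow_succ, Nat.testBit_eq_decide_div_mod_eq]
    rcases Nat.mod_two_eq_zero_or_one (N / 2 ^ k) with h | h <;> simp [h]

theorem sum_bits_fin_LC3 (N k : ℕ) (hN : N < 2 ^ k) :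
    ∑ b : Fin k, (if N.testBit b then 2 ^ b.1 else 0) = N := by
  rw [Fin.sum_univ_eq_sum_range (fun b => if N.testBit b then 2 ^ b else 0) k, sum_bits_LC3,
    Nat.mod_eq_of_lt hN]

theorem sum_cobits_LC3 (N k : ℕ) (hN : N < 2 ^ k) :
    ∑ b : Fin k, (if N.testBit b then 0 else 2 ^ b.1) + N = 2 ^ k - 1 := by
  have h1 : ∑ b : Fin k, 2 ^ b.1 = 2 ^ k - 1 := by
    rw [Fin.sum_univ_eq_sum_range (fun i => 2 ^ i) k, Nat.geomSum_eq le_rfl]
    simp
  have h2 := sum_bits_fin_LC3 N k hN
  have h3 : ∑ b : Fin k, (if N.testBit b then 0 else 2 ^ b.1) +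
      ∑ b : Fin k, (if N.testBit b then 2 ^ b.1 else 0) = ∑ b : Fin k, 2 ^ b.1 := by
    rw [← Finset.sum_add_distrib]
    exact Finset.sum_congr rfl fun b _ => by split_ifs <;> simp
  rw [← h1, ← h3, h2]

theorem exists_pure_AP (r : ℕ) (hr : Fintype.card ι ≤ r) (i j : ι) (hij : i ≠ j) :
    ∃ U : ι → ℕ, ∀ N : ℕ, N < 2 ^ (r - Fintype.card ι) → ∃ o : Fin r → ι, Function.Surjective o ∧
      ∀ l, (bitv o l : ℤ) =
        U l + (N : ℤ) * ((if l = i then 1 else 0) - if l = j then 1 else 0) := by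
  obtain ⟨k, rfl⟩ : ∃ k, r = k + Fintype.card ι := ⟨r - Fintype.card ι, by omega⟩
  rw [Nat.add_sub_cancel]
  let e : Fin (Fintype.card ι) ≃ ι := (Fintype.equivFin ι).symm
  refine ⟨fun l => (if l = j then 2 ^ k - 1 else 0) +
    ∑ c : Fin (Fintype.card ι), if e c = l then 2 ^ (k + c.1) else 0, fun N hN => ?_⟩
  refine ⟨Fin.addCases (motive := fun _ => ι) (fun b => if N.testBit b then i else j) e, ?_, ?_⟩
  · intro l
    exact ⟨Fin.natAdd k (e.symm l), by simp⟩
  · intro l
    rw [bitv, Finset.sum_filter, Fin.sum_univ_add]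
    simp only [Fin.addCases_left, Fin.addCases_right, Fin.val_castAdd, Fin.val_natAdd]
    have key : ((∑ b : Fin k, if (if N.testBit b then i else j) = l then 2 ^ b.1 else 0 : ℕ) : ℤ) =
        ((if l = j then 2 ^ k - 1 else 0 : ℕ) : ℤ) +
          (N : ℤ) * ((if l = i then 1 else 0) - if l = j then 1 else 0) := by
      by_cases hi : l = i
      · subst hi
        have : ∀ b : Fin k, (if (if N.testBit b then l else j) = l then 2 ^ b.1 else 0 : ℕ) =
            if N.testBit b then 2 ^ b.1 else 0 := fun b => by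
          by_cases hb : N.testBit b <;> simp [hb, hij.symm]
        simp only [this, sum_bits_fin_LC3 N k hN]
        simp [hij]
      · by_cases hj : l = j
        · subst hj
          have : ∀ b : Fin k, (if (if N.testBit b then i else l) = l then 2 ^ b.1 else 0 : ℕ) =
              if N.testBit b then 0 else 2 ^ b.1 := fun b => by
            by_cases hb : N.testBit b <;> simp [hb, hij]
          have h2 := sum_cobits_LC3 N k hN
          rw [Finset.sum_congr rfl fun b _ => this b, if_pos rfl, if_neg hi, if_pos rfl, ← h2]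
          push_cast
          ring
        · have : ∀ b : Fin k, (if (if N.testBit b then i else j) = l then 2 ^ b.1 else 0 : ℕ) =
              0 := fun b => by
            by_cases hb : N.testBit b <;> simp [hb, Ne.symm hi, Ne.symm hj]
          simp [this, hi, hj]
    rw [Nat.cast_add, key, Nat.cast_add]
    ring

theorem card_two_LC3 {α : Type} [Fintype α] [DecidableEq α] {a b : α} (h : a ≠ b) :
    Fintype.card {x : α // x ≠ a ∧ x ≠ b} = Fintype.card α - 2 := by
  rw [Fintype.card_subtype]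
  have : Finset.univ.filter (fun x : α => x ≠ a ∧ x ≠ b) = (Finset.univ.erase b).erase a := by
    ext x
    simp
  rw [this, Finset.card_erase_of_mem (by simp [h]), Finset.card_erase_of_mem (by simp),
    Finset.card_univ]
  omega

theorem exists_pure_pair (r : ℕ) (hr : Fintype.card ι ≤ r) (h3 : 3 ≤ Fintype.card ι) (i j : ι)
    (hij : i ≠ j) (b : ℕ) (hb0 : 0 < b) (hb : b < r) :
    ∃ o : Fin r → ι, Function.Surjective o ∧ bitv o i = 1 ∧ bitv o j = 2 ^ b := by
  let z : Fin r := ⟨0, by omega⟩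
  let w : Fin r := ⟨b, hb⟩
  have hzw : z ≠ w := fun h => by
    have := congrArg Fin.val h
    simp only [z, w] at this
    omega
  have hB := card_two_LC3 hij
  have hA := card_two_LC3 hzw
  rw [Fintype.card_fin] at hA
  have : Nonempty {x : ι // x ≠ i ∧ x ≠ j} := Fintype.card_pos_iff.1 (by omega)
  obtain ⟨f⟩ : Nonempty ({x : ι // x ≠ i ∧ x ≠ j} ↪ {x : Fin r // x ≠ z ∧ x ≠ w}) :=
    Function.Embedding.nonempty_of_card_le (by omega)
  have hg : Function.Surjective (Function.invFun f) := Function.invFun_surjective f.injective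
  let o : Fin r → ι := fun c =>
    if h0 : c = z then i else if h1 : c = w then j else (Function.invFun f ⟨c, h0, h1⟩).1
  have hz : o z = i := by simp [o]
  have hw : o w = j := by simp [o, hzw.symm]
  have ho : ∀ c (h0 : c ≠ z) (h1 : c ≠ w), o c = (Function.invFun f ⟨c, h0, h1⟩).1 :=
    fun c h0 h1 => by simp [o, h0, h1]
  refine ⟨o, ?_, ?_, ?_⟩
  · intro l
    by_cases hi : l = i
    · exact ⟨z, hz.trans hi.symm⟩
    by_cases hj : l = j
    · exact ⟨w, hw.trans hj.symm⟩
    obtain ⟨c, hc⟩ := hg ⟨l, hi, hj⟩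
    exact ⟨c.1, (ho c.1 c.2.1 c.2.2).trans (congrArg Subtype.val hc)⟩
  · have : Finset.univ.filter (fun c => o c = i) = {z} := by
      ext c
      simp only [Finset.mem_filter, Finset.mem_univ, true_and, Finset.mem_singleton]
      refine ⟨fun h => ?_, fun h => h ▸ hz⟩
      by_contra h0
      by_cases h1 : c = w
      · exact hij (h.symm.trans (h1 ▸ hw))
      · exact (Function.invFun f ⟨c, h0, h1⟩).2.1 ((ho c h0 h1).symm.trans h)
    rw [bitv, this, Finset.sum_singleton]
    rfl
  · have : Finset.univ.filter (fun c => o c = j) = {w} := by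
      ext c
      simp only [Finset.mem_filter, Finset.mem_univ, true_and, Finset.mem_singleton]
      refine ⟨fun h => ?_, fun h => h ▸ hw⟩
      by_contra h1
      by_cases h0 : c = z
      · exact hij ((h0 ▸ hz : o c = i).symm.trans h)
      · exact (Function.invFun f ⟨c, h0, h1⟩).2.2 ((ho c h0 h1).symm.trans h)
    rw [bitv, this, Finset.sum_singleton]

theorem rot_LC3 (r m : ℕ) (hr : 1 < r) (hm : m + 1 = 2 ^ r) (x : ZMod m) (hx : x ≠ 0)
    (h : ∀ a b : ℕ, 0 < b → b < r → (2 ^ a * x).val + (2 ^ a * (x * 2 ^ b)).val ≤ m) :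
    ∃ c : ℕ, x = 2 ^ c := by
  obtain ⟨s, rfl⟩ : ∃ s, r = s + 1 := ⟨r - 1, by omega⟩
  have hs : 2 ≤ 2 ^ s := by
    calc 2 = 2 ^ 1 := rfl
      _ ≤ 2 ^ s := Nat.pow_le_pow_right (by norm_num) (by omega)
  have hm2 : m + 1 = 2 * 2 ^ s := by rw [hm, pow_succ, mul_comm]
  have : NeZero m := ⟨by omega⟩
  have h1 : (2 : ZMod m) ^ (s + 1) = 1 := by
    have : ((m + 1 : ℕ) : ZMod m) = ((2 ^ (s + 1) : ℕ) : ZMod m) := by rw [hm]
    push_cast at this
    rw [ZMod.natCast_self, zero_add] at this
    exact this.symm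
  let v : ℕ → ℕ := fun a => ((2 : ZMod m) ^ a * x).val
  have hlt : ∀ a, v a < m := fun a => ZMod.val_lt _
  have hdbl : ∀ a, (2 : ZMod m) ^ (a + 1) * x = 2 ^ a * x + 2 ^ a * x := fun a => by ring
  have hlo : ∀ a, 2 * v a < m → v (a + 1) = 2 * v a := fun a ha => by
    simp only [v] at ha ⊢
    rw [hdbl, ZMod.val_add_of_lt (by omega)]
    omega
  have hhi : ∀ a, m ≤ 2 * v a → v (a + 1) = 2 * v a - m := fun a ha => by
    simp only [v] at ha ⊢
    rw [hdbl, ZMod.val_add_of_le (by omega)]
    omega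
  have hper : ∀ a, v (a + (s + 1)) = v a := fun a => by
    simp only [v]
    rw [pow_add, h1, mul_one]
  have hh : ∀ a b, 0 < b → b < s + 1 → v a + v (a + b) ≤ m := fun a b h0 hb => by
    have := h a b h0 hb
    have e : (2 : ZMod m) ^ a * (x * 2 ^ b) = 2 ^ (a + b) * x := by ring
    rw [e] at this
    exact this
  have hrun : ∀ a c, (∀ d < c, 2 * v (a + d) < m) → v (a + c) = 2 ^ c * v a := by
    intro a c
    induction c with
    | zero => intro _; simp
    | succ c ih =>
      intro hc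
      rw [← add_assoc, hlo _ (hc c (by omega)), ih fun d hd => hc d (by omega)]
      ring
  by_cases hall : ∀ a, 2 * v a < m
  · exfalso
    have h2 := hrun 0 (s + 1) fun d _ => hall _
    have h3 : 0 < v 0 := by
      simp only [v, pow_zero, one_mul]
      exact Nat.pos_of_ne_zero fun h0 => hx ((ZMod.val_eq_zero x).1 h0)
    have h4 := hlt (0 + (s + 1))
    rw [h2, ← hm] at h4
    nlinarith
  · obtain ⟨a, ha⟩ := not_forall.1 hall
    have ha' : m < 2 * v a := by omega
    have h2 := hrun (a + 1) s fun d hd => by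
      have := hh a (1 + d) (by omega) (by omega)
      rw [← add_assoc] at this
      omega
    have h3 : v (a + 1 + s) = v a := by
      rw [← hper a]
      congr 1
      omega
    have h4 := hhi a ha'.le
    have h5 : v (a + 1) = 1 := by
      rw [h3] at h2
      have h6 : v (a + 1) + m = (m + 1) * v (a + 1) := by
        rw [hm2, mul_assoc, ← h2]
        omega
      have h7 : m * v (a + 1) = m * 1 := by linarith
      exact Nat.eq_of_mul_eq_mul_left (by omega) h7
    have h6 : (2 : ZMod m) ^ (a + 1) * x = 1 := by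
      have := ZMod.natCast_zmod_val ((2 : ZMod m) ^ (a + 1) * x)
      rw [show ((2 : ZMod m) ^ (a + 1) * x).val = 1 from h5, Nat.cast_one] at this
      exact this.symm
    refine ⟨s * (a + 1), ?_⟩
    calc x = ((2 : ZMod m) ^ (s + 1)) ^ (a + 1) * x := by rw [h1, one_pow, one_mul]
      _ = 2 ^ (s * (a + 1)) * (2 ^ (a + 1) * x) := by ring
      _ = 2 ^ (s * (a + 1)) := by rw [h6, mul_one]

theorem eq_two_pow_of_rotations (r : ℕ) (hr : 1 < r) (x : ZMod (2 ^ r - 1)) (hx : x ≠ 0)
    (h : ∀ a b : ℕ, 0 < b → b < r → (2 ^ a * x).val + (2 ^ a * (x * 2 ^ b)).val ≤ 2 ^ r - 1) :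
    ∃ c : ℕ, x = 2 ^ c :=
  rot_LC3 r (2 ^ r - 1) hr (Nat.sub_add_cancel Nat.one_le_two_pow) x hx h

end Pool.Agent.Adm
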