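import Mathlib

/-! An injective additive map sending differences of basis vectors to vectors of support two is
monomial. -/

namespace Pool.Agent.Adm

/-- at most two non-zero entries -/
def TwoLC4 {ι' R : Type} [CommRing R] (w : ι' → R) : Prop :=
  ∀ l1 l2 l3, l1 ≠ l2 → l1 ≠ l3 → l2 ≠ l3 → w l1 = 0 ∨ w l2 = 0 ∨ w l3 = 0

/-- `w = x (e b - e a)` -/
def ShLC4 {ι' R : Type} [CommRing R] (w : ι' → R) (b a : ι') (x : R) : Prop :=
  b ≠ a ∧ w b = x ∧ w a = -x ∧ ∀ l, l ≠ a → l ≠ b → w l = 0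

theorem sum_two_LC4 {ι' R : Type} [Fintype ι'] [CommRing R] {w : ι' → R} {a b : ι'} (hab : b ≠ a)
    (hs : ∑ l, w l = 0) (h : ∀ l, l ≠ a → l ≠ b → w l = 0) : w b = -w a := by
  rw [Finset.sum_eq_add a b hab.symm (fun l _ hl => h l hl.1 hl.2)
    (fun h => absurd (Finset.mem_univ _) h) (fun h => absurd (Finset.mem_univ _) h)] at hs
  exact eq_neg_of_add_eq_zero_right hs

theorem sh_LC4 {ι' R : Type} [Fintype ι'] [CommRing R] {w : ι' → R} (hs : ∑ l, w l = 0)
    (h : TwoLC4 w) {a : ι'} (ha : w a ≠ 0) : ∃ b, ShLC4 w b a (-w a) := by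
  have hb : ∃ b, b ≠ a ∧ w b ≠ 0 := by
    by_contra hno
    apply ha
    rw [← hs, Finset.sum_eq_single a]
    · intro b _ hb
      by_contra hw
      exact hno ⟨b, hb, hw⟩
    · exact fun h => absurd (Finset.mem_univ _) h
  obtain ⟨b, hb, hwb⟩ := hb
  have h0 : ∀ l, l ≠ a → l ≠ b → w l = 0 := fun l hla hlb =>
    ((h a b l hb.symm hla.symm hlb.symm).resolve_left ha).resolve_left hwb
  exact ⟨b, hb, sum_two_LC4 hb hs h0, (neg_neg _).symm, h0⟩

theorem sh_ext_LC4 {ι' R : Type} [CommRing R] {w w' : ι' → R} {a b : ι'} {x : R}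
    (h : ShLC4 w b a x) (h' : ShLC4 w' b a x) : w = w' := by
  funext l
  by_cases hla : l = a
  · rw [hla, h.2.2.1, h'.2.2.1]
  by_cases hlb : l = b
  · rw [hlb, h.2.1, h'.2.1]
  rw [h.2.2.2 l hla hlb, h'.2.2.2 l hla hlb]

theorem common_LC4 {ι' R : Type} [Fintype ι'] [CommRing R] {v w : ι' → R} (hv : ∑ l, v l = 0)
    (hw : ∑ l, w l = 0) (h0 : v ≠ 0) (h1 : TwoLC4 v) (h2 : TwoLC4 (v - w))
    (hind : ∀ x y : R, y • v = x • w → x = 0) : ∃ a, v a ≠ 0 ∧ w a = v a := by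
  obtain ⟨a, ha⟩ := Function.ne_iff.1 h0
  have ha' : v a ≠ 0 := ha
  obtain ⟨b, hb, hvb, -, hz⟩ := sh_LC4 hv h1 ha'
  have hb' : v b ≠ 0 := by
    rw [hvb]
    exact neg_ne_zero.2 ha'
  by_cases e1 : w a = v a
  · exact ⟨a, ha', e1⟩
  by_cases e2 : w b = v b
  · exact ⟨b, hb', e2⟩
  exfalso
  have hz' : ∀ l, l ≠ a → l ≠ b → w l = 0 := by
    intro l hla hlb
    have := ((h2 a b l hb.symm hla.symm hlb.symm).resolve_left
      (sub_ne_zero.2 (Ne.symm e1))).resolve_left (sub_ne_zero.2 (Ne.symm e2))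
    rw [Pi.sub_apply, hz l hla hlb, zero_sub, neg_eq_zero] at this
    exact this
  have hwb := sum_two_LC4 hb hw hz'
  refine ha' (hind (v a) (w a) ?_)
  funext l
  rw [Pi.smul_apply, Pi.smul_apply, smul_eq_mul, smul_eq_mul]
  by_cases hla : l = a
  · rw [hla, mul_comm]
  by_cases hlb : l = b
  · rw [hlb, hvb, hwb]
    ring
  rw [hz l hla hlb, hz' l hla hlb, mul_zero, mul_zero]

theorem third_LC4 {ι' R : Type} [Fintype ι'] [CommRing R] {u v w : ι' → R} {a b c : ι'} {x : R}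
    (hx : x ≠ 0) (hx2 : x + x ≠ 0) (hv : ShLC4 v b a x) (hw : ShLC4 w c a x) (hbc : b ≠ c)
    (h0 : u ≠ 0) (h1 : TwoLC4 u) (sv : ∑ l, (u - v) l = 0) (sw : ∑ l, (u - w) l = 0)
    (h2 : TwoLC4 (u - v)) (h3 : TwoLC4 (u - w)) : u a = -x := by
  by_contra hne
  obtain ⟨hba, vb, va, vz⟩ := hv
  obtain ⟨hca, wc, wa, wz⟩ := hw
  have n1 : (u - v) a ≠ 0 := by
    rw [Pi.sub_apply, va]
    exact sub_ne_zero.2 hne
  have n2 : (u - w) a ≠ 0 := by
    rw [Pi.sub_apply, wa]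
    exact sub_ne_zero.2 hne
  obtain ⟨d, hda, ud, -, uz⟩ := sh_LC4 sv h2 n1
  obtain ⟨e, hea, ue, -, uz'⟩ := sh_LC4 sw h3 n2
  simp only [Pi.sub_apply] at ud ue uz uz'
  have vc : v c = 0 := vz c hca hbc.symm
  have wb : w b = 0 := wz b hba hbc
  rw [va] at ud
  rw [wa] at ue
  by_cases hdb : d = b
  · subst hdb
    rw [vb] at ud
    have uc : u c = 0 := by
      have := uz c hca hbc.symm
      rwa [vc, sub_zero] at this
    have hec : e = c := by
      by_contra hec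
      have := uz' c hca (Ne.symm hec)
      rw [uc, wc, zero_sub, neg_eq_zero] at this
      exact hx this
    subst hec
    rw [uc, wc] at ue
    have ua : u a = 0 := by linear_combination ue
    apply h0
    funext l
    by_cases hla : l = a
    · rw [hla, ua, Pi.zero_apply]
    by_cases hld : l = d
    · rw [hld, Pi.zero_apply]
      linear_combination ud - ua
    have := uz l hla hld
    rwa [vz l hla hld, sub_zero] at this
  · have ub : u b = x := by
      have := uz b hba (Ne.symm hdb)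
      rwa [vb, sub_eq_zero] at this
    have heb : e = b := by
      by_contra heb
      have := uz' b hba (Ne.symm heb)
      rw [ub, wb, sub_zero] at this
      exact hx this
    subst heb
    rw [ub, wb] at ue
    have uc : u c = x := by
      have := uz' c hca hbc.symm
      rwa [wc, sub_eq_zero] at this
    have ua : u a = -(x + x) := by linear_combination ue
    rcases h1 a e c hba.symm hca.symm hbc with h | h | h
    · exact hx2 (neg_eq_zero.1 (ua ▸ h))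
    · exact hx (ub ▸ h)
    · exact hx (uc ▸ h)

theorem monomial_of_support {ι ι' Γ : Type} [Fintype ι] [DecidableEq ι] [Fintype ι']
    [AddCommGroup Γ] (m : ℕ) (hm : Odd m) (hm1 : 1 < m) (h3 : 3 ≤ Fintype.card ι)
    (hc : Fintype.card ι = Fintype.card ι') (lab : Γ →+ (ι → ZMod m)) (lab' : Γ →+ (ι' → ZMod m))
    (hi : Function.Injective lab) (hi' : Function.Injective lab') (hs : ∀ γ, ∑ l, lab γ l = 0)
    (hs' : ∀ γ, ∑ l, lab' γ l = 0) (hsurj : ∀ x : ι → ZMod m, ∑ l, x l = 0 → ∃ γ, lab γ = x)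
    (h : ∀ i j, i ≠ j → ∀ γ, lab γ = Pi.single i 1 - Pi.single j 1 → ∀ l1 l2 l3, l1 ≠ l2 →
      l1 ≠ l3 → l2 ≠ l3 → lab' γ l1 = 0 ∨ lab' γ l2 = 0 ∨ lab' γ l3 = 0) :
    ∃ (τ : ι ≃ ι') (x : ZMod m), ∀ γ l, lab' γ (τ l) = x * lab γ l := by
  classical
  have : Fact (1 < m) := ⟨hm1⟩
  have : NeZero m := ⟨by omega⟩
  obtain ⟨j0, i1, i2, h01, h02, h12⟩ := Fintype.two_lt_card_iff.1 (Nat.lt_of_succ_le h3)
  have hg : ∀ i : ι, ∃ γ, lab γ = Pi.single i 1 - Pi.single j0 1 := fun i =>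
    hsurj _ (by simp [Finset.sum_sub_distrib])
  choose g hg using hg
  have hval : ∀ (x : ZMod m) (γ : Γ), lab (x.val • γ) = x • lab γ := fun x γ => by
    rw [map_nsmul, ← Nat.cast_smul_eq_nsmul (ZMod m), ZMod.natCast_zmod_val]
  have hval' : ∀ (x : ZMod m) (γ : Γ), lab' (x.val • γ) = x • lab' γ := fun x γ => by
    rw [map_nsmul, ← Nat.cast_smul_eq_nsmul (ZMod m), ZMod.natCast_zmod_val]
  have hind : ∀ i i', i ≠ i' → i' ≠ j0 → ∀ x y : ZMod m, y • lab' (g i) = x • lab' (g i') →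
      x = 0 := by
    intro i i' hii hj x y e
    rw [← hval', ← hval'] at e
    have e' := congrArg (fun γ => lab γ i') (hi' e)
    simp only [hval, hg, Pi.smul_apply, Pi.sub_apply, Pi.single_eq_same,
      Pi.single_eq_of_ne hii.symm, Pi.single_eq_of_ne hj, sub_zero, smul_eq_mul, mul_zero,
      mul_one] at e'
    exact e'.symm
  have hg0 : lab' (g j0) = 0 := by
    rw [hi (show lab (g j0) = lab 0 by rw [hg, sub_self, map_zero]), map_zero]
  have hinj : ∀ i i', i' ≠ j0 → lab' (g i) = lab' (g i') → i = i' := by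
    intro i i' hj e
    by_contra hii
    exact one_ne_zero (hind i i' hii hj 1 1 (by rw [e]))
  have hne : ∀ i, i ≠ j0 → lab' (g i) ≠ 0 := fun i hj e =>
    hj (hinj j0 i hj (by rw [e, hg0])).symm
  have t1 : ∀ i, i ≠ j0 → TwoLC4 (lab' (g i)) := fun i hj => h i j0 hj _ (hg i)
  have t2 : ∀ i i', i ≠ i' → TwoLC4 (lab' (g i) - lab' (g i')) := by
    intro i i' hii
    rw [← map_sub]
    exact h i i' hii _ (by rw [map_sub, hg, hg, sub_sub_sub_cancel_right])
  have s2 : ∀ i i', ∑ l, (lab' (g i) - lab' (g i')) l = 0 := fun i i' => by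
    rw [← map_sub]
    exact hs' _
  obtain ⟨a, ha, ha'⟩ := common_LC4 (hs' (g i1)) (hs' (g i2)) (hne i1 h01.symm) (t1 i1 h01.symm)
    (t2 i1 i2 h12) (hind i1 i2 h12 h02.symm)
  obtain ⟨x, hx⟩ : ∃ x, x = -lab' (g i1) a := ⟨_, rfl⟩
  have hx0 : x ≠ 0 := hx ▸ neg_ne_zero.2 ha
  have hx2 : x + x ≠ 0 := by
    have hu : IsUnit ((2 : ℕ) : ZMod m) :=
      (ZMod.isUnit_iff_coprime 2 m).2 (Nat.coprime_two_left.2 hm)
    rw [← two_mul]
    intro e
    exact hx0 (hu.mul_right_eq_zero.1 (by exact_mod_cast e))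
  obtain ⟨b, hb⟩ := sh_LC4 (hs' (g i1)) (t1 i1 h01.symm) ha
  obtain ⟨c, hc'⟩ := sh_LC4 (hs' (g i2)) (t1 i2 h02.symm) (ha' ▸ ha : lab' (g i2) a ≠ 0)
  rw [ha', ← hx] at hc'
  rw [← hx] at hb
  have hbc : b ≠ c := by
    rintro rfl
    exact h12 (hinj i1 i2 h02.symm (sh_ext_LC4 hb hc'))
  have hall : ∀ i, i ≠ j0 → lab' (g i) a = -x := by
    intro i hj
    by_cases e1 : i = i1
    · rw [e1, hb.2.2.1]
    by_cases e2 : i = i2
    · rw [e2, hc'.2.2.1]
    exact third_LC4 hx0 hx2 hb hc' hbc (hne i hj) (t1 i hj) (s2 _ _) (s2 _ _) (t2 _ _ e1)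
      (t2 _ _ e2)
  have hτ : ∀ i, ∃ b, (i = j0 → b = a) ∧ (i ≠ j0 → ShLC4 (lab' (g i)) b a x) := by
    intro i
    by_cases hj : i = j0
    · exact ⟨a, fun _ => rfl, fun h => absurd hj h⟩
    · obtain ⟨b, hb⟩ := sh_LC4 (hs' (g i)) (t1 i hj)
        (by rw [hall i hj]; exact neg_ne_zero.2 hx0 : lab' (g i) a ≠ 0)
      rw [hall i hj, neg_neg] at hb
      exact ⟨b, fun h => absurd h hj, fun _ => hb⟩
  choose τ hτ0 hτ using hτ
  have hτi : Function.Injective τ := by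
    intro i i' e
    by_cases hj : i = j0 <;> by_cases hj' : i' = j0
    · rw [hj, hj']
    · exact absurd (by rw [← e, hτ0 i hj]) (hτ i' hj').1
    · exact absurd (by rw [e, hτ0 i' hj']) (hτ i hj).1
    · exact hinj i i' hj' (sh_ext_LC4 (hτ i hj) (e ▸ hτ i' hj'))
  have hv : ∀ i l, lab' (g i) (τ l) = x * lab (g i) l := by
    intro i l
    rw [hg, Pi.sub_apply]
    by_cases hj : i = j0
    · rw [hj, hg0, sub_self, mul_zero, Pi.zero_apply]
    obtain ⟨-, e1, e2, e3⟩ := hτ i hj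
    by_cases hl : l = j0
    · rw [hτ0 l hl, e2, hl, Pi.single_eq_same, Pi.single_eq_of_ne (Ne.symm hj)]
      ring
    by_cases hli : l = i
    · rw [hli, e1, Pi.single_eq_same, Pi.single_eq_of_ne hj]
      ring
    rw [e3 _ (hτ l hl).1 fun e => hli (hτi e), Pi.single_eq_of_ne hl, Pi.single_eq_of_ne hli]
    ring
  refine ⟨Equiv.ofBijective τ ((Fintype.bijective_iff_injective_and_card τ).2 ⟨hτi, hc⟩), x,
    fun γ l => ?_⟩
  have hγ : γ = ∑ i, (lab γ i).val • g i := by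
    apply hi
    rw [map_sum]
    funext k
    simp only [hval, hg, Finset.sum_apply, Pi.smul_apply, Pi.sub_apply, smul_eq_mul, mul_sub,
      Finset.sum_sub_distrib, ← Finset.sum_mul, hs, zero_mul, sub_zero]
    simp [Pi.single_apply]
  rw [Equiv.ofBijective_apply, hγ, map_sum, map_sum, Finset.sum_apply, Finset.sum_apply,
    Finset.mul_sum]
  refine Finset.sum_congr rfl fun i _ => ?_
  rw [hval, hval', Pi.smul_apply, Pi.smul_apply, hv, smul_eq_mul, smul_eq_mul]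
  ring

end Pool.Agent.Adm
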