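import Pool.Agent.Adq.PD
import Pool.Agent.Adq.FFL

/-! Pure labels satisfy the existence condition. -/

namespace Pool.Agent.Adm

open Polynomial

variable {k σ : Type} [Field k] [CharP k 2] [Fintype σ] [DecidableEq σ]

theorem sum_two_pow_PD2 (r : ℕ) : ∑ b : Fin r, 2 ^ b.1 = 2 ^ r - 1 := by
  rw [Fin.sum_univ_eq_sum_range (fun i => 2 ^ i) r, Nat.geomSum_eq le_rfl]
  simp

theorem sum_bitv {r : ℕ} (o : Fin r → σ) : ∑ s, bitv o s = 2 ^ r - 1 := by
  rw [← sum_two_pow_PD2]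
  exact Finset.sum_fiberwise Finset.univ o fun b => 2 ^ b.1

omit [Fintype σ] in
theorem bitv_add_PD2 {r : ℕ} (o : Fin r → σ) (s : σ) :
    bitv o s + ∑ b ∈ Finset.univ.filter (fun b => ¬ o b = s), 2 ^ b.1 = 2 ^ r - 1 := by
  rw [← sum_two_pow_PD2]
  exact Finset.sum_filter_add_sum_filter_not _ _ _

theorem bitv_comp {r : ℕ} {σ' : Type} [DecidableEq σ'] (o : Fin r → σ) (f : σ → σ') (s' : σ') :
    bitv (fun b => f (o b)) s' = ∑ s ∈ Finset.univ.filter (fun s => f s = s'), bitv o s := by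
  simp only [bitv, Finset.sum_filter]
  have : ∀ s : σ, (if f s = s' then ∑ b : Fin r, (if o b = s then 2 ^ b.1 else 0) else 0) =
      ∑ b : Fin r, if o b = s then (if f s = s' then 2 ^ b.1 else 0) else 0 := fun s => by
    split_ifs <;> simp
  simp only [this]
  rw [Finset.sum_comm]
  simp

theorem val_neg_bitv (𝔽 : FF) (o : Fin 𝔽.r → σ) (ho : Function.Surjective o) (s : σ) :
    (-(bitv o s : ZMod 𝔽.m)).val = 𝔽.m - bitv o s := by
  have h1 : bitv o s ≤ 𝔽.m := le_of_le_of_eq (Nat.le_add_right _ _) (bitv_add_PD2 o s)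
  have h2 : 0 < bitv o s := by
    obtain ⟨b, hb⟩ := ho s
    exact Finset.sum_pos (fun _ _ => by positivity) ⟨b, by simpa using hb⟩
  have h3 : (-(bitv o s : ZMod 𝔽.m)) = ((𝔽.m - bitv o s : ℕ) : ZMod 𝔽.m) := by
    rw [Nat.cast_sub h1, ZMod.natCast_self, zero_sub]
  rw [h3, ZMod.val_natCast_of_lt (by omega)]

theorem hwok_of_PD2 (𝔽 : FF) (w : ℕ) (g : Fin 𝔽.r → k[X]) (hm : ∀ b, (g b).Monic)
    (hg : ∀ b, (g b).Separable ∧ w ≤ (g b).natDegree ∧ (g b).natDegree ≤ w + 1)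
    (hb : ∃ b, w < (g b).natDegree) : HWok 𝔽 (∏ b, g b ^ 2 ^ b.1) w := by
  have e : (∏ b, g b ^ 2 ^ b.1).natDegree = ∑ b : Fin 𝔽.r, 2 ^ b.1 * (g b).natDegree := by
    rw [natDegree_prod_of_monic _ _ fun b _ => (hm b).pow _]
    exact Finset.sum_congr rfl fun b _ => (hm b).natDegree_pow _
  have e2 : ∀ c : ℕ, c * 𝔽.m = ∑ b : Fin 𝔽.r, 2 ^ b.1 * c := fun c => by
    rw [← Finset.sum_mul, sum_two_pow_PD2, mul_comm, FF.m]
  refine Or.inr ⟨?_, ?_, det_HW_prod _ _ 𝔽.r_pos g hg⟩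
  · rw [e, e2]
    obtain ⟨b, hb⟩ := hb
    exact Finset.sum_lt_sum (fun b _ => Nat.mul_le_mul_left _ (hg b).2.1)
      ⟨b, Finset.mem_univ _, Nat.mul_lt_mul_of_pos_left hb (by positivity)⟩
  · rw [e, e2]
    exact Finset.sum_le_sum fun b _ => Nat.mul_le_mul_left _ (hg b).2.2

theorem hwok_gen_PD2 (𝔽 : FF) (p : σ → k) (hp : Function.Injective p) {τ : Type} [DecidableEq τ]
    (j : σ → τ) (o : Fin 𝔽.r → τ) (w : ℕ)
    (h1 : ∀ b, w ≤ (Finset.univ.filter fun s => ¬ o b = j s).card ∧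
      (Finset.univ.filter fun s => ¬ o b = j s).card ≤ w + 1)
    (h2 : ∃ b, w < (Finset.univ.filter fun s => ¬ o b = j s).card) :
    HWok 𝔽 (∏ s, (X - C (p s)) ^ (𝔽.m - bitv o (j s))) w := by
  have e : ∏ s, (X - C (p s)) ^ (𝔽.m - bitv o (j s)) =
      ∏ b : Fin 𝔽.r, (∏ s ∈ Finset.univ.filter fun s => ¬ o b = j s, (X - C (p s))) ^ 2 ^ b.1 := by
    have e1 : ∀ s, 𝔽.m - bitv o (j s) =
        ∑ b ∈ Finset.univ.filter (fun b => ¬ o b = j s), 2 ^ b.1 := fun s => by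
      have := bitv_add_PD2 o (j s)
      rw [FF.m]
      omega
    simp only [e1, ← Finset.prod_pow_eq_pow_sum, ← Finset.prod_pow]
    exact Finset.prod_comm' fun s b => by simp
  have d : ∀ b, (∏ s ∈ Finset.univ.filter fun s => ¬ o b = j s, (X - C (p s))).natDegree =
      (Finset.univ.filter fun s => ¬ o b = j s).card := fun b => by
    rw [natDegree_prod_of_monic _ _ fun s _ => monic_X_sub_C _]
    simp
  rw [e]
  refine hwok_of_PD2 𝔽 w _ (fun b => monic_prod_of_monic _ _ fun s _ => monic_X_sub_C _)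
    (fun b => ⟨separable_prod_X_sub_C_iff'.2 fun x _ y _ h => hp h, ?_⟩) ?_
  · rw [d]
    exact h1 b
  · simpa only [d] using h2

omit [Field k] [CharP k 2] in
theorem card_ne_PD2 (t : σ) :
    (Finset.univ.filter fun s => ¬ t = s).card = Fintype.card σ - 1 := by
  rw [Finset.filter_not, Finset.filter_eq, if_pos (Finset.mem_univ _), Finset.card_univ_diff,
    Finset.card_singleton]

theorem hwok_pure_fin (𝔽 : FF) (p : σ → k) (hp : Function.Injective p) (o : Fin 𝔽.r → σ)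
    (ho : Function.Surjective o) (h2 : 2 ≤ Fintype.card σ) :
    HWok 𝔽 (∏ s, (X - C (p s)) ^ (𝔽.m - bitv o s)) (Fintype.card σ - 2) := by
  refine hwok_gen_PD2 𝔽 p hp (fun s => s) o _ (fun b => ?_) ⟨⟨0, 𝔽.r_pos⟩, ?_⟩
  · rw [card_ne_PD2]
    omega
  · rw [card_ne_PD2]
    omega

theorem hwok_pure_inf (𝔽 : FF) (p : σ → k) (hp : Function.Injective p)
    (o : Fin 𝔽.r → Option σ) (ho : Function.Surjective o) (h1 : 1 ≤ Fintype.card σ) :
    HWok 𝔽 (∏ s, (X - C (p s)) ^ (𝔽.m - bitv o (some s))) (Fintype.card σ - 1) := by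
  have e0 : (Finset.univ.filter fun s : σ => ¬ none = some s).card = Fintype.card σ := by simp
  refine hwok_gen_PD2 𝔽 p hp some o _ (fun b => ?_) ?_
  · cases o b with
    | none =>
      rw [e0]
      omega
    | some t =>
      simp only [Option.some.injEq]
      rw [card_ne_PD2]
      omega
  · obtain ⟨b, hb⟩ := ho none
    refine ⟨b, ?_⟩
    rw [hb, e0]
    omega

end Pool.Agent.Adm
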