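import Pool.Agent.Adq.LC2
import Pool.Agent.Adq.LC3
import Pool.Agent.Adq.LC4
import Pool.Agent.Adq.GB
import Pool.Agent.Adq.PD2

/-! Transport of inertia generators. -/

namespace Pool.Agent.Adm

theorem exists_bitv_LC {ι Γ : Type} [Fintype ι] [DecidableEq ι] [AddCommGroup Γ] (r : ℕ)
    (lab : Γ →+ (ι → ZMod (2 ^ r - 1)))
    (hsurj : ∀ x : ι → ZMod (2 ^ r - 1), ∑ l, x l = 0 → ∃ γ, lab γ = x) (o : Fin r → ι) :
    ∃ γ, ∀ l, lab γ l = bitv o l := by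
  obtain ⟨γ, hγ⟩ := hsurj (fun l => (bitv o l : ZMod (2 ^ r - 1))) (by
    rw [← Nat.cast_sum, sum_bitv, ZMod.natCast_self])
  exact ⟨γ, fun l => congrFun hγ l⟩

theorem support_LC {ι ι' Γ : Type} [Fintype ι] [DecidableEq ι] [Fintype ι']
    [AddCommGroup Γ] (r : ℕ) (hr : 3 * (Fintype.card ι + 8) < r)
    (lab : Γ →+ (ι → ZMod (2 ^ r - 1))) (lab' : Γ →+ (ι' → ZMod (2 ^ r - 1)))
    (hsurj : ∀ x : ι → ZMod (2 ^ r - 1), ∑ l, x l = 0 → ∃ γ, lab γ = x)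
    (hp : ∀ o : Fin r → ι, Function.Surjective o → ∀ γ, (∀ l, lab γ l = bitv o l) →
      (∀ l, lab' γ l ≠ 0) ∧ ∀ a : ℕ, ∑ l, (2 ^ a * lab' γ l).val ≤ 2 ^ r - 1)
    (i j : ι) (hij : i ≠ j) (γ : Γ) (hγ : lab γ = Pi.single i 1 - Pi.single j 1) (l1 l2 l3 : ι')
    (h12 : l1 ≠ l2) (h13 : l1 ≠ l3) (h23 : l2 ≠ l3) :
    lab' γ l1 = 0 ∨ lab' γ l2 = 0 ∨ lab' γ l3 = 0 := by
  obtain ⟨U, hU⟩ := exists_pure_AP (ι := ι) r (by omega) i j hij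
  obtain ⟨o0, -, h0⟩ := hU 0 (by positivity)
  obtain ⟨γ0, hγ0⟩ := exists_bitv_LC r lab hsurj o0
  have hU0 : ∀ l, lab γ0 l = U l := by
    intro l
    have h1 := h0 l
    rw [Nat.cast_zero, zero_mul, add_zero, Nat.cast_inj] at h1
    rw [hγ0, h1]
  refine not_three_of_pure r (Fintype.card ι) hr (lab' γ0) (lab' γ) (fun N hN => ?_) l1 l2 l3
    h12 h13 h23
  obtain ⟨o, ho, h1⟩ := hU N hN
  have h2 := hp o ho (γ0 + N • γ) (fun l => by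
    have h3 := congrArg (Int.cast : ℤ → ZMod (2 ^ r - 1)) (h1 l)
    rw [Int.cast_natCast] at h3
    rw [h3, map_add, map_nsmul, Pi.add_apply, Pi.smul_apply, hU0, hγ, Pi.sub_apply,
      Pi.single_apply, Pi.single_apply, nsmul_eq_mul]
    push_cast
    rfl)
  have e : ∀ l, lab' (γ0 + N • γ) l = lab' γ0 l + (N : ZMod (2 ^ r - 1)) * lab' γ l := fun l => by
    rw [map_add, map_nsmul, Pi.add_apply, Pi.smul_apply, nsmul_eq_mul]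
  simpa only [e] using h2

theorem monomial_of_pure {ι ι' Γ : Type} [Fintype ι] [DecidableEq ι] [Fintype ι']
    [AddCommGroup Γ] (r : ℕ) (hr : 3 * (Fintype.card ι + 8) < r) (h3 : 3 ≤ Fintype.card ι)
    (hc : Fintype.card ι = Fintype.card ι') (lab : Γ →+ (ι → ZMod (2 ^ r - 1)))
    (lab' : Γ →+ (ι' → ZMod (2 ^ r - 1))) (hi : Function.Injective lab)
    (hi' : Function.Injective lab') (hs : ∀ γ, ∑ l, lab γ l = 0) (hs' : ∀ γ, ∑ l, lab' γ l = 0)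
    (hsurj : ∀ x : ι → ZMod (2 ^ r - 1), ∑ l, x l = 0 → ∃ γ, lab γ = x)
    (hp : ∀ o : Fin r → ι, Function.Surjective o → ∀ γ, (∀ l, lab γ l = bitv o l) →
      (∀ l, lab' γ l ≠ 0) ∧ ∀ a : ℕ, ∑ l, (2 ^ a * lab' γ l).val ≤ 2 ^ r - 1) :
    ∃ (τ : ι ≃ ι') (c : ℕ), ∀ γ l, lab' γ (τ l) = 2 ^ c * lab γ l := by
  have hodd : Odd (2 ^ r - 1) :=
    Nat.Even.sub_odd Nat.one_le_two_pow (Nat.even_pow.2 ⟨even_two, by omega⟩) odd_one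
  have hm1 : 1 < 2 ^ r - 1 := by
    have : 2 ^ 2 ≤ 2 ^ r := Nat.pow_le_pow_right two_pos (by omega)
    omega
  obtain ⟨τ, x, hx⟩ := monomial_of_support (2 ^ r - 1) hodd hm1 h3 hc lab lab' hi hi' hs hs' hsurj
    (support_LC r hr lab lab' hsurj hp)
  obtain ⟨i, j, hij⟩ := Fintype.exists_pair_of_one_lt_card (α := ι) (by omega)
  have key : ∀ b : ℕ, 0 < b → b < r → x ≠ 0 ∧
      ∀ a : ℕ, (2 ^ a * x).val + (2 ^ a * (x * 2 ^ b)).val ≤ 2 ^ r - 1 := by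
    intro b hb0 hb
    obtain ⟨o, ho, h1, h2⟩ := exists_pure_pair r (by omega) h3 i j hij b hb0 hb
    obtain ⟨γ, hγ⟩ := exists_bitv_LC r lab hsurj o
    obtain ⟨h4, h5⟩ := hp o ho γ hγ
    have e1 : lab' γ (τ i) = x := by rw [hx, hγ, h1, Nat.cast_one, mul_one]
    have e2 : lab' γ (τ j) = x * 2 ^ b := by rw [hx, hγ, h2, Nat.cast_pow, Nat.cast_ofNat]
    refine ⟨e1 ▸ h4 (τ i), fun a => le_trans ?_ (h5 a)⟩
    rw [← e2, ← e1]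
    exact Finset.add_le_sum (f := fun l => (2 ^ a * lab' γ l).val) (fun _ _ => Nat.zero_le _)
      (Finset.mem_univ _) (Finset.mem_univ _) (τ.injective.ne hij)
  obtain ⟨c, rfl⟩ := eq_two_pow_of_rotations r (by omega) x (key 1 one_pos (by omega)).1
    fun a b hb0 hb => (key b hb0 hb).2 a
  exact ⟨τ, c, hx⟩

theorem pure_of_large {ι : Type} [Fintype ι] (m : ℕ) [NeZero m] (x : ι → ZMod m)
    (h2 : 2 ≤ Fintype.card ι) (hs : ∑ l, x l = 0)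
    (h : Fintype.card ι * m ≤ ∑ l, (x l).val + m) :
    (∀ l, x l ≠ 0) ∧ ∑ l, (-x l).val ≤ m := by
  classical
  have hne : ∀ l, x l ≠ 0 := by
    intro l0 h0
    have h1 : ∑ l ∈ Finset.univ.erase l0, ((x l).val + 1) ≤ ∑ _l ∈ Finset.univ.erase l0, m :=
      Finset.sum_le_sum fun l _ => (x l).val_lt
    rw [Finset.sum_add_distrib, Finset.sum_const, Finset.sum_const,
      Finset.card_erase_of_mem (Finset.mem_univ l0), Finset.card_univ, smul_eq_mul,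
      smul_eq_mul] at h1
    rw [← Finset.add_sum_erase _ _ (Finset.mem_univ l0), h0, ZMod.val_zero] at h
    obtain ⟨n, hn⟩ : ∃ n, Fintype.card ι = n + 1 := ⟨Fintype.card ι - 1, by omega⟩
    rw [hn, Nat.add_sub_cancel] at h1
    rw [hn, add_mul] at h
    omega
  refine ⟨hne, ?_⟩
  have h1 : ∑ l, ((-x l).val + (x l).val) = ∑ _l : ι, m :=
    Finset.sum_congr rfl fun l _ => by
      rw [ZMod.neg_val, if_neg (hne l), Nat.sub_add_cancel (x l).val_lt.le]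
  rw [Finset.sum_add_distrib, Finset.sum_const, Finset.card_univ, smul_eq_mul] at h1
  omega

theorem monomial_LC {ι ι' Γ : Type} [Fintype ι] [DecidableEq ι] [Fintype ι']
    [AddCommGroup Γ] (r m : ℕ) (hm : m = 2 ^ r - 1) (hr : 3 * (Fintype.card ι + 8) < r)
    (h3 : 3 ≤ Fintype.card ι) (hc : Fintype.card ι = Fintype.card ι')
    (lab : Γ →+ (ι → ZMod m)) (lab' : Γ →+ (ι' → ZMod m)) (hi : Function.Injective lab)
    (hi' : Function.Injective lab') (hs : ∀ γ, ∑ l, lab γ l = 0) (hs' : ∀ γ, ∑ l, lab' γ l = 0)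
    (hsurj : ∀ x : ι → ZMod m, ∑ l, x l = 0 → ∃ γ, lab γ = x)
    (hp : ∀ o : Fin r → ι, Function.Surjective o → ∀ γ, (∀ l, lab γ l = bitv o l) →
      (∀ l, lab' γ l ≠ 0) ∧ ∀ a : ℕ, ∑ l, (2 ^ a * lab' γ l).val ≤ m) :
    ∃ (τ : ι ≃ ι') (c : ℕ), ∀ γ l, lab' γ (τ l) = 2 ^ c * lab γ l := by
  subst hm
  exact monomial_of_pure r hr h3 hc lab lab' hi hi' hs hs' hsurj hp

/-- The discrete logarithm. -/
noncomputable def FF.lg_LC (𝔽 : FF) (t : 𝔽.Fˣ) : ZMod 𝔽.m := ((𝔽.exists_log t).choose : ℕ)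

theorem FF.pow_lg_LC (𝔽 : FF) (t : 𝔽.Fˣ) : 𝔽.u ^ (𝔽.lg_LC t).val = t := by
  rw [FF.lg_LC, 𝔽.pow_val_natCast]
  exact (𝔽.exists_log t).choose_spec.2.symm

theorem FF.lg_eq_LC (𝔽 : FF) {t : 𝔽.Fˣ} {a : ZMod 𝔽.m} (h : t = 𝔽.u ^ a.val) :
    𝔽.lg_LC t = a := by
  have h1 := (𝔽.pow_eq_pow_iff _ _).1 ((𝔽.pow_lg_LC t).trans h)
  rwa [ZMod.natCast_zmod_val, ZMod.natCast_zmod_val] at h1

theorem FF.lg_inj_LC (𝔽 : FF) {s t : 𝔽.Fˣ} (h : 𝔽.lg_LC s = 𝔽.lg_LC t) : s = t := by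
  rw [← 𝔽.pow_lg_LC s, h, 𝔽.pow_lg_LC]

theorem FF.lg_mul_LC (𝔽 : FF) (s t : 𝔽.Fˣ) : 𝔽.lg_LC (s * t) = 𝔽.lg_LC s + 𝔽.lg_LC t :=
  𝔽.lg_eq_LC (by rw [𝔽.pow_val_add, 𝔽.pow_lg_LC, 𝔽.pow_lg_LC])

theorem FF.lg_pow_LC (𝔽 : FF) (t : 𝔽.Fˣ) (n : ℕ) : 𝔽.lg_LC (t ^ n) = n * 𝔽.lg_LC t := by
  induction n with
  | zero =>
    rw [Nat.cast_zero, zero_mul]
    exact 𝔽.lg_eq_LC (by rw [ZMod.val_zero, pow_zero, pow_zero])
  | succ n ih => rw [pow_succ, 𝔽.lg_mul_LC, ih, Nat.cast_succ, add_mul, one_mul]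

/-- The labels of a character. -/
noncomputable def FF.lab_LC (𝔽 : FF) {H ι : Type} [Group H] (e : ι → H) :
    Additive (H →* 𝔽.Fˣ) →+ (ι → ZMod 𝔽.m) :=
  AddMonoidHom.mk' (fun γ y => -𝔽.lg_LC (γ.toMul (e y))) fun a b => by
    funext y
    rw [toMul_add, MonoidHom.mul_apply, 𝔽.lg_mul_LC, neg_add, Pi.add_apply]

theorem FF.lab_apply_LC (𝔽 : FF) {H ι : Type} [Group H] (e : ι → H)
    (γ : Additive (H →* 𝔽.Fˣ)) (y : ι) : 𝔽.lab_LC e γ y = -𝔽.lg_LC (γ.toMul (e y)) := rfl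

theorem Geo.lab_inj_LC {H ι : Type} [Group H] [Finite H] [Fintype ι] {e : ι → H}
    (hg : Geo Set.univ e ⊤) (𝔽 : FF) : Function.Injective (𝔽.lab_LC e) := by
  intro a b h
  exact Additive.toMul.injective
    (hg.char_ext 𝔽 _ _ fun i => 𝔽.lg_inj_LC (neg_injective (congrFun h i)))

theorem Geo.sum_lg_LC {H ι : Type} [Group H] [Finite H] [Fintype ι] {e : ι → H}
    (hg : Geo Set.univ e ⊤) (𝔽 : FF) (χ : H →* 𝔽.Fˣ) :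
    ∑ y, 𝔽.lg_LC (χ (e y)) = 0 ∧ h1 χ * 𝔽.m ≤ ∑ y, (𝔽.lg_LC (χ (e y))).val := by
  obtain ⟨h1, h2, -⟩ := hg.bounds 𝔽 χ (fun y => (𝔽.lg_LC (χ (e y))).val)
    fun y => (𝔽.pow_lg_LC _).symm
  refine ⟨?_, h2⟩
  have h3 := (ZMod.natCast_eq_zero_iff _ _).2 h1
  simpa only [Nat.cast_sum, ZMod.natCast_zmod_val] using h3

theorem Geo.sum_lab_LC {H ι : Type} [Group H] [Finite H] [Fintype ι] {e : ι → H}
    (hg : Geo Set.univ e ⊤) (𝔽 : FF) (γ : Additive (H →* 𝔽.Fˣ)) :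
    ∑ y, 𝔽.lab_LC e γ y = 0 := by
  simp only [FF.lab_apply_LC, Finset.sum_neg_distrib, (hg.sum_lg_LC 𝔽 _).1, neg_zero]

theorem RichG.surj_LC {H ι : Type} [Group H] [Fintype ι] [DecidableEq ι] {𝔽 : FF} {e : ι → H}
    (hR : RichG 𝔽 e) (x : ι → ZMod 𝔽.m) (hx : ∑ l, x l = 0) : ∃ γ, 𝔽.lab_LC e γ = x := by
  obtain ⟨χ, hχ⟩ := hR.1 (fun y => (-x y).val) (by
    rw [← ZMod.natCast_eq_zero_iff]
    simp only [Nat.cast_sum, ZMod.natCast_zmod_val, Finset.sum_neg_distrib, hx, neg_zero])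
  refine ⟨Additive.ofMul χ, funext fun y => ?_⟩
  rw [FF.lab_apply_LC, toMul_ofMul, 𝔽.lg_eq_LC (hχ y), neg_neg]

theorem RichG.pure_LC {H ι ι' : Type} [Group H] [Finite H] [Fintype ι] [DecidableEq ι]
    [Fintype ι'] {𝔽 : FF} {e : ι → H} {e' : ι' → H} (hc : Fintype.card ι = Fintype.card ι')
    (h3 : 3 ≤ Fintype.card ι) (hg : Geo Set.univ e ⊤) (hg' : Geo Set.univ e' ⊤) (hR : RichG 𝔽 e)
    (o : Fin 𝔽.r → ι) (ho : Function.Surjective o) (γ : Additive (H →* 𝔽.Fˣ))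
    (hγ : ∀ l, 𝔽.lab_LC e γ l = bitv o l) :
    (∀ l, 𝔽.lab_LC e' γ l ≠ 0) ∧ ∀ a : ℕ, ∑ l, (2 ^ a * 𝔽.lab_LC e' γ l).val ≤ 𝔽.m := by
  have := 𝔽.charP
  obtain ⟨χ, hχ, hh⟩ := hR.2 o ho
  have e1 : γ.toMul = χ := hg.char_ext 𝔽 _ _ fun y => by
    have h1 : 𝔽.lg_LC (γ.toMul (e y)) = -(bitv o y : ZMod 𝔽.m) := by
      rw [← hγ y, FF.lab_apply_LC, neg_neg]
    rw [← 𝔽.pow_lg_LC (γ.toMul (e y)), h1, 𝔽.pow_val_neg, 𝔽.pow_val_natCast]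
    exact (eq_inv_of_mul_eq_one_left (hχ y)).symm
  have key : ∀ a : ℕ, (∀ l, 2 ^ a * 𝔽.lab_LC e' γ l ≠ 0) ∧
      ∑ l, (2 ^ a * 𝔽.lab_LC e' γ l).val ≤ 𝔽.m := by
    intro a
    obtain ⟨h4, h5⟩ := hg'.sum_lg_LC 𝔽 (χ ^ 2 ^ a)
    rw [h1_pow_two_pow] at h5
    obtain ⟨h6, h7⟩ := pure_of_large 𝔽.m (fun y => 𝔽.lg_LC ((χ ^ 2 ^ a) (e' y)))
      (by omega) h4 (by
        rw [← hc]
        refine (Nat.mul_le_mul_right _ hh).trans ?_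
        rw [add_mul, one_mul]
        exact Nat.add_le_add_right h5 _)
    have e2 : ∀ l, 2 ^ a * 𝔽.lab_LC e' γ l = -𝔽.lg_LC ((χ ^ 2 ^ a) (e' l)) := fun l => by
      rw [FF.lab_apply_LC, e1, MonoidHom.pow_apply, 𝔽.lg_pow_LC, Nat.cast_pow,
        Nat.cast_ofNat, mul_neg]
    simp only [e2]
    exact ⟨fun l => neg_ne_zero.2 (h6 l), h7⟩
  refine ⟨fun l => ?_, fun a => (key a).2⟩
  have h1 := (key 0).1 l
  rwa [pow_zero, one_mul] at h1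

theorem exists_transport {H ι ι' : Type} [Group H] [Finite H] [Fintype ι] [DecidableEq ι]
    [Fintype ι'] (𝔽 : FF) (e : ι → H) (e' : ι' → H) (hc : Fintype.card ι = Fintype.card ι')
    (h3 : 3 ≤ Fintype.card ι) (hr : 3 * (Fintype.card ι + 8) < 𝔽.r) (hg : Geo Set.univ e ⊤)
    (hg' : Geo Set.univ e' ⊤) (hR : RichG 𝔽 e) :
    ∃ (τ : ι ≃ ι') (c : ℕ), ∀ (χ : H →* 𝔽.Fˣ) (y : ι), χ (e' (τ y)) = χ (e y) ^ 2 ^ c := by
  obtain ⟨τ, c, hτ⟩ := monomial_LC (Γ := Additive (H →* 𝔽.Fˣ)) 𝔽.r 𝔽.m rfl hr h3 hc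
    (𝔽.lab_LC e) (𝔽.lab_LC e')
    (hg.lab_inj_LC 𝔽) (hg'.lab_inj_LC 𝔽) (hg.sum_lab_LC 𝔽) (hg'.sum_lab_LC 𝔽) hR.surj_LC
    (hR.pure_LC hc h3 hg hg')
  refine ⟨τ, c, fun χ y => 𝔽.lg_inj_LC ?_⟩
  have h1 := hτ (Additive.ofMul χ) y
  rw [FF.lab_apply_LC, FF.lab_apply_LC, toMul_ofMul, mul_neg, neg_inj] at h1
  rw [h1, 𝔽.lg_pow_LC, Nat.cast_pow, Nat.cast_ofNat]

end Pool.Agent.Adm
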