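import Pool.Agent.Adq.D3
import Pool.Agent.Adq.FFL

/-! The transport of the marked points of a Kummer covering is equivariant. -/

namespace Pool.Agent.Adm

/-- The value of a character of the kernel on a conjugate only depends on the class of the
conjugating element. -/
theorem IsYD.char_conj {ι A G F : Type} [DecidableEq ι] [CommGroup A] [Group G] [CommGroup F]
    {N : ℕ} {χ0 : G →* A} {d : ι → G} {i0 i2 : ι} {e : YI ι A i0 i2 → χ0.ker}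
    (he : IsYD N χ0 d i0 i2 e) (χ : χ0.ker →* F) (y : YI ι A i0 i2) (h0 : y.1.1 ≠ i0)
    (h2 : y.1.1 ≠ i2) (g : G) (hg : χ0 g = y.1.2) (h : χ0.ker)
    (hh : (h : G) = g⁻¹ * d y.1.1 * g) : χ h = χ (e y) := by
  obtain ⟨γ, hγ, he⟩ := he
  let k : χ0.ker := ⟨(γ y.1.2)⁻¹ * g, by
    rw [MonoidHom.mem_ker, map_mul, map_inv, hγ, hg, inv_mul_cancel]⟩
  have : h = k⁻¹ * e y * k := by
    apply Subtype.ext
    rw [hh, Subgroup.coe_mul, Subgroup.coe_mul, Subgroup.coe_inv, he, yd, if_neg (by tauto)]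
    simp only [k]
    group
  rw [this, map_mul, map_mul, map_inv, mul_right_comm, inv_mul_cancel, one_mul]

theorem IsYD.conj_ST {ι A G F : Type} [DecidableEq ι] [CommGroup A] [Group G] [CommGroup F]
    {N : ℕ} {χ0 : G →* A} {d : ι → G} {i0 i2 : ι} {e : YI ι A i0 i2 → χ0.ker}
    (he : IsYD N χ0 d i0 i2 e) (χ : χ0.ker →* F) (y z : YI ι A i0 i2) (h0 : y.1.1 ≠ i0)
    (h2 : y.1.1 ≠ i2) (g : G) (hz : z.1.1 = y.1.1) (hg : z.1.2 = y.1.2 * χ0 g) :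
    χ (MulAut.conjNormal g⁻¹ (e y)) = χ (e z) := by
  obtain ⟨γ, hγ, he'⟩ := id he
  refine he.char_conj χ z (hz ▸ h0) (hz ▸ h2) (γ y.1.2 * g) (by rw [map_mul, hγ, hg]) _ ?_
  rw [MulAut.conjNormal_apply, he', yd, if_neg (by tauto), hz]
  group

theorem IsYD.char_ST {ι A G F : Type} [DecidableEq ι] [CommGroup A] [Group G] [CommGroup F]
    {N : ℕ} {χ0 : G →* A} {d : ι → G} {i0 i2 : ι} {e : YI ι A i0 i2 → χ0.ker}
    (he : IsYD N χ0 d i0 i2 e) (ψ : G →* F) (y : YI ι A i0 i2) :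
    ∃ k, (k = N ∨ k = 1) ∧ ψ (e y) = ψ (d y.1.1) ^ k := by
  obtain ⟨γ, -, he⟩ := he
  rw [he, yd]
  split_ifs
  · exact ⟨N, Or.inl rfl, map_pow _ _ _⟩
  · refine ⟨1, Or.inr rfl, ?_⟩
    rw [map_mul, map_mul, map_inv, mul_right_comm, inv_mul_cancel, one_mul, pow_one]

theorem RichG.sep_ST {𝔽 : FF} {ι H : Type} [Fintype ι] [DecidableEq ι] [Group H] {e : ι → H}
    (h : RichG 𝔽 e) {a b c : ι} (hab : a ≠ b) (hca : c ≠ a) (hcb : c ≠ b) :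
    ∃ χ : H →* 𝔽.Fˣ, χ (e a) = 𝔽.u ∧ χ (e c) = 1 := by
  obtain ⟨χ, hχ⟩ := h.1 (Pi.single a 1 + Pi.single b (𝔽.m - 1)) (by
    have := 𝔽.m_pos
    simp only [Pi.add_apply, Finset.sum_add_distrib, Finset.sum_pi_single', Finset.mem_univ,
      if_true]
    exact ⟨1, by omega⟩)
  refine ⟨χ, ?_, ?_⟩
  · rw [hχ]; simp [hab]
  · rw [hχ]; simp [hca, hcb]

theorem FF.pow_ne_ST (𝔽 : FF) {k c : ℕ} (h0 : 0 < k) (hk : k < 𝔽.m) :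
    (𝔽.u ^ k) ^ 2 ^ c ≠ 1 := by
  intro h
  rw [← pow_mul, 𝔽.u_prim.pow_eq_one_iff_dvd] at h
  have hc : Nat.Coprime 𝔽.m (2 ^ c) :=
    Nat.Coprime.pow_right _ (Nat.coprime_two_right.2 𝔽.m_odd)
  exact absurd (Nat.le_of_dvd h0 (hc.dvd_of_dvd_mul_right h)) (by omega)

theorem exists_shift {n : ℕ} {G : Type} [Group G] (𝔽0 𝔽 : FF) (hn : 3 ≤ n) (hN : 𝔽0.m < 𝔽.m)
    {i0 i2 : Fin n} (h02 : i0 ≠ i2) (d d' : Fin n → G) (τ : Fin n ≃ Fin n) (c : ℕ)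
    (χ0 : G →* 𝔽0.Fˣ) (hb : ∀ (ψ : G →* 𝔽.Fˣ) l, ψ (d' (τ l)) = ψ (d l) ^ 2 ^ c)
    (hrb : RichG 𝔽 d) (e : YI (Fin n) 𝔽0.Fˣ i0 i2 → χ0.ker) (he : IsYD 𝔽0.m χ0 d i0 i2 e)
    (e' : YI (Fin n) 𝔽0.Fˣ (τ i0) (τ i2) → χ0.ker) (he' : IsYD 𝔽0.m χ0 d' (τ i0) (τ i2) e')
    (hr : RichG 𝔽 e) (τY : YI (Fin n) 𝔽0.Fˣ i0 i2 ≃ YI (Fin n) 𝔽0.Fˣ (τ i0) (τ i2)) (cY : ℕ)
    (hY : ∀ (χ : χ0.ker →* 𝔽.Fˣ) y, χ (e' (τY y)) = χ (e y) ^ 2 ^ cY) :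
    ∃ sh : Fin n → 𝔽0.Fˣ, ∀ y, (τY y).1.1 = τ y.1.1 ∧
      (y.1.1 ≠ i0 → y.1.1 ≠ i2 → (τY y).1.2 = sh y.1.1 * y.1.2) := by
  have hm0 := 𝔽0.m_pos
  have p1 : ∀ y, (τY y).1.1 = τ y.1.1 := by
    intro y
    by_contra hne
    have hne' : τ.symm (τY y).1.1 ≠ y.1.1 := fun h => hne (by rw [← h, Equiv.apply_symm_apply])
    obtain ⟨l3, h3⟩ : ∃ l3, l3 ∉ ({y.1.1, τ.symm (τY y).1.1} : Finset (Fin n)) := by
      by_contra hall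
      push Not at hall
      have h1 := Finset.card_le_card (fun l _ => hall l : Finset.univ ⊆ _)
      have h2 := Finset.card_le_two (a := y.1.1) (b := τ.symm (τY y).1.1)
      rw [Finset.card_univ, Fintype.card_fin] at h1
      omega
    rw [Finset.mem_insert, Finset.mem_singleton, not_or] at h3
    obtain ⟨ψ, h4, h5⟩ := hrb.sep_ST (Ne.symm h3.1) hne' (Ne.symm h3.2)
    obtain ⟨k, hk, h6⟩ := he.char_ST ψ y
    obtain ⟨k', -, h7⟩ := he'.char_ST ψ (τY y)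
    have h8 : ψ (e' (τY y)) = ψ (e y) ^ 2 ^ cY := hY (ψ.comp χ0.ker.subtype) y
    have h9 := hb ψ (τ.symm (τY y).1.1)
    rw [Equiv.apply_symm_apply, h5, one_pow] at h9
    rw [h6, h7, h4, h9, one_pow] at h8
    exact 𝔽.pow_ne_ST (by omega) (by omega) h8.symm
  refine ⟨fun l => (τY ⟨(l, 1), fun _ => rfl⟩).1.2, fun y => ⟨p1 y, fun h0 h2 => ?_⟩⟩
  obtain ⟨γ, hγ, -⟩ := id he
  let y0 : YI (Fin n) 𝔽0.Fˣ i0 i2 := ⟨(y.1.1, 1), fun _ => rfl⟩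
  have q0 : (τY y0).1.1 ≠ τ i0 := by rw [p1]; exact τ.injective.ne h0
  have q2 : (τY y0).1.1 ≠ τ i2 := by rw [p1]; exact τ.injective.ne h2
  let z : YI (Fin n) 𝔽0.Fˣ (τ i0) (τ i2) :=
    ⟨((τY y0).1.1, (τY y0).1.2 * y.1.2), fun h => absurd h (not_or.2 ⟨q0, q2⟩)⟩
  have key : ∀ χ : χ0.ker →* 𝔽.Fˣ, χ (e (τY.symm z)) ^ 2 ^ cY = χ (e y) ^ 2 ^ cY := by
    intro χ
    have h1 : χ (MulAut.conjNormal (γ y.1.2)⁻¹ (e' (τY y0))) =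
        χ (MulAut.conjNormal (γ y.1.2)⁻¹ (e y0)) ^ 2 ^ cY :=
      hY (χ.comp (MulAut.conjNormal (H := χ0.ker) (γ y.1.2)⁻¹).toMonoidHom) y0
    rw [he.conj_ST χ y0 y h0 h2 _ rfl (by rw [hγ]; exact (one_mul _).symm),
      he'.conj_ST χ (τY y0) z q0 q2 _ rfl (by rw [hγ])] at h1
    rw [← h1, ← hY, Equiv.apply_symm_apply]
  have hz : τY.symm z = y := by
    by_contra hne
    obtain ⟨b, hb1, hb2⟩ : ∃ b : YI (Fin n) 𝔽0.Fˣ i0 i2, y ≠ b ∧ τY.symm z ≠ b := by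
      by_cases h : (τY.symm z).1.1 = i0
      · exact ⟨⟨(i2, 1), fun _ => rfl⟩, fun e => h2 (by rw [e]),
          fun e => h02 (by rw [← h, e])⟩
      · exact ⟨⟨(i0, 1), fun _ => rfl⟩, fun e => h0 (by rw [e]), fun e => h (by rw [e])⟩
    obtain ⟨χ, h4, h5⟩ := hr.sep_ST hb1 hne hb2
    have := key χ
    rw [h4, h5, one_pow, ← pow_one 𝔽.u] at this
    exact 𝔽.pow_ne_ST one_pos (by omega) this.symm
  have : τY y = z := by rw [← hz, Equiv.apply_symm_apply]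
  rw [this]

end Pool.Agent.Adm
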