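import Pool.Agent.Adq.TU
import Pool.Agent.Adq.ST
import Pool.Agent.Adq.LC
import Pool.Agent.Adq.Tr3

/-! Transport of one test character. -/

namespace Pool.Agent.Adm

open Sum

theorem tpoly_reindex_HF1 {n : ℕ} {k : Type} [Field k] (θ : K0 →+* k) (𝔽0 : FF) (α : k) (n0 : ℕ)
    (n1 : 𝔽0.Fˣ → ℕ) (nn : Fin n → ℕ) (a : Fin n → k) (s : 𝔽0.Fˣ) (τ : Fin n ≃ Fin n) :
    tpoly θ 𝔽0 α n0 (fun t => n1 (s * t)) (fun l => nn (τ.symm l)) a =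
      tpoly θ 𝔽0 (θ (𝔽0.θ (s⁻¹ : 𝔽0.Fˣ)) * α) n0 n1 nn fun l => a (τ l) := by
  unfold tpoly
  congr 1
  · congr 1
    refine Fintype.prod_equiv (Equiv.mulLeft s) _ _ fun t => ?_
    simp only [Equiv.coe_mulLeft]
    rw [← mul_assoc, ← map_mul, ← map_mul, ← Units.val_mul, mul_inv_cancel_comm]
  · refine (Fintype.prod_equiv τ _ _ fun l => ?_).symm
    simp only [Equiv.symm_apply_apply]

theorem tlab_transport_HF1 {n : ℕ} {G : Type} [Group G] {𝔽0 𝔽 : FF} {d d' : Fin n → G}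
    {τ : Fin n ≃ Fin n} {i0 i1 i2 : Fin n} (h10 : i1 ≠ i0) (h12 : i1 ≠ i2) {χ0 : G →* 𝔽0.Fˣ}
    {χ χ' : χ0.ker →* 𝔽.Fˣ} {e : YI (Fin n) 𝔽0.Fˣ i0 i2 → χ0.ker} (he : IsYD 𝔽0.m χ0 d i0 i2 e)
    {e' : YI (Fin n) 𝔽0.Fˣ (τ i0) (τ i2) → χ0.ker} (he' : IsYD 𝔽0.m χ0 d' (τ i0) (τ i2) e')
    {τY : YI (Fin n) 𝔽0.Fˣ i0 i2 ≃ YI (Fin n) 𝔽0.Fˣ (τ i0) (τ i2)}
    (hχ : ∀ y, χ' (e' (τY y)) = χ (e y)) {sh : Fin n → 𝔽0.Fˣ}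
    (hsh : ∀ y, (τY y).1.1 = τ y.1.1 ∧
      (y.1.1 ≠ i0 → y.1.1 ≠ i2 → (τY y).1.2 = sh y.1.1 * y.1.2))
    {n0 : ℕ} {n1 : 𝔽0.Fˣ → ℕ} {nn : Fin n → ℕ} (hT : TLab 𝔽0 𝔽 χ0 χ d i0 i1 i2 n0 n1 nn) :
    TLab 𝔽0 𝔽 χ0 χ' d' (τ i0) (τ i1) (τ i2) n0 (fun t => n1 ((sh i1)⁻¹ * t))
      fun l => nn (τ.symm l) := by
  have key : ∀ l, l ≠ i0 → l ≠ i2 → ∀ (g : G) (h : χ0.ker), (h : G) = g⁻¹ * d' (τ l) * g →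
      ∃ (g0 : G) (h0 : χ0.ker), (h0 : G) = g0⁻¹ * d l * g0 ∧ χ0 g0 = (sh l)⁻¹ * χ0 g ∧
        χ' h = χ h0 := by
    intro l l0 l2 g h hh
    obtain ⟨γ, hγ, hy⟩ := he
    let y : YI (Fin n) 𝔽0.Fˣ i0 i2 := ⟨(l, (sh l)⁻¹ * χ0 g), fun h => (h.elim l0 l2).elim⟩
    obtain ⟨a1, a2⟩ := hsh y
    have a3 : (τY y).1.2 = χ0 g := (a2 l0 l2).trans (mul_inv_cancel_left _ _)
    refine ⟨γ ((sh l)⁻¹ * χ0 g), e y, ?_, hγ _, ?_⟩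
    · rw [hy, yd, if_neg fun h => h.elim l0 l2]
    · rw [← hχ]
      exact he'.char_conj χ' (τY y) (by rw [a1]; exact τ.injective.ne l0)
        (by rw [a1]; exact τ.injective.ne l2) g a3.symm h (by rw [a1]; exact hh)
  refine ⟨fun h hh => ?_, fun g h hh => ?_, fun l l0 l1 l2 g h hh => ?_⟩
  · obtain ⟨γ, -, hy⟩ := he
    obtain ⟨γ', -, hy'⟩ := he'
    let y : YI (Fin n) 𝔽0.Fˣ i0 i2 := ⟨(i0, 1), fun _ => rfl⟩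
    have a1 : (τY y).1.1 = τ i0 := (hsh y).1
    have a2 : h = e' (τY y) := Subtype.ext (by rw [hh, hy', yd, if_pos (.inl a1), a1])
    rw [a2, hχ]
    exact hT.1 _ (by rw [hy, yd, if_pos (.inl rfl)])
  · obtain ⟨g0, h0, a1, a2, a3⟩ := key i1 h10 h12 g h hh
    rw [a3, hT.2.1 g0 h0 a1, a2]
  · obtain ⟨l, rfl⟩ := τ.surjective l
    have b0 : l ≠ i0 := fun e => l0 (e ▸ rfl)
    have b1 : l ≠ i1 := fun e => l1 (e ▸ rfl)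
    have b2 : l ≠ i2 := fun e => l2 (e ▸ rfl)
    obtain ⟨g0, h0, a1, -, a3⟩ := key l b0 b2 g h hh
    rw [a3, hT.2.2 l b0 b1 b2 g0 h0 a1]
    simp only [Equiv.symm_apply_apply]

theorem test_transport {n : ℕ} {σ' : Shape n} (z' : Pt σ') {G : Type} [Group G] [Finite G]
    (d : Fin n → G) (hd : Geo Set.univ d ⊤) (d' : σ'.Slot → G) (hd' : z'.Adm G d') (𝔽0 𝔽 : FF)
    (hdiv : 𝔽0.r ∣ 𝔽.r) (hN : 𝔽0.m < 𝔽.m) (hr : 3 * (𝔽0.m * (n - 2) + 2 + 8) < 𝔽.r)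
    (τ : Fin n ≃ Fin n) (c : ℕ)
    (hb : ∀ (ψ : G →* 𝔽.Fˣ) l, ψ (d' (inr (τ l))) = ψ (d l) ^ 2 ^ c) (hrb : RichG 𝔽 d)
    {i0 i1 i2 : Fin n} (hR : Rich 𝔽0 𝔽 i0 i2 G d) (n0 : ℕ) (n1 : 𝔽0.Fˣ → ℕ) (nn : Fin n → ℕ)
    (w : ℕ) (hT : Test 𝔽0 𝔽 i0 i1 i2 n0 n1 nn w G d) {v' : Fin σ'.r}
    (hm : σ'.IsMed v' (τ i0) (τ i1) (τ i2))
    (hnn : ∀ l, l = i0 ∨ l = i1 ∨ σ'.dir v' (τ l) = σ'.dir v' (τ i2) → nn l = 0)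
    (hb0 : n0 + 𝔽0.m * ∑ l, nn l < 𝔽.m) (hb1 : ∀ t, n1 t + ∑ l, nn l < 𝔽.m)
    (hw : n0 + ∑ t, n1 t + 𝔽0.m * ∑ l, nn l ≤ (w + 1) * 𝔽.m) (σ0 : K0 →+* K0)
    (hσ0 : ∀ x, σ0 x ^ 2 ^ c = x) :
    ∃ η : z'.k, η ^ 𝔽0.m = 1 ∧ (HW (2 ^ 𝔽.r) (tpoly (z'.θ.comp σ0) 𝔽0 η n0 n1 nn
      fun l => z'.crs v' (τ i0) (τ i1) (τ i2) (τ l)) w).det ≠ 0 := by
  obtain ⟨χ0, hK, hR⟩ := hR
  obtain ⟨χ1, hK1, sh, χ, hT, hh⟩ := hT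
  obtain rfl : χ0 = χ1 := hd.char_ext 𝔽0 _ _ fun l => by
    by_cases l0 : l = i0
    · rw [l0, hK.1, hK1.1]
    by_cases l2 : l = i2
    · rw [l2, hK.2.1, hK1.2.1]
    rw [hK.2.2 l l0 l2, hK1.2.2 l l0 l2]
  have h01 : i0 ≠ i1 := fun e => hm.1 (e ▸ rfl)
  have h02 : i0 ≠ i2 := fun e => hm.2.1 (e ▸ rfl)
  have h12 : i1 ≠ i2 := fun e => hm.2.2 (e ▸ rfl)
  have hn : 3 ≤ n := σ'.three_le
  obtain ⟨f, hf, -⟩ := 𝔽.exists_hom 𝔽0 hdiv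
  have hc : ∀ l, χ0 (d' (inr (τ l))) = χ0 (d l) ^ 2 ^ c := fun l =>
    hf ((hb (f.comp χ0) l).trans (map_pow f _ _).symm)
  have hK' : KumLab χ0 (fun l => d' (inr l)) (τ i0) (τ i2) (𝔽0.u ^ 2 ^ c) := by
    refine ⟨(hc i0).trans (by rw [hK.1]), (hc i2).trans (by rw [hK.2.1, inv_pow]),
      fun l l0 l2 => ?_⟩
    obtain ⟨l, rfl⟩ := τ.surjective l
    exact (hc l).trans (by rw [hK.2.2 l (fun e => l0 (e ▸ rfl)) (fun e => l2 (e ▸ rfl)), one_pow])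
  obtain ⟨e, he, hge⟩ := hd.exists_isYD 𝔽0 χ0 h02 0 (by rwa [pow_zero, pow_one])
  obtain ⟨e', he', hge'⟩ := hd'.geo.exists_isYD 𝔽0 χ0 (τ.injective.ne h02) c hK'
  have c1 : Fintype.card (YI (Fin n) 𝔽0.Fˣ i0 i2) = 𝔽0.m * (n - 2) + 2 := by
    rw [card_YI h02, 𝔽0.card_units, Fintype.card_fin]
  have c2 : Fintype.card (YI (Fin n) 𝔽0.Fˣ (τ i0) (τ i2)) = 𝔽0.m * (n - 2) + 2 := by
    rw [card_YI (τ.injective.ne h02), 𝔽0.card_units, Fintype.card_fin]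
  have c3 : 0 < 𝔽0.m * (n - 2) := Nat.mul_pos 𝔽0.m_pos (by omega)
  obtain ⟨τY, cY, hY⟩ := exists_transport 𝔽 e e' (c1.trans c2.symm) (by omega) (by rwa [c1]) hge
    hge' (hR e he)
  obtain ⟨sh', hsh⟩ := exists_shift 𝔽0 𝔽 hn hN h02 d (fun l => d' (inr l)) τ c χ0 hb hrb e he e'
    he' (hR e he) τY cY hY
  have hχ : ∀ y, (χ ^ 2 ^ ((𝔽.r - 1) * cY)) (e' (τY y)) = χ (e y) := fun y => by
    rw [MonoidHom.pow_apply, hY, pow_pow_KRV]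
  have hL := tlab_transport_HF1 h01.symm h12 he he' hχ hsh hT
  simp only [← mul_assoc] at hL
  have s1 : ∑ l, nn (τ.symm l) = ∑ l, nn l := Equiv.sum_comp τ.symm nn
  have s2 : ∑ t, n1 (sh * (sh' i1)⁻¹ * t) = ∑ t, n1 t :=
    Equiv.sum_comp (Equiv.mulLeft (sh * (sh' i1)⁻¹)) n1
  obtain ⟨R, hA, hR'⟩ := hd'
  have H : TUH z' d' R v' (τ i0) (τ i1) (τ i2) 𝔽0 𝔽 c χ0 (χ ^ 2 ^ ((𝔽.r - 1) * cY)) n0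
      (fun t => n1 (sh * (sh' i1)⁻¹ * t)) fun l => nn (τ.symm l) := by
    refine ⟨hA, hm, hK', hL, fun l hl => ?_, by rwa [s1], fun t => by rw [s1]; exact hb1 _⟩
    obtain ⟨l, rfl⟩ := τ.surjective l
    rw [Equiv.symm_apply_apply]
    exact hnn l (hl.imp τ.injective.eq_iff.1 (Or.imp_left τ.injective.eq_iff.1))
  have := 𝔽.charP
  obtain ⟨α, hα, hdet⟩ := H.det_ne_zero hR' σ0 hσ0 w (by rwa [s1, s2])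
    (by rwa [h1_pow_two_pow])
  rw [tpoly_reindex_HF1] at hdet
  exact ⟨_, by rw [mul_pow, 𝔽0.theta_pow_m, hα, one_mul], hdet⟩

end Pool.Agent.Adm
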