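import Pool.Agent.Adm.GA0
import Pool.Agent.Adm.LB

/-! Galois closures, extension of embeddings, and substitutions in the rational function field. -/

namespace Pool.Agent.Adm

/-- Two embeddings into a normal extension which agree on the base are conjugate. -/
theorem exists_aut_IN0 {F E M : Type} [Field F] [Field E] [Field M] [Algebra F M] [Normal F M]
    (ρ : F →+* E) (i i' : E →+* M) (h : ∀ a, i (ρ a) = algebraMap F M a)
    (h' : ∀ a, i' (ρ a) = algebraMap F M a) : ∃ σ : M ≃ₐ[F] M, ∀ e, σ (i e) = i' e := by
  let : Algebra F E := ρ.toAlgebra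
  let : Algebra E M := i.toAlgebra
  have : IsScalarTower F E M := IsScalarTower.of_algebraMap_eq fun x => (h x).symm
  let φ : E →ₐ[F] M := { i' with commutes' := h' }
  exact ⟨AlgEquiv.ofBijective (φ.liftNormal M) (Algebra.IsAlgebraic.algHom_bijective _),
    fun e => φ.liftNormal_commutes M e⟩

/-- The Galois closure of a finite separable extension. -/
theorem exists_closure_IN0 (F L : Type) [Field F] [Field L] [Algebra F L] [FiniteDimensional F L]
    [Algebra.IsSeparable F L] :
    ∃ (M : Type) (_ : Field M) (_ : Algebra F M) (_ : FiniteDimensional F M) (_ : IsGalois F M)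
      (f : L →+* M), (∀ a, f (algebraMap F L a) = algebraMap F M a) ∧
      ∀ K : IntermediateField F M, (∀ (σ : M ≃ₐ[F] M) x, σ (f x) ∈ K) → K = ⊤ := by
  let Ω := SeparableClosure F
  let g : L →ₐ[F] Ω := IsSepClosed.lift
  let M : IntermediateField F Ω := IntermediateField.normalClosure F L Ω
  have hs : Algebra.IsSeparable F M := Algebra.isSeparable_tower_bot_of_isSeparable F M Ω
  have hG : IsGalois F M := ⟨⟩
  let r : (L →ₐ[F] Ω) → (L →ₐ[F] M) := fun g' =>
    g'.codRestrict M.toSubalgebra fun x => g'.fieldRange_le_normalClosure ⟨x, rfl⟩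
  refine ⟨M, inferInstance, inferInstance, inferInstance, hG, (r g).toRingHom, (r g).commutes,
    fun K hK => ?_⟩
  have h3 : M ≤ K.map M.val := by
    refine normalClosure_le_iff.2 fun g' => ?_
    rintro _ ⟨x, rfl⟩
    obtain ⟨σ, hσ⟩ := exists_aut_IN0 (algebraMap F L) (r g).toRingHom (r g').toRingHom
      (r g).commutes (r g').commutes
    exact ⟨_, hK σ x, congrArg Subtype.val (hσ x)⟩
  refine top_le_iff.1 fun x _ => ?_
  obtain ⟨y, hy, e⟩ := h3 x.2
  rwa [← show y = x from Subtype.ext e]

/-- The Galois closure of a Galois extension of a radical extension. -/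
theorem exists_closure_IN0' {F E L : Type} [Field F] [Field E] [Field L] [Algebra E L]
    [FiniteDimensional E L] [IsGalois E L] (ρ : F →+* E) (x : F) (z : E) (m : ℕ)
    (hm : (m : F) ≠ 0) (hx : x ≠ 0) (hz : z ^ m = ρ x)
    (hgen : ∀ S : Subfield E, (∀ a, ρ a ∈ S) → z ∈ S → S = ⊤) :
    ∃ (M : Type) (_ : Field M) (_ : Algebra F M) (_ : FiniteDimensional F M) (_ : IsGalois F M)
      (f : L →+* M), (∀ a, f (algebraMap E L (ρ a)) = algebraMap F M a) ∧
      ∀ K : IntermediateField F M, (∀ (σ : M ≃ₐ[F] M) x, σ (f x) ∈ K) → K = ⊤ := by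
  let : Algebra F E := ρ.toAlgebra
  let : Algebra F L := ((algebraMap E L).comp ρ).toAlgebra
  have : IsScalarTower F E L := IsScalarTower.of_algebraMap_eq fun _ => rfl
  have hm0 : m ≠ 0 := by
    rintro rfl
    exact hm Nat.cast_zero
  have hev : Polynomial.aeval z (Polynomial.X ^ m - Polynomial.C x) = 0 := by
    rw [map_sub, map_pow, Polynomial.aeval_X, Polynomial.aeval_C, hz]
    exact sub_self _
  have hint : IsIntegral F z := ⟨_, Polynomial.monic_X_pow_sub_C x hm0, hev⟩
  have hsep : IsSeparable F z :=
    (Polynomial.separable_X_pow_sub_C x hm hx).of_dvd (minpoly.dvd F z hev)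
  have htop : IntermediateField.adjoin F {z} = ⊤ := by
    apply IntermediateField.toSubfield_injective
    exact hgen _ (IntermediateField.adjoin F {z}).algebraMap_mem
      (IntermediateField.mem_adjoin_simple_self F z)
  have e : IntermediateField.adjoin F {z} ≃ₐ[F] E :=
    (IntermediateField.equivOfEq htop).trans IntermediateField.topEquiv
  have := IntermediateField.adjoin.finiteDimensional hint
  have := (IntermediateField.isSeparable_adjoin_simple_iff_isSeparable F E).2 hsep
  have : FiniteDimensional F E := e.toLinearEquiv.finiteDimensional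
  have : Algebra.IsSeparable F E := AlgEquiv.Algebra.isSeparable e
  have : FiniteDimensional F L := Module.Finite.trans E L
  have : Algebra.IsSeparable F L := Algebra.IsSeparable.trans F E L
  exact exists_closure_IN0 F L

/-- Extension of an embedding to the Galois closure. -/
theorem exists_ext_IN0 {F L M W : Type} [Field F] [Field L] [Field M] [Field W] [Algebra F M]
    [FiniteDimensional F M] (ρ : F →+* L) (f : L →+* M) (hf : ∀ a, f (ρ a) = algebraMap F M a)
    (hK : ∀ K : IntermediateField F M, (∀ (σ : M ≃ₐ[F] M) x, σ (f x) ∈ K) → K = ⊤)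
    (j0 : L →+* W) (h : ∀ J : M →+* AlgebraicClosure W,
      (∀ x, J (f x) = algebraMap W (AlgebraicClosure W) (j0 x)) →
      ∀ (σ : M ≃ₐ[F] M) x, J (σ (f x)) ∈ Set.range (algebraMap W (AlgebraicClosure W))) :
    ∃ j : M →+* W, ∀ x, j (f x) = j0 x := by
  let : Algebra F L := ρ.toAlgebra
  let : Algebra L M := f.toAlgebra
  have : IsScalarTower F L M := IsScalarTower.of_algebraMap_eq fun x => (hf x).symm
  have : Algebra.IsAlgebraic L M := Algebra.IsAlgebraic.tower_top (K := F) L
  let S : Set M := {w | ∃ (σ : M ≃ₐ[F] M) (x : L), σ (f x) = w}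
  have hS : IntermediateField.adjoin L S = ⊤ := by
    have := hK ((IntermediateField.adjoin L S).restrictScalars F)
      (fun σ x => IntermediateField.subset_adjoin L S ⟨σ, x, rfl⟩)
    exact (IntermediateField.restrictScalars_eq_top_iff).1 this
  exact exists_extension j0 S hS fun J hJ => by
    rintro _ ⟨σ, x, rfl⟩
    exact h J hJ σ x

/-- The substitution X ↦ c X ^ m. -/
theorem exists_subst_IN0 {k : Type} [Field k] (c : k) (hc : c ≠ 0) (m : ℕ) (hm : 0 < m) :
    ∃ f : RatFunc k →+* RatFunc k, (∀ a, f (RatFunc.C a) = RatFunc.C a) ∧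
      f RatFunc.X = RatFunc.C c * RatFunc.X ^ m := by
  refine exists_ratFunc_hom RatFunc.C _ fun P hP h => ?_
  have e : P.eval₂ RatFunc.C (RatFunc.C c * RatFunc.X ^ m) =
      algebraMap (Polynomial k) (RatFunc k) (P.comp (Polynomial.C c * Polynomial.X ^ m)) := by
    rw [Polynomial.comp, Polynomial.hom_eval₂]
    congr 1
    simp
  rw [e, map_eq_zero_iff _ (IsFractionRing.injective _ _), Polynomial.comp_eq_zero_iff] at h
  rcases h with h | ⟨-, h⟩
  · exact hP h
  · have := congrArg Polynomial.natDegree h
    rw [Polynomial.natDegree_C_mul_X_pow _ _ hc, Polynomial.natDegree_C] at this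
    omega

/-- The rational function field is generated by the constants and the variable. -/
theorem subfield_top_IN0 {k : Type} [Field k] (S : Subfield (RatFunc k))
    (hC : ∀ a, RatFunc.C a ∈ S) (hX : RatFunc.X ∈ S) : S = ⊤ := by
  have hP : ∀ P : Polynomial k, algebraMap (Polynomial k) (RatFunc k) P ∈ S := fun P => by
    induction P using Polynomial.induction_on' with
    | add p q hp hq => rw [map_add]; exact add_mem hp hq
    | monomial n a =>
      rw [← Polynomial.C_mul_X_pow_eq_monomial, map_mul, map_pow, RatFunc.algebraMap_C,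
        RatFunc.algebraMap_X]
      exact mul_mem (hC a) (pow_mem hX n)
  refine top_le_iff.1 fun r _ => ?_
  rw [← r.num_div_denom]
  exact div_mem (hP _) (hP _)

end Pool.Agent.Adm
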