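import Pool.Agent.Adq.FFL
import Pool.Agent.Adq.CJ
import Pool.Agent.Adm.PR
import Pool.Agent.Adq.IN0Aux

/-! The Galois closure of a covering of a Kummer covering of the line. -/

namespace Pool.Agent.Adm

theorem Cover.exists_induced {k B : Type} [Field k] [Group B] (c' : Cover k B) (θ : K0 →+* k)
    (𝔽0 : FF) :
    ∃ (c : Cover k (RegularWreathProduct B 𝔽0.Fˣ)) (y : c.L),
      y ^ 𝔽0.m = algebraMap (RatFunc k) c.L RatFunc.X ∧
      (∀ σ : c.L ≃ₐ[RatFunc k] c.L,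
        σ y = algebraMap (RatFunc k) c.L (RatFunc.C (θ (𝔽0.θ (c.ι σ).right))) * y) ∧
      (∀ b ∈ c'.ι.range, ∃ g ∈ c.ι.range, g.right = 1 ∧ g.left 1 = b) ∧
      (∀ (W : Type) [Field W] (φ : k →+* W) (η : W),
        (∀ t : 𝔽0.Fˣ, c'.RMono φ (φ (θ (𝔽0.θ t)) * η) (RingHom.id W) 1) →
        ∃ j : c.L →+* W, (∀ x, j (algebraMap (RatFunc k) c.L (RatFunc.C x)) = φ x) ∧ j y = η) ∧
      ∀ (W : Type) [Field W] (φ : k →+* W) (j : c.L →+* W) (s : W →+* W)
        (σ : c.L ≃ₐ[RatFunc k] c.L),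
        (∀ x, j (algebraMap (RatFunc k) c.L (RatFunc.C x)) = φ x) → (∀ x, j (σ x) = s (j x)) →
        σ y = y → ∀ t : 𝔽0.Fˣ, c'.RMono φ (φ (θ (𝔽0.θ t)) * j y) s ((c.ι σ).left t) := by
  obtain ⟨ρ, ρC, ρX⟩ := exists_subst_IN0 (1 : k) one_ne_zero 𝔽0.m 𝔽0.m_pos
  rw [map_one, one_mul] at ρX
  obtain ⟨M, _, _, _, _, f, hf, hK⟩ := exists_closure_IN0' (L := c'.L) ρ RatFunc.X RatFunc.X 𝔽0.m
    (𝔽0.m_cast_ne_zero (RatFunc.C.comp θ)) RatFunc.X_ne_zero ρX.symm
    (fun S h1 h2 => subfield_top_IN0 S (fun a => ρC a ▸ h1 _) h2)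
  let i : RatFunc k →+* M := f.comp (algebraMap (RatFunc k) c'.L)
  let y : M := i RatFunc.X
  have iρ : ∀ a, i (ρ a) = algebraMap (RatFunc k) M a := hf
  have iC : ∀ a, i (RatFunc.C a) = algebraMap (RatFunc k) M (RatFunc.C a) := fun a => by
    rw [← iρ, ρC]
  have y0 : y ≠ 0 := (map_ne_zero i).2 RatFunc.X_ne_zero
  have ym : y ^ 𝔽0.m = algebraMap (RatFunc k) M RatFunc.X := by
    rw [← iρ, ρX, map_pow]
  let θ' : K0 →+* M := (algebraMap (RatFunc k) M).comp (RatFunc.C.comp θ)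
  have θfix : ∀ (σ : M ≃ₐ[RatFunc k] M) a, σ (θ' a) = θ' a := fun σ a => σ.commutes _
  have hκ : ∀ σ : M ≃ₐ[RatFunc k] M, ∃ t : 𝔽0.Fˣ, σ y = θ' (𝔽0.θ t) * y := fun σ => by
    obtain ⟨t, ht⟩ := 𝔽0.exists_unit θ' (σ y / y) (by
      rw [div_pow, ← map_pow, ym, σ.commutes, ← ym, div_self (pow_ne_zero _ y0)])
    exact ⟨t, by rw [ht, div_mul_cancel₀ _ y0]⟩
  choose κ0 hκ0 using hκ
  have uniq : ∀ t t' : 𝔽0.Fˣ, θ' (𝔽0.θ t) * y = θ' (𝔽0.θ t') * y → t = t' := fun t t' h =>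
    𝔽0.theta_injective θ' (mul_right_cancel₀ y0 h)
  let κ : (M ≃ₐ[RatFunc k] M) →* 𝔽0.Fˣ := MonoidHom.mk' κ0 fun σ τ => uniq _ _ (by
    rw [← hκ0, AlgEquiv.mul_apply, hκ0 τ, map_mul, θfix, hκ0 σ, Units.val_mul, map_mul, map_mul]
    ring)
  have hκ : ∀ σ, σ y = θ' (𝔽0.θ (κ σ)) * y := hκ0
  have ker : ∀ σ, κ σ = 1 ↔ σ y = y := fun σ => by
    constructor
    · intro h
      rw [hκ, h, Units.val_one, map_one, map_one, one_mul]
    · intro h
      apply uniq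
      rw [← hκ, h, Units.val_one, map_one, map_one, one_mul]
  have hs : ∀ t : 𝔽0.Fˣ, ∃ σ, κ σ = t := fun t => by
    obtain ⟨g, gC, gX⟩ := exists_subst_IN0 (θ (𝔽0.θ t))
      ((map_ne_zero θ).2 ((map_ne_zero 𝔽0.θ).2 t.ne_zero)) 1 one_pos
    rw [pow_one] at gX
    have gρ : g.comp ρ = ρ := ratFunc_hom_ext _ _ (fun a => by rw [RingHom.comp_apply, ρC, gC])
      (by rw [RingHom.comp_apply, ρX, map_pow, gX, mul_pow, ← map_pow, 𝔽0.theta_pow_m, map_one,
        one_mul])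
    obtain ⟨σ, hσ⟩ := exists_aut_IN0 ρ i (i.comp g) iρ (fun a => by
      rw [← iρ]
      exact congrArg i (DFunLike.congr_fun gρ a))
    refine ⟨σ, uniq _ _ ?_⟩
    rw [← hκ, hσ, RingHom.comp_apply, gX, map_mul, iC]
    rfl
  choose sec hsec using hs
  have hr : ∀ h : κ.ker, ∃ τ : c'.L ≃ₐ[RatFunc k] c'.L, ∀ x, f (τ x) = h.1 (f x) := fun h => by
    have e : (h.1 : M →+* M).comp i = i := ratFunc_hom_ext _ _
      (fun a => by rw [RingHom.comp_apply, iC]; exact h.1.commutes _) ((ker _).1 h.2)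
    exact exists_aut_of_normal (F := RatFunc k) f ((h.1 : M →+* M).comp f)
      fun a => DFunLike.congr_fun e a
  choose r0 hr0 using hr
  let r : κ.ker →* (c'.L ≃ₐ[RatFunc k] c'.L) := MonoidHom.mk' r0 fun σ τ => by
    ext x
    apply f.injective
    rw [hr0, AlgEquiv.mul_apply, hr0, hr0]
    rfl
  have hr : ∀ h x, f (r h x) = h.1 (f x) := hr0
  obtain ⟨ι, ι1, ι2⟩ := exists_wr_hom κ sec hsec (c'.ι.comp r)
  refine ⟨{ L := M, ι := ι }, y, ym, fun σ => ?_, ?_, ?_, ?_⟩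
  · change σ y = θ' (𝔽0.θ (ι σ).right) * y
    rw [ι1]
    exact hκ σ
  · rintro _ ⟨τ, rfl⟩
    obtain ⟨h, hh⟩ := exists_aut_IN0 ((algebraMap (RatFunc k) c'.L).comp ρ) f
      (f.comp (τ : c'.L →+* c'.L)) hf (fun a => by
        rw [← hf]
        exact congrArg f (τ.commutes _))
    have h1 : κ h = 1 := (ker h).2 ((hh _).trans (congrArg f (τ.commutes _)))
    have h2 : r ⟨h, h1⟩ = τ := by
      ext x
      apply f.injective
      rw [hr]
      exact hh x
    have h3 : κ (sec 1 * h * (sec 1)⁻¹) = 1 := by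
      rw [map_mul, map_mul, map_inv, h1, mul_one, mul_inv_cancel]
    refine ⟨ι (sec 1 * h * (sec 1)⁻¹), ⟨_, rfl⟩, (ι1 _).trans h3, ?_⟩
    rw [ι2 _ 1 ⟨h, h1⟩ (by rw [h3, inv_one, one_mul]; group), MonoidHom.comp_apply, h2]
  · intro W _ φ η hW
    choose j jC jX _ using hW
    have jX1 : j 1 (algebraMap (RatFunc k) c'.L RatFunc.X) = η := by
      rw [jX, Units.val_one, map_one, map_one, map_one, one_mul]
    obtain ⟨J, hJ⟩ := exists_ext_IN0 ((algebraMap (RatFunc k) c'.L).comp ρ) f hf hK (j 1)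
      (fun J hJ σ x => by
        have JC : ∀ a, J (algebraMap (RatFunc k) M (RatFunc.C a)) =
            algebraMap W (AlgebraicClosure W) (φ a) := fun a => by
          rw [← iC, ← jC 1]
          exact hJ _
        have Jy : J y = algebraMap W (AlgebraicClosure W) η := by
          rw [← jX1]
          exact hJ _
        have e : (J.comp (σ : M →+* M)).comp i = ((algebraMap W (AlgebraicClosure W)).comp
            (j (κ σ))).comp (algebraMap (RatFunc k) c'.L) := by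
          refine ratFunc_hom_ext _ _ (fun a => ?_) ?_
          · change J (σ (i (RatFunc.C a))) = algebraMap W _ (j (κ σ) (algebraMap _ _ (RatFunc.C a)))
            rw [iC, σ.commutes, JC, jC]
          · change J (σ y) = algebraMap W _ (j (κ σ) (algebraMap _ _ RatFunc.X))
            rw [hκ, map_mul, Jy, jX, map_mul, ← JC]
            rfl
        obtain ⟨τ, hτ⟩ := exists_aut_of_normal (F := RatFunc k)
          ((algebraMap W (AlgebraicClosure W)).comp (j (κ σ))) ((J.comp (σ : M →+* M)).comp f)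
          fun a => DFunLike.congr_fun e a
        exact ⟨j (κ σ) (τ x), hτ x⟩)
    refine ⟨J, fun a => ?_, (hJ _).trans jX1⟩
    rw [← jC 1, ← hJ]
    exact congrArg J (iC a).symm
  · intro W _ φ j s σ hj hσ hy t
    have h0 : κ σ = 1 := (ker σ).2 hy
    have h1 : κ ((sec t)⁻¹ * σ * sec t) = 1 := by
      rw [map_mul, map_mul, map_inv, h0, mul_one, inv_mul_cancel]
    refine ⟨(j.comp (sec t : M →+* M)).comp f, fun a => ?_, ?_, r ⟨_, h1⟩, ?_, fun x => ?_⟩
    · change j (sec t (i (RatFunc.C a))) = φ a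
      rw [iC, (sec t).commutes]
      exact hj a
    · change j (sec t y) = _
      rw [hκ, hsec, map_mul, ← hj]
      rfl
    · exact (ι2 σ t ⟨_, h1⟩ (by rw [h0, inv_one, one_mul])).symm
    · change j (sec t (f (r ⟨_, h1⟩ x))) = s (j (sec t (f x)))
      rw [hr, ← hσ]
      congr 1
      exact (sec t).apply_symm_apply _

end Pool.Agent.Adm
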