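import Pool.Agent.Adq.KR0
import Pool.Agent.Adq.SUB

/-! Monodromy of the restriction to a Kummer covering. -/

namespace Pool.Agent.Adm

open scoped OnePoint

theorem Cover.pow_chart_KR {k G : Type} [Field k] [Group G] (c : Cover k G)
    (j : c.L →+* LaurentSeries k) (σ : c.L ≃ₐ[RatFunc k] c.L) (ζ : k) (h : ζ ≠ 0)
    (hσ : ∀ x, j (σ x) = scL ζ h (j x)) (n : ℕ) (ξ : k) (h' : ξ ≠ 0) (e : ζ ^ n = ξ) (x : c.L) :
    j ((σ ^ n) x) = scL ξ h' (j x) := by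
  subst e
  induction n with
  | zero => simp
  | succ n ih =>
    rw [pow_succ' σ, AlgEquiv.mul_apply, hσ, ih (pow_ne_zero _ h), scL_scL]
    simp only [pow_succ']

theorem Cover.ram_KR {k G : Type} [Field k] [IsAlgClosed k] [Group G] (c c' : Cover k G)
    (θ : K0 →+* k) (𝔽0 : FF) (χ0 : G →* 𝔽0.Fˣ) (y : c.L)
    (hy : y ^ 𝔽0.m = algebraMap (RatFunc k) c.L RatFunc.X)
    (hσ : ∀ σ : c.L ≃ₐ[RatFunc k] c.L,
      σ y = algebraMap (RatFunc k) c.L (RatFunc.C (θ (𝔽0.θ (χ0 (c.ι σ))))) * y)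
    (hc : ∀ (j : c.L →+* LaurentSeries k) (s : LaurentSeries k →+* LaurentSeries k)
        (σ : c.L ≃ₐ[RatFunc k] c.L),
        (∀ x, j (algebraMap (RatFunc k) c.L (RatFunc.C x)) = HahnSeries.C x) →
        (∀ x, j (σ x) = s (j x)) → σ y = y → c'.RMono HahnSeries.C (j y) s (c.ι σ))
    (ε : ℤ) (hε : ε * ε = 1) {e : ℕ} (he : Odd e) {g : G}
    (h : c.RMono HahnSeries.C (HahnSeries.single (ε * e) 1)
      (scL (θ (xi e)) (((xi_prim he).map_of_injective θ.injective).ne_zero he.pos.ne')) g) :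
    ∃ (e' : ℕ) (he' : Odd e') (ω : k), ω ≠ 0 ∧
      c'.RMono HahnSeries.C (HahnSeries.single (ε * e') ω)
        (scL (θ (xi e')) (((xi_prim he').map_of_injective θ.injective).ne_zero he'.pos.ne'))
        (g ^ 𝔽0.m) := by
  obtain ⟨j, h1, h2, σ, h3, h4⟩ := h
  obtain ⟨n', ω, a1, a2, a3⟩ := root_eq_single 𝔽0.m (𝔽0.m_cast_ne_zero θ) (ε * e) (j y)
    (by rw [← map_pow, hy, h2])
  have a4 : (e : ℤ) = 𝔽0.m * (ε * n') := by
    linear_combination ε * a1 - (e : ℤ) * hε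
  obtain ⟨e', a5⟩ : 𝔽0.m ∣ e := Int.natCast_dvd_natCast.1 ⟨_, a4⟩
  have a6 : n' = ε * e' := by
    have hm : (𝔽0.m : ℤ) ≠ 0 := by exact_mod_cast 𝔽0.m_pos.ne'
    have a7 : ε * n' = e' := mul_left_cancel₀ hm (by rw [← a4, a5, Nat.cast_mul])
    linear_combination ε * a7 - n' * hε
  have he' : Odd e' := Odd.of_dvd_nat he ⟨𝔽0.m, a5.trans (mul_comm _ _)⟩
  have hω : ω ≠ 0 := by
    rintro rfl
    rw [zero_pow 𝔽0.m_pos.ne'] at a2
    exact zero_ne_one a2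
  refine ⟨e', he', ω, hω, ?_⟩
  rw [← a6, ← a3, ← h3, ← map_pow]
  refine hc j _ (σ ^ 𝔽0.m) h1 (c.pow_chart_KR j σ _ _ h4 _ _ _ ?_) ?_
  · rw [← map_pow, a5, mul_comm, xi_pow he' 𝔽0.m_odd]
  · rw [hσ, map_pow, map_pow, 𝔽0.pow_m, Units.val_one, map_one, map_one, map_one, map_one,
      one_mul]

theorem Cover.exists_kummer_M {k G : Type} [Field k] [IsAlgClosed k] [Group G] (c : Cover k G)
    (θ : K0 →+* k) (𝔽0 : FF) (χ0 : G →* 𝔽0.Fˣ)
    (h0 : ∃ g, c.M θ ((0 : k) : OnePoint k) g ∧ χ0 g = 𝔽0.u)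
    (h1 : ∀ a : k, a ≠ 0 → ∃ g, c.M θ a g ∧ χ0 g = 1) :
    ∃ c' : Cover k G, c'.ι.range = c.ι.range ⊓ χ0.ker ∧
      (∀ g, c.M θ ((0 : k) : OnePoint k) g → c'.M θ ((0 : k) : OnePoint k) (g ^ 𝔽0.m)) ∧
      (∀ g, c.M θ ∞ g → c'.M θ ∞ (g ^ 𝔽0.m)) ∧
      ∀ (a : k) (g : G), a ≠ 0 → c.M θ a g → ∃ α : k, α ^ 𝔽0.m = a ∧
        ∀ γ ∈ c.ι.range, c'.M θ ((θ (𝔽0.θ (χ0 γ)) * α : k) : OnePoint k) (γ⁻¹ * g * γ) := by
  obtain ⟨y, -, hy, hσ, -⟩ := c.exists_norm_gens (θ.comp 𝔽0.θ) (Aff.inl.comp χ0) Polynomial.X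
    Polynomial.X_ne_zero (fun a => by
      by_cases ha : a = 0
      · subst ha
        obtain ⟨g, hg, e⟩ := h0
        obtain ⟨e', ζ, h2, h3⟩ := hg.lab 𝔽0 χ0 1 (by rw [e, zpow_one])
        refine ⟨e', ζ, g, h2, ?_⟩
        have h4 := Polynomial.rootMultiplicity_X_sub_C_self (x := (0 : k))
        rw [map_zero, sub_zero] at h4
        rw [h4]
        exact h3
      · obtain ⟨g, hg, e⟩ := h1 a ha
        obtain ⟨e', ζ, h2, h3⟩ := hg.lab 𝔽0 χ0 0 (by rw [e, zpow_zero])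
        refine ⟨e', ζ, g, h2, ?_⟩
        rw [Polynomial.rootMultiplicity_eq_zero (by simpa using ha)]
        exact h3)
  rw [𝔽0.card_sub_one, RatFunc.algebraMap_X] at hy
  replace hσ : ∀ σ : c.L ≃ₐ[RatFunc k] c.L,
      σ y = algebraMap (RatFunc k) c.L (RatFunc.C (θ (𝔽0.θ (χ0 (c.ι σ))))) * y := hσ
  obtain ⟨c', hr, hc⟩ := c.exists_kummerRestr θ 𝔽0 χ0 y hy hσ
  refine ⟨c', hr, fun g ⟨e, he, h⟩ => ?_, fun g ⟨e, he, h⟩ => ?_, fun a g ha ⟨e, he, h⟩ => ?_⟩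
  · obtain ⟨e', he', ω, hω, h2⟩ := c.ram_KR c' θ 𝔽0 χ0 y hy hσ (hc _ _) 1 (one_mul _) he
      (by simpa [expand] using h.rmono)
    refine ⟨e', he', Cover.RMono.mono_of_scaled he'.pos
      ((xi_prim he').map_of_injective θ.injective) 0 ω hω ?_⟩
    simpa using h2
  · obtain ⟨e', he', ω, hω, h2⟩ := c.ram_KR c' θ 𝔽0 χ0 y hy hσ (hc _ _) (-1) (by norm_num) he
      (by simpa [expand] using h.rmono)
    refine ⟨e', he', Cover.RMono.mono_infty_of_scaled he'.pos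
      ((xi_prim he').map_of_injective θ.injective) ω hω ?_⟩
    simpa using h2
  · obtain ⟨j, h2, h3, σ, h4, h5⟩ := h.rmono
    obtain ⟨w, a1, a2, a3⟩ := root_eq_series 𝔽0.m (𝔽0.m_cast_ne_zero θ) e h.1 a ha (j y)
      (by rw [← map_pow, hy, h3]; rfl)
    refine ⟨_, a3, ?_⟩
    rintro _ ⟨τ, rfl⟩
    have a4 : σ y = y := j.injective (by rw [h5, a1, scL_powL_self _ _ _ _ h.2.1.pow_eq_one])
    have a5 : θ (𝔽0.θ (χ0 (c.ι τ))) ≠ 0 :=
      (map_ne_zero _).2 ((map_ne_zero _).2 (Units.ne_zero _))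
    have h6 := hc _ _ (j.comp (τ : c.L →+* c.L))
      (scL (θ (xi e)) (h.2.1.ne_zero h.1.ne')) (τ⁻¹ * σ * τ)
      (fun x => (congrArg j (τ.commutes _)).trans (h2 x))
      (fun x => by
        change j (τ ((τ⁻¹ * σ * τ) x)) = scL _ _ (j (τ x))
        rw [← h5, ← AlgEquiv.mul_apply, ← mul_assoc, ← mul_assoc, mul_inv_cancel, one_mul,
          AlgEquiv.mul_apply])
      (by
        have a6 : σ (τ y) = τ y := by rw [hσ τ, map_mul, AlgEquiv.commutes, a4]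
        rw [AlgEquiv.mul_apply, AlgEquiv.mul_apply, a6, ← AlgEquiv.mul_apply, inv_mul_cancel,
          AlgEquiv.one_apply])
    have a7 : (j.comp (τ : c.L →+* c.L)) y = powL e h.1
        ((PowerSeries.C (θ (𝔽0.θ (χ0 (c.ι τ)))) * w : PowerSeries k) : LaurentSeries k) := by
      change j (τ y) = _
      rw [hσ τ, map_mul, h2, a1, map_mul, map_mul, HahnSeries.ofPowerSeries_C, powL_C]
    rw [a7, map_mul c.ι, map_mul c.ι, map_inv, h4] at h6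
    have h7 := (c'.mono_iff_rmono h.1 h.2.1 _ (by
      rw [PowerSeries.coeff_C_mul]
      exact mul_ne_zero a5 a2) _).2 h6
    rw [map_mul, PowerSeries.constantCoeff_C] at h7
    exact ⟨e, he, h7⟩

end Pool.Agent.Adm
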