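import Pool.Agent.Adq.FFL
import Pool.Agent.Adq.IN0Aux

/-! Restriction of a covering to a Kummer covering of the line. -/

namespace Pool.Agent.Adm

theorem tower_KR0 {F E L : Type} [Field F] [Field E] [Field L] [Algebra F L]
    [FiniteDimensional F L] [IsGalois F L] [Algebra E L] (ρ : F →+* E)
    (h : ∀ a, algebraMap E L (ρ a) = algebraMap F L a) :
    FiniteDimensional E L ∧ IsGalois E L ∧ ∃ r : (L ≃ₐ[E] L) →* (L ≃ₐ[F] L),
      (∀ τ x, r τ x = τ x) ∧ ∀ σ : L ≃ₐ[F] L,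
        (∀ a, σ (algebraMap E L a) = algebraMap E L a) → ∃ τ, r τ = σ := by
  let _ : Algebra F E := ρ.toAlgebra
  have : IsScalarTower F E L := IsScalarTower.of_algebraMap_eq fun a => (h a).symm
  refine ⟨Module.Finite.right F E L, IsGalois.tower_top_of_isGalois F E L,
    MonoidHom.mk' (fun τ => τ.restrictScalars F) fun _ _ => rfl, fun _ _ => rfl, fun σ hσ => ?_⟩
  exact ⟨AlgEquiv.ofRingEquiv (f := σ.toRingEquiv) hσ, AlgEquiv.ext fun _ => rfl⟩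

theorem transc_KR0 {k L : Type} [Field k] [Field L] (i : RatFunc k →+* L) (y : L) {m : ℕ}
    (hy : y ^ m = i RatFunc.X) (P : Polynomial k) (hP : P ≠ 0) :
    P.eval₂ (i.comp RatFunc.C) y ≠ 0 := by
  let _ : Algebra k L := (i.comp RatFunc.C).toAlgebra
  intro h
  obtain ⟨Q, hQ, h2⟩ := IsAlgebraic.pow (show IsAlgebraic k y from ⟨P, hP, h⟩) m
  have e := hom_algebraMap i (i.comp RatFunc.C) (y ^ m) (fun _ => rfl) hy.symm Q
  exact (map_ne_zero i).2 ((map_ne_zero_iff _ (IsFractionRing.injective _ _)).2 hQ) (e.trans h2)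

theorem Cover.exists_kummerRestr {k G : Type} [Field k] [Group G] (c : Cover k G) (θ : K0 →+* k)
    (𝔽0 : FF) (χ0 : G →* 𝔽0.Fˣ) (y : c.L)
    (hy : y ^ 𝔽0.m = algebraMap (RatFunc k) c.L RatFunc.X)
    (hσ : ∀ σ : c.L ≃ₐ[RatFunc k] c.L,
      σ y = algebraMap (RatFunc k) c.L (RatFunc.C (θ (𝔽0.θ (χ0 (c.ι σ))))) * y) :
    ∃ c' : Cover k G, c'.ι.range = c.ι.range ⊓ χ0.ker ∧
      ∀ (W : Type) [CommRing W] (φ : k →+* W) (j : c.L →+* W) (s : W →+* W)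
        (σ : c.L ≃ₐ[RatFunc k] c.L),
        (∀ x, j (algebraMap (RatFunc k) c.L (RatFunc.C x)) = φ x) → (∀ x, j (σ x) = s (j x)) →
        σ y = y → c'.RMono φ (j y) s (c.ι σ) := by
  obtain ⟨ρ, ρC, ρX⟩ := exists_subst_IN0 (1 : k) one_ne_zero 𝔽0.m 𝔽0.m_pos
  rw [map_one, one_mul] at ρX
  obtain ⟨ψ, ψC, ψX⟩ := exists_ratFunc_hom _ y (transc_KR0 (algebraMap (RatFunc k) c.L) y hy)
  have e : ψ.comp ρ = algebraMap (RatFunc k) c.L := ratFunc_hom_ext _ _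
    (fun a => by rw [RingHom.comp_apply, ρC, ψC]; rfl)
    (by rw [RingHom.comp_apply, ρX, map_pow, ψX, hy])
  have y0 : y ≠ 0 := ψX ▸ (map_ne_zero ψ).2 RatFunc.X_ne_zero
  have ker : ∀ σ : c.L ≃ₐ[RatFunc k] c.L, χ0 (c.ι σ) = 1 ↔ σ y = y := fun σ => by
    constructor
    · intro h
      rw [hσ, h, Units.val_one, map_one, map_one, map_one, map_one, one_mul]
    · intro h
      refine 𝔽0.theta_injective ((algebraMap (RatFunc k) c.L).comp (RatFunc.C.comp θ))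
        (mul_right_cancel₀ y0 ?_)
      refine (hσ σ).symm.trans ?_
      simp only [h, Units.val_one, map_one, one_mul]
  have fix : ∀ σ : c.L ≃ₐ[RatFunc k] c.L, σ y = y → ∀ a, σ (ψ a) = ψ a := fun σ h =>
    DFunLike.congr_fun (ratFunc_hom_ext ((σ : c.L →+* c.L).comp ψ) ψ
      (fun a => by rw [RingHom.comp_apply, ψC]; exact σ.commutes _)
      (by rw [RingHom.comp_apply, ψX]; exact h))
  obtain ⟨h1, h2, r, r1, r2⟩ := @tower_KR0 (RatFunc k) (RatFunc k) c.L _ _ _ c.alg c.fin c.gal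
    ψ.toAlgebra ρ (DFunLike.congr_fun e)
  refine ⟨@Cover.mk k _ G _ c.L c.field ψ.toAlgebra h1 h2 (c.ι.comp r), ?_, ?_⟩
  · ext g
    constructor
    · rintro ⟨τ, rfl⟩
      refine ⟨⟨r τ, rfl⟩, (ker (r τ)).2 ?_⟩
      rw [r1, ← ψX]
      exact @AlgEquiv.commutes _ _ _ _ _ _ ψ.toAlgebra ψ.toAlgebra τ RatFunc.X
    · rintro ⟨⟨σ, rfl⟩, h⟩
      obtain ⟨τ, rfl⟩ := r2 σ (fix σ ((ker σ).1 h))
      exact ⟨τ, rfl⟩
  · intro W _ φ j s σ jC js h
    obtain ⟨τ, rfl⟩ := r2 σ (fix σ h)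
    exact ⟨j, fun x => (congrArg j (ψC x)).trans (jC x), congrArg j ψX, τ, rfl,
      fun x => (congrArg j (r1 τ x).symm).trans (js x)⟩

end Pool.Agent.Adm
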