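import Mathlib

/-! Well separated arithmetic progressions modulo an odd number. -/

namespace Pool.Agent.Adm

theorem sep_LC1 (ε : ℕ) (v : ℕ → ℕ) (T : Finset ℕ) (h1 : ∀ s ∈ T, 1 ≤ v s)
    (h : ∀ s ∈ T, ∀ s' ∈ T, s ≠ s' → v s + ε ≤ v s' ∨ v s' + ε ≤ v s) :
    (∀ B, 1 ≤ B → (∀ s ∈ T, v s + ε ≤ B) → 1 + ε * T.card ≤ B) ∧
      2 * T.card + ε * (T.card * (T.card - 1)) ≤ 2 * ∑ s ∈ T, v s := by
  classical
  induction T using Finset.induction_on_max_value v with
  | empty => exact ⟨fun B hB _ => by simpa using hB, by simp⟩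
  | insert a T ha hm ih =>
    obtain ⟨i1, i2⟩ := ih (fun s hs => h1 s (Finset.mem_insert_of_mem hs))
      fun s hs s' hs' => h s (Finset.mem_insert_of_mem hs) s' (Finset.mem_insert_of_mem hs')
    have h2 : 1 + ε * T.card ≤ v a := by
      refine i1 _ (h1 a (Finset.mem_insert_self _ _)) fun s hs => ?_
      have := h s (Finset.mem_insert_of_mem hs) a (Finset.mem_insert_self _ _)
        fun e => ha (e ▸ hs)
      have := hm s hs
      omega
    rw [Finset.card_insert_of_notMem ha, Finset.sum_insert ha]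
    refine ⟨fun B _ hB => ?_, ?_⟩
    · have := hB a (Finset.mem_insert_self _ _)
      rw [mul_add]
      omega
    · rw [Nat.add_sub_cancel]
      rcases Nat.eq_zero_or_pos T.card with e | e
      · rw [e] at h2 ⊢
        omega
      · obtain ⟨n, hn⟩ : ∃ n, T.card = n + 1 := ⟨T.card - 1, by omega⟩
        rw [hn] at h2 i2 ⊢
        rw [Nat.add_sub_cancel] at i2
        nlinarith

theorem sum_ge_of_separated (K ε : ℕ) (v : ℕ → ℕ) (h1 : ∀ s < K, 1 ≤ v s)
    (h : ∀ s < K, ∀ s' < K, s ≠ s' → v s + ε ≤ v s' ∨ v s' + ε ≤ v s) :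
    2 * K + ε * (K * (K - 1)) ≤ 2 * ∑ s ∈ Finset.range K, v s := by
  have := (sep_LC1 ε v (Finset.range K) (fun s hs => h1 s (Finset.mem_range.1 hs))
    fun s hs s' hs' => h s (Finset.mem_range.1 hs) s' (Finset.mem_range.1 hs')).2
  rwa [Finset.card_range] at this

theorem val_sep_LC1 {m : ℕ} [NeZero m] {K ε : ℕ} {t : ZMod m}
    (h : ∀ j, 0 < j → j < K → ε ≤ ((j : ZMod m) * t).val ∧ ((j : ZMod m) * t).val + ε ≤ m)
    (x : ZMod m) (s : ℕ) (hs : s < K) (s' : ℕ) (hs' : s' < K) (hne : s ≠ s') :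
    (x + s * t).val + ε ≤ (x + s' * t).val ∨ (x + s' * t).val + ε ≤ (x + s * t).val := by
  wlog hlt : s < s' generalizing s s'
  · exact (this s' hs' s hs hne.symm (by omega)).symm
  obtain ⟨j, rfl⟩ : ∃ j, s' = s + j := ⟨s' - s, by omega⟩
  obtain ⟨h1, h2⟩ := h j (by omega) (by omega)
  have e : x + ((s + j : ℕ) : ZMod m) * t = (x + s * t) + j * t := by
    push_cast
    ring
  rw [e]
  by_cases hl : (x + s * t).val + ((j : ZMod m) * t).val < m
  · rw [ZMod.val_add_of_lt hl]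
    omega
  · have := ZMod.val_add_val_of_le (not_lt.1 hl)
    omega

theorem final_LC1 {m : ℕ} [NeZero m] {K ε : ℕ} {t : ZMod m} (hK : 0 < K)
    (h : ∀ j, 0 < j → j < K → ε ≤ ((j : ZMod m) * t).val ∧ ((j : ZMod m) * t).val + ε ≤ m)
    (h2 : 2 * m ≤ 3 * ε * (K - 1)) (x : ZMod m) (hx : ∀ s < K, x + (s : ZMod m) * t ≠ 0) :
    K * m < 3 * ∑ s ∈ Finset.range K, (x + (s : ZMod m) * t).val := by
  have := sum_ge_of_separated K ε (fun s => (x + (s : ZMod m) * t).val)
    (fun s hs => ZMod.val_pos.2 (hx s hs)) (val_sep_LC1 h x)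
  have h3 := Nat.mul_le_mul_left K h2
  nlinarith

theorem pigeon_LC1 {m : ℕ} [NeZero m] (d : ZMod m) : ∃ o δ : ℕ, 0 < o ∧ o ≤ 5 ∧ 6 * δ ≤ m ∧
    ((o : ZMod m) * d = δ ∨ (o : ZMod m) * d = -δ) := by
  by_contra hc
  have h : ∀ j : ℕ, 0 < j → j < 6 → m / 6 + 1 ≤ ((j : ZMod m) * d).val ∧
      ((j : ZMod m) * d).val + (m / 6 + 1) ≤ m := by
    intro j h1 h2
    have h3 := ZMod.val_lt ((j : ZMod m) * d)
    constructor
    · by_contra h4
      exact hc ⟨j, ((j : ZMod m) * d).val, h1, by omega, by omega,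
        .inl (ZMod.natCast_zmod_val _).symm⟩
    · by_contra h4
      refine hc ⟨j, m - ((j : ZMod m) * d).val, h1, by omega, by omega, .inr ?_⟩
      rw [Nat.cast_sub h3.le, ZMod.natCast_self, ZMod.natCast_zmod_val]
      ring
  have := (sep_LC1 (m / 6 + 1) (fun s => (0 + (s : ZMod m) * d).val + 1) (Finset.range 6)
    (fun _ _ => by omega) (fun s hs s' hs' hne => by
      have := val_sep_LC1 h 0 s (Finset.mem_range.1 hs) s' (Finset.mem_range.1 hs') hne
      omega)).1 (m + 1) (by omega) (fun s hs => by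
      rcases Nat.eq_zero_or_pos s with rfl | h0
      · have := h 1 one_pos (by norm_num)
        simp only [Nat.cast_zero, zero_mul, add_zero, ZMod.val_zero]
        omega
      · have := h s h0 (Finset.mem_range.1 hs)
        rw [zero_add]
        omega)
  rw [Finset.card_range] at this
  omega

theorem pm_LC1 {m : ℕ} [NeZero m] {K ε : ℕ} {t : ZMod m} (hε : 0 < ε) (hK : K * ε ≤ m)
    (ht : t = ε ∨ t = -ε) (j : ℕ) (h1 : 0 < j) (h2 : j < K) :
    ε ≤ ((j : ZMod m) * t).val ∧ ((j : ZMod m) * t).val + ε ≤ m := by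
  have h3 : j * ε + ε ≤ m := by nlinarith
  have h4 : ε ≤ j * ε := Nat.le_mul_of_pos_left _ h1
  have h5 : ((j * ε : ℕ) : ZMod m).val = j * ε := ZMod.val_cast_of_lt (by omega)
  rcases ht with rfl | rfl
  · rw [← Nat.cast_mul, h5]
    omega
  · have : NeZero ((j * ε : ℕ) : ZMod m) := ⟨fun e => by
      rw [e, ZMod.val_zero] at h5
      omega⟩
    rw [mul_neg, ← Nat.cast_mul, ZMod.val_neg_of_ne_zero, h5]
    omega

theorem cop_LC1 {m : ℕ} {j K : ℕ} {d : ZMod m} (h : Nat.Coprime j K) (h1 : (j : ZMod m) * d = 0)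
    (h2 : (K : ZMod m) * d = 0) : d = 0 := by
  obtain ⟨a, b, hab⟩ := (Nat.isCoprime_iff_coprime.2 h).map (Int.castRingHom (ZMod m))
  simp only [eq_intCast, Int.cast_natCast] at hab
  linear_combination a * h1 + b * h2 - d * hab

theorem tors_LC1 {m : ℕ} [NeZero m] {K : ℕ} (hK : K.Prime) {d : ZMod m} (hd : d ≠ 0)
    (h : (K : ZMod m) * d = 0) : ∃ ε, m = K * ε ∧ ∀ j, 0 < j → j < K →
      ε ≤ ((j : ZMod m) * d).val ∧ ((j : ZMod m) * d).val + ε ≤ m := by
  obtain ⟨ε, hε⟩ : K ∣ m := by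
    by_contra hc
    exact hd (cop_LC1 ((Nat.Prime.coprime_iff_not_dvd hK).2 hc) h (by simp))
  refine ⟨ε, hε, fun j h1 h2 => ?_⟩
  have h3 : (j : ZMod m) * d ≠ 0 := fun e =>
    hd (cop_LC1 ((Nat.Prime.coprime_iff_not_dvd hK).2 (Nat.not_dvd_of_pos_of_lt h1 h2)) h e)
  have h4 : m ∣ K * ((j : ZMod m) * d).val := by
    rw [← ZMod.natCast_eq_zero_iff, Nat.cast_mul, ZMod.natCast_zmod_val]
    linear_combination j * h
  have h5 := ZMod.val_lt ((j : ZMod m) * d)
  have h6 := ZMod.val_pos.2 h3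
  generalize ((j : ZMod m) * d).val = y at h4 h5 h6
  subst hε
  obtain ⟨c, rfl⟩ := Nat.dvd_of_mul_dvd_mul_left hK.pos h4
  have h7 : 0 < c := Nat.pos_of_mul_pos_left h6
  have h8 : c < K := by
    by_contra h9
    nlinarith [not_lt.1 h9]
  constructor <;> nlinarith

theorem exists_good_step (m : ℕ) [NeZero m] (hm : Odd m) (d : ZMod m) (hd : d ≠ 0) :
    ∃ o e K : ℕ, 0 < o ∧ o ≤ 5 ∧ 0 < K ∧ K ≤ 12 ∧ ∀ x : ZMod m,
      (∀ s < K, x + ((s * o * 2 ^ e : ℕ) : ZMod m) * d ≠ 0) →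
      K * m < 3 * ∑ s ∈ Finset.range K, (x + ((s * o * 2 ^ e : ℕ) : ZMod m) * d).val := by
  have hc : ∀ s o e : ℕ, ((s * o * 2 ^ e : ℕ) : ZMod m) * d = s * (2 ^ e * (o * d)) := by
    intro s o e
    push_cast
    ring
  simp only [hc]
  obtain ⟨o, δ, h1, h2, h3, h4⟩ := pigeon_LC1 d
  rcases Nat.eq_zero_or_pos δ with rfl | hδ
  · have h5 : (o : ZMod m) * d = 0 := by simpa using h4
    have h6 : ¬ Nat.Coprime o m := fun h => hd (cop_LC1 h h5 (by simp))
    have h7 : o = 3 ∨ o = 5 := by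
      have h8 : Nat.Coprime 2 m := (Nat.coprime_two_left).2 hm
      have h9 : Nat.Coprime (2 ^ 2) m := h8.pow_left 2
      interval_cases o
      · exact absurd (Nat.coprime_one_left m) h6
      · exact absurd h8 h6
      · exact .inl rfl
      · exact absurd h9 h6
      · exact .inr rfl
    have h8 : o.Prime := by rcases h7 with rfl | rfl <;> norm_num
    obtain ⟨ε, e1, e2⟩ := tors_LC1 h8 hd h5
    refine ⟨1, 0, o, one_pos, by norm_num, h1, by omega, final_LC1 (ε := ε) h1 ?_ ?_⟩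
    · simpa using e2
    · rcases h7 with rfl | rfl <;> omega
  · have hex : ∃ e, m < 12 * (2 ^ e * δ) := ⟨m, by nlinarith [Nat.lt_two_pow_self (n := m)]⟩
    have e1 := Nat.find_spec hex
    have e2 : 6 * (2 ^ Nat.find hex * δ) ≤ m := by
      rcases Nat.eq_zero_or_pos (Nat.find hex) with e | e
      · rw [e]
        simpa using h3
      · have := Nat.find_min hex (m := Nat.find hex - 1) (by omega)
        obtain ⟨n, hn⟩ : ∃ n, Nat.find hex = n + 1 := ⟨Nat.find hex - 1, by omega⟩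
        rw [hn, Nat.add_sub_cancel] at this
        rw [hn, pow_succ]
        nlinarith
    generalize Nat.find hex = e at e1 e2
    have hε : 0 < 2 ^ e * δ := by positivity
    have ht : (2 : ZMod m) ^ e * (o * d) = ((2 ^ e * δ : ℕ) : ZMod m) ∨
        (2 : ZMod m) ^ e * (o * d) = -((2 ^ e * δ : ℕ) : ZMod m) := by
      push_cast
      rcases h4 with h | h <;> rw [h]
      · exact .inl rfl
      · exact .inr (mul_neg _ _)
    generalize 2 ^ e * δ = ε at e1 e2 hε ht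
    have e3 : 6 ≤ m / ε := (Nat.le_div_iff_mul_le hε).2 e2
    have e4 : m / ε < 12 := (Nat.div_lt_iff_lt_mul hε).2 e1
    have e5 : m / ε * ε ≤ m := Nat.div_mul_le_self _ _
    have e6 : m < m / ε * ε + ε := Nat.lt_div_mul_add hε
    refine ⟨o, e, m / ε, h1, h2, by omega, by omega,
      final_LC1 (ε := ε) (by omega) (pm_LC1 hε e5 ht) ?_⟩
    obtain ⟨n, hn⟩ : ∃ n, m / ε = n + 1 := ⟨m / ε - 1, by omega⟩
    rw [hn] at e6 ⊢
    rw [Nat.add_sub_cancel]
    nlinarith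

end Pool.Agent.Adm
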