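import Pool.Agent.Adq.LC1

/-! A long progression of pure vectors has a difference with at most two nonzero entries. -/

namespace Pool.Agent.Adm

open Finset in
theorem aux_LC2 {K K' K'' m : ℕ} (p' : 0 < K') (p'' : 0 < K'') (f : ℕ → ℕ → ℕ → ℕ)
    (h : ∀ s' < K', ∀ s'' < K'', K * m < 3 * ∑ s ∈ range K, f s s' s'') :
    K' * (K'' * (K * m)) < 3 * ∑ s' ∈ range K', ∑ s'' ∈ range K'', ∑ s ∈ range K, f s s' s'' := by
  have h1 : ∑ _s' ∈ range K', ∑ _s'' ∈ range K'', K * m <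
      ∑ s' ∈ range K', ∑ s'' ∈ range K'', 3 * ∑ s ∈ range K, f s s' s'' :=
    sum_lt_sum_of_nonempty (nonempty_range_iff.2 p'.ne') fun s' h' =>
      sum_lt_sum_of_nonempty (nonempty_range_iff.2 p''.ne') fun s'' h'' =>
        h s' (mem_range.1 h') s'' (mem_range.1 h'')
  simpa only [sum_const, card_range, smul_eq_mul, ← mul_sum] using h1

open Finset in
theorem box_LC2 {K1 K2 K3 m : ℕ} (p1 : 0 < K1) (p2 : 0 < K2) (p3 : 0 < K3)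
    (f1 f2 f3 : ℕ → ℕ → ℕ → ℕ)
    (h : ∀ s1 < K1, ∀ s2 < K2, ∀ s3 < K3, f1 s1 s2 s3 + f2 s1 s2 s3 + f3 s1 s2 s3 ≤ m)
    (h1 : ∀ s2 < K2, ∀ s3 < K3, K1 * m < 3 * ∑ s ∈ range K1, f1 s s2 s3)
    (h2 : ∀ s1 < K1, ∀ s3 < K3, K2 * m < 3 * ∑ s ∈ range K2, f2 s1 s s3)
    (h3 : ∀ s1 < K1, ∀ s2 < K2, K3 * m < 3 * ∑ s ∈ range K3, f3 s1 s2 s) : False := by
  have a1 := aux_LC2 p2 p3 f1 h1
  have a2 := aux_LC2 p1 p3 (fun s a b => f2 a s b) h2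
  have a3 := aux_LC2 p1 p2 (fun s a b => f3 a b s) h3
  have e1 : ∑ b ∈ range K2, ∑ c ∈ range K3, ∑ a ∈ range K1, f1 a b c =
      ∑ a ∈ range K1, ∑ b ∈ range K2, ∑ c ∈ range K3, f1 a b c :=
    (sum_congr rfl fun _ _ => sum_comm).trans sum_comm
  have e2 : ∑ a ∈ range K1, ∑ c ∈ range K3, ∑ b ∈ range K2, f2 a b c =
      ∑ a ∈ range K1, ∑ b ∈ range K2, ∑ c ∈ range K3, f2 a b c :=
    sum_congr rfl fun _ _ => sum_comm
  have a4 : ∑ a ∈ range K1, ∑ b ∈ range K2, ∑ c ∈ range K3, (f1 a b c + f2 a b c + f3 a b c) ≤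
      ∑ _a ∈ range K1, ∑ _b ∈ range K2, ∑ _c ∈ range K3, m :=
    sum_le_sum fun a ha => sum_le_sum fun b hb => sum_le_sum fun c hc =>
      h a (mem_range.1 ha) b (mem_range.1 hb) c (mem_range.1 hc)
  simp only [sum_add_distrib, sum_const, card_range, smul_eq_mul] at a4
  rw [e1, mul_left_comm K3, mul_left_comm K2] at a1
  rw [e2, mul_left_comm K3] at a2
  omega

theorem shift_LC2 {r c : ℕ} (hr : 3 * c < r) (e : Fin 3 → ℕ) :
    ∃ (a : ℕ) (j : Fin 3 → ℕ), ∀ i, j i + c < r ∧ a + j i ≡ e i [MOD r] := by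
  have : NeZero r := ⟨by omega⟩
  obtain ⟨a, -, ha⟩ := Finset.exists_mem_notMem_of_card_lt_card
    (s := (Finset.univ ×ˢ Finset.range c).image fun x : Fin 3 × ℕ => (e x.1 + 1 + x.2 : ZMod r))
    (t := Finset.univ) (Finset.card_image_le.trans_lt (by simpa using hr))
  refine ⟨a.val, fun i => (e i - a : ZMod r).val, fun i => ⟨?_, ?_⟩⟩
  · by_contra h
    simp only at h
    have h1 := ZMod.val_lt (e i - a : ZMod r)
    refine ha (Finset.mem_image.2 ⟨(i, r - (1 + (e i - a : ZMod r).val)), by simp; omega, ?_⟩)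
    rw [Nat.cast_sub (by omega)]
    simp only [ZMod.natCast_self, Nat.cast_add, Nat.cast_one, ZMod.natCast_zmod_val]
    ring
  · rw [← ZMod.natCast_eq_natCast_iff]
    simp

theorem not_three_of_pure {ι : Type} [Fintype ι] (r n : ℕ) (hr : 3 * (n + 8) < r)
    (U D : ι → ZMod (2 ^ r - 1))
    (h : ∀ N : ℕ, N < 2 ^ (r - n) → (∀ l, U l + (N : ZMod (2 ^ r - 1)) * D l ≠ 0) ∧
      ∀ a : ℕ, ∑ l, (2 ^ a * (U l + (N : ZMod (2 ^ r - 1)) * D l)).val ≤ 2 ^ r - 1)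
    (l1 l2 l3 : ι) (h12 : l1 ≠ l2) (h13 : l1 ≠ l3) (h23 : l2 ≠ l3) :
    D l1 = 0 ∨ D l2 = 0 ∨ D l3 = 0 := by
  classical
  by_contra hc
  simp only [not_or] at hc
  have h2 : 2 ≤ 2 ^ r := Nat.le_self_pow (by omega) 2
  have : NeZero (2 ^ r - 1) := ⟨by omega⟩
  have hodd : Odd (2 ^ r - 1) :=
    Nat.Even.sub_odd (by omega) (Nat.even_pow.2 ⟨even_two, by omega⟩) odd_one
  have hpow : (2 : ZMod (2 ^ r - 1)) ^ r = 1 := by
    have := ZMod.natCast_self (2 ^ r - 1)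
    rw [Nat.cast_sub (by omega), sub_eq_zero] at this
    exact_mod_cast this
  have hu : IsUnit (2 : ZMod (2 ^ r - 1)) := IsUnit.of_pow_eq_one hpow (by omega)
  obtain ⟨o1, e1, K1, -, b1, p1, c1, g1⟩ := exists_good_step _ hodd _ hc.1
  obtain ⟨o2, e2, K2, -, b2, p2, c2, g2⟩ := exists_good_step _ hodd _ hc.2.1
  obtain ⟨o3, e3, K3, -, b3, p3, c3, g3⟩ := exists_good_step _ hodd _ hc.2.2
  obtain ⟨a, j, hj⟩ := shift_LC2 hr ![e1, e2, e3]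
  have bd : ∀ i o K s : ℕ, i + (n + 8) < r → o ≤ 5 → K ≤ 12 → s < K →
      3 * (s * o * 2 ^ i) < 2 ^ (r - n) := fun i o K s h1 h3 h4 h5 => by
    have e : 2 ^ (i + 8) ≤ 2 ^ (r - n) := Nat.pow_le_pow_right two_pos (by omega)
    have e' : s * o * 2 ^ i ≤ 11 * 5 * 2 ^ i :=
      Nat.mul_le_mul_right _ (Nat.mul_le_mul (by omega) h3)
    have : 0 < 2 ^ i := by positivity
    rw [pow_add] at e
    omega
  have step : ∀ (l : ι) (o e K i R : ℕ), a + i ≡ e [MOD r] →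
      (∀ x : ZMod (2 ^ r - 1), (∀ s < K, x + ((s * o * 2 ^ e : ℕ) : ZMod (2 ^ r - 1)) * D l ≠ 0) →
        K * (2 ^ r - 1) < 3 * ∑ s ∈ Finset.range K,
          (x + ((s * o * 2 ^ e : ℕ) : ZMod (2 ^ r - 1)) * D l).val) →
      ∀ N : ℕ → ℕ, (∀ s, N s = s * o * 2 ^ i + R) → (∀ s < K, N s < 2 ^ (r - n)) →
      K * (2 ^ r - 1) < 3 * ∑ s ∈ Finset.range K,
        (2 ^ a * (U l + (N s : ZMod (2 ^ r - 1)) * D l)).val := by
    intro l o e K i R h1 h3 N h4 h5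
    have e0 : (2 : ZMod (2 ^ r - 1)) ^ e = 2 ^ a * 2 ^ i := by
      rw [← pow_add, pow_eq_pow_of_modEq h1 hpow]
    have e1 : ∀ s, 2 ^ a * (U l + (N s : ZMod (2 ^ r - 1)) * D l) =
        2 ^ a * (U l + R * D l) + ((s * o * 2 ^ e : ℕ) : ZMod (2 ^ r - 1)) * D l := fun s => by
      rw [h4]
      push_cast
      rw [e0]
      ring
    simp only [e1]
    refine h3 _ fun s hs e2 => (h _ (h5 s hs)).1 l ?_
    rw [← e1] at e2
    exact (hu.pow a).mul_right_eq_zero.1 e2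
  let N : ℕ → ℕ → ℕ → ℕ := fun s1 s2 s3 =>
    s1 * o1 * 2 ^ j 0 + s2 * o2 * 2 ^ j 1 + s3 * o3 * 2 ^ j 2
  have hN : ∀ s1 < K1, ∀ s2 < K2, ∀ s3 < K3, N s1 s2 s3 < 2 ^ (r - n) := fun s1 q1 s2 q2 s3 q3 => by
    have := bd _ _ _ _ (hj 0).1 b1 c1 q1
    have := bd _ _ _ _ (hj 1).1 b2 c2 q2
    have := bd _ _ _ _ (hj 2).1 b3 c3 q3
    simp only [N]
    omega
  let f : ι → ℕ → ℕ → ℕ → ℕ := fun l s1 s2 s3 =>
    (2 ^ a * (U l + (N s1 s2 s3 : ZMod (2 ^ r - 1)) * D l)).val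
  refine box_LC2 (m := 2 ^ r - 1) p1 p2 p3 (f l1) (f l2) (f l3) (fun s1 q1 s2 q2 s3 q3 => ?_)
    (fun s2 q2 s3 q3 => step l1 o1 e1 K1 (j 0) (s2 * o2 * 2 ^ j 1 + s3 * o3 * 2 ^ j 2) (hj 0).2 g1
      (fun s => N s s2 s3) (fun s => add_assoc _ _ _) fun s q => hN s q s2 q2 s3 q3)
    (fun s1 q1 s3 q3 => step l2 o2 e2 K2 (j 1) (s1 * o1 * 2 ^ j 0 + s3 * o3 * 2 ^ j 2) (hj 1).2 g2
      (fun s => N s1 s s3) (fun s => by simp only [N]; ring) fun s q => hN s1 q1 s q s3 q3)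
    fun s1 q1 s2 q2 => step l3 o3 e3 K3 (j 2) (s1 * o1 * 2 ^ j 0 + s2 * o2 * 2 ^ j 1) (hj 2).2 g3
      (fun s => N s1 s2 s) (fun s => add_comm _ _) fun s q => hN s1 q1 s2 q2 s q
  refine le_trans ?_ ((Finset.sum_le_sum_of_subset (Finset.subset_univ {l1, l2, l3})).trans
    ((h _ (hN s1 q1 s2 q2 s3 q3)).2 a))
  rw [Finset.sum_insert (by simp [h12, h13]), Finset.sum_pair h23, add_assoc]

end Pool.Agent.Adm
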