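import Pool.Agent.Adq.D1

/-! Fixed vectors of semilinear maps. -/

namespace Pool.Agent.Adm

variable {k F : Type} [Field k] [Field F] [Fintype F] {w : ℕ}

theorem frob_LG (θ : F →+* k) (A : Matrix (Fin w) (Fin w) k) {ι : Type} [Fintype ι]
    (g : ι → k) (c : ι → Fin w → k) (hc : ∀ i, c i ∈ Sol (Fintype.card F) A) (j : Fin w) :
    ∑ a, A a j * (∑ i, g i * c i a) ^ Fintype.card F = ∑ i, g i ^ Fintype.card F * c i j := by
  let φ : k →+ k := AddMonoidHom.mk' (· ^ Fintype.card F) (add_pow_card_of_hom θ)
  have e : ∀ a, (∑ i, g i * c i a) ^ Fintype.card F = ∑ i, (g i * c i a) ^ Fintype.card F :=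
    fun a => map_sum φ _ _
  simp only [e, Finset.mul_sum]
  rw [Finset.sum_comm]
  refine Finset.sum_congr rfl fun i _ => ?_
  rw [hc i j, Finset.mul_sum]
  exact Finset.sum_congr rfl fun a _ => by ring

theorem sol_sum (θ : F →+* k) (A : Matrix (Fin w) (Fin w) k) {ι : Type} [Fintype ι]
    (lam : ι → F) (c : ι → Fin w → k) (hc : ∀ i, c i ∈ Sol (Fintype.card F) A) :
    (fun j => ∑ i, θ (lam i) * c i j) ∈ Sol (Fintype.card F) A := by
  intro j
  rw [frob_LG θ A _ c hc]
  simp only [← map_pow, FiniteField.pow_card]

/-- Fixed vectors independent over F are independent over k. -/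
theorem sol_linearIndependent (θ : F →+* k) (A : Matrix (Fin w) (Fin w) k) {ι : Type}
    [Fintype ι] (c : ι → Fin w → k) (hc : ∀ i, c i ∈ Sol (Fintype.card F) A)
    (hi : ∀ lam : ι → F, (∀ j, ∑ i, θ (lam i) * c i j = 0) → lam = 0) :
    LinearIndependent k c := by
  classical
  have key : ∀ (s : Finset ι) (g : ι → k), (∀ i ∉ s, g i = 0) → (∀ j, ∑ i, g i * c i j = 0) →
      g = 0 := by
    intro s
    induction s using Finset.induction_on with
    | empty => exact fun g h _ => funext fun i => h i (Finset.notMem_empty i)
    | insert a s _ ih =>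
      intro g h1 h2
      by_cases ha : g a = 0
      · exact ih g (fun i hi => if e : i = a then e ▸ ha else h1 i (by simp [e, hi])) h2
      have h3 : ∀ j, ∑ i, g i / g a * c i j = 0 := fun j => by
        simp only [div_mul_eq_mul_div, ← Finset.sum_div, h2, zero_div]
      have hq : Fintype.card F ≠ 0 := Fintype.card_ne_zero
      have h4 := ih (fun i => (g i / g a) ^ Fintype.card F - g i / g a) (fun i hi => by
        by_cases e : i = a
        · rw [e, div_self ha, one_pow, sub_self]
        · rw [h1 i (by simp [e, hi]), zero_div, zero_pow hq, sub_self]) fun j => by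
        simp only [sub_mul, Finset.sum_sub_distrib, ← frob_LG θ A _ c hc, h3, zero_pow hq,
          mul_zero, Finset.sum_const_zero, sub_self]
      choose lam hl using fun i => exists_eq_of_pow_card θ _ (sub_eq_zero.1 (congrFun h4 i))
      have h5 := hl a
      rw [hi lam (by simpa only [hl] using h3), div_self ha, Pi.zero_apply, map_zero] at h5
      exact absurd h5 zero_ne_one
  refine Fintype.linearIndependent_iff.2 fun g hg => congrFun (key Finset.univ g (by simp)
    fun j => ?_)
  simpa only [Finset.sum_apply, Pi.smul_apply, smul_eq_mul, Pi.zero_apply] using congrFun hg j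

theorem sol_card (θ : F →+* k) (A : Matrix (Fin w) (Fin w) k) :
    (Sol (Fintype.card F) A).Finite ∧ (Sol (Fintype.card F) A).ncard ≤ Fintype.card F ^ w ∧
      (Fintype.card F ^ w ≤ (Sol (Fintype.card F) A).ncard → A.det ≠ 0) := by
  let _ : Algebra F k := θ.toAlgebra
  let S : Submodule F (Fin w → k) :=
    { carrier := Sol (Fintype.card F) A
      add_mem' := fun {x y} hx hy j => by
        simp only [Pi.add_apply, add_pow_card_of_hom θ, mul_add, Finset.sum_add_distrib]
        rw [← hx j, ← hy j]
      zero_mem' := fun j => by simp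
      smul_mem' := fun a x hx => by
        have h := sol_sum θ A (fun _ : Unit => a) (fun _ => x) fun _ => hx
        simp only [Fintype.sum_unique] at h
        exact h }
  have key : ∀ (ι : Type) [Fintype ι] (c : ι → S), LinearIndependent F c →
      LinearIndependent k fun i => (c i).1 := fun ι _ c hc =>
    sol_linearIndependent θ A _ (fun i => (c i).2) fun lam h => funext
      (Fintype.linearIndependent_iff.1 hc lam (Subtype.ext (funext fun j => by
        rw [Submodule.coe_sum, Finset.sum_apply]
        exact h j)))
  have hr : Module.rank F S ≤ w := rank_le fun s hs => by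
    simpa using (key _ _ hs).fintype_card_le_finrank
  have : Module.Finite F S := Module.rank_lt_aleph0_iff.1 (hr.trans_lt Cardinal.natCast_lt_aleph0)
  have hd := Module.finrank_le_of_rank_le hr
  have hf : Finite S := Module.finite_of_finite F
  have hc : (Sol (Fintype.card F) A).ncard = Fintype.card F ^ Module.finrank F S := by
    rw [← Nat.card_eq_fintype_card, ← Module.natCard_eq_pow_finrank, Nat.card_eq_fintype_card]
    rfl
  refine ⟨hf, hc ▸ Nat.pow_le_pow_right Fintype.card_pos hd, fun h => ?_⟩
  rw [hc, Nat.pow_le_pow_iff_right Fintype.one_lt_card] at h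
  let b := Module.finBasisOfFinrankEq F S (hd.antisymm h)
  let C : Matrix (Fin w) (Fin w) k := Matrix.of fun i j => (b i).1 j
  have h1 : IsUnit C := Matrix.linearIndependent_rows_iff_isUnit.1 (key _ b b.linearIndependent)
  have h2 : C = C.map (· ^ Fintype.card F) * A := Matrix.ext fun i j =>
    ((b i).2 j).trans (Finset.sum_congr rfl fun a _ => mul_comm _ _)
  rw [Matrix.isUnit_iff_isUnit_det, h2, Matrix.det_mul] at h1
  exact right_ne_zero_of_mul h1.ne_zero

end Pool.Agent.Adm
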