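import Pool.Agent.Adm.T6

/-! Substitutions close to the identity on the circle. -/

namespace Pool.Agent.Adm.T

variable {C : Type} [NormedField C] [CompleteSpace C] [IsUltrametricDist C]

open Filter Topology

theorem ultra_MM1 : IsUltrametricDist (T C) :=
  IsUltrametricDist.isUltrametricDist_of_forall_norm_add_le_max_norm fun f g =>
    norm_le _ (le_max_of_le_left (norm_nonneg _)) fun n => by
      rw [coeff_add]
      exact (IsUltrametricDist.norm_add_le_max _ _).trans
        (max_le_max (norm_coeff_le _ _) (norm_coeff_le _ _))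

theorem norm_mono_MM1 (n : ℤ) (c : C) : ‖mono n c‖ ≤ ‖c‖ := by
  refine norm_le _ (norm_nonneg _) fun i => ?_
  rw [coeff_mono]
  split_ifs
  · exact le_rfl
  · simp

theorem norm_cst_mul_MM1 (c : C) (f : T C) : ‖cst c * f‖ ≤ ‖c‖ * ‖f‖ :=
  (norm_mul_le _ _).trans (mul_le_mul_of_nonneg_right (norm_mono_MM1 0 c) (norm_nonneg _))

theorem cst_mul_mono_MM1 (c : C) (n : ℤ) : cst c * mono n 1 = mono n c := by
  rw [cst_apply, mono_mul_mono, zero_add, mul_one]

theorem summable_MM1 (f : T C) {w : ℤ → T C} (hw : ∀ n, ‖w n‖ ≤ 1) :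
    Summable fun n => cst (f.coeff n) * w n := by
  have := ultra_MM1 (C := C)
  refine NonarchimedeanAddGroup.summable_of_tendsto_cofinite_zero ?_
  refine squeeze_zero_norm (a := fun n => ‖f.coeff n‖) (fun n => ?_) ?_
  · exact (norm_cst_mul_MM1 _ _).trans (mul_le_of_le_one_right (norm_nonneg _) (hw n))
  · simpa using f.tendsto_coeff.norm

theorem hasSum_mono_MM1 (f : T C) : HasSum (fun n => mono n (f.coeff n)) f := by
  have h1 := (summable_MM1 f norm_mono_le_T6).hasSum
  simp only [cst_mul_mono_MM1] at h1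
  convert h1 using 1
  ext k
  have h2 := h1.map (AddMonoidHom.mk' (fun g : T C => g.coeff k) fun a b => coeff_add a b k)
    (continuous_coeff k)
  have h3 : HasSum (fun n => (mono n (f.coeff n)).coeff k) (f.coeff k) := by
    have h4 := hasSum_single (f := fun n => (mono n (f.coeff n)).coeff k) k fun n hn => by
      rw [coeff_mono, if_neg hn.symm]
    rwa [coeff_mono, if_pos rfl] at h4
  exact h3.unique h2

theorem ext_MM1 (A B : T C →+ T C) (hA : Continuous A) (hB : Continuous B)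
    (h : ∀ n c, A (mono n c) = B (mono n c)) (f : T C) : A f = B f := by
  have h1 := (hasSum_mono_MM1 f).map A hA
  have h2 := (hasSum_mono_MM1 f).map B hB
  have e : A ∘ (fun n => mono n (f.coeff n)) = B ∘ fun n => mono n (f.coeff n) :=
    funext fun n => h _ _
  rw [e] at h1
  exact h1.unique h2

theorem norm_le_one_MM1 {x : T C} (h : ‖x - 1‖ ≤ 1) : ‖x‖ ≤ 1 := by
  have := ultra_MM1 (C := C)
  have h1 := IsUltrametricDist.norm_add_le_max (x - 1) 1
  rw [sub_add_cancel] at h1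
  exact h1.trans (max_le h (norm_mono_le_T6 0))

theorem zpow_near_MM1 (u : (T C)ˣ) {ρ : ℝ} (hρ : ρ < 1) (h : ‖(u : T C) - 1‖ ≤ ρ) (n : ℤ) :
    ‖((u ^ n : (T C)ˣ) : T C) - 1‖ ≤ ρ := by
  have := ultra_MM1 (C := C)
  have h0 : 0 ≤ ρ := (norm_nonneg _).trans h
  let S : Subgroup (T C)ˣ :=
    { carrier := {x | ‖(x : T C) - 1‖ ≤ ρ}
      one_mem' := by simpa using h0
      mul_mem' := fun {x y} hx hy => by
        have hx' : ‖(x : T C) - 1‖ ≤ ρ := hx
        have hy' : ‖(y : T C) - 1‖ ≤ ρ := hy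
        have e : ((x * y : (T C)ˣ) : T C) - 1 = x * (y - 1) + (x - 1) := by
          rw [Units.val_mul]
          ring
        change ‖((x * y : (T C)ˣ) : T C) - 1‖ ≤ ρ
        rw [e]
        refine (IsUltrametricDist.norm_add_le_max _ _).trans (max_le ?_ hx')
        refine (norm_mul_le _ _).trans ?_
        exact (mul_le_of_le_one_left (norm_nonneg _)
          (norm_le_one_MM1 (hx'.trans hρ.le))).trans hy'
      inv_mem' := fun {x} hx => by
        have hx' : ‖(x : T C) - 1‖ ≤ ρ := hx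
        have e : ((x⁻¹ : (T C)ˣ) : T C) - 1 = -(((x⁻¹ : (T C)ˣ) : T C) * (x - 1)) := by
          rw [mul_sub, Units.inv_mul]
          ring
        have h1 : ‖((x⁻¹ : (T C)ˣ) : T C) - 1‖ ≤ ‖((x⁻¹ : (T C)ˣ) : T C)‖ * ρ := by
          rw [e, norm_neg]
          exact (norm_mul_le _ _).trans (mul_le_mul_of_nonneg_left hx' (norm_nonneg _))
        have h2 := IsUltrametricDist.norm_add_le_max (((x⁻¹ : (T C)ˣ) : T C) - 1) 1
        rw [sub_add_cancel] at h2
        have h3 : ‖(1 : T C)‖ ≤ 1 := norm_mono_le_T6 0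
        have h4 : ‖((x⁻¹ : (T C)ˣ) : T C)‖ ≤ 1 := by
          rcases le_max_iff.1 h2 with h5 | h5
          · nlinarith [norm_nonneg ((x⁻¹ : (T C)ˣ) : T C)]
          · exact h5.trans h3
        exact h1.trans (mul_le_of_le_one_left h0 h4) }
  exact S.zpow_mem h n

theorem exists_fam_MM1 (v : T C) (hv : ‖v - mono 1 1‖ < 1) :
    ∃ w : ℤ → T C, w 0 = 1 ∧ w 1 = v ∧ (∀ m n, w (m + n) = w m * w n) ∧
      ∀ n, ‖w n - mono n 1‖ ≤ ‖v - mono 1 1‖ := by
  have h1 : ‖mono (-1) 1 * (mono 1 1 - v)‖ ≤ ‖v - mono 1 1‖ := by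
    rw [norm_sub_rev]
    exact (norm_mul_le _ _).trans (mul_le_of_le_one_left (norm_nonneg _) (norm_mono_le_T6 _))
  let u : (T C)ˣ := Units.oneSub _ (h1.trans_lt hv)
  have hu : (u : T C) = 1 - mono (-1) 1 * (mono 1 1 - v) := rfl
  have h2 : ‖(u : T C) - 1‖ ≤ ‖v - mono 1 1‖ := by
    rwa [hu, sub_sub_cancel_left, norm_neg]
  refine ⟨fun n => mono n 1 * ((u ^ n : (T C)ˣ) : T C), ?_, ?_, fun m n => ?_, fun n => ?_⟩
  · simp only [zpow_zero, Units.val_one, mul_one]
    rfl
  · have e : (mono 1 1 : T C) * mono (-1) 1 = 1 := by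
      rw [mono_mul_mono, add_neg_cancel, mul_one]
      rfl
    simp only [zpow_one, hu]
    rw [mul_sub, ← mul_assoc, e]
    ring
  · have e : (mono (m + n) 1 : T C) = mono m 1 * mono n 1 := by rw [mono_mul_mono, mul_one]
    simp only [zpow_add, Units.val_mul, e]
    ring
  · rw [← mul_sub_one]
    exact (norm_mul_le _ _).trans ((mul_le_of_le_one_left (norm_nonneg _)
      (norm_mono_le_T6 _)).trans (zpow_near_MM1 u hv h2 n))

theorem exists_subst_hom (v : T C) (hv : ‖v - mono 1 1‖ < 1) :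
    ∃ Ψ : T C →+* T C, (∀ x, Ψ (cst x) = cst x) ∧ Ψ (mono 1 1) = v ∧
      (∀ f, ‖Ψ f - f‖ ≤ ‖v - mono 1 1‖ * ‖f‖) ∧ (v ∈ Tp C → ∀ f ∈ Tp C, Ψ f ∈ Tp C) := by
  have := ultra_MM1 (C := C)
  obtain ⟨w, h0, h1, hm, hn⟩ := exists_fam_MM1 v hv
  have hw : ∀ n, ‖w n‖ ≤ 1 := fun n => by
    have h2 := IsUltrametricDist.norm_add_le_max (w n - mono n 1) (mono n 1)
    rw [sub_add_cancel] at h2
    exact h2.trans (max_le ((hn n).trans hv.le) (norm_mono_le_T6 n))
  let A : T C →+ T C := AddMonoidHom.mk' (fun f => ∑' n, cst (f.coeff n) * w n) fun f g => by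
    rw [← (summable_MM1 f hw).tsum_add (summable_MM1 g hw)]
    exact tsum_congr fun n => by rw [coeff_add, map_add, add_mul]
  have hA : ∀ f, A f = ∑' n, cst (f.coeff n) * w n := fun _ => rfl
  have hA1 : ∀ n c, A (mono n c) = cst c * w n := fun n c => by
    rw [hA, tsum_eq_single n fun i hi => by rw [coeff_mono, if_neg hi, map_zero, zero_mul],
      coeff_mono, if_pos rfl]
  have hA2 : ∀ f, ‖A f - f‖ ≤ ‖v - mono 1 1‖ * ‖f‖ := fun f => by
    rw [hA, ← ((summable_MM1 f hw).hasSum.sub (hasSum_mono_MM1 f)).tsum_eq]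
    refine IsUltrametricDist.norm_tsum_le_of_forall_le fun n => ?_
    rw [← cst_mul_mono_MM1 (f.coeff n), ← mul_sub, mul_comm ‖v - mono 1 1‖]
    exact (norm_cst_mul_MM1 _ _).trans
      (mul_le_mul (norm_coeff_le _ _) (hn n) (norm_nonneg _) (norm_nonneg _))
  have hc : Continuous A := by
    refine AddMonoidHomClass.continuous_of_bound A 1 fun f => ?_
    rw [hA, one_mul]
    refine IsUltrametricDist.norm_tsum_le_of_forall_le fun n => ?_
    exact (norm_cst_mul_MM1 _ _).trans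
      ((mul_le_of_le_one_right (norm_nonneg _) (hw n)).trans (norm_coeff_le _ _))
  have hmul : ∀ f g, A (f * g) = A f * A g := fun f g => by
    refine ext_MM1 (A.comp (AddMonoidHom.mulRight g)) ((AddMonoidHom.mulRight (A g)).comp A)
      (hc.comp (continuous_mul_const g)) ((continuous_mul_const _).comp hc) (fun m a => ?_) f
    refine ext_MM1 (A.comp (AddMonoidHom.mulLeft (mono m a)))
      ((AddMonoidHom.mulLeft (A (mono m a))).comp A)
      (hc.comp (continuous_const_mul _)) ((continuous_const_mul _).comp hc) (fun n b => ?_) g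
    change A (mono m a * mono n b) = A (mono m a) * A (mono n b)
    rw [mono_mul_mono, hA1, hA1, hA1, hm, map_mul]
    ring
  have hcst : ∀ x, A (cst x) = cst x := fun x => by rw [cst_apply, hA1, h0, mul_one, cst_apply]
  have hone : A 1 = 1 := by simpa only [map_one] using hcst 1
  refine ⟨{ A with map_one' := hone, map_mul' := hmul }, hcst, ?_, hA2, fun hp f hf => ?_⟩
  · change A (mono 1 1) = v
    rw [hA1, h1, map_one, one_mul]
  · have h2 : ∀ n : ℕ, w n ∈ Tp C := fun n => by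
      induction n with
      | zero =>
        rw [Nat.cast_zero, h0]
        exact one_mem _
      | succ n ih =>
        rw [Nat.cast_succ, hm, h1]
        exact mul_mem ih hp
    refine tsum_mem isClosed_Tp fun n => ?_
    rcases lt_or_ge n 0 with h3 | h3
    · rw [hf n h3, map_zero, zero_mul]
      exact zero_mem _
    · obtain ⟨m, rfl⟩ := Int.eq_ofNat_of_zero_le h3
      exact mul_mem (mono_mem_Tp 0 le_rfl _) (h2 m)

theorem exists_subst (v : T C) (hv : ‖v - mono 1 1‖ < 1) (hp : v ∈ Tp C) :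
    ∃ Ψ : T C →+* T C, (∀ x, Ψ (cst x) = cst x) ∧ Ψ (mono 1 1) = v ∧
      (∀ f ∈ Tp C, Ψ f ∈ Tp C) ∧ ∀ f, Ψ f ∈ Tp C → f ∈ Tp C := by
  obtain ⟨Ψ, h1, h2, h3, h4⟩ := exists_subst_hom v hv
  refine ⟨Ψ, h1, h2, h4 hp, fun f hf => ?_⟩
  have h5 : Ψ (f - posT6 f) ∈ Tp C := by
    rw [map_sub]
    exact sub_mem hf (h4 hp _ (posT6_mem f))
  have h6 : ‖f - posT6 f‖ ≤ ‖v - mono 1 1‖ * ‖f - posT6 f‖ := by
    refine le_trans (norm_le _ (norm_nonneg _) fun n => ?_) (h3 _)
    rcases lt_or_ge n 0 with h | h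
    · refine le_of_eq_of_le ?_ (norm_coeff_le _ n)
      rw [coeff_sub (Ψ _), h5 n h, zero_sub, norm_neg]
    · rw [coeff_sub, coeff_posT6, if_pos h, sub_self, norm_zero]
      exact norm_nonneg _
  have h7 : ‖f - posT6 f‖ = 0 := by nlinarith [norm_nonneg (f - posT6 f)]
  rw [sub_eq_zero.1 (norm_eq_zero.1 h7)]
  exact posT6_mem f

end Pool.Agent.Adm.T
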