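import Pool.Agent.Adm.T6

/-! Small polynomial perturbations of the coordinate. -/

namespace Pool.Agent.Adm

open Polynomial

variable {C : Type} [NormedField C] [IsUltrametricDist C]

/-- The polynomial ε is small on the disc of radius the norm of c. -/
def SmallOn (c : C) (ε : C[X]) : Prop := ∀ i, ‖ε.coeff i‖ * ‖c‖ ^ i < ‖c‖

theorem mul_le_MM2 {p q : C[X]} (hp : ∀ j, ‖p.coeff j‖ ≤ 1) (hq : ∀ j, ‖q.coeff j‖ ≤ 1) (j : ℕ) :
    ‖(p * q).coeff j‖ ≤ 1 := by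
  rw [coeff_mul]
  refine IsUltrametricDist.norm_sum_le_of_forall_le_of_nonneg zero_le_one fun x _ => ?_
  rw [norm_mul]
  exact mul_le_one₀ (hp _) (norm_nonneg _) (hq _)

omit [IsUltrametricDist C] in
theorem SmallOn.bound_MM2 {c : C} {ε : C[X]} (h : SmallOn c ε) :
    ∃ r : ℝ, 0 ≤ r ∧ r < ‖c‖ ∧ ∀ i, ‖ε.coeff i‖ * ‖c‖ ^ i ≤ r := by
  obtain ⟨j, -, hj⟩ := Finset.exists_max_image (Finset.range (ε.natDegree + 1))
    (fun i => ‖ε.coeff i‖ * ‖c‖ ^ i) ⟨0, by simp⟩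
  refine ⟨_, by positivity, h j, fun i => ?_⟩
  rcases le_or_gt i ε.natDegree with hi | hi
  · exact hj i (Finset.mem_range.2 (by omega))
  · rw [coeff_eq_zero_of_natDegree_lt hi, norm_zero, zero_mul]
    positivity

theorem pow_sub_MM2 {c x y : C} (hx : ‖x‖ ≤ ‖c‖) (hy : ‖y‖ ≤ ‖c‖) (i : ℕ) :
    ‖x ^ i - y ^ i‖ * ‖c‖ ≤ ‖c‖ ^ i * ‖x - y‖ := by
  induction i with
  | zero => simp
  | succ i ih =>
    have h1 : x ^ (i + 1) - y ^ (i + 1) = x * (x ^ i - y ^ i) + (x - y) * y ^ i := by ring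
    have h2 : ‖x ^ (i + 1) - y ^ (i + 1)‖ ≤ ‖c‖ ^ i * ‖x - y‖ := by
      rw [h1]
      refine (IsUltrametricDist.norm_add_le_max _ _).trans (max_le ?_ ?_)
      · rw [norm_mul, mul_comm]
        exact (mul_le_mul_of_nonneg_left hx (norm_nonneg _)).trans ih
      · rw [norm_mul, norm_pow, mul_comm]
        gcongr
    calc _ ≤ ‖c‖ ^ i * ‖x - y‖ * ‖c‖ := mul_le_mul_of_nonneg_right h2 (norm_nonneg _)
      _ = _ := by ring

theorem exists_interp {σ : Type} [Fintype σ] (A b : σ → C) (hA : ∀ s, ‖A s‖ ≤ 1)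
    (hA' : ∀ s t, s ≠ t → ‖A s - A t‖ = 1) (r : ℝ) (hr : 0 ≤ r) (hb : ∀ s, ‖b s‖ ≤ r) :
    ∃ ε : C[X], (∀ i, ‖ε.coeff i‖ ≤ r) ∧ ∀ s, ε.eval (A s) = b s := by
  classical
  have hinj : Function.Injective A := fun s t e => by
    by_contra hne
    have h := hA' s t hne
    rw [e, sub_self, norm_zero] at h
    exact zero_ne_one h
  refine ⟨Lagrange.interpolate Finset.univ A b, fun i => ?_, fun s =>
    Lagrange.eval_interpolate_at_node b hinj.injOn (Finset.mem_univ s)⟩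
  rw [Lagrange.interpolate_apply, finsetSum_coeff]
  refine IsUltrametricDist.norm_sum_le_of_forall_le_of_nonneg hr fun s _ => ?_
  have h1 : ∀ j, ‖(Lagrange.basis Finset.univ A s).coeff j‖ ≤ 1 := by
    refine Finset.prod_induction _ (fun p : C[X] => ∀ j, ‖p.coeff j‖ ≤ 1)
      (fun _ _ => mul_le_MM2) (fun j => ?_) fun t ht j => ?_
    · rw [coeff_one]
      split_ifs <;> simp
    · rw [Lagrange.basisDivisor, coeff_C_mul, norm_mul, norm_inv,
        hA' s t (Finset.ne_of_mem_erase ht).symm, inv_one, one_mul, coeff_sub]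
      rcases j with _ | _ | j
      · simpa using hA t
      · simp
      · simp [coeff_X]
  rw [coeff_C_mul, norm_mul]
  exact (mul_le_of_le_one_right (norm_nonneg _) (h1 i)).trans (hb s)

theorem exists_smallOn [IsAlgClosed C] (ε : C[X]) (t : C) (h0 : t ≠ 0) (h1 : ‖t‖ < 1)
    (h : ∀ i, ‖ε.coeff i‖ ≤ ‖t‖) : ∃ c : C, 1 < ‖c‖ ∧ SmallOn c ε := by
  obtain ⟨c, hc⟩ := IsAlgClosed.exists_pow_nat_eq t⁻¹ (Nat.succ_pos ε.natDegree)
  have ht : 0 < ‖t‖ := norm_pos_iff.2 h0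
  have h2 : ‖t‖ * ‖c‖ ^ (ε.natDegree + 1) = 1 := by
    rw [← norm_pow, hc, norm_inv, mul_inv_cancel₀ ht.ne']
  have h3 : 1 < ‖c‖ := by
    by_contra h4
    have h5 : ‖c‖ ^ (ε.natDegree + 1) ≤ 1 := pow_le_one₀ (norm_nonneg c) (not_lt.1 h4)
    nlinarith
  refine ⟨c, h3, fun i => ?_⟩
  rcases le_or_gt i ε.natDegree with hi | hi
  · refine lt_of_le_of_lt ?_ (h2.trans_lt h3)
    exact mul_le_mul (h i) (pow_le_pow_right₀ h3.le (by omega)) (by positivity) ht.le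
  · rw [coeff_eq_zero_of_natDegree_lt hi, norm_zero, zero_mul]
    linarith

theorem SmallOn.inj {c : C} {ε : C[X]} (h : SmallOn c ε) {x y : C} (hx : ‖x‖ ≤ ‖c‖)
    (hy : ‖y‖ ≤ ‖c‖) (e : (X + ε).eval x = (X + ε).eval y) : x = y := by
  obtain ⟨r, h0, h1, h2⟩ := h.bound_MM2
  have h3 : c * (x - y) = ∑ i ∈ Finset.range (ε.natDegree + 1),
      -(ε.coeff i * ((x ^ i - y ^ i) * c)) := by
    rw [eval_add, eval_add, eval_X, eval_X, eval_eq_sum_range, eval_eq_sum_range] at e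
    have h4 : ∀ i, -(ε.coeff i * ((x ^ i - y ^ i) * c)) =
        c * (ε.coeff i * y ^ i) - c * (ε.coeff i * x ^ i) := fun i => by ring
    simp only [h4]
    rw [Finset.sum_sub_distrib, ← Finset.mul_sum, ← Finset.mul_sum]
    linear_combination c * e
  have h5 : ‖c * (x - y)‖ ≤ r * ‖x - y‖ := by
    rw [h3]
    refine IsUltrametricDist.norm_sum_le_of_forall_le_of_nonneg (by positivity) fun i _ => ?_
    rw [norm_neg, norm_mul, norm_mul]
    calc _ ≤ ‖ε.coeff i‖ * (‖c‖ ^ i * ‖x - y‖) :=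
          mul_le_mul_of_nonneg_left (pow_sub_MM2 hx hy i) (norm_nonneg _)
      _ ≤ r * ‖x - y‖ := by
          rw [← mul_assoc]
          exact mul_le_mul_of_nonneg_right (h2 i) (norm_nonneg _)
  rw [norm_mul] at h5
  by_contra hne
  have h6 : 0 < ‖x - y‖ := norm_pos_iff.2 (sub_ne_zero.2 hne)
  nlinarith

theorem SmallOn.deriv_ne {c : C} {ε : C[X]} (h : SmallOn c ε) {x : C} (hx : ‖x‖ ≤ ‖c‖) :
    (derivative (X + ε)).eval x ≠ 0 := by
  obtain ⟨r, h0, h1, h2⟩ := h.bound_MM2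
  intro e
  rw [derivative_add, derivative_X, eval_add, eval_one, eval_eq_sum_range] at e
  have h3 : ‖c * ∑ i ∈ Finset.range (ε.derivative.natDegree + 1),
      ε.derivative.coeff i * x ^ i‖ ≤ r := by
    rw [Finset.mul_sum]
    refine IsUltrametricDist.norm_sum_le_of_forall_le_of_nonneg h0 fun i _ =>
      le_trans ?_ (h2 (i + 1))
    have h4 : ‖((i : C) + 1)‖ ≤ 1 := by
      exact_mod_cast IsUltrametricDist.norm_natCast_le_one C (i + 1)
    rw [coeff_derivative, norm_mul, norm_mul, norm_mul, norm_pow]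
    calc _ ≤ ‖c‖ * (‖ε.coeff (i + 1)‖ * 1 * ‖c‖ ^ i) := by gcongr
      _ = _ := by ring
  rw [eq_neg_of_add_eq_zero_right e, mul_neg, mul_one, norm_neg] at h3
  linarith

theorem SmallOn.natDegree_pos {c : C} {ε : C[X]} (h : SmallOn c ε) : 0 < (X + ε).natDegree := by
  refine Nat.pos_of_ne_zero fun e => h.deriv_ne (x := 0) (by simp) ?_
  rw [derivative_of_natDegree_zero e, eval_zero]

omit [IsUltrametricDist C] in
theorem exists_dvd_comp (π d : C[X]) (hd : d ≠ 0) : ∃ d' : C[X], d' ≠ 0 ∧ d ∣ d'.comp π := by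
  have := (AdjoinRoot.powerBasis hd).finite
  obtain ⟨d', h1, h2⟩ := Algebra.IsIntegral.isIntegral (R := C) (aeval (AdjoinRoot.root d) π)
  refine ⟨d', h1.ne_zero, AdjoinRoot.mk_eq_zero.1 ?_⟩
  rw [← AdjoinRoot.aeval_eq, aeval_comp]
  exact h2

theorem SmallOn.norm_lt [CompleteSpace C] {c : C} {ε : C[X]} (h : SmallOn c ε) (hc : c ≠ 0) :
    ‖T.cst c⁻¹ * (X + ε).eval₂ T.cst (T.mono 1 c) - T.mono 1 1‖ < 1 ∧
      T.cst c⁻¹ * (X + ε).eval₂ T.cst (T.mono 1 c) ∈ T.Tp C := by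
  obtain ⟨r, h0, h1, h2⟩ := h.bound_MM2
  have hc' : 0 < ‖c‖ := norm_pos_iff.2 hc
  constructor
  · have h3 : T.cst c⁻¹ * T.mono 1 c = (T.mono 1 1 : T C) := by
      rw [T.cst_apply, T.mono_mul_mono, zero_add, inv_mul_cancel₀ hc]
    rw [eval₂_add, eval₂_X, mul_add, h3, add_sub_cancel_left]
    refine lt_of_le_of_lt (T.norm_le _ (r := ‖c‖⁻¹ * r) (by positivity) fun n => ?_) ?_
    · rw [T.coeff_cst_mul, norm_mul, norm_inv, ← mul_one (eval₂ _ _ ε), T.coeff_eval₂_mul]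
      refine mul_le_mul_of_nonneg_left ?_ (by positivity)
      refine IsUltrametricDist.norm_sum_le_of_forall_le_of_nonneg h0 fun i _ => ?_
      rw [T.coeff_one]
      split_ifs
      · rw [mul_one, norm_mul, norm_pow]
        exact h2 i
      · rwa [mul_zero, norm_zero]
    · rwa [inv_mul_lt_one₀ hc']
  · refine Subring.mul_mem _ (T.mono_mem_Tp 0 le_rfl _) ?_
    rw [eval₂_eq_sum_range]
    exact Subring.sum_mem _ fun i _ => Subring.mul_mem _ (T.mono_mem_Tp 0 le_rfl _)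
      (Subring.pow_mem _ (T.mono_mem_Tp 1 zero_le_one _) i)

/-- The substitution X ↦ π on rational functions. -/
theorem exists_theta_poly {k K : Type} [Field k] [Field K] (φ : k →+* K) (π : K[X])
    (hπ : 0 < π.natDegree) :
    ∃ θ : RatFunc k →+* RatFunc K, (∀ x, θ (RatFunc.C x) = RatFunc.C (φ x)) ∧
      θ RatFunc.X = algebraMap K[X] (RatFunc K) π := by
  refine exists_ratFunc_hom (RatFunc.C.comp φ) _ fun P hP h => ?_
  have h1 : algebraMap K[X] (RatFunc K) ((P.map φ).comp π) =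
      P.eval₂ (RatFunc.C.comp φ) (algebraMap K[X] (RatFunc K) π) := by
    rw [Polynomial.comp, eval₂_map, hom_eval₂]
    congr 1
  rw [← h1, map_eq_zero_iff _ (IsFractionRing.injective K[X] (RatFunc K)), comp_eq_zero_iff] at h
  rcases h with h | ⟨-, h⟩
  · exact hP ((Polynomial.map_eq_zero φ).1 h)
  · rw [h, natDegree_C] at hπ
    exact lt_irrefl _ hπ

end Pool.Agent.Adm
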