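import Pool.Agent.Adq.MM1
import Pool.Agent.Adq.MM2
import Pool.Agent.Adm.S2

/-! Deformation of a covering unramified at infinity along a perturbation of the coordinate:
construction. -/

namespace Pool.Agent.Adm

open scoped OnePoint
open Polynomial

theorem pw_one_MM3 {C : Type} [NormedField C] [CompleteSpace C] [IsUltrametricDist C] (f : T C) :
    T.pw 1 one_pos f = f := by
  ext n
  rw [T.coeff_pw]
  simp

theorem mono_mem_MM3 {C : Type} [NormedField C] [CompleteSpace C] [IsUltrametricDist C] (n : ℤ)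
    (hn : 0 ≤ n) (c : C) : T.mono n c ∈ T.Tp C := by
  intro i hi
  rw [T.coeff_mono, if_neg (by omega)]

theorem eval_mem_MM3 {C : Type} [NormedField C] [CompleteSpace C] [IsUltrametricDist C] (c : C)
    (p : C[X]) : p.eval₂ T.cst (T.mono 1 c) ∈ T.Tp C := by
  rw [eval₂_eq_sum_range]
  exact sum_mem fun i _ => mul_mem (mono_mem_MM3 0 le_rfl _)
    (pow_mem (mono_mem_MM3 1 zero_le_one c) _)

theorem deform_core {k C G : Type} [Field k] [NormedField C] [CompleteSpace C]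
    [IsUltrametricDist C] [Group G] [Finite G] (φ : k →+* C) (hφ : ∀ x, ‖φ x‖ ≤ 1) (c1 : C)
    (h1 : 1 < ‖c1‖) (ε : C[X]) (hε : SmallOn c1 ε) (c : Cover k G) (hc : c.ι.range = ⊤)
    (hinf : c.Mono ∞ 1 1 1) (θA θB : RatFunc k →+* RatFunc C)
    (hAC : ∀ x, θA (RatFunc.C x) = RatFunc.C (φ x))
    (hAX : θA RatFunc.X = algebraMap C[X] (RatFunc C) (X + ε))
    (hBC : ∀ x, θB (RatFunc.C x) = RatFunc.C (φ x)) (hBX : θB RatFunc.X = RatFunc.X) :
    ∃ (an : AnPkg c1 c1 1 1 one_pos one_pos) (c' : Cover C G), c'.ι.range = ⊤ ∧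
      Transfer c c' θA an.κA ∧
      Transfer ({ L := RatFunc k, ι := 1 } : Cover k G) c' θB an.κB := by
  classical
  have := Fintype.ofFinite G
  have c0 : c1 ≠ 0 := norm_pos_iff.1 (one_pos.trans h1)
  have g0 : c1⁻¹ ≠ 0 := inv_ne_zero c0
  have g1 : ‖c1⁻¹‖ < 1 := by
    rw [norm_inv]
    exact inv_lt_one_of_one_lt₀ h1
  obtain ⟨-, -, j, j1, j2, -⟩ := hinf
  have j2' : j (algebraMap (RatFunc k) c.L RatFunc.X) = HahnSeries.single (-((1 : ℕ) : ℤ)) 1 := j2
  obtain ⟨Ψ, ΨC, Ψ1, -, Ψq⟩ := T.exists_subst _ (hε.norm_lt c0).1 (hε.norm_lt c0).2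
  have Ψm : Ψ (T.mono 1 c1) = (X + ε).eval₂ T.cst (T.mono 1 c1) := by
    have e : (T.mono 1 c1 : T C) = T.cst c1 * T.mono 1 1 := by
      rw [T.cst_apply, T.mono_mul_mono, zero_add, mul_one]
    conv_lhs => rw [e]
    rw [map_mul, ΨC, Ψ1, ← mul_assoc, ← map_mul, mul_inv_cancel₀ c0, map_one, one_mul]
  have Ψe : ∀ p : C[X], Ψ (p.eval₂ T.cst (T.mono 1 c1)) =
      (p.comp (X + ε)).eval₂ T.cst (T.mono 1 c1) := by
    intro p
    rw [hom_eval₂, eval₂_comp, Ψm, show Ψ.comp T.cst = T.cst from RingHom.ext ΨC]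
  let F : c.L →+* T C := T.flip.comp ((T.emb φ hφ c1⁻¹ g0 g1).comp j)
  have FC : ∀ x, F (algebraMap (RatFunc k) c.L (RatFunc.C x)) = T.cst (φ x) := by
    intro x
    simp only [F, RingHom.comp_apply]
    rw [j1, T.emb_C, T.cst_apply, T.flip_mono, neg_zero]
  have FX : F (algebraMap (RatFunc k) c.L RatFunc.X) = T.mono 1 c1 := by
    simp only [F, RingHom.comp_apply]
    rw [j2', T.emb_single, T.flip_mono, neg_neg, map_one, mul_one, Nat.cast_one, zpow_neg,
      zpow_one, inv_inv]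
  obtain ⟨PA, bA⟩ := c.exists_indBasis
  let c0' : Cover k G := { L := RatFunc k, ι := 1 }
  have b0 : c0'.IndBasis 1 := by
    refine ⟨isUnit_one, fun σ h i => ?_⟩
    change (1 : Matrix G G c0'.L) (1 * h) i = _
    rw [one_mul, Matrix.one_apply]
    split_ifs
    · exact (map_one σ).symm
    · exact (map_zero σ).symm
  obtain ⟨an⟩ := nonempty_anPkg c1 c1 c0 le_rfl 1 1 one_pos one_pos
  obtain ⟨UA, UM, UB, vA, vM, vB, f1, f2⟩ := an.factor G (PA.map (Ψ.comp F)) 1
    (bA.1.map (Ψ.comp F).mapMatrix) isUnit_one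
  have k1 : an.α.comp an.κA = an.μ1.comp an.κM :=
    ratFunc_hom_ext _ _ (fun x => (an.α_C x).trans (an.μ1_C x).symm) (an.α_X.trans an.μ1_X.symm)
  have k2 : an.μ2.comp an.κM = an.β.comp an.κB :=
    ratFunc_hom_ext _ _ (fun x => (an.μ2_C x).trans (an.β_C x).symm) (an.μ2_X.trans an.β_X.symm)
  have ap : ∀ p : C[X], an.α (an.κA (algebraMap C[X] (RatFunc C) p)) =
      iT (p.eval₂ T.cst (T.mono 1 c1)) := by
    intro p
    have e : (an.α.comp an.κA).comp (algebraMap C[X] (RatFunc C)) =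
        iT.comp (eval₂RingHom T.cst (T.mono 1 c1)) := by
      apply Polynomial.ringHom_ext
      · intro x
        simp only [RingHom.comp_apply, coe_eval₂RingHom, eval₂_C]
        exact an.α_C x
      · simp only [RingHom.comp_apply, coe_eval₂RingHom, eval₂_X]
        exact an.α_X
    exact DFunLike.congr_fun e p
  have hJA : (iT.comp (Ψ.comp F)).comp (algebraMap (RatFunc k) c.L) =
      an.α.comp (an.κA.comp θA) := by
    apply ratFunc_hom_ext
    · intro x
      simp only [RingHom.comp_apply]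
      rw [FC, ΨC, hAC, an.α_C]
    · simp only [RingHom.comp_apply]
      rw [FX, Ψm, hAX, ap]
  obtain ⟨c', r1, r2, -, r4⟩ := patch3 c c0' c0' (by rw [hc, top_sup_eq, top_sup_eq]) θA θB θB
    an.κA an.κM an.κB an.α an.μ1 an.μ2 an.β an.α_inj an.μ1_inj an.μ2_inj an.β_inj
    (fun r => DFunLike.congr_fun k1 r) (fun r => DFunLike.congr_fun k2 r) an.inter
    (iT.comp (Ψ.comp F)) (an.μ1.comp (an.κM.comp θB)) (an.μ2.comp (an.κM.comp θB))
    (an.β.comp (an.κB.comp θB)) (fun f => DFunLike.congr_fun hJA f) (fun _ => rfl) (fun _ => rfl)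
    (fun _ => rfl)
    (fun l q hl => by
      obtain ⟨d, hd, r, hr, h⟩ := an.fracA q
      rw [← hl, RingHom.comp_apply, ← map_mul, pw_one_MM3] at h
      have h' : Ψ (F l) * d.eval₂ T.cst (T.mono 1 c1) = r := iT_inj_An h
      obtain ⟨d', hd', e, he⟩ := exists_dvd_comp (X + ε) d hd
      have hm : F l * d'.eval₂ T.cst (T.mono 1 c1) ∈ T.Tp C := by
        apply Ψq
        rw [map_mul, Ψe, he, eval₂_mul, ← mul_assoc, h']
        exact mul_mem hr (eval_mem_MM3 c1 e)
      obtain ⟨f, hf⟩ := rat_A φ hφ c1⁻¹ g0 g1 1 one_pos c1 c0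
        (j.comp (algebraMap (RatFunc k) c.L)) j1 j2' (j l) d' hd' _ hm (pw_one_MM3 _).symm
      exact ⟨f, j.injective hf⟩)
    (fun l _ _ => ⟨l, rfl⟩) (fun l _ _ => ⟨l, rfl⟩) PA 1 1 bA b0 b0 UA UM UB vA vM vB
    (by
      rw [Matrix.map_one _ (map_zero _) (map_one _), Matrix.one_mul, ← f1]
      congr 1
      ext a b
      simp only [Matrix.map_apply, RingHom.comp_apply, pw_one_MM3])
    (by
      rw [Matrix.map_one _ (map_zero _) (map_one _)] at f2
      rw [Matrix.map_one _ (map_zero _) (map_one _), Matrix.map_one _ (map_zero _) (map_one _),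
        f2, Matrix.one_mul])
  exact ⟨an, c', r1, r2, r4⟩

end Pool.Agent.Adm
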