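import Pool.Agent.Adq.MM3
import Pool.Agent.Adq.SUB

/-! Deformation of a covering unramified at infinity: monodromy. -/

namespace Pool.Agent.Adm

open scoped OnePoint
open Polynomial

theorem powL_taylor_MM4 {C : Type} [Field C] (π : C[X]) (x : C) (e : ℕ) (he : 0 < e) :
    powL e he (((taylor x π : C[X]) : PowerSeries C) : LaurentSeries C) =
      π.eval₂ HahnSeries.C (HahnSeries.C x + HahnSeries.single (e : ℤ) 1) := by
  have h : (((powL e he).comp (HahnSeries.ofPowerSeries ℤ C)).comp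
      coeToPowerSeries.ringHom).comp (taylorAlgHom x).toRingHom =
      eval₂RingHom HahnSeries.C (HahnSeries.C x + HahnSeries.single (e : ℤ) 1) := by
    apply Polynomial.ringHom_ext
    · intro a
      change powL e he (((taylor x (Polynomial.C a) : C[X]) : PowerSeries C) : LaurentSeries C) = _
      rw [taylor_C, Polynomial.coe_C, HahnSeries.ofPowerSeries_C, powL_C, coe_eval₂RingHom,
        eval₂_C]
    · change powL e he (((taylor x X : C[X]) : PowerSeries C) : LaurentSeries C) = _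
      rw [taylor_X, Polynomial.coe_add, Polynomial.coe_C, Polynomial.coe_X, map_add, map_add,
        HahnSeries.ofPowerSeries_C, HahnSeries.ofPowerSeries_X, powL_C, powL_single, mul_one,
        coe_eval₂RingHom, eval₂_X, add_comm]
  exact DFunLike.congr_fun h π

theorem point_MM4 {k C G Q : Type} [Field k] [Field C] [IsAlgClosed C] [Group G] [CommRing Q]
    {c0 : Cover k G} {c : Cover C G} {θ : RatFunc k →+* RatFunc C} {κ : RatFunc C →+* Q}
    {φ : k →+* C} (hT : Transfer c0 c θ κ) (hC : ∀ x, θ (RatFunc.C x) = RatFunc.C (φ x))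
    {π : C[X]} (hX : θ RatFunc.X = algebraMap C[X] (RatFunc C) π) (x : C)
    (hd : (derivative π).eval x ≠ 0) {e : ℕ} (he : 0 < e) {ζ : C} (hζ : IsPrimitiveRoot ζ e)
    (hU : ChartS2 κ (HahnSeries.C x + HahnSeries.single (e : ℤ) 1)) {g : G}
    (hr : c0.RMono ((HahnSeries.C : C →+* LaurentSeries C).comp φ)
      (HahnSeries.C (π.eval x) + HahnSeries.single (e : ℤ) 1) (scL ζ (hζ.ne_zero he.ne')) g) :
    c.Mono (x : OnePoint C) e ζ g := by
  have : NeZero e := ⟨he.ne'⟩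
  have hek : (e : C) ≠ 0 := (hζ.neZero').out
  obtain ⟨Φ, p1, p2, p3⟩ := exists_reparam_equiv e he hek ((taylor x π : C[X]) : PowerSeries C)
    (by rwa [Polynomial.coeff_coe, taylor_coeff_one])
  rw [constantCoeff_coe, taylor_coeff_zero, powL_taylor_MM4] at p2
  have h1 := hr.comp (Φ : LaurentSeries C →+* LaurentSeries C) _
    (p3 ζ (hζ.ne_zero he.ne') hζ.pow_eq_one)
  have e1 : (Φ : LaurentSeries C →+* LaurentSeries C).comp
      ((HahnSeries.C : C →+* LaurentSeries C).comp φ) =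
      (HahnSeries.C : C →+* LaurentSeries C).comp φ := RingHom.ext fun y => p1 (φ y)
  have e2 : (Φ : LaurentSeries C →+* LaurentSeries C)
      (HahnSeries.C (π.eval x) + HahnSeries.single (e : ℤ) 1) =
      π.eval₂ HahnSeries.C (HahnSeries.C x + HahnSeries.single (e : ℤ) 1) := p2
  rw [e1, e2] at h1
  obtain ⟨ψ, q1, q2, q3⟩ := hU
  refine Cover.RMono.mono he hζ (hT _ ψ (scL ζ (hζ.ne_zero he.ne')) _ _ _ _ g (q3 ζ _ ?_)
    (fun y => by rw [hC, q1]; rfl) ?_ q1 q2 h1)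
  · rw [map_add, scL_C, scL_single, zpow_natCast, hζ.pow_eq_one, one_mul]
  · rw [hX]
    exact hom_algebraMap (ψ.comp κ) _ _ q1 q2 π

theorem deform_top {k C G : Type} [Field k] [IsAlgClosed k] [NormedField C] [CompleteSpace C]
    [IsUltrametricDist C] [IsAlgClosed C] [Group G] [Finite G] (φ : k →+* C)
    (hφ : ∀ x, ‖φ x‖ ≤ 1) (c1 : C) (h1 : 1 < ‖c1‖) (ε : C[X]) (hε : SmallOn c1 ε) (c : Cover k G)
    (hc : c.ι.range = ⊤) (hinf : c.Mono ∞ 1 1 1) :
    ∃ c' : Cover C G, c'.ι.range = ⊤ ∧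
      (∀ (x : C) (y : k) e ζ g, ‖x‖ ≤ ‖c1‖ → (X + ε).eval x = φ y →
        c.Mono (y : OnePoint k) e ζ g → c'.Mono (x : OnePoint C) e (φ ζ) g) ∧
      (∀ x : C, ‖x‖ ≤ ‖c1‖ → (X + ε).eval x ∉ Set.range φ → c'.Mono (x : OnePoint C) 1 1 1) ∧
      (∀ x : C, ‖c1‖ ≤ ‖x‖ → c'.Mono (x : OnePoint C) 1 1 1) ∧ c'.Mono ∞ 1 1 1 := by
  obtain ⟨θA, hAC, hAX⟩ := exists_theta_poly φ (X + ε) hε.natDegree_pos
  obtain ⟨θB, hBC, hBX⟩ := exists_theta_S2 φ 1 one_ne_zero
  obtain ⟨an, c', hc', TA, TB⟩ := deform_core φ hφ c1 h1 ε hε c hc hinf θA θB hAC hAX hBC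
    (by rw [hBX, map_one, one_mul])
  have hc0 : c1 ≠ 0 := norm_pos_iff.1 (one_pos.trans h1)
  have iM : (1 : C)⁻¹ ≠ 0 := inv_ne_zero one_ne_zero
  refine ⟨c', hc', fun x y e ζ g hx hy hm => ?_, fun x hx hy => ?_, fun x hx => ?_, ?_⟩
  · refine point_MM4 TA hAC hAX x (hε.deriv_ne hx) hm.1 (hm.2.1.map_of_injective φ.injective)
      (chartA_S2 an x 1 one_ne_zero e hm.1 hx) ?_
    rw [hy]
    exact rmono_map_S2 φ hm _
  · refine point_MM4 TA hAC hAX x (hε.deriv_ne hx) one_pos IsPrimitiveRoot.one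
      (chartA_S2 an x 1 one_ne_zero 1 one_pos hx) ?_
    have h2 := c.rmono_transcendental φ _ hy
    have h3 : scL (1 : C) one_ne_zero = RingHom.id _ := RingHom.ext scL_one
    rw [← h3] at h2
    exact h2
  · refine point_tr_S2 TB hBC hBX one_ne_zero x (fun y hy => ?_)
      (fun e he => chartB_S2 an _ _ iM e he hc0 hx)
    have h2 := hφ y
    rw [← hy, one_mul] at h2
    exact absurd (h1.trans_le (hx.trans h2)) (lt_irrefl _)
  · obtain ⟨j, j1, j2⟩ := exists_chart (∞ : OnePoint k) 1 one_pos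
    obtain ⟨σ, hσ, -⟩ := ({ L := RatFunc k, ι := 1 } : Cover k G).exists_mono_of_chart ∞ 1
      one_pos 1 IsPrimitiveRoot.one j j1 j2
    have h2 := infty_S2 TB hBC hBX one_ne_zero (fun e he => chartI_S2 an _ iM e he) hσ
    rw [map_one] at h2
    exact h2

end Pool.Agent.Adm
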