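import Pool.Agent.Adq.D5
import Pool.Agent.Adq.Tr1
import Pool.Agent.Adq.FFL
import Pool.Agent.Adm.VF

/-! The polynomials of labels. -/

namespace Pool.Agent.Adm.Pt

open Sum Polynomial

variable {n : ℕ} {σ : Shape n} (z : Pt σ) (𝔽0 : FF) {i0 i1 i2 : Fin n} {v : Fin σ.r}
  {lam : z.k} {α : σ.Slot → z.k} (y : σ.Slot → 𝔽0.Fˣ → ℕ)

theorem sub_ne_RM {s s' : σ.Slot} (hs : σ.base s = v) (hs' : σ.base s' = v) (h : s ≠ s') :
    z.x s - z.x s' ≠ 0 := fun e => h (z.inj s s' (hs.trans hs'.symm) (sub_eq_zero.1 e))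

theorem dir_ne_RM {l l' : Fin n} (h : σ.dir v l ≠ σ.dir v l') :
    z.x (σ.dir v l) - z.x (σ.dir v l') ≠ 0 := z.sub_ne_RM (σ.base_dir v l) (σ.base_dir v l') h

theorem exists_kumCoord (i0 i2 : Fin n) (lam : Fin σ.r → z.k) (hl : ∀ v, lam v ≠ 0) :
    ∃ α, z.KumCoord 𝔽0 i0 i2 lam α := by
  choose α hα using fun s : σ.Slot => IsAlgClosed.exists_pow_nat_eq (lam (σ.base s) *
    (z.x s - z.x (σ.dir (σ.base s) i0)) / (z.x s - z.x (σ.dir (σ.base s) i2))) 𝔽0.m_pos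
  exact ⟨α, hl, fun s _ _ _ => hα s⟩

theorem KumAt.ne_zero (h : z.KumAt 𝔽0 i0 i2 v lam α) {s : σ.Slot} (hs : σ.base s = v)
    (h0 : s ≠ σ.dir v i0) (h2 : s ≠ σ.dir v i2) : α s ≠ 0 := by
  intro e
  have h1 := h.2 s hs h0 h2
  rw [e, zero_pow 𝔽0.m_pos.ne'] at h1
  exact div_ne_zero (mul_ne_zero h.1 (z.sub_ne_RM hs (σ.base_dir v i0) h0))
    (z.sub_ne_RM hs (σ.base_dir v i2) h2) h1.symm

/-- The finite points of the Kummer covering of v are distinct. -/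
theorem KumAt.injective (h : z.KumAt 𝔽0 i0 i2 v lam α) (hv : σ.OnPath i0 i2 v) :
    Function.Injective fun o : Option
      ({s : σ.Slot // σ.base s = v ∧ s ≠ σ.dir v i0 ∧ s ≠ σ.dir v i2} × 𝔽0.Fˣ) =>
      o.elim (0 : z.k) fun st => z.θ (𝔽0.θ st.2) * α st.1 := by
  have hne : ∀ (s : {s : σ.Slot // σ.base s = v ∧ s ≠ σ.dir v i0 ∧ s ≠ σ.dir v i2}) (t : 𝔽0.Fˣ),
      z.θ (𝔽0.θ t) * α s ≠ 0 := fun s t =>
    mul_ne_zero (by simp) (KumAt.ne_zero z 𝔽0 h s.2.1 s.2.2.1 s.2.2.2)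
  rintro (_ | ⟨s, t⟩) (_ | ⟨s', t'⟩) e
  · rfl
  · exact absurd e.symm (hne s' t')
  · exact absurd e (hne s t)
  · have e1 : z.θ (𝔽0.θ t) * α s = z.θ (𝔽0.θ t') * α s' := e
    have e2 := congrArg (· ^ 𝔽0.m) e1
    simp only [mul_pow, 𝔽0.theta_pow_m, one_mul] at e2
    rw [h.2 s s.2.1 s.2.2.1 s.2.2.2, h.2 s' s'.2.1 s'.2.2.1 s'.2.2.2,
      div_eq_div_iff (z.sub_ne_RM s.2.1 (σ.base_dir v i2) s.2.2.2)
        (z.sub_ne_RM s'.2.1 (σ.base_dir v i2) s'.2.2.2)] at e2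
    have e3 : lam * (z.x (σ.dir v i0) - z.x (σ.dir v i2)) * (z.x s - z.x s') = 0 := by
      linear_combination e2
    have e4 := (mul_eq_zero.1 e3).resolve_left (mul_ne_zero h.1 (z.dir_ne_RM hv))
    obtain rfl : s = s' :=
      Subtype.ext (z.inj _ _ (s.2.1.trans s'.2.1.symm) (sub_eq_zero.1 e4))
    obtain rfl : t = t' := 𝔽0.theta_injective z.θ
      (mul_right_cancel₀ (KumAt.ne_zero z 𝔽0 h s.2.1 s.2.2.1 s.2.2.2) e1)
    rfl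

theorem fP_eq_prod (i0 i2 : Fin n) (α : σ.Slot → z.k) (v : Fin σ.r) :
    z.fP 𝔽0 i0 i2 α y v = ∏ o : Option
      ({s : σ.Slot // σ.base s = v ∧ s ≠ σ.dir v i0 ∧ s ≠ σ.dir v i2} × 𝔽0.Fˣ),
      (X - C (o.elim (0 : z.k) fun st => z.θ (𝔽0.θ st.2) * α st.1)) ^
        o.elim (y (σ.dir v i0) 1) fun st => y st.1 st.2 := by
  rw [Fintype.prod_option, Fintype.prod_prod_type, fP, Finset.prod_subtype (F := inferInstance)
    (p := fun s => σ.base s = v ∧ s ≠ σ.dir v i0 ∧ s ≠ σ.dir v i2) _ (by simp)]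
  simp only [Option.elim_none, Option.elim_some, map_zero, sub_zero]

theorem fP_monic (i0 i2 : Fin n) (α : σ.Slot → z.k) (v : Fin σ.r) :
    (z.fP 𝔽0 i0 i2 α y v).Monic := by
  rw [fP_eq_prod]
  exact monic_prod_of_monic _ _ fun _ _ => (monic_X_sub_C _).pow _

theorem fP_natDegree (i0 i2 : Fin n) (α : σ.Slot → z.k) (v : Fin σ.r) :
    (z.fP 𝔽0 i0 i2 α y v).natDegree = y (σ.dir v i0) 1 + ∑ s ∈ Finset.univ.filter
      (fun s => σ.base s = v ∧ s ≠ σ.dir v i0 ∧ s ≠ σ.dir v i2), ∑ t, y s t := by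
  rw [fP_eq_prod, natDegree_prod_of_monic _ _ fun _ _ => (monic_X_sub_C _).pow _,
    Fintype.sum_option, Fintype.sum_prod_type, Finset.sum_subtype (F := inferInstance)
    (p := fun s => σ.base s = v ∧ s ≠ σ.dir v i0 ∧ s ≠ σ.dir v i2) _ (by simp)]
  simp only [natDegree_pow, natDegree_X_sub_C, mul_one, Option.elim_none, Option.elim_some]

theorem fP_mult (h : z.KumAt 𝔽0 i0 i2 v lam α) (hv : σ.OnPath i0 i2 v) :
    (z.fP 𝔽0 i0 i2 α y v).rootMultiplicity 0 = y (σ.dir v i0) 1 ∧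
    (∀ s (t : 𝔽0.Fˣ), σ.base s = v → s ≠ σ.dir v i0 → s ≠ σ.dir v i2 →
      (z.fP 𝔽0 i0 i2 α y v).rootMultiplicity (z.θ (𝔽0.θ t) * α s) = y s t) ∧
    ∀ a, a ≠ 0 → (∀ s (t : 𝔽0.Fˣ), σ.base s = v → s ≠ σ.dir v i0 → s ≠ σ.dir v i2 →
      a ≠ z.θ (𝔽0.θ t) * α s) → (z.fP 𝔽0 i0 i2 α y v).rootMultiplicity a = 0 := by
  obtain ⟨h1, h2, -⟩ := rootMultiplicity_prod_X_sub_C _ (KumAt.injective z 𝔽0 h hv)
    fun o => o.elim (y (σ.dir v i0) 1) fun st => y st.1 st.2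
  rw [fP_eq_prod]
  refine ⟨h1 none, fun s t a1 a2 a3 => h1 (some (⟨s, a1, a2, a3⟩, t)), fun a ha hs => h2 a ?_⟩
  rintro ⟨_ | ⟨s, t⟩, e⟩
  · exact ha e.symm
  · exact hs s t s.2.1 s.2.2.1 s.2.2.2 e.symm

theorem fO_eq_prod (v : Fin σ.r) (t : 𝔽0.Fˣ) :
    z.fO 𝔽0 y v t = ∏ s : σ.Sl v, (X - C (z.x s)) ^ y s t := by
  exact Finset.prod_subtype (p := fun s => σ.base s = v) _ (by simp) _

theorem fO_monic (v : Fin σ.r) (t : 𝔽0.Fˣ) : (z.fO 𝔽0 y v t).Monic := by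
  exact monic_prod_of_monic _ _ fun _ _ => (monic_X_sub_C _).pow _

theorem fO_natDegree (v : Fin σ.r) (t : 𝔽0.Fˣ) :
    (z.fO 𝔽0 y v t).natDegree = ∑ s ∈ Finset.univ.filter (fun s => σ.base s = v), y s t := by
  rw [fO, natDegree_prod_of_monic _ _ fun _ _ => (monic_X_sub_C _).pow _]
  simp only [natDegree_pow, natDegree_X_sub_C, mul_one]

theorem fO_mult (v : Fin σ.r) (t : 𝔽0.Fˣ) :
    (∀ s, σ.base s = v → (z.fO 𝔽0 y v t).rootMultiplicity (z.x s) = y s t) ∧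
    ∀ a, (∀ s, σ.base s = v → a ≠ z.x s) → (z.fO 𝔽0 y v t).rootMultiplicity a = 0 := by
  obtain ⟨h1, h2, -⟩ := rootMultiplicity_prod_X_sub_C (fun s : σ.Sl v => z.x s)
    (fun s s' e => Subtype.ext (z.inj _ _ (s.2.trans s'.2.symm) e)) fun s => y s t
  rw [fO_eq_prod]
  refine ⟨fun s hs => h1 ⟨s, hs⟩, fun a ha => h2 a ?_⟩
  rintro ⟨s, e⟩
  exact ha s s.2 e.symm

theorem tpoly_eq_fP (hm : σ.IsMed v i0 i1 i2)
    (h : z.KumAt 𝔽0 i0 i2 v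
      ((z.x (σ.dir v i1) - z.x (σ.dir v i2)) / (z.x (σ.dir v i1) - z.x (σ.dir v i0))) α)
    (n0 : ℕ) (n1 : 𝔽0.Fˣ → ℕ) (nn : Fin n → ℕ) (hnn : ∀ l, σ.dir v l = σ.dir v i2 → nn l = 0) :
    α (σ.dir v i1) ^ 𝔽0.m = 1 ∧
      tpoly z.θ 𝔽0 (α (σ.dir v i1)) n0 n1 nn (z.crs v i0 i1 i2) =
        z.fP 𝔽0 i0 i2 α (σ.tlab 𝔽0 v i0 i1 n0 n1 nn) v := by
  obtain ⟨m1, m2, m3⟩ := hm
  have hcr : ∀ s, σ.base s = v → s ≠ σ.dir v i0 → s ≠ σ.dir v i2 → α s ^ 𝔽0.m =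
      cr (z.x (σ.dir v i0)) (z.x (σ.dir v i1)) (z.x (σ.dir v i2)) (z.x s) := fun s a1 a2 a3 => by
    rw [h.2 s a1 a2 a3, cr]
    simp only [div_eq_mul_inv, mul_inv]
    ring
  refine ⟨?_, ?_⟩
  · rw [hcr _ (σ.base_dir v i1) m1.symm m3, cr, mul_comm]
    exact div_self (mul_ne_zero (z.dir_ne_RM m3) (z.dir_ne_RM m1.symm))
  set S := Finset.univ.filter
    (fun s => σ.base s = v ∧ s ≠ σ.dir v i0 ∧ s ≠ σ.dir v i2) with hS
  have k1 : ∏ s ∈ S, ∏ t : 𝔽0.Fˣ, (X - C (z.θ (𝔽0.θ t) * α s)) ^ σ.tlab 𝔽0 v i0 i1 n0 n1 nn s t =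
      (∏ s ∈ S, ∏ t : 𝔽0.Fˣ,
        (X - C (z.θ (𝔽0.θ t) * α s)) ^ if s = σ.dir v i1 then n1 t else 0) *
      ∏ s ∈ S, ∏ l ∈ Finset.univ.filter (fun l => σ.dir v l = s),
        (X ^ 𝔽0.m - C (z.crs v i0 i1 i2 l)) ^ nn l := by
    rw [← Finset.prod_mul_distrib]
    refine Finset.prod_congr rfl fun s hs => ?_
    obtain ⟨a1, a2, a3⟩ := (Finset.mem_filter.1 hs).2
    simp only [Shape.tlab, if_neg a2, pow_add, Finset.prod_mul_distrib]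
    rw [Finset.prod_pow, 𝔽0.prod_X_sub, ← Finset.prod_pow_eq_pow_sum, hcr s a1 a2 a3]
    congr 1
    refine Finset.prod_congr rfl fun l hl => ?_
    rw [crs, (Finset.mem_filter.1 hl).2]
  have k2 : (∏ s ∈ S, ∏ t : 𝔽0.Fˣ,
      (X - C (z.θ (𝔽0.θ t) * α s)) ^ if s = σ.dir v i1 then n1 t else 0) =
      ∏ t : 𝔽0.Fˣ, (X - C (z.θ (𝔽0.θ t) * α (σ.dir v i1))) ^ n1 t := by
    rw [Finset.prod_eq_single_of_mem (σ.dir v i1)
      (Finset.mem_filter.2 ⟨Finset.mem_univ _, σ.base_dir v i1, m1.symm, m3⟩)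
      fun s _ hs => by simp only [if_neg hs, pow_zero, Finset.prod_const_one]]
    simp only [if_true]
  have k3 : ∏ l ∈ Finset.univ.filter (fun l => σ.dir v l = σ.dir v i0),
      (X ^ 𝔽0.m - C (z.crs v i0 i1 i2 l)) ^ nn l =
      X ^ (𝔽0.m * ∑ l ∈ Finset.univ.filter (fun l => σ.dir v l = σ.dir v i0), nn l) := by
    rw [pow_mul, ← Finset.prod_pow_eq_pow_sum]
    refine Finset.prod_congr rfl fun l hl => ?_
    rw [crs, (Finset.mem_filter.1 hl).2, cr, sub_self, zero_mul, zero_div, map_zero, sub_zero]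
  have k4 : ∏ l ∈ Finset.univ.filter (fun l => σ.dir v l = σ.dir v i2),
      (X ^ 𝔽0.m - C (z.crs v i0 i1 i2 l)) ^ nn l = 1 :=
    Finset.prod_eq_one fun l hl => by rw [hnn l (Finset.mem_filter.1 hl).2, pow_zero]
  have k5 := Finset.prod_fiberwise_of_maps_to (s := Finset.univ) (g := σ.dir v)
    (t := insert (σ.dir v i0) (insert (σ.dir v i2) S)) (fun l _ => by
      simp only [hS, Finset.mem_insert, Finset.mem_filter, Finset.mem_univ, σ.base_dir, true_and]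
      tauto) fun l => (X ^ 𝔽0.m - C (z.crs v i0 i1 i2 l)) ^ nn l
  rw [Finset.prod_insert (by simp [hS, m2]), Finset.prod_insert (by simp [hS]), k3, k4] at k5
  rw [tpoly, fP, ← hS, k1, k2, ← k5, Shape.tlab, if_pos rfl, pow_add]
  ring

theorem crs_left (v : Fin σ.r) (i0 i1 i2 : Fin n) : z.crs v i0 i1 i2 i0 = 0 := by
  rw [crs, cr, sub_self, zero_mul, zero_div]

theorem crs_mid (hm : σ.IsMed v i0 i1 i2) : z.crs v i0 i1 i2 i1 = 1 := by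
  rw [crs, cr, mul_comm]
  exact div_self (mul_ne_zero (z.dir_ne_RM hm.2.2) (z.dir_ne_RM hm.1.symm))

theorem crs_eq_zero_iff (hm : σ.IsMed v i0 i1 i2) (l : Fin n) :
    z.crs v i0 i1 i2 l = 0 ↔ σ.dir v l = σ.dir v i0 ∨ σ.dir v l = σ.dir v i2 := by
  have h : ∀ l', z.x (σ.dir v l) - z.x (σ.dir v l') = 0 ↔ σ.dir v l = σ.dir v l' := fun l' =>
    ⟨fun e => by_contra fun h => z.dir_ne_RM h e, fun e => by rw [e, sub_self]⟩
  rw [crs, cr, div_eq_zero_iff, mul_eq_zero, mul_eq_zero, or_iff_left (z.dir_ne_RM hm.2.2),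
    or_iff_left (z.dir_ne_RM hm.1.symm), h, h]

theorem crs_eq_iff (hm : σ.IsMed v i0 i1 i2) {l l' : Fin n} (hl : σ.dir v l ≠ σ.dir v i2)
    (hl' : σ.dir v l' ≠ σ.dir v i2) :
    z.crs v i0 i1 i2 l = z.crs v i0 i1 i2 l' ↔ σ.dir v l = σ.dir v l' := by
  refine ⟨fun e => ?_, fun e => by rw [crs, crs, e]⟩
  have h1 := z.dir_ne_RM hm.1.symm
  rw [crs, crs, cr, cr, div_eq_div_iff (mul_ne_zero (z.dir_ne_RM hl) h1)
    (mul_ne_zero (z.dir_ne_RM hl') h1)] at e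
  have e3 : (z.x (σ.dir v i1) - z.x (σ.dir v i2)) * (z.x (σ.dir v i1) - z.x (σ.dir v i0)) *
      (z.x (σ.dir v i0) - z.x (σ.dir v i2)) * (z.x (σ.dir v l) - z.x (σ.dir v l')) = 0 := by
    linear_combination e
  by_contra h
  exact mul_ne_zero (mul_ne_zero (mul_ne_zero (z.dir_ne_RM hm.2.2) h1) (z.dir_ne_RM hm.2.1))
    (z.dir_ne_RM h) e3

end Pool.Agent.Adm.Pt
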