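import Pool.Agent.Adq.D6
import Pool.Agent.Adq.GC
import Pool.Agent.Adq.RM
import Pool.Agent.Adq.Tr3

/-! Composition of specialisations of cross ratios, and rigidity. -/

namespace Pool.Agent.Adm

variable {n : ℕ} {σ σ' σ'' : Shape n}

theorem Pt.Rel.trans {z : Pt σ} {z' : Pt σ'} {z'' : Pt σ''} {τ τ' : Fin n ≃ Fin n}
    (h : z.Rel z' τ) (h' : z'.Rel z'' τ') : z.Rel z'' (τ.trans τ') := by
  intro v v'' i0 i1 i2 hm hm''
  obtain ⟨h01, h02, h12⟩ := hm.ne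
  obtain ⟨v', hm'⟩ := σ'.exists_med (τ.injective.ne h01) (τ.injective.ne h02) (τ.injective.ne h12)
  obtain ⟨h1, k1⟩ := h v v' i0 i1 i2 hm hm'
  obtain ⟨h2, k2⟩ := h' v' v'' (τ i0) (τ i1) (τ i2) hm' hm''
  refine ⟨fun l hl => h2 (τ l) (h1 l hl), KerLe.trans ?_ k1⟩
  have k3 := (k2.comp τ).trunc fun l => σ.dir v l = σ.dir v i2
  convert k3 using 2 with l
  split_ifs with a b
  · rfl
  · exact absurd b (h1 l a)
  · rfl

theorem Pt.le_of_kerLe_crs {z z' : Pt σ} (h : ∀ v i0 i1 i2, σ.IsMed v i0 i1 i2 →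
    KerLe z'.θ (z'.crs v i0 i1 i2) z.θ (z.crs v i0 i1 i2)) : z.Le z' := by
  rintro G _ _ ⟨d, R, ⟨hR, hd⟩, htop⟩
  refine ⟨d, R, ⟨fun v => ?_, hd⟩, htop⟩
  obtain ⟨i0, i1, i2, hm⟩ := σ.exists_triple v
  have hl : ∀ s : σ.Sl v, ∃ l, σ.dir v l = s := fun s => by
    obtain ⟨l, hl⟩ := σ.exists_dir s.1
    exact ⟨l, by rwa [s.2] at hl⟩
  choose l hl using hl
  have hinj : ∀ y : Pt σ, Function.Injective fun s : σ.Sl v => y.x s := fun y s s' e =>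
    Subtype.ext (y.inj _ _ (s.2.trans s'.2.symm) e)
  refine VC.gen_cr (hinj z) (hinj z') (s0 := ⟨σ.dir v i0, σ.base_dir v i0⟩)
    (s1 := ⟨σ.dir v i1, σ.base_dir v i1⟩) (s2 := ⟨σ.dir v i2, σ.base_dir v i2⟩)
    (fun e => hm.1 (congrArg Subtype.val e)) (fun e => hm.2.1 (congrArg Subtype.val e))
    (fun e => hm.2.2 (congrArg Subtype.val e)) ?_ (hR v)
  have k := (h v i0 i1 i2 hm).comp l
  simpa only [Pt.crs, hl] using k

theorem Pt.psi_le (z : Pt σ) : z.psi ≤ n ^ 5 := by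
  classical
  have hr : σ.r ≤ n := (Nat.le_add_right _ 2).trans σ.r_add_two_le
  unfold Pt.psi
  refine (Finset.sum_le_card_nsmul _ _ n fun T _ => ?_).trans ?_
  · simpa using td_le_card z.θ (z.crs T.1 T.2.1 T.2.2.1 T.2.2.2)
  · rw [smul_eq_mul]
    refine (Nat.mul_le_mul_right n (Finset.card_le_univ _)).trans ?_
    simp only [Fintype.card_prod, Fintype.card_fin]
    calc σ.r * (n * (n * n)) * n ≤ n * (n * (n * n)) * n := by gcongr
      _ = n ^ 5 := by ring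

theorem Pt.Rel.kerLe_RG {z z' : Pt σ} (h : z.Rel z' (Equiv.refl _)) {v : Fin σ.r}
    {i0 i1 i2 : Fin n} (hm : σ.IsMed v i0 i1 i2) :
    KerLe z'.θ (z'.crs v i0 i1 i2) z.θ (z.crs v i0 i1 i2) := by
  have k := (h v v i0 i1 i2 hm hm).2
  convert k using 2 with l
  split_ifs with a
  · exact (z'.crs_eq_zero_iff hm l).2 (Or.inr a)
  · rfl

theorem Pt.Rel.le_of_psi {z z' : Pt σ} (h : z.Rel z' (Equiv.refl _)) (hψ : z'.psi ≤ z.psi) :
    z'.Le z := by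
  classical
  refine Pt.le_of_kerLe_crs fun v i0 i1 i2 hm => (h.kerLe_RG hm).symm_of_td_le ?_
  by_contra hlt
  refine absurd hψ (not_le.2 ?_)
  unfold Pt.psi
  refine Finset.sum_lt_sum (fun T hT => (h.kerLe_RG (Finset.mem_filter.1 hT).2).td_le)
    ⟨(v, i0, i1, i2), Finset.mem_filter.2 ⟨Finset.mem_univ _, hm⟩, not_le.1 hlt⟩

end Pool.Agent.Adm
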