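import Pool.Agent.Adq.RM
import Pool.Agent.Adq.LS
import Pool.Agent.Adq.PD2
import Pool.Agent.Adq.Tr3

/-! Pure labels are pure on every component of the Kummer covering. -/

namespace Pool.Agent.Adm.Pt

theorem val_RR1 (𝔽 : FF) {Y S : Type} [Fintype Y] [DecidableEq Y] [Fintype S] {_ : DecidableEq S}
    (o : Fin 𝔽.r → Y) (ho : Function.Surjective o) (f : Y → S) (hf : Function.Surjective f)
    (s : S) (P : Y → Prop) [DecidablePred P] (hP : ∀ y, P y ↔ f y = s) :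
    (∑ y ∈ Finset.univ.filter P, -(bitv o y : ZMod 𝔽.m)).val =
      𝔽.m - bitv (fun b => f (o b)) s := by
  rw [← val_neg_bitv 𝔽 (fun b => f (o b)) (hf.comp ho) s, bitv_comp, Nat.cast_sum,
    Finset.sum_neg_distrib, Finset.filter_congr fun y _ => hP y]

theorem sum_RR1 (𝔽 : FF) {Y : Type} [Fintype Y] [DecidableEq Y] (o : Fin 𝔽.r → Y) (P : Y → Prop)
    [DecidablePred P] : -∑ y ∈ Finset.univ.filter P, -(bitv o y : ZMod 𝔽.m) =
      ∑ y ∈ Finset.univ.filter (fun y => ¬ P y), -(bitv o y : ZMod 𝔽.m) := by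
  rw [neg_eq_iff_add_eq_zero, Finset.sum_filter_add_sum_filter_not, Finset.sum_neg_distrib,
    ← Nat.cast_sum, sum_bitv, neg_eq_zero]
  exact ZMod.natCast_self 𝔽.m

variable {n : ℕ} {σ : Shape n} (z : Pt σ) (𝔽0 𝔽 : FF) {i0 i2 : Fin n} {v : Fin σ.r}

theorem card_RR1 (hv : σ.OnPath i0 i2 v) :
    Fintype.card {s : σ.Slot // σ.base s = v ∧ s ≠ σ.dir v i0 ∧ s ≠ σ.dir v i2} =
      Fintype.card (σ.Sl v) - 2 := by
  have e : Finset.univ.filter (fun s : σ.Slot => σ.base s = v ∧ s ≠ σ.dir v i0 ∧ s ≠ σ.dir v i2) =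
      ((Finset.univ.filter fun s : σ.Slot => σ.base s = v).erase (σ.dir v i0)).erase
        (σ.dir v i2) := by
    ext s
    simp only [Finset.mem_filter, Finset.mem_univ, true_and, Finset.mem_erase]
    tauto
  rw [Fintype.card_subtype, Fintype.card_subtype, e, Finset.card_erase_of_mem,
    Finset.card_erase_of_mem, Nat.sub_sub]
  · simp [σ.base_dir]
  · simp only [Finset.mem_filter, Finset.mem_univ, true_and, Finset.mem_erase]
    exact ⟨Ne.symm hv, σ.base_dir v i2⟩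

theorem dir_RR1 {s : σ.Slot} (hs : σ.base s = v) (h0 : s ≠ σ.dir v i0) (h2 : s ≠ σ.dir v i2)
    (t : 𝔽0.Fˣ) : ∃ y : YI (Fin n) 𝔽0.Fˣ i0 i2, σ.dir v y.1.1 = s ∧ y.1.2 = t := by
  obtain ⟨l, hl⟩ := σ.exists_dir s
  rw [hs] at hl
  refine ⟨⟨(l, t), ?_⟩, hl, rfl⟩
  rintro (h | h)
  · exact absurd (hl.symm.trans (congrArg (σ.dir v) h)) h0
  · exact absurd (hl.symm.trans (congrArg (σ.dir v) h)) h2

theorem hwok_pure_path (hv : σ.OnPath i0 i2 v) {lam : z.k} {α : σ.Slot → z.k}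
    (hα : z.KumAt 𝔽0 i0 i2 v lam α) (o : Fin 𝔽.r → YI (Fin n) 𝔽0.Fˣ i0 i2)
    (ho : Function.Surjective o) :
    HWok 𝔽 (z.fP 𝔽0 i0 i2 α
      (fun s t => (σ.lab i0 i2 (fun y => -(bitv o y : ZMod 𝔽.m)) s t).val) v)
      (𝔽0.m * (Fintype.card (σ.Sl v) - 2)) := by
  have hv' : σ.dir v i0 ≠ σ.dir v i2 := hv
  let f : YI (Fin n) 𝔽0.Fˣ i0 i2 → Option (Option
      ({s : σ.Slot // σ.base s = v ∧ s ≠ σ.dir v i0 ∧ s ≠ σ.dir v i2} × 𝔽0.Fˣ)) := fun y =>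
    if h2 : σ.dir v y.1.1 = σ.dir v i2 then none else
      if h0 : σ.dir v y.1.1 = σ.dir v i0 then some none else
        some (some (⟨σ.dir v y.1.1, σ.base_dir _ _, h0, h2⟩, y.1.2))
  have f0 : ∀ y, σ.dir v y.1.1 = σ.dir v i0 ↔ f y = some none := by
    intro y
    simp only [f]
    split_ifs with h2 h0
    · simp [h2, hv'.symm]
    · simp [h0]
    · simp [h0]
  have f1 : ∀ st y, (σ.dir v y.1.1 = st.1.1 ∧ y.1.2 = st.2) ↔ f y = some (some st) := by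
    rintro ⟨⟨s, hs, h0', h2'⟩, t⟩ y
    simp only [f]
    split_ifs with h2 h0
    · simp [h2, h2'.symm]
    · simp [h0, h0'.symm]
    · simp
  have hf : Function.Surjective f := by
    rintro (_ | _ | st)
    · exact ⟨⟨(i2, 1), fun _ => rfl⟩, dif_pos rfl⟩
    · exact ⟨⟨(i0, 1), fun _ => rfl⟩, (f0 _).1 rfl⟩
    · obtain ⟨y, hy⟩ := dir_RR1 𝔽0 st.1.2.1 st.1.2.2.1 st.1.2.2.2 st.2
      exact ⟨y, (f1 st y).1 hy⟩
  have h := hwok_pure_inf 𝔽 _ (hα.injective z 𝔽0 hv) (fun b => f (o b)) (hf.comp ho)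
    Fintype.card_pos
  rw [Fintype.card_option, Nat.add_sub_cancel, Fintype.card_prod, card_RR1 hv, 𝔽0.card_units,
    mul_comm] at h
  rw [fP_eq_prod]
  convert h using 3 with w
  rcases w with _ | st
  · have hr : σ.Ram i0 i2 (σ.dir v i0) := (σ.ram_iff (σ.base_dir v i0)).2 ⟨hv, Or.inl rfl⟩
    simp only [Option.elim]
    rw [σ.lab_of_ram _ hr, σ.base_dir]
    exact val_RR1 𝔽 o ho f hf _ _ f0
  · simp only [Option.elim]
    rw [σ.lab_of_ne _ st.1.2.1 st.1.2.2.1 st.1.2.2.2]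
    exact val_RR1 𝔽 o ho f hf _ _ (f1 st)

theorem hwok_pure_off (hv : ¬ σ.OnPath i0 i2 v) (o : Fin 𝔽.r → YI (Fin n) 𝔽0.Fˣ i0 i2)
    (ho : Function.Surjective o) (t : 𝔽0.Fˣ) :
    HWok 𝔽 (z.fO 𝔽0 (fun s t => (σ.lab i0 i2 (fun y => -(bitv o y : ZMod 𝔽.m)) s t).val) v t)
      (Fintype.card (σ.Sl v) - 2) := by
  have hv' : σ.dir v i0 = σ.dir v i2 := not_not.1 hv
  let f : YI (Fin n) 𝔽0.Fˣ i0 i2 → σ.Sl v := fun y =>
    if σ.dir v y.1.1 ≠ σ.dir v i0 ∧ y.1.2 = t then ⟨σ.dir v y.1.1, σ.base_dir _ _⟩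
    else ⟨σ.dir v i0, σ.base_dir _ _⟩
  have f0 : ∀ y, ¬ (σ.dir v y.1.1 ≠ σ.dir v i0 ∧ y.1.2 = t) ↔
      f y = ⟨σ.dir v i0, σ.base_dir _ _⟩ := by
    intro y
    simp only [f]
    split_ifs with h
    · simp [h.1, h.2]
    · simp only [h, not_false_eq_true]
  have f1 : ∀ s : σ.Sl v, s.1 ≠ σ.dir v i0 → ∀ y, (σ.dir v y.1.1 = s.1 ∧ y.1.2 = t) ↔ f y = s := by
    intro s hs y
    simp only [f]
    split_ifs with h
    · simp [h.2, Subtype.ext_iff]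
    · refine ⟨fun h1 => absurd ⟨h1.1 ▸ hs, h1.2⟩ h, fun h1 => ?_⟩
      exact absurd (congrArg Subtype.val h1).symm hs
  have hf : Function.Surjective f := by
    intro s
    by_cases hs : s.1 = σ.dir v i0
    · exact ⟨⟨(i0, 1), fun _ => rfl⟩, ((f0 _).1 fun h => h.1 rfl).trans (Subtype.ext hs.symm)⟩
    · obtain ⟨y, hy⟩ := dir_RR1 (i2 := i2) 𝔽0 s.2 hs (hv' ▸ hs) t
      exact ⟨y, (f1 s hs y).1 hy⟩
  have h := hwok_pure_fin 𝔽 (fun s : σ.Sl v => z.x s)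
    (fun s s' e => Subtype.ext (z.inj _ _ (s.2.trans s'.2.symm) e)) (fun b => f (o b))
    (hf.comp ho) (le_trans (by norm_num) (σ.three_le_card v))
  rw [fO_eq_prod]
  convert h using 3 with s
  by_cases hs : s.1 = σ.dir v i0
  · obtain rfl : s = ⟨σ.dir v i0, σ.base_dir _ _⟩ := Subtype.ext hs
    simp only [Shape.lab, σ.base_dir]
    rw [if_pos ⟨trivial, hv'.symm⟩, sum_RR1]
    exact val_RR1 𝔽 o ho f hf _ _ f0
  · rw [σ.lab_of_ne _ s.2 hs (hv' ▸ hs)]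
    exact val_RR1 𝔽 o ho f hf _ _ (f1 s hs)

end Pool.Agent.Adm.Pt
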