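import Pool.Agent.Adq.D6
import Pool.Agent.Adq.GC
import Pool.Agent.Adq.RM
import Pool.Agent.Adq.BG
import Pool.Agent.Adq.Tr3

/-! Smooth curves. -/

namespace Pool.Agent.Adm

open Sum

variable {n : ℕ} {σ σ' : Shape n} {i0 i1 i2 : Fin n}

theorem Pt.Q_iff_QS (z : Pt σ) (h : IsEmpty σ.T.Dart) (G : Type) [Group G] :
    z.Q G ↔ QS z.θ (fun l => z.x (inr l)) G := by
  have hs := σ.subsingleton_of_isEmpty h
  obtain ⟨v⟩ := σ.nonempty_vertex
  constructor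
  · rintro ⟨d, R, ⟨h1, -⟩, h2⟩
    have hR : R v = ⊤ := by
      rw [← h2]
      exact le_antisymm (le_iSup R v) (iSup_le fun u => by rw [Subsingleton.elim u v])
    refine ⟨fun l => d (inr l), ?_⟩
    have h3 := VP.reindex (h1 v) (fun l : Fin n => (⟨inr l, Subsingleton.elim _ _⟩ : σ.Sl v)) (by
      rintro ⟨δ | l, hl⟩
      · exact (h.false δ).elim
      · exact ⟨l, rfl⟩)
    rw [hR] at h3
    exact h3
  · rintro ⟨d, hd⟩
    refine ⟨Sum.elim (fun δ => h.elim δ) d, fun _ => ⊤, ⟨fun u => ?_, fun δ => h.elim δ⟩,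
      le_antisymm le_top (le_iSup (fun _ : Fin σ.r => (⊤ : Subgroup G)) v)⟩
    have h3 := VP.reindex hd (fun s : σ.Sl u => Sum.elim (fun δ => h.elim δ) id s.1)
      fun l => ⟨⟨inr l, Subsingleton.elim _ _⟩, rfl⟩
    have e1 : (fun s : σ.Sl u => ((z.x (inr (Sum.elim (fun δ => h.elim δ) id s.1)) : z.k) :
        OnePoint z.k)) = fun s : σ.Sl u => ((z.x s : z.k) : OnePoint z.k) := by
      funext ⟨s, hs⟩
      rcases s with δ | l
      · exact (h.false δ).elim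
      · rfl
    have e2 : (fun s : σ.Sl u => d (Sum.elim (fun δ => h.elim δ) id s.1)) =
        fun s : σ.Sl u => Sum.elim (fun δ => h.elim δ) d s.1 := by
      funext ⟨s, hs⟩
      rcases s with δ | l
      · exact (h.false δ).elim
      · rfl
    rw [e1, e2] at h3
    exact h3

theorem Pt.crs_smooth (z : Pt σ) (h : IsEmpty σ.T.Dart) (v : Fin σ.r) (i0 i1 i2 l : Fin n) :
    z.crs v i0 i1 i2 l = cr (z.x (inr i0)) (z.x (inr i1)) (z.x (inr i2)) (z.x (inr l)) := by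
  simp only [Pt.crs, σ.dir_of_isEmpty h]

theorem Shape.isMed_smooth (h : IsEmpty σ.T.Dart) (v : Fin σ.r) (h01 : i0 ≠ i1) (h02 : i0 ≠ i2)
    (h12 : i1 ≠ i2) : σ.IsMed v i0 i1 i2 := by
  simp only [Shape.IsMed, σ.dir_of_isEmpty h, ne_eq, inr.injEq]
  exact ⟨h01, h02, h12⟩

theorem Pt.injective_smooth (z : Pt σ) (h : IsEmpty σ.T.Dart) :
    Function.Injective fun l => z.x (inr l) := by
  have hs := σ.subsingleton_of_isEmpty h
  intro l l' e
  exact inr_injective (z.inj _ _ (Subsingleton.elim _ _) e)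

theorem Pt.le_of_smooth {z : Pt σ} {z' : Pt σ'} (h : IsEmpty σ.T.Dart) (h' : IsEmpty σ'.T.Dart)
    (τ : Fin n ≃ Fin n) (v : Fin σ.r) (v' : Fin σ'.r) (h01 : i0 ≠ i1) (h02 : i0 ≠ i2)
    (h12 : i1 ≠ i2) (hk : KerLe z.θ (z.crs v i0 i1 i2) z'.θ
      fun l => z'.crs v' (τ i0) (τ i1) (τ i2) (τ l)) : z'.Le z := by
  intro G _ _ hG
  obtain ⟨d, hd⟩ := (z'.Q_iff_QS h' G).1 hG
  refine (z.Q_iff_QS h G).2 ⟨fun l => d (τ l), ?_⟩
  have h1 : VC z'.θ (fun l => z'.x (inr (τ l))) (fun l => d (τ l)) ⊤ :=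
    VP.reindex hd τ τ.surjective
  refine VC.gen_cr ((z'.injective_smooth h').comp τ.injective) (z.injective_smooth h) h01 h02 h12
    ?_ h1
  have e1 : z.crs v i0 i1 i2 =
      fun l => cr (z.x (inr i0)) (z.x (inr i1)) (z.x (inr i2)) (z.x (inr l)) :=
    funext fun l => z.crs_smooth h v i0 i1 i2 l
  simp only [e1, z'.crs_smooth h'] at hk
  exact hk

theorem Pt.Rel.isEmpty {z : Pt σ} {z' : Pt σ'} {τ : Fin n ≃ Fin n} (h : z.Rel z' τ)
    (hs : IsEmpty σ.T.Dart) : IsEmpty σ'.T.Dart := by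
  obtain ⟨v⟩ := σ.nonempty_vertex
  obtain ⟨i0, i1, i2, hm⟩ := σ.exists_triple v
  obtain ⟨h01, h02, h12⟩ := hm.ne
  obtain ⟨v', hm'⟩ := σ'.exists_med (τ.injective.ne h01) (τ.injective.ne h02) (τ.injective.ne h12)
  obtain ⟨h1, h2⟩ := h v v' i0 i1 i2 hm hm'
  have hd : ∀ l, l ≠ i2 → σ.dir v l ≠ σ.dir v i2 := fun l hl e => by
    rw [σ.dir_of_isEmpty hs, σ.dir_of_isEmpty hs] at e
    exact hl (inr_injective e)
  refine σ'.isEmpty_of_injective v' fun a b e => ?_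
  obtain ⟨l, rfl⟩ := τ.surjective a
  obtain ⟨l', rfl⟩ := τ.surjective b
  congr 1
  by_cases hl : l = i2
  · by_contra hne
    exact h1 l' (hd l' fun e' => hne (hl.trans e'.symm)) (by rw [← e, hl])
  by_cases hl' : l' = i2
  · exact absurd (by rw [e, hl']) (h1 l (hd l hl))
  have h3 := h2.eq_of_eq (s := l) (s' := l') (by
    simp only [if_neg (hd l hl), if_neg (hd l' hl'), Pt.crs, e])
  have h4 := (z.crs_eq_iff hm (hd l hl) (hd l' hl')).1 h3
  rw [σ.dir_of_isEmpty hs, σ.dir_of_isEmpty hs] at h4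
  exact inr_injective h4

theorem Pt.Rel.kerLe_smooth {z : Pt σ} {z' : Pt σ'} {τ : Fin n ≃ Fin n} (h : z.Rel z' τ)
    (hs : IsEmpty σ.T.Dart) (hs' : IsEmpty σ'.T.Dart) (v : Fin σ.r) (v' : Fin σ'.r)
    (h01 : i0 ≠ i1) (h02 : i0 ≠ i2) (h12 : i1 ≠ i2) :
    KerLe z'.θ (fun l => z'.crs v' (τ i0) (τ i1) (τ i2) (τ l)) z.θ (z.crs v i0 i1 i2) := by
  have hm' := Shape.isMed_smooth hs' v' (τ.injective.ne h01) (τ.injective.ne h02)
    (τ.injective.ne h12)
  have h2 := (h v v' i0 i1 i2 (Shape.isMed_smooth hs v h01 h02 h12) hm').2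
  have e : (fun l => if σ.dir v l = σ.dir v i2 then 0 else
      z'.crs v' (τ i0) (τ i1) (τ i2) (τ l)) = fun l => z'.crs v' (τ i0) (τ i1) (τ i2) (τ l) := by
    funext l
    split_ifs with hl
    · rw [σ.dir_of_isEmpty hs, σ.dir_of_isEmpty hs] at hl
      rw [inr_injective hl]
      exact ((z'.crs_eq_zero_iff hm' _).2 (Or.inr rfl)).symm
    · rfl
  rw [e] at h2
  exact h2

/-- The cross ratios as polynomials in the free cross ratios. -/
noncomputable def gen_SM (i0 i1 i2 l : Fin n) :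
    MvPolynomial {l // l ≠ i0 ∧ l ≠ i1 ∧ l ≠ i2} K0 :=
  if h : l ≠ i0 ∧ l ≠ i1 ∧ l ≠ i2 then MvPolynomial.X ⟨l, h⟩ else if l = i1 then 1 else 0

theorem eval_gen_SM {k : Type} [Field k] (θ : K0 →+* k) {q : Fin n → k}
    (hq : Function.Injective q) (h01 : i0 ≠ i1) (h12 : i1 ≠ i2) :
    (fun l => MvPolynomial.eval₂ θ (fun l : {l // l ≠ i0 ∧ l ≠ i1 ∧ l ≠ i2} =>
      cr (q i0) (q i1) (q i2) (q l)) (gen_SM i0 i1 i2 l)) =
      fun l => cr (q i0) (q i1) (q i2) (q l) := by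
  funext l
  unfold gen_SM
  split_ifs with h1 h2
  · rw [MvPolynomial.eval₂_X]
  · rw [MvPolynomial.eval₂_one, h2, cr, mul_comm]
    exact (div_self (mul_ne_zero (sub_ne_zero.2 (hq.ne h12)) (sub_ne_zero.2 (hq.ne h01.symm)))).symm
  · rw [MvPolynomial.eval₂_zero, cr]
    by_cases h0 : l = i0
    · rw [h0, sub_self, zero_mul, zero_div]
    · have h3 : l = i2 := by_contra fun h3 => h1 ⟨h0, h2, h3⟩
      rw [h3, sub_self, zero_mul, div_zero]

/-- The generic smooth curve dominates every curve. -/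
theorem Pt.le_top (z : Pt σ) (h : IsEmpty σ.T.Dart) (v : Fin σ.r) (h01 : i0 ≠ i1)
    (h02 : i0 ≠ i2) (h12 : i1 ≠ i2)
    (hi : Indep z.θ fun l : {l // l ≠ i0 ∧ l ≠ i1 ∧ l ≠ i2} => z.crs v i0 i1 i2 l)
    (z' : Pt σ') : z'.Le z := by
  intro G _ _ hG
  obtain ⟨d, hd⟩ := hG
  obtain ⟨k, _, _, θ, p, hp, h1⟩ := hd.geo
  obtain ⟨μ, hμ, h2⟩ := exists_mob_finite p
  choose q hq using fun l : Fin n => OnePoint.ne_infty_iff_exists.1 (h2 ⟨l, trivial⟩)
  have h3 := (h1.mob μ hμ.1).reindex (fun l : Fin n => (⟨l, trivial⟩ : (Set.univ : Set (Fin n))))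
    fun s => ⟨s.1, rfl⟩
  have h4 : VC θ q (fun l => d (inr l)) ⊤ := by
    simp only [← hq] at h3
    exact h3
  have hq' : Function.Injective q := fun l l' e => by
    have e' : μ (p ⟨l, trivial⟩) = μ (p ⟨l', trivial⟩) := by rw [← hq, ← hq, e]
    exact congrArg Subtype.val (hp (μ.injective e'))
  refine (z.Q_iff_QS h G).2 ⟨fun l => d (inr l), VC.gen_cr hq' (z.injective_smooth h) h01 h02 h12
    ?_ h4⟩
  have h5 := (hi.kerLe θ fun l => cr (q i0) (q i1) (q i2) (q l)).bind (gen_SM i0 i1 i2)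
  simp only [z.crs_smooth h] at h5
  rw [eval_gen_SM θ hq' h01 h12, eval_gen_SM z.θ (z.injective_smooth h) h01 h12] at h5
  exact h5

end Pool.Agent.Adm
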