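import Pool.Agent.Adq.SPD

/-! Properties holding for all large enough specialisations. -/

namespace Pool.Agent.Adm

open scoped OnePoint
open Polynomial

variable {K : Type} [Field K] {P P' : ∀ (k : Type) [Field k] [IsAlgClosed k], Spn K k → Prop}

theorem Evt.mono (h : Evt P)
    (hP : ∀ (k : Type) [Field k] [IsAlgClosed k] (S : Spn K k), P k S → P' k S) : Evt P' := by
  obtain ⟨s, hs⟩ := h
  exact ⟨s, fun k _ _ S e => hP k S (hs k S e)⟩

theorem Evt.and (h : Evt P) (h' : Evt P') : Evt (K := K) fun k _ _ S => P k S ∧ P' k S := by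
  classical
  obtain ⟨s, hs⟩ := h
  obtain ⟨s', hs'⟩ := h'
  exact ⟨s ∪ s', fun k _ _ S e => ⟨hs k S fun x hx => e x (Finset.mem_union_left _ hx),
    hs' k S fun x hx => e x (Finset.mem_union_right _ hx)⟩⟩

theorem Evt.all {J : Type} [Finite J]
    {P : J → ∀ (k : Type) [Field k] [IsAlgClosed k], Spn K k → Prop} (h : ∀ j, Evt (P j)) :
    Evt (K := K) fun k _ _ S => ∀ j, P j k S := by
  classical
  have := Fintype.ofFinite J
  choose s hs using h
  exact ⟨Finset.univ.biUnion s, fun k _ _ S e j => hs j k S fun x hx =>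
    e x (Finset.mem_biUnion.2 ⟨j, Finset.mem_univ j, hx⟩)⟩

theorem evt_mem (x : K) : Evt (K := K) fun k _ _ S => ∃ y : k, S.R x y := by
  refine ⟨{x}, fun k _ _ S e => ?_⟩
  obtain ⟨b, hb⟩ := e x (Finset.mem_singleton_self x)
  exact ⟨_, b, hb, rfl⟩

theorem evt_point (a : OnePoint K) : Evt (K := K) fun k _ _ S => ∃ a' : OnePoint k, S.RP a a' := by
  induction a using OnePoint.rec with
  | infty => exact ⟨∅, fun k _ _ S _ => ⟨∞, Or.inl ⟨rfl, rfl⟩⟩⟩
  | coe x => exact (evt_mem x).mono fun k _ _ S ⟨y, h⟩ => ⟨y, Or.inr ⟨x, y, rfl, rfl, h⟩⟩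

theorem evt_ne (x : K) (hx : x ≠ 0) : Evt (K := K) fun k _ _ S => ∀ y : k, S.R x y → y ≠ 0 := by
  refine ⟨{x⁻¹}, fun k _ _ S e y ⟨b, hb, hy⟩ => ?_⟩
  obtain ⟨b', hb'⟩ := e _ (Finset.mem_singleton_self _)
  have h : b * b' = 1 := S.inj (by rw [map_mul, hb, hb', map_one, mul_inv_cancel₀ hx])
  exact left_ne_zero_of_mul_eq_one (b := S.ρ b') (by rw [← hy, ← map_mul, h, map_one])

theorem evt_R1 (D : K[X]) : Evt (K := K) fun k _ _ S => ∃ D' : k[X], S.R1 D D' := by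
  refine ⟨D.coeffs, fun k _ _ S e => ?_⟩
  obtain ⟨E, hE⟩ := (mem_lifts (f := S.i) D).1 ((lifts_iff_coeffs_subset_range D).2 e)
  exact ⟨_, E, hE, rfl⟩

theorem evt_R2 (Q : K[X][X]) : Evt (K := K) fun k _ _ S => ∃ Q' : k[X][X], S.R2 Q Q' := by
  refine (Evt.all fun c : Q.coeffs => evt_R1 c.1).mono fun k _ _ S h => ?_
  obtain ⟨E, hE⟩ := (mem_lifts (f := mapRingHom S.i) Q).1
    ((lifts_iff_coeffs_subset_range Q).2 fun c hc => by
      obtain ⟨_, E, hE, -⟩ := h ⟨c, hc⟩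
      exact ⟨E, hE⟩)
  exact ⟨_, E, hE, rfl⟩

theorem evt_R1_ne (D : K[X]) (hD : D ≠ 0) :
    Evt (K := K) fun k _ _ S => ∀ D' : k[X], S.R1 D D' → D' ≠ 0 := by
  refine (evt_ne D.leadingCoeff (leadingCoeff_ne_zero.2 hD)).mono ?_
  rintro k _ _ S h _ ⟨E, h1, rfl⟩ e
  refine h _ ⟨E.coeff D.natDegree, by rw [← coeff_map, h1, leadingCoeff], rfl⟩ ?_
  rw [← coeff_map, e, coeff_zero]

theorem evt_roots [IsAlgClosed K] (D : K[X]) (hD : D ≠ 0) :
    Evt (K := K) fun k _ _ S => ∀ D' : k[X], S.R1 D D' → ∀ y : k, D'.eval y = 0 →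
      ∃ x : K, D.eval x = 0 ∧ S.R x y := by
  classical
  have h0 : Evt (K := K) fun k _ _ S => ∀ x ∈ D.roots, x ∈ Set.range S.i :=
    ⟨D.roots.toFinset, fun k _ _ S e x hx => e x (Multiset.mem_toFinset.2 hx)⟩
  refine ((evt_ne D.leadingCoeff (leadingCoeff_ne_zero.2 hD)).and h0).mono ?_
  rintro k _ _ S ⟨h1, h2⟩ _ ⟨E, h3, rfl⟩ y hy
  have h4 : S.i (E.coeff D.natDegree) = D.leadingCoeff := by rw [← coeff_map, h3, leadingCoeff]
  have h5 : E = C (E.coeff D.natDegree) *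
      (D.roots.map fun x => X - C (Function.invFun S.i x)).prod := by
    refine map_injective S.i S.inj ?_
    rw [h3, Polynomial.map_mul, map_C, h4, Polynomial.map_multiset_prod, Multiset.map_map]
    conv_lhs => rw [← C_leadingCoeff_mul_prod_multiset_X_sub_C
      (IsAlgClosed.card_roots_eq_natDegree (p := D))]
    congr 2
    refine Multiset.map_congr rfl fun x hx => ?_
    rw [Function.comp_apply, Polynomial.map_sub, map_X, map_C, Function.invFun_eq (h2 x hx)]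
  rw [h5, Polynomial.map_mul, map_C, eval_mul, eval_C, Polynomial.map_multiset_prod,
    eval_multiset_prod, Multiset.map_map, Multiset.map_map] at hy
  obtain ⟨x, hx, h6⟩ := Multiset.mem_map.1 (Multiset.prod_eq_zero_iff.1
    ((mul_eq_zero.1 hy).resolve_left (h1 _ ⟨_, h4, rfl⟩)))
  refine ⟨x, (mem_roots hD).1 hx, _, Function.invFun_eq (h2 x hx), (sub_eq_zero.1 ?_).symm⟩
  simpa using h6

theorem evt_prim (ζ : K) (e : ℕ) (he : 0 < e) (hζ : IsPrimitiveRoot ζ e) :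
    Evt (K := K) fun k _ _ S => ∀ ζ' : k, S.R ζ ζ' → IsPrimitiveRoot ζ' e := by
  refine (Evt.all fun l : Set.Ioo 0 e => evt_ne (ζ ^ l.1 - 1)
    (sub_ne_zero.2 (hζ.pow_ne_one_of_pos_of_lt l.2.1.ne' l.2.2))).mono ?_
  rintro k _ _ S h _ ⟨b, rfl, rfl⟩
  refine IsPrimitiveRoot.mk_of_lt _ he ?_ fun l h1 h2 => sub_ne_zero.1
    (h ⟨l, h1, h2⟩ _ ⟨b ^ l - 1, by simp, by simp⟩)
  have : b ^ e = 1 := S.inj (by rw [map_pow, hζ.pow_eq_one, map_one])
  rw [← map_pow, this, map_one]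

variable {k : Type} [Field k] {S : Spn K k}

theorem Spn.R.unique {x : K} {y y' : k} (h : S.R x y) (h' : S.R x y') : y = y' := by
  obtain ⟨b, rfl, rfl⟩ := h
  obtain ⟨b', h1, rfl⟩ := h'
  rw [S.inj h1]

theorem Spn.RP.unique {a : OnePoint K} {b b' : OnePoint k} (h : S.RP a b) (h' : S.RP a b') :
    b = b' := by
  rcases h with ⟨rfl, rfl⟩ | ⟨x, y, rfl, rfl, h⟩ <;>
    rcases h' with ⟨h1, rfl⟩ | ⟨x', y', h1, rfl, h'⟩
  · rfl
  · exact absurd h1 (OnePoint.infty_ne_coe _)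
  · exact absurd h1 (OnePoint.coe_ne_infty _)
  · obtain rfl := OnePoint.coe_injective h1
    rw [h.unique h']

theorem Spn.R1.unique {D : K[X]} {E E' : k[X]} (h : S.R1 D E) (h' : S.R1 D E') : E = E' := by
  obtain ⟨b, rfl, rfl⟩ := h
  obtain ⟨b', h1, rfl⟩ := h'
  rw [map_injective S.i S.inj h1]

theorem Spn.R2.monic {Q : K[X][X]} {Q' : k[X][X]} (h : S.R2 Q Q') (hQ : Q.Monic) :
    Q'.Monic ∧ Q'.natDegree = Q.natDegree := by
  obtain ⟨E, rfl, rfl⟩ := h
  have hi : Function.Injective (mapRingHom S.i) := map_injective S.i S.inj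
  have h1 : E.Monic := monic_of_injective hi hQ
  exact ⟨h1.map _, by rw [h1.natDegree_map, h1.natDegree_map]⟩

/-- A Bezout identity specialises. -/
theorem Spn.bezout {Q U W : K[X][X]} {Q' U' W' : k[X][X]} {D : K[X]} {D' : k[X]} (hQ : S.R2 Q Q')
    (hU : S.R2 U U') (hW : S.R2 W W') (hD : S.R1 D D') (h : U * Q + W * derivative Q = C D) :
    U' * Q' + W' * derivative Q' = C D' := by
  obtain ⟨Q, rfl, rfl⟩ := hQ
  obtain ⟨U, rfl, rfl⟩ := hU
  obtain ⟨W, rfl, rfl⟩ := hW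
  obtain ⟨D, rfl, rfl⟩ := hD
  have h1 : U * Q + W * derivative Q = C D :=
    map_injective (mapRingHom S.i) (map_injective S.i S.inj) (by
      simpa only [Polynomial.map_add, Polynomial.map_mul, map_C, ← derivative_map,
        coe_mapRingHom] using h)
  simpa only [Polynomial.map_add, Polynomial.map_mul, map_C, ← derivative_map,
    coe_mapRingHom] using congrArg (Polynomial.map (mapRingHom S.ρ)) h1

end Pool.Agent.Adm
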