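import Pool.Agent.Adq.SPD

/-! The theorem of Eisenstein on coefficients of algebraic series. -/

namespace Pool.Agent.Adm

open Polynomial

variable {K : Type} [Field K]

/-- Power series with coefficients in a subring. -/
def RB_SP1 (B : Subring K) : Subring (PowerSeries K) where
  carrier := {f | ∀ n, PowerSeries.coeff n f ∈ B}
  mul_mem' := fun {f g} hf hg n => by
    rw [PowerSeries.coeff_mul]
    exact B.sum_mem fun p _ => B.mul_mem (hf _) (hg _)
  one_mem' := fun n => by
    rw [PowerSeries.coeff_one]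
    split_ifs
    · exact B.one_mem
    · exact B.zero_mem
  add_mem' := fun {f g} hf hg n => by
    rw [map_add]
    exact B.add_mem (hf n) (hg n)
  zero_mem' := fun n => by
    rw [map_zero]
    exact B.zero_mem
  neg_mem' := fun {f} hf n => by
    rw [map_neg]
    exact B.neg_mem (hf n)

/-- Laurent series with coefficients in a subring. -/
def LB_SP1 (B : Subring K) : Subring (LaurentSeries K) where
  carrier := {f | ∀ n, f.coeff n ∈ B}
  mul_mem' := fun {f g} hf hg n => by
    rw [HahnSeries.coeff_mul]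
    exact B.sum_mem fun p _ => B.mul_mem (hf _) (hg _)
  one_mem' := fun n => by
    rw [HahnSeries.coeff_one]
    split_ifs
    · exact B.one_mem
    · exact B.zero_mem
  add_mem' := fun {f g} hf hg n => by
    rw [HahnSeries.coeff_add]
    exact B.add_mem (hf n) (hg n)
  zero_mem' := fun n => by
    rw [HahnSeries.coeff_zero]
    exact B.zero_mem
  neg_mem' := fun {f} hf n => by
    rw [HahnSeries.coeff_neg]
    exact B.neg_mem (hf n)

theorem single_mem_SP1 {B : Subring K} (m : ℤ) {c : K} (hc : c ∈ B) :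
    (HahnSeries.single m c : LaurentSeries K) ∈ LB_SP1 B := fun n => by
  rw [HahnSeries.coeff_single]
  split_ifs
  · exact hc
  · exact B.zero_mem

theorem coe_mem_SP1 {B : Subring K} {f : PowerSeries K} (hf : f ∈ RB_SP1 B) :
    HahnSeries.ofPowerSeries ℤ K f ∈ LB_SP1 B := fun n => by
  rw [PowerSeries.coeff_coe]
  split_ifs
  · exact B.zero_mem
  · exact hf _

theorem mem_of_coe_SP1 {B : Subring K} {f : PowerSeries K}
    (hf : HahnSeries.ofPowerSeries ℤ K f ∈ LB_SP1 B) : f ∈ RB_SP1 B := fun n => by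
  rw [← LaurentSeries.coeff_coe_powerSeries]
  exact hf _

theorem eval₂_mem_SP1 {R S : Type} [CommRing R] [CommRing S] (φ : R →+* S) (A : Subring S)
    (P : R[X]) {y : S} (hP : ∀ i, φ (P.coeff i) ∈ A) (hy : y ∈ A) : P.eval₂ φ y ∈ A := by
  rw [eval₂_eq_sum_range]
  exact A.sum_mem fun i _ => A.mul_mem (hP i) (A.pow_mem hy i)

theorem step_SP1 {B : Subring K} {P : (PowerSeries K)[X]} (hP : ∀ i, P.coeff i ∈ RB_SP1 B)
    {y v : PowerSeries K} {m : ℕ} (h : P.eval y = 0)
    (h' : P.derivative.eval y = PowerSeries.X ^ m * v)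
    (hv : PowerSeries.constantCoeff v ≠ 0) (hc : (PowerSeries.constantCoeff v)⁻¹ ∈ B)
    {n : ℕ} (hn : m < n) (ih : ∀ j < n, PowerSeries.coeff j y ∈ B) :
    PowerSeries.coeff n y ∈ B := by
  obtain ⟨w, hw, hw0⟩ : ∃ w : PowerSeries K,
      y = PowerSeries.X ^ n * w + ((PowerSeries.trunc n y : K[X]) : PowerSeries K) ∧
        PowerSeries.constantCoeff w = PowerSeries.coeff n y :=
    ⟨_, PowerSeries.eq_X_pow_mul_shift_add_trunc n y, by simp⟩
  have ht : ((PowerSeries.trunc n y : K[X]) : PowerSeries K) ∈ RB_SP1 B := fun j => by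
    rw [Polynomial.coeff_coe, PowerSeries.coeff_trunc]
    split_ifs with hj
    · exact ih j hj
    · exact B.zero_mem
  have he : P.eval ((PowerSeries.trunc n y : K[X]) : PowerSeries K) ∈ RB_SP1 B :=
    eval₂_mem_SP1 (RingHom.id _) _ P hP ht
  obtain ⟨k, hk⟩ := P.binomExpansion y (-(PowerSeries.X ^ n * w))
  have e1 : y + -(PowerSeries.X ^ n * w) =
      ((PowerSeries.trunc n y : K[X]) : PowerSeries K) := by
    linear_combination hw
  obtain ⟨d, rfl⟩ := Nat.exists_eq_add_of_lt hn
  have e2 : P.eval ((PowerSeries.trunc (m + d + 1) y : K[X]) : PowerSeries K) =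
      PowerSeries.X ^ (m + (m + d + 1)) *
        (-(v * w) + PowerSeries.X * (PowerSeries.X ^ d * k * w ^ 2)) := by
    rw [← e1, hk, h, h']
    ring
  have e3 := he (0 + (m + (m + d + 1)))
  rw [e2, PowerSeries.coeff_X_pow_mul, PowerSeries.coeff_zero_eq_constantCoeff, map_add, map_mul,
    PowerSeries.constantCoeff_X, zero_mul, add_zero, map_neg, map_mul, hw0] at e3
  have e4 := B.mul_mem hc (B.neg_mem e3)
  rwa [neg_neg, inv_mul_cancel_left₀ hv] at e4

theorem core_SP1 (s0 : Finset K) {P : (PowerSeries K)[X]}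
    (hP : ∀ i, P.coeff i ∈ RB_SP1 (Subring.closure (s0 : Set K))) {y : PowerSeries K}
    (h : P.eval y = 0) (h' : P.derivative.eval y ≠ 0) :
    ∃ s : Finset K, y ∈ RB_SP1 (Subring.closure (s : Set K)) := by
  classical
  obtain ⟨m, v, hm, hv⟩ : ∃ (m : ℕ) (v : PowerSeries K),
      P.derivative.eval y = PowerSeries.X ^ m * v ∧ PowerSeries.constantCoeff v ≠ 0 :=
    ⟨_, _, PowerSeries.X_pow_order_mul_divXPowOrder.symm,
      fun h0 => h' (PowerSeries.constantCoeff_divXPowOrder_eq_zero_iff.1 h0)⟩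
  refine ⟨insert (PowerSeries.constantCoeff v)⁻¹
    (s0 ∪ (Finset.range (m + 1)).image fun j => PowerSeries.coeff j y), fun n => ?_⟩
  induction n using Nat.strong_induction_on with
  | _ n ih =>
    by_cases hn : m < n
    · refine step_SP1 (fun i j => Subring.closure_mono ?_ (hP i j)) h hm hv
        (Subring.subset_closure (Finset.mem_insert_self _ _)) hn ih
      exact Finset.coe_subset.2 (Finset.subset_union_left.trans (Finset.subset_insert _ _))
    · exact Subring.subset_closure (Finset.mem_insert_of_mem (Finset.mem_union_right _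
        (Finset.mem_image.2 ⟨n, Finset.mem_range.2 (by omega), rfl⟩)))

theorem coeffs_SP1 (P : K[X][X]) (a : K) : ∃ s : Finset K, a ∈ Subring.closure (s : Set K) ∧
    ∀ i n, (P.coeff i).coeff n ∈ Subring.closure (s : Set K) := by
  classical
  refine ⟨insert a (P.coeffs.biUnion Polynomial.coeffs),
    Subring.subset_closure (Finset.mem_insert_self _ _), fun i n => ?_⟩
  by_cases h : (P.coeff i).coeff n = 0
  · rw [h]
    exact Subring.zero_mem _
  · refine Subring.subset_closure (Finset.mem_insert_of_mem (Finset.mem_biUnion.2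
      ⟨P.coeff i, coeff_mem_coeffs fun h0 => h ?_, coeff_mem_coeffs h⟩))
    rw [h0, coeff_zero]

theorem coreL_SP1 (s0 : Finset K) {Q : (LaurentSeries K)[X]}
    (hQ : ∀ i, Q.coeff i ∈ LB_SP1 (Subring.closure (s0 : Set K))) {y : LaurentSeries K}
    (h : Q.eval y = 0) (h' : Q.derivative.eval y ≠ 0) :
    ∃ s : Finset K, y ∈ LB_SP1 (Subring.closure (s : Set K)) := by
  obtain ⟨ν, u, hy⟩ : ∃ (ν : ℤ) (u : PowerSeries K),
      (HahnSeries.single ν 1 : LaurentSeries K) * HahnSeries.ofPowerSeries ℤ K u = y :=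
    ⟨_, _, LaurentSeries.single_order_mul_powerSeriesPart y⟩
  obtain ⟨b, ⟨M, rfl⟩, hb⟩ := IsLocalization.integerNormalization_spec
    (Submonoid.powers (PowerSeries.X : PowerSeries K))
    (Q.comp (C (HahnSeries.single ν 1 : LaurentSeries K) * X))
  generalize IsLocalization.integerNormalization
    (Submonoid.powers (PowerSeries.X : PowerSeries K))
    (Q.comp (C (HahnSeries.single ν 1 : LaurentSeries K) * X)) = P at hb
  rw [← IsScalarTower.algebraMap_smul (LaurentSeries K), smul_eq_C_mul] at hb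
  have hf : algebraMap (PowerSeries K) (LaurentSeries K) = HahnSeries.ofPowerSeries ℤ K := rfl
  rw [hf, HahnSeries.ofPowerSeries_X_pow] at hb
  have hinj : Function.Injective (HahnSeries.ofPowerSeries ℤ K) :=
    HahnSeries.ofPowerSeries_injective
  have hne : ∀ m : ℤ, (HahnSeries.single m 1 : LaurentSeries K) ≠ 0 := fun m =>
    HahnSeries.single_ne_zero one_ne_zero
  obtain ⟨s, hs⟩ := core_SP1 s0 (P := P) (y := u) (fun i => mem_of_coe_SP1 (by
      rw [← coeff_map, hb, coeff_C_mul, comp_C_mul_X_coeff]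
      exact Subring.mul_mem _ (single_mem_SP1 _ (Subring.one_mem _)) (Subring.mul_mem _ (hQ i)
        (Subring.pow_mem _ (single_mem_SP1 _ (Subring.one_mem _)) _))))
    (hinj (by
      rw [← eval_map_apply, hb, eval_mul, eval_comp, eval_mul, eval_C, eval_C, eval_X, hy, h,
        mul_zero, map_zero]))
    (fun h0 => by
      have h1 := congrArg (HahnSeries.ofPowerSeries ℤ K) h0
      rw [← eval_map_apply, ← derivative_map, hb, derivative_C_mul, derivative_comp,
        derivative_C_mul_X, eval_mul, eval_mul, eval_comp, eval_mul, eval_C, eval_C, eval_X, hy,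
        map_zero] at h1
      exact mul_ne_zero (hne _) (mul_ne_zero (hne _) h') h1)
  refine ⟨s, ?_⟩
  rw [← hy]
  exact Subring.mul_mem _ (single_mem_SP1 _ (Subring.one_mem _)) (coe_mem_SP1 hs)

theorem eisenstein_ps (P : K[X][X]) (y : PowerSeries K)
    (h : P.eval₂ (Polynomial.coeToPowerSeries.ringHom) y = 0)
    (h' : (derivative P).eval₂ (Polynomial.coeToPowerSeries.ringHom) y ≠ 0) :
    ∃ s : Finset K, ∀ n, PowerSeries.coeff n y ∈ Subring.closure (s : Set K) := by
  obtain ⟨s0, -, hs0⟩ := coeffs_SP1 P 0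
  refine core_SP1 s0 (P := P.map Polynomial.coeToPowerSeries.ringHom) (fun i n => ?_) ?_ ?_
  · rw [coeff_map, Polynomial.coeToPowerSeries.ringHom_apply, Polynomial.coeff_coe]
    exact hs0 i n
  · rwa [eval_map]
  · rwa [derivative_map, eval_map]

theorem eisenstein (a : OnePoint K) (e : ℕ) (Q : K[X][X]) (y : LaurentSeries K)
    (h : Q.eval₂ (evL (expand a e)) y = 0) (h' : (derivative Q).eval₂ (evL (expand a e)) y ≠ 0) :
    ∃ s : Finset K, ∀ n, y.coeff n ∈ Subring.closure (s : Set K) := by
  obtain ⟨s0, ha, hs0⟩ := coeffs_SP1 Q (a.elim 0 id)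
  have hu : expand a e ∈ LB_SP1 (Subring.closure (s0 : Set K)) := by
    induction a using OnePoint.rec with
    | infty => exact single_mem_SP1 _ (Subring.one_mem _)
    | coe b =>
      exact Subring.add_mem _ (single_mem_SP1 0 ha) (single_mem_SP1 _ (Subring.one_mem _))
  refine coreL_SP1 s0 (Q := Q.map (evL (expand a e))) (fun i => ?_) ?_ ?_
  · rw [coeff_map]
    exact eval₂_mem_SP1 _ _ _ (fun n => single_mem_SP1 0 (hs0 i n)) hu
  · rwa [eval_map]
  · rwa [derivative_map, eval_map]

end Pool.Agent.Adm
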