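import Pool.Agent.Adq.SPD

/-! Specialisation of Laurent series. -/

namespace Pool.Agent.Adm

open Polynomial

variable {K k : Type} [Field K] [Field k]

/-- Coefficientwise application of a ring homomorphism. -/
noncomputable def mapH_SP2 {A A' : Type} [CommRing A] [CommRing A'] (f : A →+* A') :
    HahnSeries ℤ A →+* HahnSeries ℤ A' where
  toFun x := x.map f
  map_one' := HahnSeries.map_one f.toMonoidWithZeroHom
  map_zero' := by ext n; simp
  map_add' x y := by ext n; simp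
  map_mul' x y := HahnSeries.map_mul f.toNonUnitalRingHom

theorem mapH_coeff_SP2 {A A' : Type} [CommRing A] [CommRing A'] (f : A →+* A')
    (x : HahnSeries ℤ A) (n : ℤ) : (mapH_SP2 f x).coeff n = f (x.coeff n) := rfl

theorem mapH_single_SP2 {A A' : Type} [CommRing A] [CommRing A'] (f : A →+* A') (n : ℤ) (c : A) :
    mapH_SP2 f (HahnSeries.single n c) = HahnSeries.single n (f c) := by
  ext m
  by_cases hm : m = n <;> simp [mapH_coeff_SP2, hm, HahnSeries.coeff_single]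

theorem mapH_C_SP2 {A A' : Type} [CommRing A] [CommRing A'] (f : A →+* A') (c : A) :
    mapH_SP2 f (HahnSeries.C c) = HahnSeries.C (f c) := by
  rw [HahnSeries.C_apply, mapH_single_SP2, HahnSeries.C_apply]

theorem mapH_inj_SP2 {A A' : Type} [CommRing A] [CommRing A'] {f : A →+* A'}
    (hf : Function.Injective f) : Function.Injective (mapH_SP2 f) := fun x y e => by
  ext n
  exact hf (congrArg (fun w : HahnSeries ℤ A' => w.coeff n) e)

theorem mapH_comp_SP2 {A : Type} [CommRing A] (f : A →+* K) (u : HahnSeries ℤ A) :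
    (mapH_SP2 f).comp (eval₂RingHom HahnSeries.C u) =
      (evL (mapH_SP2 f u)).comp (mapRingHom f) := by
  apply Polynomial.ringHom_ext
  · intro c
    simp [evL, mapH_C_SP2, -HahnSeries.C_apply]
  · simp [evL]

theorem mapH_ev1_SP2 {A : Type} [CommRing A] (f : A →+* K) (u : HahnSeries ℤ A) (E : A[X]) :
    mapH_SP2 f (eval₂RingHom HahnSeries.C u E) = evL (mapH_SP2 f u) (E.map f) :=
  DFunLike.congr_fun (mapH_comp_SP2 f u) E

theorem mapH_ev2_SP2 {A : Type} [CommRing A] (f : A →+* K) (u y : HahnSeries ℤ A) (E : A[X][X]) :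
    mapH_SP2 f (E.eval₂ (eval₂RingHom HahnSeries.C u) y) =
      (E.map (mapRingHom f)).eval₂ (evL (mapH_SP2 f u)) (mapH_SP2 f y) := by
  rw [hom_eval₂, mapH_comp_SP2, eval₂_map]

theorem Spn.mem_range_of_closure (S : Spn K k) (s : Finset K) (hs : ∀ x ∈ s, x ∈ Set.range S.i)
    {x : K} (hx : x ∈ Subring.closure (s : Set K)) : x ∈ Set.range S.i :=
  (Subring.closure_le (t := S.i.range)).2 (fun y hy => hs y hy) hx

theorem unit_map_SP2 {A : Type} [CommRing A] (f : A →+* K) (v : Aˣ) (n : ℤ) :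
    f ((v ^ n : Aˣ) : A) = f v ^ n := by
  have : f ((v ^ n : Aˣ) : A) = ((Units.map (f : A →* K) (v ^ n) : Kˣ) : K) := rfl
  rw [this, map_zpow, Units.val_zpow_eq_zpow_val]
  rfl

theorem Spn.exists_series (S : Spn K k) (y : LaurentSeries K)
    (hy : ∀ n, y.coeff n ∈ Set.range S.i) (a : OnePoint K) (a' : OnePoint k) (ha : S.RP a a')
    (e : ℕ) :
    ∃ y' : LaurentSeries k,
      (∀ (F : K[X][X]) (F' : k[X][X]), S.R2 F F' → F.eval₂ (evL (expand a e)) y = 0 →
        F'.eval₂ (evL (expand a' e)) y' = 0) ∧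
      ∀ (ζ : K) (ζ' : k) (h : ζ ≠ 0) (h' : ζ' ≠ 0) (m : ℕ), 0 < m → ζ ^ m = 1 → S.R ζ ζ' →
        ∀ (D : K[X]) (D' : k[X]) (F : K[X][X]) (F' : k[X][X]), S.R1 D D' → S.R2 F F' →
          evL (expand a e) D * scL ζ h y = F.eval₂ (evL (expand a e)) y →
          evL (expand a' e) D' * scL ζ' h' y' = F'.eval₂ (evL (expand a' e)) y' := by
  choose c hc using hy
  have hc0 : ∀ n, c n ≠ 0 → y.coeff n ≠ 0 := fun n h0 e0 =>
    h0 (S.inj (by rw [hc, e0, map_zero]))
  let yB : HahnSeries ℤ S.B := ⟨c, y.isPWO_support.mono fun n hn => hc0 n hn⟩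
  have hyB : mapH_SP2 S.i yB = y := by
    ext n
    exact hc n
  obtain ⟨uB, hu, hu'⟩ : ∃ uB : HahnSeries ℤ S.B, mapH_SP2 S.i uB = expand a e ∧
      mapH_SP2 S.ρ uB = expand a' e := by
    rcases ha with ⟨rfl, rfl⟩ | ⟨x, x', rfl, rfl, b, rfl, rfl⟩
    · exact ⟨HahnSeries.single (-(e : ℤ)) 1, by rw [mapH_single_SP2, map_one]; rfl,
        by rw [mapH_single_SP2, map_one]; rfl⟩
    · exact ⟨HahnSeries.C b + HahnSeries.single (e : ℤ) 1,
        by rw [map_add, mapH_single_SP2, mapH_C_SP2, map_one]; rfl,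
        by rw [map_add, mapH_single_SP2, mapH_C_SP2, map_one]; rfl⟩
  refine ⟨mapH_SP2 S.ρ yB, ?_, ?_⟩
  · rintro _ _ ⟨E, rfl, rfl⟩ h0
    rw [← hu, ← hyB, ← mapH_ev2_SP2] at h0
    rw [← hu', ← mapH_ev2_SP2, mapH_inj_SP2 S.inj (h0.trans (map_zero _).symm), map_zero]
  · rintro _ _ h h' m hm hζ ⟨b, rfl, rfl⟩ _ _ _ _ ⟨D, rfl, rfl⟩ ⟨E, rfl, rfl⟩ h0
    have hb : b ^ m = 1 := S.inj (by rw [map_pow, hζ, map_one])
    let v : S.Bˣ := Units.ofPowEqOne b m hb hm.ne'
    have hv : (v : S.B) = b := rfl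
    let zB : HahnSeries ℤ S.B := ⟨fun n => ((v ^ n : S.Bˣ) : S.B) * c n,
      y.isPWO_support.mono fun n hn => hc0 n (right_ne_zero_of_mul hn)⟩
    have hz : mapH_SP2 S.i zB = scL (S.i b) h y := by
      ext n
      change S.i (((v ^ n : S.Bˣ) : S.B) * c n) = S.i b ^ n * y.coeff n
      rw [map_mul, unit_map_SP2, hc, hv]
    have hz' : mapH_SP2 S.ρ zB = scL (S.ρ b) h' (mapH_SP2 S.ρ yB) := by
      ext n
      change S.ρ (((v ^ n : S.Bˣ) : S.B) * c n) = S.ρ b ^ n * S.ρ (c n)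
      rw [map_mul, unit_map_SP2, hv]
    rw [← hz, ← hu, ← hyB, ← mapH_ev2_SP2, ← mapH_ev1_SP2, ← map_mul] at h0
    rw [← hz', ← hu', ← mapH_ev2_SP2, ← mapH_ev1_SP2, ← map_mul, mapH_inj_SP2 S.inj h0]

end Pool.Agent.Adm
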