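import Pool.Agent.Adq.SP0

/-! Irreducibility spreads out. -/

namespace Pool.Agent.Adm

open Polynomial

variable {K : Type} [Field K] [IsAlgClosed K]

theorem evt_no_zero {ι τ : Type} [Finite ι] [Finite τ] (F : ι → MvPolynomial τ K)
    (h : ¬ ∃ x : τ → K, ∀ i, MvPolynomial.eval x (F i) = 0) :
    Evt (K := K) fun k _ _ S => ∀ E : ι → MvPolynomial τ S.B,
      (∀ i, MvPolynomial.map S.i (E i) = F i) →
      ¬ ∃ x : τ → k, ∀ i, MvPolynomial.eval₂ S.ρ x (E i) = 0 := by
  classical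
  have := Fintype.ofFinite ι
  have htop : Ideal.span (Set.range F) = ⊤ := by
    by_contra hne
    obtain ⟨m, hm, hle⟩ := Ideal.exists_le_maximal _ hne
    obtain ⟨x, rfl⟩ := MvPolynomial.isMaximal_iff_eq_vanishingIdeal_singleton.1 hm
    refine h ⟨x, fun i => ?_⟩
    have h1 := (MvPolynomial.mem_vanishingIdeal_singleton_iff x (F i)).1
      (hle (Ideal.subset_span ⟨i, rfl⟩))
    rwa [MvPolynomial.aeval_eq_eval] at h1
  obtain ⟨u, hu⟩ := Ideal.mem_span_range_iff_exists_fun.1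
    ((Ideal.eq_top_iff_one _).1 htop)
  refine ⟨Finset.univ.biUnion fun i => (u i).coeffs, fun k _ _ S hS E hE => ?_⟩
  have hU : ∀ i, ∃ U : MvPolynomial τ S.B, MvPolynomial.map S.i U = u i := fun i =>
    MvPolynomial.mem_range_map_iff_coeffs_subset.2 fun c hc =>
      hS c (Finset.mem_biUnion.2 ⟨i, Finset.mem_univ _, hc⟩)
  choose U hU using hU
  have h1 : ∑ i, U i * E i = 1 := by
    apply MvPolynomial.map_injective S.i S.inj
    rw [map_sum, map_one, ← hu]
    exact Finset.sum_congr rfl fun i _ => by rw [map_mul, hU, hE]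
  rintro ⟨x, hx⟩
  have h2 := congrArg (MvPolynomial.eval₂Hom S.ρ x) h1
  rw [map_sum, map_one, Finset.sum_eq_zero fun i _ => by
    rw [map_mul, MvPolynomial.coe_eval₂Hom, hx, mul_zero]] at h2
  exact zero_ne_one h2

theorem coeff_swap_SP3 {R : Type} [CommRing R] (Q : R[X][X]) (i j : ℕ) :
    ((Bivariate.swap Q).coeff i).coeff j = (Q.coeff j).coeff i := by
  induction Q using Polynomial.induction_on' with
  | add p q hp hq => simp only [map_add, coeff_add, hp, hq]
  | monomial n f =>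
    rw [Bivariate.swap_monomial, coeff_mul_C, coeff_map, coeff_C_mul, coeff_X_pow, coeff_monomial]
    by_cases h : j = n
    · simp [h]
    · simp [h, Ne.symm h]

theorem natDegree_swap_SP3 {R : Type} [CommRing R] (Q : R[X][X]) (M : ℕ) :
    (Bivariate.swap Q).natDegree ≤ M ↔ ∀ i, (Q.coeff i).natDegree ≤ M := by
  simp only [natDegree_le_iff_coeff_eq_zero]
  constructor
  · intro h i N hN
    rw [← coeff_swap_SP3, h N hN, coeff_zero]
  · intro h N hN
    ext j
    rw [coeff_swap_SP3, h j N hN, coeff_zero]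

/-- A reducible monic polynomial has monic factors of bounded degrees. -/
theorem exists_factors {k : Type} [Field k] (Q : k[X][X]) (hQ : Q.Monic) (h0 : 0 < Q.natDegree)
    (M : ℕ) (hM : ∀ i, (Q.coeff i).natDegree ≤ M)
    (h : ¬ Irreducible (Q.map (algebraMap k[X] (RatFunc k)))) :
    ∃ Q1 Q2 : k[X][X], Q1.Monic ∧ Q2.Monic ∧ 0 < Q1.natDegree ∧ 0 < Q2.natDegree ∧ Q1 * Q2 = Q ∧
      (∀ i, (Q1.coeff i).natDegree ≤ M) ∧ ∀ i, (Q2.coeff i).natDegree ≤ M := by
  have h1 : ¬ Irreducible Q := fun h' =>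
    h ((hQ.irreducible_iff_irreducible_map_fraction_map (K := RatFunc k)).1 h')
  have h2 : Q ≠ 1 := by
    rintro rfl
    simp at h0
  rw [hQ.irreducible_iff_natDegree, and_iff_right h2] at h1
  push Not at h1
  obtain ⟨Q1, Q2, m1, m2, e, d1, d2⟩ := h1
  have s1 : Bivariate.swap Q1 ≠ 0 := (map_ne_zero_iff _ Bivariate.swap.injective).2 m1.ne_zero
  have s2 : Bivariate.swap Q2 ≠ 0 := (map_ne_zero_iff _ Bivariate.swap.injective).2 m2.ne_zero
  have h3 := (natDegree_swap_SP3 Q M).2 hM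
  rw [← e, map_mul, natDegree_mul s1 s2] at h3
  exact ⟨Q1, Q2, m1, m2, Nat.pos_of_ne_zero d1, Nat.pos_of_ne_zero d2, e,
    (natDegree_swap_SP3 Q1 M).1 (by omega), (natDegree_swap_SP3 Q2 M).1 (by omega)⟩

end Pool.Agent.Adm
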