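import Pool.Agent.Adq.SP3

/-! Irreducibility spreads out. -/

namespace Pool.Agent.Adm

open Polynomial

/-- A polynomial in two variables with given coefficients. -/
noncomputable def genv_SP3b {A : Type} [CommRing A] {d M : ℕ} (x : Fin d × Fin M → A) :
    A[X][X] := ∑ i : Fin d, monomial i (∑ j : Fin M, monomial j (x (i, j)))

/-- The defect of a factorisation. -/
noncomputable def dfc_SP3b {A : Type} [CommRing A] {d M : ℕ} (x : Bool × Fin d × Fin M → A)
    (Q : A[X][X]) : A[X][X] :=
  genv_SP3b (fun t => x (true, t)) * genv_SP3b (fun t => x (false, t)) - Q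

theorem coeff_SP3b {A A' : Type} [CommRing A] [CommRing A'] {d M : ℕ} (f : A →+* A')
    (x : Bool × Fin d × Fin M → A) (Q : A[X][X]) (i j : ℕ) :
    f (((dfc_SP3b x Q).coeff i).coeff j) =
      ((dfc_SP3b (fun t => f (x t)) (Q.map (mapRingHom f))).coeff i).coeff j := by
  have : (dfc_SP3b x Q).map (mapRingHom f) =
      dfc_SP3b (fun t => f (x t)) (Q.map (mapRingHom f)) := by
    simp [dfc_SP3b, genv_SP3b, Polynomial.map_sum]
  rw [← this, coeff_map, coe_mapRingHom, coeff_map]

theorem deg_SP3b {A : Type} [CommRing A] {d M : ℕ} (hd : 0 < d) (x : Fin d × Fin M → A) :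
    (genv_SP3b x).natDegree < d :=
  lt_of_le_of_lt (natDegree_sum_le_of_forall_le (n := d - 1) _ _ fun i _ =>
    (natDegree_monomial_le _).trans (by omega)) (by omega)

theorem eq_SP3b {A : Type} [CommRing A] {d M : ℕ} {Q : A[X][X]} (hd : Q.natDegree < d)
    (hM : ∀ i, (Q.coeff i).natDegree ≤ M) :
    genv_SP3b (fun t : Fin d × Fin (M + 1) => (Q.coeff t.1).coeff t.2) = Q := by
  conv_rhs => rw [Q.as_sum_range' d hd, Finset.sum_range]
  refine Finset.sum_congr rfl fun i _ => ?_
  conv_rhs => rw [(Q.coeff i).as_sum_range' (M + 1) (Nat.lt_succ_of_le (hM i)), Finset.sum_range]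

theorem mapmap_SP3b {A A' A'' : Type} [CommRing A] [CommRing A'] [CommRing A''] (f : A →+* A')
    (g : A' →+* A'') (Q : A[X][X]) :
    (Q.map (mapRingHom f)).map (mapRingHom g) = Q.map (mapRingHom (g.comp f)) := by
  rw [Polynomial.map_map, mapRingHom_comp]

theorem mapC_SP3b {A A' τ : Type} [CommRing A] [CommRing A'] {f : A →+* A'} {E : A[X][X]}
    {Q : A'[X][X]} (h : E.map (mapRingHom f) = Q) :
    (E.map (mapRingHom (MvPolynomial.C (σ := τ)))).map (mapRingHom (MvPolynomial.map f)) =
      Q.map (mapRingHom MvPolynomial.C) := by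
  rw [← h, mapmap_SP3b, mapmap_SP3b]
  congr 2
  ext
  simp

theorem evt_irreducible {K : Type} [Field K] [IsAlgClosed K] (Q : K[X][X]) (hQ : Q.Monic)
    (h : Irreducible (Q.map (algebraMap K[X] (RatFunc K)))) :
    Evt (K := K) fun k _ _ S => ∀ Q' : k[X][X], S.R2 Q Q' →
      Irreducible (Q'.map (algebraMap k[X] (RatFunc k))) := by
  have hinj : Function.Injective (algebraMap K[X] (RatFunc K)) := IsFractionRing.injective _ _
  have hd : 0 < Q.natDegree := by
    rw [← natDegree_map_eq_of_injective hinj]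
    exact h.natDegree_pos
  obtain ⟨M, hM⟩ : ∃ M, ∀ i, (Q.coeff i).natDegree ≤ M :=
    ⟨Q.support.sup fun i => (Q.coeff i).natDegree, fun i => by
      by_cases e : i ∈ Q.support
      · exact Finset.le_sup (f := fun i => (Q.coeff i).natDegree) e
      · simp [notMem_support_iff.1 e]⟩
  let P : (MvPolynomial (Bool × Fin Q.natDegree × Fin (M + 1)) K)[X][X] :=
    dfc_SP3b MvPolynomial.X (Q.map (mapRingHom MvPolynomial.C))
  refine (evt_no_zero (ι := Σ i : P.support, (P.coeff i).support)
    (fun t => (P.coeff t.1).coeff t.2) ?_).mono ?_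
  · rintro ⟨x, hx⟩
    have h1 : dfc_SP3b x Q = 0 := by
      ext i j
      have e := coeff_SP3b (MvPolynomial.eval x) MvPolynomial.X
        (Q.map (mapRingHom MvPolynomial.C)) i j
      rw [mapmap_SP3b, show (MvPolynomial.eval x).comp MvPolynomial.C = RingHom.id K by
        ext; simp, mapRingHom_id, Polynomial.map_id] at e
      simp only [MvPolynomial.eval_X] at e
      rw [← e, coeff_zero, coeff_zero]
      by_cases e2 : (P.coeff i).coeff j = 0
      · rw [e2, map_zero]
      · exact hx ⟨⟨i, mem_support_iff.2 fun e3 => e2 (by rw [e3, coeff_zero])⟩,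
          ⟨j, mem_support_iff.2 e2⟩⟩
    have h2 := congrArg (Polynomial.map (algebraMap K[X] (RatFunc K))) (sub_eq_zero.1 h1)
    rw [Polynomial.map_mul] at h2
    have h3 := congrArg natDegree h2
    have h4 := h2.trans_ne h.ne_zero
    rw [natDegree_mul (left_ne_zero_of_mul h4) (right_ne_zero_of_mul h4),
      natDegree_map_eq_of_injective hinj Q] at h3
    have a1 := (natDegree_map_le (f := algebraMap K[X] (RatFunc K))).trans_lt
      (deg_SP3b hd fun t => x (true, t))
    have a2 := (natDegree_map_le (f := algebraMap K[X] (RatFunc K))).trans_lt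
      (deg_SP3b hd fun t => x (false, t))
    rcases h.isUnit_or_isUnit h2.symm with u | u <;> have := natDegree_eq_zero_of_isUnit u <;>
      omega
  · intro k _ _ S hS Q' hR
    obtain ⟨m1, m2⟩ := hR.monic hQ
    obtain ⟨E, e1, e2⟩ := hR
    by_contra hn
    obtain ⟨Q1, Q2, q1, q2, q3, q4, q5, q6, q7⟩ := exists_factors Q' m1 (m2 ▸ hd) M (fun i => by
      have := hM i
      rw [← e1, coeff_map, coe_mapRingHom, natDegree_map_eq_of_injective S.inj] at this
      rw [← e2, coeff_map, coe_mapRingHom]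
      exact natDegree_map_le.trans this) hn
    have h3 := q1.natDegree_mul q2
    rw [q5, m2] at h3
    refine hS (fun t => ((dfc_SP3b MvPolynomial.X (E.map (mapRingHom MvPolynomial.C))).coeff
      t.1).coeff t.2) (fun t => ?_)
      ⟨fun t => ((bif t.1 then Q1 else Q2).coeff t.2.1).coeff t.2.2, fun t => ?_⟩
    · refine (coeff_SP3b _ _ _ _ _).trans ?_
      rw [mapC_SP3b e1]
      simp only [P, MvPolynomial.map_X]
    · rw [← MvPolynomial.coe_eval₂Hom, coeff_SP3b, mapmap_SP3b, MvPolynomial.eval₂Hom_comp_C, e2]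
      simp only [MvPolynomial.eval₂Hom_X', dfc_SP3b, cond_true, cond_false]
      rw [eq_SP3b (by omega) q6, eq_SP3b (by omega) q7, q5, sub_self, coeff_zero, coeff_zero]

end Pool.Agent.Adm
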