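import Pool.Agent.Adq.SP0

/-! Specialisation of a Galois extension given by equations. -/

namespace Pool.Agent.Adm

open Polynomial

theorem fix_SP4 {F L : Type} [Field F] [Field L] [Algebra F L] {β : L}
    (hβ : IntermediateField.adjoin F {β} = ⊤) (σ : L ≃ₐ[F] L) (h : σ β = β) : σ = 1 := by
  have key : ∀ x ∈ IntermediateField.adjoin F {β}, σ x = x := by
    intro x hx
    induction hx using IntermediateField.adjoin_induction with
    | mem x hx => rw [Set.mem_singleton_iff.1 hx, h]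
    | algebraMap x => exact σ.commutes x
    | add x y _ _ hx hy => rw [map_add, hx, hy]
    | inv x _ hx => rw [map_inv₀, hx]
    | mul x y _ _ hx hy => rw [map_mul, hx, hy]
  exact AlgEquiv.ext fun x => key x (hβ ▸ IntermediateField.mem_top)

theorem ker_SP4 {A F L : Type} [CommRing A] [Field F] [Field L] [Algebra F L] (f : A →+* F)
    (hf : Function.Injective f) {E : A[X]} (hE : E.Monic) {β : L} (hm : minpoly F β = E.map f)
    {T : A[X]} (hT : T.eval₂ ((algebraMap F L).comp f) β = 0) : E ∣ T := by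
  have h1 : minpoly F β ∣ T.map f := minpoly.dvd F β (by rwa [aeval_def, eval₂_map])
  rwa [hm, map_dvd_map f hf hE] at h1

theorem comp_SP4 {A F L : Type} [CommRing A] [Field F] [Field L] [Algebra F L] (f : A →+* F)
    (σ : L →ₐ[F] L) {β : L} {P : A[X]} (h : σ β = P.eval₂ ((algebraMap F L).comp f) β)
    (T : A[X]) : σ (T.eval₂ ((algebraMap F L).comp f) β) =
      (T.comp P).eval₂ ((algebraMap F L).comp f) β := by
  rw [eval₂_comp, ← h]
  refine (hom_eval₂ T _ (σ : L →+* L) β).trans ?_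
  congr 1
  exact RingHom.ext fun a => σ.commutes _

theorem core_SP4 {A F L F' : Type} [CommRing A] [Field F] [Field L] [Algebra F L]
    [FiniteDimensional F L] [IsGalois F L] [Field F'] (f : A →+* F) (hf : Function.Injective f)
    (f' : A →+* F') {E : A[X]} (hE : E.Monic) {β : L}
    (hβ : IntermediateField.adjoin F {β} = ⊤) (hm : minpoly F β = E.map f)
    (P : (L ≃ₐ[F] L) → A[X]) (hP : ∀ σ, σ β = (P σ).eval₂ ((algebraMap F L).comp f) β)
    {q : F'[X]} [Fact (Irreducible q)] (hq : E.map f' = q)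
    (hs : aeval (AdjoinRoot.root q) (derivative q) ≠ 0) :
    ∃ (_ : FiniteDimensional F' (AdjoinRoot q)) (_ : IsGalois F' (AdjoinRoot q))
      (ρ : (L ≃ₐ[F] L) ≃* (AdjoinRoot q ≃ₐ[F'] AdjoinRoot q)), ∀ σ, ρ σ (AdjoinRoot.root q) =
        (P σ).eval₂ ((algebraMap F' (AdjoinRoot q)).comp f') (AdjoinRoot.root q) := by
  have hq0 : q ≠ 0 := hq ▸ (hE.map f').ne_zero
  obtain ⟨ev, hev⟩ : ∃ ev : A[X] →+* L, ∀ T, ev T = T.eval₂ ((algebraMap F L).comp f) β :=
    ⟨eval₂RingHom _ _, fun _ => rfl⟩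
  obtain ⟨ev', hev'⟩ : ∃ ev' : A[X] →+* AdjoinRoot q, ∀ T, ev' T =
      T.eval₂ ((algebraMap F' (AdjoinRoot q)).comp f') (AdjoinRoot.root q) :=
    ⟨eval₂RingHom _ _, fun _ => rfl⟩
  have hX : ev X = β := by rw [hev, eval₂_X]
  have hX' : ev' X = AdjoinRoot.root q := by rw [hev', eval₂_X]
  have hE0 : ev E = 0 := by rw [hev, ← eval₂_map, ← hm, ← aeval_def, minpoly.aeval]
  have hE0' : ev' E = 0 := by
    rw [hev', ← eval₂_map, hq]
    exact AdjoinRoot.eval₂_root q
  have tr : ∀ T, ev T = 0 → ev' T = 0 := fun T hT => by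
    obtain ⟨u, rfl⟩ := ker_SP4 f hf hE hm (hev T ▸ hT)
    rw [map_mul, hE0', zero_mul]
  have tr' : ∀ T T', ev T = ev T' → ev' T = ev' T' := fun T T' h => by
    rw [← sub_eq_zero, ← map_sub] at h ⊢
    exact tr _ h
  have hc : ∀ (σ : L ≃ₐ[F] L) T, σ (ev T) = ev (T.comp (P σ)) := fun σ T => by
    rw [hev, hev]
    exact comp_SP4 f (σ : L →ₐ[F] L) (hP σ) T
  have hr : ∀ σ, ev' (E.comp (P σ)) = 0 := fun σ => tr _ (by rw [← hc, hE0, map_zero])
  have hτ : ∀ σ, ∃ τ : AdjoinRoot q →ₐ[F'] AdjoinRoot q, τ (AdjoinRoot.root q) = ev' (P σ) :=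
    fun σ => ⟨AdjoinRoot.liftAlgHom q (Algebra.ofId _ _) (ev' (P σ)) (by
      have := hr σ
      rw [hev', eval₂_comp, ← hev', ← eval₂_map, hq] at this
      exact this), AdjoinRoot.liftAlgHom_root _ _ _ _⟩
  choose τ hτ using hτ
  have hc' : ∀ σ T, τ σ (ev' T) = ev' (T.comp (P σ)) := fun σ T => by
    rw [hev', hev']
    exact comp_SP4 f' (τ σ) ((hτ σ).trans (hev' _)) T
  have e1 : τ 1 = AlgHom.id _ _ := AdjoinRoot.algHom_ext (by
    rw [hτ, AlgHom.id_apply, ← hX']
    exact tr' _ _ (by rw [hev, ← hP, hX]; rfl))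
  have e2 : ∀ σ σ', τ (σ * σ') = (τ σ).comp (τ σ') := fun σ σ' => AdjoinRoot.algHom_ext (by
    rw [hτ, AlgHom.comp_apply, hτ, hc']
    exact tr' _ _ (by rw [← hc, hev, hev, ← hP, ← hP]; rfl))
  let ρ : (L ≃ₐ[F] L) →* (AdjoinRoot q ≃ₐ[F'] AdjoinRoot q) :=
    { toFun := fun σ => AlgEquiv.ofAlgHom (τ σ) (τ σ⁻¹)
        (by rw [← e2, mul_inv_cancel, e1]) (by rw [← e2, inv_mul_cancel, e1])
      map_one' := AlgEquiv.ext fun x => DFunLike.congr_fun e1 x
      map_mul' := fun σ σ' => AlgEquiv.ext fun x => DFunLike.congr_fun (e2 σ σ') x }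
  have hρ : Function.Injective ρ := by
    rw [injective_iff_map_eq_one]
    intro σ hσ
    by_contra hne
    have h1 : ev (P σ - X) ≠ 0 := by
      rw [map_sub, hX, hev, ← hP, sub_ne_zero]
      exact fun h => hne (fix_SP4 hβ σ h)
    have h2 : ev' (P σ - X) = 0 := by
      rw [map_sub, hX', ← hτ, sub_eq_zero]
      exact DFunLike.congr_fun hσ _
    obtain ⟨u, hu⟩ := binomExpansion (E.map C) X (P σ - X)
    rw [add_sub_cancel, derivative_map, eval_map, eval_map, eval_map, eval₂_C_X, eval₂_C_X] at hu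
    have h3 : ev (derivative E + u * (P σ - X)) = 0 := by
      have h4 := hc σ E
      rw [hE0, map_zero, comp, hu, map_add, map_add, hE0, map_mul, map_mul, map_pow] at h4
      refine mul_right_cancel₀ h1 ?_
      rw [map_add, map_mul]
      linear_combination -h4
    have h5 := tr _ h3
    rw [map_add, map_mul, h2, mul_zero, add_zero, hev', ← eval₂_map, ← derivative_map, hq] at h5
    exact hs h5
  have hfin : FiniteDimensional F' (AdjoinRoot q) := (AdjoinRoot.powerBasis hq0).finite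
  have hrk : Module.finrank F' (AdjoinRoot q) ≤ Nat.card (L ≃ₐ[F] L) := by
    rw [(AdjoinRoot.powerBasis hq0).finrank, AdjoinRoot.powerBasis_dim,
      IsGalois.card_aut_eq_finrank, ← (Field.primitive_element_iff_minpoly_natDegree_eq F β).1 hβ,
      hm, ← hq, hE.natDegree_map, hE.natDegree_map]
  obtain ⟨hG, hb⟩ := galois_of_action ρ hρ hrk
  exact ⟨hfin, hG, MulEquiv.ofBijective ρ hb, fun σ => (hτ σ).trans (hev' _)⟩

theorem loc_SP4 {B F F' : Type} [CommRing B] [Field F] [Field F'] (g : B →+* F)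
    (hg : Function.Injective g) (g' : B →+* F') {d : B} (hd : g' d ≠ 0) :
    ∃ (A : Type) (_ : CommRing A) (a : B →+* A) (f : A →+* F) (f' : A →+* F') (v : A),
      Function.Injective f ∧ f.comp a = g ∧ f'.comp a = g' ∧ a d * v = 1 := by
  have h0 : g d ≠ 0 := fun h => hd (by rw [hg (h.trans (map_zero g).symm), map_zero])
  refine ⟨Localization.Away d, inferInstance, algebraMap _ _,
    IsLocalization.Away.lift d (g := g) h0.isUnit, IsLocalization.Away.lift d (g := g') hd.isUnit,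
    IsLocalization.Away.invSelf d, ?_, IsLocalization.Away.lift_comp _ _,
    IsLocalization.Away.lift_comp _ _, IsLocalization.Away.mul_invSelf d⟩
  rw [IsLocalization.injective_iff_map_algebraMap_eq (Submonoid.powers d)]
  intro x y
  refine ⟨fun h => by rw [h], fun h => ?_⟩
  rw [IsLocalization.Away.lift_eq, IsLocalization.Away.lift_eq] at h
  rw [hg h]

theorem div_SP4 {B A F L : Type} [CommRing B] [CommRing A] [Field F] [Field L] [Algebra F L]
    (a : B →+* A) (f : A →+* F) {d : B} {v : A} (hv : a d * v = 1) (T : B[X]) (β y : L) :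
    y = (C v * T.map a).eval₂ ((algebraMap F L).comp f) β ↔
      algebraMap F L (f (a d)) * y = T.eval₂ ((algebraMap F L).comp (f.comp a)) β := by
  have h1 : algebraMap F L (f (a d)) * algebraMap F L (f v) = 1 := by
    rw [← map_mul, ← map_mul, hv, map_one, map_one]
  rw [eval₂_mul, eval₂_C, eval₂_map, RingHom.comp_assoc, RingHom.comp_apply]
  constructor
  · rintro rfl
    rw [← mul_assoc, h1, one_mul]
  · intro h
    rw [← h, ← mul_assoc, mul_comm (algebraMap F L (f v)), h1, one_mul]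

theorem Spn.exists_cover {K k G : Type} [Field K] [Field k] [Group G] (S : Spn K k)
    (c : Cover K G) (β : c.L) (Q : K[X][X]) (hβ : c.Prim β Q) (D : K[X])
    (F : (c.L ≃ₐ[RatFunc K] c.L) → K[X][X]) (hF : ∀ σ, c.ap D * σ β = (F σ).eval₂ c.ap β)
    (U W : K[X][X]) (Δ : K[X]) (hΔ : U * Q + W * derivative Q = C Δ)
    (Q' U' W' : k[X][X]) (D' Δ' : k[X]) (F' : (c.L ≃ₐ[RatFunc K] c.L) → k[X][X])
    (rQ : S.R2 Q Q') (rU : S.R2 U U') (rW : S.R2 W W') (rD : S.R1 D D') (rΔ : S.R1 Δ Δ')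
    (rF : ∀ σ, S.R2 (F σ) (F' σ)) (hD' : D' ≠ 0) (hΔ' : Δ' ≠ 0)
    (hirr : Irreducible (Q'.map (algebraMap k[X] (RatFunc k)))) :
    ∃ (c' : Cover k G) (β' : c'.L), c'.Prim β' Q' ∧ c'.ι.range = c.ι.range ∧
      ∀ σ, ∃ σ' : c'.L ≃ₐ[RatFunc k] c'.L, c'.ι σ' = c.ι σ ∧
        c'.ap D' * σ' β' = (F' σ).eval₂ c'.ap β' := by
  have hb := Spn.bezout rQ rU rW rΔ hΔ
  obtain ⟨EQ, rfl, rfl⟩ := rQ
  obtain ⟨ED, rfl, rfl⟩ := rD
  choose EF hEF hEF' using rF
  have hi : Function.Injective (mapRingHom S.i) := map_injective S.i S.inj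
  obtain ⟨A, _, a, f, f', v, hf, hfa, hfa', hv⟩ := loc_SP4
    ((algebraMap K[X] (RatFunc K)).comp (mapRingHom S.i))
    ((IsFractionRing.injective K[X] (RatFunc K)).comp hi)
    ((algebraMap k[X] (RatFunc k)).comp (mapRingHom S.ρ)) (d := ED)
    (RatFunc.algebraMap_ne_zero hD')
  have hE : EQ.Monic := monic_of_injective hi hβ.2.1
  obtain ⟨q, hq⟩ : ∃ q, (EQ.map (mapRingHom S.ρ)).map (algebraMap k[X] (RatFunc k)) = q :=
    ⟨_, rfl⟩
  have hqm : q.Monic := hq ▸ (hE.map _).map _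
  have : Fact (Irreducible q) := ⟨hq ▸ hirr⟩
  have h0 : aeval (AdjoinRoot.root q) q = 0 := AdjoinRoot.eval₂_root q
  obtain ⟨_, _, ρ, hρ⟩ := core_SP4 f hf f' (hE.map a) hβ.1
    (by rw [hβ.2.2, map_map, map_map, hfa]) (fun σ => C v * (EF σ).map a)
    (fun σ => (div_SP4 a f hv _ _ _).2 (by
      have := hF σ
      rw [← hEF, eval₂_map] at this
      rw [← RingHom.comp_apply f a, hfa]
      exact this))
    (q := q) (by rw [← hq, map_map, map_map, hfa'])
    (fun h => by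
      have h1 := congrArg (fun T => aeval (AdjoinRoot.root q)
        (T.map (algebraMap k[X] (RatFunc k)))) hb
      simp only [Polynomial.map_add, Polynomial.map_mul, map_add, map_mul, ← derivative_map, hq,
        h, h0, mul_zero, add_zero, map_C, aeval_C] at h1
      exact RatFunc.algebraMap_ne_zero hΔ' ((map_eq_zero _).1 h1.symm))
  refine ⟨{ L := AdjoinRoot q, ι := c.ι.comp ρ.symm.toMonoidHom }, AdjoinRoot.root q,
    ⟨IntermediateField.adjoin_root_eq_top q, hE.map _, ?_⟩, ?_, fun σ => ⟨ρ σ, ?_, ?_⟩⟩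
  · rw [hq]
    exact (minpoly.eq_of_irreducible_of_monic this.out h0 hqm).symm
  · ext g
    constructor
    · rintro ⟨σ, rfl⟩
      exact ⟨ρ.symm σ, rfl⟩
    · rintro ⟨σ, rfl⟩
      exact ⟨ρ σ, congrArg c.ι (ρ.symm_apply_apply σ)⟩
  · exact congrArg c.ι (ρ.symm_apply_apply σ)
  · have h1 := (div_SP4 a f' hv _ _ _).1 (hρ σ)
    rw [← RingHom.comp_apply f' a, hfa'] at h1
    rw [← hEF', eval₂_map]
    exact h1

end Pool.Agent.Adm
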