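import Pool.Agent.Adq.SPD

/-! Monodromy in terms of a primitive element. -/

namespace Pool.Agent.Adm

open scoped OnePoint
open Polynomial

variable {k G : Type} [Field k] [Group G]

theorem clear_SP5 {ι : Type} [Finite ι] (p : ι → (RatFunc k)[X]) :
    ∃ (D : k[X]) (F : ι → k[X][X]), D ≠ 0 ∧ ∀ i, (F i).map (algebraMap k[X] (RatFunc k)) =
      C (algebraMap k[X] (RatFunc k) D) * p i := by
  classical
  have := Fintype.ofFinite ι
  choose b hb hF using fun i =>
    IsLocalization.integerNormalization_spec (nonZeroDivisors k[X]) (p i)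
  refine ⟨∏ i, b i, fun i => C (∏ j ∈ Finset.univ.erase i, b j) *
    IsLocalization.integerNormalization (nonZeroDivisors k[X]) (p i),
    Finset.prod_ne_zero_iff.2 fun i _ => nonZeroDivisors.ne_zero (hb i), fun i => ?_⟩
  rw [Polynomial.map_mul, map_C, hF, ← algebraMap_smul (RatFunc k), smul_eq_C_mul, ← mul_assoc,
    ← C_mul, ← map_mul, Finset.prod_erase_mul _ _ (Finset.mem_univ i)]

theorem pb_SP5 {F L : Type} [Field F] [Field L] [Algebra F L] [FiniteDimensional F L] {β : L}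
    (h : IntermediateField.adjoin F {β} = ⊤) : ∃ pb : PowerBasis F L, pb.gen = β :=
  ⟨PowerBasis.ofAdjoinEqTop (Algebra.IsIntegral.isIntegral β) (by
    rw [← IntermediateField.adjoin_simple_toSubalgebra_of_isAlgebraic
      (Algebra.IsAlgebraic.isAlgebraic β), h, IntermediateField.top_toSubalgebra]), rfl⟩

theorem lift_SP5 {F L W : Type} [Field F] [Field L] [Field W] [Algebra F L]
    [FiniteDimensional F L] {β : L} (h : IntermediateField.adjoin F {β} = ⊤) (j0 : F →+* W) (y : W)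
    (hy : (minpoly F β).eval₂ j0 y = 0) :
    ∃ j : L →+* W, (∀ x, j (algebraMap F L x) = j0 x) ∧ j β = y := by
  obtain ⟨pb, rfl⟩ := pb_SP5 h
  let _ := j0.toAlgebra
  exact ⟨(pb.lift y hy : L →ₐ[F] W), (pb.lift y hy).commutes, pb.lift_gen y hy⟩

theorem ext_SP5 {F L W : Type} [Field F] [Field L] [Field W] [Algebra F L]
    [FiniteDimensional F L] {β : L} (h : IntermediateField.adjoin F {β} = ⊤) (j j' : L →+* W)
    (h1 : j.comp (algebraMap F L) = j'.comp (algebraMap F L)) (h2 : j β = j' β) (x : L) :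
    j x = j' x := by
  obtain ⟨pb, rfl⟩ := pb_SP5 h
  obtain ⟨f, rfl⟩ := pb.exists_eq_aeval' x
  rw [aeval_def, hom_eval₂, hom_eval₂, h1, h2]

theorem eval_ap_SP5 (c : Cover k G) (F : k[X][X]) (β : c.L) :
    F.eval₂ c.ap β = aeval β (F.map (algebraMap k[X] (RatFunc k))) := by
  rw [aeval_def, eval₂_map, Cover.ap]

theorem comp_ap_SP5 (c : Cover k G) (j : c.L →+* LaurentSeries k) (u : LaurentSeries k)
    (h1 : ∀ x : k, j (algebraMap (RatFunc k) c.L (RatFunc.C x)) = HahnSeries.C x)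
    (h2 : j (algebraMap (RatFunc k) c.L RatFunc.X) = u) : j.comp c.ap = evL u :=
  RingHom.ext fun P => hom_algebraMap (j.comp (algebraMap (RatFunc k) c.L)) _ u h1 h2 P

theorem Cover.exists_model (c : Cover k G) :
    ∃ (β : c.L) (Q : k[X][X]) (D : k[X]) (F : (c.L ≃ₐ[RatFunc k] c.L) → k[X][X])
      (U W : k[X][X]) (Δ : k[X]), c.Prim β Q ∧ D ≠ 0 ∧ Δ ≠ 0 ∧
      (∀ σ, c.ap D * σ β = (F σ).eval₂ c.ap β) ∧ U * Q + W * derivative Q = C Δ ∧
      Irreducible (Q.map (algebraMap k[X] (RatFunc k))) := by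
  obtain ⟨β, Q, hβ⟩ := exists_integral_primitive_TC (k := k) (L := c.L)
  obtain ⟨pb, hpb⟩ := pb_SP5 hβ.1
  choose f hf using fun σ : c.L ≃ₐ[RatFunc k] c.L => pb.exists_eq_aeval' (σ β)
  obtain ⟨D, F, hD, hF⟩ := clear_SP5 f
  obtain ⟨u, w, huw⟩ : (minpoly (RatFunc k) β).Separable :=
    Algebra.IsSeparable.isSeparable (RatFunc k) β
  obtain ⟨Δ, U, hΔ, hU⟩ := clear_SP5 fun b : Bool => if b then u else w
  refine ⟨β, Q, D, F, U true, U false, Δ, hβ, hD, hΔ, fun σ => ?_, ?_,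
    hβ.2.2 ▸ minpoly.irreducible (Algebra.IsIntegral.isIntegral β)⟩
  · rw [eval_ap_SP5, hF, map_mul, aeval_C, hf σ, hpb]
    rfl
  · refine Polynomial.map_injective _ (IsFractionRing.injective k[X] (RatFunc k)) ?_
    rw [Polynomial.map_add, Polynomial.map_mul, Polynomial.map_mul, hU, hU, ← derivative_map,
      ← hβ.2.2, map_C, mul_assoc, mul_assoc, ← mul_add]
    exact (congrArg _ huw).trans (mul_one _)

theorem Cover.Mono.exists_root {c : Cover k G} {β : c.L} {Q : k[X][X]} (hβ : c.Prim β Q)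
    {a : OnePoint k} {e : ℕ} {ζ : k} {g : G} (h : c.Mono a e ζ g) (hζ : ζ ≠ 0) :
    ∃ (y : LaurentSeries k) (σ : c.L ≃ₐ[RatFunc k] c.L), c.ι σ = g ∧
      Q.eval₂ (evL (expand a e)) y = 0 ∧ (derivative Q).eval₂ (evL (expand a e)) y ≠ 0 ∧
      ∀ (D : k[X]) (F : k[X][X]), c.ap D * σ β = F.eval₂ c.ap β →
        evL (expand a e) D * scL ζ hζ y = F.eval₂ (evL (expand a e)) y := by
  obtain ⟨-, -, j, h1, h2, σ, h3, h4⟩ := h
  have hj := comp_ap_SP5 c j _ h1 h2
  have h5 : ∀ F : k[X][X], F.eval₂ (evL (expand a e)) (j β) = j (F.eval₂ c.ap β) := fun F => by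
    rw [hom_eval₂, hj]
  refine ⟨j β, σ, h3, ?_, ?_, fun D F h => ?_⟩
  · rw [h5, eval_ap_SP5, ← hβ.2.2, minpoly.aeval, map_zero]
  · rw [h5, eval_ap_SP5, ← derivative_map, ← hβ.2.2, _root_.map_ne_zero]
    exact (Algebra.IsSeparable.isSeparable (RatFunc k) β).aeval_derivative_ne_zero
      (minpoly.aeval _ _)
  · have h6 : j (σ β) = scL ζ hζ (j β) := by
      ext n
      exact h4 β n
    rw [h5, ← h, map_mul, h6, ← hj]
    rfl

theorem Cover.mono_of_root (c : Cover k G) {β : c.L} {Q : k[X][X]} (hβ : c.Prim β Q)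
    (a : OnePoint k) {e : ℕ} (he : 0 < e) {ζ : k} (hζ : IsPrimitiveRoot ζ e)
    (y : LaurentSeries k) (hy : Q.eval₂ (evL (expand a e)) y = 0)
    (σ : c.L ≃ₐ[RatFunc k] c.L) (D : k[X]) (hD : D ≠ 0) (F : k[X][X])
    (hσ : c.ap D * σ β = F.eval₂ c.ap β)
    (hy' : evL (expand a e) D * scL ζ (hζ.ne_zero he.ne') y = F.eval₂ (evL (expand a e)) y) :
    c.Mono a e ζ (c.ι σ) := by
  obtain ⟨j0, hC, hX⟩ := exists_chart a e he
  have h0 : j0.comp (algebraMap k[X] (RatFunc k)) = evL (expand a e) :=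
    RingHom.ext fun P => hom_algebraMap j0 _ _ hC hX P
  obtain ⟨j, h1, h2⟩ := lift_SP5 hβ.1 j0 y (by rw [hβ.2.2, eval₂_map, h0, hy])
  have hj := comp_ap_SP5 c j (expand a e) (fun x => by rw [h1, hC]) (by rw [h1, hX])
  refine Cover.RMono.mono he hζ ⟨j, fun x => by rw [h1, hC], by rw [h1, hX], σ, rfl, ?_⟩
  refine ext_SP5 hβ.1 (j.comp (σ : c.L →+* c.L)) ((scL ζ (hζ.ne_zero he.ne')).comp j)
    (ratFunc_hom_ext _ _ (fun x => ?_) ?_) ?_
  · simp only [RingHom.comp_apply, RingHom.coe_coe, AlgEquiv.commutes, h1, hC, scL_C]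
  · simp only [RingHom.comp_apply, RingHom.coe_coe, AlgEquiv.commutes, h1, hX,
      scL_expand a e ζ _ hζ.pow_eq_one]
  · refine mul_left_cancel₀ (a := evL (expand a e) D) (eval₂_expand_ne_zero a e he D hD) ?_
    have h3 := congrArg j hσ
    rw [map_mul, hom_eval₂, hj, h2, ← hy', ← RingHom.comp_apply, hj] at h3
    rw [RingHom.comp_apply, RingHom.comp_apply, h2]
    exact h3

theorem Cover.mono_of_bezout [IsAlgClosed k] (c : Cover k G) {β : c.L} {Q : k[X][X]}
    (hβ : c.Prim β Q) (U W : k[X][X]) (Δ : k[X]) (hΔ : U * Q + W * derivative Q = C Δ) (a : k)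
    (ha : Δ.eval a ≠ 0) : c.Mono (a : OnePoint k) 1 1 1 := by
  let ψ : k[X] →+* PowerSeries k :=
    eval₂RingHom (PowerSeries.C : k →+* PowerSeries k) (PowerSeries.C a + PowerSeries.X)
  have h1 : (PowerSeries.constantCoeff (R := k)).comp ψ = evalRingHom a := by
    apply Polynomial.ringHom_ext
    · intro b; simp [ψ]
    · simp [ψ]
  have h2 : (HahnSeries.ofPowerSeries ℤ k).comp ψ = evL (expand (a : OnePoint k) 1) := by
    apply Polynomial.ringHom_ext
    · intro b; simp [ψ, evL, HahnSeries.ofPowerSeries_C]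
    · simp [ψ, evL, expand, HahnSeries.ofPowerSeries_C, HahnSeries.ofPowerSeries_X]
  have hsep : ((Q.map ψ).map (PowerSeries.constantCoeff (R := k))).Separable := by
    rw [Polynomial.map_map, h1]
    refine ⟨C (Δ.eval a)⁻¹ * U.map (evalRingHom a), C (Δ.eval a)⁻¹ * W.map (evalRingHom a), ?_⟩
    rw [mul_assoc, mul_assoc, ← mul_add, derivative_map, ← Polynomial.map_mul,
      ← Polynomial.map_mul, ← Polynomial.map_add, hΔ, map_C, ← C_mul, coe_evalRingHom,
      inv_mul_cancel₀ ha, C_1]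
  have hspl := splits_of_separable_reduction (Q.map ψ) (hβ.2.1.map ψ) hsep
  rw [Polynomial.map_map, h2] at hspl
  obtain ⟨y, hy⟩ := hspl.exists_eval_eq_zero (by
    rw [hβ.2.1.degree_map, ← hβ.2.1.degree_map (algebraMap k[X] (RatFunc k)), ← hβ.2.2]
    exact (minpoly.degree_pos (Algebra.IsIntegral.isIntegral β)).ne')
  rw [eval_map] at hy
  have h3 := c.mono_of_root hβ a one_pos IsPrimitiveRoot.one y hy 1 1 one_ne_zero X
    (by simp) (by simp)
  rwa [map_one] at h3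

end Pool.Agent.Adm
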