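import Pool.Agent.Adq.SP1
import Pool.Agent.Adq.SP2
import Pool.Agent.Adq.SP3b
import Pool.Agent.Adq.SP4
import Pool.Agent.Adq.SP5

/-! Spreading out of a covering with finitely many monodromy data. -/

namespace Pool.Agent.Adm

open scoped OnePoint

theorem Cover.spread {K G : Type} [Field K] [IsAlgClosed K] [Group G] (c : Cover K G) :
    ∃ Z : Finset K, ∀ (J : Type) [Finite J] (a : J → OnePoint K) (e : J → ℕ) (ζ : J → K)
      (g : J → G), (∀ j, c.Mono (a j) (e j) (ζ j) (g j)) →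
      Evt (K := K) fun k _ _ S => ∃ c' : Cover k G, c'.ι.range = c.ι.range ∧
        (∀ y : k, (∀ x ∈ Z, ¬ S.R x y) → c'.Mono (y : OnePoint k) 1 1 1) ∧
        ∀ j (a' : OnePoint k) (ζ' : k), S.RP (a j) a' → S.R (ζ j) ζ' →
          c'.Mono a' (e j) ζ' (g j) := by
  classical
  obtain ⟨β, Q, D, F, U, W, Δ, hβ, hD, hΔ0, hF, hΔ, hirr⟩ := c.exists_model
  refine ⟨Δ.roots.toFinset, fun J _ a e ζ g hm => ?_⟩
  have hz : ∀ j, ζ j ≠ 0 := fun j => (hm j).2.1.ne_zero (hm j).1.ne'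
  choose y σ hσ hy hy' hyF using fun j => (hm j).exists_root hβ (hz j)
  have hs : ∀ j, Evt (K := K) fun k _ _ S => ∀ n, (y j).coeff n ∈ Set.range S.i := by
    intro j
    obtain ⟨s, hs⟩ := eisenstein (a j) (e j) Q (y j) (hy j) (hy' j)
    exact ⟨s, fun k _ _ S h n => S.mem_range_of_closure s h (hs n)⟩
  have H := ((((evt_R2 Q).and (evt_R2 U)).and ((evt_R2 W).and (Evt.all fun τ => evt_R2 (F τ)))).and
    (((evt_R1 D).and (evt_R1 Δ)).and ((evt_R1_ne D hD).and (evt_R1_ne Δ hΔ0)))).and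
    (((evt_roots Δ hΔ0).and (evt_irreducible Q hβ.2.1 hirr)).and
      ((Evt.all fun j => evt_prim (ζ j) (e j) (hm j).1 (hm j).2.1).and (Evt.all hs)))
  refine H.mono fun k _ _ S h => ?_
  obtain ⟨⟨⟨⟨⟨Q', rQ⟩, U', rU⟩, ⟨W', rW⟩, rF⟩, ⟨⟨D', rD⟩, Δ', rΔ⟩, nD, nΔ⟩, ⟨hr, hi⟩, hp, hc⟩ := h
  choose F' rF using rF
  obtain ⟨c', β', hβ', hrange, hσ'⟩ := S.exists_cover c β Q hβ D F hF U W Δ hΔ Q' U' W' D' Δ' F'
    rQ rU rW rD rΔ rF (nD D' rD) (nΔ Δ' rΔ) (hi Q' rQ)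
  refine ⟨c', hrange, fun x hx => ?_, fun j a' ζ' ra rζ => ?_⟩
  · refine c'.mono_of_bezout hβ' U' W' Δ' (Spn.bezout rQ rU rW rΔ hΔ) x fun h0 => ?_
    obtain ⟨x0, h1, h2⟩ := hr Δ' rΔ x h0
    exact hx x0 (Multiset.mem_toFinset.2 ((Polynomial.mem_roots hΔ0).2 h1)) h2
  · obtain ⟨y', h1, h2⟩ := S.exists_series (y j) (hc j) (a j) a' ra (e j)
    obtain ⟨σ', h3, h4⟩ := hσ' (σ j)
    have h5 := hp j ζ' rζ
    rw [← hσ j, ← h3]
    exact c'.mono_of_root hβ' a' (hm j).1 h5 y' (h1 Q Q' rQ (hy j)) σ' D' (nD D' rD) (F' (σ j)) h4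
      (h2 (ζ j) ζ' (hz j) _ (e j) (hm j).1 (hm j).2.1.pow_eq_one rζ D D' _ _ rD (rF (σ j))
        (hyF j D _ (hF (σ j))))

end Pool.Agent.Adm
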