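import Pool.Agent.Adq.VPL
import Pool.Agent.Adm.TC

/-! Specialisations of a field along finitely generated subrings. -/

namespace Pool.Agent.Adm

open scoped OnePoint
open Polynomial

noncomputable section

/-- A subring of K with a homomorphism to k. -/
structure Spn (K k : Type) [Field K] [Field k] : Type 1 where
  B : Type
  [ring : CommRing B]
  i : B →+* K
  inj : Function.Injective i
  ρ : B →+* k

attribute [instance] Spn.ring

variable {K k G : Type} [Field K] [Field k] [Group G]

/-- x specialises to y. -/
def Spn.R (S : Spn K k) (x : K) (y : k) : Prop := ∃ b, S.i b = x ∧ S.ρ b = y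

/-- The point a specialises to a'. -/
def Spn.RP (S : Spn K k) (a : OnePoint K) (a' : OnePoint k) : Prop :=
  (a = ∞ ∧ a' = ∞) ∨ ∃ (x : K) (y : k), a = (x : OnePoint K) ∧ a' = (y : OnePoint k) ∧ S.R x y

/-- The polynomial D specialises to D'. -/
def Spn.R1 (S : Spn K k) (D : K[X]) (D' : k[X]) : Prop :=
  ∃ E : S.B[X], E.map S.i = D ∧ E.map S.ρ = D'

/-- The polynomial Q in two variables specialises to Q'. -/
def Spn.R2 (S : Spn K k) (Q : K[X][X]) (Q' : k[X][X]) : Prop :=
  ∃ E : S.B[X][X], E.map (mapRingHom S.i) = Q ∧ E.map (mapRingHom S.ρ) = Q'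

/-- P holds for all specialisations defined on a large enough subring. -/
def Evt (P : ∀ (k : Type) [Field k] [IsAlgClosed k], Spn K k → Prop) : Prop :=
  ∃ s : Finset K, ∀ (k : Type) [Field k] [IsAlgClosed k] (S : Spn K k),
    (∀ x ∈ s, x ∈ Set.range S.i) → P k S

/-- Evaluation of polynomials at a Laurent series. -/
def evL (u : LaurentSeries k) : k[X] →+* LaurentSeries k := eval₂RingHom HahnSeries.C u

/-- Polynomials as elements of the function field of a covering. -/
def Cover.ap (c : Cover k G) : k[X] →+* c.L :=
  (algebraMap (RatFunc k) c.L).comp (algebraMap k[X] (RatFunc k))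

/-- β is a primitive element with minimal polynomial Q. -/
def Cover.Prim (c : Cover k G) (β : c.L) (Q : k[X][X]) : Prop :=
  IntermediateField.adjoin (RatFunc k) {β} = ⊤ ∧ Q.Monic ∧
    minpoly (RatFunc k) β = Q.map (algebraMap k[X] (RatFunc k))

end

end Pool.Agent.Adm
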