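import Pool.Agent.Adq.VU0
import Pool.Agent.Adq.FFL
import Pool.Agent.Adq.ZL
import Pool.Agent.Adq.LG
import Pool.Agent.Adm.VFa

/-! Upper bound for the cocycles of a tame covering of the line. -/

namespace Pool.Agent.Adm

open scoped OnePoint
open Polynomial

variable {k G : Type} [Field k] [IsAlgClosed k] [Group G] [Finite G]

omit [Finite G] in
theorem Cover.card_aux_VU {F : Type} [Field F] [Fintype F] (c : Cover k G) (hc : c.ι.range = ⊤)
    (θ : F →+* k) (χ : G →* Fˣ) (f : k[X]) (hf : f ≠ 0)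
    (hS : ∀ a : k, ∃ e ζ g, c.Mono (a : OnePoint k) e ζ g ∧
      Lab (Fintype.card F - 1) e ζ (θ (χ g)) (f.rootMultiplicity a))
    (hinf : ∃ e ζ g, c.Mono ∞ e ζ g) (w : ℕ)
    (hD : f.natDegree ≤ (w + 1) * (Fintype.card F - 1)) :
    Nat.card (Z1 χ) ≤
      Fintype.card F * (Sol (Fintype.card F) (HW (Fintype.card F) f w)).ncard := by
  classical
  obtain ⟨y, -, hy, hσy, -⟩ := c.exists_norm_gens θ (Aff.inl.comp χ) f hf hS
  have hq : 1 < Fintype.card F := Fintype.one_lt_card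
  let Θ : F →+* c.L := (algebraMap (RatFunc k) c.L).comp (RatFunc.C.comp θ)
  have hΘ : ∀ x, algebraMap (RatFunc k) c.L (RatFunc.C (θ x)) = Θ x := fun _ => rfl
  have hΘσ : ∀ (σ : c.L ≃ₐ[RatFunc k] c.L) x, σ (Θ x) = Θ x := fun σ x => σ.commutes _
  have hΘq : ∀ x, Θ x ^ Fintype.card F = Θ x := fun x => by
    rw [← map_pow, FiniteField.pow_card]
  simp only [hΘ, MonoidHom.comp_apply, Aff.inl_u] at hσy
  have hy0 : y ≠ 0 := by
    rintro rfl
    rw [zero_pow (by omega), eq_comm, map_eq_zero] at hy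
    exact RatFunc.algebraMap_ne_zero hf hy
  have hyq : y ^ Fintype.card F =
      algebraMap (RatFunc k) c.L (algebraMap k[X] (RatFunc k) f) * y := by
    rw [← hy, ← pow_succ, Nat.sub_add_cancel hq.le]
  obtain ⟨J, hJ⟩ := exists_isCharts k
  have key : ∀ b : Z1 χ, ∃ (W : c.L) (P : k[X]) (V : LaurentSeries k),
      (∀ σ : c.L ≃ₐ[RatFunc k] c.L, σ W = Θ (χ (c.ι σ)) * W + Θ (b.1 (c.ι σ))) ∧
      W ^ Fintype.card F - W = algebraMap (RatFunc k) c.L (algebraMap k[X] (RatFunc k) P) * y ∧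
      (∀ n ≤ 0, V.coeff n = 0) ∧
      V ^ Fintype.card F * J ∞ (algebraMap k[X] (RatFunc k) f) - V =
        J ∞ (algebraMap k[X] (RatFunc k) P) := by
    intro b
    obtain ⟨ψ, hψ⟩ := Z1.exists_aff b.2
    obtain ⟨-, x, -, -, hσx⟩ := c.exists_norm_gens θ ψ f hf (by simpa only [(hψ _).1] using hS)
    simp only [hΘ, (hψ _).1, (hψ _).2] at hσx
    obtain ⟨h, hh⟩ : ∃ h, algebraMap (RatFunc k) c.L h = (x ^ Fintype.card F - x) / y := by
      refine (IsGalois.mem_range_algebraMap_iff_fixed _).2 fun σ => ?_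
      have := (map_ne_zero Θ).2 (χ (c.ι σ)).ne_zero
      rw [map_div₀, map_sub, map_pow, hσx, hσy, add_pow_card_of_hom Θ, mul_pow, hΘq, hΘq]
      field_simp
      ring
    have hv : (x / y) ^ Fintype.card F *
        algebraMap (RatFunc k) c.L (algebraMap k[X] (RatFunc k) f) - x / y =
          algebraMap (RatFunc k) c.L h := by
      have h1 : algebraMap (RatFunc k) c.L (algebraMap k[X] (RatFunc k) f) ≠ 0 := by
        rw [← hy]
        exact pow_ne_zero _ hy0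
      rw [hh, div_pow, hyq]
      field_simp
    obtain ⟨r, P, V, hV, hr, hP⟩ := hJ.exists_normal θ f h fun a => by
      obtain ⟨e, ζ, g, he, hζ, j, h1, h2, -⟩ : ∃ e ζ g, c.Mono a e ζ g := by
        induction a using OnePoint.rec with
        | infty => exact hinf
        | coe a => exact (hS a).imp fun e => Exists.imp fun ζ => Exists.imp fun g => And.left
      have e1 : j.comp (algebraMap (RatFunc k) c.L) = (powL e he).comp (J a) :=
        ratFunc_hom_ext _ _ (fun x => by simp [h1, (hJ a).1, powL_single])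
          (by simp [h2, (hJ a).2, powL_expand])
      have e2 : ∀ x, j (algebraMap (RatFunc k) c.L x) = powL e he (J a x) := fun x =>
        DFunLike.congr_fun e1 x
      refine exists_sol_descend θ e he ζ hζ _ _ (j (x / y)) ?_
      rw [← e2, ← e2, ← hv, map_sub, map_mul, map_pow]
    refine ⟨x - algebraMap (RatFunc k) c.L r * y, P, V, fun σ => ?_, ?_, hV, hP⟩
    · rw [map_sub, map_mul, hσx, hσy, σ.commutes]
      ring
    · have h3 := congrArg (algebraMap (RatFunc k) c.L) hr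
      rw [map_add, map_sub, map_mul, map_pow, hh, div_eq_iff hy0] at h3
      rw [sub_pow_card_of_hom Θ, mul_pow, hyq]
      linear_combination h3
  choose W P V hW hWq hV hP using key
  let cv : Z1 χ → Sol (Fintype.card F) (HW (Fintype.card F) f w) := fun b =>
    ⟨_, (hJ.sol_of_eq θ f (P b) w hD (V b) (hV b) (hP b)).1⟩
  have hfib : ∀ b b', cv b = cv b' → ∃ β : F, ∀ g, b.1 g - b'.1 g = β * (1 - χ g) := by
    intro b b' e
    have e1 : ∀ j : Fin w, (V b).coeff ((j.1 + 1 : ℕ) : ℤ) = (V b').coeff ((j.1 + 1 : ℕ) : ℤ) :=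
      fun j => congrFun (congrArg Subtype.val e) j
    have e2 : P b - P b' = 0 :=
      (hJ.sol_of_eq θ f (P b - P b') w hD (V b - V b')
        (fun n hn => by rw [HahnSeries.coeff_sub, hV b n hn, hV b' n hn, sub_self])
        (by
          rw [sub_pow_card_of_hom ((HahnSeries.C : k →+* LaurentSeries k).comp θ), map_sub,
            map_sub, ← hP b, ← hP b']
          ring)).2 fun j => by rw [HahnSeries.coeff_sub, e1, sub_self]
    obtain ⟨β, hβ⟩ := exists_eq_of_pow_card Θ (W b - W b') (by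
      have h1 := hWq b
      have h2 := hWq b'
      rw [sub_eq_zero.1 e2] at h1
      rw [sub_pow_card_of_hom Θ]
      linear_combination h1 - h2)
    refine ⟨β, fun g => ?_⟩
    obtain ⟨σ, rfl⟩ : g ∈ c.ι.range := hc ▸ Subgroup.mem_top g
    have h4 := congrArg σ hβ
    rw [hΘσ, map_sub, hW, hW] at h4
    refine Θ.injective ?_
    rw [map_sub, map_mul, map_sub, map_one]
    linear_combination Θ (χ (c.ι σ)) * hβ - h4
  have hb : ∀ b, ∃ β : F, ∀ g, b.1 g - (Function.invFun cv (cv b)).1 g = β * (1 - χ g) :=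
    fun b => hfib _ _ (Function.invFun_eq ⟨b, rfl⟩).symm
  choose β hβ using hb
  have : Finite (Sol (Fintype.card F) (HW (Fintype.card F) f w)) := (sol_card θ _).1
  have h5 := Nat.card_le_card_of_injective (fun b => (β b, cv b)) fun b b' e => by
    obtain ⟨e1, e2⟩ := Prod.mk.inj e
    refine Subtype.ext (funext fun g => ?_)
    have h1 := hβ b g
    have h2 := hβ b' g
    rw [e1, e2] at h1
    linear_combination h1 - h2
  rwa [Nat.card_prod, Nat.card_eq_fintype_card (α := F), Nat.card_coe_set_eq] at h5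

theorem Cover.card_Z1_le (c : Cover k G) (hc : c.ι.range = ⊤) (θ : K0 →+* k) (𝔽 : FF)
    (χ : G →* 𝔽.Fˣ) (f : k[X]) (hf : f ≠ 0)
    (hS : ∀ a : k, ∃ g, c.M θ a g ∧ χ g = 𝔽.u ^ f.rootMultiplicity a) (hinf : ∃ g, c.M θ ∞ g)
    (w : ℕ) (hD : f.natDegree ≤ (w + 1) * 𝔽.m) :
    Nat.card (Z1 χ) ≤ 2 ^ 𝔽.r * (Sol (2 ^ 𝔽.r) (HW (2 ^ 𝔽.r) f w)).ncard := by
  rw [← 𝔽.card]
  refine c.card_aux_VU hc (θ.comp 𝔽.θ) χ f hf (fun a => ?_) ?_ w (by rwa [𝔽.card_sub_one])
  · obtain ⟨g, h1, h2⟩ := hS a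
    obtain ⟨e, ζ, h3⟩ := h1.lab 𝔽 χ (f.rootMultiplicity a : ℕ) (by rw [h2, zpow_natCast])
    exact ⟨e, ζ, g, h3⟩
  · obtain ⟨g, e, -, h1⟩ := hinf
    exact ⟨e, _, g, h1⟩

theorem Cover.h1_le (c : Cover k G) (hc : c.ι.range = ⊤) (θ : K0 →+* k) (𝔽 : FF)
    (χ : G →* 𝔽.Fˣ) (f : k[X]) (hf : f ≠ 0)
    (hS : ∀ a : k, ∃ g, c.M θ a g ∧ χ g = 𝔽.u ^ f.rootMultiplicity a) (hinf : ∃ g, c.M θ ∞ g)
    (w : ℕ) (hD : f.natDegree ≤ (w + 1) * 𝔽.m) :
    h1 χ ≤ w + 1 ∧ (w + 1 ≤ h1 χ → (HW (2 ^ 𝔽.r) f w).det ≠ 0) := by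
  have h := c.card_Z1_le hc θ 𝔽 χ f hf hS hinf w hD
  rw [card_Z1, ← 𝔽.card] at h
  rw [← 𝔽.card]
  obtain ⟨-, h2, h3⟩ := sol_card (θ.comp 𝔽.θ) (HW (Fintype.card 𝔽.F) f w)
  have hq : 1 < Fintype.card 𝔽.F := Fintype.one_lt_card
  refine ⟨?_, fun h4 => h3 ?_⟩
  · refine (Nat.pow_le_pow_iff_right hq).1 (h.trans ?_)
    rw [pow_succ']
    exact Nat.mul_le_mul_left _ h2
  · have h5 := (Nat.pow_le_pow_right hq.le h4).trans h
    rw [pow_succ'] at h5
    exact Nat.le_of_mul_le_mul_left h5 (by omega)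

end Pool.Agent.Adm
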