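import Pool.Agent.Adq.TU3
import Pool.Agent.Adq.RM
import Pool.Agent.Adq.TE
import Pool.Agent.Adq.VU
import Pool.Agent.Adq.MB

/-! A test character with many cocycles forces a Hasse-Witt determinant to be nonzero. -/

namespace Pool.Agent.Adm

open Sum
open scoped OnePoint

variable {n : ℕ} {σ : Shape n} {z : Pt σ} {G : Type} [Group G] [Finite G] {d : σ.Slot → G}
  {R : Fin σ.r → Subgroup G} {v : Fin σ.r} {i0 i1 i2 : Fin n} {𝔽0 𝔽 : FF} {c : ℕ}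
  {χ0 : G →* 𝔽0.Fˣ} {χ : χ0.ker →* 𝔽.Fˣ} {n0 : ℕ} {n1 : 𝔽0.Fˣ → ℕ} {nn : Fin n → ℕ}

theorem TUH.det_ne_zero (H : TUH z d R v i0 i1 i2 𝔽0 𝔽 c χ0 χ n0 n1 nn) (hR : ⨆ w, R w = ⊤)
    (σ0 : K0 →+* K0) (hσ0 : ∀ x, σ0 x ^ 2 ^ c = x) (w : ℕ)
    (hw : n0 + ∑ t, n1 t + 𝔽0.m * ∑ l, nn l ≤ (w + 1) * 𝔽.m) (hh : w + 1 ≤ h1 χ) :
    ∃ α : z.k, α ^ 𝔽0.m = 1 ∧
      (HW (2 ^ 𝔽.r) (tpoly (z.θ.comp σ0) 𝔽0 α n0 n1 nn (z.crs v i0 i1 i2)) w).det ≠ 0 := by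
  obtain ⟨m1, m2, m3⟩ := H.med
  have h02 : i0 ≠ i2 := fun e => m2 (e ▸ rfl)
  have hl := div_ne_zero (z.dir_ne_RM m3) (z.dir_ne_RM m1.symm)
  have x02 := sub_ne_zero.1 (z.dir_ne_RM m2)
  obtain ⟨μ, hμ, μ2, -, μa⟩ := exists_mob_ratio _ _ _ x02 hl
  have hV := VP.mob (H.adm.1 v) μ hμ.1
  let s0 : σ.Sl v := ⟨σ.dir v i0, σ.base_dir v i0⟩
  let s2 : σ.Sl v := ⟨σ.dir v i2, σ.base_dir v i2⟩
  have hK : KumLab χ0 (fun s : σ.Sl v => d s) s0 s2 (𝔽0.u ^ 2 ^ c) := by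
    refine ⟨?_, ?_, fun s a0 a2 => ?_⟩
    · exact (H.adm.chi0_slot h02 H.kum _).trans (σ.kum_dir_left _ m2).1
    · exact (H.adm.chi0_slot h02 H.kum _).trans (σ.kum_dir_left _ m2).2
    · refine (H.adm.chi0_slot h02 H.kum _).trans (σ.kum_of_not_ram _ fun h => ?_)
      exact ((σ.ram_iff s.2).1 h).2.elim (fun e => a0 (Subtype.ext e))
        fun e => a2 (Subtype.ext e)
  obtain ⟨γ, hγ⟩ := exists_section 𝔽0 χ0 c _ (.inl hK.1)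
  obtain ⟨α, P, hα, -, hP, hV'⟩ := hV.kummer (fun s s' e => Subtype.ext (z.inj _ _
    (s.2.trans s'.2.symm) (OnePoint.coe_eq_coe.1 (μ.injective e)))) 𝔽0 χ0 (s0 := s0) (s2 := s2)
    ((μa _ x02).trans (by simp)) μ2 c σ0 hσ0 hK γ
    fun t => ⟨(hγ t).1, Subgroup.zpowers_le.2 (hV.mem s0) (hγ t).2⟩
  have a0 : α s0 = 0 := pow_eq_zero_iff 𝔽0.m_pos.ne' |>.1 (hα s0 0 ((μa _ x02).trans (by simp)))
  let β : σ.Slot → z.k := fun s => if h : σ.base s = v then α ⟨s, h⟩ else 0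
  have hβ : ∀ s : σ.Sl v, β s = α s := fun s => dif_pos s.2
  have hA : (z.tw (z.θ.comp σ0)).KumAt 𝔽0 i0 i2 v _ β := ⟨hl, fun s hs _ b2 =>
    (congrArg (· ^ 𝔽0.m) (hβ ⟨s, hs⟩)).trans (hα ⟨s, hs⟩ _ (μa _ (sub_ne_zero.1
      (z.sub_ne_RM hs (σ.base_dir v i2) b2))))⟩
  obtain ⟨e1, e2⟩ := Pt.tpoly_eq_fP _ 𝔽0 H.med hA n0 n1 nn fun l h => H.nn0 l (.inr (.inr h))
  obtain ⟨f1, f2, f3⟩ := Pt.fP_mult _ 𝔽0 (σ.tlab 𝔽0 v i0 i1 n0 n1 nn) hA m2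
  have f0 := (Pt.fP_monic (z.tw (z.θ.comp σ0)) 𝔽0 (σ.tlab 𝔽0 v i0 i1 n0 n1 nn) i0 i2 β v).ne_zero
  rw [← e2] at f0 f1 f2 f3
  have hV2 := VP.restr χ0.ker inf_le_right (fun y => ⟨_, (hV'.mem y).2⟩) hV'
  rw [Subgroup.inf_subgroupOf_right] at hV2
  obtain ⟨cv, hc, hu, hd⟩ := VP.restr _ le_rfl (fun y => ⟨_, hV2.mem y⟩) hV2
  rw [Subgroup.subgroupOf_self] at hc
  have s02 : s0 ≠ s2 := fun e => m2 (congrArg Subtype.val e)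
  refine ⟨β (σ.dir v i1), e1, (cv.h1_le hc z.θ 𝔽 (χ.comp (Subgroup.subtype _)) _ f0 (fun a => ?_)
    ⟨_, (hP ⟨(s2, 1), fun _ => rfl⟩).trans (if_pos rfl) ▸ hd ⟨(s2, 1), fun _ => rfl⟩⟩ w
    ((tpoly_natDegree ..).trans_le hw)).2 (hh.trans (H.h1_le_centre hR))⟩
  by_cases ha : (a : OnePoint z.k) ∈ Set.range P
  · obtain ⟨⟨⟨s, t⟩, hy⟩, ey⟩ := ha
    refine ⟨_, ey ▸ hd _, ?_⟩
    rw [hP] at ey
    have b2 : s ≠ s2 := fun e => by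
      rw [if_pos e] at ey
      exact OnePoint.infty_ne_coe _ ey
    rw [if_neg b2, OnePoint.coe_eq_coe] at ey
    by_cases b0 : s = s0
    · subst b0
      rw [← ey, a0, mul_zero]
      exact (H.lab_zero _ (if_pos (.inl rfl))).trans (congrArg _ f1.symm)
    · have b0' : s.1 ≠ σ.dir v i0 := fun e => b0 (Subtype.ext e)
      have b2' : s.1 ≠ σ.dir v i2 := fun e => b2 (Subtype.ext e)
      refine (H.lab_ne s.2 b0' b2' (γ t) _ (if_neg (not_or.2 ⟨b0, b2⟩))).trans (congrArg _ ?_)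
      rw [(hγ t).1, ← ey, ← hβ]
      exact (f2 s t s.2 b0' b2').symm
  · refine ⟨1, hu _ ha, (map_one _).trans ((pow_zero _).symm.trans
      (congrArg _ (f3 a ?_ ?_).symm))⟩
    · rintro rfl
      refine ha ⟨⟨(s0, 1), fun _ => rfl⟩, (hP _).trans ((if_neg s02).trans ?_)⟩
      rw [a0, mul_zero]
      rfl
    · rintro s t hs b0 b2 rfl
      refine ha ⟨⟨(⟨s, hs⟩, t), fun h => (h.elim (fun e => b0 (congrArg Subtype.val e))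
        fun e => b2 (congrArg Subtype.val e)).elim⟩, (hP _).trans ((if_neg fun e =>
          b2 (congrArg Subtype.val e)).trans ?_)⟩
      rw [← hβ]
      rfl

end Pool.Agent.Adm
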