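import Pool.Agent.Adq.D5
import Pool.Agent.Adq.LS
import Pool.Agent.Adq.BG
import Pool.Agent.Adq.GB
import Pool.Agent.Adq.ZL

/-! The Kummer character on branches; unramified branches. -/

namespace Pool.Agent.Adm

open Sum

variable {n : ℕ} {σ : Shape n} {z : Pt σ} {G : Type} [Group G] [Finite G] {d : σ.Slot → G}
  {R : Fin σ.r → Subgroup G} {v : Fin σ.r} {i0 i1 i2 : Fin n} {𝔽0 𝔽 : FF}

/-- The branch beyond a dart as a pointed line: one point for the node, and the marks. -/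
theorem Pt.AdmR.geo_opt_TU1 (h : z.AdmR d R) (δ : σ.T.Dart) :
    Geo Set.univ (fun o : Option {l // σ.dir δ.fst l = inl δ} =>
      o.elim (d (inl δ))⁻¹ fun l => d (inr l.1)) (⨆ w ∈ σ.Br δ, R w) := by
  let f : ↥(Set.univ : Set (Option {l // σ.dir δ.fst l = inl δ})) → σ.bd (σ.Br δ) := fun o =>
    ⟨o.1.elim (inl δ.symm) fun l => inr l.1, by
      rw [Shape.mem_bd_Br]
      rcases o with ⟨_ | l, -⟩
      · exact Or.inl rfl
      · exact Or.inr ⟨l.1, rfl, l.2⟩⟩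
  have hf : Function.Bijective f := by
    constructor
    · rintro ⟨_ | l, h1⟩ ⟨_ | l', h2⟩ e
      · rfl
      · simp [f] at e
      · simp [f] at e
      · have e' : l.1 = l'.1 := by simpa [f] using e
        obtain rfl : l = l' := Subtype.ext e'
        rfl
    · rintro ⟨s, hs⟩
      rcases (σ.mem_bd_Br δ s).1 hs with rfl | ⟨l, rfl, hl⟩
      · exact ⟨⟨none, trivial⟩, rfl⟩
      · exact ⟨⟨some ⟨l, hl⟩, trivial⟩, rfl⟩
  refine (h.geo_Br δ).equiv (Equiv.ofBijective f hf) ?_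
  rintro ⟨_ | l, -⟩
  · exact (h.2 δ).symm
  · rfl

theorem Pt.AdmR.prod_TU1 (h : z.AdmR d R) (χ0 : G →* 𝔽0.Fˣ) (δ : σ.T.Dart) :
    χ0 (d (inl δ)) =
      ∏ l ∈ Finset.univ.filter (fun l => σ.dir δ.fst l = inl δ), χ0 (d (inr l)) := by
  have h1 := (h.geo_opt_TU1 δ).prod_eq_one 𝔽0 χ0
  rw [Fintype.prod_option] at h1
  simp only [Option.elim_none, Option.elim_some, map_inv] at h1
  rw [inv_mul_eq_one] at h1
  rw [h1]
  exact (Finset.prod_subtype (Finset.univ.filter fun l => σ.dir δ.fst l = inl δ) (by simp)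
    fun l => χ0 (d (inr l))).symm

theorem Pt.AdmR.chi0_slot (h : z.AdmR d R) (h02 : i0 ≠ i2) {χ0 : G →* 𝔽0.Fˣ} {u : 𝔽0.Fˣ}
    (hK : KumLab χ0 (fun l => d (inr l)) i0 i2 u) (s : σ.Slot) :
    χ0 (d s) = σ.kum i0 i2 u s := by
  have key : ∀ l, χ0 (d (inr l)) = (if i0 = l then u else 1) * if i2 = l then u⁻¹ else 1 := by
    intro l
    by_cases h0 : i0 = l
    · subst h0
      simpa [h02.symm] using hK.1
    · by_cases h2 : i2 = l
      · subst h2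
        simpa [h02] using hK.2.1
      · simpa [h0, h2] using hK.2.2 l (Ne.symm h0) (Ne.symm h2)
  rcases s with δ | l
  · rw [h.prod_TU1 χ0 δ]
    simp only [key, Finset.prod_mul_distrib, Finset.prod_ite_eq, Finset.mem_filter,
      Finset.mem_univ, true_and, Shape.kum, Shape.base_inl]
    rfl
  · rw [key]
    simp only [Shape.kum, Shape.base_inr, Shape.dir_inr_LS]

theorem Pt.AdmR.chi0_branch (h : z.AdmR d R) {χ0 : G →* 𝔽0.Fˣ} {u : 𝔽0.Fˣ}
    (hK : KumLab χ0 (fun l => d (inr l)) i0 i2 u) (δ : σ.T.Dart)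
    (h0 : inl δ ≠ σ.dir δ.fst i0) (h2 : inl δ ≠ σ.dir δ.fst i2) :
    ∀ x ∈ ⨆ w ∈ σ.Br δ, R w, χ0 x = 1 := by
  have key : ∀ l, σ.dir δ.fst l = inl δ → χ0 (d (inr l)) = 1 := fun l hl =>
    hK.2.2 l (fun e => h0 (e ▸ hl.symm)) (fun e => h2 (e ▸ hl.symm))
  refine (h.geo_opt_TU1 δ).char_eq_one 𝔽0 χ0 ?_
  rintro (_ | l)
  · simp only [Option.elim_none, map_inv, inv_eq_one]
    rw [h.prod_TU1 χ0 δ]
    exact Finset.prod_eq_one fun l hl => key l (Finset.mem_filter.1 hl).2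
  · exact key l.1 l.2

theorem Pt.AdmR.mem_branch (h : z.AdmR d R) (δ : σ.T.Dart) :
    d (inl δ) ∈ R δ.fst ∧ d (inl δ) ∈ ⨆ w ∈ σ.Br δ, R w := by
  refine ⟨VP.mem (h.1 δ.fst) ⟨inl δ, rfl⟩, ?_⟩
  have h1 := (h.geo_opt_TU1 δ).mem (i := none) trivial
  exact (Subgroup.inv_mem_iff _).1 h1

theorem TUH.branch_unram {c : ℕ} {χ0 : G →* 𝔽0.Fˣ} {χ : χ0.ker →* 𝔽.Fˣ} {n0 : ℕ}
    {n1 : 𝔽0.Fˣ → ℕ} {nn : Fin n → ℕ} (H : TUH z d R v i0 i1 i2 𝔽0 𝔽 c χ0 χ n0 n1 nn)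
    (δ : σ.T.Dart) (hδ : δ.fst = v) (h0 : inl δ ≠ σ.dir v i0) (h2 : inl δ ≠ σ.dir v i2) (γ : G)
    (h : χ0.ker) (hh : (h : G) = γ⁻¹ * d (inl δ) * γ) :
    χ h = 𝔽.u ^ σ.tlab 𝔽0 v i0 i1 n0 n1 nn (inl δ) (χ0 γ) ∧
      ∀ b ∈ Z1 χ, b h = 0 → ∀ x : χ0.ker, (γ * x * γ⁻¹ : G) ∈ ⨆ w ∈ σ.Br δ, R w → b x = 0 := by
  classical
  subst hδ
  have hB := H.adm.chi0_branch H.kum δ h0 h2
  have hg := H.adm.geo_opt_TU1 δ
  set e : Option {l // σ.dir δ.fst l = inl δ} → G :=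
    fun o => o.elim (d (inl δ))⁻¹ fun l => d (inr l.1) with he
  set B : Subgroup G := ⨆ w ∈ σ.Br δ, R w with hBd
  let f : G →* G := (MulAut.conj γ⁻¹).toMonoidHom
  have hf : ∀ g, f g = γ⁻¹ * g * γ := fun g => by simp [f]
  have hker : B.map f ≤ χ0.ker := by
    rintro _ ⟨g, hg', rfl⟩
    rw [MonoidHom.mem_ker, hf, map_mul, map_mul, hB g hg', mul_one, ← map_mul, inv_mul_cancel,
      map_one]
  let d' : Option {l // σ.dir δ.fst l = inl δ} → χ0.ker :=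
    fun o => ⟨f (e o), hker ⟨e o, hg.mem trivial, rfl⟩⟩
  have hg2 := Geo.restr χ0.ker hker d' (hg.map f)
  let x : Option {l // σ.dir δ.fst l = inl δ} → ℕ :=
    fun o => o.elim 0 fun l => if l.1 = i1 then n1 (χ0 γ) else nn l.1
  have hx : ∀ o, o ≠ none → χ (d' o) = 𝔽.u ^ x o := by
    rintro (_ | l) ho
    · exact absurd rfl ho
    · by_cases h1 : l.1 = i1
      · simp only [x, Option.elim_some, if_pos h1]
        exact H.lab.2.1 γ _ (by rw [← h1]; exact hf _)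
      · simp only [x, Option.elim_some, if_neg h1]
        exact H.lab.2.2 l.1 (fun e => h0 (e ▸ l.2.symm)) h1 (fun e => h2 (e ▸ l.2.symm)) γ _
          (hf _)
  have hs : ∑ o ∈ Finset.univ.erase none, x o =
      σ.tlab 𝔽0 δ.fst i0 i1 n0 n1 nn (inl δ) (χ0 γ) := by
    rw [Finset.sum_erase _ (by rfl), Fintype.sum_option, Shape.tlab, if_neg h0]
    simp only [x, Option.elim_none, Option.elim_some, zero_add]
    rw [← Finset.sum_subtype (Finset.univ.filter fun l => σ.dir δ.fst l = inl δ) (by simp)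
      fun l => if l = i1 then n1 (χ0 γ) else nn l]
    have h3 : ∀ l, (if l = i1 then n1 (χ0 γ) else nn l) =
        (if i1 = l then n1 (χ0 γ) else 0) + nn l := by
      intro l
      by_cases h1 : l = i1
      · subst h1
        simp [H.nn0 l (Or.inr (Or.inl rfl))]
      · simp [h1, Ne.symm h1]
    simp only [h3, Finset.sum_add_distrib, Finset.sum_ite_eq, Finset.mem_filter, Finset.mem_univ,
      true_and, eq_comm (a := inl δ)]
  have hlt : ∑ o ∈ Finset.univ.erase none, x o < 𝔽.m := by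
    rw [hs, Shape.tlab, if_neg h0]
    refine lt_of_le_of_lt (add_le_add ?_ (Finset.sum_le_sum_of_subset (Finset.filter_subset _ _)))
      (H.b1 (χ0 γ))
    split_ifs
    · exact le_rfl
    · exact Nat.zero_le _
  have hn : d' none = h⁻¹ := by
    apply Subtype.ext
    change f (d (inl δ))⁻¹ = (h : G)⁻¹
    rw [map_inv, hf, hh]
  obtain ⟨k1, k2⟩ := hg2.branch 𝔽 χ none x hx hlt
  rw [hn] at k1 k2
  refine ⟨?_, fun b hb hb0 y hy => k2 b hb (by rw [Z1.map_inv hb, hb0, mul_zero]) y ?_⟩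
  · rw [hs, map_inv, inv_mul_eq_one] at k1
    exact k1
  · exact Subgroup.mem_subgroupOf.2 ⟨_, hy, by rw [hf]; group⟩

end Pool.Agent.Adm
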