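import Pool.Agent.Adq.TU1
import Pool.Agent.Adq.KRV

/-! Ramified branches. -/

namespace Pool.Agent.Adm

open Sum

variable {n : ℕ} {σ : Shape n} {z : Pt σ} {G : Type} [Group G] [Finite G] {d : σ.Slot → G}
  {R : Fin σ.r → Subgroup G} {v : Fin σ.r} {i0 i1 i2 : Fin n} {𝔽0 𝔽 : FF} {c : ℕ}
  {χ0 : G →* 𝔽0.Fˣ} {χ : χ0.ker →* 𝔽.Fˣ} {n0 : ℕ} {n1 : 𝔽0.Fˣ → ℕ} {nn : Fin n → ℕ}

theorem sum_YI_TU2 {ι A : Type} [Fintype ι] [DecidableEq ι] [CommGroup A] [Fintype A]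
    [DecidableEq A] (a0 a2 : ι) (f : ι → ℕ) : ∑ y : YI ι A a0 a2, f y.1.1 =
      ∑ i, (if i = a0 ∨ i = a2 then 1 else Fintype.card A) * f i := by
  rw [← Finset.sum_subtype (Finset.univ.filter fun y : ι × A => (y.1 = a0 ∨ y.1 = a2) → y.2 = 1)
    (by simp) (fun y => f y.1), Finset.sum_filter, Fintype.sum_prod_type]
  refine Finset.sum_congr rfl fun i _ => ?_
  by_cases hi : i = a0 ∨ i = a2
  · simp [hi]
  · simp [hi]

omit [Finite G] in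
theorem Z1_inv_TU2 {F : Type} [Field F] {ψ : G →* Fˣ} {b : G → F} (hb : b ∈ Z1 ψ) {g : G}
    (hg : b g = 0) : b g⁻¹ = 0 := by
  have h1 := hb 1 1
  have h2 := hb g g⁻¹
  rw [mul_one, map_one, Units.val_one, one_mul] at h1
  rw [mul_inv_cancel, hg, mul_zero, zero_add] at h2
  rw [← h2]
  linear_combination -h1

theorem Geo.core_TU2 {L : Type} [Fintype L] [DecidableEq L] {e : Option L → G} {B : Subgroup G}
    (h : Geo Set.univ e B) (j : L) {a0 a2 : Option L} (h02 : a0 ≠ a2)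
    (hi : ∀ i, (i = a0 ∨ i = a2) ↔ (i = none ∨ i = some j))
    (hK : KumLab χ0 e a0 a2 (𝔽0.u ^ 2 ^ c))
    (hj : χ0 (e (some j)) = 𝔽0.u ^ 2 ^ c ∨ χ0 (e (some j)) = (𝔽0.u ^ 2 ^ c)⁻¹) (a : ℕ)
    (x : L → ℕ) (hx0 : x j = 0)
    (ha : ∀ g : χ0.ker, (g : G) = e (some j) ^ 𝔽0.m → χ g = 𝔽.u ^ a)
    (hx : ∀ l, l ≠ j → ∀ (γ : G) (g : χ0.ker), (g : G) = γ⁻¹ * e (some l) * γ →
      χ g = 𝔽.u ^ x l)
    (hlt : a + 𝔽0.m * ∑ l, x l < 𝔽.m) (g : χ0.ker) (hg : (g : G) = (e none)⁻¹ ^ 𝔽0.m) :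
    χ g = 𝔽.u ^ (a + 𝔽0.m * ∑ l, x l) ∧
      ∀ b ∈ Z1 χ, b g = 0 → ∀ y : χ0.ker, (y : G) ∈ B → b y = 0 := by
  obtain ⟨γ, hγ⟩ := exists_section 𝔽0 χ0 c (e (some j)) hj
  have hγB : ∀ t, χ0 (γ t) = t ∧ γ t ∈ B := fun t =>
    ⟨(hγ t).1, (Subgroup.zpowers_le.2 (h.mem (Set.mem_univ _))) (hγ t).2⟩
  have h1 := h.kummer 𝔽0 χ0 h02 c hK γ hγB
  have h2 := Geo.restr χ0.ker inf_le_right
    (fun y => (⟨yd 𝔽0.m e a0 a2 γ y, yd_mem_ker 𝔽0 χ0 hK γ y⟩ : χ0.ker)) h1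
  let f : Option L → ℕ := fun i => i.elim 0 fun l => if l = j then a else x l
  let s0 : YI (Option L) 𝔽0.Fˣ a0 a2 := ⟨(none, 1), fun _ => rfl⟩
  have hsum : ∑ y ∈ Finset.univ.erase s0, f y.1.1 = a + 𝔽0.m * ∑ l, x l := by
    rw [Finset.sum_erase (f := fun y : YI (Option L) 𝔽0.Fˣ a0 a2 => f y.1.1) (a := s0) _ rfl,
      sum_YI_TU2 a0 a2 f, Fintype.sum_option,
      FF.card_units, Finset.mul_sum]
    have e1 : ∀ l, (if some l = a0 ∨ some l = a2 then 1 else 𝔽0.m) * f (some l) =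
        (if l = j then a else 0) + 𝔽0.m * x l := by
      intro l
      by_cases hl : l = j
      · subst hl
        rw [if_pos ((hi _).2 (Or.inr rfl))]
        simp [f, hx0]
      · rw [if_neg (by rw [hi]; simpa using hl)]
        simp [f, hl]
    simp only [e1, Finset.sum_add_distrib]
    simp [f]
  have h3 := h2.branch 𝔽 χ s0 (fun y => f y.1.1) (by
    rintro ⟨⟨_ | l, t⟩, hy⟩ hne
    · obtain rfl : t = 1 := hy ((hi _).2 (Or.inl rfl))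
      exact absurd rfl hne
    · by_cases hl : l = j
      · subst hl
        have : f (some l) = a := if_pos rfl
        rw [this]
        exact ha _ (if_pos ((hi _).2 (Or.inr rfl)))
      · have : f (some l) = x l := if_neg hl
        rw [this]
        exact hx l hl (γ t) _ (if_neg (by rw [hi]; simpa using hl))) (by rw [hsum]; exact hlt)
  have e0 : (⟨yd 𝔽0.m e a0 a2 γ s0, yd_mem_ker 𝔽0 χ0 hK γ s0⟩ : χ0.ker) = g⁻¹ := by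
    apply Subtype.ext
    rw [Subgroup.coe_inv, hg, inv_pow, inv_inv]
    exact if_pos ((hi _).2 (Or.inl rfl))
  rw [hsum, e0] at h3
  refine ⟨?_, fun b hb hbg y hy => h3.2 b hb (Z1_inv_TU2 hb hbg) y ?_⟩
  · have := h3.1
    rwa [map_inv, inv_mul_eq_one] at this
  · exact Subgroup.mem_subgroupOf.2 ⟨hy, y.2⟩

theorem Pt.AdmR.geo_TU2 (h : z.AdmR d R) (δ : σ.T.Dart) :
    Geo Set.univ (fun i : Option {l // σ.dir δ.fst l = inl δ} =>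
      i.elim (d (inl δ))⁻¹ fun l => d (inr l.1)) (⨆ w ∈ σ.Br δ, R w) := by
  refine (h.geo_Br δ).equiv (Equiv.ofBijective (fun i => ⟨i.1.elim (inl δ.symm) fun l => inr l.1,
    (σ.mem_bd_Br δ _).2 (by
      rcases i with ⟨_ | l, _⟩
      · exact Or.inl rfl
      · exact Or.inr ⟨l.1, rfl, l.2⟩)⟩) ⟨?_, ?_⟩) ?_
  · rintro ⟨_ | l, _⟩ ⟨_ | l', _⟩ e
    · rfl
    · exact absurd (congrArg Subtype.val e) inl_ne_inr
    · exact absurd (congrArg Subtype.val e) inr_ne_inl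
    · have e' : l = l' := Subtype.ext (inr_injective (congrArg Subtype.val e))
      subst e'
      rfl
  · rintro ⟨s, hs⟩
    rcases (σ.mem_bd_Br δ _).1 hs with rfl | ⟨l, rfl, hl⟩
    · exact ⟨⟨none, trivial⟩, rfl⟩
    · exact ⟨⟨some ⟨l, hl⟩, trivial⟩, rfl⟩
  · rintro ⟨_ | l, _⟩
    · exact (h.2 δ).symm
    · rfl

theorem TUH.branch_zero (H : TUH z d R v i0 i1 i2 𝔽0 𝔽 c χ0 χ n0 n1 nn) (δ : σ.T.Dart)
    (hr : inl δ = σ.dir v i0) (h : χ0.ker) (hh : (h : G) = d (inl δ) ^ 𝔽0.m) :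
    χ h = 𝔽.u ^ σ.tlab 𝔽0 v i0 i1 n0 n1 nn (inl δ) 1 ∧
      ∀ b ∈ Z1 χ, b h = 0 → ∀ x : χ0.ker, (x : G) ∈ ⨆ w ∈ σ.Br δ, R w → b x = 0 := by
  obtain rfl : δ.fst = v := ((σ.dir_eq_inl_iff v i0 δ).1 hr.symm).1
  have h02 : i0 ≠ i2 := fun e => H.med.2.1 (by rw [e])
  have hk : χ0 (d (inl δ)) = 𝔽0.u ^ 2 ^ c := by
    rw [H.adm.chi0_slot h02 H.kum, hr]
    exact (σ.kum_dir_left _ H.med.2.1).1
  have n1' : ∀ l : {l // σ.dir δ.fst l = inl δ}, l.1 ≠ i1 := fun l e =>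
    H.med.1 (by rw [← hr, ← e, l.2])
  have n2' : ∀ l : {l // σ.dir δ.fst l = inl δ}, l.1 ≠ i2 := fun l e =>
    H.med.2.1 (by rw [← hr, ← e, l.2])
  have hs : ∑ l ∈ Finset.univ.filter (fun l => σ.dir δ.fst l = inl δ), nn l =
      ∑ l : {l // σ.dir δ.fst l = inl δ}, nn l.1 := Finset.sum_subtype _ (by simp) nn
  have ht : σ.tlab 𝔽0 δ.fst i0 i1 n0 n1 nn (inl δ) 1 =
      n0 + 𝔽0.m * ∑ l : {l // σ.dir δ.fst l = inl δ}, nn l.1 := by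
    rw [Shape.tlab, if_pos hr, hs]
  rw [ht]
  refine (H.adm.geo_TU2 δ).core_TU2 (c := c) ⟨i0, hr.symm⟩ (a0 := some ⟨i0, hr.symm⟩) (a2 := none)
    (Option.some_ne_none _) (fun i => or_comm) ⟨H.kum.1, ?_, ?_⟩ (Or.inl H.kum.1) n0
    (fun l => nn l.1) (H.nn0 _ (Or.inl rfl)) H.lab.1
    (fun l hl => H.lab.2.2 l.1 (fun e => hl (Subtype.ext e)) (n1' l) (n2' l)) ?_ h ?_
  · change χ0 (d (inl δ))⁻¹ = _
    rw [map_inv, hk]
  · rintro (_ | l) h0 h2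
    · exact absurd rfl h2
    · exact H.kum.2.2 l.1 (fun e => h0 (congrArg some (Subtype.ext e))) (n2' l)
  · refine lt_of_le_of_lt ?_ H.b0
    rw [← hs]
    exact Nat.add_le_add_left (Nat.mul_le_mul_left _
      (Finset.sum_le_sum_of_subset (Finset.subset_univ _))) _
  · change _ = (d (inl δ))⁻¹⁻¹ ^ _
    rw [inv_inv, hh]

theorem TUH.branch_infty (H : TUH z d R v i0 i1 i2 𝔽0 𝔽 c χ0 χ n0 n1 nn) (δ : σ.T.Dart)
    (hr : inl δ = σ.dir v i2) (h : χ0.ker) (hh : (h : G) = d (inl δ) ^ 𝔽0.m) :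
    ∀ b ∈ Z1 χ, b h = 0 → ∀ x : χ0.ker, (x : G) ∈ ⨆ w ∈ σ.Br δ, R w → b x = 0 := by
  obtain rfl : δ.fst = v := ((σ.dir_eq_inl_iff v i2 δ).1 hr.symm).1
  have h02 : i0 ≠ i2 := fun e => H.med.2.1 (by rw [e])
  have hk : χ0 (d (inl δ)) = (𝔽0.u ^ 2 ^ c)⁻¹ := by
    rw [H.adm.chi0_slot h02 H.kum, hr]
    exact (σ.kum_dir_left _ H.med.2.1).2
  have n0' : ∀ l : {l // σ.dir δ.fst l = inl δ}, l.1 ≠ i0 := fun l e =>
    H.med.2.1 (by rw [← hr, ← e, l.2])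
  have n1' : ∀ l : {l // σ.dir δ.fst l = inl δ}, l.1 ≠ i1 := fun l e =>
    H.med.2.2 (by rw [← hr, ← e, l.2])
  have hm : d (inr i2) ^ 𝔽0.m ∈ χ0.ker := by
    rw [MonoidHom.mem_ker, map_pow, 𝔽0.pow_m]
  obtain ⟨a, ha, hχ⟩ := 𝔽.exists_log (χ ⟨_, hm⟩)
  refine ((H.adm.geo_TU2 δ).core_TU2 (c := c) ⟨i2, hr.symm⟩ (a0 := none)
    (a2 := some ⟨i2, hr.symm⟩) (Option.some_ne_none _).symm (fun i => Iff.rfl) ⟨?_, H.kum.2.1, ?_⟩
    (Or.inr H.kum.2.1) a (fun l => nn l.1) (H.nn0 _ (Or.inr (Or.inr rfl))) ?_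
    (fun l hl => H.lab.2.2 l.1 (n0' l) (n1' l) fun e => hl (Subtype.ext e)) ?_ h ?_).2
  · change χ0 (d (inl δ))⁻¹ = _
    rw [map_inv, hk, inv_inv]
  · rintro (_ | l) h0 h2
    · exact absurd rfl h0
    · exact H.kum.2.2 l.1 (n0' l) fun e => h2 (congrArg some (Subtype.ext e))
  · intro g hg
    rw [← hχ]
    exact congrArg χ (Subtype.ext hg)
  · rw [Finset.sum_eq_zero fun l _ => H.nn0 l.1 (Or.inr (Or.inr (l.2.trans hr)))]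
    exact ha
  · change _ = (d (inl δ))⁻¹⁻¹ ^ _
    rw [inv_inv, hh]

end Pool.Agent.Adm
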