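import Pool.Agent.Adq.TU2

/-! Labels at the centre, and restriction of cocycles to the centre. -/

namespace Pool.Agent.Adm

open Sum

variable {n : ℕ} {σ : Shape n} {z : Pt σ} {G : Type} [Group G] [Finite G] {d : σ.Slot → G}
  {R : Fin σ.r → Subgroup G} {v : Fin σ.r} {i0 i1 i2 : Fin n} {𝔽0 𝔽 : FF} {c : ℕ}
  {χ0 : G →* 𝔽0.Fˣ} {χ : χ0.ker →* 𝔽.Fˣ} {n0 : ℕ} {n1 : 𝔽0.Fˣ → ℕ} {nn : Fin n → ℕ}

theorem sum_inr_TU3 (σ : Shape n) (v : Fin σ.r) (l : Fin n) (hl : σ.comp l = v)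
    (nn : Fin n → ℕ) :
    ∑ l' ∈ Finset.univ.filter (fun l' => σ.dir v l' = inr l), nn l' = nn l := by
  rw [Finset.sum_eq_single l]
  · intro l' h1 h2
    exact absurd ((σ.dir_eq_inr_iff v l' l).1 (Finset.mem_filter.1 h1).2).2 h2
  · intro h
    exact absurd (Finset.mem_filter.2 ⟨Finset.mem_univ l, (σ.dir_eq_inr_iff v l l).2 ⟨hl, rfl⟩⟩) h

theorem TUH.lab_zero (H : TUH z d R v i0 i1 i2 𝔽0 𝔽 c χ0 χ n0 n1 nn) (h : χ0.ker)
    (hh : (h : G) = d (σ.dir v i0) ^ 𝔽0.m) :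
    χ h = 𝔽.u ^ σ.tlab 𝔽0 v i0 i1 n0 n1 nn (σ.dir v i0) 1 := by
  rcases hs : σ.dir v i0 with δ | l
  · rw [hs] at hh
    exact (H.branch_zero δ hs.symm h hh).1
  · obtain ⟨h1, rfl⟩ := (σ.dir_eq_inr_iff v i0 l).1 hs
    rw [hs] at hh
    rw [Shape.tlab, if_pos hs.symm, sum_inr_TU3 σ v i0 h1, H.nn0 i0 (.inl rfl), mul_zero,
      add_zero]
    exact H.lab.1 h hh

theorem TUH.lab_ne (H : TUH z d R v i0 i1 i2 𝔽0 𝔽 c χ0 χ n0 n1 nn) {s : σ.Slot}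
    (hs : σ.base s = v) (h0 : s ≠ σ.dir v i0) (h2 : s ≠ σ.dir v i2) (γ : G) (h : χ0.ker)
    (hh : (h : G) = γ⁻¹ * d s * γ) : χ h = 𝔽.u ^ σ.tlab 𝔽0 v i0 i1 n0 n1 nn s (χ0 γ) := by
  rcases s with δ | l
  · exact (H.branch_unram δ hs h0 h2 γ h hh).1
  · have hl : σ.dir v l = inr l := (σ.dir_eq_inr_iff v l l).2 ⟨hs, rfl⟩
    rw [Shape.tlab, if_neg h0, sum_inr_TU3 σ v l hs]
    by_cases h1 : l = i1
    · subst h1
      rw [if_pos hl.symm, H.nn0 l (.inr (.inl rfl)), add_zero]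
      exact H.lab.2.1 γ h hh
    · rw [if_neg fun e => h1 ((σ.dir_eq_inr_iff v i1 l).1 e.symm).2.symm, zero_add]
      refine H.lab.2.2 l ?_ h1 ?_ γ h hh
      · rintro rfl
        exact h0 hl.symm
      · rintro rfl
        exact h2 hl.symm

/-- The value of the Kummer character at a ramified node. -/
theorem TUH.chi0_ram_TU3 (H : TUH z d R v i0 i1 i2 𝔽0 𝔽 c χ0 χ n0 n1 nn) (δ : σ.T.Dart)
    (hδ : δ.fst = v) (hr : inl δ = σ.dir v i0 ∨ inl δ = σ.dir v i2) :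
    χ0 (d (inl δ)) = 𝔽0.u ^ 2 ^ c ∨ χ0 (d (inl δ)) = (𝔽0.u ^ 2 ^ c)⁻¹ := by
  have h02 : i0 ≠ i2 := fun e => H.med.2.1 (by rw [e])
  rw [H.adm.chi0_slot h02 H.kum, Shape.kum, Shape.base_inl, hδ]
  rcases hr with hr | hr
  · left
    rw [if_pos hr.symm, if_neg fun e => H.med.2.1 (hr.symm.trans e.symm), mul_one]
  · right
    rw [if_pos hr.symm, if_neg fun e => H.med.2.1 (e.trans hr), one_mul]

theorem TUH.h1_le_centre (H : TUH z d R v i0 i1 i2 𝔽0 𝔽 c χ0 χ n0 n1 nn)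
    (hR : ⨆ w, R w = ⊤) : h1 χ ≤ h1 (χ.comp ((R v).subgroupOf χ0.ker).subtype) := by
  refine h1_le_of_restr χ _ fun b hb hb0 => ?_
  have hc : ∀ x : χ0.ker, (x : G) ∈ R v → b x = 0 := fun x hx => hb0 ⟨x, hx⟩
  obtain ⟨K0, hK0⟩ := Z1.exists_ker hb
  have hK : ∀ x (hx : x ∈ χ0.ker), x ∈ K0.map χ0.ker.subtype ↔ b ⟨x, hx⟩ = 0 := by
    intro x hx
    rw [← hK0]
    refine ⟨?_, fun h => ⟨⟨x, hx⟩, h, rfl⟩⟩
    rintro ⟨y, hy, rfl⟩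
    exact hy
  have hmem : ∀ δ : {δ : σ.T.Dart // δ.fst = v}, d (inl δ.1) ∈ R v := by
    intro δ
    have h1 := (H.adm.mem_branch δ.1).1
    rwa [δ.2] at h1
  have key : χ0.ker ≤ K0.map χ0.ker.subtype := by
    refine ker_le_of_pieces χ0 (R v)
      (fun δ : {δ : σ.T.Dart // δ.fst = v} => ⨆ w ∈ σ.Br δ.1, R w) (fun δ => d (inl δ.1)) hmem
      (fun δ => (H.adm.mem_branch δ.1).2) ((σ.iSup_eq_branches R v).symm.trans hR) ?_ _ ?_ ?_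
    · intro δ x hx
      by_cases hr : inl δ.1 = σ.dir v i0 ∨ inl δ.1 = σ.dir v i2
      · obtain ⟨γ, hγ⟩ := exists_section 𝔽0 χ0 c _ (H.chi0_ram_TU3 δ.1 δ.2 hr)
        obtain ⟨h1, j, h2⟩ := hγ (χ0 x)
        exact ⟨j, by rw [← h1, ← h2, map_zpow]⟩
      · rw [not_or] at hr
        rw [H.adm.chi0_branch H.kum δ.1 (δ.2.symm ▸ hr.1) (δ.2.symm ▸ hr.2) x hx]
        exact one_mem _
    · intro x hx
      exact (hK x hx.2).2 (hc _ hx.1)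
    · intro δ γ hγ x hx hx1
      have hk : ∀ γ' : G, γ'⁻¹ * x * γ' ∈ χ0.ker := fun γ' => by
        rw [MonoidHom.mem_ker, map_mul, map_mul, hx1, mul_one, map_inv, inv_mul_cancel]
      by_cases hr : inl δ.1 = σ.dir v i0 ∨ inl δ.1 = σ.dir v i2
      · obtain ⟨s, hs⟩ := exists_section 𝔽0 χ0 c _ (H.chi0_ram_TU3 δ.1 δ.2 hr)
        obtain ⟨h1, h2⟩ := hs (χ0 γ)
        have h3 : s (χ0 γ) ∈ R v := (Subgroup.zpowers_le.2 (hmem δ)) h2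
        have h4 : s (χ0 γ) ∈ ⨆ w ∈ σ.Br δ.1, R w :=
          (Subgroup.zpowers_le.2 (H.adm.mem_branch δ.1).2) h2
        have h5 : (s (χ0 γ))⁻¹ * γ ∈ χ0.ker := by
          rw [MonoidHom.mem_ker, map_mul, map_inv, h1, inv_mul_cancel]
        have h6 : (s (χ0 γ))⁻¹ * γ ∈ K0.map χ0.ker.subtype :=
          (hK _ h5).2 (hc _ (mul_mem (inv_mem h3) hγ))
        have hm : d (inl δ.1) ^ 𝔽0.m ∈ χ0.ker := by
          rw [MonoidHom.mem_ker, map_pow, 𝔽0.pow_m]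
        have hm0 : b ⟨_, hm⟩ = 0 := hc _ (pow_mem (hmem δ) _)
        have h7 : (s (χ0 γ))⁻¹ * x * s (χ0 γ) ∈ K0.map χ0.ker.subtype := by
          refine (hK _ (hk _)).2 ?_
          have h8 := mul_mem (mul_mem (inv_mem h4) hx) h4
          rcases hr with hr | hr
          · exact (H.branch_zero δ.1 hr ⟨_, hm⟩ rfl).2 b hb hm0 _ h8
          · exact H.branch_infty δ.1 hr ⟨_, hm⟩ rfl b hb hm0 _ h8
        have h9 := mul_mem (mul_mem (inv_mem h6) h7) h6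
        rwa [show ((s (χ0 γ))⁻¹ * γ)⁻¹ * ((s (χ0 γ))⁻¹ * x * s (χ0 γ)) * ((s (χ0 γ))⁻¹ * γ) =
          γ⁻¹ * x * γ by group] at h9
      · rw [not_or] at hr
        have h1 : χ0 (d (inl δ.1)) = 1 :=
          H.adm.chi0_branch H.kum δ.1 (δ.2.symm ▸ hr.1) (δ.2.symm ▸ hr.2) _
            (H.adm.mem_branch δ.1).2
        have hm : γ⁻¹ * d (inl δ.1) * γ ∈ χ0.ker := by
          rw [MonoidHom.mem_ker, map_mul, map_mul, h1, mul_one, map_inv, inv_mul_cancel]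
        refine (hK _ (hk γ)).2 ((H.branch_unram δ.1 δ.2 hr.1 hr.2 γ ⟨_, hm⟩ rfl).2 b hb
          (hc _ (mul_mem (mul_mem (inv_mem hγ) (hmem δ)) hγ)) _ ?_)
        rwa [show γ * (γ⁻¹ * x * γ) * γ⁻¹ = x by group]
  funext x
  exact (hK x.1 x.2).1 (key x.2)

end Pool.Agent.Adm
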