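import Pool.Agent.Adq.D1
import Pool.Agent.Adm.EX2

/-! The Kummer extension with several Artin-Schreier extensions on top. -/

namespace Pool.Agent.Adm

theorem step_VE1 {F K Ω I : Type} [Field F] [Fintype F] [Field K] [Field Ω] [Algebra K Ω]
    (θ : F →+* K) (f : K) (h : I → K) (y y' : Ω) (w w' : I → Ω) (hy0 : y ≠ 0)
    (hy : y ^ (Fintype.card F - 1) = algebraMap K Ω f)
    (hw : ∀ i, w i ^ Fintype.card F - w i = algebraMap K Ω (h i) * y)
    (hy' : y' ^ (Fintype.card F - 1) = algebraMap K Ω f)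
    (hw' : ∀ i, w' i ^ Fintype.card F - w' i = algebraMap K Ω (h i) * y') :
    ∃ g : AffV F I, y' = algebraMap K Ω (θ g.u) * y ∧
      ∀ i, w' i = algebraMap K Ω (θ g.u) * w i + algebraMap K Ω (θ (g.b i)) := by
  obtain ⟨g0, g1, -⟩ := step_EX2 θ f 0 y 0 y' 0 hy0 hy
    (by rw [zero_pow Fintype.card_ne_zero, map_zero, zero_mul, sub_zero]) hy'
    (by rw [zero_pow Fintype.card_ne_zero, map_zero, zero_mul, sub_zero])
  choose g e1 e2 using fun i => step_EX2 θ f (h i) y (w i) y' (w' i) hy0 hy (hw i) hy' (hw' i)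
  refine ⟨⟨g0.u, fun i => (g i).b⟩, g1, fun i => ?_⟩
  have e3 := mul_right_cancel₀ hy0 (g1.symm.trans (e1 i))
  change w' i = algebraMap K Ω (θ g0.u) * w i + algebraMap K Ω (θ (g i).b)
  rw [e3]
  exact e2 i

theorem uniq_VE1 {F K Ω I : Type} [Field F] [Field K] [Field Ω] [Algebra K Ω]
    (θ : F →+* K) (y : Ω) (w : I → Ω) (hy0 : y ≠ 0) (g g' : AffV F I)
    (h1 : algebraMap K Ω (θ g.u) * y = algebraMap K Ω (θ g'.u) * y)
    (h2 : ∀ i, algebraMap K Ω (θ g.u) * w i + algebraMap K Ω (θ (g.b i)) =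
      algebraMap K Ω (θ g'.u) * w i + algebraMap K Ω (θ (g'.b i))) : g = g' := by
  have e1 := mul_right_cancel₀ hy0 h1
  refine AffV.ext (Units.ext (θ.injective ((algebraMap K Ω).injective e1))) (funext fun i => ?_)
  have h3 := h2 i
  rw [e1] at h3
  exact θ.injective ((algebraMap K Ω).injective (add_left_cancel h3))

theorem conjy_VE1 {K Ω Ω' : Type} [Field K] [Field Ω] [Algebra K Ω] [Field Ω'] [Algebra K Ω']
    (m : ℕ) (f : K) (y : Ω) (σ : Ω →ₐ[K] Ω') (hy : y ^ m = algebraMap K Ω f) :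
    σ y ^ m = algebraMap K Ω' f := by
  rw [← map_pow, hy, AlgHom.commutes]

theorem hom_VE1 {F K L I : Type} [Field F] [Fintype F] [Field K] [Field L] [Algebra K L]
    (θ : F →+* K) (f : K) (h : I → K) (y : L) (w : I → L) (hy0 : y ≠ 0)
    (hy : y ^ (Fintype.card F - 1) = algebraMap K L f)
    (hw : ∀ i, w i ^ Fintype.card F - w i = algebraMap K L (h i) * y) :
    ∃ ι : (L ≃ₐ[K] L) →* AffV F I, (∀ σ : L ≃ₐ[K] L, σ y = algebraMap K L (θ (ι σ).u) * y) ∧
      ∀ (σ : L ≃ₐ[K] L) (i : I),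
        σ (w i) = algebraMap K L (θ (ι σ).u) * w i + algebraMap K L (θ ((ι σ).b i)) := by
  have key : ∀ σ : L ≃ₐ[K] L, ∃ g : AffV F I, σ y = algebraMap K L (θ g.u) * y ∧
      ∀ i, σ (w i) = algebraMap K L (θ g.u) * w i + algebraMap K L (θ (g.b i)) := fun σ =>
    step_VE1 θ f h y (σ y) w (fun i => σ (w i)) hy0 hy hw (conjy_VE1 _ f y (σ : L →ₐ[K] L) hy)
      fun i => (conj_EX2 _ f (h i) y (w i) (σ : L →ₐ[K] L) hy (hw i)).2
  choose j hj1 hj2 using key
  refine ⟨MonoidHom.mk' j fun σ τ => uniq_VE1 θ y w hy0 _ _ ?_ fun i => ?_, hj1, hj2⟩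
  · rw [← hj1, AlgEquiv.mul_apply, hj1 τ, map_mul, AlgEquiv.commutes, hj1 σ]
    simp only [AffV.mul_u, Units.val_mul, map_mul]
    ring
  · rw [← hj2, AlgEquiv.mul_apply, hj2 τ, map_add, map_mul, AlgEquiv.commutes, AlgEquiv.commutes,
      hj2 σ]
    simp only [AffV.mul_u, AffV.mul_b, Units.val_mul, map_mul, map_add]
    ring

open IntermediateField Polynomial in
theorem gal_VE1 {F K Ω I : Type} [Field F] [Fintype F] [Finite I] [Field K] [Field Ω]
    [Algebra K Ω] [Normal K Ω] (θ : F →+* K) (f : K) (h : I → K) (hf : f ≠ 0) (y : Ω)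
    (w : I → Ω) (hy0 : y ≠ 0) (hy : y ^ (Fintype.card F - 1) = algebraMap K Ω f)
    (hw : ∀ i, w i ^ Fintype.card F - w i = algebraMap K Ω (h i) * y) :
    FiniteDimensional K (adjoin K (insert y (Set.range w))) ∧
      IsGalois K (adjoin K (insert y (Set.range w))) := by
  have sy : IsSeparable K y := by
    refine (separable_X_pow_sub_C f (card_sub_one_cast_ne_zero θ) hf).of_dvd
      (minpoly.dvd K y ?_)
    simp [hy]
  have sw : ∀ i, IsSeparable K (w i) := fun i => by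
    have := (isSeparable_adjoin_simple_iff_isSeparable K Ω).2 sy
    refine IsSeparable.of_algebra_isSeparable_of_isSeparable K (E := K⟮y⟯) ?_
    refine sepAS_EX2 (Fintype.card F) (card_cast_eq_zero ((algebraMap K K⟮y⟯).comp θ))
      (algebraMap K K⟮y⟯ (h i) * AdjoinSimple.gen K y) (w i) ?_
    rw [hw, map_mul, AdjoinSimple.algebraMap_gen, ← IsScalarTower.algebraMap_apply]
  have sep : ∀ x ∈ insert y (Set.range w), IsSeparable K x := by
    rintro x (rfl | ⟨i, rfl⟩)
    exacts [sy, sw i]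
  have hsep : Algebra.IsSeparable K (adjoin K (insert y (Set.range w))) :=
    (isSeparable_adjoin_iff_isSeparable K Ω).2 sep
  have hnor : Normal K (adjoin K (insert y (Set.range w))) := by
    rw [normal_iff_forall_map_le]
    intro σ
    obtain ⟨g, g1, g2⟩ := step_VE1 θ f h y (σ y) w (fun i => σ (w i)) hy0 hy hw
      (conjy_VE1 _ f y σ hy) fun i => (conj_EX2 _ f (h i) y (w i) σ hy (hw i)).2
    have my : y ∈ adjoin K (insert y (Set.range w)) := subset_adjoin _ _ (Set.mem_insert _ _)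
    have mw : ∀ i, w i ∈ adjoin K (insert y (Set.range w)) := fun i =>
      subset_adjoin _ _ (Set.mem_insert_of_mem _ ⟨i, rfl⟩)
    rw [adjoin_map, adjoin_le_iff]
    rintro _ ⟨x, (rfl | ⟨i, rfl⟩), rfl⟩
    · rw [g1]
      exact mul_mem (IntermediateField.algebraMap_mem _ _) my
    · have g3 : σ (w i) = _ := g2 i
      rw [g3]
      exact add_mem (mul_mem (IntermediateField.algebraMap_mem _ _) (mw i))
        (IntermediateField.algebraMap_mem _ _)
  have hfin : Finite (insert y (Set.range w) : Set Ω) :=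
    ((Set.finite_range w).insert y).to_subtype
  exact ⟨finiteDimensional_adjoin fun x hx => (sep x hx).isIntegral, IsGalois.mk⟩

theorem exists_affV_ext {k F I : Type} [Field k] [Field F] [Fintype F] [Finite I] (θ : F →+* k)
    (f : RatFunc k) (h : I → RatFunc k) (hf : f ≠ 0) :
    ∃ (c : Cover k (AffV F I)) (y : c.L) (w : I → c.L),
      y ^ (Fintype.card F - 1) = algebraMap (RatFunc k) c.L f ∧
      (∀ i, w i ^ Fintype.card F - w i = algebraMap (RatFunc k) c.L (h i) * y) ∧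
      IntermediateField.adjoin (RatFunc k) (insert y (Set.range w)) = ⊤ ∧
      (∀ σ : c.L ≃ₐ[RatFunc k] c.L,
        σ y = algebraMap (RatFunc k) c.L (RatFunc.C (θ (c.ι σ).u)) * y) ∧
      ∀ (σ : c.L ≃ₐ[RatFunc k] c.L) (i : I),
        σ (w i) = algebraMap (RatFunc k) c.L (RatFunc.C (θ (c.ι σ).u)) * w i +
          algebraMap (RatFunc k) c.L (RatFunc.C (θ ((c.ι σ).b i))) := by
  have hq : 1 < Fintype.card F := Fintype.one_lt_card
  let Ω := AlgebraicClosure (RatFunc k)
  let θ' : F →+* RatFunc k := (RatFunc.C : k →+* RatFunc k).comp θ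
  obtain ⟨y, hy⟩ := IsAlgClosed.exists_pow_nat_eq (algebraMap (RatFunc k) Ω f)
    (n := Fintype.card F - 1) (by omega)
  have hy0 : y ≠ 0 := by
    rintro rfl
    rw [zero_pow (by omega)] at hy
    exact hf ((map_eq_zero _).1 hy.symm)
  choose w hw using fun i => exists_AS_EX2 _ hq (algebraMap (RatFunc k) Ω (h i) * y)
  obtain ⟨hfin, hgal⟩ := gal_VE1 θ' f h hf y w hy0 hy hw
  let L := IntermediateField.adjoin (RatFunc k) (insert y (Set.range w) : Set Ω)
  have my : y ∈ L := IntermediateField.subset_adjoin _ _ (Set.mem_insert _ _)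
  have mw : ∀ i, w i ∈ L := fun i =>
    IntermediateField.subset_adjoin _ _ (Set.mem_insert_of_mem _ ⟨i, rfl⟩)
  have hy' : (⟨y, my⟩ : L) ^ (Fintype.card F - 1) = algebraMap (RatFunc k) L f :=
    Subtype.ext (by simpa using hy)
  have hw' : ∀ i, (⟨w i, mw i⟩ : L) ^ Fintype.card F - ⟨w i, mw i⟩ =
      algebraMap (RatFunc k) L (h i) * ⟨y, my⟩ := fun i => Subtype.ext (by simpa using hw i)
  have hy0' : (⟨y, my⟩ : L) ≠ 0 := fun e => hy0 (congrArg Subtype.val e)
  obtain ⟨ι, h1, h2⟩ := hom_VE1 θ' f h _ (fun i => (⟨w i, mw i⟩ : L)) hy0' hy' hw'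
  refine ⟨⟨L, ι⟩, ⟨y, my⟩, fun i => ⟨w i, mw i⟩, hy', hw', ?_, h1, h2⟩
  apply IntermediateField.lift_injective L
  rw [IntermediateField.lift_adjoin, IntermediateField.lift_top, Set.image_insert_eq,
    ← Set.range_comp]
  rfl

end Pool.Agent.Adm
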