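import Pool.Agent.Adq.VE1
import Pool.Agent.Adq.FFL
import Pool.Agent.Adm.EX

/-! Tameness of the affine covering defined by solutions at infinity. -/

namespace Pool.Agent.Adm

open scoped OnePoint
open Polynomial

section

variable {k F G : Type} [Field k] [Field F] [Fintype F] [Group G]

theorem local_VE2 [IsAlgClosed k] {I : Type} (θ : F →+* k) (c : Cover k G) (y : c.L)
    (w : I → c.L) (f : RatFunc k) (h : I → RatFunc k) (hf : f ≠ 0)
    (hy : y ^ (Fintype.card F - 1) = algebraMap (RatFunc k) c.L f)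
    (hw : ∀ i, w i ^ Fintype.card F - w i = algebraMap (RatFunc k) c.L (h i) * y)
    (hS : IntermediateField.adjoin (RatFunc k) (insert y (Set.range w)) = ⊤)
    (a : OnePoint k) (j0 : RatFunc k →+* LaurentSeries k)
    (hC : ∀ x, j0 (RatFunc.C x) = HahnSeries.C x)
    (hX : j0 RatFunc.X = expand a (Fintype.card F - 1)) (N : ℤ)
    (hN : (j0 f).order = ((Fintype.card F - 1 : ℕ) : ℤ) * N)
    (hW : ∀ y1 : LaurentSeries k, y1 ^ (Fintype.card F - 1) = j0 f → y1.order = N →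
      ∀ i, ∃ W : LaurentSeries k, W ^ Fintype.card F - W = j0 (h i) * y1)
    (ζ : k) (hζ : IsPrimitiveRoot ζ (Fintype.card F - 1)) :
    ∃ g, c.Mono a (Fintype.card F - 1) ζ g := by
  have hq : 1 < Fintype.card F := Fintype.one_lt_card
  have hm : 0 < Fintype.card F - 1 := by omega
  have hf0 : j0 f ≠ 0 := (map_ne_zero j0).2 hf
  have hord : ∀ y1 : LaurentSeries k, y1 ^ (Fintype.card F - 1) = j0 f → y1.order = N := by
    intro y1 h1
    have h2 := HahnSeries.order_pow y1 (Fintype.card F - 1)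
    rw [h1, hN, nsmul_eq_mul] at h2
    exact (mul_left_cancel₀ (by exact_mod_cast hm.ne') h2).symm
  obtain ⟨y0, hy0⟩ := exists_pow_eq (Fintype.card F - 1) (card_sub_one_cast_ne_zero θ) (j0 f)
    ⟨N, hN⟩
  have hy00 : y0 ≠ 0 := by
    rintro rfl
    rw [zero_pow hm.ne'] at hy0
    exact hf0 hy0.symm
  obtain ⟨j, hj⟩ := exists_extension j0 _ hS (fun J hJ => by
    set ι := algebraMap (LaurentSeries k) (AlgebraicClosure (LaurentSeries k)) with hι
    have hinj : Function.Injective ι := ι.injective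
    have h1 : J y ^ (Fintype.card F - 1) = ι (j0 f) := by rw [← map_pow, hy, hJ]
    have h2 : ι y0 ≠ 0 := (map_ne_zero ι).2 hy00
    obtain ⟨u, hu⟩ := exists_unit_of_pow_card_sub_one (ι.comp (HahnSeries.C.comp θ))
      (J y / ι y0) (by
        rw [div_pow, h1, ← map_pow, hy0]
        exact div_self ((map_ne_zero ι).2 hf0))
    have h3 : J y = ι (HahnSeries.C (θ u) * y0) := by
      rw [map_mul]
      exact ((eq_div_iff h2).1 hu).symm
    have h4 : (HahnSeries.C (θ u) * y0) ^ (Fintype.card F - 1) = j0 f := by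
      apply hinj
      rw [map_pow, ← h3, h1]
    rintro s (rfl | ⟨i, rfl⟩)
    · exact ⟨_, h3.symm⟩
    · obtain ⟨W, hW1⟩ := hW _ h4 (hord _ h4) i
      obtain ⟨b, hb⟩ := exists_eq_of_pow_card (ι.comp (HahnSeries.C.comp θ)) (J (w i) - ι W) (by
        rw [sub_pow_card_of_hom (ι.comp (HahnSeries.C.comp θ))]
        have h5 : J (w i) ^ Fintype.card F - J (w i) = ι W ^ Fintype.card F - ι W := by
          rw [← map_pow, ← map_sub, hw, map_mul, hJ, h3, ← map_mul, ← hW1, map_sub, map_pow]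
        linear_combination h5)
      refine ⟨HahnSeries.C (θ b) + W, ?_⟩
      rw [map_add]
      exact (eq_sub_iff_add_eq.1 hb))
  obtain ⟨σ, h1, -⟩ := c.exists_mono_of_chart a _ hm ζ hζ j (fun x => by rw [hj, hC])
    (by rw [hj, hX])
  exact ⟨c.ι σ, h1⟩

theorem sum_pow_VE2 {R I : Type} [CommRing R] (ψ : F →+* R) (s : Finset I) (x : I → R) :
    (∑ i ∈ s, x i) ^ Fintype.card F = ∑ i ∈ s, x i ^ Fintype.card F := by
  classical
  induction s using Finset.induction_on with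
  | empty => simp
  | insert i s hi ih => rw [Finset.sum_insert hi, Finset.sum_insert hi, frob_EX1 ψ, ih]

theorem fix_VE2 (θ : F →+* k) (c : Cover k G) (y w : c.L) (f h : RatFunc k) (hf : f ≠ 0)
    (hy : y ^ (Fintype.card F - 1) = algebraMap (RatFunc k) c.L f)
    (hw : w ^ Fintype.card F - w = algebraMap (RatFunc k) c.L h * y)
    (u : (c.L ≃ₐ[RatFunc k] c.L) → Fˣ) (β : F)
    (hσ : ∀ σ : c.L ≃ₐ[RatFunc k] c.L,
      σ y = algebraMap (RatFunc k) c.L (RatFunc.C (θ (u σ))) * y)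
    (hσ' : ∀ σ : c.L ≃ₐ[RatFunc k] c.L,
      σ w = algebraMap (RatFunc k) c.L (RatFunc.C (θ (u σ))) * w +
        algebraMap (RatFunc k) c.L (RatFunc.C (θ (β * (1 - u σ))))) :
    ∃ r : RatFunc k, r ^ Fintype.card F * f - r = h := by
  have hq : 1 < Fintype.card F := Fintype.one_lt_card
  have hm : 0 < Fintype.card F - 1 := by omega
  set τ : F →+* c.L := (algebraMap (RatFunc k) c.L).comp
    ((RatFunc.C : k →+* RatFunc k).comp θ) with hτ
  have hτ1 : ∀ x, algebraMap (RatFunc k) c.L (RatFunc.C (θ x)) = τ x := fun _ => rfl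
  have hy0 : y ≠ 0 := by
    rintro rfl
    rw [zero_pow hm.ne'] at hy
    exact (map_ne_zero (algebraMap (RatFunc k) c.L)).2 hf hy.symm
  have h1 : ∀ σ : c.L ≃ₐ[RatFunc k] c.L, σ ((w - τ β) / y) = (w - τ β) / y := by
    intro σ
    have h4 : τ (u σ) ≠ 0 := (map_ne_zero τ).2 (u σ).ne_zero
    have h5 : σ (τ β) = τ β := by rw [← hτ1, AlgEquiv.commutes]
    rw [map_div₀, map_sub, hσ, hσ', h5, hτ1, hτ1, div_eq_div_iff (mul_ne_zero h4 hy0) hy0,
      map_mul, map_sub, map_one]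
    ring
  obtain ⟨r, hr⟩ := (IsGalois.mem_bot_iff_fixed (F := RatFunc k) _).2 h1
  have hr' : algebraMap (RatFunc k) c.L r * y = w - τ β := (eq_div_iff hy0).1 hr
  refine ⟨r, (algebraMap (RatFunc k) c.L).injective ?_⟩
  rw [map_sub, map_mul, map_pow, ← hy]
  apply mul_right_cancel₀ hy0
  have h6 : y ^ Fintype.card F = y ^ (Fintype.card F - 1) * y := by
    rw [← pow_succ, Nat.sub_add_cancel hq.le]
  have h7 : τ β ^ Fintype.card F = τ β := by rw [← map_pow, FiniteField.pow_card]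
  have h8 : (algebraMap (RatFunc k) c.L r * y) ^ Fintype.card F = w ^ Fintype.card F - τ β := by
    rw [hr', sub_pow_card_of_hom τ, h7]
  rw [mul_pow, h6] at h8
  linear_combination h8 - hr' + hw

end

theorem exists_affV_of_sol {k I : Type} [Field k] [IsAlgClosed k] [Fintype I]
    {J : OnePoint k → RatFunc k →+* LaurentSeries k} (hJ : IsCharts J) (θ : K0 →+* k) (𝔽 : FF)
    (f : k[X]) (hf : f ≠ 0) (h : I → k[X]) (V : I → LaurentSeries k)
    (hV : ∀ i, V i ^ Fintype.card 𝔽.F * J ∞ (algebraMap k[X] (RatFunc k) f) - V i =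
      J ∞ (algebraMap k[X] (RatFunc k) (h i))) :
    ∃ c : Cover k (AffV 𝔽.F I), (∀ a, ∃ g, c.M θ a g) ∧
      (∀ (a : k) g, c.M θ a g → g.u = 𝔽.u ^ f.rootMultiplicity a) ∧
      (∀ g, c.M θ ∞ g → g.u * 𝔽.u ^ f.natDegree = 1) ∧
      ∀ (lam : I → 𝔽.F) (β : 𝔽.F),
        (∀ g ∈ c.ι.range, ∑ i, lam i * g.b i = β * (1 - g.u)) →
        ∃ r : RatFunc k, r ^ Fintype.card 𝔽.F * algebraMap k[X] (RatFunc k) f - r =
          algebraMap k[X] (RatFunc k) (∑ i, C (θ (𝔽.θ (lam i))) * h i) := by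
  have hq : 1 < Fintype.card 𝔽.F := Fintype.one_lt_card
  have hm : 0 < Fintype.card 𝔽.F - 1 := by omega
  have hf' : algebraMap k[X] (RatFunc k) f ≠ 0 := by
    rwa [Ne, IsFractionRing.to_map_eq_zero_iff]
  obtain ⟨c, y, w, hy, hw, hS, hσ, hσ'⟩ := exists_affV_ext (θ.comp 𝔽.θ) _
    (fun i => algebraMap k[X] (RatFunc k) (h i)) hf'
  have hC : ∀ a x, ((powL _ hm).comp (J a)) (RatFunc.C x) = HahnSeries.C x := fun a x => by
    rw [RingHom.comp_apply, (hJ a).1, powL_C]
  have hX : ∀ a, ((powL _ hm).comp (J a)) RatFunc.X = expand a (Fintype.card 𝔽.F - 1) :=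
    fun a => by rw [RingHom.comp_apply, (hJ a).2, powL_expand, mul_one]
  have ho : Odd (Fintype.card 𝔽.F - 1) := 𝔽.card_sub_one ▸ 𝔽.m_odd
  have hζ := (xi_prim ho).map_of_injective θ.injective
  obtain ⟨l1, l2⟩ := c.M_lab_of_gen θ 𝔽 AffV.lin y f hf hσ (𝔽.card_sub_one ▸ hy)
  refine ⟨c, fun a => ?_, l1, l2, fun lam β hβ => ?_⟩
  · suffices ∃ g, c.Mono a _ _ g from this.imp fun g hg => ⟨_, ho, hg⟩
    induction a using OnePoint.rec with
    | infty =>
      refine local_VE2 (θ.comp 𝔽.θ) c y w _ _ hf' hy hw hS ∞ _ (hC ∞) (hX ∞)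
        (-(f.natDegree : ℤ)) ?_ (fun y1 h1 _ i => ?_) _ hζ
      · rw [hom_algebraMap _ _ _ (hC ∞) (hX ∞), order_eval₂_expand_infty _ hm f hf, mul_neg]
      · refine ⟨powL _ hm (V i) * y1, ?_⟩
        have h6 : y1 ^ Fintype.card 𝔽.F = y1 ^ (Fintype.card 𝔽.F - 1) * y1 := by
          rw [← pow_succ, Nat.sub_add_cancel hq.le]
        rw [RingHom.comp_apply] at h1
        rw [RingHom.comp_apply, ← hV, map_sub, map_mul, map_pow, mul_pow, h6, h1]
        ring
    | coe a =>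
      refine local_VE2 (θ.comp 𝔽.θ) c y w _ _ hf' hy hw hS a _ (hC a) (hX a)
        (f.rootMultiplicity a : ℤ) ?_ (fun y1 _ h2 i => ?_) _ hζ
      · rw [hom_algebraMap _ _ _ (hC a) (hX a), order_eval₂_expand_coe a _ hm f hf]
      · apply exists_as_root _ hq (card_cast_eq_zero (θ.comp 𝔽.θ))
        refine Reg.mul (reg_of_order_EX ?_) (reg_of_order_EX (by rw [h2]; positivity))
        rcases eq_or_ne (h i) 0 with h0 | hh
        · simp [h0]
        · rw [hom_algebraMap _ _ _ (hC a) (hX a), order_eval₂_expand_coe a _ hm _ hh]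
          positivity
  · set τ : 𝔽.F →+* c.L := (algebraMap (RatFunc k) c.L).comp
      ((RatFunc.C : k →+* RatFunc k).comp (θ.comp 𝔽.θ)) with hτ
    have hτ1 : ∀ x, algebraMap (RatFunc k) c.L (RatFunc.C ((θ.comp 𝔽.θ) x)) = τ x := fun _ => rfl
    refine fix_VE2 (θ.comp 𝔽.θ) c y (∑ i, τ (lam i) * w i) _ _ hf' hy ?_ (fun σ => (c.ι σ).u) β
      hσ fun σ => ?_
    · rw [sum_pow_VE2 τ, ← Finset.sum_sub_distrib, map_sum, map_sum, Finset.sum_mul]
      refine Finset.sum_congr rfl fun i _ => ?_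
      rw [mul_pow, ← map_pow, FiniteField.pow_card, ← mul_sub, hw, map_mul, map_mul, mul_assoc,
        RatFunc.algebraMap_C]
      rfl
    · rw [← hβ _ ⟨σ, rfl⟩, hτ1, hτ1, map_sum, map_sum, Finset.mul_sum, ← Finset.sum_add_distrib]
      refine Finset.sum_congr rfl fun i _ => ?_
      rw [map_mul, map_mul, hσ', ← hτ1 (lam i), AlgEquiv.commutes, hτ1, hτ1, hτ1]
      ring

end Pool.Agent.Adm
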