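import Pool.Agent.Adm.LabL

/-! A compatible system of roots of unity in the algebraic closure of the field with two
elements. -/

namespace Pool.Agent.Adm

/-- The algebraic closure of the field with two elements. -/
abbrev K0 : Type := AlgebraicClosure (ZMod 2)

/-- The product of the first odd numbers. -/
def oddProd_Xi (n : ℕ) : ℕ := ∏ i ∈ Finset.range n, (2 * i + 1)

theorem oddProd_pos_Xi (n : ℕ) : 0 < oddProd_Xi n :=
  Finset.prod_pos fun _ _ => Nat.succ_pos _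

theorem dvd_oddProd_Xi {e : ℕ} (he : Odd e) : e ∣ oddProd_Xi e := by
  obtain ⟨j, rfl⟩ := he
  exact Finset.dvd_prod_of_mem (fun i => 2 * i + 1) (Finset.mem_range.2 (by omega : j < 2 * j + 1))

theorem odd_ne_zero_Xi (n : ℕ) : ((2 * n + 1 : ℕ) : K0) ≠ 0 := by
  rw [Ne, CharP.cast_eq_zero_iff K0 2]
  omega

theorem exists_tower_Xi : ∃ ζ : ℕ → K0, (∀ n, IsPrimitiveRoot (ζ n) (oddProd_Xi n)) ∧
    ∀ n, ζ (n + 1) ^ (2 * n + 1) = ζ n := by
  have step : ∀ (n : ℕ) (z : {z : K0 // IsPrimitiveRoot z (oddProd_Xi n)}),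
      ∃ w : {w : K0 // IsPrimitiveRoot w (oddProd_Xi (n + 1))}, w.1 ^ (2 * n + 1) = z.1 := by
    intro n z
    obtain ⟨w, h1, h2⟩ := exists_root_lift (odd_ne_zero_Xi n) (oddProd_pos_Xi n) z.2
    exact ⟨⟨w, by rwa [oddProd_Xi, Finset.prod_range_succ]⟩, h2⟩
  choose f hf using step
  let ζ : ∀ n, {z : K0 // IsPrimitiveRoot z (oddProd_Xi n)} := fun n =>
    Nat.rec ⟨1, IsPrimitiveRoot.one⟩ f n
  exact ⟨fun n => (ζ n).1, fun n => (ζ n).2, fun n => hf n (ζ n)⟩

theorem exists_xi : ∃ ξ : ℕ → K0, (∀ e, Odd e → IsPrimitiveRoot (ξ e) e) ∧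
    ∀ e e', Odd e → Odd e' → ξ (e * e') ^ e' = ξ e := by
  obtain ⟨ζ, h1, h2⟩ := exists_tower_Xi
  have h3 : ∀ n n', n ≤ n' → ∃ c, oddProd_Xi n' = oddProd_Xi n * c ∧ ζ n' ^ c = ζ n := by
    intro n n' h
    induction n', h using Nat.le_induction with
    | base => exact ⟨1, (mul_one _).symm, pow_one _⟩
    | succ m _ ih =>
      obtain ⟨c, a1, a2⟩ := ih
      refine ⟨(2 * m + 1) * c, ?_, by rw [pow_mul, h2, a2]⟩
      rw [oddProd_Xi, Finset.prod_range_succ, ← oddProd_Xi, a1]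
      ring
  refine ⟨fun e => ζ e ^ (oddProd_Xi e / e), fun e he => ?_, fun e e' he he' => ?_⟩
  · exact (h1 e).pow (oddProd_pos_Xi e) (Nat.div_mul_cancel (dvd_oddProd_Xi he)).symm
  · obtain ⟨c, a1, a2⟩ := h3 e (e * e') (Nat.le_mul_of_pos_right e he'.pos)
    obtain ⟨a, ha⟩ := dvd_oddProd_Xi he
    obtain ⟨b, hb⟩ := dvd_oddProd_Xi (he.mul he')
    have e1 : b * e' = c * a := by
      refine Nat.eq_of_mul_eq_mul_left he.pos ?_
      rw [ha] at a1
      rw [show e * (b * e') = e * e' * b by ring, ← hb, a1]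
      ring
    have e2 : oddProd_Xi (e * e') / (e * e') = b := by
      rw [hb, Nat.mul_div_cancel_left _ (he.mul he').pos]
    have e3 : oddProd_Xi e / e = a := by
      rw [ha, Nat.mul_div_cancel_left _ he.pos]
    simp only [e2, e3]
    rw [← pow_mul, e1, pow_mul, a2]

end Pool.Agent.Adm
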